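import Pool.Agent.P.MP_6149fc_ag.V22.IfaceB
import Pool.Agent.P.MP_6149fc_ag.V18.StepCvx2

section

/-! Step TRAPM. -/

set_option autoImplicit false
set_option linter.unusedSectionVars false

namespace Pool.Agent.P.MP_6149fc_ag.V22

open Pool.Agent.P.MP_6149fc_ag.V18
open scoped ENNReal
open MeasureTheory

theorem p_TRAPM (hTRAP1 : S_TRAP1) :
    S_TRAPM := by
  intro S l l' θ hS hm t0 t1
  have mono : ∀ {a b a' b' : ℚ}, a ≤ b → a' ≤ b' →
      (1 - θ) * (a : ℝ) + θ * (a' : ℝ) ≤ (1 - θ) * (b : ℝ) + θ * (b' : ℝ) := fun h h' =>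
    add_le_add (mul_le_mul_of_nonneg_left (by exact_mod_cast h) (sub_nonneg.2 t1))
      (mul_le_mul_of_nonneg_left (by exact_mod_cast h') t0)
  have key : ∀ (l l' : List Q3) (a a' : Q3), l.length = l'.length → incr (a :: l) = true →
      incr (a' :: l') = true →
      (∀ q ∈ (a :: l).zip (a' :: l'), q.1.2.1 ≤ q.1.2.2 ∧ q.2.2.1 ≤ q.2.2.2 ∧
        ![(1 - θ) * (q.1.1 : ℝ) + θ * (q.2.1 : ℝ),
          (1 - θ) * (q.1.2.1 : ℝ) + θ * (q.2.2.1 : ℝ)] ∈ S ∧
        ![(1 - θ) * (q.1.1 : ℝ) + θ * (q.2.1 : ℝ),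
          (1 - θ) * (q.1.2.2 : ℝ) + θ * (q.2.2.2 : ℝ)] ∈ S) →
      ENNReal.ofReal ((trap (a :: l) : ℝ) * (1 - θ) ^ 2 +
        (mix (a :: l) (a' :: l') : ℝ) * (θ * (1 - θ)) + (trap (a' :: l') : ℝ) * θ ^ 2) ≤
        volume (S ∩ {y | (1 - θ) * (a.1 : ℝ) + θ * (a'.1 : ℝ) ≤ y 0}) := by
    intro l
    induction l with
    | nil =>
      intro l' a a' e _ _ _
      obtain rfl : l' = [] := List.length_eq_zero_iff.1 e.symm
      simp [trap, mix]
    | cons b l ih =>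
      intro l' a a' e h1 h1' h2
      obtain _ | ⟨b', l'⟩ := l'
      · simp at e
      simp only [incr, Bool.and_eq_true, decide_eq_true_eq] at h1 h1'
      have hab := mono h1.1 h1'.1
      have ha := h2 (a, a') (by simp)
      have hb := h2 (b, b') (by simp)
      have h3 := hTRAP1 S _ _ _ _ _ _ hS hab (mono ha.1 ha.2.1) (mono hb.1 hb.2.1) ha.2.2.1
        ha.2.2.2 hb.2.2.1 hb.2.2.2
      have h4 := ih l' b b' (by simpa using e) h1.2 h1'.2 fun q hq =>
        h2 q (List.mem_cons_of_mem _ hq)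
      refine le_trans (le_of_eq (congrArg _ ?_))
        (ENNReal.ofReal_add_le.trans ((add_le_add h3 h4).trans ?_))
      · rw [trap, trap, mix]
        push_cast
        ring
      rw [← measure_union _ (hm.inter (measurableSet_le measurable_const (measurable_pi_apply 0)))]
      · refine measure_mono ?_
        rintro y (h | h)
        · exact ⟨h.1, h.2.1⟩
        · exact ⟨h.1, hab.trans h.2⟩
      · exact Set.disjoint_left.2 fun y h h' => not_lt.2 h'.2 h.2.2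
  intro e h1 h1' h2
  cases l with
  | nil =>
    obtain rfl : l' = [] := List.length_eq_zero_iff.1 e.symm
    simp [trap, mix]
  | cons a l =>
    obtain _ | ⟨a', l'⟩ := l'
    · simp at e
    exact (key l l' a a' (by simpa using e) h1 h1' h2).trans (measure_mono Set.inter_subset_left)

end Pool.Agent.P.MP_6149fc_ag.V22

end

section

/-! Step CERTM. -/

set_option autoImplicit false
set_option linter.unusedSectionVars false

namespace Pool.Agent.P.MP_6149fc_ag.V22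

open Pool.Agent.P.MP_6149fc_ag.V18
open scoped ENNReal
open MeasureTheory

namespace CERTMx

open CERT1x

lemma key {P : List PT} {i : Fin 3} {t : ℚ} {S : List (Wt × Wt)} {B : Set (Fin 3 → ℝ)}
    (hB : Convex ℝ B) (h0 : (0 : Fin 3 → ℝ) ∈ B) (hP : ∀ p ∈ P, pR p ∈ B)
    (hS : okS P i t S = true) : incr (chainOf P i S) = true ∧ ∀ q ∈ chainOf P i S,
      q.2.1 ≤ q.2.2 ∧ ![(q.1 : ℝ), (q.2.1 : ℝ)] ∈ sl B i t ∧
      ![(q.1 : ℝ), (q.2.2 : ℝ)] ∈ sl B i t := by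
  simp only [okS, Bool.and_eq_true, List.all_eq_true, decide_eq_true_eq] at hS
  refine ⟨hS.1.2, fun q hq => ?_⟩
  obtain ⟨s, hs, rfl⟩ := List.mem_map.1 hq
  obtain ⟨⟨⟨⟨⟨a1, a2⟩, a3⟩, a4⟩, a5⟩, a6⟩ := hS.2 s hs
  refine ⟨a6, ?_, ?_⟩
  · have := mem hB h0 hP a1
    rw [← ins i, a3] at this
    exact this
  · have := mem hB h0 hP a2
    rw [← ins i, a4, ← a5] at this
    exact this

lemma mid {B : Set (Fin 3 → ℝ)} (hB : Convex ℝ B) {i : Fin 3} {s t θ x y x' y' : ℝ} (h0 : 0 ≤ θ)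
    (h1 : θ ≤ 1) (h : ![x, y] ∈ sl B i s) (h' : ![x', y'] ∈ sl B i t) :
    ![(1 - θ) * x + θ * x', (1 - θ) * y + θ * y'] ∈ sl B i ((1 - θ) * s + θ * t) := by
  have := hB h h' (sub_nonneg.2 h1) h0 (sub_add_cancel 1 θ)
  change _ ∈ B
  convert this using 1
  refine funext (i.succAboveCases ?_ fun j => ?_)
  · simp
  · fin_cases j <;> simp

end CERTMx

theorem p_CERTM (hTRAPM : S_TRAPM) :
    S_CERTM := by
  intro P i a B θ hB hm h0 hP s1 s2 hl t0 t1
  obtain ⟨a1, a2⟩ := CERTMx.key hB h0 hP s1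
  obtain ⟨b1, b2⟩ := CERTMx.key hB h0 hP s2
  refine hTRAPM _ _ _ θ (CERT1x.conv hB i _) (hm _) t0 t1 (by simpa [chainOf] using hl) a1 b1
    fun q hq => ?_
  obtain ⟨c1, c2⟩ := List.of_mem_zip (a := q.1) (b := q.2) hq
  exact ⟨(a2 _ c1).1, (b2 _ c2).1, CERTMx.mid hB t0 t1 (a2 _ c1).2.1 (b2 _ c2).2.1,
    CERTMx.mid hB t0 t1 (a2 _ c1).2.2 (b2 _ c2).2.2⟩

end Pool.Agent.P.MP_6149fc_ag.V22

end

section

/-! Step CRQ. -/

set_option autoImplicit false
set_option linter.unusedSectionVars false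

namespace Pool.Agent.P.MP_6149fc_ag.V22

open Pool.Agent.P.MP_6149fc_ag.V18
open scoped ENNReal
open MeasureTheory

namespace CRQx

theorem integ {s t p0 p1 p2 p3 R : ℝ} {f : ℝ → ℝ} {g : ℝ → ℝ≥0∞} (hst : s ≤ t)
    (hf : ∀ u, f u = p0 + p1 * (u - s) + p2 * (u - s) ^ 2 + p3 * (u - s) ^ 3)
    (h0 : ∀ u ∈ Set.Ioc s t, 0 ≤ f u) (hg : ∀ u ∈ Set.Ioc s t, ENNReal.ofReal (f u) ≤ g u)
    (hR : R = p0 * (t - s) + p1 / 2 * (t - s) ^ 2 + p2 / 3 * (t - s) ^ 3 + p3 / 4 * (t - s) ^ 4) :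
    ENNReal.ofReal R ≤ ∫⁻ u in Set.Ioc s t, g u := by
  refine le_trans (le_of_eq ?_) (setLIntegral_mono' measurableSet_Ioc hg)
  have hc : Continuous f := by rw [funext hf]; fun_prop
  rw [← ofReal_integral_eq_lintegral_ofReal (hc.integrableOn_Icc.mono_set Set.Ioc_subset_Icc_self),
    ← intervalIntegral.integral_of_le hst,
    intervalIntegral.integral_eq_sub_of_hasDerivAt
      (f := fun u => p0 * (u - s) + p1 / 2 * (u - s) ^ 2 + p2 / 3 * (u - s) ^ 3 +
        p3 / 4 * (u - s) ^ 4) (fun u _ => ?_) (hc.intervalIntegrable _ _)]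
  · simp [hR]
  · have h1 : HasDerivAt (fun u : ℝ => u - s) 1 u := (hasDerivAt_id' u).sub_const s
    refine ((((h1.const_mul p0).fun_add ((h1.fun_pow 2).const_mul (p1 / 2))).fun_add
      ((h1.fun_pow 3).const_mul (p2 / 3))).fun_add ((h1.fun_pow 4).const_mul (p3 / 4))).congr_deriv ?_
    rw [hf]
    push_cast
    ring
  · filter_upwards [ae_restrict_mem measurableSet_Ioc] with u hu using h0 u hu

end CRQx

open CRQx in
theorem p_CRQ :
    S_CRQ := by
  intro g s t c A0 A1 A2 hst htc h0 h1 h2 hg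
  rcases hst.eq_or_lt with rfl | hlt
  · simp
  have hh : 0 < t - s := sub_pos.2 hlt
  obtain ⟨w, hw0, hw⟩ : ∃ w, 0 ≤ w ∧ (t - s) * w = 1 :=
    ⟨(t - s)⁻¹, inv_nonneg.2 hh.le, mul_inv_cancel₀ hh.ne'⟩
  have a0 : ∀ u ∈ Set.Ioc s t, 0 ≤ (u - s) * w := fun u hu =>
    mul_nonneg (sub_nonneg.2 hu.1.le) hw0
  have a1 : ∀ u ∈ Set.Ioc s t, (u - s) * w ≤ 1 := fun u hu =>
    hw ▸ mul_le_mul_of_nonneg_right (sub_le_sub_right hu.2 s) hw0
  let q : ℝ → ℝ := fun u => A0 * (1 - (u - s) * w) ^ 2 + A1 * ((u - s) * w * (1 - (u - s) * w)) +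
    A2 * ((u - s) * w) ^ 2
  have q0 : ∀ u ∈ Set.Ioc s t, 0 ≤ q u := fun u hu =>
    add_nonneg (add_nonneg (mul_nonneg h0 (sq_nonneg _))
      (mul_nonneg h1 (mul_nonneg (a0 u hu) (sub_nonneg.2 (a1 u hu))))) (mul_nonneg h2 (sq_nonneg _))
  have key : ∀ u ∈ Set.Ioc s t, ENNReal.ofReal (q u) ≤ g u := fun u hu => by
    have := hg _ (a0 u hu) (a1 u hu)
    have e1 : (1 - (u - s) * w) * s + (u - s) * w * t = u := by linear_combination (u - s) * hw
    rwa [e1] at this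
  have hw' : w = (t - s)⁻¹ := eq_inv_of_mul_eq_one_right hw
  constructor
  · refine integ (f := q) (p0 := A0) (p1 := (A1 - 2 * A0) * w) (p2 := (A0 - A1 + A2) * w ^ 2)
      (p3 := 0) hst (fun u => by simp only [q]; ring) q0 key ?_
    rw [hw']
    field_simp
    ring
  · refine integ (f := fun u => (c - u) * q u) (p0 := (c - s) * A0)
      (p1 := (c - s) * ((A1 - 2 * A0) * w) - A0)
      (p2 := (c - s) * ((A0 - A1 + A2) * w ^ 2) - (A1 - 2 * A0) * w)
      (p3 := -((A0 - A1 + A2) * w ^ 2)) hst (fun u => by simp only [q]; ring)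
      (fun u hu => mul_nonneg (sub_nonneg.2 (hu.2.trans htc)) (q0 u hu)) (fun u hu => ?_) ?_
    · rw [ENNReal.ofReal_mul (sub_nonneg.2 (hu.2.trans htc))]
      exact mul_le_mul_right (key u hu) _
    · rw [hw']
      field_simp
      ring

end Pool.Agent.P.MP_6149fc_ag.V22

end

section

/-! Step CRM. -/

set_option autoImplicit false
set_option linter.unusedSectionVars false

namespace Pool.Agent.P.MP_6149fc_ag.V22

open Pool.Agent.P.MP_6149fc_ag.V18
open scoped ENNReal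
open MeasureTheory

namespace CRMx

theorem split (f : ℝ → ℝ≥0∞) (lo s t c : ℝ) (h0 : lo ≤ s) (h1 : s ≤ t) (h2 : t ≤ c) :
    (∫⁻ u in Set.Ioc s t, f u) + ∫⁻ u in Set.Ioc t c, f u ≤ ∫⁻ u in Set.Ioc lo c, f u := by
  have hd : Disjoint (Set.Ioc s t) (Set.Ioc t c) := by
    rw [Set.disjoint_left]
    intro x hx hx'
    exact absurd hx'.1 (not_lt.mpr hx.2)
  rw [← lintegral_union measurableSet_Ioc hd, Set.Ioc_union_Ioc_eq_Ioc h1 h2]
  exact lintegral_mono_set (Set.Ioc_subset_Ioc_left h0)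

end CRMx

theorem p_CRM (hCRQ : S_CRQ) :
    S_CRM := by
  intro g c lo L
  induction L generalizing lo with
  | nil =>
    intro h _
    simp only [ordq, decide_eq_true_eq] at h
    simp [vq, mq, h]
  | cons a l ih =>
    intro h hall
    simp only [ordq, Bool.and_eq_true, decide_eq_true_eq] at h
    obtain ⟨⟨⟨⟨⟨h0, h1⟩, a0⟩, a1⟩, a2⟩, hl⟩ := h
    obtain ⟨i0, i1, i2, i3, i4⟩ := ih a.2.1 hl fun x hx => hall x (List.mem_cons_of_mem _ hx)
    have h0R : (lo : ℝ) ≤ a.1 := by exact_mod_cast h0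
    have h1R : (a.1 : ℝ) ≤ a.2.1 := by exact_mod_cast h1
    have i0R : (a.2.1 : ℝ) ≤ c := by exact_mod_cast i0
    obtain ⟨k1, k2⟩ := hCRQ g a.1 a.2.1 c a.2.2.1 a.2.2.2.1 a.2.2.2.2 h1R i0R
      (by exact_mod_cast a0) (by exact_mod_cast a1) (by exact_mod_cast a2) (hall a (by simp))
    have hd : 0 ≤ a.2.1 - a.1 := sub_nonneg.mpr h1
    have hca : 0 ≤ c - a.1 := sub_nonneg.mpr (h1.trans i0)
    have hcb : 0 ≤ c - a.2.1 := sub_nonneg.mpr i0
    refine ⟨h0.trans (h1.trans i0), ?_, ?_, ?_, ?_⟩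
    · simp only [vq]
      positivity
    · simp only [mq]
      positivity
    · refine le_trans ?_ (CRMx.split g lo a.1 a.2.1 c h0R h1R i0R)
      simp only [vq]
      push_cast
      exact le_trans ENNReal.ofReal_add_le (add_le_add k1 i3)
    · refine le_trans ?_
        (CRMx.split (fun u => ENNReal.ofReal (c - u) * g u) lo a.1 a.2.1 c h0R h1R i0R)
      simp only [mq]
      push_cast
      exact le_trans ENNReal.ofReal_add_le (add_le_add k2 i4)

end Pool.Agent.P.MP_6149fc_ag.V22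

end

section

/-! Step CRITV. -/

set_option autoImplicit false
set_option linter.unusedSectionVars false

namespace Pool.Agent.P.MP_6149fc_ag.V22

open Pool.Agent.P.MP_6149fc_ag.V18
open scoped ENNReal
open MeasureTheory

namespace CRITVx

theorem real_ineq (c τ AA V0 M0 V W : ℝ) (hAA : 0 < AA) (hV0 : 0 ≤ V0) (hM0 : 0 ≤ M0)
    (hW : 0 ≤ W) (hWV : V0 + W ≤ V) (hV : V ≤ 11 / 3)
    (h : 3 / 4 * (11 / 3 - V0) ^ 2 ≤ AA * (M0 - 11 / 3 * (c - τ))) :
    3 / 4 * W ^ 2 ≤ AA * (M0 - V * (c - τ)) := by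
  have hx0 : 0 ≤ V - V0 := by linarith
  have hW2 : W ^ 2 ≤ (V - V0) ^ 2 := pow_le_pow_left₀ hW (by linarith) 2
  suffices hs : 3 / 4 * (V - V0) ^ 2 ≤ AA * (M0 - V * (c - τ)) by linarith
  rcases le_total τ c with hc | hc
  · have h1 : (V - V0) ^ 2 ≤ (11 / 3 - V0) ^ 2 := pow_le_pow_left₀ hx0 (by linarith) 2
    have h2 : V * (c - τ) ≤ 11 / 3 * (c - τ) := mul_le_mul_of_nonneg_right hV (by linarith)
    have h3 : AA * (M0 - 11 / 3 * (c - τ)) ≤ AA * (M0 - V * (c - τ)) :=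
      mul_le_mul_of_nonneg_left (by linarith) hAA.le
    linarith
  · obtain ⟨δ, hδ, rfl⟩ : ∃ δ, 0 ≤ δ ∧ τ = c + δ := ⟨τ - c, by linarith, by ring⟩
    obtain ⟨x, hx, rfl⟩ : ∃ x, 0 ≤ x ∧ V = V0 + x := ⟨V - V0, hx0, by ring⟩
    obtain ⟨D, hD⟩ : ∃ D, D = 11 / 3 - V0 := ⟨_, rfl⟩
    have hxD : x ≤ D := by linarith
    have hK : 0 ≤ AA * (M0 + V0 * δ) := by positivity
    have h' : 3 / 4 * D ^ 2 ≤ AA * (M0 + V0 * δ) + AA * δ * D := by
      have e : AA * (M0 - 11 / 3 * (c - (c + δ))) = AA * (M0 + V0 * δ) + AA * δ * D := by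
        rw [hD]; ring
      rw [← e, hD]; exact h
    have e1 : V0 + x - V0 = x := by ring
    have e2 : AA * (M0 - (V0 + x) * (c - (c + δ))) = AA * (M0 + V0 * δ) + AA * δ * x := by ring
    rw [e1, e2]
    obtain ⟨K, hK'⟩ : ∃ K, K = AA * (M0 + V0 * δ) := ⟨_, rfl⟩
    rw [← hK'] at hK h' ⊢
    obtain ⟨B, hB⟩ : ∃ B, B = AA * δ := ⟨_, rfl⟩
    rw [← hB] at h' ⊢
    rcases (hx.trans hxD).eq_or_lt with h0 | h0
    · have hx' : x = 0 := le_antisymm (h0 ▸ hxD) hx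
      subst hx'
      simpa using hK
    · have h1 : x * (3 / 4 * D ^ 2) ≤ x * (K + B * D) := mul_le_mul_of_nonneg_left h' hx
      have h2 : x * K ≤ D * K := mul_le_mul_of_nonneg_right hxD hK
      have h3 : x * x * D ≤ x * D * D :=
        mul_le_mul_of_nonneg_right (mul_le_mul_of_nonneg_left hxD hx) h0.le
      have h4 : D * (3 / 4 * x ^ 2) ≤ D * (K + B * x) := by nlinarith
      exact le_of_mul_le_mul_left h4 h0

theorem pt (c t : ℝ) (hc : 0 ≤ c) (ht : 0 ≤ t) :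
    ENNReal.ofReal t + ENNReal.ofReal (c - t) = ENNReal.ofReal (t - c) + ENNReal.ofReal c := by
  rcases le_total t c with h | h
  · rw [← ENNReal.ofReal_add ht (by linarith), ENNReal.ofReal_of_nonpos (by linarith : t - c ≤ 0),
      zero_add]
    congr 1; ring
  · rw [← ENNReal.ofReal_add (by linarith) hc, ENNReal.ofReal_of_nonpos (by linarith : c - t ≤ 0),
      add_zero]
    congr 1; ring

end CRITVx

open CRITVx in
theorem p_CRITV (hCRT : S_CRT) :
    S_CRITV := by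
  intro g N c τ AA V0 M0 hg hconc hneg hV3 hAA hAc hτ hV0 hM0 hV0' hM0' h
  have hc : 0 ≤ c := by
    by_contra hc
    have h0 := hneg c (not_le.mp hc)
    rw [h0] at hAc
    have := ENNReal.ofReal_pos.mpr hAA
    exact absurd hAc (not_le.mpr this)
  have hsplit : ∀ f : ℝ → ℝ≥0∞,
      (∫⁻ u in Set.Iic c, f u) + ∫⁻ u in Set.Ioi c, f u = ∫⁻ u, f u := by
    intro f
    have := lintegral_add_compl (μ := volume) f (measurableSet_Iic (a := c))
    rwa [Set.compl_Iic] at this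
  have hVtop : (∫⁻ t, g t) ≠ ⊤ := ne_top_of_le_ne_top ENNReal.ofReal_ne_top hV3
  have hWle : (∫⁻ u in Set.Ioi c, g u) ≤ ∫⁻ t, g t := by
    rw [← hsplit g]; exact le_add_self
  have hWtop : (∫⁻ u in Set.Ioi c, g u) ≠ ⊤ := ne_top_of_le_ne_top hVtop hWle
  obtain ⟨W, hW0, hW⟩ : ∃ W : ℝ, 0 ≤ W ∧ (∫⁻ u in Set.Ioi c, g u) = ENNReal.ofReal W :=
    ⟨_, ENNReal.toReal_nonneg, (ENNReal.ofReal_toReal hWtop).symm⟩
  obtain ⟨V, hVn, hV⟩ : ∃ V : ℝ, 0 ≤ V ∧ (∫⁻ u, g u) = ENNReal.ofReal V :=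
    ⟨_, ENNReal.toReal_nonneg, (ENNReal.ofReal_toReal hVtop).symm⟩
  have hV3' : V ≤ 11 / 3 := by
    rw [hV] at hV3
    exact (ENNReal.ofReal_le_ofReal_iff (by norm_num)).mp hV3
  have hWV : V0 + W ≤ V := by
    have h1 : ENNReal.ofReal V0 + ENNReal.ofReal W ≤ ENNReal.ofReal V := by
      rw [← hV, ← hsplit g, hW]
      exact add_le_add hV0' le_rfl
    rw [← ENNReal.ofReal_add hV0 hW0] at h1
    exact (ENNReal.ofReal_le_ofReal_iff hVn).mp h1
  have hT := hCRT g N c AA W hg hconc hAA hW0 hAc hW.le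
  have hm1 : Measurable fun t : ℝ => ENNReal.ofReal t * g t :=
    (ENNReal.measurable_ofReal.comp measurable_id).mul hg
  have hm3 : Measurable fun t : ℝ => ENNReal.ofReal (t - c) * g t :=
    (ENNReal.measurable_ofReal.comp (measurable_id.sub_const c)).mul hg
  have hid : (∫⁻ t, ENNReal.ofReal t * g t) + ∫⁻ t, ENNReal.ofReal (c - t) * g t =
      (∫⁻ t, ENNReal.ofReal (t - c) * g t) + ENNReal.ofReal c * ∫⁻ t, g t := by
    rw [← lintegral_add_left hm1, ← lintegral_const_mul _ hg, ← lintegral_add_left hm3]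
    refine lintegral_congr fun t => ?_
    rcases lt_or_ge t 0 with ht | ht
    · simp [hneg t ht]
    · rw [← add_mul, ← add_mul, pt c t hc ht]
  have h2 : ENNReal.ofReal M0 ≤ ∫⁻ t, ENNReal.ofReal (c - t) * g t :=
    hM0'.trans (setLIntegral_le_lintegral _ _)
  have h3 : (∫⁻ t, ENNReal.ofReal (t - c) * g t) ≤ ENNReal.ofReal (3 / 4 * W ^ 2 / AA) := by
    rw [← hsplit fun t => ENNReal.ofReal (t - c) * g t]
    have h0 : (∫⁻ u in Set.Iic c, ENNReal.ofReal (u - c) * g u) = 0 := by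
      rw [setLIntegral_congr_fun (g := fun _ => 0) measurableSet_Iic]
      · simp
      · intro u hu
        have : u - c ≤ 0 := sub_nonpos.mpr hu
        simp [ENNReal.ofReal_of_nonpos this]
    rw [h0, zero_add]
    exact hT
  have hr := real_ineq c τ AA V0 M0 V W hAA hV0 hM0 hW0 hWV hV3' h
  have hq : 0 ≤ 3 / 4 * W ^ 2 / AA := by positivity
  have hr' : 3 / 4 * W ^ 2 / AA + c * V ≤ τ * V + M0 := by
    have : 3 / 4 * W ^ 2 / AA ≤ M0 - V * (c - τ) := by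
      rw [div_le_iff₀ hAA]; linarith
    linarith
  have h4 : (∫⁻ t, ENNReal.ofReal t * g t) + ENNReal.ofReal M0 ≤
      ENNReal.ofReal τ * (∫⁻ t, g t) + ENNReal.ofReal M0 := by
    calc (∫⁻ t, ENNReal.ofReal t * g t) + ENNReal.ofReal M0
        ≤ (∫⁻ t, ENNReal.ofReal t * g t) + ∫⁻ t, ENNReal.ofReal (c - t) * g t :=
          add_le_add le_rfl h2
      _ = (∫⁻ t, ENNReal.ofReal (t - c) * g t) + ENNReal.ofReal c * ∫⁻ t, g t := hid
      _ ≤ ENNReal.ofReal (3 / 4 * W ^ 2 / AA) + ENNReal.ofReal c * ENNReal.ofReal V := by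
          rw [hV]; exact add_le_add h3 le_rfl
      _ = ENNReal.ofReal (3 / 4 * W ^ 2 / AA + c * V) := by
          rw [← ENNReal.ofReal_mul hc, ← ENNReal.ofReal_add hq (mul_nonneg hc hVn)]
      _ ≤ ENNReal.ofReal (τ * V + M0) := ENNReal.ofReal_le_ofReal hr'
      _ = ENNReal.ofReal τ * (∫⁻ t, g t) + ENNReal.ofReal M0 := by
          rw [hV, ← ENNReal.ofReal_mul hτ, ← ENNReal.ofReal_add (mul_nonneg hτ hVn) hM0]
  exact (ENNReal.add_le_add_iff_right ENNReal.ofReal_ne_top).mp h4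

end Pool.Agent.P.MP_6149fc_ag.V22

end

section

/-! Step CRITF. -/

set_option autoImplicit false
set_option linter.unusedSectionVars false

namespace Pool.Agent.P.MP_6149fc_ag.V22

open Pool.Agent.P.MP_6149fc_ag.V18
open scoped ENNReal
open MeasureTheory

namespace CRITFx

theorem pt (c t : ℝ) (hc : 0 ≤ c) (ht : 0 ≤ t) :
    ENNReal.ofReal t + ENNReal.ofReal (c - t) = ENNReal.ofReal (t - c) + ENNReal.ofReal c := by
  rcases le_total t c with h | h
  · rw [← ENNReal.ofReal_add ht (by linarith), ENNReal.ofReal_of_nonpos (by linarith : t - c ≤ 0),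
      zero_add]
    congr 1; ring
  · rw [← ENNReal.ofReal_add (by linarith) hc, ENNReal.ofReal_of_nonpos (by linarith : c - t ≤ 0),
      add_zero]
    congr 1; ring

end CRITFx

theorem p_CRITF :
    S_CRITF := by
  intro g c τ V0 M0 hg hneg hV3 hc hτ hM0 hV0' hM0' hV0 h
  have hsplit : (∫⁻ u in Set.Iic c, g u) + ∫⁻ u in Set.Ioi c, g u = ∫⁻ u, g u := by
    have := lintegral_add_compl (μ := volume) g (measurableSet_Iic (a := c))
    rwa [Set.compl_Iic] at this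
  have h1 : ENNReal.ofReal (11 / 3) ≤ ∫⁻ u in Set.Iic c, g u :=
    (ENNReal.ofReal_le_ofReal hV0).trans hV0'
  have hV : (∫⁻ u, g u) = ENNReal.ofReal (11 / 3) :=
    le_antisymm hV3 (h1.trans (setLIntegral_le_lintegral _ _))
  have hW : (∫⁻ u in Set.Ioi c, g u) = 0 := by
    have : ENNReal.ofReal (11 / 3) + (∫⁻ u in Set.Ioi c, g u) ≤ ENNReal.ofReal (11 / 3) + 0 := by
      rw [add_zero]
      exact (add_le_add h1 le_rfl).trans (hsplit.trans hV).le
    exact le_antisymm ((ENNReal.add_le_add_iff_left ENNReal.ofReal_ne_top).1 this) zero_le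
  have hm1 : Measurable fun t : ℝ => ENNReal.ofReal t * g t :=
    (ENNReal.measurable_ofReal.comp measurable_id).mul hg
  have hm3 : Measurable fun t : ℝ => ENNReal.ofReal (t - c) * g t :=
    (ENNReal.measurable_ofReal.comp (measurable_id.sub_const c)).mul hg
  have hid : (∫⁻ t, ENNReal.ofReal t * g t) + ∫⁻ t, ENNReal.ofReal (c - t) * g t =
      (∫⁻ t, ENNReal.ofReal (t - c) * g t) + ENNReal.ofReal c * ∫⁻ t, g t := by
    rw [← lintegral_add_left hm1, ← lintegral_const_mul _ hg, ← lintegral_add_left hm3]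
    refine lintegral_congr fun t => ?_
    rcases lt_or_ge t 0 with ht | ht
    · simp [hneg t ht]
    · rw [← add_mul, ← add_mul, CRITFx.pt c t hc ht]
  have h3 : (∫⁻ t, ENNReal.ofReal (t - c) * g t) = 0 := by
    rw [lintegral_eq_zero_iff hm3]
    have := (ae_restrict_iff' measurableSet_Ioi).1 ((lintegral_eq_zero_iff hg).1 hW)
    filter_upwards [this] with u hu
    rcases le_or_gt u c with a | a
    · simp [ENNReal.ofReal_of_nonpos (sub_nonpos.2 a)]
    · simp [show g u = 0 from hu a]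
  refine (ENNReal.add_le_add_iff_right (ENNReal.ofReal_ne_top (r := M0))).1 ?_
  refine (add_le_add le_rfl (hM0'.trans (setLIntegral_le_lintegral _ _))).trans (hid.trans_le ?_)
  rw [h3, zero_add, hV, ← ENNReal.ofReal_mul hc, ← ENNReal.ofReal_mul hτ,
    ← ENNReal.ofReal_add (by positivity) hM0]
  exact ENNReal.ofReal_le_ofReal (by linarith)

end Pool.Agent.P.MP_6149fc_ag.V22

end

section

/-! Step CERTV. -/

set_option autoImplicit false
set_option linter.unusedSectionVars false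

namespace Pool.Agent.P.MP_6149fc_ag.V22

open Pool.Agent.P.MP_6149fc_ag.V18
open scoped ENNReal
open MeasureTheory

theorem CERTVx.neg {B : Set (Fin 3 → ℝ)} (h0 : ∀ x ∈ B, ∀ j, 0 ≤ x j) (i : Fin 3) (t : ℝ)
    (ht : t < 0) : volume (sl B i t) = 0 := by
  have e : sl B i t = ∅ := Set.eq_empty_of_forall_notMem fun y hy => by
    have := h0 _ hy i
    rw [Fin.insertNth_apply_same] at this
    linarith
  rw [e, measure_empty]

theorem CERTVx.low (hCERTM : S_CERTM) (hCRM : S_CRM) {P : List PT} {i : Fin 3} {L : List Slab}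
    {c : ℚ} (h : okL P i L c = true) {B : Set (Fin 3 → ℝ)} (hc : Convex ℝ B)
    (s1 : ∀ t, MeasurableSet (sl B i t)) (hz : (0 : Fin 3 → ℝ) ∈ B) (hP : ∀ p ∈ P, pR p ∈ B) :
    (0 : ℝ) ≤ c ∧ (0 : ℝ) ≤ vq (L.map (slq P i)) ∧ (0 : ℝ) ≤ mq c (L.map (slq P i)) ∧
      ENNReal.ofReal (vq (L.map (slq P i)) : ℝ) ≤ ∫⁻ u in Set.Iic (c : ℝ), volume (sl B i u) ∧
      ENNReal.ofReal (mq c (L.map (slq P i)) : ℝ) ≤
        ∫⁻ u in Set.Iic (c : ℝ), ENNReal.ofReal (c - u) * volume (sl B i u) := by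
  simp only [okL, Bool.and_eq_true, List.all_eq_true, decide_eq_true_eq] at h
  obtain ⟨r0, r1, r2, r3, r4⟩ := hCRM (fun t => volume (sl B i t)) c 0 _ h.1 (by
    intro a' ha' θ t0 t1
    obtain ⟨a, ha, rfl⟩ := List.mem_map.1 ha'
    obtain ⟨⟨e1, e2⟩, e3⟩ := h.2 a ha
    exact hCERTM P i a B θ hc s1 hz hP e1 e2 e3 t0 t1)
  exact ⟨by exact_mod_cast r0, by exact_mod_cast r1, by exact_mod_cast r2,
    r3.trans (lintegral_mono_set Set.Ioc_subset_Iic_self),
    r4.trans (lintegral_mono_set Set.Ioc_subset_Iic_self)⟩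

theorem p_CERTV (hCERT1 : S_CERT1) (hCERTM : S_CERTM) (hSLICE1 : S_SLICE1) (hSLICE2 : S_SLICE2) (hCRM : S_CRM) (hCRITV : S_CRITV) (hCRITF : S_CRITF) :
    S_CERTV := by
  intro P i τ L c
  refine ⟨fun S h B hc hm h0 hv hz hP => ?_, fun h B hc hm h0 hv hz hP => ?_⟩
  · simp only [chkV, Bool.and_eq_true, decide_eq_true_eq] at h
    obtain ⟨⟨⟨⟨h1, h2⟩, h3⟩, h4⟩, h6⟩ := h
    obtain ⟨s1, s2, s3, s4⟩ := hSLICE1 B i hm
    obtain ⟨-, r1, r2, r3, r4⟩ := CERTVx.low hCERTM hCRM h2 hc s1 hz hP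
    rw [s4, s3]
    refine hCRITV _ _ c τ _ _ _ s2 (hSLICE2 B i hc s1) (CERTVx.neg h0 i) (s3 ▸ hv)
      (by exact_mod_cast h4) (hCERT1 P i c S B hc (s1 _) hz hP h3).2 (by exact_mod_cast h1)
      r1 r2 r3 r4 ?_
    have := (Rat.cast_le (K := ℝ)).2 h6
    push_cast at this
    exact this
  · simp only [chkF, Bool.and_eq_true, decide_eq_true_eq] at h
    obtain ⟨⟨⟨h1, h2⟩, h3⟩, h4⟩ := h
    obtain ⟨s1, s2, s3, s4⟩ := hSLICE1 B i hm
    obtain ⟨r0, -, r2, r3, r4⟩ := CERTVx.low hCERTM hCRM h2 hc s1 hz hP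
    rw [s4, s3]
    refine hCRITF _ c τ _ _ s2 (CERTVx.neg h0 i) (s3 ▸ hv) r0 (by exact_mod_cast h1) r2 r3 r4
      ?_ ?_
    · have := (Rat.cast_le (K := ℝ)).2 h3
      push_cast at this
      exact this
    · have := (Rat.cast_le (K := ℝ)).2 h4
      push_cast at this
      exact this

end Pool.Agent.P.MP_6149fc_ag.V22

end
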