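import Pool.Agent.P.MP_6149fc_ag.V22.IfaceB
import Pool.Agent.P.MP_6149fc_ag.Cube
import Pool.Agent.P.MP_6149fc_ag.Body
import Pool.Agent.P.MP_6149fc_ag.Conv

section

/-! Step SBV. -/

set_option autoImplicit false
set_option linter.unusedSectionVars false

namespace Pool.Agent.P.MP_6149fc_ag.V22

open Pool.Agent.P.MP_6149fc_ag.V18
open scoped ENNReal
open MeasureTheory

namespace SBVx

theorem zero_of_fin (S : Finset Ex) (h0 : 0 ∈ S) (hadd : ∀ a b, a ∈ S → b ∈ S → a + b ∈ S)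
    {γ : Ex} (hγ : γ ∈ S) (i : Fin 3) : γ i = 0 := by
  by_contra hne
  have hm : ∀ n : ℕ, n • γ ∈ S := fun n => by
    induction n with
    | zero => simpa using h0
    | succ n ih => rw [succ_nsmul]; exact hadd _ _ ih hγ
  have h1 := Finset.le_sup (f := fun a : Ex => a i) (hm (S.sup (fun a : Ex => a i) + 1))
  simp only [Finsupp.smul_apply, smul_eq_mul] at h1
  have h2 : 1 ≤ γ i := Nat.one_le_iff_ne_zero.2 hne
  nlinarith

theorem vol_le (d : ℕ → ℕ) (V : ℝ) (v : ℝ≥0∞) (hV : VolN d V)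
    (h : ∀ θ : ℝ, 0 < θ → θ < 1 → ∀ b < v, ∀ᶠ M : ℕ in Filter.atTop,
      ENNReal.ofReal (θ * M) ^ 3 * b ≤ (d M : ℝ≥0∞)) : v ≤ ENNReal.ofReal V := by
  by_contra hc
  obtain ⟨r, hr0, h1, h2⟩ := ENNReal.lt_iff_exists_real_btwn.1 (not_le.1 hc)
  have hV0 := hV.nonneg
  have hVr : V < r := (ENNReal.ofReal_lt_ofReal_iff_of_nonneg hV0).1 h1
  have hr : 0 < r := lt_of_le_of_lt hV0 hVr
  set δ : ℝ := (r - V) / (6 * r) with hδ
  have hδ0 : 0 < δ := div_pos (by linarith) (by linarith)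
  have hδr : δ * r = (r - V) / 6 := by rw [hδ]; field_simp
  have hδ1 : δ < 1 := by rw [hδ, div_lt_one (by linarith)]; linarith
  have hle : (1 - δ) ^ 3 * r ≤ V := by
    refine hV _ ((h (1 - δ) (by linarith) (by linarith) _ h2).mono fun M hM => ?_)
    have hM0 : (0 : ℝ) ≤ (1 - δ) * M := mul_nonneg (by linarith) (Nat.cast_nonneg M)
    rw [← ENNReal.ofReal_pow hM0, ← ENNReal.ofReal_mul (pow_nonneg hM0 3),
      ← ENNReal.ofReal_natCast, ENNReal.ofReal_le_ofReal_iff (Nat.cast_nonneg _)] at hM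
    calc (1 - δ) ^ 3 * r * (M : ℝ) ^ 3 = ((1 - δ) * M) ^ 3 * r := by ring
      _ ≤ _ := hM
  have hb : 1 - 3 * δ ≤ (1 - δ) ^ 3 := by nlinarith [mul_pos hδ0 hδ0, mul_pos hδ0 (mul_pos hδ0 hδ0)]
  have := mul_le_mul_of_nonneg_right hb hr.le
  nlinarith

end SBVx

theorem p_SBV (hBODY0 : S_BODY0) (hSB1 : S_SB1) :
    S_SBV := by
  intro κ _ A U V P i τ hA hU hG hV hV3 hP hP1 hτ hB
  have hc : ∀ M, ∃ Λ : Finset Ex, Λ.card = Module.finrank κ (U M) ∧ ∀ γ, γ ∈ Λ ↔ Pt A U M γ :=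
    fun M => by
      have := hU.fin M
      exact init_count hA (U M)
  choose Γ hcard hΓ using hc
  have hadd : ∀ M M' a b, a ∈ Γ M → b ∈ Γ M' → a + b ∈ Γ (M + M') := fun M M' a b ha hb => by
    obtain ⟨f, hf, hfa⟩ := (hΓ M a).1 ha
    obtain ⟨g, hg, hgb⟩ := (hΓ M' b).1 hb
    exact (hΓ _ _).2 ⟨f * g, hU.mul _ _ _ _ hf hg, hfa.mul hgb⟩
  have h00 : 0 ∈ Γ 0 := (hΓ _ _).2 ⟨1, hU.one0, init_one⟩
  have h01 : 0 ∈ Γ 1 := (hΓ _ _).2 ⟨1, hU.one1, init_one⟩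
  obtain ⟨M0, γ0, hM1, hM5, hγ0, hγl⟩ := hG
  obtain ⟨B, hBm, hBc, hB0, hBΓ, hBv⟩ := hBODY0 Γ M0 γ0 hadd h00 h01 ((hΓ _ _).2 hγ0)
    fun l => (hΓ _ _).2 (hγl l)
  have hV0 : 0 ≤ V := VolN.nonneg hV
  have hτ' : (0 : ℝ) ≤ τ := by exact_mod_cast hτ
  have hvol : volume B ≤ ENNReal.ofReal V :=
    SBVx.vol_le _ V _ hV fun θ h0 h1 b hb => (hBv θ h0 h1 b hb).mono fun M hM => by
      rw [← hcard M]; exact hM
  have hz : (0 : Fin 3 → ℝ) ∈ B := by
    have := hBΓ 1 0 le_rfl h01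
    convert this using 1
    funext j; simp
  have hbary := hB B hBc hBm hB0 (hvol.trans
    (ENNReal.ofReal_le_ofReal hV3)) hz fun p hp => by
      have := hBΓ p.1 _ (hP1 p hp) ((hΓ _ _).2 (hP p hp))
      convert this using 1
      funext j; fin_cases j <;> rfl
  intro M Λ hΛ
  rcases Nat.eq_zero_or_pos M with rfl | hM
  · have : ∑ γ ∈ Λ, γ i = 0 := Finset.sum_eq_zero fun γ hγ =>
      SBVx.zero_of_fin (Γ 0) h00 (fun a b ha hb => hadd 0 0 a b ha hb) ((hΓ _ _).2 (hΛ γ hγ)) i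
    rw [this, Nat.cast_zero]
    positivity
  · have h1 := hSB1 B M0 M γ0 Λ i hBm hBc hz hM1 hM5 hM (hBΓ M0 γ0 hM1 ((hΓ _ _).2 hγ0))
      (fun l => hBΓ M0 _ hM1 ((hΓ _ _).2 (hγl l))) fun γ hγ => hBΓ M γ hM ((hΓ _ _).2 (hΛ γ hγ))
    have h2 : ((∑ γ ∈ Λ, γ i : ℕ) : ℝ≥0∞) ≤
        ((M + 15 : ℕ) : ℝ≥0∞) ^ 4 * (ENNReal.ofReal (τ : ℝ) * ENNReal.ofReal V) :=
      h1.trans (mul_le_mul_right (hbary.trans (mul_le_mul_right hvol _)) _)
    rw [← ENNReal.ofReal_natCast, ← ENNReal.ofReal_natCast (M + 15),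
      ← ENNReal.ofReal_pow (Nat.cast_nonneg _), ← ENNReal.ofReal_mul hτ',
      ← ENNReal.ofReal_mul (pow_nonneg (Nat.cast_nonneg _) 4),
      ENNReal.ofReal_le_ofReal_iff (by positivity)] at h2
    calc _ ≤ _ := h2
      _ = _ := by push_cast; ring

end Pool.Agent.P.MP_6149fc_ag.V22

end

section

/-! Step VOLM. -/

set_option autoImplicit false
set_option linter.unusedSectionVars false

namespace Pool.Agent.P.MP_6149fc_ag.V22

open Pool.Agent.P.MP_6149fc_ag.V18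
open scoped ENNReal
open MeasureTheory

theorem p_VOLM :
    S_VOLM := by
  intro d hd c hc
  have h1 : Filter.Tendsto (fun M : ℕ => (11 / 3 : ℝ) * (1 + 3 / (M : ℝ)) ^ 3) Filter.atTop
      (nhds ((11 / 3 : ℝ) * (1 + 0) ^ 3)) :=
    ((tendsto_const_nhds.add (tendsto_const_div_atTop_nhds_zero_nat 3)).pow 3).const_mul _
  have h2 : (11 / 3 : ℝ) * (1 + 0) ^ 3 = 11 / 3 := by norm_num
  rw [h2] at h1
  refine ge_of_tendsto h1 ?_
  filter_upwards [hc, Filter.eventually_gt_atTop 0] with M hM h0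
  have hp : (0 : ℝ) < M := by exact_mod_cast h0
  have a1 : ((M + 3).choose 3 : ℝ) ≤ ((M + 3 : ℕ) : ℝ) ^ 3 / (Nat.factorial 3 : ℕ) :=
    Nat.choose_le_pow_div 3 (M + 3)
  have a2 : (d M : ℝ) ≤ 22 * ((M + 3).choose 3 : ℝ) := by exact_mod_cast hd M
  have a3 : ((Nat.factorial 3 : ℕ) : ℝ) = 6 := by norm_num [Nat.factorial]
  rw [a3] at a1
  push_cast at a1
  have e : (11 / 3 : ℝ) * (1 + 3 / (M : ℝ)) ^ 3 = (11 / 3 * ((M : ℝ) + 3) ^ 3) / (M : ℝ) ^ 3 := by
    field_simp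
  rw [e, le_div_iff₀ (by positivity)]
  linarith

end Pool.Agent.P.MP_6149fc_ag.V22

end

section

/-! Step CONVV. -/

set_option autoImplicit false
set_option linter.unusedSectionVars false

namespace Pool.Agent.P.MP_6149fc_ag.V22

open Pool.Agent.P.MP_6149fc_ag.V18
open scoped ENNReal
open MeasureTheory

namespace CONVVx

open ConvA Filter Topology

theorem key (A : ℕ) (d : ℕ → ℕ) (s : ℕ → ℕ → ℕ) (V W : ℝ≥0∞) (h3 : VolN d (11 / 3))
    (hA : ∀ V : ℝ, VolN d V → V ≤ 11 / 3 → ∀ M J : ℕ,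
      ((s M J : ℕ) : ℝ) ≤ A * (V * ((M : ℝ) + 15) ^ 4 + 3))
    (hlow0 : ∀ θ : ℝ, 0 < θ → θ < 1 → ∀ b < V, ∀ᶠ M : ℕ in atTop,
      ENNReal.ofReal (θ * M) ^ 3 * b ≤ d M)
    (hcard : ∀ M, 1 ≤ M → (d M : ℝ≥0∞) ≤ ((M + 3 : ℕ) : ℝ≥0∞) ^ 3 * V)
    (hlowB : ∀ θ : ℝ, 0 < θ → θ < 1 → ∀ b < W, ∃ C : ℕ, ∀ᶠ M : ℕ in atTop, ∃ J : ℕ,
      ENNReal.ofReal (θ * M) ^ (3 + 1) * b ≤ ((s M J + C * d M : ℕ) : ℝ≥0∞)) :
    W ≤ A * V := by
  have hre : ∀ (θ β : ℝ) (M k N : ℕ), 0 < θ → 0 ≤ β →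
      ENNReal.ofReal (θ * M) ^ k * ENNReal.ofReal β ≤ (N : ℝ≥0∞) →
      θ ^ k * β * (M : ℝ) ^ k ≤ N := by
    intro θ β M k N h0 hβ h
    rw [← ENNReal.ofReal_pow (by positivity), ← ENNReal.ofReal_mul (by positivity),
      ← ENNReal.ofReal_natCast, ENNReal.ofReal_le_ofReal_iff (Nat.cast_nonneg _)] at h
    calc _ = (θ * M) ^ k * β := by ring
      _ ≤ _ := h
  have h1 : V ≤ ENNReal.ofReal (11 / 3) := by
    refine le_of_forall_lt_imp_le_of_dense fun b hb => le_of_theta 3 fun θ h0 h1 => ?_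
    have hl := hlow0 θ h0 h1 b hb
    rw [← ENNReal.ofReal_toReal hb.ne_top] at hl ⊢
    rw [← ENNReal.ofReal_pow h0.le, ← ENNReal.ofReal_mul (by positivity)]
    exact ENNReal.ofReal_le_ofReal (h3 _ (hl.mono fun M hM =>
      hre θ _ M 3 _ h0 ENNReal.toReal_nonneg hM))
  have hVt : V ≠ ⊤ := ne_top_of_le_ne_top ENNReal.ofReal_ne_top h1
  obtain ⟨v, hv0, rfl⟩ : ∃ v : ℝ, 0 ≤ v ∧ V = ENNReal.ofReal v :=
    ⟨V.toReal, ENNReal.toReal_nonneg, (ENNReal.ofReal_toReal hVt).symm⟩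
  have hv3 : v ≤ 11 / 3 := (ENNReal.ofReal_le_ofReal_iff (by norm_num)).1 h1
  have hcR : ∀ M : ℕ, 1 ≤ M → (d M : ℝ) ≤ ((M : ℝ) + 3) ^ 3 * v := fun M hM => by
    have := hcard M hM
    rw [← ENNReal.ofReal_natCast, ← ENNReal.ofReal_natCast (M + 3),
      ← ENNReal.ofReal_pow (by positivity), ← ENNReal.ofReal_mul (by positivity),
      ENNReal.ofReal_le_ofReal_iff (by positivity)] at this
    exact_mod_cast this
  have hu : Tendsto (fun M : ℕ => (M : ℝ)⁻¹) atTop (𝓝 0) := tendsto_inv_atTop_nhds_zero_nat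
  have hvol : VolN d v := fun c hc => by
    have hg : Continuous fun u : ℝ => (1 + 3 * u) ^ 3 * v := by fun_prop
    have ht := (hg.tendsto 0).comp hu
    simp only [mul_zero, add_zero, one_pow, one_mul] at ht
    refine ge_of_tendsto ht ?_
    filter_upwards [hc, eventually_ge_atTop 1] with M hM hM1
    have hMR : (0 : ℝ) < M := by exact_mod_cast hM1
    refine le_of_mul_le_mul_right ((hM.trans (hcR M hM1)).trans_eq ?_) (pow_pos hMR 3)
    simp only [Function.comp]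
    field_simp
  refine le_of_forall_lt_imp_le_of_dense fun b hb => le_of_theta (3 + 1) fun θ h0 h1 => ?_
  obtain ⟨C, hC⟩ := hlowB θ h0 h1 b hb
  rw [← ENNReal.ofReal_toReal hb.ne_top] at hC ⊢
  rw [← ENNReal.ofReal_pow h0.le, ← ENNReal.ofReal_mul (by positivity), ← ENNReal.ofReal_natCast,
    ← ENNReal.ofReal_mul (by positivity)]
  refine ENNReal.ofReal_le_ofReal ?_
  have hg : Continuous fun u : ℝ =>
      A * (v * (1 + 15 * u) ^ 4 + 3 * u ^ 4) + C * ((1 + 3 * u) ^ 3 * v) * u := by fun_prop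
  have ht := (hg.tendsto 0).comp hu
  simp only [mul_zero, add_zero, one_pow, mul_one, ne_eq, OfNat.ofNat_ne_zero, not_false_eq_true,
    zero_pow] at ht
  refine ge_of_tendsto ht ?_
  filter_upwards [hC, eventually_ge_atTop 1] with M ⟨J, hJ⟩ hM1
  have hMR : (0 : ℝ) < M := by exact_mod_cast hM1
  have h5 := hre θ _ M (3 + 1) _ h0 ENNReal.toReal_nonneg hJ
  rw [Nat.cast_add, Nat.cast_mul] at h5
  have h6 := add_le_add (hA v hvol hv3 M J)
    (mul_le_mul_of_nonneg_left (hcR M hM1) (Nat.cast_nonneg C))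
  refine le_of_mul_le_mul_right ((h5.trans h6).trans_eq ?_) (pow_pos hMR (3 + 1))
  simp only [Function.comp]
  field_simp
  ring

theorem core (n A : ℕ) (G : Semi n) (hn : 1 ≤ n)
    (H : ∀ V W : ℝ≥0∞, (∀ θ : ℝ, 0 < θ → θ < 1 → ∀ b < V, ∀ᶠ M : ℕ in atTop,
        ENNReal.ofReal (θ * M) ^ n * b ≤ (G.Γ M 0).card) →
      (∀ M, 1 ≤ M → ((G.Γ M 0).card : ℝ≥0∞) ≤ ((M + n : ℕ) : ℝ≥0∞) ^ n * V) →
      (∀ θ : ℝ, 0 < θ → θ < 1 → ∀ b < W, ∃ C : ℕ, ∀ᶠ M : ℕ in atTop, ∃ J : ℕ,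
        ENNReal.ofReal (θ * M) ^ (n + 1) * b ≤
          ((∑ j ∈ Finset.Icc 1 J, (G.Γ M j).card + C * (G.Γ M 0).card : ℕ) : ℝ≥0∞)) →
      W ≤ A * V) :
    ∫⁻ t in Set.Ioi (0 : ℝ), limsup (fun M : ℕ =>
        (n.factorial * (G.Γ M ⌈t * M⌉₊).card : ℝ≥0∞) / (M : ℝ≥0∞) ^ n) atTop ≤
      A * limsup (fun M : ℕ =>
        (n.factorial * (G.Γ M 0).card : ℝ≥0∞) / (M : ℝ≥0∞) ^ n) atTop := by
  obtain ⟨B, hBm, hBc, -, hdown, hmem, hlow0, hlowB⟩ := p_BODY p_CUBE n G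
  obtain ⟨hc1, -⟩ := p_CUBE n
  let sl : ℝ → Set (Fin n → ℝ) := fun s => Prod.mk s ⁻¹' B
  have hslm : ∀ s, MeasurableSet (sl s) := fun s => measurable_prodMk_left hBm
  have hDc : Convex ℝ (sl 0) := by
    intro x hx y hy a b ha hb hab
    have := hBc hx hy ha hb hab
    simpa [sl] using this
  have hD0 : (0 : Fin n → ℝ) ∈ sl 0 := by
    have := hmem 1 0 0 le_rfl G.zero1
    simp only [Nat.cast_zero, Finsupp.coe_zero, Pi.zero_apply, zero_div] at this
    exact this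
  have hDs : ∀ (M : ℕ) (a : Fin n) (k : ℕ), 1 ≤ M → Finsupp.single a k ∈ G.Γ M 0 →
      Pi.single a ((k : ℝ) / M) ∈ sl 0 := by
    intro M a k hM h
    have := hmem M 0 _ hM h
    simp only [Nat.cast_zero, zero_div] at this
    change (0, _) ∈ B
    convert this using 2
    ext j
    by_cases hj : j = a
    · subst hj; simp
    · simp [hj]
  have hD1 : ∀ i, Pi.single i (1 : ℝ) ∈ sl 0 := fun i => by
    simpa using hDs 1 i 1 le_rfl (G.single1 i)
  have hsim := simplex_sub hDc hD0 hD1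
  have hnR : (0 : ℝ) < n := by exact_mod_cast hn
  have hcube : ∀ (M j : ℕ) (γ : Fin n →₀ ℕ), 1 ≤ M → γ ∈ G.Γ M j → ∀ x : Fin n → ℝ,
      (∀ i, (γ i : ℝ) ≤ x i ∧ x i < γ i + 1) →
      (((M + n : ℕ) : ℝ)⁻¹ • x) ∈ sl (j / ((M : ℝ) + n)) := by
    intro M j γ hM hγ x hx
    have hMR : (0 : ℝ) < M := by exact_mod_cast hM
    have hq : (fun i => (x i - γ i) / n) ∈ simplex n := by
      refine ⟨fun i => div_nonneg (by linarith [(hx i).1]) hnR.le, ?_⟩
      rw [← Finset.sum_div, div_le_one hnR]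
      calc ∑ i, (x i - γ i) ≤ ∑ _i : Fin n, (1 : ℝ) :=
            Finset.sum_le_sum fun i _ => by linarith [(hx i).2]
        _ = n := by simp
    have := hBc (hmem M j γ hM hγ) (hsim hq) (a := M / (M + n)) (b := n / (M + n))
      (by positivity) (by positivity) (by field_simp)
    change (_, _) ∈ B
    convert this using 1
    ext i
    · simp only [Prod.fst_add, Prod.smul_fst, smul_eq_mul]
      field_simp
      ring
    · simp only [Prod.snd_add, Prod.smul_snd, Pi.add_apply, Pi.smul_apply, smul_eq_mul]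
      push_cast
      field_simp
      ring
  set V := volume (sl 0) with hV
  have hMn : ∀ M : ℕ, M + n ≠ 0 := fun M => by omega
  have hsc : ∀ (M : ℕ) (s : ℝ), MeasurableSet
      ((fun x : Fin n → ℝ => ((M + n : ℕ) : ℝ)⁻¹ • x) ⁻¹' sl s) := fun M s =>
    measurable_const_smul _ (hslm s)
  have h4 : volume B ≤ A * V := by
    refine H V _ hlow0 (fun M hM => ?_) hlowB
    rw [hV, ← vol_scale _ (hMn M)]
    refine (hc1 _ _ (hsc M _) fun γ hγ x hx => ?_).1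
    simpa using hcube M 0 γ hM hγ x hx
  have h5 : ∀ θ : ℝ, 0 < θ → θ < 1 → ∀ t : ℝ, 0 < t → ENNReal.ofReal θ ^ n *
      limsup (fun M : ℕ => (n.factorial * (G.Γ M ⌈t * M⌉₊).card : ℝ≥0∞) / (M : ℝ≥0∞) ^ n) atTop ≤
      n.factorial * volume (sl (θ * t)) := by
    intro θ h0 h1 t ht
    have hT0 : ENNReal.ofReal θ ^ n ≠ 0 := pow_ne_zero _ (by simpa using h0)
    have hTt : ENNReal.ofReal θ ^ n ≠ ⊤ := ENNReal.pow_ne_top ENNReal.ofReal_ne_top
    rw [mul_comm, ← ENNReal.le_div_iff_mul_le (Or.inl hT0) (Or.inl hTt)]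
    refine limsup_le_of_le (by isBoundedDefault) ?_
    filter_upwards [ev_theta n h1] with M ⟨hM, hθ⟩
    rw [ENNReal.le_div_iff_mul_le (Or.inl hT0) (Or.inl hTt), mul_comm, ← mul_div_assoc]
    refine ENNReal.div_le_of_le_mul ?_
    have hc : ((G.Γ M ⌈t * M⌉₊).card : ℝ≥0∞) ≤
        ((M + n : ℕ) : ℝ≥0∞) ^ n * volume (sl (θ * t)) := by
      rw [← vol_scale _ (hMn M)]
      refine (hc1 _ _ (hsc M _) fun γ hγ x hx => ?_).1
      refine hdown _ _ _ (hcube M _ γ hM hγ x hx) (by positivity) ?_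
      rw [le_div_iff₀ (by positivity)]
      have := Nat.le_ceil (t * M)
      nlinarith [mul_le_mul_of_nonneg_left hθ ht.le]
    calc _ ≤ ENNReal.ofReal θ ^ n *
            (n.factorial * (((M + n : ℕ) : ℝ≥0∞) ^ n * volume (sl (θ * t)))) := by gcongr
      _ = n.factorial * volume (sl (θ * t)) * (ENNReal.ofReal θ * ((M + n : ℕ) : ℝ≥0∞)) ^ n := by
          ring
      _ ≤ _ := mul_le_mul_right (pow_le_pow_left' (theta_en h0 hθ) n) _
  have h6 : n.factorial * V ≤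
      limsup (fun M : ℕ => (n.factorial * (G.Γ M 0).card : ℝ≥0∞) / (M : ℝ≥0∞) ^ n) atTop := by
    refine ENNReal.mul_le_of_forall_lt fun a ha b hb => le_of_theta n fun θ h0 h1 => ?_
    refine le_limsup_of_frequently_le' (Eventually.frequently ?_)
    filter_upwards [hlow0 θ h0 h1 b hb, eventually_ge_atTop 1] with M hM hM1
    have hz : (M : ℝ≥0∞) ^ n ≠ 0 := pow_ne_zero _ (by exact_mod_cast (by omega : M ≠ 0))
    rw [ENNReal.le_div_iff_mul_le (Or.inl hz)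
      (Or.inl (ENNReal.pow_ne_top (ENNReal.natCast_ne_top _)))]
    rw [ENNReal.ofReal_mul h0.le, ENNReal.ofReal_natCast] at hM
    calc _ = a * ((ENNReal.ofReal θ * M) ^ n * b) := by ring
      _ ≤ _ := mul_le_mul' ha.le hM
  refine le_of_theta (n + 1) fun θ h0 h1 => ?_
  have hsig : Measurable fun s => volume (sl s) := measurable_measure_prodMk_left hBm
  have hvol : volume B = ∫⁻ s, volume (sl s) := by
    rw [Measure.volume_eq_prod, Measure.prod_apply hBm]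
  calc _ = ENNReal.ofReal θ * ∫⁻ t in Set.Ioi (0 : ℝ), ENNReal.ofReal θ ^ n * limsup (fun M : ℕ =>
        (n.factorial * (G.Γ M ⌈t * M⌉₊).card : ℝ≥0∞) / (M : ℝ≥0∞) ^ n) atTop := by
        rw [lintegral_const_mul' _ _ (ENNReal.pow_ne_top ENNReal.ofReal_ne_top)]
        ring
    _ ≤ ENNReal.ofReal θ * ∫⁻ t in Set.Ioi (0 : ℝ), n.factorial * volume (sl (θ * t)) :=
        mul_le_mul_right (setLIntegral_mono' measurableSet_Ioi fun t ht => h5 θ h0 h1 t ht) _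
    _ = n.factorial * (ENNReal.ofReal θ * ∫⁻ t in Set.Ioi (0 : ℝ), volume (sl (θ * t))) := by
        rw [lintegral_const_mul' _ _ (ENNReal.natCast_ne_top _)]
        ring
    _ ≤ n.factorial * (A * V) :=
        mul_le_mul_right ((int_sig hsig h0).trans (hvol ▸ h4)) _
    _ = A * (n.factorial * V) := by ring
    _ ≤ _ := mul_le_mul_right h6 _

end CONVVx

theorem p_CONVV :
    S_CONVV := fun A G h3 hA =>
  CONVVx.core 3 A G (by norm_num) fun V W h1 h2 h4 =>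
    CONVVx.key A (fun M => (G.Γ M 0).card) (fun M J => ∑ j ∈ Finset.Icc 1 J, (G.Γ M j).card)
      V W h3 hA h1 h2 h4

end Pool.Agent.P.MP_6149fc_ag.V22

end

section

/-! Step FINX. -/

set_option autoImplicit false
set_option linter.unusedSectionVars false

namespace Pool.Agent.P.MP_6149fc_ag.V22

open Pool.Agent.P.MP_6149fc_ag.V18
open scoped ENNReal
open MeasureTheory
open MvPowerSeries (coeff X constantCoeff monomial)

theorem p_FINX (hFIN2 : S_FIN2) (hFINV : S_FINV) (hFINW : S_FINW) (hFINS : S_FINS) (hCONVV : S_CONVV) (hADM : S_ADM) :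
    S_FINX := by
  intro σ K κ _ _ _ _ _ ξ v x j A Ψ hc hξ h1 h2 hpar hloc
  obtain ⟨hker, hind⟩ := hFIN2 σ K κ ξ v x j A Ψ h1 h2 hpar
  obtain ⟨hW0, hlow⟩ := hFINW σ K κ ξ v Ψ hc hξ
  obtain ⟨hone, hX, hvol, hL⟩ := hloc
  have hup := MainA.W_upper (v := v) (κ := κ) hker
  choose Γ hcard hΓ using fun M j =>
    @init_count κ _ lexA (hADM lexA (by decide)) (MainA.W v ξ κ Ψ M j) (hup M j).1
  let G : Semi 3 :=
    { Γ := Γ
      add := fun M M' j j' a b ha hb => by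
        obtain ⟨f, hf, hfa⟩ := (hΓ _ _ _).1 ha
        obtain ⟨g, hg, hgb⟩ := (hΓ _ _ _).1 hb
        exact (hΓ _ _ _).2 ⟨f * g, MainA.W_mul hf hg, hfa.mul hgb⟩
      anti := fun M j j' h a ha => by
        obtain ⟨f, hf, hfa⟩ := (hΓ _ _ _).1 ha
        exact (hΓ _ _ _).2 ⟨f, MainA.W_anti h hf, hfa⟩
      zero0 := (hΓ _ _ _).2 ⟨1, MainA.one_mem_W, init_one⟩
      zero1 := (hΓ _ _ _).2 ⟨1, by rw [hW0]; exact hone, init_one⟩
      single1 := fun a => (hΓ _ _ _).2 ⟨X a, by rw [hW0]; exact hX a,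
        init_monomial _ one_ne_zero⟩ }
  have hc0 : (fun M => (G.Γ M 0).card) = fun M => Module.finrank κ (UU κ Ψ M) :=
    funext fun M => by rw [← hW0]; exact hcard M 0
  have hWU : (fun M => MainA.W v ξ κ Ψ M 0) = UU κ Ψ := funext hW0
  have hconv := hCONVV A G (by rw [hc0]; exact hvol) fun V hV hV3 =>
    hFINS κ (MainA.W v ξ κ Ψ) G A V hΓ (fun _ _ _ _ _ _ => MainA.W_mul) MainA.one_mem_W
      (fun M j => MainA.W_anti (Nat.zero_le j)) hV.nonneg
      (by rw [hWU]; exact hL V (by rw [hc0] at hV; exact hV) hV3)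
      (hFINV σ K κ ξ v x j A Ψ h1 hpar)
  refine ENNReal.div_le_of_le_mul (le_trans ?_ (hconv.trans ?_))
  · refine MeasureTheory.setLIntegral_mono' measurableSet_Ioi fun t ht => ?_
    refine Filter.limsup_le_limsup (Filter.Eventually.of_forall fun M => ?_)
    have h3 := (hlow hind t ht M).trans (hcard M _).ge
    dsimp only
    gcongr
  · refine mul_le_mul_right (Filter.limsup_le_limsup (Filter.Eventually.of_forall fun M => ?_)) _
    have h3 := (hcard M 0).le.trans (hup M 0).2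
    gcongr

end Pool.Agent.P.MP_6149fc_ag.V22

end

section

/-! Step SIMV. -/

set_option autoImplicit false
set_option linter.unusedSectionVars false

namespace Pool.Agent.P.MP_6149fc_ag.V22

open Pool.Agent.P.MP_6149fc_ag.V18
open scoped ENNReal
open MeasureTheory

theorem p_SIMV (hADM : S_ADM) (hSBV : S_SBV) (hENGS : S_ENGS) :
    S_SIMV := by
  intro κ _ A P U V hA hP b0 b1 b2 hC hX hPts
  have hA' := hADM A hA
  have e0 : (MvPowerSeries.X 0 : PS κ) = mon κ 1 0 0 := by simp [mon]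
  have e1 : (MvPowerSeries.X 1 : PS κ) = mon κ 0 1 0 := by simp [mon]
  have e2 : (MvPowerSeries.X 2 : PS κ) = mon κ 0 0 1 := by simp [mon]
  have hQ : Pts A U (unitP ++ P) := by
    intro q hq
    rcases List.mem_append.1 hq with hq | hq
    · simp only [unitP, List.mem_cons, List.not_mem_nil, or_false] at hq
      rcases hq with rfl | rfl | rfl
      · exact ⟨_, hX 0, (init_mon 1 0 0).congr e0⟩
      · exact ⟨_, hX 1, (init_mon 0 1 0).congr e1⟩
      · exact ⟨_, hX 2, (init_mon 0 0 1).congr e2⟩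
    · exact hPts q hq
  have h1 : ∀ p ∈ unitP ++ P, 1 ≤ p.1 := by
    intro q hq
    rcases List.mem_append.1 hq with hq | hq
    · simp only [unitP, List.mem_cons, List.not_mem_nil, or_false] at hq
      rcases hq with rfl | rfl | rfl <;> exact le_rfl
    · exact hP q hq
  have key : ∀ i : Fin 3, BaryV (unitP ++ P) i 1 → SumLe A U i 1 V := fun i b => by
    have := hSBV κ A U V _ i 1 hA' hC.sys (gen_of_X hC.sys hX) hC.vol hC.le hQ h1 zero_le_one b
    simpa using this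
  refine hENGS κ A U V hA' fun i => ?_
  fin_cases i
  · exact key 0 b0
  · exact key 1 b1
  · exact key 2 b2

end Pool.Agent.P.MP_6149fc_ag.V22

end

section

/-! Step WALV. -/

set_option autoImplicit false
set_option linter.unusedSectionVars false

namespace Pool.Agent.P.MP_6149fc_ag.V22

open Pool.Agent.P.MP_6149fc_ag.V18
open scoped ENNReal
open MeasureTheory

theorem p_WALV (hADM : S_ADM) (hSBV : S_SBV) (hENGC : S_ENGC) :
    S_WALV := by
  intro κ _ _ d P Q τ0 τ1 τ2 U V hd hP hQ b0 b1 b2 b3 ⟨t0, t1, t2, t3, t4, t5, t6, t7⟩ hc hX pP pQ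
  have key : ∀ (s : ℤ) (R : List PT) (i : Fin 3) (τ : ℚ), s = 1 ∨ s = -1 → (∀ p ∈ R, 1 ≤ p.1) →
      Pts (WC d s) U R → 0 ≤ τ → BaryV (unitP ++ R) i τ → SumLe (WC d s) U i τ V := by
    intro s R i τ hs h1 h2 h3 h4
    refine hSBV κ _ U V _ i τ (hADM _ ?_) hc.sys (gen_of_X hc.sys hX) hc.vol hc.le
      (fun p hp => ?_) (fun p hp => ?_) h3 h4
    · rcases hd with rfl | rfl <;> rcases hs with rfl | rfl <;> decide
    · refine (List.mem_append.1 hp).elim (fun hp => ⟨_, ?_, init_mon _ _ _⟩) (h2 p)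
      simp only [unitP, List.mem_cons, List.not_mem_nil, or_false] at hp
      rcases hp with rfl | rfl | rfl <;> simpa [mon] using hX _
    · refine (List.mem_append.1 hp).elim (fun hp => ?_) (h1 p)
      simp only [unitP, List.mem_cons, List.not_mem_nil, or_false] at hp
      rcases hp with rfl | rfl | rfl <;> rfl
  exact hENGC κ d U V τ0 τ1 τ2 hd hc.vol.nonneg (key 1 P 0 _ (.inl rfl) hP pP t0 b0)
    (key 1 P 1 _ (.inl rfl) hP pP t1 b1) (key 1 P 2 _ (.inl rfl) hP pP t2 b2)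
    (by simpa using key (-1) Q 1 1 (.inr rfl) hQ pQ zero_le_one b3) (by exact_mod_cast t3)
    (by exact_mod_cast t4) (by exact_mod_cast t5) (by exact_mod_cast t6) (by exact_mod_cast t7)

end Pool.Agent.P.MP_6149fc_ag.V22

end
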