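import Pool.Agent.P.MP_6149fc_ag.V22.BaseC

/-! Statements: convex geometry with volume bound `11 / 3`, the engines, the final argument. -/

set_option autoImplicit false

namespace Pool.Agent.P.MP_6149fc_ag.V22

open Pool.Agent.P.MP_6149fc_ag.V18
open scoped ENNReal
open MeasureTheory

-- deps: TRAP1
def S_TRAPM : Prop :=
  ∀ (S : Set (Fin 2 → ℝ)) (l l' : List Q3) (θ : ℝ), Convex ℝ S → MeasurableSet S → 0 ≤ θ →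
    θ ≤ 1 → l.length = l'.length → incr l = true → incr l' = true →
    (∀ q ∈ l.zip l', q.1.2.1 ≤ q.1.2.2 ∧ q.2.2.1 ≤ q.2.2.2 ∧
      ![(1 - θ) * (q.1.1 : ℝ) + θ * (q.2.1 : ℝ), (1 - θ) * (q.1.2.1 : ℝ) + θ * (q.2.2.1 : ℝ)] ∈ S ∧
      ![(1 - θ) * (q.1.1 : ℝ) + θ * (q.2.1 : ℝ),
        (1 - θ) * (q.1.2.2 : ℝ) + θ * (q.2.2.2 : ℝ)] ∈ S) →
    ENNReal.ofReal ((trap l : ℝ) * (1 - θ) ^ 2 + (mix l l' : ℝ) * (θ * (1 - θ)) +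
      (trap l' : ℝ) * θ ^ 2) ≤ volume S

-- deps: TRAPM
-- imports: Pool.Agent.P.MP_6149fc_ag.V18.TCERT1
def S_CERTM : Prop :=
  ∀ (P : List PT) (i : Fin 3) (a : Slab) (B : Set (Fin 3 → ℝ)) (θ : ℝ), Convex ℝ B →
    (∀ t, MeasurableSet (sl B i t)) → (0 : Fin 3 → ℝ) ∈ B → (∀ p ∈ P, pR p ∈ B) →
    okS P i a.1 a.2.2.1 = true → okS P i a.2.1 a.2.2.2 = true →
    a.2.2.1.length = a.2.2.2.length → 0 ≤ θ → θ ≤ 1 →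
    ENNReal.ofReal (((slq P i a).2.2.1 : ℝ) * (1 - θ) ^ 2 +
      ((slq P i a).2.2.2.1 : ℝ) * (θ * (1 - θ)) + ((slq P i a).2.2.2.2 : ℝ) * θ ^ 2) ≤
      volume (sl B i ((1 - θ) * (a.1 : ℝ) + θ * (a.2.1 : ℝ)))

-- deps:
def S_CRQ : Prop :=
  ∀ (g : ℝ → ℝ≥0∞) (s t c A0 A1 A2 : ℝ), s ≤ t → t ≤ c → 0 ≤ A0 → 0 ≤ A1 → 0 ≤ A2 →
    (∀ θ : ℝ, 0 ≤ θ → θ ≤ 1 →
      ENNReal.ofReal (A0 * (1 - θ) ^ 2 + A1 * (θ * (1 - θ)) + A2 * θ ^ 2) ≤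
        g ((1 - θ) * s + θ * t)) →
    ENNReal.ofReal ((t - s) * (A0 / 3 + A1 / 6 + A2 / 3)) ≤ ∫⁻ u in Set.Ioc s t, g u ∧
    ENNReal.ofReal ((t - s) * ((c - s) * (A0 / 4 + A1 / 12 + A2 / 12) +
      (c - t) * (A0 / 12 + A1 / 12 + A2 / 4))) ≤
      ∫⁻ u in Set.Ioc s t, ENNReal.ofReal (c - u) * g u

-- deps: CRQ
def S_CRM : Prop :=
  ∀ (g : ℝ → ℝ≥0∞) (c lo : ℚ) (L : List Q5), ordq c lo L = true →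
    (∀ a ∈ L, ∀ θ : ℝ, 0 ≤ θ → θ ≤ 1 →
      ENNReal.ofReal ((a.2.2.1 : ℝ) * (1 - θ) ^ 2 + (a.2.2.2.1 : ℝ) * (θ * (1 - θ)) +
        (a.2.2.2.2 : ℝ) * θ ^ 2) ≤ g ((1 - θ) * (a.1 : ℝ) + θ * (a.2.1 : ℝ))) →
    lo ≤ c ∧ 0 ≤ vq L ∧ 0 ≤ mq c L ∧
      ENNReal.ofReal (vq L : ℝ) ≤ ∫⁻ u in Set.Ioc (lo : ℝ) (c : ℝ), g u ∧
      ENNReal.ofReal (mq c L : ℝ) ≤
        ∫⁻ u in Set.Ioc (lo : ℝ) (c : ℝ), ENNReal.ofReal (c - u) * g u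

-- deps: CRT
def S_CRITV : Prop :=
  ∀ (g : ℝ → ℝ≥0∞) (N : Set ℝ) (c τ AA V0 M0 : ℝ), Measurable g → Conc g N →
    (∀ t < 0, g t = 0) → ∫⁻ t, g t ≤ ENNReal.ofReal (11 / 3) → 0 < AA →
    ENNReal.ofReal AA ≤ g c → 0 ≤ τ → 0 ≤ V0 → 0 ≤ M0 →
    ENNReal.ofReal V0 ≤ ∫⁻ u in Set.Iic c, g u →
    ENNReal.ofReal M0 ≤ ∫⁻ u in Set.Iic c, ENNReal.ofReal (c - u) * g u →
    3 / 4 * (11 / 3 - V0) ^ 2 ≤ AA * (M0 - 11 / 3 * (c - τ)) →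
    ∫⁻ t, ENNReal.ofReal t * g t ≤ ENNReal.ofReal τ * ∫⁻ t, g t

-- deps:
def S_CRITF : Prop :=
  ∀ (g : ℝ → ℝ≥0∞) (c τ V0 M0 : ℝ), Measurable g → (∀ t < 0, g t = 0) →
    ∫⁻ t, g t ≤ ENNReal.ofReal (11 / 3) → 0 ≤ c → 0 ≤ τ → 0 ≤ M0 →
    ENNReal.ofReal V0 ≤ ∫⁻ u in Set.Iic c, g u →
    ENNReal.ofReal M0 ≤ ∫⁻ u in Set.Iic c, ENNReal.ofReal (c - u) * g u →
    11 / 3 ≤ V0 → 11 / 3 * (c - τ) ≤ M0 →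
    ∫⁻ t, ENNReal.ofReal t * g t ≤ ENNReal.ofReal τ * ∫⁻ t, g t

-- deps: CERT1 CERTM SLICE1 SLICE2 CRM CRITV CRITF
def S_CERTV : Prop :=
  ∀ (P : List PT) (i : Fin 3) (τ : ℚ) (L : List Slab) (c : ℚ),
    (∀ S : List (Wt × Wt), chkV P i τ L c S = true → BaryV P i τ) ∧
    (chkF P i τ L c = true → BaryV P i τ)

-- deps: BODY0 SB1
def S_SBV : Prop :=
  ∀ (κ : Type) [Field κ] (A : Rows) (U : ℕ → Submodule κ (PS κ)) (V : ℝ) (P : List PT)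
    (i : Fin 3) (τ : ℚ), Adm A → Sys U → Gen A U → Vol U V → V ≤ 11 / 3 → Pts A U P →
    (∀ p ∈ P, 1 ≤ p.1) → 0 ≤ τ → BaryV P i τ → SumLe A U i τ V

-- deps:
def S_VOLM : Prop := ∀ d : ℕ → ℕ, (∀ M, d M ≤ 22 * (M + 3).choose 3) → VolN d (11 / 3)

-- deps:
-- imports: Pool.Agent.P.MP_6149fc_ag.Cube Pool.Agent.P.MP_6149fc_ag.Body Pool.Agent.P.MP_6149fc_ag.Conv
def S_CONVV : Prop :=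
  ∀ (A : ℕ) (G : Semi 3), VolN (fun M => (G.Γ M 0).card) (11 / 3) →
    (∀ V : ℝ, VolN (fun M => (G.Γ M 0).card) V → V ≤ 11 / 3 → ∀ M J : ℕ,
      ((∑ j ∈ Finset.Icc 1 J, (G.Γ M j).card : ℕ) : ℝ) ≤ A * (V * ((M : ℝ) + 15) ^ 4 + 3)) →
    ∫⁻ t in Set.Ioi (0 : ℝ), Filter.limsup (fun M : ℕ =>
        ((Nat.factorial 3) * (G.Γ M ⌈t * M⌉₊).card : ℝ≥0∞) / (M : ℝ≥0∞) ^ 3) Filter.atTop ≤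
      A * Filter.limsup (fun M : ℕ =>
        ((Nat.factorial 3) * (G.Γ M 0).card : ℝ≥0∞) / (M : ℝ≥0∞) ^ 3) Filter.atTop

-- deps: FIN2 FINV FINW FINS CONVV ADM
def S_FINX : Prop :=
  ∀ (σ K κ : Type) [Fintype σ] [Field K] [Algebra ℂ K] [Field κ] [Algebra ℂ κ] (ξ : σ → K)
    (v : AddValuation K (WithTop ℤ)) (x : σ → κ) (j : σ) (A : ℕ) (Ψ : σ → PS κ),
    (∀ c : ℂ, 0 ≤ v (algebraMap ℂ K c)) → (∀ i, 0 ≤ v (ξ i)) → Supply1 κ ξ v x j A →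
    Supply2 κ ξ x j → Par ξ x j Ψ → LocV Ψ → expectedOrder 3 v ξ ≤ A

-- deps: ADM SBV ENGS
def S_SIMV : Prop :=
  ∀ (κ : Type) [Field κ] (A : Rows) (P : List PT) (U : ℕ → Submodule κ (PS κ)) (V : ℝ),
    admB A → (∀ p ∈ P, 1 ≤ p.1) → BaryV (unitP ++ P) 0 1 → BaryV (unitP ++ P) 1 1 →
    BaryV (unitP ++ P) 2 1 → CtxV U V → (∀ j, MvPowerSeries.X j ∈ U 1) → Pts A U P → Loc U V

-- deps: ADM SBV ENGC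
def S_WALV : Prop :=
  ∀ (κ : Type) [Field κ] [IsAlgClosed κ] (d : ℕ) (P Q : List PT) (τ0 τ1 τ2 : ℚ)
    (U : ℕ → Submodule κ (PS κ)) (V : ℝ), (d = 1 ∨ d = 2) → (∀ p ∈ P, 1 ≤ p.1) →
    (∀ p ∈ Q, 1 ≤ p.1) → BaryV (unitP ++ P) 0 τ0 → BaryV (unitP ++ P) 1 τ1 →
    BaryV (unitP ++ P) 2 τ2 → BaryV (unitP ++ Q) 1 1 →
    (0 ≤ τ0 ∧ 0 ≤ τ1 ∧ 0 ≤ τ2 ∧ τ0 ≤ 1 ∧ τ2 ≤ 1 ∧ 2 * τ0 + d * τ1 ≤ 2 + d ∧ τ1 + 2 * τ2 ≤ 3 ∧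
      τ1 ≤ 2) → CtxV U V → (∀ j, MvPowerSeries.X j ∈ U 1) → Pts (WC d 1) U P →
    Pts (WC d (-1)) U Q → Loc U V

end Pool.Agent.P.MP_6149fc_ag.V22
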