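import Pool.Agent.P.MP_6149fc_ag.V22.BaseQ
import Pool.Agent.P.MP_6149fc_ag.V22.IfaceB

/-! Barycentre certificates for points on three lines. -/

set_option autoImplicit false

namespace Pool.Agent.P.MP_6149fc_ag.V22

open Pool.Agent.P.MP_6149fc_ag.V18

theorem c_ta_0 (h : S_CERTV) : BaryV (unitP ++ P_ta) 0 (1) :=
  (h _ _ _
    [(0, 1, [([], [(2, 1)]), ([(1, 1)], [(3, 1)]), ([(1, 1)], [(3, 1)])],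
        [([(0, 1)], [(6, 1)]), ([(0, 1)], [(6, 1)]), ([(5, 1)], [(8, 1)])])]
    (1)).1 [([(0, 1)], [(6, 1)]), ([(5, 1)], [(8, 1)])]
    (by decide +kernel)

theorem c_ta_1 (h : S_CERTV) : BaryV (unitP ++ P_ta) 1 (1) :=
  (h _ _ _
    [(0, 1, [([], [(2, 1)]), ([(0, 1)], [(6, 1)]), ([(0, 1)], [(6, 1)]), ([(0, 1)], [(6, 1)])],
        [([(1, 1)], [(3, 1)]), ([(1, 1)], [(3, 1)]), ([(1, 1/2), (4, 1/2)], [(6, 1/2), (8, 1/2)]), ([(4, 1)], [(7, 1)])])]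
    (1)).1 [([(1, 1)], [(3, 1)]), ([(1, 1/2), (4, 1/2)], [(6, 1/2), (8, 1/2)]), ([(4, 1)], [(7, 1)])]
    (by decide +kernel)

theorem c_ta_2 (h : S_CERTV) : BaryV (unitP ++ P_ta) 2 (1) :=
  (h _ _ _
    [(0, 1, [([], [(1, 1)]), ([(0, 1)], [(5, 1)]), ([(4, 1)], [(4, 1)])],
        [([(2, 1)], [(3, 1)]), ([(0, 1/2), (6, 1/2)], [(8, 1)]), ([(7, 1)], [(7, 1)])])]
    (1)).1 [([(2, 1)], [(3, 1)]), ([(0, 1/2), (6, 1/2)], [(8, 1)]), ([(7, 1)], [(7, 1)])]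
    (by decide +kernel)

theorem c_tc_0 (h : S_CERTV) : BaryV (unitP ++ P_tc) 0 (1) :=
  (h _ _ _
    [(0, 1/2, [([], [(2, 1)]), ([(1, 1)], [(2, 1/2), (4, 1/2)]), ([(4, 1)], [(4, 1)]), ([(4, 1)], [(4, 1)])],
        [([(0, 1/2)], [(2, 1/2), (5, 1/2)]), ([(1, 3/4), (3, 1/4)], [(4, 1/2), (5, 1/2)]), ([(1, 3/4), (3, 1/4)], [(4, 1/2), (5, 1/2)]), ([(3, 1/4), (4, 3/4)], [(4, 3/4), (6, 1/4)])]),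
      (1/2, 1, [([(0, 1/2)], [(2, 1/2), (5, 1/2)]), ([(1, 3/4), (3, 1/4)], [(4, 1/2), (5, 1/2)]), ([(1, 3/4), (3, 1/4)], [(4, 1/2), (5, 1/2)]), ([(3, 1/4), (4, 3/4)], [(4, 3/4), (6, 1/4)])],
        [([(0, 1)], [(5, 1)]), ([(0, 1)], [(5, 1)]), ([(1, 1/2), (3, 1/2)], [(4, 1/3), (5, 1/3), (6, 1/3)]), ([(3, 1/2), (4, 1/2)], [(4, 1/2), (6, 1/2)])])]
    (1)).1 [([(0, 1)], [(5, 1)]), ([(1, 1/2), (3, 1/2)], [(4, 1/3), (5, 1/3), (6, 1/3)]), ([(3, 1/2), (4, 1/2)], [(4, 1/2), (6, 1/2)])]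
    (by decide +kernel)

theorem c_tc_1 (h : S_CERTV) : BaryV (unitP ++ P_tc) 1 (1) :=
  (h _ _ _
    [(0, 1, [([], [(2, 1)]), ([(0, 1)], [(5, 1)]), ([(0, 1)], [(5, 1)])],
        [([(1, 1)], [(2, 1/2), (4, 1/2)]), ([(1, 3/4), (3, 1/4)], [(4, 1/2), (5, 1/2)]), ([(3, 1)], [(6, 1)])])]
    (1)).1 [([(1, 1)], [(2, 1/2), (4, 1/2)]), ([(1, 3/4), (3, 1/4)], [(4, 1/2), (5, 1/2)]), ([(3, 1)], [(6, 1)])]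
    (by decide +kernel)

theorem c_tc_2 (h : S_CERTV) : BaryV (unitP ++ P_tc) 2 (1) :=
  (h _ _ _
    [(0, 1, [([], [(1, 1)]), ([(0, 1)], [(1, 1/2), (3, 1/2)]), ([(3, 1)], [(3, 1)])],
        [([(2, 1)], [(4, 1)]), ([(0, 1/2), (5, 1/2)], [(4, 1/2), (6, 1/2)]), ([(6, 1)], [(6, 1)])])]
    (1)).1 [([(2, 1)], [(4, 1)]), ([(0, 1/2), (5, 1/2)], [(4, 1/2), (6, 1/2)]), ([(6, 1)], [(6, 1)])]
    (by decide +kernel)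

theorem c_ua1_0 (h : S_CERTV) : BaryV (unitP ++ (P_ua ++ [(1, 1, 2, 1)])) 0 (1) :=
  (h _ _ _
    [(0, 1, [([], [(2, 1)]), ([(3, 1)], [(4, 1)]), ([(3, 1)], [(4, 1)]), ([(3, 1)], [(4, 1)])],
        [([(0, 1)], [(6, 1)]), ([(0, 1)], [(6, 1)]), ([(0, 1/2), (8, 1/2)], [(7, 1)]), ([(8, 1)], [(8, 1)])])]
    (1)).1 [([(0, 1)], [(6, 1)]), ([(0, 1/2), (8, 1/2)], [(7, 1)]), ([(8, 1)], [(8, 1)])]
    (by decide +kernel)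

theorem c_ua1_1 (h : S_CERTV) : BaryV (unitP ++ (P_ua ++ [(1, 1, 2, 1)])) 1 (1) :=
  (h _ _ _
    [(0, 1, [([], [(2, 1)]), ([(0, 1)], [(6, 1)]), ([(0, 1)], [(6, 1)]), ([(5, 1)], [(5, 1)]), ([(5, 1)], [(5, 1)])],
        [([(1, 1)], [(2, 1/2), (4, 1/2)]), ([(0, 1/2), (3, 1/2)], [(2, 1/4), (4, 1/4), (7, 1/2)]), ([(0, 1/4), (3, 1/4), (5, 1/4), (8, 1/4)], [(7, 1)]), ([(0, 1/4), (3, 1/4), (5, 1/4), (8, 1/4)], [(7, 1)]), ([(5, 1/2), (8, 1/2)], [(5, 1/2), (8, 1/2)])])]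
    (1)).1 [([(1, 1)], [(2, 1/2), (4, 1/2)]), ([(0, 1/2), (3, 1/2)], [(2, 1/4), (4, 1/4), (7, 1/2)]), ([(0, 1/4), (3, 1/4), (5, 1/4), (8, 1/4)], [(7, 1)]), ([(5, 1/2), (8, 1/2)], [(5, 1/2), (8, 1/2)])]
    (by decide +kernel)

theorem c_ua1_2 (h : S_CERTV) : BaryV (unitP ++ (P_ua ++ [(1, 1, 2, 1)])) 2 (1) :=
  (h _ _ _
    [(0, 1, [([], [(3, 1)]), ([], [(3, 1)]), ([(0, 1)], [(0, 1)])],
        [([(2, 1)], [(4, 1)]), ([(2, 1/2), (5, 1/2)], [(8, 1)]), ([(5, 1)], [(5, 1)])])]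
    (1)).1 [([(2, 1)], [(4, 1)]), ([(2, 1/2), (5, 1/2)], [(8, 1)]), ([(5, 1)], [(5, 1)])]
    (by decide +kernel)

theorem c_ua2_0 (h : S_CERTV) : BaryV (unitP ++ (P_ua ++ [(1, 0, 3, 1)])) 0 (1) :=
  (h _ _ _
    [(0, 1, [([], [(2, 1)]), ([(3, 1)], [(2, 1/3), (8, 2/3)]), ([(3, 1)], [(2, 1/3), (8, 2/3)]), ([(8, 1)], [(8, 1)]), ([(8, 1)], [(8, 1)])],
        [([(0, 1)], [(6, 1)]), ([(0, 1)], [(6, 1)]), ([(3, 1/2), (5, 1/2)], [(7, 1)]), ([(3, 1/2), (5, 1/2)], [(7, 1)]), ([(5, 1/2), (8, 1/2)], [(5, 1/2), (8, 1/2)])])]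
    (1)).1 [([(0, 1)], [(6, 1)]), ([(3, 1/2), (5, 1/2)], [(7, 1)]), ([(5, 1/2), (8, 1/2)], [(5, 1/2), (8, 1/2)])]
    (by decide +kernel)

theorem c_ua2_1 (h : S_CERTV) : BaryV (unitP ++ (P_ua ++ [(1, 0, 3, 1)])) 1 (1) :=
  (h _ _ _
    [(0, 1, [([], [(2, 1)]), ([(0, 1)], [(6, 1)]), ([(0, 1)], [(6, 1)]), ([(5, 1)], [(5, 1)]), ([(5, 1)], [(5, 1)])],
        [([(1, 1)], [(2, 1/2), (4, 1/2)]), ([(0, 1/2), (3, 1/2)], [(2, 1/4), (4, 1/4), (7, 1/2)]), ([(3, 1/2), (5, 1/2)], [(7, 1)]), ([(3, 1/2), (5, 1/2)], [(7, 1)]), ([(5, 2/3), (8, 1/3)], [(5, 2/3), (8, 1/3)])])]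
    (1)).1 [([(1, 1)], [(2, 1/2), (4, 1/2)]), ([(0, 1/2), (3, 1/2)], [(2, 1/4), (4, 1/4), (7, 1/2)]), ([(3, 1/2), (5, 1/2)], [(7, 1)]), ([(5, 2/3), (8, 1/3)], [(5, 2/3), (8, 1/3)])]
    (by decide +kernel)

theorem c_ua2_2 (h : S_CERTV) : BaryV (unitP ++ (P_ua ++ [(1, 0, 3, 1)])) 2 (1) :=
  (h _ _ _
    [(0, 1, [([], [(3, 1)]), ([], [(3, 1)]), ([(0, 1)], [(0, 1)])],
        [([(2, 1)], [(8, 1)]), ([(5, 1)], [(5, 1)]), ([(5, 1)], [(5, 1)])])]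
    (1)).1 [([(2, 1)], [(8, 1)]), ([(5, 1)], [(5, 1)])]
    (by decide +kernel)

theorem c_ub_0 (h : S_CERTV) : BaryV (unitP ++ P_ub) 0 (1) :=
  (h _ _ _
    []
    (0)).1 [([], [(2, 1)]), ([(3, 1)], [(8, 1)])]
    (by decide +kernel)

theorem c_ub_1 (h : S_CERTV) : BaryV (unitP ++ P_ub) 1 (1) :=
  (h _ _ _
    [(0, 1/3, [([], [(2, 1)]), ([], [(2, 1)]), ([(0, 1)], [(2, 1/2), (5, 1/2)]), ([(5, 1)], [(5, 1)]), ([(5, 1)], [(5, 1)])],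
        [([(1, 1/3)], [(2, 5/6), (8, 1/6)]), ([(0, 1/3), (1, 1/5), (3, 1/15)], [(2, 2/3), (7, 1/3)]), ([(0, 5/6), (3, 1/6)], [(2, 5/12), (5, 1/4), (7, 1/3)]), ([(0, 5/36), (3, 1/36), (5, 25/36), (6, 5/36)], [(5, 2/3), (7, 1/3)]), ([(5, 5/6), (6, 1/6)], [(5, 5/6), (6, 1/6)])]),
      (1/3, 2/3, [([(1, 1/3)], [(2, 5/6), (8, 1/6)]), ([(0, 1/3), (1, 1/5), (3, 1/15)], [(2, 2/3), (7, 1/3)]), ([(0, 5/6), (3, 1/6)], [(2, 5/12), (5, 1/4), (7, 1/3)]), ([(0, 5/36), (3, 1/36), (5, 25/36), (6, 5/36)], [(5, 2/3), (7, 1/3)]), ([(5, 5/6), (6, 1/6)], [(5, 5/6), (6, 1/6)])],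
        [([(1, 2/3)], [(2, 2/3), (8, 1/3)]), ([(0, 2/3), (3, 1/3)], [(2, 1/3), (7, 2/3)]), ([(0, 2/3), (3, 1/3)], [(2, 1/3), (7, 2/3)]), ([(0, 2/9), (3, 1/9), (5, 4/9), (6, 2/9)], [(5, 1/3), (7, 2/3)]), ([(5, 2/3), (6, 1/3)], [(5, 2/3), (6, 1/3)])]),
      (2/3, 1, [([(1, 2/3)], [(2, 2/3), (8, 1/3)]), ([(0, 2/3), (3, 1/3)], [(2, 1/3), (7, 2/3)]), ([(0, 2/3), (3, 1/3)], [(2, 1/3), (7, 2/3)]), ([(0, 2/9), (3, 1/9), (5, 4/9), (6, 2/9)], [(5, 1/3), (7, 2/3)]), ([(5, 2/3), (6, 1/3)], [(5, 2/3), (6, 1/3)])],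
        [([(1, 1)], [(2, 1/2), (8, 1/2)]), ([(0, 1/2), (3, 1/2)], [(2, 1/4), (7, 1/2), (8, 1/4)]), ([(0, 1/4), (3, 1/4), (5, 1/4), (6, 1/4)], [(7, 1)]), ([(0, 1/4), (3, 1/4), (5, 1/4), (6, 1/4)], [(7, 1)]), ([(5, 1/2), (6, 1/2)], [(5, 1/2), (6, 1/2)])]),
      (1, 4/3, [([(1, 1)], [(2, 1/2), (8, 1/2)]), ([(0, 1/2), (3, 1/2)], [(2, 1/4), (7, 1/2), (8, 1/4)]), ([(0, 1/4), (3, 1/4), (5, 1/4), (6, 1/4)], [(7, 1)]), ([(0, 1/4), (3, 1/4), (5, 1/4), (6, 1/4)], [(7, 1)]), ([(5, 1/2), (6, 1/2)], [(5, 1/2), (6, 1/2)])],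
        [([(3, 2/3)], [(2, 1/3), (8, 2/3)]), ([(0, 1/3), (3, 2/3)], [(2, 1/6), (7, 1/3), (8, 1/2)]), ([(0, 2/9), (3, 4/9), (5, 1/9), (6, 2/9)], [(7, 2/3), (8, 1/3)]), ([(0, 1/9), (3, 2/9), (5, 2/9), (6, 4/9)], [(6, 1/3), (7, 2/3)]), ([(5, 1/3), (6, 2/3)], [(5, 1/3), (6, 2/3)])]),
      (4/3, 5/3, [([(3, 2/3)], [(2, 1/3), (8, 2/3)]), ([(0, 1/3), (3, 2/3)], [(2, 1/6), (7, 1/3), (8, 1/2)]), ([(0, 2/9), (3, 4/9), (5, 1/9), (6, 2/9)], [(7, 2/3), (8, 1/3)]), ([(0, 1/9), (3, 2/9), (5, 2/9), (6, 4/9)], [(6, 1/3), (7, 2/3)]), ([(5, 1/3), (6, 2/3)], [(5, 1/3), (6, 2/3)])],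
        [([(3, 5/6)], [(2, 1/6), (8, 5/6)]), ([(0, 1/6), (3, 5/6)], [(2, 1/12), (7, 1/6), (8, 3/4)]), ([(0, 5/36), (3, 25/36), (5, 1/36), (6, 5/36)], [(7, 1/3), (8, 2/3)]), ([(0, 1/36), (3, 5/36), (5, 5/36), (6, 25/36)], [(6, 2/3), (7, 1/3)]), ([(5, 1/6), (6, 5/6)], [(5, 1/6), (6, 5/6)])]),
      (5/3, 2, [([(3, 5/6)], [(2, 1/6), (8, 5/6)]), ([(0, 1/6), (3, 5/6)], [(2, 1/12), (7, 1/6), (8, 3/4)]), ([(0, 5/36), (3, 25/36), (5, 1/36), (6, 5/36)], [(7, 1/3), (8, 2/3)]), ([(0, 1/36), (3, 5/36), (5, 5/36), (6, 25/36)], [(6, 2/3), (7, 1/3)]), ([(5, 1/6), (6, 5/6)], [(5, 1/6), (6, 5/6)])],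
        [([(3, 1)], [(8, 1)]), ([(3, 1)], [(8, 1)]), ([(3, 1)], [(8, 1)]), ([(6, 1)], [(6, 1)]), ([(6, 1)], [(6, 1)])])]
    (2)).1 [([(3, 1)], [(8, 1)]), ([(6, 1)], [(6, 1)])]
    (by decide +kernel)

theorem c_ub_2 (h : S_CERTV) : BaryV (unitP ++ P_ub) 2 (1) :=
  (h _ _ _
    [(0, 1, [([], [(3, 1)]), ([], [(3, 1)]), ([(0, 1)], [(0, 1)])],
        [([(2, 1)], [(4, 1)]), ([(2, 1/2), (5, 1/2)], [(6, 1)]), ([(5, 1)], [(5, 1)])])]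
    (1)).1 [([(2, 1)], [(4, 1)]), ([(2, 1/2), (5, 1/2)], [(6, 1)]), ([(5, 1)], [(5, 1)])]
    (by decide +kernel)

theorem c_uW_0 (h : S_CERTV) : BaryV (unitP ++ P_uW) 0 (3/5) :=
  (h _ _ _
    [(0, 1, [([], [(2, 1)]), ([(6, 3/4)], [(7, 1)]), ([(6, 3/4)], [(7, 1)]), ([(6, 1)], [(6, 1)])],
        [([(0, 1)], [(4, 1)]), ([(0, 1)], [(4, 1)]), ([(3, 1)], [(5, 1)]), ([(3, 1)], [(5, 1)])])]
    (1)).1 [([(0, 1)], [(4, 1)]), ([(3, 1)], [(5, 1)])]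
    (by decide +kernel)

theorem c_uW_1 (h : S_CERTV) : BaryV (unitP ++ P_uW) 1 (7/5) :=
  (h _ _ _
    [(0, 2, [([], [(2, 1)]), ([(0, 1)], [(4, 1)]), ([(0, 1)], [(4, 1)])],
        [([(6, 1/2)], [(2, 1/3), (7, 2/3)]), ([(3, 1/3), (6, 1/3)], [(4, 1/3), (7, 2/3)]), ([(3, 1)], [(5, 1)])])]
    (2)).1 [([(6, 1/2)], [(2, 1/3), (7, 2/3)]), ([(3, 1/3), (6, 1/3)], [(4, 1/3), (7, 2/3)]), ([(3, 1)], [(5, 1)])]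
    (by decide +kernel)

theorem c_uW_2 (h : S_CERTV) : BaryV (unitP ++ P_uW) 2 (3/4) :=
  (h _ _ _
    [(0, 1, [([], [(6, 1)]), ([], [(6, 1)]), ([(0, 1)], [(3, 1)])],
        [([(2, 1)], [(7, 1)]), ([(0, 1/2), (4, 1/2)], [(5, 1)]), ([(0, 1/2), (4, 1/2)], [(5, 1)])])]
    (1)).1 [([(2, 1)], [(7, 1)]), ([(0, 1/2), (4, 1/2)], [(5, 1)])]
    (by decide +kernel)

theorem c_uY_1 (h : S_CERTV) : BaryV (unitP ++ P_uY) 1 (1) :=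
  (h _ _ _
    []
    (0)).1 [([], [(2, 1)]), ([(0, 1)], [(2, 3/4), (3, 1/4)]), ([(3, 1)], [(3, 1)])]
    (by decide +kernel)

theorem c_nW_0 (h : S_CERTV) : BaryV (unitP ++ P_nW) 0 (1/2) :=
  (h _ _ _
    []
    (0)).1 [([], [(3, 1)]), ([(6, 3/5)], [(5, 1)]), ([(6, 1)], [(6, 1)])]
    (by decide +kernel)

theorem c_nW_1 (h : S_CERTV) : BaryV (unitP ++ P_nW) 1 (9/5) :=
  (h _ _ _
    [(0, 1, [([], [(3, 1)]), ([], [(3, 1)]), ([(0, 1)], [(0, 1)]), ([(0, 1)], [(0, 1)])],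
        [([(1, 1)], [(3, 2/3), (5, 1/3)]), ([(0, 3/8), (1, 1/2), (4, 1/8)], [(7, 1)]), ([(0, 3/8), (1, 1/2), (4, 1/8)], [(7, 1)]), ([(0, 3/4), (4, 1/4)], [(0, 3/4), (4, 1/4)])]),
      (1, 2, [([(1, 1)], [(3, 2/3), (5, 1/3)]), ([(0, 3/8), (1, 1/2), (4, 1/8)], [(7, 1)]), ([(0, 3/8), (1, 1/2), (4, 1/8)], [(7, 1)]), ([(0, 3/4), (4, 1/4)], [(0, 3/4), (4, 1/4)])],
        [([(6, 2/5)], [(3, 1/3), (5, 2/3)]), ([(0, 1/8), (4, 1/8), (6, 3/10)], [(5, 1/2), (7, 1/2)]), ([(0, 1/3), (4, 1/3), (6, 2/15)], [(4, 1/3), (7, 2/3)]), ([(0, 1/2), (4, 1/2)], [(0, 1/2), (4, 1/2)])]),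
      (2, 3, [([(6, 2/5)], [(3, 1/3), (5, 2/3)]), ([(0, 1/8), (4, 1/8), (6, 3/10)], [(5, 1/2), (7, 1/2)]), ([(0, 1/3), (4, 1/3), (6, 2/15)], [(4, 1/3), (7, 2/3)]), ([(0, 1/2), (4, 1/2)], [(0, 1/2), (4, 1/2)])],
        [([(6, 3/5)], [(5, 1)]), ([(6, 3/5)], [(5, 1)]), ([(0, 5/24), (4, 5/8), (6, 1/10)], [(4, 2/3), (7, 1/3)]), ([(0, 1/4), (4, 3/4)], [(0, 1/4), (4, 3/4)])])]
    (3)).1 [([(6, 3/5)], [(5, 1)]), ([(0, 5/24), (4, 5/8), (6, 1/10)], [(4, 2/3), (7, 1/3)]), ([(0, 1/4), (4, 3/4)], [(0, 1/4), (4, 3/4)])]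
    (by decide +kernel)

theorem c_nW_2 (h : S_CERTV) : BaryV (unitP ++ P_nW) 2 (3/5) :=
  (h _ _ _
    [(0, 1, [([], [(6, 1)]), ([(0, 1)], [(4, 1)]), ([(0, 1)], [(4, 1)]), ([(0, 1)], [(4, 1)])],
        [([(2, 1)], [(5, 1)]), ([(2, 1)], [(5, 1)]), ([(0, 1/2), (3, 1/2)], [(4, 1/4), (5, 1/4), (7, 1/2)]), ([(0, 1/3), (7, 2/3)], [(4, 1/3), (7, 2/3)])])]
    (1)).1 [([(2, 1)], [(5, 1)]), ([(0, 1/2), (3, 1/2)], [(4, 1/4), (5, 1/4), (7, 1/2)]), ([(0, 1/3), (7, 2/3)], [(4, 1/3), (7, 2/3)])]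
    (by decide +kernel)

theorem c_nY_1 (h : S_CERTV) : BaryV (unitP ++ P_nY) 1 (1) :=
  (h _ _ _
    []
    (0)).1 [([], [(3, 1)]), ([(0, 1)], [(3, 2/3), (4, 1/3)]), ([(4, 1)], [(4, 1)])]
    (by decide +kernel)

end Pool.Agent.P.MP_6149fc_ag.V22
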