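import Pool.Agent.P.MP_6149fc_ag.V22.BaseL

/-! Statements: the bridge to the equations, linear algebra of nets, the normal form. -/

set_option autoImplicit false

namespace Pool.Agent.P.MP_6149fc_ag.V22

open Pool.Agent.P.MP_6149fc_ag.V18
open MvPowerSeries (coeff X constantCoeff monomial)
open Matrix

/-! ### The bridge and the action of the linear group -/

-- deps:
def S_BRG : Prop :=
  ∀ ω : Fin 3 → Fin 7 → Fin 7 → ℂ, (∀ G ∈ equations ω, ∃ d, G.IsHomogeneous d) ∧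
    ∀ (κ C : Type) [Field κ] [Algebra ℂ κ] [CommRing C] [Algebra ℂ C] [Algebra κ C]
      [IsScalarTower ℂ κ C] (P : I3 → C),
      (∀ G ∈ equations ω, MvPolynomial.aeval P G = 0) ↔ EQ (omK κ ω) P

-- deps: BRG
-- imports: Pool.Agent.P.MP_6149fc_ag.V18.TSMB
def S_SMBV : Prop :=
  ∀ (ω : Fin 3 → Fin 7 → Fin 7 → ℂ) (κ : Type) [Field κ] [Algebra ℂ κ],
    (∀ P : I3 → κ, P ≠ 0 → (∀ G ∈ equations ω, MvPolynomial.aeval P G = 0) →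
      Module.finrank κ (tangentSpace (equations ω) P) ≤ 3 + 1) → Sm3 (omK κ ω)

-- deps:
def S_PLU : Prop :=
  ∀ (C : Type) [CommRing C] (P : I3 → C) (i j k : Fin 7) (u : C), Pl P → u * P (i, j, k) = 1 →
    ∀ t, P t = P (i, j, k) *
      mn ![fun l => u * P (l, j, k), fun l => u * P (i, l, k), fun l => u * P (i, j, l)] t

-- deps:
def S_ACT1 : Prop :=
  ∀ (κ C : Type) [Field κ] [CommRing C] [Algebra κ C] (g : Fm κ),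
    (∀ M : Fin 3 → Fin 7 → C, act g (mn M) = mn fun r j => ∑ i, g i j • M r i) ∧
    (∀ (w : Fm κ) (P : I3 → C) (k : Fin 7),
      ctr w (act g P) k = ∑ c, g c k • ctr (g * w * gᵀ) P c) ∧
    (∀ (g' : Fm κ) (P : I3 → C), act g' (act g P) = act (g * g') P) ∧
    (∀ P : I3 → C, act (1 : Fm κ) P = P) ∧
    (∀ (w : Fm κ) (u v : Fin 7 → C), fm (g * w * gᵀ) u v =
      fm w (fun j => ∑ i, g i j • u i) fun j => ∑ i, g i j • v i) ∧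
    ∀ (C' : Type) [CommRing C'] [Algebra κ C'] (φ : C →ₗ[κ] C') (P : I3 → C) (t : I3),
      φ (act g P t) = act g (fun t => φ (P t)) t

-- deps:
def S_ACT2 : Prop :=
  ∀ (κ C : Type) [Field κ] [CommRing C] [Algebra κ C] (g : Fm κ) (P : I3 → C),
    Pl P → Pl (act g P)

-- deps: ACT1 ACT2
def S_AUT1 : Prop :=
  ∀ (κ : Type) [Field κ] (g g' : Fm κ) (ω : Fin 3 → Fm κ), g * g' = 1 → g' * g = 1 →
    Sm3 ω → Sm3 fun s => g * ω s * gᵀ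

-- deps: ACT1 ACT2 AUT1
def S_AUT : Prop :=
  ∀ (κ : Type) [Field κ] (g g' : Fm κ) (ω : Fin 3 → Fm κ) (x : I3 → κ), g * g' = 1 → g' * g = 1 →
    Rel ω (act g x) (fun s => g * ω s * gᵀ) x

-- deps:
def S_GSC : Prop :=
  ∀ (κ : Type) [Field κ] (ω : Fin 3 → Fm κ) (x : I3 → κ) (c : κ), c ≠ 0 →
    Rel ω x ω fun t => c * x t

-- deps:
def S_SAME : Prop :=
  ∀ (κ : Type) [Field κ] [CharZero κ] (ω ω' : Fin 3 → Fm κ),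
    (∀ s, ∃ c, ω s - (ω s)ᵀ = sk ω' c) → (∀ s, ∃ c, ω' s - (ω' s)ᵀ = sk ω c) → Same ω ω'

-- deps:
def S_EXT : Prop :=
  ∀ (κ : Type) [Field κ] (n m : ℕ) (M : Fin n → Fin (n + m) → κ), LinearIndependent κ M →
    ∃ g g' : Matrix (Fin (n + m)) (Fin (n + m)) κ, g * g' = 1 ∧ g' * g = 1 ∧
      ∀ r, g (Fin.castAdd m r) = M r

-- deps: PLU ACT1 SAME EXT
def S_DEC : Prop :=
  ∀ (κ : Type) [Field κ] [CharZero κ] (ω : Fin 3 → Fm κ) (x : I3 → κ), x ≠ 0 → EQ ω x →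
    ∃ g g' : Fm κ, g * g' = 1 ∧ g' * g = 1 ∧ x = act g (e3 κ) ∧
      ∃ B D, Same (fun s => g * ω s * gᵀ) (bnet B D)

/-! ### Transversality and the rank of the forms -/

-- deps:
def S_TV0 : Prop :=
  ∀ (κ : Type) [Field κ] (ω : Fin 3 → Fm κ), Sm3 ω →
    (∀ s a b, fm (ω s) (hk (0 : Fin 6 → κ) a) (hk 0 b) = 0) → ∀ β : Fin 3 → Fin 3 → κ,
      (∀ v, ∑ s, (β s 2 * fm (ω s) (hk 0 1) v + β s 1 * fm (ω s) (hk 0 2) v) = 0) →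
      (∀ v, ∑ s, (β s 2 * fm (ω s) (hk 0 0) v - β s 0 * fm (ω s) (hk 0 2) v) = 0) →
      (∀ v, ∑ s, (β s 1 * fm (ω s) (hk 0 0) v + β s 0 * fm (ω s) (hk 0 1) v) = 0) → β = 0

-- deps: TV0 EXT AUT1 ACT1
def S_TV : Prop := ∀ (κ : Type) [Field κ] (ω : Fin 3 → Fm κ), Sm3 ω → Tv ω

-- deps: EXT
def S_PAR5 : Prop :=
  ∀ (κ : Type) [Field κ] [CharZero κ] (S : Fm κ) (u v : Fin 7 → κ), Sᵀ = -S → S *ᵥ u = 0 →
    S *ᵥ v = 0 → LinearIndependent κ ![u, v] →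
    ∃ k : Fin 3 → Fin 7 → κ, LinearIndependent κ k ∧ ∀ i, S *ᵥ k i = 0

-- deps:
def S_ISO2 : Prop :=
  ∀ (κ : Type) [Field κ] (ω : Fin 3 → Fm κ) (c : Fin 3 → κ) (k : Fin 3 → Fin 7 → κ), c ≠ 0 →
    LinearIndependent κ k → (∀ i, sk ω c *ᵥ k i = 0) →
    ∃ f g : Fin 7 → κ, LinearIndependent κ ![f, g] ∧ sk ω c *ᵥ f = 0 ∧ sk ω c *ᵥ g = 0 ∧
      ∀ s, fm (ω s) f g = 0

-- deps: PAR5 ISO2
def S_ND : Prop := ∀ (κ : Type) [Field κ] [CharZero κ] (ω : Fin 3 → Fm κ), Tv ω → ND ω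

-- deps:
def S_RATA : Prop :=
  ∀ (κ : Type) [Field κ] (S : Fm κ) (u : Fin 7 → κ) (i : Fin 7), Sᵀ = -S → K1 S → S *ᵥ u = 0 →
    u i ≠ 0 → S.adjugate i i ≠ 0

-- deps:
def S_RATB : Prop :=
  ∀ (κ : Type) [Field κ] (S : Fm κ) (u : Fin 7 → κ), Sᵀ = -S → K1 S → S *ᵥ u = 0 → u ≠ 0 →
    ∀ i j, S.adjugate i i * u j ^ 2 = S.adjugate j j * u i ^ 2

-- deps:
def S_RATC : Prop :=
  ∀ (κ : Type) [Field κ] (M : Matrix (Fin 7) (Fin 7) (Polynomial κ)) (d : ℕ),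
    (∀ i j, (M i j).natDegree ≤ d) → ∀ i, (M.adjugate i i).natDegree ≤ 6 * d ∧
      (M.adjugate i i).coeff (6 * d) = (M.map fun f => f.coeff d).adjugate i i

-- deps:
def S_PRIM : Prop :=
  ∀ (κ n : Type) [Field κ] [Fintype n] (c : n → Polynomial κ), c ≠ 0 →
    ∃ (h : Polynomial κ) (c' b : n → Polynomial κ) (d : ℕ), h ≠ 0 ∧ (∀ i, c i = h * c' i) ∧
      ∑ i, b i * c' i = 1 ∧ (∀ i, (c' i).natDegree ≤ d) ∧ (∃ i, (c' i).coeff d ≠ 0) ∧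
      ∀ e, (∀ i, (c i).natDegree ≤ e) → d ≤ e

-- deps: RATA RATB RATC PRIM
def S_RAT : Prop :=
  ∀ (κ : Type) [Field κ] [IsAlgClosed κ] (M : Matrix (Fin 7) (Fin 7) (Polynomial κ))
    (u : Fin 7 → Polynomial κ) (d e : ℕ), Mᵀ = -M → (∀ i j, (M i j).natDegree ≤ d) →
    (∀ t : κ, K1 (M.map (Polynomial.eval t))) → K1 (M.map fun f => f.coeff d) → u ≠ 0 →
    (∀ i, (u i).natDegree ≤ e) → M *ᵥ u = 0 → 3 * d ≤ e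

-- deps: RAT PRIM
def S_HK0 : Prop :=
  ∀ (κ : Type) [Field κ] [IsAlgClosed κ] (B : Fin 3 → Matrix (Fin 3) (Fin 4) κ)
    (D : Fin 3 → Matrix (Fin 4) (Fin 4) κ), ND (bnet B D) → HK B

/-! ### The good pencil -/

-- deps:
def S_KER : Prop :=
  ∀ (κ : Type) [Field κ] (B : Matrix (Fin 3) (Fin 4) (Polynomial κ)),
    (∀ i k, (B i k).natDegree ≤ 1) →
    (∀ k l m, d3 (B 0 k) (B 0 l) (B 0 m) (B 1 k) (B 1 l) (B 1 m) (B 2 k) (B 2 l) (B 2 m) = 0) →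
    ∃ u : Fin 3 → Polynomial κ, u ≠ 0 ∧ (∀ i, (u i).natDegree ≤ 2) ∧ ∀ k, ∑ i, u i * B i k = 0

-- deps: KER
def S_KA : Prop :=
  ∀ (κ : Type) [Field κ] [Infinite κ] (B : Fin 3 → Matrix (Fin 3) (Fin 4) κ), HK B →
    ∃ t : κ, ∀ u : Fin 3 → κ, u ᵥ* (B 0 + t • B 1) = 0 → u = 0

-- deps: EXT
def S_KN : Prop :=
  ∀ (κ : Type) [Field κ] (B : Matrix (Fin 3) (Fin 4) κ), (∀ u : Fin 3 → κ, u ᵥ* B = 0 → u = 0) →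
    ∃ R R' : Matrix (Fin 4) (Fin 4) κ, R * R' = 1 ∧ R' * R = 1 ∧ B * Rᵀ = pA κ

-- deps: PRIM
def S_EIGP : Prop :=
  ∀ (κ : Type) [Field κ] (A : Matrix (Fin 3) (Fin 3) (Polynomial κ)) (n : Fin 3 → Polynomial κ),
    n ≠ 0 → (∀ i j, (A i j).natDegree ≤ 1) → (∀ i j, (A *ᵥ n) i * n j = (A *ᵥ n) j * n i) →
    ∃ τ : Polynomial κ, τ.natDegree ≤ 1 ∧ A *ᵥ n = τ • n

-- deps:
def S_CONIC : Prop :=
  ∀ (κ : Type) [Field κ] [IsAlgClosed κ] (q : Fin 3 → Fin 3 → κ),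
    ∃ u : Fin 3 → Polynomial κ, (∀ i, (u i).natDegree ≤ 2) ∧ ¬ PC u ∧
      ∑ i, ∑ j, Polynomial.C (q i j) * u i * u j = 0

-- deps: EIGP KER
def S_KI : Prop :=
  ∀ (κ : Type) [Field κ] (A1 A2 : Matrix (Fin 3) (Fin 3) κ) (γ1 γ2 : Fin 3 → κ),
    HK ![pA κ, aug A1 γ1, aug A2 γ2] → kal (pM A1 A2) (pV γ1 γ2) = 0 →
    ∀ i j, (pM A1 A2 *ᵥ pV γ1 γ2) i * pV γ1 γ2 j = (pM A1 A2 *ᵥ pV γ1 γ2) j * pV γ1 γ2 i

-- deps: CONIC EXT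
def S_KIIA : Prop :=
  ∀ (κ : Type) [Field κ] [IsAlgClosed κ] (A1 A2 : Matrix (Fin 3) (Fin 3) κ) (γ1 γ2 : Fin 3 → κ)
    (ν1 ν2 : κ), HK ![pA κ, aug A1 γ1, aug A2 γ2] → LinearIndependent κ ![γ1, γ2] →
    A1 *ᵥ γ1 = ν1 • γ1 → A2 *ᵥ γ2 = ν2 • γ2 → A1 *ᵥ γ2 + A2 *ᵥ γ1 = ν1 • γ2 + ν2 • γ1 → False

-- deps:
def S_KIIB : Prop :=
  ∀ (κ : Type) [Field κ] (A1 A2 : Matrix (Fin 3) (Fin 3) κ) (γ : Fin 3 → κ) (θ1 θ2 ν1 ν2 : κ),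
    HK ![pA κ, aug A1 (θ1 • γ), aug A2 (θ2 • γ)] → γ ≠ 0 → A1 *ᵥ γ = ν1 • γ →
    A2 *ᵥ γ = ν2 • γ → False

-- deps: EIGP KIIA KIIB
def S_KII : Prop :=
  ∀ (κ : Type) [Field κ] [IsAlgClosed κ] (A1 A2 : Matrix (Fin 3) (Fin 3) κ) (γ1 γ2 : Fin 3 → κ),
    HK ![pA κ, aug A1 γ1, aug A2 γ2] → (γ1 ≠ 0 ∨ γ2 ≠ 0) →
    (∀ i j, (pM A1 A2 *ᵥ pV γ1 γ2) i * pV γ1 γ2 j = (pM A1 A2 *ᵥ pV γ1 γ2) j * pV γ1 γ2 i) →
    False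

-- deps:
def S_HAUT : Prop :=
  ∀ (κ : Type) [Field κ] [IsAlgClosed κ] (A : Matrix (Fin 3) (Fin 3) κ) (η : Fin 3 → κ),
    kal Aᵀ η = 0 → ∃ (τ : κ) (y : Fin 3 → κ), y ≠ 0 ∧ A *ᵥ y = τ • y ∧ η ⬝ᵥ y = 0

-- deps:
def S_HROOT : Prop :=
  ∀ (κ : Type) [Field κ] [IsAlgClosed κ] (A1 A2 : Matrix (Fin 3) (Fin 3) κ) (γ1 γ2 : Fin 3 → κ),
    ∃ c1 c2 : κ, (c1 ≠ 0 ∨ c2 ≠ 0) ∧ kal (c1 • A1 + c2 • A2) (c1 • γ1 + c2 • γ2) = 0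

-- deps: HAUT HROOT
def S_KH2 : Prop :=
  ∀ (κ : Type) [Field κ] [IsAlgClosed κ] (A1 A2 : Matrix (Fin 3) (Fin 3) κ)
    (D : Fin 3 → Matrix (Fin 4) (Fin 4) κ), ND (bnet ![pA κ, aug A1 0, aug A2 0] D) → False

-- deps: HK0 KI KII KH2
def S_KSEL : Prop :=
  ∀ (κ : Type) [Field κ] [IsAlgClosed κ] (A1 A2 : Matrix (Fin 3) (Fin 3) κ) (γ1 γ2 : Fin 3 → κ)
    (D : Fin 3 → Matrix (Fin 4) (Fin 4) κ), ND (bnet ![pA κ, aug A1 γ1, aug A2 γ2] D) →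
    ∃ t : κ, kal (A1 + t • A2) (γ1 + t • γ2) ≠ 0

-- deps:
def S_KB : Prop :=
  ∀ (κ : Type) [Field κ] (A : Matrix (Fin 3) (Fin 3) κ) (γ : Fin 3 → κ), kal A γ ≠ 0 →
    ∃ (P P' : Matrix (Fin 3) (Fin 3) κ) (R R' : Matrix (Fin 4) (Fin 4) κ), P * P' = 1 ∧
      P' * P = 1 ∧ R * R' = 1 ∧ R' * R = 1 ∧ P * pA κ * Rᵀ = pA κ ∧ P * aug A γ * Rᵀ = pB κ

/-! ### Changes of basis in block form -/

-- deps:
def S_BLK0 : Prop :=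
  ∀ (κ : Type) [Field κ] (P : Matrix (Fin 3) (Fin 3) κ) (ψ : Matrix (Fin 4) (Fin 3) κ)
    (R : Matrix (Fin 4) (Fin 4) κ),
    (∀ B D, blk P ψ R * bf B D * (blk P ψ R)ᵀ = bf (P * B * Rᵀ) ((ψ * B + R * D) * Rᵀ)) ∧
    (∀ P' ψ' R', blk P ψ R * blk P' ψ' R' = blk (P * P') (ψ * P' + R * ψ') (R * R')) ∧
    blk (1 : Matrix (Fin 3) (Fin 3) κ) 0 1 = 1 ∧
    mn (fun r j => ∑ i, blk P ψ R i j • hk (0 : Fin 6 → κ) r i) = fun t => P.det * e3 κ t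

-- deps: BLK0 AUT GSC ACT1
def S_BLK : Prop :=
  ∀ (κ : Type) [Field κ] (P P' : Matrix (Fin 3) (Fin 3) κ) (ψ : Matrix (Fin 4) (Fin 3) κ)
    (R R' : Matrix (Fin 4) (Fin 4) κ) (B : Fin 3 → Matrix (Fin 3) (Fin 4) κ)
    (D : Fin 3 → Matrix (Fin 4) (Fin 4) κ), P * P' = 1 → P' * P = 1 → R * R' = 1 → R' * R = 1 →
    Rel (bnet B D) (e3 κ) (bnet (fun s => P * B s * Rᵀ) fun s => (ψ * B s + R * D s) * Rᵀ) (e3 κ)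

-- deps: SAME
def S_NETC : Prop :=
  ∀ (κ : Type) [Field κ] [CharZero κ] (G G' : Matrix (Fin 3) (Fin 3) κ)
    (B B' : Fin 3 → Matrix (Fin 3) (Fin 4) κ) (D D' : Fin 3 → Matrix (Fin 4) (Fin 4) κ),
    G' * G = 1 → (∀ s, B' s = ∑ t, G s t • B t) →
    (∀ s, D' s - (D' s)ᵀ = ∑ t, G s t • (D t - (D t)ᵀ)) → Same (bnet B D) (bnet B' D')

-- deps: NETC
def S_CAN0 : Prop :=
  ∀ (κ : Type) [Field κ] [CharZero κ] (E : Matrix (Fin 3) (Fin 4) κ)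
    (D0 D1 D : Matrix (Fin 4) (Fin 4) κ), D0ᵀ = D0 → D1ᵀ = D1 →
    Same (bnet ![pA κ, pB κ, E] ![D0, D1, D]) (net (datOf E D))

-- deps: BLK CAN0
def S_CAN : Prop :=
  ∀ (κ : Type) [Field κ] [CharZero κ] (E : Matrix (Fin 3) (Fin 4) κ)
    (D : Fin 3 → Matrix (Fin 4) (Fin 4) κ),
    ∃ d : Dat κ, Rel (bnet ![pA κ, pB κ, E] D) (e3 κ) (net d) (e3 κ)

-- deps: TV ND HK0 KA KN BLK NETC
def S_NORM1 : Prop :=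
  ∀ (κ : Type) [Field κ] [IsAlgClosed κ] [CharZero κ] (B : Fin 3 → Matrix (Fin 3) (Fin 4) κ)
    (D : Fin 3 → Matrix (Fin 4) (Fin 4) κ), Sm3 (bnet B D) →
    ∃ A1 A2 γ1 γ2 D', Rel (bnet B D) (e3 κ) (bnet ![pA κ, aug A1 γ1, aug A2 γ2] D') (e3 κ)

-- deps: NORM1 TV ND KSEL KB BLK NETC CAN
def S_NORM : Prop :=
  ∀ (κ : Type) [Field κ] [IsAlgClosed κ] [CharZero κ] (B : Fin 3 → Matrix (Fin 3) (Fin 4) κ)
    (D : Fin 3 → Matrix (Fin 4) (Fin 4) κ), Sm3 (bnet B D) →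
    ∃ d : Dat κ, Rel (bnet B D) (e3 κ) (net d) (e3 κ)

-- deps: BLK NETC CAN0
def S_MOVS : Prop :=
  ∀ (κ : Type) [Field κ] [CharZero κ] (c : κ) (d : Dat κ), RelD d (shfD c d)

-- deps: BLK NETC CAN0
def S_MOVW : Prop := ∀ (κ : Type) [Field κ] [CharZero κ] (d : Dat κ), RelD d (swpD d)

-- deps: BLK NETC CAN0
def S_MOVT : Prop :=
  ∀ (κ : Type) [Field κ] [CharZero κ] (s s' : κ) (d : Dat κ), s ≠ 0 → s' ≠ 0 →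
    RelD d (torD s d) ∧ RelD d (sclD s s' d)

-- deps: TV
def S_SM0V : Prop := ∀ (κ : Type) [Field κ] (d : Dat κ), Sm3 (net d) → d.S0

-- deps: TV
def S_SMLV : Prop := ∀ (κ : Type) [Field κ] (d : Dat κ), Sm3 (net d) → d.SL

end Pool.Agent.P.MP_6149fc_ag.V22
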