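import Pool.Agent.P.MP_6149fc_ag.V22.BaseL

/-! Statements: the parametrisation and the volume. -/

set_option autoImplicit false

namespace Pool.Agent.P.MP_6149fc_ag.V22

open Pool.Agent.P.MP_6149fc_ag.V18
open MvPowerSeries (coeff X constantCoeff monomial)
open Matrix

-- deps:
def S_FMH : Prop :=
  ∀ (κ C : Type) [Field κ] [CommRing C] [Algebra κ C] (d : Dat κ) (a : Fin 6 → C),
    (∀ i j, fm (net d 0) (hk a i) (hk a j) = 0) ∧ (∀ i j, fm (net d 1) (hk a i) (hk a j) = 0) ∧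
    fm (net d 2) (hk a 0) (hk a 1) = dot21 (d.eqn 0) (sec a) ∧
    fm (net d 2) (hk a 0) (hk a 2) = dot21 (d.eqn 1) (sec a) ∧
    fm (net d 2) (hk a 1) (hk a 2) = dot21 (d.eqn 2) (sec a)

-- deps: PLU FMH
def S_CHKV : Prop :=
  ∀ (κ C : Type) [Field κ] [CommRing C] [Algebra κ C] (d : Dat κ) (p : I3 → C) (u : C),
    EQ (net d) p → u * p (0, 1, 2) = 1 → ∀ a : Fin 6 → C,
    a = ![u * p (3, 1, 2), u * p (4, 1, 2), u * p (5, 1, 2), u * p (6, 1, 2), u * p (0, 6, 2),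
      u * p (0, 1, 6)] →
    (∀ t, p t = p (0, 1, 2) * mn (hk a) t) ∧ ∀ s, dot21 (d.eqn s) (sec a) = 0

-- deps:
def S_LINS : Prop :=
  ∀ (κ : Type) [Field κ] (l : Fin 21 → κ),
    MvPolynomial.constantCoeff (dot21 l (sec (MvPolynomial.X : Fin 6 → MvPolynomial (Fin 6) κ))) =
      l 0 ∧
    (∀ i, MvPolynomial.constantCoeff (MvPolynomial.pderiv i
      (dot21 l (sec (MvPolynomial.X : Fin 6 → MvPolynomial (Fin 6) κ)))) = lin6 l i) ∧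
    ∀ (C : Type) [CommRing C] [Algebra κ C] (a : Fin 6 → C), MvPolynomial.aeval a
      (dot21 l (sec (MvPolynomial.X : Fin 6 → MvPolynomial (Fin 6) κ))) = dot21 l (sec a)

-- deps:
def S_SPAN : Prop :=
  ∀ (κ C : Type) [Field κ] [CommRing C] [Algebra κ C] (a : Fin 6 → C),
    UU κ (mn (hk a)) = UU κ (sec a)

-- deps: LINS
-- imports: Pool.Agent.P.MP_6149fc_ag.V18.TIFTE Pool.Agent.P.MP_6149fc_ag.V18.TVOLE
def S_VOLD : Prop :=
  ∀ (κ : Type) [Field κ] (d d' : Dat κ) (δ : Fin 3 → Fin 6 → κ) (ζ : Fin 6 → PS κ),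
    (∀ i, constantCoeff (ζ i) = 0) → (∀ s, dot21 (d.eqn s) (sec ζ) = 0) →
    (∀ s l, d.lin s ⬝ᵥ δ l = if s = l then 1 else 0) →
    ∃ η : Fin 6 → PowerSeries (PS κ), (∀ i, PowerSeries.constantCoeff (η i) = ζ i) ∧
      ∀ s, dot21 (d.eqn s) (sec η) + PowerSeries.X * dot21 (d'.eqn s) (sec η) = 0

-- deps:
def S_RNK0 : Prop :=
  ∀ (κ S : Type) [Field κ] [AddCommGroup S] [Module κ S] [FiniteDimensional κ S] (n m : ℕ)
    (s : Fin n → S) (α β : Fin m → S), LinearIndependent κ β →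
    (∀ (N : ℕ) (p : ℕ → Fin n → κ) (q : ℕ → Fin m → κ), (∀ k, N ≤ k → p k = 0 ∧ q k = 0) →
      (∑ i, p 0 i • s i + ∑ j, q 0 j • α j = 0) →
      (∀ k, ∑ i, p (k + 1) i • s i + ∑ j, q (k + 1) j • α j + ∑ j, q k j • β j = 0) →
      ∀ k, p k = 0) → n + m ≤ Module.finrank κ S

-- deps: RNK0
def S_RNK : Prop :=
  ∀ (κ R E ι : Type) [Field κ] [CommRing R] [Algebra κ R] [AddCommGroup E] [Module κ E]
    (S : Submodule κ E) [FiniteDimensional κ S] (α β : ι → E) (ev : E →ₗ[κ] PowerSeries R)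
    (ev0 : E →ₗ[κ] R), (∀ f, ev0 f = PowerSeries.constantCoeff (ev f)) →
    (∀ i, α i ∈ S ∧ β i ∈ S) → (∀ i, ev (α i) + PowerSeries.X * ev (β i) = 0) →
    Module.finrank κ (S.map ev0) + Module.finrank κ (Submodule.span κ (Set.range β)) ≤
      Module.finrank κ S

-- deps:
def S_QUO : Prop :=
  ∀ (κ E σ ι : Type) [Field κ] [CommRing E] [Algebra κ E] [Finite σ] (Φ : σ → E) (l : ι → E),
    (∀ k, l k ∈ UU κ Φ 1) →
    ∃ (T C : Type) (_ : CommRing T) (_ : Algebra κ T) (_ : CommRing C) (_ : Algebra κ C)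
      (y : σ → T) (j : T →ₐ[κ] Polynomial E) (π : T →ₐ[κ] C), Function.Injective j ∧
      (∀ t, j (y t) = Polynomial.C (Φ t) * Polynomial.X) ∧
      (∀ k (f : T), j f = Polynomial.C (l k) * Polynomial.X → π f = 0) ∧
      ∀ M, Module.finrank κ (UU κ Φ (M + 1)) ≤
        Module.finrank κ (UU κ (fun t => π (y t)) (M + 1)) + Module.finrank κ
          (Submodule.span κ (Set.range fun z : ι × UU κ Φ M => l z.1 * (z.2 : E)))

-- deps: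
def S_GROBA4 : Prop :=
  ∀ (κ C : Type) [Field κ] [CommRing C] [Algebra κ C] (n : ℕ) (Φ : Fin n → C) (ω : Fin n → ℕ)
    (bad : List (Fin n × Fin n)) (cl : List (List (Fin n))),
    (∀ p ∈ bad, p.1 ≠ p.2 ∧ Φ p.1 * Φ p.2 ∈
      Submodule.span κ {f | ∃ a b, ω a + ω b < ω p.1 + ω p.2 ∧ f = Φ a * Φ b}) →
    (∀ c ∈ cl, c.length = 4) →
    (∀ T : Fin n → Bool, (∀ p ∈ bad, T p.1 = false ∨ T p.2 = false) →
      ∃ c ∈ cl, ∀ i, T i = true → i ∈ c) →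
    ∀ M, Module.finrank κ (UU κ Φ M) ≤ cl.length * (M + 3).choose 3

-- deps:
def S_GROBC4 : Prop :=
  ∀ T : Fin 14 → Bool, (∀ p ∈ gBad4, T p.1 = false ∨ T p.2 = false) →
    ∃ c ∈ gCl4, ∀ i, T i = true → i ∈ c

-- deps:
def S_GROBQ : Prop :=
  ∀ (κ C : Type) [Field κ] [CharZero κ] [CommRing C] [Algebra κ C] (y : I3 → C),
    EQ (net (dS κ)) y → ∃ Φ : Fin 14 → C,
      Submodule.span κ (Set.range y) ≤ Submodule.span κ (Set.range Φ) ∧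
      ∀ p ∈ gBad4, p.1 ≠ p.2 ∧ Φ p.1 * Φ p.2 ∈
        Submodule.span κ {f | ∃ a b, gW4 a + gW4 b < gW4 p.1 + gW4 p.2 ∧ f = Φ a * Φ b}

-- deps: QUO GROBA4 GROBC4 GROBQ FMH
def S_VOLQ : Prop :=
  ∀ (κ : Type) [Field κ] [CharZero κ] (Φ : I3 → MvPolynomial (Fin 6) κ),
    Φ = mn (hk MvPolynomial.X) → ∀ M, Module.finrank κ (UU κ Φ (M + 1)) ≤
      22 * (M + 1 + 3).choose 3 + Module.finrank κ (Submodule.span κ
        (Set.range fun z : Fin 7 × UU κ Φ M =>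
          ctr (net (dS κ) 2) Φ z.1 * (z.2 : MvPolynomial (Fin 6) κ)))

-- deps: VOLD RNK VOLQ VOLM FMH
def S_VOLV : Prop :=
  ∀ (κ : Type) [Field κ] [CharZero κ] (d : Dat κ) (δ : Fin 3 → Fin 6 → κ) (ζ : Fin 6 → PS κ),
    (∀ i, constantCoeff (ζ i) = 0) → (∀ s, dot21 (d.eqn s) (sec ζ) = 0) →
    (∀ s l, d.lin s ⬝ᵥ δ l = if s = l then 1 else 0) → Vol (UU κ (mn (hk ζ))) (11 / 3)

-- deps: IFTU CHKV LINS BC
def S_PARFV : Prop :=
  ∀ (κ : Type) [Field κ] (d : Dat κ) (m : Fin 3 → Fin 21 → κ) (ζ : Fin 6 → PS κ),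
    (∀ j, m j 0 = 0) →
    (∀ v : Fin 6 → κ, (∀ s, d.lin s ⬝ᵥ v = 0) → (∀ j, lin6 (m j) ⬝ᵥ v = 0) → v = 0) →
    (∀ i, constantCoeff (ζ i) = 0) → (∀ s, dot21 (d.eqn s) (sec ζ) = 0) →
    (∀ j, dot21 (m j) (sec ζ) = X j) →
    ∀ (L : Type) [Field L] [Algebra κ L] (p : I3 → PowerSeries L), EQ (net d) p →
      (∀ t, PowerSeries.constantCoeff (p t) = algebraMap κ L (e3 κ t)) →
      ∃ (u : PowerSeries L) (z : Fin 3 → PowerSeries L), Cen z ∧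
        ∀ t, p t = u * sub z (mn (hk ζ) t)

-- deps: IFTE LINS SPAN VOLV PARFV
def S_PARGV : Prop :=
  ∀ (κ : Type) [Field κ] [CharZero κ] (d : Dat κ) (m : Fin 3 → Fin 21 → κ), (∀ j, m j 0 = 0) →
    (∀ v : Fin 6 → κ, (∀ s, d.lin s ⬝ᵥ v = 0) → (∀ j, lin6 (m j) ⬝ᵥ v = 0) → v = 0) →
    (∀ (p : P6 κ) (U : ℕ → Submodule κ (PS κ)) (V : ℝ), CtxV U V → p.Ok (U 1) → p.Eqs d →
      (∀ j, dot21 (m j) p.sec = X j) → Loc U V) → GoalV (net d) (e3 κ)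

-- deps: PARGV
def S_PARL : Prop :=
  ∀ (κ : Type) [Field κ] [CharZero κ] (d : Dat κ) (m : Fin 3 → Fin 6 → κ),
    (∀ v : Fin 6 → κ, (∀ s, d.lin s ⬝ᵥ v = 0) → (∀ j, m j ⬝ᵥ v = 0) → v = 0) →
    (∀ (p : P6 κ) (U : ℕ → Submodule κ (PS κ)) (V : ℝ), CtxV U V → p.Ok (U 1) → p.Eqs d →
      (∀ j, p.lin (m j) = X j) → Loc U V) → GoalV (net d) (e3 κ)

end Pool.Agent.P.MP_6149fc_ag.V22
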