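import Pool.Agent.P.MP_6149fc_ag.V22.IfaceC
import Pool.Agent.P.MP_6149fc_ag.V22.IfaceG
import Pool.Agent.P.MP_6149fc_ag.V22.IfaceB
import Pool.Agent.P.MP_6149fc_ag.V22.BaseCert3
import Pool.Agent.P.MP_6149fc_ag.V22.IfaceV

section

/-! Step C03V. -/

set_option autoImplicit false
set_option linter.unusedSectionVars false

namespace Pool.Agent.P.MP_6149fc_ag.V22

open Pool.Agent.P.MP_6149fc_ag.V18
open MvPowerSeries (coeff X constantCoeff monomial)
open Matrix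

namespace C03Vx

theorem not_K1 {κ : Type} [Field κ] (S : Fm κ)
    (h : ∀ U : Fin 7 → κ, U 4 = 0 → U 5 = 0 → (S *ᵥ U) 4 = 0 → (S *ᵥ U) 5 = 0 → S *ᵥ U = 0) :
    ¬ K1 S := by
  intro hK
  let φ : (Fin 7 → κ) →ₗ[κ] Fin 4 → κ := LinearMap.pi ![LinearMap.proj 4, LinearMap.proj 5,
    LinearMap.proj 4 ∘ₗ S.mulVecLin, LinearMap.proj 5 ∘ₗ S.mulVecLin]
  have h1 := φ.finrank_range_add_finrank_ker
  have h2 := Submodule.finrank_le (LinearMap.range φ)
  rw [Module.finrank_fin_fun] at h1 h2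
  obtain ⟨f, hf⟩ := exists_linearIndependent_of_le_finrank (R := κ) (M := LinearMap.ker φ)
    (n := 2) (by omega)
  have h3 : ∀ a, S *ᵥ (f a : Fin 7 → κ) = 0 := fun a =>
    h _ (congrFun (f a).2 0) (congrFun (f a).2 1) (congrFun (f a).2 2) (congrFun (f a).2 3)
  refine hK (f 0) (f 1) (h3 0) (h3 1) ?_
  have h4 := hf.map' (LinearMap.ker φ).subtype (Submodule.ker_subtype _)
  have h5 : (LinearMap.ker φ).subtype ∘ f = ![(f 0 : Fin 7 → κ), f 1] := by
    funext a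
    fin_cases a <;> rfl
  rwa [h5] at h4

end C03Vx

theorem p_C03V (hTV : S_TV) (hND : S_ND) :
    S_C03V := by
  intro κ _ _ d hs h1 h2 h3 h4 h5
  have hK := hND κ _ (hTV κ _ hs) ![-d.r1, d.p3, 1] fun h => one_ne_zero (congrFun h 2)
  refine C03Vx.not_K1 _ (fun U u4 u5 v4 v5 => funext fun i => ?_) hK
  by_cases e4 : i = 4
  · rw [e4]
    exact v4
  by_cases e5 : i = 5
  · rw [e5]
    exact v5
  fin_cases i
  any_goals exact absurd rfl e4
  any_goals exact absurd rfl e5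
  all_goals
    simp only [sk, Fin.sum_univ_three, mulVec, dotProduct, Fin.sum_univ_seven, Matrix.add_apply,
      Matrix.smul_apply, Matrix.sub_apply, transpose_apply, u4, u5, mul_zero, add_zero]
    simp [net, bnet, bf, pA, pB, Dat.E, Dat.D, h1, h2, h3, h4, h5]

end Pool.Agent.P.MP_6149fc_ag.V22

end

section

/-! Step C03T. -/

set_option autoImplicit false
set_option linter.unusedSectionVars false

namespace Pool.Agent.P.MP_6149fc_ag.V22

open Pool.Agent.P.MP_6149fc_ag.V18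
open MvPowerSeries (coeff X constantCoeff monomial)
open Matrix

theorem p_C03T (hC03V : S_C03V) (hMOVS : S_MOVS) (hMOVW : S_MOVW) :
    S_C03T := by
  intro κ _ _ d hs ⟨a0, b0, a4, b4, ha, hb⟩
  refine ⟨hC03V κ d hs a0 b0 a4 b4, fun h => ?_, fun h => ?_⟩
  · refine hC03V κ _ ((hMOVS κ 1 _).1 ((hMOVW κ d).1 hs)) ?_ ?_ ?_ ?_ ?_ <;>
      simp only [shfD, swpD, Dat.g1, Dat.g2]
    · linear_combination b0 + b4 + hb - a0 - a4 - ha
    · linear_combination a0 + a4 + ha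
    · linear_combination b0 - a0
    · exact a0
    · linear_combination h
  · refine hC03V κ _ ((hMOVS κ 1 _).1 hs) ?_ ?_ ?_ ?_ ?_ <;>
      simp only [shfD, Dat.g1, Dat.g2]
    · linear_combination a0 + a4 + ha - b0 - b4 - hb
    · linear_combination b0 + b4 + hb
    · linear_combination a4 - b4
    · exact b4
    · linear_combination h

end Pool.Agent.P.MP_6149fc_ag.V22

end

section

/-! Step PT0. -/

set_option autoImplicit false
set_option linter.unusedSectionVars false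

namespace Pool.Agent.P.MP_6149fc_ag.V22

open Pool.Agent.P.MP_6149fc_ag.V18
open MvPowerSeries (coeff X constantCoeff monomial)
open Matrix

namespace PT0x

theorem cram {κ : Type} [Field κ] {p : P6 κ} {d : Dat κ} (h : p.Eqs d) (k : d.K111) :
    d.Dt • (p.a1 - p.a2) = -((d.r3 * d.p1 - (d.r1 - d.p3) * d.p3) • p.q0 d +
      (-(d.r3 * d.p3)) • p.q1 d + (d.r3 ^ 2) • p.q2 d) ∧
    d.Dt • (p.a2 - p.a3) = -((d.p1 * d.p3) • p.q0 d + (-(d.r1 * d.p3)) • p.q1 d +
      (d.r1 * d.r3) • p.q2 d) ∧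
    d.Dt • (p.a3 - p.a4) = -((d.p1 ^ 2) • p.q0 d + (-(d.r1 * d.p1)) • p.q1 d +
      (d.r1 * (d.r1 - d.p3) + d.r3 * d.p1) • p.q2 d) := by
  obtain ⟨k1, k2, k3, k4, k5, k6⟩ := k
  have k7 : d.p2 = -d.p1 - d.p3 := by linear_combination k5
  have k8 : d.r2 = -d.r1 - d.r3 := by linear_combination k6
  obtain ⟨h0, h1, h2⟩ := h
  rw [add_eq_zero_iff_neg_eq] at h0 h1 h2
  rw [← h0, ← h1, ← h2]
  simp only [Dat.Dt, k1, k2, k3, k4, k7, k8, Algebra.smul_def, map_add, map_sub, map_mul, map_neg,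
    map_pow, map_zero]
  refine ⟨by ring, by ring, by ring⟩

end PT0x

theorem p_PT0 :
    S_PT0 := by
  intro κ _ W p d x y z A B G ho he hk hD hx hy hz ex ey ez hA hB hG
  obtain ⟨c1, c2, c3⟩ := PT0x.cram he hk
  obtain ⟨g0, g1, g2⟩ := ho.q_ge (w := w1) d (n := 1) (by decide)
  have d1 : Ge w1 (1 + 1) (p.a1 - p.a2) :=
    Ge.of_smul hD (((((g0.smul _).add (g1.smul _)).add (g2.smul _)).neg).congr c1)
  have d2 : Ge w1 (1 + 1) (p.a2 - p.a3) :=
    Ge.of_smul hD (((((g0.smul _).add (g1.smul _)).add (g2.smul _)).neg).congr c2)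
  have d3 : Ge w1 (1 + 1) (p.a3 - p.a4) :=
    Ge.of_smul hD (((((g0.smul _).add (g1.smul _)).add (g2.smul _)).neg).congr c3)
  have l1 : Ld w1 1 p.a1 z := hz.ld.congr ez rfl
  have l0 : Ld w1 1 p.a0 (x + z) := (hx.ld.add l1).congr (by rw [← ex]; ring) rfl
  have l2 : Ld w1 1 p.a2 z := (l1.sub_ge d1).congr (by ring) rfl
  have l3 : Ld w1 1 p.a3 z := (l2.sub_ge d2).congr (by ring) rfl
  have l4 : Ld w1 1 p.a4 z := (l3.sub_ge d3).congr (by ring) rfl
  have l5 : Ld w1 1 p.a5 (y + z) := (hy.ld.add l4).congr (by rw [← ey]; ring) rfl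
  have m01 : Ld w1 2 p.m01 (x * z) := ((l0.mul l2).sub (l1.mul l1)).congr ho.e01 (by ring)
  have m02 : Ld w1 2 p.m02 (x * z) := ((l0.mul l3).sub (l2.mul l1)).congr ho.e02 (by ring)
  have m03 : Ld w1 2 p.m03 (x * z) := ((l0.mul l4).sub (l3.mul l1)).congr ho.e03 (by ring)
  have m04 : Ld w1 2 p.m04 (x * y + x * z + y * z) :=
    ((l0.mul l5).sub (l4.mul l1)).congr ho.e04 (by ring)
  have m12 : Ld w1 2 p.m12 0 := ((l1.mul l3).sub (l2.mul l2)).congr ho.e12 (by ring)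
  have m13 : Ld w1 2 p.m13 0 := ((l1.mul l4).sub (l3.mul l2)).congr ho.e13 (by ring)
  have m14 : Ld w1 2 p.m14 (y * z) := ((l1.mul l5).sub (l4.mul l2)).congr ho.e14 (by ring)
  have m23 : Ld w1 2 p.m23 0 := ((l2.mul l4).sub (l3.mul l3)).congr ho.e23 (by ring)
  have m24 : Ld w1 2 p.m24 (y * z) := ((l2.mul l5).sub (l4.mul l3)).congr ho.e24 (by ring)
  have m34 : Ld w1 2 p.m34 (y * z) := ((l3.mul l5).sub (l4.mul l4)).congr ho.e34 (by ring)
  have q0 : Ld w1 2 (p.q0 d) (B • (x * z)) :=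
    ((((((m01.smul _).add (m02.smul _)).add (m03.smul _)).add (m12.smul _)).add
      (m13.smul _)).add (m23.smul _)).congr rfl (by
        simp only [hB, Algebra.smul_def, map_add]; ring)
  have q1 : Ld w1 2 (p.q1 d) (A • (x * y) + B • (x * z) + G • (y * z)) :=
    ((((((m02.smul _).add ((m03.add m12).smul _)).add ((m04.add m13).smul _)).add
      (m13.smul _)).add ((m14.add m23).smul _)).add (m24.smul _)).congr rfl (by
        simp only [hA, hB, hG, Algebra.smul_def, map_add]; ring)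
  have q2 : Ld w1 2 (p.q2 d) (G • (y * z)) :=
    ((((((m12.smul _).add (m13.smul _)).add (m14.smul _)).add (m23.smul _)).add
      (m24.smul _)).add (m34.smul _)).congr rfl (by
        simp only [hG, Algebra.smul_def, map_add]; ring)
  refine ⟨((((q0.smul _).add (q1.smul _)).add (q2.smul _)).neg).congr c1 ?_,
    ((((q0.smul _).add (q1.smul _)).add (q2.smul _)).neg).congr c2 ?_,
    ((((q0.smul _).add (q1.smul _)).add (q2.smul _)).neg).congr c3 ?_⟩ <;>
  simp only [qd, Algebra.smul_def, map_add, map_sub, map_mul, map_neg, map_pow] <;> ring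

end Pool.Agent.P.MP_6149fc_ag.V22

end

section

/-! Step PT1. -/

set_option autoImplicit false
set_option linter.unusedSectionVars false

namespace Pool.Agent.P.MP_6149fc_ag.V22

open Pool.Agent.P.MP_6149fc_ag.V18
open MvPowerSeries (coeff X constantCoeff monomial)
open Matrix

theorem p_PT1 :
    S_PT1 := by
  intro κ _ W p x y z h hX hY hZ hx hy hz n1 n2 n3 h1 h2 h3
  have g1 : Ge w1 2 (p.a1 - p.a2) := h1.ge
  have g2 : Ge w1 2 (p.a2 - p.a3) := h2.ge
  have g3 : Ge w1 2 (p.a3 - p.a4) := h3.ge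
  have l1 : Ld w1 1 p.a1 z := hZ.ld.congr hz rfl
  have l0 : Ld w1 1 p.a0 (x + z) := (hX.ld.add l1).congr (by rw [← hx]; ring) rfl
  have l2 : Ld w1 1 p.a2 z := (l1.sub_ge g1).congr (by ring) rfl
  have l3 : Ld w1 1 p.a3 z := (l2.sub_ge g2).congr (by ring) rfl
  have l4 : Ld w1 1 p.a4 z := (l3.sub_ge g3).congr (by ring) rfl
  have l5 : Ld w1 1 p.a5 (y + z) := (hY.ld.add l4).congr (by rw [← hy]; ring) rfl
  have m01 : Ld w1 2 p.m01 (x * z) := ((l0.mul l2).sub (l1.mul l1)).congr h.e01 (by ring)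
  have m14 : Ld w1 2 p.m14 (y * z) := ((l1.mul l5).sub (l4.mul l2)).congr h.e14 (by ring)
  have m04 : Ld w1 2 p.m04 (x * y + x * z + y * z) :=
    ((l0.mul l5).sub (l4.mul l1)).congr h.e04 (by ring)
  have m24 : Ld w1 2 p.m24 (y * z) := ((l2.mul l5).sub (l4.mul l3)).congr h.e24 (by ring)
  have m12 : Ld w1 2 p.m12 0 := ((l1.mul l3).sub (l2.mul l2)).congr h.e12 (by ring)
  have c013 : Ld w1 3 p.c013 (x * y * z) :=
    (((l0.mul m24).sub (l1.mul m14)).add (l3.mul m12)).congr h.f013 (by ring)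
  have q : ∀ {f g : PS κ}, Ge w1 2 f → Ge w1 2 g → Ge w1 (1 + 2 + 1) (f * g) :=
    fun a b => a.mul' b le_rfl
  refine ⟨⟨⟨p.m04 - p.m01 - p.m14, sub_mem (sub_mem h.w04 h.w01) h.w14,
      ((m04.sub m01).sub m14).congr rfl (by ring)⟩, ⟨_, h.w01, m01⟩, ⟨_, h.w14, m14⟩,
      ⟨_, h.w013, c013⟩⟩,
    ⟨p.m01 - p.m02 + p.m12, add_mem (sub_mem h.w01 h.w02) h.w12,
      ((hX.ld.mul h2).sub_ge (q g1 g1)).congr ?_ rfl⟩,
    ⟨p.m02 - p.m03 + p.m23, add_mem (sub_mem h.w02 h.w03) h.w23,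
      ((hX.ld.mul h3).add_ge (((q g1 g3).sub (q g1 g2)).sub (q g2 g2))).congr ?_ rfl⟩,
    ⟨p.m14 - p.m24 - p.m12, sub_mem (sub_mem h.w14 h.w24) h.w12,
      ((hY.ld.mul h1).add_ge (((q g2 g2).add (q g2 g3)).sub (q g1 g3))).congr ?_ rfl⟩,
    ⟨p.m24 - p.m34 - p.m23, sub_mem (sub_mem h.w24 h.w34) h.w23,
      ((hY.ld.mul h2).add_ge (q g3 g3)).congr ?_ rfl⟩,
    ⟨p.m12, h.w12, ((l2.mul (h1.sub h2)).sub_ge (q g1 g2)).congr ?_ rfl⟩,
    ⟨p.m23, h.w23, ((l3.mul (h2.sub h3)).sub_ge (q g2 g3)).congr ?_ rfl⟩⟩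
  · rw [h.e01, h.e02, h.e12, ← hx]; ring
  · rw [h.e02, h.e03, h.e23, ← hx]; ring
  · rw [h.e14, h.e24, h.e12, ← hy]; ring
  · rw [h.e24, h.e34, h.e23, ← hy]; ring
  · rw [h.e12]; ring
  · rw [h.e23]; ring

end Pool.Agent.P.MP_6149fc_ag.V22

end

section

/-! Step PT2. -/

set_option autoImplicit false
set_option linter.unusedSectionVars false

namespace Pool.Agent.P.MP_6149fc_ag.V22

open Pool.Agent.P.MP_6149fc_ag.V18
open MvPowerSeries (coeff X constantCoeff monomial)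
open Matrix

theorem p_PT2 :
    S_PT2 := by
  intro κ _ W p x y z h hx hy hz e0 e5 e1 n1 n2 n3 l1 l2 l3
  obtain ⟨d1, hd1⟩ : ∃ d, p.a1 - p.a2 = d := ⟨_, rfl⟩
  obtain ⟨d2, hd2⟩ : ∃ d, p.a2 - p.a3 = d := ⟨_, rfl⟩
  obtain ⟨d3, hd3⟩ : ∃ d, p.a3 - p.a4 = d := ⟨_, rfl⟩
  rw [hd1] at l1
  rw [hd2] at l2
  rw [hd3] at l3
  have a0 : p.a0 = x + z := by linear_combination e0 + e1
  have a2 : p.a2 = z - d1 := by linear_combination e1 - hd1
  have a3 : p.a3 = z - d1 - d2 := by linear_combination a2 - hd2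
  have a4 : p.a4 = z - d1 - d2 - d3 := by linear_combination a3 - hd3
  have a5 : p.a5 = y + (z - d1 - d2 - d3) := by linear_combination e5 + a4
  have q11 : Ge w1 4 (d1 * d1) := l1.ge.mul l1.ge
  have q12 : Ge w1 4 (d1 * d2) := l1.ge.mul l2.ge
  have q13 : Ge w1 4 (d1 * d3) := l1.ge.mul l3.ge
  have q22 : Ge w1 4 (d2 * d2) := l2.ge.mul l2.ge
  have q23 : Ge w1 4 (d2 * d3) := l2.ge.mul l3.ge
  have q33 : Ge w1 4 (d3 * d3) := l3.ge.mul l3.ge
  have g1 : Ge w1 1 d1 := l1.ge.mono (by norm_num)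
  have g2 : Ge w1 1 d2 := l2.ge.mono (by norm_num)
  have t : ∀ {u q : PS κ}, Ge w1 1 u → Ge w1 4 q → Ge w1 (4 + 1) (u * q) :=
    fun hu hq => hu.mul' hq (by norm_num)
  have L1 : Ld w1 4 (y * z * (d1 - d2)) (y * z * (n1 - n2)) := (hy.ld.mul hz.ld).mul (l1.sub l2)
  have L2 : Ld w1 4 (x * z * (d2 - d3)) (x * z * (n2 - n3)) := (hx.ld.mul hz.ld).mul (l2.sub l3)
  have L3 : Ld w1 4 (x * y * d2) (x * y * n2) := (hx.ld.mul hy.ld).mul l2
  refine ⟨⟨p.c123, h.w123, ?_⟩, ⟨p.c012, h.w012, ?_⟩,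
    ⟨p.c013 - p.c023 - p.c012 + p.c123,
      add_mem (sub_mem (sub_mem h.w013 h.w023) h.w012) h.w123, ?_⟩⟩
  · refine (L1.add_ge ((((t hz.ge (((q23.sub q33).sub q22).add q13)).sub (t hy.ge q11)).add
      (t g2 q22)).add (t g1 (((q22.sub q23).sub q23).sub q13)))).congr ?_ rfl
    rw [h.f123, h.e34, h.e24, h.e23, e1, a5, a4, a3, a2]
    ring
  · refine (L2.add_ge (((t hz.ge (((q13.sub q22).add q12).sub q11)).add
      (t hx.ge ((q13.sub q22).sub q12))).add (t g1 q11))).congr ?_ rfl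
    rw [h.f012, h.e23, h.e13, h.e12, e1, a0, a4, a3, a2]
    ring
  · refine (L3.add_ge (((t hx.ge q33).sub (t hy.ge q11)).add
      (t g2 ((q22.sub q13).sub q13)))).congr ?_ rfl
    rw [h.f123, h.f012, h.f013, h.f023, h.e34, h.e24, h.e23, h.e14, h.e13, h.e12, e1, a0, a5, a4,
      a3, a2]
    ring

end Pool.Agent.P.MP_6149fc_ag.V22

end

section

/-! Step PT. -/

set_option autoImplicit false
set_option linter.unusedSectionVars false

namespace Pool.Agent.P.MP_6149fc_ag.V22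

open Pool.Agent.P.MP_6149fc_ag.V18
open MvPowerSeries (coeff X constantCoeff monomial)
open Matrix

namespace PTx

variable {κ : Type} [Field κ] {w : Fin 3 → ℕ} {k : ℕ} {W : Submodule κ (PS κ)} {f g : PS κ}
  {c : κ}

theorem un (hc : c ≠ 0) (h : LdIn w k W (c • g)) : LdIn w k W g :=
  (h.smul c⁻¹).congr (inv_smul_smul₀ hc g).symm

theorem dv (hc : c ≠ 0) (h : Ld w k (c • f) g) : Ld w k f (c⁻¹ • g) :=
  (h.smul c⁻¹).congr (inv_smul_smul₀ hc f).symm rfl

theorem comb {g1 g2 m : PS κ} (hc : c ≠ 0) (h1 : LdIn w k W g1) (h2 : LdIn w k W g2)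
    (h3 : LdIn w k W m) (a b e : κ) (h : c • f = a • g1 + b • g2 + e • m) : LdIn w k W f :=
  un hc ((((h1.smul a).add (h2.smul b)).add (h3.smul e)).congr h)

end PTx

open PTx in
theorem p_PT (hPT0 : S_PT0) (hPT1 : S_PT1) (hPT2 : S_PT2) :
    S_PT := by
  intro κ _ W p d x y z ok eq k1 hD hx hy hz ex ey ez
  obtain ⟨n1, n2, n3⟩ := hPT0 κ W p d x y z _ _ _ ok eq k1 hD hx hy hz ex ey ez rfl rfl rfl
  obtain ⟨⟨a1, a2, a3, a4⟩, b1, b2, b3, b4, b5, b6⟩ :=
    hPT1 κ W p x y z ok hx hy hz ex ey ez _ _ _ (dv hD n1) (dv hD n2) (dv hD n3)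
  obtain ⟨c1, c2, c3⟩ :=
    hPT2 κ W p x y z ok hx hy hz ex ey ez _ _ _ (dv hD n1) (dv hD n2) (dv hD n3)
  have he := inv_ne_zero hD
  have h0 : d.r1 * d.p3 - d.r3 * d.p1 ≠ 0 := right_ne_zero_of_mul hD
  simp only [← smul_sub, mul_smul_comm] at b1 b2 b3 b4 b5 b6 c1 c2 c3
  clear n1 n2 n3
  obtain ⟨B, hB⟩ : ∃ B, B = d.c01 + d.c02 + d.c03 := ⟨_, rfl⟩
  obtain ⟨G, hG⟩ : ∃ G, G = d.c03 + d.c13 + d.c23 := ⟨_, rfl⟩
  simp only [← hB, ← hG] at b1 b2 b3 b4 b5 b6 c1 c2 c3 ⊢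
  clear hB hG
  obtain ⟨A, hA⟩ : ∃ A, A = d.c03 := ⟨_, rfl⟩
  simp only [← hA] at b1 b2 b3 b4 b5 b6 c1 c2 c3 ⊢
  clear hA
  refine ⟨a1, a2, a3,
    comb h0 (un he b1) (un he b2) a4 d.r1 (-d.r3) (d.r3 * (G * (d.r1 * d.p1 - d.r1 ^ 2 +
      d.r1 * d.p3 - d.r3 * d.p1)) - d.r1 * (G * d.r1 * (d.p3 - d.r3))) ?_,
    comb h0 (un he b3) (un he b4) a4 (-d.p1) d.p3 (d.p1 * (B * (d.r1 * d.p3 - d.p3 ^ 2 -
      d.r3 * d.p1 + d.r3 * d.p3)) - d.p3 * (B * d.p3 * (d.r1 - d.p1))) ?_,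
    comb h0 (un he b5) (un he b6) a4 (-d.r1) d.r3 (d.r1 * (A * d.r3 * d.p3 - A * d.r1 * d.p3) -
      d.r3 * (A * d.r1 * d.p3 - A * d.r1 * d.p1)) ?_,
    ((un he c1).smul (-1)).congr ?_, (un he c2).congr ?_, (un he c3).congr ?_⟩ <;>
  simp only [qd, Algebra.smul_def, map_mul, map_sub, map_add, map_neg, map_pow, map_one] <;> ring

end Pool.Agent.P.MP_6149fc_ag.V22

end

section

/-! Step PTA. -/

set_option autoImplicit false
set_option linter.unusedSectionVars false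

namespace Pool.Agent.P.MP_6149fc_ag.V22

open Pool.Agent.P.MP_6149fc_ag.V18
open MvPowerSeries (coeff X constantCoeff monomial)
open Matrix

namespace PTAx

theorem pt3 {κ : Type} [Field κ] {U : ℕ → Submodule κ (PS κ)} {k : ℕ} {g : PS κ}
    (h : LdIn w1 k (U 1) g) {a b c a' b' c' a'' b'' c'' : ℕ} {t : κ} (s r : κ) (ht : t ≠ 0)
    (h1 : ltA A_t a b c a' b' c') (h2 : ltA A_t a b c a'' b'' c'')
    (e : g = t • mon κ a b c + (s • mon κ a' b' c' + r • mon κ a'' b'' c'')) :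
    Pt A_t U 1 (ex a b c) :=
  h.pt (by decide) (init_of ht
    (add_mem (Submodule.smul_mem _ _ (mon_gt h1)) (Submodule.smul_mem _ _ (mon_gt h2))) e)

end PTAx

open PTAx in
theorem p_PTA :
    S_PTA := by
  intro κ _ U A B G t01 t02 t10 t12 t20 t21 h hA hB hG h01 h20
  have p210 : Pt A_t U 1 (ex 2 1 0) :=
    pt3 h.fx (a' := 2) (b' := 0) (c' := 1) (a'' := 2) (b'' := 0) (c'' := 1) (B * t02) 0
      (mul_ne_zero hA h01) (by decide) (by decide) (by
        simp only [mon, Algebra.smul_def, map_mul, map_zero]; ring)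
  have p102 : Pt A_t U 1 (ex 1 0 2) :=
    pt3 h.fz (a' := 0) (b' := 1) (c' := 2) (a'' := 0) (b'' := 1) (c'' := 2) (G * t21) 0
      (mul_ne_zero hB h20) (by decide) (by decide) (by
        simp only [mon, Algebra.smul_def, map_mul, map_zero]; ring)
  have p211 : Pt A_t U 1 (ex 2 1 1) :=
    pt3 h.ny (a' := 2) (b' := 0) (c' := 2) (a'' := 1) (b'' := 1) (c'' := 2) (B * t02 * t20)
      (G * t21 * t02) (mul_ne_zero (mul_ne_zero hA h01) h20) (by decide) (by decide) (by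
        simp only [mon, qd, Algebra.smul_def, map_mul]; ring)
  refine ⟨fun h10 h21 q hq => ?_, fun h10 h12 q hq => ?_⟩
  · simp only [P_ta, List.mem_cons, List.not_mem_nil, or_false] at hq
    rcases hq with rfl | rfl | rfl | rfl | rfl | rfl
    · exact h.yz.pt (by decide) ((init_mon 0 1 1).congr (by simp only [mon]; ring))
    · exact p210
    · exact pt3 h.fy (a' := 0) (b' := 2) (c' := 1) (a'' := 0) (b'' := 2) (c'' := 1) (G * t12) 0
        (mul_ne_zero hA h10) (by decide) (by decide) (by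
          simp only [mon, Algebra.smul_def, map_mul, map_zero]; ring)
    · exact p102
    · exact p211
    · exact pt3 h.nx (a' := 1) (b' := 1) (c' := 2) (a'' := 0) (b'' := 2) (c'' := 2)
        (B * t20 * t12) (G * t12 * t21) (mul_ne_zero (mul_ne_zero hA h10) h21) (by decide)
        (by decide) (by simp only [mon, qd, Algebra.smul_def, map_mul]; ring)
  · simp only [P_tc, List.mem_cons, List.not_mem_nil, or_false] at hq
    rcases hq with rfl | rfl | rfl | rfl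
    · exact p210
    · exact h.fy.pt (by decide) (((init_mon 0 2 1).smul (mul_ne_zero hG h12)).congr (by
        simp only [mon, h10, Algebra.smul_def, map_mul, map_zero]; ring))
    · exact p102
    · exact p211

end Pool.Agent.P.MP_6149fc_ag.V22

end

section

/-! Step LT. -/

set_option autoImplicit false
set_option linter.unusedSectionVars false

namespace Pool.Agent.P.MP_6149fc_ag.V22

open Pool.Agent.P.MP_6149fc_ag.V18
open MvPowerSeries (coeff X constantCoeff monomial)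
open Matrix

theorem p_LT (hSIMV : S_SIMV) (hCERTV : S_CERTV) (hPTA : S_PTA) :
    S_LT := by
  intro κ _
  have La : ∀ A B G t01 t02 t10 t12 t20 t21 : κ, A ≠ 0 → B ≠ 0 → G ≠ 0 → t01 ≠ 0 → t20 ≠ 0 →
      t10 ≠ 0 → t21 ≠ 0 → Ex111 A B G t01 t02 t10 t12 t20 t21 :=
    fun A B G t01 t02 t10 t12 t20 t21 hA hB hG h1 h2 h3 h4 =>
      ⟨0, 1, 2, by decide, by decide, by decide, fun U V c x h =>
        hSIMV κ A_t P_ta U V (by decide) (by decide) (c_ta_0 hCERTV) (c_ta_1 hCERTV)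
          (c_ta_2 hCERTV) c x ((hPTA κ U _ _ _ _ _ _ _ _ _ h hA hB hG h1 h2).1 h3 h4)⟩
  have Lc : ∀ A B G t01 t02 t10 t12 t20 t21 : κ, A ≠ 0 → B ≠ 0 → G ≠ 0 → t01 ≠ 0 → t20 ≠ 0 →
      t10 = 0 → t12 ≠ 0 → Ex111 A B G t01 t02 t10 t12 t20 t21 :=
    fun A B G t01 t02 t10 t12 t20 t21 hA hB hG h1 h2 h3 h4 =>
      ⟨0, 1, 2, by decide, by decide, by decide, fun U V c x h =>
        hSIMV κ A_t P_tc U V (by decide) (by decide) (c_tc_0 hCERTV) (c_tc_1 hCERTV)
          (c_tc_2 hCERTV) c x ((hPTA κ U _ _ _ _ _ _ _ _ _ h hA hB hG h1 h2).2 h3 h4)⟩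
  have Lu : ∀ A B G t01 t02 t10 t12 t20 t21 : κ, A ≠ 0 → B ≠ 0 → G ≠ 0 → t01 ≠ 0 → t12 ≠ 0 →
      t20 ≠ 0 → Ex111 A B G t01 t02 t10 t12 t20 t21 := by
    intro A B G t01 t02 t10 t12 t20 t21 hA hB hG h1 h2 h3
    by_cases a : t10 = 0
    · exact Lc _ _ _ _ _ _ _ _ _ hA hB hG h1 h3 a h2
    by_cases b : t21 = 0
    · exact Ex111.swap01 (Ex111.swap12 (Lc _ _ _ _ _ _ _ _ _ hG hA hB h2 h1 b h3))
    · exact La _ _ _ _ _ _ _ _ _ hA hB hG h1 h3 a b
  intro A B G t01 t02 t10 t12 t20 t21 hA hB hG h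
  by_cases a : t01 * t12 * t20 = 0
  · have b : t02 * t21 * t10 ≠ 0 := fun b => h (by rw [a, b, sub_zero])
    exact Ex111.swap01 (Lu _ _ _ _ _ _ _ _ _ hA hG hB (right_ne_zero_of_mul b)
      (left_ne_zero_of_mul (left_ne_zero_of_mul b)) (right_ne_zero_of_mul (left_ne_zero_of_mul b)))
  · exact Lu _ _ _ _ _ _ _ _ _ hA hB hG (left_ne_zero_of_mul (left_ne_zero_of_mul a))
      (right_ne_zero_of_mul (left_ne_zero_of_mul a)) (right_ne_zero_of_mul a)

end Pool.Agent.P.MP_6149fc_ag.V22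

end

section

/-! Step QT0. -/

set_option autoImplicit false
set_option linter.unusedSectionVars false

namespace Pool.Agent.P.MP_6149fc_ag.V22

open Pool.Agent.P.MP_6149fc_ag.V18
open MvPowerSeries (coeff X constantCoeff monomial)
open Matrix

theorem p_QT0 (hPARL : S_PARL) :
    S_QT0 := by
  intro κ _ _ d i j k hij hik hjk hK hD H
  obtain ⟨p0, r0, p4, r4, hp, hr⟩ := hK
  let m : Fin 3 → Fin 6 → κ := fun l =>
    if l = i then ![1, -1, 0, 0, 0, 0] else if l = j then ![0, 0, 0, 0, -1, 1]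
    else ![0, 1, 0, 0, 0, 0]
  have mi : m i = ![1, -1, 0, 0, 0, 0] := if_pos rfl
  have mj : m j = ![0, 0, 0, 0, -1, 1] := (if_neg hij.symm).trans (if_pos rfl)
  have mk : m k = ![0, 1, 0, 0, 0, 0] := (if_neg hik.symm).trans (if_neg hjk.symm)
  refine hPARL κ d m (fun v hl hm => ?_) fun p U V hc ho he hm => H p U V hc ho he ?_ ?_ ?_
  · have a := hm i
    have b := hm j
    have c := hm k
    have e0 := hl 0
    have e1 := hl 1
    have e2 := hl 2
    rw [mi] at a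
    rw [mj] at b
    rw [mk] at c
    simp [Dat.lin, dotProduct, Fin.sum_univ_six, p0, r0, p4, r4] at a b c e0 e1 e2
    have hp2 : d.p2 = -d.p1 - d.p3 := by linear_combination hp
    have hr2 : d.r2 = -d.r1 - d.r3 := by linear_combination hr
    rw [hr2] at e0 e1
    rw [hp2] at e1 e2
    have f0 : d.r1 * (v 1 - v 2) - d.r3 * (v 2 - v 3) = 0 := by linear_combination e0
    have f1 : d.p1 * (v 1 - v 2) + (d.r1 - d.p3) * (v 2 - v 3) - d.r3 * (v 3 - v 4) = 0 := by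
      linear_combination e1
    have f2 : d.p1 * (v 2 - v 3) - d.p3 * (v 3 - v 4) = 0 := by linear_combination e2
    have g1 : v 1 - v 2 = 0 := (mul_eq_zero.1 (show d.Dt * (v 1 - v 2) = 0 by
      simp only [Dat.Dt]
      linear_combination (d.p3 * (d.p3 - d.r1) + d.r3 * d.p1) * f0 - d.r3 * d.p3 * f1 +
        d.r3 * d.r3 * f2)).resolve_left hD
    have g2 : v 2 - v 3 = 0 := (mul_eq_zero.1 (show d.Dt * (v 2 - v 3) = 0 by
      simp only [Dat.Dt]
      linear_combination d.p1 * d.p3 * f0 - d.r1 * d.p3 * f1 + d.r1 * d.r3 * f2)).resolve_left hD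
    have g3 : v 3 - v 4 = 0 := (mul_eq_zero.1 (show d.Dt * (v 3 - v 4) = 0 by
      simp only [Dat.Dt]
      linear_combination d.p1 * d.p1 * f0 - d.r1 * d.p1 * f1 +
        (d.r1 * (d.r1 - d.p3) + d.r3 * d.p1) * f2)).resolve_left hD
    funext s
    fin_cases s
    · show v 0 = 0
      linear_combination a + c
    · exact c
    · show v 2 = 0
      linear_combination c - g1
    · show v 3 = 0
      linear_combination c - g1 - g2
    · show v 4 = 0
      linear_combination c - g1 - g2 - g3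
    · show v 5 = 0
      linear_combination c - g1 - g2 - g3 + b
  · rw [← hm i, mi]
    simp [P6.lin, sub_eq_add_neg]
  · rw [← hm j, mj]
    simp [P6.lin, sub_eq_neg_add]
  · rw [← hm k, mk]
    simp [P6.lin]

end Pool.Agent.P.MP_6149fc_ag.V22

end

section

/-! Step PU0. -/

set_option autoImplicit false
set_option linter.unusedSectionVars false

namespace Pool.Agent.P.MP_6149fc_ag.V22

open Pool.Agent.P.MP_6149fc_ag.V18
open MvPowerSeries (coeff X constantCoeff monomial)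
open Matrix

namespace PU0x

variable {κ : Type} [Field κ]

theorem m101 : mon κ 1 0 1 = X 0 * X 2 := by simp [mon]
theorem m011 : mon κ 0 1 1 = X 1 * X 2 := by simp [mon]
theorem m020 : mon κ 0 2 0 = X 1 * X 1 := by simp [mon, pow_two]

theorem ldX (j : Fin 3) : Ld w1 1 (X j : PS κ) (X j) := by
  have h := Ld.X (κ := κ) (w := w1) j
  have e : w1 j = 1 := by fin_cases j <;> rfl
  rwa [e] at h

end PU0x

open PU0x in
theorem p_PU0 :
    S_PU0 := by
  intro κ _ W p d hp he hk hD hc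
  obtain ⟨z1, z2, z3, z4, z5, z6⟩ := hk
  obtain ⟨c0, c1, c5⟩ := hc
  have h0 := he.h0
  have h1 := he.h1
  have h2 := he.h2
  rw [z2, z4, z6] at h0
  rw [z1, z2, z3, z4, z5, z6] at h1
  rw [z1, z3, z5] at h2
  have e2 : d.Du • p.a2 = -(((d.p3 + d.r2) * d.p3 - d.r3 * d.p2) • p.q0 d +
      (-(d.r3 * d.p3)) • p.q1 d + (d.r3 * d.r3) • p.q2 d) := by
    unfold Dat.Du
    linear_combination (norm := module) ((d.p3 + d.r2) * d.p3 - d.r3 * d.p2) • h0 +
      (-(d.r3 * d.p3)) • h1 + (d.r3 * d.r3) • h2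
  have e3 : d.Du • p.a3 = -((-(d.p2 * d.p3)) • p.q0 d +
      (d.r2 * d.p3) • p.q1 d + (-(d.r2 * d.r3)) • p.q2 d) := by
    unfold Dat.Du
    linear_combination (norm := module) (-(d.p2 * d.p3)) • h0 +
      (d.r2 * d.p3) • h1 + (-(d.r2 * d.r3)) • h2
  have e4 : d.Du • p.a4 = -((d.p2 * d.p2) • p.q0 d +
      (-(d.r2 * d.p2)) • p.q1 d + (d.r2 * (d.p3 + d.r2) - d.r3 * d.p2) • p.q2 d) := by
    unfold Dat.Du
    linear_combination (norm := module) (d.p2 * d.p2) • h0 +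
      (-(d.r2 * d.p2)) • h1 + (d.r2 * (d.p3 + d.r2) - d.r3 * d.p2) • h2
  obtain ⟨g0, g1, g2⟩ := hp.q_ge (w := w1) d (n := 1) (by decide)
  have a2 : Ge w1 2 p.a2 :=
    Ge.of_smul hD ((((g0.smul _).add (g1.smul _)).add (g2.smul _)).neg.congr e2)
  have a3 : Ge w1 2 p.a3 :=
    Ge.of_smul hD ((((g0.smul _).add (g1.smul _)).add (g2.smul _)).neg.congr e3)
  have a4 : Ge w1 2 p.a4 :=
    Ge.of_smul hD ((((g0.smul _).add (g1.smul _)).add (g2.smul _)).neg.congr e4)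
  have l0 : Ld w1 1 p.a0 (X 0) := (ldX 0).congr c0 rfl
  have l1 : Ld w1 1 p.a1 (X 1) := (ldX 1).congr c1 rfl
  have l5 : Ld w1 1 p.a5 (X 2) := (ldX 2).congr c5 rfl
  obtain ⟨-, b02, b03, -, b12, b13, -, b23, b24, b34⟩ :=
    hp.ge 2 3 3 2 3 3 2 3 3 3 l0.ge l1.ge a2 a3 a4 l5.ge (by decide)
  have b01 : Ld w1 2 p.m01 (-mon κ 0 2 0) :=
    ((l1.mul l1).neg.add_ge (l0.ge.mul' a2 le_rfl)).congr (by rw [hp.e01]; ring) (by rw [m020])
  have b04 : Ld w1 2 p.m04 (mon κ 1 0 1) :=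
    ((l0.mul l5).sub_ge (a4.mul' l1.ge le_rfl)).congr hp.e04 m101
  have b14 : Ld w1 2 p.m14 (mon κ 0 1 1) :=
    ((l1.mul l5).sub_ge (a4.mul' a2 (by decide))).congr hp.e14 m011
  have q0 : Ld w1 2 (p.q0 d) (d.c01 • -mon κ 0 2 0) :=
    (((((b01.smul _).add_ge (b02.smul _)).add_ge (b03.smul _)).add_ge (b12.smul _)).add_ge
      (b13.smul _)).add_ge (b23.smul _)
  have q1 : Ld w1 2 (p.q1 d) (d.c03 • mon κ 1 0 1 + d.c13 • mon κ 0 1 1) :=
    (((((((b04.add_ge b13).smul d.c03).add ((b14.add_ge b23).smul d.c13)).add_ge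
      (b02.smul d.c01)).add_ge ((b03.add b12).smul d.c02)).add_ge (b13.smul d.c12)).add_ge
      (b24.smul d.c23)).congr (by unfold P6.q1; abel) rfl
  have q2 : Ld w1 2 (p.q2 d) (d.c03 • mon κ 0 1 1) :=
    ((((((b14.smul d.c03).add_ge (b12.smul d.c01)).add_ge (b13.smul d.c02)).add_ge
      (b23.smul d.c12)).add_ge (b24.smul d.c13)).add_ge (b34.smul d.c23)).congr
      (by unfold P6.q2; abel) rfl
  refine ⟨d.r3 * d.p3 * d.c13 - d.r3 * d.r3 * d.c03, _, _,
    ((d.p3 + d.r2) * d.p3 - d.r3 * d.p2) * d.c01, -(d.p2 * d.p3) * d.c01, d.p2 * d.p2 * d.c01,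
    ?_, ?_, ?_, rfl, rfl⟩
  · exact (((q0.smul _).add (q1.smul _)).add (q2.smul _)).neg.congr e2 (by module)
  · exact (((q0.smul _).add (q1.smul _)).add (q2.smul _)).neg.congr e3 (by module)
  · exact (((q0.smul _).add (q1.smul _)).add (q2.smul _)).neg.congr e4 (by module)

end Pool.Agent.P.MP_6149fc_ag.V22

end

section

/-! Step PUA. -/

set_option autoImplicit false
set_option linter.unusedSectionVars false

namespace Pool.Agent.P.MP_6149fc_ag.V22

open Pool.Agent.P.MP_6149fc_ag.V18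
open MvPowerSeries (coeff X constantCoeff monomial)
open Matrix

theorem p_PUA (hPU0 : S_PU0) :
    S_PUA := by
  intro κ _ U p d h E hK hD hC hc hr hp
  obtain ⟨s2, s3, s4, u2, u3, u4, l2, l3, l4, -, e4⟩ := hPU0 κ (U 1) p d h E hK hD hC
  have hw : First A_u w1 := by decide
  have l0 : Ld w1 1 p.a0 (X 0) := (Ld.X 0).congr hC.1 rfl
  have l1 : Ld w1 1 p.a1 (X 1) := (Ld.X 1).congr hC.2.1 rfl
  have l5 : Ld w1 1 p.a5 (X 2) := (Ld.X 2).congr hC.2.2 rfl
  have g2 := l2.ge.of_smul hD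
  have g3 := l3.ge.of_smul hD
  have g4 := l4.ge.of_smul hD
  obtain ⟨-, -, -, -, b12, -, -, b23, b24, -⟩ :=
    h.ge 2 3 3 2 3 3 2 4 3 3 l0.ge l1.ge g2 g3 g4 l5.ge (by decide)
  have k01 : Ld w1 2 p.m01 (-(X 1 * X 1)) :=
    ((l1.mul l1).neg.add_ge (l0.ge.mul g2)).congr (by rw [h.e01]; ring) rfl
  have k14 : Ld w1 2 p.m14 (X 1 * X 2) :=
    ((l1.mul l5).sub_ge (g4.mul' g2 (by decide))).congr h.e14 rfl
  have k013 : Ld w1 3 p.c013 (-(X 1 * (X 1 * X 2))) :=
    (((l1.mul k14).neg.add_ge (l0.ge.mul b24)).add_ge (g3.mul' b12 (by decide))).congr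
      (by rw [h.f013]; ring) rfl
  have k02 := ((l0.mul l3).sub (l1.mul l2)).congr (f' := d.Du • p.m02)
    (by simp only [h.e02, Algebra.smul_def]; ring) rfl
  have k34 := ((l5.mul l3).sub_ge ((g4.mul g4).smul d.Du)).congr (f' := d.Du • p.m34)
    (by simp only [h.e34, Algebra.smul_def]; ring) rfl
  have k123 := (((l1.mul k34).sub_ge ((g2.mul b24).smul d.Du)).add_ge
    ((g3.mul' b23 (by decide)).smul d.Du)).congr (f' := d.Du • p.c123)
    (by simp only [h.f123, Algebra.smul_def]; ring) rfl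
  have k13 := ((l1.mul l4).sub_ge ((g3.mul g2).smul d.Du)).congr (f' := d.Du • p.m13)
    (by simp only [h.e13, Algebra.smul_def]; ring) rfl
  have k012 := (((l1.mul k13).neg.add_ge ((l0.ge.mul b23).smul d.Du)).add_ge
    ((g2.mul b12).smul d.Du)).congr (f' := d.Du • p.c012)
    (by simp only [h.f012, Algebra.smul_def]; ring) rfl
  have ht : -(d.r2 * d.p3 * d.c03) ≠ 0 := neg_ne_zero.2 (mul_ne_zero (mul_ne_zero hr hp) hc)
  refine ⟨fun q hq => ?_, ?_⟩
  · simp only [P_ua, List.mem_cons, List.not_mem_nil, or_false] at hq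
    rcases hq with rfl | rfl | rfl | rfl | rfl
    · refine ⟨_, h.w01, k01.init hw (init_of (t := -1) (e := 0) (by simp) (zero_mem _) ?_)⟩
      simp only [mon, Algebra.smul_def, map_neg, map_one]; ring
    · refine ⟨_, h.w013, k013.init hw (init_of (t := -1) (e := 0) (by simp) (zero_mem _) ?_)⟩
      simp only [mon, Algebra.smul_def, map_neg, map_one]; ring
    · refine ⟨_, Submodule.smul_mem _ _ h.w02, k02.init hw (init_of
        (e := (s3 - d.r3 * d.p3 * d.c03) • mon κ 1 1 1 + u3 • mon κ 1 2 0 - s2 • mon κ 0 2 1 -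
          u2 • mon κ 0 3 0) ht ?_ ?_)⟩
      · repeat' first
          | exact mon_gt (by decide)
          | apply sub_mem
          | apply add_mem
          | apply Submodule.smul_mem
      · simp only [mon, Algebra.smul_def, map_sub]; ring
    · refine ⟨_, Submodule.smul_mem _ _ h.w34, k34.init hw (init_of
        (e := s3 • mon κ 0 1 2 + u3 • mon κ 0 2 1) ht ?_ ?_)⟩
      · exact add_mem (Submodule.smul_mem _ _ (mon_gt (by decide)))
          (Submodule.smul_mem _ _ (mon_gt (by decide)))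
      · simp only [mon, Algebra.smul_def]; ring
    · refine ⟨_, Submodule.smul_mem _ _ h.w123, k123.init hw (init_of
        (e := s3 • mon κ 0 2 2 + u3 • mon κ 0 3 1) ht ?_ ?_)⟩
      · exact add_mem (Submodule.smul_mem _ _ (mon_gt (by decide)))
          (Submodule.smul_mem _ _ (mon_gt (by decide)))
      · simp only [mon, Algebra.smul_def]; ring
  · by_cases h2 : d.p2 = 0
    · have h3 : d.p3 + d.r2 ≠ 0 := left_ne_zero_of_mul hD
      have h4 : -s4 ≠ 0 := by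
        rw [e4, h2]
        simpa using ⟨⟨hr, h3⟩, hc⟩
      refine Or.inr ⟨_, Submodule.smul_mem _ _ h.w012, k012.init hw (init_of
        (e := -(u4 • mon κ 0 4 0)) h4 (neg_mem (Submodule.smul_mem _ _ (mon_gt (by decide)))) ?_)⟩
      simp only [h2, mon, Algebra.smul_def, map_neg, mul_zero, zero_mul, map_zero]; ring
    · refine Or.inl ⟨_, Submodule.smul_mem _ _ h.w012, k012.init hw (init_of
        (t := -(d.r2 * d.p2 * d.c03)) (e := -(s4 • mon κ 0 3 1 + u4 • mon κ 0 4 0))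
        (neg_ne_zero.2 (mul_ne_zero (mul_ne_zero hr h2) hc))
        (neg_mem (add_mem (Submodule.smul_mem _ _ (mon_gt (by decide)))
          (Submodule.smul_mem _ _ (mon_gt (by decide))))) ?_)⟩
      simp only [mon, Algebra.smul_def, map_neg]; ring

end Pool.Agent.P.MP_6149fc_ag.V22

end
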