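import Pool.Agent.P.MP_6149fc_ag.V22.IfaceC
import Pool.Agent.P.MP_6149fc_ag.V22.IfaceB
import Pool.Agent.P.MP_6149fc_ag.V22.BaseCert3

section

/-! Step PUB. -/

set_option autoImplicit false
set_option linter.unusedSectionVars false

namespace Pool.Agent.P.MP_6149fc_ag.V22

open Pool.Agent.P.MP_6149fc_ag.V18
open MvPowerSeries (coeff X constantCoeff monomial)
open Matrix

namespace PUBx

variable {κ : Type} [Field κ]

theorem pt {U : ℕ → Submodule κ (PS κ)} {f f' g : PS κ} {k : ℕ} (a b c : ℕ) (t : κ) (e : PS κ)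
    (hf : f ∈ U 1) (h : Ld w1 k f' g) (hf' : f = f') (ht : t ≠ 0)
    (he : e ∈ GtK κ A_u (ex a b c)) (hg : g = t • mon κ a b c + e) : Pt A_u U 1 (ex a b c) :=
  ⟨f, hf, (h.congr hf' rfl).init (by decide) (init_of ht he hg)⟩

theorem gt2 {a b c a1 b1 c1 a2 b2 c2 : ℕ} (s t : κ) (h1 : ltA A_u a b c a1 b1 c1)
    (h2 : ltA A_u a b c a2 b2 c2) :
    s • mon κ a1 b1 c1 + t • mon κ a2 b2 c2 ∈ GtK κ A_u (ex a b c) :=
  add_mem (Submodule.smul_mem _ _ (mon_gt h1)) (Submodule.smul_mem _ _ (mon_gt h2))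

end PUBx

theorem p_PUB (hPU0 : S_PU0) :
    S_PUB := by
  intro κ _ U p d h he hK hD hC hc hp
  obtain ⟨s2, s3, s4, u2, u3, u4, L2, L3, L4, hs3, -⟩ := hPU0 κ (U 1) p d h he hK hD hC
  have hr : d.r2 * d.r3 * d.p2 ≠ 0 := fun e => hD (by rw [Dat.Du, hp]; linear_combination -e)
  have h2 : d.r2 ≠ 0 := left_ne_zero_of_mul (left_ne_zero_of_mul hr)
  have ht : d.r2 * d.p2 * d.c03 ≠ 0 := mul_ne_zero (mul_ne_zero h2 (right_ne_zero_of_mul hr)) hc
  have h3 : s3 ≠ 0 := by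
    rw [hs3, hp, zero_mul, sub_zero, ← mul_assoc]
    exact mul_ne_zero (left_ne_zero_of_mul hr) hc
  rw [hp, mul_zero, zero_mul] at L2 L3
  generalize d.r2 * d.p2 * d.c03 = t at ht L4
  generalize d.Du = D at hD L2 L3 L4
  have lx : Ld w1 1 p.a0 (X 0) := (Ld.X 0).congr hC.1 rfl
  have ly : Ld w1 1 p.a1 (X 1) := (Ld.X 1).congr hC.2.1 rfl
  have lz : Ld w1 1 p.a5 (X 2) := (Ld.X 2).congr hC.2.2 rfl
  have g2 := Ge.of_smul hD L2.ge
  have g3 := Ge.of_smul hD L3.ge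
  have g4 := Ge.of_smul hD L4.ge
  obtain ⟨-, -, -, -, b12, b13, -, b23, b24, -⟩ :=
    h.ge 2 3 3 2 3 3 2 4 3 3 lx.ge ly.ge g2 g3 g4 lz.ge (by decide)
  have l14 : Ld w1 2 p.m14 (X 1 * X 2) := ((ly.mul lz).sub_ge (g4.mul' g2 (by decide))).congr
    h.e14 rfl
  have l34 := (L3.mul lz).sub_ge ((g4.mul' g4 le_rfl).smul D)
  intro q hq
  simp only [P_ub, List.mem_cons, List.not_mem_nil, or_false] at hq
  rcases hq with rfl | rfl | rfl | rfl | rfl | rfl
  · refine PUBx.pt 0 2 0 (-1) 0 h.w01 ((ly.mul ly).neg.add_ge (lx.ge.mul g2)) ?_ (by simp)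
      (zero_mem _) ?_
    · rw [h.e01]; ring
    · simp only [mon, Algebra.smul_def, map_neg, map_one]; ring
  · refine PUBx.pt 0 2 1 (-1) 0 h.w013 (((ly.mul l14).neg.add_ge (lx.ge.mul b24)).add_ge
      (g3.mul' b12 (by decide))) ?_ (by simp) (zero_mem _) ?_
    · rw [h.f013]; ring
    · simp only [mon, Algebra.smul_def, map_neg, map_one]; ring
  · refine PUBx.pt 2 0 1 t (s4 • mon κ 1 1 1 + u4 • mon κ 1 2 0 -
      (s3 • mon κ 0 2 1 + u3 • mon κ 0 3 0)) ((U 1).smul_mem D h.w03) ((lx.mul L4).sub (L3.mul ly))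
      ?_ ht (sub_mem (PUBx.gt2 _ _ (by decide) (by decide)) (PUBx.gt2 _ _ (by decide) (by decide)))
      ?_
    · simp only [h.e03, Algebra.smul_def]; ring
    · simp only [mon, Algebra.smul_def, map_neg, map_zero]; ring
  · refine PUBx.pt 1 2 1 (-t) (-(s4 • mon κ 0 3 1 + u4 • mon κ 0 4 0)) ((U 1).smul_mem D h.w012)
      ((ly.mul (ly.mul L4)).neg.add_ge ((((lx.ge.mul b23).add (ly.ge.mul (g3.mul g2))).add
        (g2.mul b12)).smul D)) ?_ (neg_ne_zero.2 ht)
      (neg_mem (PUBx.gt2 _ _ (by decide) (by decide))) ?_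
    · simp only [h.f012, h.e13, Algebra.smul_def]; ring
    · simp only [mon, Algebra.smul_def, map_neg]; ring
  · refine PUBx.pt 1 1 2 s3 (u3 • mon κ 1 2 1 - (s2 • mon κ 0 2 2 + u2 • mon κ 0 3 1))
      ((U 1).smul_mem D h.w023) (((lx.mul l34).sub (L2.mul l14)).add_ge ((g3.mul b13).smul D)) ?_ h3
      (sub_mem (Submodule.smul_mem _ _ (mon_gt (by decide))) (PUBx.gt2 _ _ (by decide) (by decide)))
      ?_
    · simp only [h.f023, h.e34, Algebra.smul_def]; ring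
    · simp only [mon, Algebra.smul_def, map_neg, map_zero]; ring
  · refine PUBx.pt 0 2 2 s3 (u3 • mon κ 0 3 1) ((U 1).smul_mem D h.w123)
      ((ly.mul l34).add_ge (((g3.mul' b23 (by decide)).sub (g2.mul b24)).smul D)) ?_ h3
      (Submodule.smul_mem _ _ (mon_gt (by decide))) ?_
    · simp only [h.f123, h.e34, Algebra.smul_def]; ring
    · simp only [mon, Algebra.smul_def, map_neg, map_zero]; ring

end Pool.Agent.P.MP_6149fc_ag.V22

end

section

/-! Step PUC. -/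

set_option autoImplicit false
set_option linter.unusedSectionVars false

namespace Pool.Agent.P.MP_6149fc_ag.V22

open Pool.Agent.P.MP_6149fc_ag.V18
open MvPowerSeries (coeff X constantCoeff monomial)
open Matrix

namespace PUCx

variable {κ : Type} [Field κ]

/-- The weights. -/
def w : Fin 3 → ℕ := ![1, 2, 2]

theorem lead {W : Submodule κ (PS κ)} {p : P6 κ} {d : Dat κ} (h : p.Ok W) (e : p.Eqs d)
    (hk : d.K21) (hc : p.C015) (r2 : d.r2 = 0) (p2 : d.p2 ≠ 0) (p3 : d.p3 ≠ 0) (r3 : d.r3 ≠ 0)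
    {b al lam mu : κ} (hb : d.p2 * b = -d.c03) (hal : d.r3 * al = -d.c01)
    (hlam : d.p3 * lam = -(d.p2 * al)) (hmu : d.p3 * mu = -d.c03) {Q : PS κ}
    (hQ : Q = X 0 * b • (X 0 * X 2) - X 1 * X 1) :
    Ld w 3 p.a2 (b • (X 0 * X 2)) ∧ Ld w 4 p.a3 (al • Q) ∧
      Ld w 4 p.a4 (lam • Q + mu • (X 1 * X 2)) := by
  obtain ⟨k1, k2, k3, k4, k5, k6⟩ := hk
  obtain ⟨e0, e1, e2⟩ := e
  simp only [k1, k2, k3, k4, k5, k6, r2, zero_smul, add_zero, zero_add] at e0 e1 e2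
  have l0 : Ld w 1 p.a0 (X 0) := (Ld.X (w := w) 0).congr hc.1 rfl
  have l1 : Ld w 2 p.a1 (X 1) := (Ld.X (w := w) 1).congr hc.2.1 rfl
  have l5 : Ld w 2 p.a5 (X 2) := (Ld.X (w := w) 2).congr hc.2.2 rfl
  have s34 : ∀ n, Ge w n (p.q0 d) → Ge w n (p.q2 d) → Ge w n p.a3 ∧ Ge w n p.a4 := by
    intro n h0 h2
    have g3 : Ge w n p.a3 := Ge.of_smul r3 (h0.neg.congr (by linear_combination e0))
    exact ⟨g3, Ge.of_smul p3 (((g3.smul d.p2).add h2).neg.congr (by linear_combination e2))⟩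
  have s2 : ∀ n, Ge w n p.a3 → Ge w n p.a4 → Ge w n (p.q1 d) → Ge w n p.a2 := fun n g3 g4 h1 =>
    Ge.of_smul p2 ((((g3.smul d.p3).add (g4.smul d.r3)).add h1).neg.congr
      (by linear_combination e1))
  obtain ⟨u0, u1, u2⟩ := h.q_ge (w := w) d (n := 1) (by decide)
  obtain ⟨g3, g4⟩ := s34 2 u0 u2
  have g2 := s2 2 g3 g4 u1
  obtain ⟨b1, b2, b3, b4, b5, b6, b7, b8, b9, b10⟩ :=
    h.ge 3 3 3 3 3 3 3 3 3 3 l0.ge l1.ge g2 g3 g4 l5.ge (by decide)
  obtain ⟨g3, g4⟩ := s34 3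
    ((((((b1.smul _).add (b2.smul _)).add (b3.smul _)).add (b5.smul _)).add (b6.smul _)).add
      (b8.smul _))
    ((((((b5.smul _).add (b6.smul _)).add (b7.smul _)).add (b8.smul _)).add (b9.smul _)).add
      (b10.smul _))
  have g2 := s2 3 g3 g4 ((((((b2.smul _).add ((b3.add b5).smul _)).add ((b4.add b6).smul _)).add
    (b6.smul _)).add ((b7.add b8).smul _)).add (b9.smul _))
  obtain ⟨b1, b2, b3, -, b5, b6, b7, b8, b9, b10⟩ :=
    h.ge 4 4 4 3 4 4 4 4 4 4 l0.ge l1.ge g2 g3 g4 l5.ge (by decide)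
  obtain ⟨g3, g4⟩ := s34 4
    ((((((b1.smul _).add (b2.smul _)).add (b3.smul _)).add (b5.smul _)).add (b6.smul _)).add
      (b8.smul _))
    ((((((b5.smul _).add (b6.smul _)).add (b7.smul _)).add (b8.smul _)).add (b9.smul _)).add
      (b10.smul _))
  have m04 : Ld w 3 p.m04 (X 0 * X 2) :=
    ((l0.mul l5).sub_ge (g4.mul' l1.ge (by decide))).congr h.e04 rfl
  have l2 : Ld w 3 p.a2 (b • (X 0 * X 2)) := by
    refine Ld.of_smul p2 (((m04.smul d.c03).neg.sub_ge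
      ((((((((g3.smul d.p3).add (g4.smul d.r3)).add (b2.smul d.c01)).add
        ((b3.add b5).smul d.c02)).add (b6.smul d.c03)).add (b6.smul d.c12)).add
        ((b7.add b8).smul d.c13)).add (b9.smul d.c23))).congr ?_ ?_)
    · simp only [P6.q1, smul_add] at e1 ⊢
      linear_combination e1
    · rw [smul_smul, hb, neg_smul]
  obtain ⟨-, b2, b3, -, b5, b6, -, b8, b9, b10⟩ :=
    h.ge 4 5 5 3 5 5 4 5 5 5 l0.ge l1.ge g2 g3 g4 l5.ge (by decide)
  have m01 : Ld w 4 p.m01 Q := ((l0.mul l2).sub (l1.mul l1)).congr h.e01 hQ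
  have l3 : Ld w 4 p.a3 (al • Q) := by
    refine Ld.of_smul r3 (((m01.smul d.c01).neg.sub_ge
      (((((b2.smul d.c02).add (b3.smul d.c03)).add (b5.smul d.c12)).add (b6.smul d.c13)).add
        (b8.smul d.c23))).congr ?_ ?_)
    · simp only [P6.q0] at e0
      linear_combination e0
    · rw [smul_smul, hal, neg_smul]
  have m14 : Ld w 4 p.m14 (X 1 * X 2) :=
    ((l1.mul l5).sub_ge (g4.mul' g2 (by decide))).congr h.e14 rfl
  refine ⟨l2, l3, Ld.of_smul p3 ((((l3.smul d.p2).neg.sub (m14.smul d.c03)).sub_ge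
    (((((b5.smul d.c01).add (b6.smul d.c02)).add (b8.smul d.c12)).add (b9.smul d.c13)).add
      (b10.smul d.c23))).congr ?_ ?_)⟩
  · simp only [P6.q2] at e2
    linear_combination e2
  · rw [smul_add, smul_smul, smul_smul, smul_smul, hlam, hmu, neg_smul, neg_smul, sub_eq_add_neg]

end PUCx

open PUCx in
theorem p_PUC :
    S_PUC := by
  intro κ _ U p d h e hk hc c03 c01 r2 p2 p3 r3
  obtain ⟨b, hb⟩ : ∃ b, d.p2 * b = -d.c03 := ⟨_, mul_div_cancel₀ _ p2⟩
  obtain ⟨al, hal⟩ : ∃ al, d.r3 * al = -d.c01 := ⟨_, mul_div_cancel₀ _ r3⟩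
  obtain ⟨lam, hlam⟩ : ∃ lam, d.p3 * lam = -(d.p2 * al) := ⟨_, mul_div_cancel₀ _ p3⟩
  obtain ⟨mu, hmu⟩ : ∃ mu, d.p3 * mu = -d.c03 := ⟨_, mul_div_cancel₀ _ p3⟩
  have b0 : b ≠ 0 := right_ne_zero_of_mul (hb ▸ neg_ne_zero.2 c03)
  have al0 : al ≠ 0 := right_ne_zero_of_mul (hal ▸ neg_ne_zero.2 c01)
  have lam0 : lam ≠ 0 := right_ne_zero_of_mul (hlam ▸ neg_ne_zero.2 (mul_ne_zero p2 al0))
  obtain ⟨l2, l3, l4⟩ := lead h e hk hc r2 p2 p3 r3 hb hal hlam hmu rfl
  have l0 : Ld w 1 p.a0 (X 0) := (Ld.X (w := w) 0).congr hc.1 rfl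
  have l1 : Ld w 2 p.a1 (X 1) := (Ld.X (w := w) 1).congr hc.2.1 rfl
  have l5 : Ld w 2 p.a5 (X 2) := (Ld.X (w := w) 2).congr hc.2.2 rfl
  obtain ⟨-, -, -, -, b5, b6, -, b8, -, -⟩ :=
    h.ge 4 5 5 3 6 6 4 7 5 6 l0.ge l1.ge l2.ge l3.ge l4.ge l5.ge (by decide)
  have m01 := ((l0.mul l2).sub (l1.mul l1)).congr h.e01 rfl
  have m02 := ((l0.mul l3).sub (l2.mul l1)).congr h.e02 rfl
  have m14 := ((l1.mul l5).sub_ge (l4.ge.mul' l2.ge (by decide))).congr h.e14 rfl
  have m24 := ((l2.mul l5).sub_ge (l4.ge.mul' l3.ge (by decide))).congr h.e24 rfl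
  have m34 := ((l3.mul l5).sub_ge (l4.ge.mul' l4.ge (by decide))).congr h.e34 rfl
  have c023 := (((l0.mul m34).sub (l2.mul m14)).add_ge (l3.ge.mul' b6 (by decide))).congr
    h.f023 rfl
  have c123 := (((l1.mul m34).sub (l2.mul m24)).add_ge (l3.ge.mul' b8 (by decide))).congr
    h.f123 rfl
  have c012 := (((l4.mul m01).add_ge (l2.ge.mul' b5 (by decide))).sub_ge
    (l3.ge.mul' m02.ge (by decide))).congr (f' := p.c012)
    (by rw [h.f012, h.e23, h.e13, h.e01, h.e02, h.e12]; ring) rfl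
  have F1 : First (WC 2 1) w := by decide
  have F2 : First (WC 2 (-1)) w := by decide
  refine ⟨fun q hq => ?_, fun q hq => ?_⟩
  · simp only [P_uW, List.mem_cons, List.not_mem_nil, or_false] at hq
    rcases hq with rfl | rfl | rfl | rfl | rfl
    on_goal 1 =>
      refine ⟨_, h.w02, m02.init F1 (init_of (t := -al)
        (e := (al * b) • mon κ 3 0 1 - b • mon κ 1 1 1) (neg_ne_zero.2 al0) ?_ ?_)⟩
    on_goal 3 => refine ⟨_, h.w24, m24.init F1 (init_of (t := b) (e := 0) b0 (zero_mem _) ?_)⟩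
    on_goal 4 =>
      refine ⟨_, h.w023, c023.init F1 (init_of (t := -al)
        (e := (al * b) • mon κ 3 0 2 - b • mon κ 1 1 2) (neg_ne_zero.2 al0) ?_ ?_)⟩
    on_goal 6 =>
      refine ⟨_, h.w012, c012.init F1 (init_of (t := lam)
        (e := (lam * b * b) • mon κ 4 0 2 - (lam * b) • mon κ 2 2 1 - (lam * b) • mon κ 2 2 1 +
          (mu * b) • mon κ 2 1 2 - mu • mon κ 0 3 1) lam0 ?_ ?_)⟩
    on_goal 8 =>
      refine ⟨_, h.w123, c123.init F1 (init_of (t := -al)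
        (e := (al * b) • mon κ 2 1 2 - (b * b) • mon κ 2 0 3) (neg_ne_zero.2 al0) ?_ ?_)⟩
    all_goals first
      | (simp only [mon, Algebra.smul_def, map_neg, map_mul]; ring1)
      | repeat' first
        | exact mon_gt (by decide)
        | apply sub_mem
        | apply add_mem
        | apply Submodule.smul_mem
  · simp only [P_uY, List.mem_cons, List.not_mem_nil, or_false] at hq
    subst hq
    refine ⟨_, h.w012, c012.init F2 (init_of (t := lam * b * b)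
      (e := lam • mon κ 0 4 0 - (lam * b) • mon κ 2 2 1 - (lam * b) • mon κ 2 2 1 +
        (mu * b) • mon κ 2 1 2 - mu • mon κ 0 3 1) (mul_ne_zero (mul_ne_zero lam0 b0) b0) ?_ ?_)⟩
    · repeat' first
        | exact mon_gt (by decide)
        | apply sub_mem
        | apply add_mem
        | apply Submodule.smul_mem
    · simp only [mon, Algebra.smul_def, map_mul]; ring

end Pool.Agent.P.MP_6149fc_ag.V22

end

section

/-! Step LUA. -/

set_option autoImplicit false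
set_option linter.unusedSectionVars false

namespace Pool.Agent.P.MP_6149fc_ag.V22

open Pool.Agent.P.MP_6149fc_ag.V18
open MvPowerSeries (coeff X constantCoeff monomial)
open Matrix

theorem p_LUA (hSIMV : S_SIMV) (hCERTV : S_CERTV) (hPUA : S_PUA) (hPUB : S_PUB) :
    S_LUA := by
  intro κ _ U V p d hC hO hE hK hD hH h1 h2
  have hX : ∀ j, X j ∈ U 1 := by
    intro j
    fin_cases j
    · exact hH.1 ▸ hO.w0
    · exact hH.2.1 ▸ hO.w1
    · exact hH.2.2 ▸ hO.w5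
  by_cases c0 : d.p3 = 0
  · exact hSIMV κ A_u P_ub U V (by decide) (by decide) (c_ub_0 hCERTV) (c_ub_1 hCERTV)
      (c_ub_2 hCERTV) hC hX (hPUB κ U p d hO hE hK hD hH h1 c0)
  · obtain ⟨h3, h4 | h4⟩ := hPUA κ U p d hO hE hK hD hH h1 h2 c0
    · exact hSIMV κ A_u (P_ua ++ [(1, 1, 2, 1)]) U V (by decide) (by decide) (c_ua1_0 hCERTV)
        (c_ua1_1 hCERTV) (c_ua1_2 hCERTV) hC hX
        (List.forall_mem_append.2 ⟨h3, List.forall_mem_singleton.2 h4⟩)
    · exact hSIMV κ A_u (P_ua ++ [(1, 0, 3, 1)]) U V (by decide) (by decide) (c_ua2_0 hCERTV)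
        (c_ua2_1 hCERTV) (c_ua2_2 hCERTV) hC hX
        (List.forall_mem_append.2 ⟨h3, List.forall_mem_singleton.2 h4⟩)

end Pool.Agent.P.MP_6149fc_ag.V22

end

section

/-! Step LUC. -/

set_option autoImplicit false
set_option linter.unusedSectionVars false

namespace Pool.Agent.P.MP_6149fc_ag.V22

open Pool.Agent.P.MP_6149fc_ag.V18
open MvPowerSeries (coeff X constantCoeff monomial)
open Matrix

theorem p_LUC (hWALV : S_WALV) (hCERTV : S_CERTV) (hPUC : S_PUC) :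
    S_LUC := by
  intro κ _ _ U V p d hC hO hE hK hD hH h3 h1 hr
  have hX : ∀ j, X j ∈ U 1 := by
    intro j
    fin_cases j
    · exact hH.1 ▸ hO.w0
    · exact hH.2.1 ▸ hO.w1
    · exact hH.2.2 ▸ hO.w5
  have e2 : d.p2 ≠ 0 := fun e => hD (by rw [Dat.Du, hr, e]; ring)
  have e3 : d.p3 ≠ 0 := fun e => hD (by rw [Dat.Du, hr, e]; ring)
  have f3 : d.r3 ≠ 0 := fun e => hD (by rw [Dat.Du, hr, e]; ring)
  have h4 := hPUC κ U p d hO hE hK hH h3 h1 hr e2 e3 f3
  exact hWALV κ 2 P_uW P_uY (3 / 5) (7 / 5) (3 / 4) U V (Or.inr rfl) (by decide) (by decide)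
    (c_uW_0 hCERTV) (c_uW_1 hCERTV) (c_uW_2 hCERTV) (c_uY_1 hCERTV) (by norm_num) hC hX h4.1 h4.2

end Pool.Agent.P.MP_6149fc_ag.V22

end

section

/-! Step PN0. -/

set_option autoImplicit false
set_option linter.unusedSectionVars false

namespace Pool.Agent.P.MP_6149fc_ag.V22

open Pool.Agent.P.MP_6149fc_ag.V18
open MvPowerSeries (coeff X constantCoeff monomial)
open Matrix

theorem p_PN0 :
    S_PN0 := by
  intro κ _ W p d g h q ⟨z1, z2, z3, z4, z5, z6⟩ z7 ⟨ex', ey, ez⟩ hp hr hs hc hg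
  have q0 : d.r3 • p.a3 = -(d.r4 • p.a4 + p.q0 d) := by
    have := q.h0
    rw [z2, z4, z6] at this
    linear_combination (norm := module) this
  have q1 : d.r4 • p.a5 = -(d.p3 • p.a3 + d.r3 • p.a4 + p.q1 d) := by
    have := q.h1
    rw [z1, z2, z3, z4, z5, z6, z7] at this
    linear_combination (norm := module) this
  have q2 : d.p3 • p.a4 = -p.q2 d := by
    have := q.h2
    rw [z1, z3, z5, z7] at this
    linear_combination (norm := module) this
  have lx : Ld w3 1 p.a0 (X 0) := (Ld.X 0).congr ex' rfl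
  have ly : Ld w3 2 p.a1 (X 1) := (Ld.X 1).congr ey rfl
  have lz : Ld w3 3 p.a2 (X 2) := (Ld.X 2).congr ez rfl
  have step : ∀ n : ℕ, 1 ≤ n → n ≤ 3 → Ge w3 n p.a3 → Ge w3 n p.a4 → Ge w3 n p.a5 →
      Ge w3 (n + 1) p.a3 ∧ Ge w3 (n + 1) p.a4 ∧ Ge w3 (n + 1) p.a5 := by
    intro n n1 n3 g3 g4 g5
    obtain ⟨b1, b2, b3, b4, b5, b6, b7, b8, b9, b10⟩ := h.ge (n + 1) (n + 1) (n + 1) (n + 1)
      (n + 1) (n + 1) (n + 1) (n + 1) (n + 1) (n + 1) lx.ge ly.ge lz.ge g3 g4 g5 (by omega)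
    have t4 : Ge w3 (n + 1) p.a4 := Ge.of_smul hp ((((((((b5.smul _).add (b6.smul _)).add
      (b7.smul _)).add (b8.smul _)).add (b9.smul _)).add (b10.smul _)).neg).congr q2)
    have t3 : Ge w3 (n + 1) p.a3 := Ge.of_smul hr (((t4.smul _).add ((((((b1.smul _).add
      (b2.smul _)).add (b3.smul _)).add (b5.smul _)).add (b6.smul _)).add
      (b8.smul _))).neg.congr q0)
    exact ⟨t3, t4, Ge.of_smul hs ((((t3.smul _).add (t4.smul _)).add ((((((b2.smul _).add
      ((b3.add b5).smul _)).add ((b4.add b6).smul _)).add (b6.smul _)).add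
      ((b7.add b8).smul _)).add (b9.smul _))).neg.congr q1)⟩
  obtain ⟨g3, g4, g5⟩ := step 1 le_rfl (by decide) (Ge.of_const h.k3 (by decide))
    (Ge.of_const h.k4 (by decide)) (Ge.of_const h.k5 (by decide))
  obtain ⟨g3, g4, g5⟩ := step 2 (by decide) (by decide) g3 g4 g5
  obtain ⟨g3, g4, g5⟩ := step 3 (by decide) le_rfl g3 g4 g5
  obtain ⟨-, b2, b3, b4, b5, b6, b7, b8, b9, b10⟩ := h.ge 4 5 5 5 6 6 6 6 6 6
    lx.ge ly.ge lz.ge g3 g4 g5 (by decide)
  have t4 : Ge w3 6 p.a4 := Ge.of_smul hp ((((((((b5.smul _).add (b6.smul _)).add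
    (b7.smul _)).add (b8.smul _)).add (b9.smul _)).add (b10.smul _)).neg).congr q2)
  have m : ∀ {f : PS κ}, Ge w3 6 f → Ge w3 5 f := fun h => h.mono (by decide)
  have l01 : Ld w3 4 p.m01 (bq (X 0) (X 1) (X 2)) :=
    ((lx.mul lz).sub (ly.mul ly)).congr h.e01 (by rw [bq, sq])
  have l3 : Ld w3 4 p.a3 (bq (X 0) (X 1) (X 2)) := Ld.of_smul hr
    (((l01.smul d.r3).sub_ge (((((((m t4).smul d.r4).add (b2.smul d.c02)).add
      (b3.smul d.c03)).add ((m b5).smul d.c12)).add ((m b6).smul d.c13)).add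
      ((m b8).smul d.c23))).congr (by rw [q0, P6.q0, hc]; module) rfl)
  refine ⟨l3, t4, Ld.of_smul hs (((l3.smul (-d.p3)).sub_ge (((m t4).smul d.r3).add
    ((((((b2.smul d.c01).add ((b3.add (m b5)).smul d.c02)).add ((b4.add (m b6)).smul d.c03)).add
      ((m b6).smul d.c12)).add ((m (b7.add b8)).smul d.c13)).add ((m b9).smul d.c23)))).congr
    (by rw [q1, P6.q1]; module) (by rw [smul_smul, mul_comm, hg]))⟩

end Pool.Agent.P.MP_6149fc_ag.V22

end

section

/-! Step PN. -/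

set_option autoImplicit false
set_option linter.unusedSectionVars false

namespace Pool.Agent.P.MP_6149fc_ag.V22

open Pool.Agent.P.MP_6149fc_ag.V18
open MvPowerSeries (coeff X constantCoeff monomial)
open Matrix

theorem p_PN :
    S_PN := by
  intro κ _ U p g hU h ⟨c0, c1, c2⟩ hg l3 g4 l5
  have l0 : Ld w3 1 p.a0 (X 0) := c0 ▸ Ld.X (w := w3) 0
  have l1 : Ld w3 2 p.a1 (X 1) := c1 ▸ Ld.X (w := w3) 1
  have l2 : Ld w3 3 p.a2 (X 2) := c2 ▸ Ld.X (w := w3) 2
  have m12 := ((l1.mul l3).sub (l2.mul l2)).congr h.e12 rfl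
  have m14 := ((l1.mul l5).sub_ge (g4.mul' l2.ge (by decide))).congr h.e14 rfl
  have m02 := ((l0.mul l3).sub (l2.mul l1)).congr h.e02 rfl
  have m04 := ((l0.mul l5).sub_ge (g4.mul' l1.ge (by decide))).congr h.e04 rfl
  have m13 : Ld w3 7 p.m13 _ :=
    ((l3.mul l2).neg.add_ge (l1.ge.mul' g4 (by decide))).congr (h.e13.trans (by ring)) rfl
  have m24 := ((l2.mul l5).sub_ge (g4.mul' l3.ge (by decide))).congr h.e24 rfl
  have m23 : Ld w3 8 p.m23 _ :=
    ((l3.mul l3).neg.add_ge (l2.ge.mul' g4 (by decide))).congr (h.e23.trans (by ring)) rfl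
  have m34 := ((l3.mul l5).sub_ge (g4.mul' g4 (by decide))).congr h.e34 rfl
  have c012 : LdIn w3 9 (U 1) _ :=
    ⟨_, h.w012, (((l0.mul m23).sub (l1.mul m13)).add (l2.mul m12)).congr h.f012 rfl⟩
  have c023 : LdIn w3 9 (U 1) _ := ⟨_, h.w023,
    (((l0.mul m34).sub (l2.mul m14)).add_ge (l3.ge.mul' m13.ge (by decide))).congr h.f023 rfl⟩
  have c123 : LdIn w3 10 (U 1) _ := ⟨_, h.w123,
    (((l1.mul m34).sub (l2.mul m24)).add_ge (l3.ge.mul' m23.ge (by decide))).congr h.f123 rfl⟩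
  have n12 : LdIn w3 6 (U 1) _ := ⟨_, h.w12, m12⟩
  have n14 : LdIn w3 6 (U 1) _ := ⟨_, h.w14, m14⟩
  have n02 : LdIn w3 5 (U 1) _ := ⟨_, h.w02, m02⟩
  have n04 : LdIn w3 5 (U 1) _ := ⟨_, h.w04, m04⟩
  have n24 : LdIn w3 7 (U 1) _ := ⟨_, h.w24, m24⟩
  have s1 := (n12.smul g).sub n14
  have s2 := c023.add (c012.smul g)
  have s3 : LdIn w3 14 (U 2) _ := (n24.mul hU n24).add ((n04.sub (n02.smul g)).mul hU s2)
  refine ⟨fun q hq => ?_, fun q hq => ?_⟩
  · simp only [P_nW, List.mem_cons, List.not_mem_nil, or_false] at hq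
    rcases hq with rfl | rfl | rfl | rfl | rfl
    · refine s1.pt (by decide) (init_of (t := -g) (e := 0) (neg_ne_zero.2 hg) (zero_mem _) ?_)
      simp only [mon, bq, Algebra.smul_def, map_neg]; ring
    · refine c012.pt (by decide) (init_of (t := -1)
        (e := mon κ 2 2 1 + mon κ 2 2 1 - mon κ 3 0 2 + mon κ 1 1 2 + mon κ 1 1 2 - mon κ 0 3 1 -
          mon κ 0 3 1 - mon κ 0 0 3) (by simp) ?_ ?_)
      · repeat' first
          | exact mon_gt (by decide)
          | apply sub_mem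
          | apply add_mem
          | apply Submodule.smul_mem
      · simp only [mon, bq, Algebra.smul_def, map_neg, map_one]; ring
    · refine s2.pt (by decide) (init_of (t := -g) (e := g • (mon κ 1 1 2 - mon κ 0 0 3))
        (neg_ne_zero.2 hg) ?_ ?_)
      · repeat' first
          | exact mon_gt (by decide)
          | apply sub_mem
          | apply add_mem
          | apply Submodule.smul_mem
      · simp only [mon, bq, Algebra.smul_def, map_neg, map_one]; ring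
    · refine c123.pt (by decide) (init_of (t := g)
        (e := g • (mon κ 2 1 2 - mon κ 1 3 1 - mon κ 1 3 1 - mon κ 1 0 3 + mon κ 0 2 2)) hg ?_ ?_)
      · repeat' first
          | exact mon_gt (by decide)
          | apply sub_mem
          | apply add_mem
          | apply Submodule.smul_mem
      · simp only [mon, bq, Algebra.smul_def, map_neg, map_one]; ring
    · refine s3.pt (by decide) (init_of (t := -(g * g))
        (e := (g * g) • (mon κ 2 0 4 - mon κ 0 1 4)) (neg_ne_zero.2 (mul_ne_zero hg hg)) ?_ ?_)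
      · repeat' first
          | exact mon_gt (by decide)
          | apply sub_mem
          | apply add_mem
          | apply Submodule.smul_mem
      · simp only [mon, bq, Algebra.smul_def, map_neg, map_mul]; ring
  · simp only [P_nY, List.mem_cons, List.not_mem_nil, or_false] at hq
    rcases hq with rfl | rfl
    · refine s1.pt (by decide) (init_of (t := -g) (e := 0) (neg_ne_zero.2 hg) (zero_mem _) ?_)
      simp only [mon, bq, Algebra.smul_def, map_neg]; ring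
    · refine c012.pt (by decide) (init_of (t := -1)
        (e := mon κ 2 2 1 + mon κ 2 2 1 - mon κ 1 4 0 + mon κ 1 1 2 + mon κ 1 1 2 - mon κ 0 3 1 -
          mon κ 0 3 1 - mon κ 0 0 3) (by simp) ?_ ?_)
      · repeat' first
          | exact mon_gt (by decide)
          | apply sub_mem
          | apply add_mem
          | apply Submodule.smul_mem
      · simp only [mon, bq, Algebra.smul_def, map_neg, map_one]; ring

end Pool.Agent.P.MP_6149fc_ag.V22

end

section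

/-! Step LN. -/

set_option autoImplicit false
set_option linter.unusedSectionVars false

namespace Pool.Agent.P.MP_6149fc_ag.V22

open Pool.Agent.P.MP_6149fc_ag.V18
open MvPowerSeries (coeff X constantCoeff monomial)
open Matrix

theorem p_LN (hWALV : S_WALV) (hCERTV : S_CERTV) (hPN0 : S_PN0) (hPN : S_PN) :
    S_LN := by
  intro κ _ _ U V p d hc h he hK h4 hC h1 h2 h3 h5
  obtain ⟨ex, ey, ez⟩ := id hC
  have hX : ∀ j, X j ∈ U 1 := fun j => by
    fin_cases j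
    exacts [ex ▸ h.w0, ey ▸ h.w1, ez ▸ h.w2]
  obtain ⟨l1, l2, l3⟩ := hPN0 κ (U 1) p d (-d.p3 / d.r4) h he hK h4 hC h1 h2 h3 h5
    (div_mul_cancel₀ _ h3)
  obtain ⟨a, b⟩ := hPN κ U p _ hc.sys h hC (div_ne_zero (neg_ne_zero.2 h1) h3) l1 l2 l3
  exact hWALV κ 1 P_nW P_nY _ _ _ U V (Or.inl rfl) (by decide) (by decide) (c_nW_0 hCERTV)
    (c_nW_1 hCERTV) (c_nW_2 hCERTV) (c_nY_1 hCERTV) (by norm_num) hc hX a b

end Pool.Agent.P.MP_6149fc_ag.V22

end
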