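import Pool.Agent.P.MP_6149fc_ag.V22.BaseE
import Pool.Agent.P.MP_6149fc_ag.V22.IfaceB

/-! Barycentre certificates for the weighted blow-up. -/

set_option autoImplicit false

namespace Pool.Agent.P.MP_6149fc_ag.V22

open Pool.Agent.P.MP_6149fc_ag.V18

theorem c_fZ_0 (h : S_CERTV) : BaryV (unitP ++ P_fZ) 0 (1) :=
  (h _ _ _
    []
    (0)).1 [([], [(3, 1)]), ([(1, 1)], [(4, 1)])]
    (by decide +kernel)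

theorem c_fZ_1 (h : S_CERTV) : BaryV (unitP ++ P_fZ) 1 (1) :=
  (h _ _ _
    []
    (0)).1 [([], [(3, 1)]), ([(0, 1)], [(5, 1)])]
    (by decide +kernel)

theorem c_fY_0 (h : S_CERTV) : BaryV (unitP ++ P_fY) 0 (1) :=
  (h _ _ _
    []
    (0)).1 [([], [(2, 1)]), ([(3, 1)], [(3, 1)])]
    (by decide +kernel)

theorem c_fY_2 (h : S_CERTV) : BaryV (unitP ++ P_fY) 2 (1) :=
  (h _ _ _
    []
    (0)).1 [([], [(3, 1)]), ([(0, 1)], [(0, 1)])]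
    (by decide +kernel)

theorem c_eT_1 (h : S_CERTV) : BaryV P_eT 1 (1) :=
  (h _ _ _
    []
    (0)).1 [([], []), ([(0, 1)], [(1, 1)])]
    (by decide +kernel)

theorem c_eT_2 (h : S_CERTV) : BaryV P_eT 2 (1) :=
  (h _ _ _
    []
    (0)).1 [([], []), ([(0, 1/6)], [(2, 1)]), ([(0, 1)], [(0, 1)])]
    (by decide +kernel)

theorem c_fP_0 (h : S_CERTV) : BaryV P_fP 0 (6) :=
  (h _ _ _
    [(0, 1, [([], []), ([], [])],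
        [([(0, 1)], [(2, 1/4)]), ([(1, 1/3)], [(1, 1/3)])]),
      (1, 2, [([(0, 1)], [(2, 1/4)]), ([(0, 1)], [(2, 1/4)]), ([(1, 1/3)], [(1, 1/3)])],
        [([(0, 9/10), (4, 1/10)], [(2, 1/2)]), ([(0, 1/2), (1, 1/2)], [(1, 1/2), (2, 1/8)]), ([(1, 2/3)], [(1, 2/3)])]),
      (2, 3, [([(0, 9/10), (4, 1/10)], [(2, 1/2)]), ([(0, 1/2), (1, 1/2)], [(1, 1/2), (2, 1/8)]), ([(1, 2/3)], [(1, 2/3)])],
        [([(0, 4/5), (4, 1/5)], [(2, 3/4)]), ([(1, 1)], [(1, 1)]), ([(1, 1)], [(1, 1)])]),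
      (3, 4, [([(0, 4/5), (4, 1/5)], [(2, 3/4)]), ([(1, 1)], [(1, 1)]), ([(1, 1)], [(1, 1)])],
        [([(0, 7/10), (4, 3/10)], [(2, 1)]), ([(0, 7/10), (4, 3/10)], [(2, 1)]), ([(1, 2/3), (6, 1/3)], [(1, 2/3), (6, 1/3)])]),
      (4, 5, [([(0, 7/10), (4, 3/10)], [(2, 1)]), ([(0, 7/10), (4, 3/10)], [(2, 1)]), ([(1, 2/3), (6, 1/3)], [(1, 2/3), (6, 1/3)])],
        [([(0, 3/5), (4, 2/5)], [(2, 4/5), (3, 1/5)]), ([(0, 39/140), (1, 5/28), (4, 13/70), (6, 5/14)], [(2, 1/2), (6, 1/2)]), ([(1, 1/3), (6, 2/3)], [(1, 1/3), (6, 2/3)])]),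
      (5, 6, [([(0, 3/5), (4, 2/5)], [(2, 4/5), (3, 1/5)]), ([(0, 39/140), (1, 5/28), (4, 13/70), (6, 5/14)], [(2, 1/2), (6, 1/2)]), ([(1, 1/3), (6, 2/3)], [(1, 1/3), (6, 2/3)])],
        [([(0, 1/2), (4, 1/2)], [(2, 3/5), (3, 2/5)]), ([(6, 1)], [(6, 1)]), ([(6, 1)], [(6, 1)])]),
      (6, 7, [([(0, 1/2), (4, 1/2)], [(2, 3/5), (3, 2/5)]), ([(6, 1)], [(6, 1)]), ([(6, 1)], [(6, 1)])],
        [([(0, 2/5), (4, 3/5)], [(2, 2/5), (3, 3/5)]), ([(0, 14/135), (4, 7/45), (5, 10/81), (6, 50/81)], [(3, 1/3), (6, 2/3)]), ([(5, 1/6), (6, 5/6)], [(5, 1/6), (6, 5/6)])]),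
      (7, 8, [([(0, 2/5), (4, 3/5)], [(2, 2/5), (3, 3/5)]), ([(0, 14/135), (4, 7/45), (5, 10/81), (6, 50/81)], [(3, 1/3), (6, 2/3)]), ([(5, 1/6), (6, 5/6)], [(5, 1/6), (6, 5/6)])],
        [([(0, 3/10), (4, 7/10)], [(2, 1/5), (3, 4/5)]), ([(0, 7/40), (4, 49/120), (5, 5/36), (6, 5/18)], [(3, 2/3), (6, 1/3)]), ([(5, 1/3), (6, 2/3)], [(5, 1/3), (6, 2/3)])]),
      (8, 9, [([(0, 3/10), (4, 7/10)], [(2, 1/5), (3, 4/5)]), ([(0, 7/40), (4, 49/120), (5, 5/36), (6, 5/18)], [(3, 2/3), (6, 1/3)]), ([(5, 1/3), (6, 2/3)], [(5, 1/3), (6, 2/3)])],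
        [([(0, 1/5), (4, 4/5)], [(3, 1)]), ([(0, 1/5), (4, 4/5)], [(3, 1)]), ([(5, 1/2), (6, 1/2)], [(5, 1/2), (6, 1/2)])]),
      (9, 10, [([(0, 1/5), (4, 4/5)], [(3, 1)]), ([(0, 1/5), (4, 4/5)], [(3, 1)]), ([(5, 1/2), (6, 1/2)], [(5, 1/2), (6, 1/2)])],
        [([(0, 1/10), (4, 9/10)], [(3, 1/2), (4, 1/2)]), ([(0, 7/90), (4, 7/10), (5, 4/27), (6, 2/27)], [(3, 2/3), (5, 1/3)]), ([(5, 2/3), (6, 1/3)], [(5, 2/3), (6, 1/3)])]),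
      (10, 11, [([(0, 1/10), (4, 9/10)], [(3, 1/2), (4, 1/2)]), ([(0, 7/90), (4, 7/10), (5, 4/27), (6, 2/27)], [(3, 2/3), (5, 1/3)]), ([(5, 2/3), (6, 1/3)], [(5, 2/3), (6, 1/3)])],
        [([(4, 1)], [(4, 1)]), ([(4, 7/15), (5, 4/9), (6, 4/45)], [(3, 1/3), (5, 2/3)]), ([(5, 5/6), (6, 1/6)], [(5, 5/6), (6, 1/6)])])]
    (11)).1 [([(4, 1)], [(4, 1)]), ([(4, 7/15), (5, 4/9), (6, 4/45)], [(3, 1/3), (5, 2/3)]), ([(5, 5/6), (6, 1/6)], [(5, 5/6), (6, 1/6)])]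
    (by decide +kernel)

theorem c_fP_1 (h : S_CERTV) : BaryV P_fP 1 (1) :=
  (h _ _ _
    []
    (0)).1 [([], []), ([(0, 1)], [(2, 1/4)]), ([(0, 7/10), (4, 3/10)], [(2, 1)]), ([(0, 1/5), (4, 4/5)], [(3, 1)]), ([(4, 1)], [(4, 1)])]
    (by decide +kernel)

theorem c_fP_2 (h : S_CERTV) : BaryV P_fP 2 (1) :=
  (h _ _ _
    [(0, 1/3, [([], []), ([(0, 1)], [(1, 1/3)]), ([(1, 1)], [(1, 1)]), ([(1, 1)], [(1, 1)])],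
        [([(2, 1/3)], [(2, 1/3)]), ([(0, 5/6), (4, 1/6)], [(1, 4/9), (2, 1/3)]), ([(0, 25/42), (1, 2/21), (4, 5/42), (6, 4/21)], [(1, 2/3), (2, 1/3)]), ([(1, 1/3), (6, 2/3)], [(1, 1/3), (6, 2/3)])]),
      (1/3, 2/3, [([(2, 1/3)], [(2, 1/3)]), ([(0, 5/6), (4, 1/6)], [(1, 4/9), (2, 1/3)]), ([(1, 1/3), (6, 2/3)], [(1, 1/3), (6, 2/3)]), ([(1, 1/3), (6, 2/3)], [(1, 1/3), (6, 2/3)]), ([(1, 1/3), (6, 2/3)], [(1, 1/3), (6, 2/3)])],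
        [([(2, 2/3)], [(2, 2/3)]), ([(0, 2/3), (4, 1/3)], [(1, 1/5), (2, 8/15), (6, 4/15)]), ([(0, 8/21), (4, 4/21), (5, 1/21), (6, 8/21)], [(2, 1/3), (6, 2/3)]), ([(0, 2/21), (4, 1/21), (5, 2/21), (6, 16/21)], [(3, 1/9), (6, 8/9)]), ([(5, 1/9), (6, 8/9)], [(5, 1/9), (6, 8/9)])]),
      (2/3, 1, [([(2, 2/3)], [(2, 2/3)]), ([(0, 2/5), (2, 4/15), (4, 1/5)], [(1, 1/3), (2, 2/3)]), ([(0, 2/3), (4, 1/3)], [(1, 1/5), (2, 8/15), (6, 4/15)]), ([(0, 2/21), (4, 1/21), (5, 2/21), (6, 16/21)], [(3, 1/9), (6, 8/9)]), ([(5, 1/9), (6, 8/9)], [(5, 1/9), (6, 8/9)])],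
        [([(2, 1)], [(2, 1)]), ([(2, 1)], [(2, 1)]), ([(0, 1/2), (4, 1/2)], [(2, 1/3), (3, 2/9), (6, 4/9)]), ([(0, 1/4), (4, 1/4), (5, 1/6), (6, 1/3)], [(3, 1/3), (6, 2/3)]), ([(5, 1/3), (6, 2/3)], [(5, 1/3), (6, 2/3)])]),
      (1, 4/3, [([(2, 1)], [(2, 1)]), ([(0, 1/2), (4, 1/2)], [(2, 1/3), (3, 2/9), (6, 4/9)]), ([(0, 1/4), (4, 1/4), (5, 1/6), (6, 1/3)], [(3, 1/3), (6, 2/3)]), ([(5, 1/3), (6, 2/3)], [(5, 1/3), (6, 2/3)])],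
        [([(2, 2/3), (3, 1/3)], [(2, 2/3), (3, 1/3)]), ([(0, 1/3), (4, 2/3)], [(3, 5/9), (6, 4/9)]), ([(0, 1/3), (4, 2/3)], [(3, 5/9), (6, 4/9)]), ([(5, 5/9), (6, 4/9)], [(5, 5/9), (6, 4/9)])]),
      (4/3, 5/3, [([(2, 2/3), (3, 1/3)], [(2, 2/3), (3, 1/3)]), ([(0, 1/3), (4, 2/3)], [(3, 5/9), (6, 4/9)]), ([(0, 1/3), (4, 2/3)], [(3, 5/9), (6, 4/9)]), ([(5, 5/9), (6, 4/9)], [(5, 5/9), (6, 4/9)])],
        [([(2, 1/3), (3, 2/3)], [(2, 1/3), (3, 2/3)]), ([(0, 1/12), (2, 1/6), (3, 1/3), (4, 5/12)], [(3, 7/9), (6, 2/9)]), ([(0, 1/6), (4, 5/6)], [(3, 4/9), (5, 1/3), (6, 2/9)]), ([(5, 7/9), (6, 2/9)], [(5, 7/9), (6, 2/9)])]),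
      (5/3, 2, [([(2, 1/3), (3, 2/3)], [(2, 1/3), (3, 2/3)]), ([(0, 1/12), (2, 1/6), (3, 1/3), (4, 5/12)], [(3, 7/9), (6, 2/9)]), ([(0, 1/6), (4, 5/6)], [(3, 4/9), (5, 1/3), (6, 2/9)]), ([(5, 7/9), (6, 2/9)], [(5, 7/9), (6, 2/9)])],
        [([(3, 1)], [(3, 1)]), ([(3, 1)], [(3, 1)]), ([(4, 1)], [(3, 1/3), (5, 2/3)]), ([(5, 1)], [(5, 1)])])]
    (2)).1 [([(3, 1)], [(3, 1)]), ([(4, 1)], [(3, 1/3), (5, 2/3)]), ([(5, 1)], [(5, 1)])]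
    (by decide +kernel)

theorem c_fL11a_1 (h : S_CERTV) : BaryV P_fL11a 1 (1) :=
  (h _ _ _
    []
    (0)).1 [([], []), ([(0, 3/22)], [(2, 1)]), ([(0, 1)], [(0, 1)])]
    (by decide +kernel)

theorem c_fL11a_2 (h : S_CERTV) : BaryV P_fL11a 2 (1) :=
  (h _ _ _
    []
    (0)).1 [([], []), ([(0, 1/11)], [(1, 1)]), ([(0, 1)], [(0, 1)])]
    (by decide +kernel)

theorem c_fL11b_1 (h : S_CERTV) : BaryV P_fL11b 1 (1) :=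
  (h _ _ _
    []
    (0)).1 [([], []), ([(0, 3/11)], [(2, 1)]), ([(0, 1)], [(0, 1)])]
    (by decide +kernel)

theorem c_fL11b_2 (h : S_CERTV) : BaryV P_fL11b 2 (1) :=
  (h _ _ _
    []
    (0)).1 [([], []), ([(0, 1/11)], [(1, 1)]), ([(0, 1)], [(0, 1)])]
    (by decide +kernel)

theorem c_fL12a_1 (h : S_CERTV) : BaryV P_fL12a 1 (1) :=
  (h _ _ _
    []
    (0)).1 [([], []), ([(0, 1/8)], [(2, 1)]), ([(0, 1)], [(0, 1)])]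
    (by decide +kernel)

theorem c_fL12a_2 (h : S_CERTV) : BaryV P_fL12a 2 (1) :=
  (h _ _ _
    []
    (0)).1 [([], []), ([(0, 1/12)], [(1, 1)]), ([(0, 1)], [(0, 1)])]
    (by decide +kernel)

theorem c_fL12b_1 (h : S_CERTV) : BaryV P_fL12b 1 (1) :=
  (h _ _ _
    []
    (0)).1 [([], []), ([(0, 1/4)], [(2, 1)]), ([(0, 1)], [(0, 1)])]
    (by decide +kernel)

theorem c_fL12b_2 (h : S_CERTV) : BaryV P_fL12b 2 (1) :=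
  (h _ _ _
    []
    (0)).1 [([], []), ([(0, 1/12)], [(1, 1)]), ([(0, 1)], [(0, 1)])]
    (by decide +kernel)

end Pool.Agent.P.MP_6149fc_ag.V22
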