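import Pool.Agent.P.MP_6149fc_ag.V22.IfaceE
import Pool.Agent.P.MP_6149fc_ag.V18.StepPtE
import Pool.Agent.P.MP_6149fc_ag.V22.IfaceB
import Pool.Agent.P.MP_6149fc_ag.V22.BaseCertE
import Pool.Agent.P.MP_6149fc_ag.V18.StepLoc

section

/-! Step PE3. -/

set_option autoImplicit false
set_option linter.unusedSectionVars false

namespace Pool.Agent.P.MP_6149fc_ag.V22

open Pool.Agent.P.MP_6149fc_ag.V18
open MvPowerSeries (coeff X constantCoeff monomial)

open MvPowerSeries (C smul_eq_C_mul) in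
theorem p_PE3 :
    S_PE3 := by
  intro κ _ U p d h q ⟨z1, z2, z3, z4, z5, z6⟩ z7 hc hr hp hs ex' ey ez
  have q0 : d.r3 • p.a3 = -(d.r4 • p.a4 + p.q0 d) := by
    have := q.h0
    rw [z2, z4, z6] at this
    linear_combination (norm := module) this
  have q1 : (d.p4 + d.r3) • p.a4 = -(d.r4 • p.a5 + p.q1 d) := by
    have := q.h1
    rw [z1, z2, z3, z4, z5, z6, z7] at this
    linear_combination (norm := module) this
  have q2 : d.p4 • p.a5 = -p.q2 d := by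
    have := q.h2
    rw [z1, z3, z5, z7] at this
    linear_combination (norm := module) this
  have lx : Ld w3 1 p.a0 (X 0) := (Ld.X 0).congr ex' rfl
  have ly : Ld w3 2 p.a1 (X 1) := (Ld.X 1).congr ey rfl
  have lz : Ld w3 3 p.a2 (X 2) := (Ld.X 2).congr ez rfl
  have step : ∀ n3 n4 n5 k3 k4 k5 : ℕ, Ge w3 n3 p.a3 → Ge w3 n4 p.a4 → Ge w3 n5 p.a5 →
      (k3 ≤ k4 ∧ k4 ≤ k5 ∧ k3 ≤ 4 ∧ k4 ≤ 5 ∧ k5 ≤ 6 ∧ k4 ≤ 1 + n3 ∧ k4 ≤ 1 + n4 ∧ k4 ≤ 1 + n5 ∧
        k5 ≤ 2 + n3 ∧ k5 ≤ 2 + n4 ∧ k5 ≤ 2 + n5 ∧ k5 ≤ n3 + n3 ∧ k5 ≤ n4 + n3 ∧ k5 ≤ n3 + n5 ∧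
        k5 ≤ n4 + n4) → Ge w3 k3 p.a3 ∧ Ge w3 k4 p.a4 ∧ Ge w3 k5 p.a5 := by
    intro n3 n4 n5 k3 k4 k5 g3 g4 g5 hk
    obtain ⟨b1, b2, b3, b4, b5, b6, b7, b8, b9, b10⟩ := h.ge k3 k4 k4 k4 k5 k5 k5 k5 k5 k5
      lx.ge ly.ge lz.ge g3 g4 g5 (by omega)
    have t5 : Ge w3 k5 p.a5 := Ge.of_smul hp ((((((((b5.smul _).add (b6.smul _)).add
      (b7.smul _)).add (b8.smul _)).add (b9.smul _)).add (b10.smul _)).neg).congr q2)
    have a := hk.1
    have b := hk.2.1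
    have t4 : Ge w3 k4 p.a4 := Ge.of_smul hs ((((t5.mono b).smul _).add ((((((b2.smul _).add
      ((b3.add (b5.mono b)).smul _)).add ((b4.add (b6.mono b)).smul _)).add
      ((b6.mono b).smul _)).add (((b7.add b8).mono b).smul _)).add
      ((b9.mono b).smul _))).neg.congr q1)
    exact ⟨Ge.of_smul hr ((((t4.mono a).smul _).add ((((((b1.smul _).add
      ((b2.mono a).smul _)).add ((b3.mono a).smul _)).add ((b5.mono (a.trans b)).smul _)).add
      ((b6.mono (a.trans b)).smul _)).add ((b8.mono (a.trans b)).smul _))).neg.congr q0), t4, t5⟩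
  obtain ⟨g3, g4, g5⟩ := step 1 1 1 2 2 2 (Ge.of_const h.k3 (by decide))
    (Ge.of_const h.k4 (by decide)) (Ge.of_const h.k5 (by decide)) (by decide)
  obtain ⟨g3, g4, g5⟩ := step 2 2 2 3 3 3 g3 g4 g5 (by decide)
  obtain ⟨g3, g4, g5⟩ := step 3 3 3 4 4 4 g3 g4 g5 (by decide)
  obtain ⟨g3, g4, g5⟩ := step 4 4 4 4 5 6 g3 g4 g5 (by decide)
  obtain ⟨-, b2, b3, b4, b5, b6, b7, b8, b9, b10⟩ := h.ge 4 5 6 7 6 7 8 8 9 10
    lx.ge ly.ge lz.ge g3 g4 g5 (by decide)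
  have m : ∀ {k l : ℕ} {g : PS κ}, Ge w3 k g → ∀ c : κ, l ≤ k → Ge w3 l (c • g) :=
    fun g c a => (g.mono a).smul c
  have l01 : Ld w3 4 p.m01 (bq (X 0) (X 1) (X 2)) :=
    ((lx.mul lz).sub (ly.mul ly)).congr h.e01 (by rw [bq, sq])
  have l3 : Ld w3 4 p.a3 (bq (X 0) (X 1) (X 2)) := Ld.of_smul hr
    (((l01.smul d.r3).sub_ge ((((((m g4 d.r4 (by decide)).add (m b2 d.c02 (by decide))).add (m b3 d.c03 (by decide))).add
      (m b5 d.c12 (by decide))).add (m b6 d.c13 (by decide))).add (m b8 d.c23 (by decide)))).congr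
      (by rw [q0, P6.q0, hc]; module) rfl)
  have l02 : Ld w3 5 p.m02 (bH (X 0) (X 1) (X 2)) :=
    ((lx.mul l3).sub (lz.mul ly)).congr h.e02 (by rw [bH, mul_comm (X 1)])
  have l12 : Ld w3 6 p.m12 (bK (X 0) (X 1) (X 2)) :=
    ((ly.mul l3).sub (lz.mul lz)).congr h.e12 (by rw [bK, sq])
  have l4 : Ld w3 5 p.a4 (C (d.r3 / (d.p4 + d.r3)) * bH (X 0) (X 1) (X 2)) := Ld.of_smul hs
    (((l02.smul d.r3).sub_ge ((((((m g5 d.r4 (by decide)).add (m (b3.add b5) d.c02 (by decide))).add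
      (m (b4.add b6) d.c03 (by decide))).add (m b6 d.c12 (by decide))).add (m (b7.add b8) d.c13 (by decide))).add (m b9 d.c23 (by decide)))).congr
      (by rw [q1, P6.q1, hc]; module)
      (by rw [← smul_eq_C_mul, smul_smul, mul_div_cancel₀ _ hs]))
  have l5 : Ld w3 6 p.a5 (C (d.r3 / d.p4) * bK (X 0) (X 1) (X 2)) := Ld.of_smul hp
    (((l12.smul d.r3).sub_ge (((((m b6 d.c02 (by decide)).add (m b7 d.c03 (by decide))).add (m b8 d.c12 (by decide))).add
      (m b9 d.c13 (by decide))).add (m b10 d.c23 (by decide)))).congr (by rw [q2, P6.q2, hc]; module)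
      (by rw [← smul_eq_C_mul, smul_smul, mul_div_cancel₀ _ hp]))
  have l03 := ((lx.mul l4).sub (l3.mul ly)).congr h.e03 rfl
  have l13 := ((ly.mul l4).sub (l3.mul lz)).congr h.e13 rfl
  have l14 := ((ly.mul l5).sub (l4.mul lz)).congr h.e14 rfl
  have l23 := ((lz.mul l4).sub (l3.mul l3)).congr h.e23 rfl
  have l24 := ((lz.mul l5).sub (l4.mul l3)).congr h.e24 rfl
  have l34 := ((l3.mul l5).sub (l4.mul l4)).congr h.e34 rfl
  have gr : ∀ {k : ℕ} {f g : PS κ}, f ∈ U 1 → Ld w3 k f g → g ∈ Gr w3 U 1 :=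
    fun hf l => LdIn.gr ⟨_, hf, l⟩
  exact ⟨gr h.w0 lx, gr h.w1 ly, gr h.w2 lz, gr h.w3 l3, gr h.w02 l02, gr h.w12 l12,
    gr h.w03 l03, gr h.w14 l14,
    gr h.w012 ((((lx.mul l23).sub (ly.mul l13)).add (lz.mul l12)).congr h.f012 rfl),
    gr h.w013 ((((lx.mul l24).sub (ly.mul l14)).add (l3.mul l12)).congr h.f013 rfl),
    gr h.w023 ((((lx.mul l34).sub (lz.mul l14)).add (l3.mul l13)).congr h.f023 rfl),
    gr h.w123 ((((ly.mul l34).sub (lz.mul l24)).add (l3.mul l23)).congr h.f123 rfl)⟩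

end Pool.Agent.P.MP_6149fc_ag.V22

end

section

/-! Step PTE1. -/

set_option autoImplicit false
set_option linter.unusedSectionVars false

namespace Pool.Agent.P.MP_6149fc_ag.V22

open Pool.Agent.P.MP_6149fc_ag.V18
open MvPowerSeries (coeff X constantCoeff monomial)

namespace PTE1x

variable {κ : Type} [Field κ] {e f : κ} {U : ℕ → Submodule κ (PS κ)}

theorem yz (r : EF e f) (h : E3in e f (U 1) (X 0) (X 1) (X 2)) :
    Pt AZ U 1 (ex 0 0 4) ∧ Pt AZ U 1 (ex 0 1 3) ∧ Pt AZ U 1 (ex 1 0 3) ∧ Pt AY U 1 (ex 0 6 0) := by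
  refine ⟨
      ptL h.h123 r.hf [(1, 1, 3), (0, 3, 2), (3, 0, 3), (2, 2, 2), (1, 4, 1), (4, 1, 2), (0, 6,
        0), (3, 3, 1), (2, 5, 0)] [-2 * f - 2 * e, 2 * f + 2 * e - e ^ 2, -1 + 2 * e, 3 + f - 4
        * e + 2 * e ^ 2, -3 - 2 * f + 2 * e - 2 * e ^ 2, -e ^ 2, 1 + f, 2 * e ^ 2, -e ^ 2] (by
        decide) ?_,
      ptL h.h023 r.sub [(2, 0, 3), (1, 2, 2), (0, 4, 1), (3, 1, 2), (2, 3, 1), (5, 0, 2), (1, 5,
        0), (4, 2, 1), (3, 4, 0)] [-1 - f + e, 2 - 2 * e - e ^ 2, -1 + f + e, f + e + 2 * e ^ 2,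
        -2 * f - 2 * e - 2 * e ^ 2, -e ^ 2, f + e, 2 * e ^ 2, -e ^ 2] (by decide) ?_,
      ptL h.h013 (neg_ne_zero.2 r.succ) [(0, 2, 2), (2, 1, 2), (1, 3, 1), (4, 0, 2), (0, 5, 0),
        (3, 2, 1), (2, 4, 0)] [1 + f - e, 1 + f + 2 * e, -2 - 2 * f - 2 * e, -e, 1 + f, 2 * e,
        -e] (by decide) ?_,
      ptL h.h123 r.succ [(0, 3, 2), (1, 4, 1), (2, 5, 0), (0, 0, 4), (1, 1, 3), (2, 2, 2), (3,
        3, 1), (3, 0, 3), (4, 1, 2)] [2 * f + 2 * e - e ^ 2, -3 - 2 * f + 2 * e - 2 * e ^ 2, -e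
        ^ 2, f, -2 * f - 2 * e, 3 + f - 4 * e + 2 * e ^ 2, 2 * e ^ 2, -1 + 2 * e, -e ^ 2] (by
        decide) ?_⟩ <;>
    simp only [List.zipWith_cons_cons, List.zipWith_nil_left, List.sum_cons, List.sum_nil, mon,
      n012, n013, n023, n123, n03, n13, n14, n23, n24, n34, bK, bH, bq,
      MvPowerSeries.smul_eq_C_mul, map_add, map_sub, map_mul, map_neg, map_pow, map_one,
      map_ofNat] <;> ring

theorem pp (hU : Sys U) (r : EF e f)
    (h : E3in e f (U 1) (X 0) (X 0 ^ 2 * X 1) (X 0 ^ 3 * (X 2 + X 1 ^ 2))) :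
    Pt AP2 U 1 (ex 1 0 0) ∧ Pt AP2 U 1 (ex 3 2 0) ∧ Pt AP2 U 1 (ex 4 0 1) ∧
      Pt AP2 U 1 (ex 9 0 2) ∧ Pt AP2 U 1 (ex 11 0 2) ∧ Pt AP2 U 1 (ex 12 1 2) ∧
      Pt AP2 U 2 (ex 12 5 1) ∧ Pt AP2 U 5 (ex 4 0 0) ∧ Pt AP2 U 5 (ex 5 0 0) ∧
      Pt AP2 U 5 (ex 4 1 0) ∧ Pt AP2 U 5 (ex 4 0 1) := by
  have o : (1 : κ) ≠ 0 := one_ne_zero
  have e2 : -e ^ 2 ≠ 0 := neg_ne_zero.2 (pow_ne_zero 2 r.he)
  have l2 := sub_mem (Submodule.smul_mem _ (f - e) (hU.mul _ _ _ _ h.hz h.h012))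
    (Submodule.smul_mem _ (e - 1) (hU.mul _ _ _ _ h.hq h.h14))
  have x2 := hU.mul _ _ _ _ h.hx h.hx
  have x4 := hU.mul _ _ _ _ x2 x2
  refine ⟨
      ptL h.hx o [] [] (by decide) ?_,
      ptL h.hz o [(3, 0, 1)] [1] (by decide) ?_,
      ptL h.hq o [] [] (by decide) ?_,
      ptL h.h012 r.one [(9, 3, 1), (9, 6, 0), (9, 1, 2), (9, 4, 1), (9, 2, 2), (9, 0, 3)] [2 -
        e, -1, 2 - e, -3, -3, -1] (by decide) ?_,
      ptL h.h023 e2 [(11, 3, 1), (11, 6, 0), (11, 1, 2), (11, 4, 1), (11, 7, 0), (11, 2, 2),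
        (11, 5, 1), (11, 0, 3), (11, 3, 2), (11, 1, 3)] [2 * e ^ 2, -e ^ 2, f + e + 2 * e ^ 2,
        -2 * f - 2 * e ^ 2, f - e, -1 - 3 * f + e - e ^ 2, 3 * f - 3 * e, -1 - f + e, 3 * f - 3
        * e, f - e] (by decide) ?_,
      ptL h.h123 e2 [(12, 4, 1), (12, 7, 0), (12, 2, 2), (12, 5, 1), (12, 0, 3), (12, 8, 0),
        (12, 3, 2), (12, 6, 1), (12, 1, 3), (12, 4, 2), (12, 2, 3), (12, 0, 4)] [2 * e ^ 2, -e ^
        2, f + 2 * e + 2 * e ^ 2, -2 * f - 2 * e - 2 * e ^ 2, -1 + 2 * e, f, -4 * f - 4 * e - e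
        ^ 2, 4 * f, -2 * f - 2 * e, 6 * f, 4 * f, f] (by decide) ?_,
      ptL l2 r.sub [(12, 0, 3), (12, 8, 0), (12, 3, 2), (12, 6, 1), (12, 1, 3), (12, 4, 2), (12,
        2, 3), (12, 0, 4)] [-f + e * f, -f + e, 2 * f - 2 * e, -4 * f + 4 * e, f - e, -6 * f + 6
        * e, -4 * f + 4 * e, -f + e] (by decide) ?_,
      ptL (hU.pad x4 (by norm_num)) o [] [] (by decide) ?_,
      ptL (hU.mul _ _ _ _ x4 h.hx) o [] [] (by decide) ?_,
      ptL (hU.pad (hU.mul _ _ _ _ x2 h.hy) (by norm_num)) o [] [] (by decide) ?_,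
      ptL (hU.pad h.hq (by norm_num)) o [] [] (by decide) ?_⟩ <;>
    simp only [List.zipWith_cons_cons, List.zipWith_nil_left, List.sum_cons, List.sum_nil, mon,
      n012, n013, n023, n123, n03, n13, n14, n23, n24, n34, bK, bH, bq,
      MvPowerSeries.smul_eq_C_mul, map_add, map_sub, map_mul, map_neg, map_pow, map_one,
      map_ofNat] <;> ring

end PTE1x

theorem p_PTE1 :
    S_PTE1 := by
  intro κ _ e f U hU r
  refine ⟨fun h => ?_, fun h => ?_⟩
  · obtain ⟨a, b, c, d⟩ := PTE1x.yz r h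
    simp only [Pts, P_fZ, P_fY, List.forall_mem_cons, List.not_mem_nil, false_imp_iff,
      implies_true, and_true]
    exact ⟨⟨a, b, c⟩, d⟩
  · obtain ⟨a1, a2, a3, a4, a5, a6, a7, g0, g1, g2, g3⟩ := PTE1x.pp hU r h
    refine ⟨⟨5, _, by norm_num, le_rfl, g0, fun i => ?_⟩, ?_⟩
    · fin_cases i
      · convert g1 using 1
        exact ex_ext (by simp) (by simp) (by simp)
      · convert g2 using 1
        exact ex_ext (by simp) (by simp) (by simp)
      · convert g3 using 1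
        exact ex_ext (by simp) (by simp) (by simp)
    · simp only [Pts, P_fP, List.forall_mem_cons, List.not_mem_nil, false_imp_iff,
        implies_true, and_true]
      exact ⟨a1, a2, a3, a4, a5, a6, a7⟩

end Pool.Agent.P.MP_6149fc_ag.V22

end

section

/-! Step PTE2. -/

set_option autoImplicit false
set_option linter.unusedSectionVars false

namespace Pool.Agent.P.MP_6149fc_ag.V22

open Pool.Agent.P.MP_6149fc_ag.V18
open MvPowerSeries (coeff X constantCoeff monomial)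

namespace PTE2x

variable {κ : Type} [Field κ] {e f : κ} {U : ℕ → Submodule κ (PS κ)}

theorem sq {u v : κ} (hu : u ≠ 0) (h : u * v ^ 2 = 0) : v = 0 :=
  pow_eq_zero_iff two_ne_zero |>.1 ((mul_eq_zero.1 h).resolve_left hu)

theorem core {c d q u v K A B : κ} (he : e ≠ 0) (hf : f ≠ 0) (hK : K = c * q - d ^ 2)
    (eA : A = 1 * (d * u - q * q) - c * (c * u - q * d) + d * K)
    (eB : B = 1 * (d * v - u * q) - c * (c * v - u * d) + q * K)
    (h1 : 1 * (q * v - u * u) - d * (c * v - u * d) + q * (c * u - q * d) = 0)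
    (h2 : c * (q * v - u * u) - d * (d * v - u * q) + q * (d * u - q * q) = 0)
    (i14 : c * v - u * d = f * (d * u - q * q)) (i24 : d * v - u * q = f * A)
    (i34 : q * v - u * u = e * B) (hv : v = f * K) : u = 0 ∧ q = 0 := by
  have k0 : d * B = q * A := by rw [eA, eB, hK]; linear_combination c * h1 - h2
  have k1 : q * B = u * A := by rw [eA, eB, hK]; linear_combination d * h1 - c * h2
  have k2 : u * B = v * A := by rw [eA, eB, hK]; linear_combination q * h1 - d * h2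
  have a0 : A = 0 := sq hf (by linear_combination -A * i24 - d * k2 + u * k0)
  have b0 : B = 0 := sq he (by linear_combination -B * i34 + v * k1 - u * k2)
  rw [a0, mul_zero] at i24
  rw [b0, mul_zero] at i34
  have m0 : d * u - q * q = 0 := sq hf (by
    linear_combination -(d * u - q * q) * i14 + (c * u - d * q) * i24 + (d * d - c * q) * i34)
  have u0 : u = 0 := sq one_ne_zero (by
    linear_combination -i34 + q * hv + f * (b0 - eB - i24 + c * i14 + c * f * m0))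
  exact ⟨u0, sq one_ne_zero (by linear_combination d * u0 - m0)⟩

theorem alg {c d : κ} (r : EF e f) (h1 : n023 e f 1 c d = 0) (h2 : n123 e f 1 c d = 0) :
    c = 0 ∧ d = 0 := by
  obtain ⟨u0, q0⟩ := core (u := e * bH 1 c d) (v := f * bK 1 c d) (q := bq 1 c d)
    (A := n012 e 1 c d) (B := n013 e f 1 c d) r.he r.hf rfl rfl rfl h1 h2
    (by linear_combination (norm := (simp only [bK, bH, bq]; ring1)) d * bH 1 c d * r.rel)
    (by
      linear_combination (norm := (simp only [n012, n23, n13, bK, bH, bq]; ring1))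
        bq 1 c d * bH 1 c d * r.rel)
    (by
      linear_combination (norm := (simp only [n013, n24, n14, bK, bH, bq]; ring1))
        bq 1 c d * bK 1 c d * r.rel) rfl
  have h0 := (mul_eq_zero.1 u0).resolve_left r.he
  simp only [bH, bq] at h0 q0
  have c0 : c = 0 := pow_eq_zero_iff three_ne_zero |>.1
    (by linear_combination (1 - c) * q0 - h0)
  exact ⟨c0, by linear_combination q0 + c * c0⟩

theorem tt (hA : Adm lexA) (hU : Sys U) {c : κ} (hc : c ≠ 0)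
    (h : E3in e f (U 1) (thT c 0) (thT c 1) (thT c 2)) : Gen lexA U ∧ Pts lexA U P_eT := by
  obtain ⟨W, hW⟩ : ∃ W : PS κ, W = MvPowerSeries.C c + X 2 := ⟨_, rfl⟩
  have hWc : constantCoeff W = c := by simp [hW]
  have ex' : thT c 0 = X 0 * X 1 := rfl
  have ey : thT c 1 = X 0 ^ 2 * W := by rw [hW]; rfl
  have ez : thT c 2 = X 0 ^ 3 * W := by rw [hW]; rfl
  rw [ex', ey, ez] at h
  have hC : MvPowerSeries.C c = W - X 2 := by rw [hW, add_sub_cancel_right]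
  have p600 : Pt lexA U 1 (ex 6 0 0) := by
    refine ⟨_, h.h03, PTTx.key hA (u := W ^ 3) (a' := 6) (b' := 1) (c' := 0)
      (r := e • (X 1 * (X 1 * W - W ^ 2) - W ^ 2) - W ^ 2) (by simp [hWc, hc]) (by decide) ?_⟩
    simp only [mon, n03, bH, bq, MvPowerSeries.smul_eq_C_mul]; ring
  have p601 : Pt lexA U 1 (ex 6 0 1) := by
    refine ⟨_, add_mem (Submodule.smul_mem _ c h.hK) (Submodule.smul_mem _ (c + 1) h.h03),
      PTTx.key hA (u := W ^ 2) (a' := 6) (b' := 1) (c' := 0)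
      (r := c • W ^ 2 + (c + 1) • (e • (X 1 * (X 1 * W - W ^ 2) - W ^ 2) - W ^ 2))
      (by simp [hWc, hc]) (by decide) ?_⟩
    simp only [mon, n03, bH, bq, bK, MvPowerSeries.smul_eq_C_mul, map_add, map_one, hC]; ring
  have p110 : Pt lexA U 1 (ex 1 1 0) :=
    ⟨_, h.hx, (init_mon 1 1 0).congr (by simp [mon])⟩
  have p700 : Pt lexA U 2 (ex 7 0 0) := by
    refine ⟨_, hU.mul 1 1 _ _ h.hz h.hq, PTTx.key hA (u := -W ^ 3) (a' := 7) (b' := 1) (c' := 0)
      (r := W ^ 2) (by simp [hWc, hc]) (by decide) ?_⟩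
    simp only [mon, bq]; ring
  have p610 : Pt lexA U 2 (ex 6 1 0) := by
    refine ⟨_, hU.mul 1 1 _ _ h.hx h.hH, PTTx.key hA (u := -W ^ 2) (a' := 6) (b' := 2) (c' := 0)
      (r := X 1 * W - W ^ 2) (by simp [hWc, hc]) (by decide) ?_⟩
    simp only [mon, bH, bq]; ring
  have pad : ∀ γ, Pt lexA U 1 γ → Pt lexA U 2 γ := fun γ ⟨f, hf, hi⟩ =>
    ⟨f, hU.pad hf (by norm_num), hi⟩
  refine ⟨⟨2, ex 6 0 0, by norm_num, by norm_num, pad _ p600, fun i => ?_⟩, fun q hq => ?_⟩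
  · fin_cases i
    · convert p700 using 1
      exact ex_ext (by simp) (by simp) (by simp)
    · convert p610 using 1
      exact ex_ext (by simp) (by simp) (by simp)
    · convert pad _ p601 using 1
      exact ex_ext (by simp) (by simp) (by simp)
  · simp only [P_eT, List.mem_cons, List.not_mem_nil, or_false] at hq
    rcases hq with rfl | rfl | rfl
    · exact p600
    · exact p601
    · exact p110

open PTLx MvPowerSeries in
theorem ll (hA : Adm lexA) (hU : Sys U) (r : EF e f) {c d : κ} (hcd : c ≠ 0 ∨ d ≠ 0)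
    (h : E3in e f (U 1) (X 0) (X 0 ^ 2 * (C c + X 1)) (X 0 ^ 3 * (C d + X 2))) : Gen lexA U ∧
      (Pts lexA U P_fL11a ∨ Pts lexA U P_fL11b ∨ Pts lexA U P_fL12a ∨ Pts lexA U P_fL12b) := by
  have hxx := hU.mul _ _ _ _ h.hx h.hx
  have hy := sub_mem (hU.pad h.hy one_le_two) (Submodule.smul_mem _ c hxx)
  have p2 := pt hA hy 2 1 0 1 (by simp) (zero_mem _)
    (by simp only [mon, smul_eq_C_mul]; ring)
  have p3 : Gen lexA U ∧ (Pt lexA U 2 (ex 3 0 1) ∨ Pt lexA U 2 (ex 6 0 1)) := by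
    by_cases hc : c = 0
    · have hd := hcd.resolve_left (not_not.2 hc)
      subst hc
      have hzz := hU.mul _ _ _ _ h.hz h.hz
      have p4 := pt hA (sub_mem hzz (Submodule.smul_mem _ d (hU.mul _ _ _ _ h.hx h.hH))) 6 0 1
        (C d + X 2) (by simpa) (mul_mem_GtK hA.pos (mon_gt (a' := 6) (b' := 1) (c' := 0)
          (by decide)) (C d * (X 1 + C d + X 2)))
        (by simp only [mon, smul_eq_C_mul, bH, bq, map_zero]; ring)
      exact ⟨gen 6 (pad hU (pt hA hzz 6 0 0 ((C d + X 2) ^ 2) (by simpa) (zero_mem _)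
          (by simp only [mon]; ring)))
        (pt hA (hU.mul _ _ _ _ hzz h.hx) 7 0 0 ((C d + X 2) ^ 2) (by simpa) (zero_mem _)
          (by simp only [mon]; ring))
        (pt hA (hU.mul _ _ _ _ (hU.mul _ _ _ _ h.hx h.hy) h.hz) 6 1 0 (C d + X 2) (by simpa)
          (zero_mem _) (by simp only [mon, map_zero]; ring)) (pad hU p4), .inr p4⟩
    · have p4 := pt hA (sub_mem (Submodule.smul_mem _ c (hU.pad h.hz one_le_two))
        (Submodule.smul_mem _ d (hU.mul _ _ _ _ h.hx h.hy))) 3 0 1 (C c) (by simpa)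
        (mul_mem_GtK hA.pos (mon_gt (a' := 3) (b' := 1) (c' := 0) (by decide)) (-C d))
        (by simp only [mon, smul_eq_C_mul]; ring)
      exact ⟨gen 3 (pt hA (hU.mul _ _ _ _ hxx h.hx) 3 0 0 1 (by simp) (zero_mem _)
          (by simp only [mon]; ring))
        (pt hA (hU.mul _ _ _ _ hxx h.hy) 4 0 0 (C c + X 1) (by simpa) (zero_mem _)
          (by simp only [mon]; ring))
        (pt hA (hU.mul _ _ _ _ hy h.hx) 3 1 0 1 (by simp) (zero_mem _)
          (by simp only [mon, smul_eq_C_mul]; ring)) (pad hU p4), .inl p4⟩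
  have p0 : n023 e f 1 c d ≠ 0 ∨ n123 e f 1 c d ≠ 0 := by
    by_contra k
    rw [not_or, not_not, not_not] at k
    exact hcd.elim (fun h => h (alg r k.1 k.2).1) fun h => h (alg r k.1 k.2).2
  have p1 : Pt lexA U 1 (ex 11 0 0) ∨ Pt lexA U 1 (ex 12 0 0) :=
    p0.imp
      (fun h1 => pt hA h.h023 11 0 0 (n023 (C e) (C f) 1 (C c + X 1) (C d + X 2))
        (by simpa [n023, n34, n14, n13, bq, bH, bK] using h1) (zero_mem _)
        (by simp only [mon, n023, n34, n14, n13, bq, bH, bK]; ring))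
      fun h1 => pt hA h.h123 12 0 0 (n123 (C e) (C f) 1 (C c + X 1) (C d + X 2))
        (by simpa [n123, n34, n24, n23, bq, bH, bK] using h1) (zero_mem _)
        (by simp only [mon, n123, n34, n24, n23, bq, bH, bK]; ring)
  refine ⟨p3.1, ?_⟩
  have := p3.2
  simp only [Pts, P_fL11a, P_fL11b, P_fL12a, P_fL12b, List.forall_mem_cons, List.not_mem_nil,
    false_imp_iff, implies_true, and_true]
  tauto

end PTE2x

theorem p_PTE2 (hADM : S_ADM) :
    S_PTE2 := fun _ _ _ _ _ hU r =>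
  ⟨fun _ hc h => PTE2x.tt (hADM lexA (by decide)) hU hc h,
    fun _ _ hcd h => PTE2x.ll (hADM lexA (by decide)) hU r hcd h⟩

end Pool.Agent.P.MP_6149fc_ag.V22

end

section

/-! Step SUME. -/

set_option autoImplicit false
set_option linter.unusedSectionVars false

namespace Pool.Agent.P.MP_6149fc_ag.V22

open Pool.Agent.P.MP_6149fc_ag.V18
open MvPowerSeries (coeff X constantCoeff monomial)

namespace SUMEx

theorem sb (hADM : S_ADM) (hSB : S_SBV) {κ : Type} [Field κ] {A : Rows}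
    {U : ℕ → Submodule κ (PS κ)} {V : ℝ} {P : List PT} (hA : admB A) (c : CtxV U V) (g : Gen A U)
    (hP : Pts A U P) (h1 : ∀ p ∈ P, 1 ≤ p.1) {i : Fin 3} :
    (BaryV P i 1 → SumLe A U i 1 V) ∧ (BaryV P i 6 → SumLe A U i 6 V) :=
  ⟨fun b => by simpa using hSB κ A U V P i 1 (hADM A hA) c.sys g c.vol c.le hP h1 zero_le_one b,
    fun b => by
      simpa using hSB κ A U V P i 6 (hADM A hA) c.sys g c.vol c.le hP h1 (by norm_num) b⟩

theorem pull {κ κ' : Type} [Field κ] [Field κ'] [Algebra κ κ'] {e f : κ} {θ : Fin 3 → PS κ'}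
    {G : ℕ → Submodule κ (PS κ)} (hθ : ∀ j, constantCoeff (θ j) = 0)
    (h : E3in e f (G 1) (X 0) (X 1) (X 2)) :
    E3in (algebraMap κ κ' e) (algebraMap κ κ' f) (Pull κ' θ G 1) (θ 0) (θ 1) (θ 2) := by
  have ha := MvPowerSeries.hasSubst_of_constantCoeff_zero hθ
  obtain ⟨φ, hφ⟩ : ∃ φ : PS κ →ₐ[κ] PS κ', ∀ f, φ f = MvPowerSeries.subst θ f :=
    ⟨MvPowerSeries.substAlgHom ha, MvPowerSeries.substAlgHom_apply ha⟩
  have hm : ∀ {f : PS κ} {g : PS κ'}, f ∈ G 1 → φ f = g → g ∈ Pull κ' θ G 1 := fun {f g} hf e =>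
    Submodule.subset_span ⟨f, hf, (hφ f).symm.trans e⟩
  have hX : ∀ j, φ (X j) = θ j := fun j => (hφ _).trans (MvPowerSeries.subst_X ha j)
  have hs : ∀ c : κ, φ (MvPowerSeries.C c) = MvPowerSeries.C (algebraMap κ κ' c) := fun c =>
    (φ.commutes c).trans MvPowerSeries.algebraMap_apply
  refine ⟨hm h.hx (hX 0), hm h.hy (hX 1), hm h.hz (hX 2), hm h.hq ?_, hm h.hH ?_, hm h.hK ?_,
    hm h.h03 ?_, hm h.h14 ?_, hm h.h012 ?_, hm h.h013 ?_, hm h.h023 ?_, hm h.h123 ?_⟩ <;>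
  simp only [n012, n013, n023, n123, n03, n13, n14, n23, n24, n34, bK, bH, bq, map_sub, map_add,
    hs, map_mul, map_pow, hX]

end SUMEx

theorem p_SUME (hADM : S_ADM) (hSBV : S_SBV) (hCERTV : S_CERTV) (hPULL : S_PULL) (hCHARTS : S_CHARTS) (hPTE1 : S_PTE1) (hPTE2 : S_PTE2) :
    S_SUME := by
  intro κ _ e f G V hc r h
  have hX : ∀ j, X j ∈ G 1 := fun j => by
    fin_cases j
    exacts [h.hx, h.hy, h.hz]
  have g := fun A => gen_of_X (A := A) hc.sys hX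
  obtain ⟨pZ, pY⟩ := (hPTE1 κ e f G hc.sys r).1 h
  have sZ := fun i => (SUMEx.sb hADM hSBV (by decide) hc (g AZ) (SUMSx.unit hX pZ) (by decide)
    (i := i)).1
  have sY := fun i => (SUMEx.sb hADM hSBV (by decide) hc (g AY) (SUMSx.unit hX pY) (by decide)
    (i := i)).1
  refine ⟨⟨sZ _ (c_fZ_0 hCERTV), sZ _ (c_fZ_1 hCERTV)⟩,
    ⟨sY _ (c_fY_0 hCERTV), sY _ (c_fY_2 hCERTV)⟩, fun κ' _ _ => ?_⟩
  have key : ∀ θ : Fin 3 → PS κ', IsChart θ → CtxV (Pull κ' θ G) V ∧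
      E3in (algebraMap κ κ' e) (algebraMap κ κ' f) (Pull κ' θ G 1) (θ 0) (θ 1) (θ 2) :=
    fun θ c => by
      obtain ⟨p1, p2, -⟩ := hPULL κ κ' θ c.1
      exact ⟨⟨(p2 G hc.sys).1, VolN.mono hc.vol (p2 G hc.sys).2, hc.le⟩, SUMEx.pull p1 h⟩
  obtain ⟨cP, cL, -, cT⟩ := hCHARTS κ'
  have r' : EF (algebraMap κ κ' e) (algebraMap κ κ' f) :=
    ⟨(map_ne_zero _).2 r.he, (map_ne_zero _).2 r.hf, by rw [← map_sub, ← map_mul, r.rel]⟩
  refine ⟨?_, fun c h1 => ?_, fun c d h1 => ?_⟩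
  · obtain ⟨k1, k2⟩ := key _ cP
    obtain ⟨q1, q2⟩ := (hPTE1 κ' _ _ _ k1.sys r').2 k2
    have s := fun i => SUMEx.sb hADM hSBV (by decide) k1 q1 q2 (by decide) (i := i)
    exact ⟨(s _).2 (c_fP_0 hCERTV), (s _).1 (c_fP_1 hCERTV), (s _).1 (c_fP_2 hCERTV)⟩
  · obtain ⟨k1, k2⟩ := key _ (cT c)
    obtain ⟨q1, q2⟩ := (hPTE2 κ' _ _ _ k1.sys r').1 c h1 k2
    have s := fun i => (SUMEx.sb hADM hSBV (by decide) k1 q1 q2 (by decide) (i := i)).1
    exact ⟨s _ (c_eT_1 hCERTV), s _ (c_eT_2 hCERTV)⟩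
  · obtain ⟨k1, k2⟩ := key _ (cL c d)
    obtain ⟨q1, q2 | q2 | q2 | q2⟩ := (hPTE2 κ' _ _ _ k1.sys r').2 c d h1 k2
    all_goals have s := fun i => (SUMEx.sb hADM hSBV (by decide) k1 q1 q2 (by decide) (i := i)).1
    · exact ⟨s _ (c_fL11a_1 hCERTV), s _ (c_fL11a_2 hCERTV)⟩
    · exact ⟨s _ (c_fL11b_1 hCERTV), s _ (c_fL11b_2 hCERTV)⟩
    · exact ⟨s _ (c_fL12a_1 hCERTV), s _ (c_fL12a_2 hCERTV)⟩
    · exact ⟨s _ (c_fL12b_1 hCERTV), s _ (c_fL12b_2 hCERTV)⟩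

end Pool.Agent.P.MP_6149fc_ag.V22

end

section

/-! Step EAL2. -/

set_option autoImplicit false
set_option linter.unusedSectionVars false

namespace Pool.Agent.P.MP_6149fc_ag.V22

open Pool.Agent.P.MP_6149fc_ag.V18
open MvPowerSeries (coeff X constantCoeff monomial)

namespace EAL2x

theorem eyz (hADM : S_ADM) (hREGF : S_REGF)
    {κ : Type} [Field κ] [CharZero κ] {G : ℕ → Submodule κ (PS κ)} {V : ℝ} (hV : 0 ≤ V)
    (hS0 : SumsE G V) (hK : KBd G V) :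
    RegB G V (fun o => o 2 < 3 * o 0 ∧ 2 * o 2 < 3 * o 1) ∧
    RegB G V (fun o => o 1 < 2 * o 0 ∧ 3 * o 1 < 2 * o 2) := by
  obtain ⟨⟨hz0, hz1⟩, ⟨hy0, hy2⟩, -⟩ := hS0
  constructor
  · intro M μ n g k L _ _ z N b o hBig hFam hN hR hd hC _
    refine hREGF κ L G V AZ 2 M μ n g k z N b o (hADM _ (by decide)) (by decide) (by decide)
      (by decide) hV (fun j hj => ?_) hK hBig hFam hN (fun j hj => ?_) hd hC
    · fin_cases j
      · exact hz0
      · exact hz1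
      · exact absurd rfl hj
    · fin_cases j
      · simpa [w3] using hR.1
      · simpa [w3] using hR.2
      · exact absurd rfl hj
  · intro M μ n g k L _ _ z N b o hBig hFam hN hR hd hC _
    refine hREGF κ L G V AY 1 M μ n g k z N b o (hADM _ (by decide)) (by decide) (by decide)
      (by decide) hV (fun j hj => ?_) hK hBig hFam hN (fun j hj => ?_) hd hC
    · fin_cases j
      · exact hy0
      · exact absurd rfl hj
      · exact hy2
    · fin_cases j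
      · simpa [w3] using hR.1
      · exact absurd rfl hj
      · simpa [w3] using hR.2

theorem et (hADM : S_ADM) (hARCT : S_ARCT) (hRECEN : S_RECEN) (hCHJET : S_CHJET)
    (hCHARTS : S_CHARTS)
    {κ : Type} [Field κ] [CharZero κ] {G : ℕ → Submodule κ (PS κ)} {V : ℝ} (hV : 0 ≤ V)
    (hS0 : SumsE G V) (hK : KBd G V) :
    RegB G V (fun o => 3 * o 1 = 2 * o 2 ∧ o 1 < 2 * o 0) := by
  intro M μ n g k L _ _ z N a o hBig hFam hN hRg hdvd hCod hoa
  obtain ⟨h32, h12⟩ := hRg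
  obtain ⟨hCen, hord⟩ := hN
  have hμ : 1 ≤ μ := by
    have h1 : (0 : ℝ) ≤ V * ((M : ℝ) + 15) ^ 4 := by positivity
    have h2 : (1 : ℝ) ≤ μ := by unfold Big at hBig; linarith
    exact_mod_cast h2
  obtain ⟨e, he1, he2⟩ : ∃ e, o 1 = 2 * e ∧ o 2 = 3 * e := ⟨o 1 / 2, by omega, by omega⟩
  have h1e : 1 ≤ e := by have := (hord 1).2.1; omega
  have h0e : e + 1 ≤ o 0 := by omega
  have h6 : 6 * e ≤ a := by omega
  by_cases hN3 : N ≤ 3 * e
  · calc N ≤ 1 * (a + 3) := by omega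
      _ ≤ μ * (a + 3) := Nat.mul_le_mul_right _ hμ
  have hz0 : PowerSeries.X ^ (e + 1) ∣ z 0 := by
    rw [dvd_iff_le_order, (hord 0).1]; exact_mod_cast h0e
  obtain ⟨η, X', W, hη, hX', hW, e0, e1', e2, hC⟩ := hARCT κ L z N a e hCod hz0
    (by rw [(hord 1).1, he1]) (by rw [(hord 2).1, he2]) (by omega) (by omega)
  classical
  set c := PowerSeries.constantCoeff W with hc
  let s : Finset L := {c}
  let κ' := IntermediateField.adjoin κ (s : Set L)
  have hcm : c ∈ κ' := IntermediateField.subset_adjoin κ _ (by simp [s])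
  let c' : κ' := ⟨c, hcm⟩
  have hc' : c' ≠ 0 := fun h => hW (congrArg Subtype.val h)
  let ζ : Fin 3 → PowerSeries L := ![η, X', W - PowerSeries.C c]
  have hη0 : PowerSeries.constantCoeff η = 0 := by
    have : PowerSeries.coeff 0 η = 0 :=
      PowerSeries.coeff_of_lt_order 0 (by rw [hη]; exact_mod_cast h1e)
    simpa using this
  have hζ : Cen ζ := by
    intro j
    fin_cases j
    · exact hη0
    · exact hX'
    · simp [ζ, hc]
  obtain ⟨ψ, hψ, hψX, hψC0⟩ := ETx.subC (κ := κ') hζ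
  have hψC : ψ (MvPowerSeries.C c') = PowerSeries.C c := hψC0 c'
  have hW' : ψ (MvPowerSeries.C c' + X 2) = W := by
    rw [map_add, hψC, hψX]; simp [ζ]
  have hCod' := hRECEN κ L s ![η, X', W] ζ ![X 0, X 1, MvPowerSeries.C c' + X 2]
    (N - 2 * e) (a - 5 * e) hζ (by
      intro j
      rw [← hψ]
      fin_cases j
      · exact (hψX 0).symm
      · exact (hψX 1).symm
      · exact hW'.symm) hC
  have hcard : s.card = 1 := by simp [s]
  rw [hcard] at hCod'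
  have : CharZero κ' := charZero_of_injective_algebraMap (algebraMap κ κ').injective
  have : Infinite κ' := Infinite.of_injective _ Nat.cast_injective
  have hS := (hS0.2.2 κ').2.1 c' hc'
  refine hCHJET κ κ' L G V (thT c') lexA M μ n g k z ζ N (N - 2 * e) a (a - 5 * e + 1) e
    ((hCHARTS κ').2.2.2 c') (hADM lexA (by decide)) (by intro j; fin_cases j <;> rfl) rfl rfl hV
    hS.1 hS.2 hK hBig hFam hCen hζ hη h1e ?_ hdvd hCod' (by omega) (by omega) (by omega)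
    (by omega) (by omega)
  intro j
  rw [← hψ]
  fin_cases j
  · have : ψ (thT c' 0) = η * X' := by
      change ψ (X 0 * X 1) = _
      rw [map_mul, hψX, hψX]; rfl
    change _ ∣ z 0 - ψ (thT c' 0)
    rw [this, e0, sub_self]; exact dvd_zero _
  · have : ψ (thT c' 1) = η ^ 2 * W := by
      change ψ (X 0 ^ 2 * (MvPowerSeries.C c' + X 2)) = _
      rw [map_mul, map_pow, hψX, hW']; rfl
    change _ ∣ z 1 - ψ (thT c' 1)
    rw [this, e1', sub_self]; exact dvd_zero _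
  · have : ψ (thT c' 2) = η ^ 3 * W := by
      change ψ (X 0 ^ 3 * (MvPowerSeries.C c' + X 2)) = _
      rw [map_mul, map_pow, hψX, hW']; rfl
    change _ ∣ z 2 - ψ (thT c' 2)
    rw [this]; exact e2

theorem exp (hADM : S_ADM) (hEXG : S_EXG) (hCHARTS : S_CHARTS)
    {κ : Type} [Field κ] [CharZero κ] {G : ℕ → Submodule κ (PS κ)} {V : ℝ} (hV : 0 ≤ V)
    (hS0 : SumsE G V) (hK : KBd G V) :
    RegX G V (fun _ _ _ c d => c = 0 ∧ d = 0) ∧ RegX G V (fun _ _ _ c d => c ≠ 0 ∨ d ≠ 0) := by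
  obtain ⟨-, -, hS⟩ := hS0
  refine ⟨?_, ?_⟩
  · intro M μ n g k L _ _ z Y Z N a' e hBig hFam hCen hord he h1 h2 hR hdvd hCod h4 h6
    obtain ⟨hc, hd⟩ := hR
    have hZ : PowerSeries.constantCoeff (Z - Y ^ 2) = 0 := by
      rw [map_sub, map_pow, hc, hd]; simp
    obtain ⟨⟨-, s1, s2⟩, -⟩ := hS (IntermediateField.adjoin κ (((∅ : Finset L)) : Set L))
    obtain ⟨e1', e2'⟩ := EXPx.subP
      (F := IntermediateField.adjoin κ (((∅ : Finset L)) : Set L)) (hCen 0) hc hZ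
    exact hEXG κ L ∅ G V (thP _) (X 1) (X 2 + X 1 ^ 2) AP2 M μ n g k z Y Z Y (Z - Y ^ 2) N a' e
      (by simp) (hCHARTS _).1 rfl rfl rfl (hADM AP2 (by decide)) (by decide) rfl rfl hV s1 s2 hK
      hBig hFam hCen hord he h1 h2 hc hZ e1'.symm (by rw [e2']; ring) hdvd hCod h4 h6
  · intro M μ n g k L _ _ z Y Z N a' e hBig hFam hCen hord he h1 h2 hne hdvd hCod h4 h6
    classical
    set c := PowerSeries.constantCoeff Y with hc
    set d := PowerSeries.constantCoeff Z with hd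
    let s : Finset L := {c, d}
    let c' : IntermediateField.adjoin κ (s : Set L) :=
      ⟨c, IntermediateField.subset_adjoin κ _ (by simp [s])⟩
    let d' : IntermediateField.adjoin κ (s : Set L) :=
      ⟨d, IntermediateField.subset_adjoin κ _ (by simp [s])⟩
    have hc' : algebraMap _ L c' = c := rfl
    have hd' : algebraMap _ L d' = d := rfl
    have hY : PowerSeries.constantCoeff (Y - PowerSeries.C c) = 0 := by
      rw [map_sub, PowerSeries.constantCoeff_C, ← hc, sub_self]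
    have hZ : PowerSeries.constantCoeff (Z - PowerSeries.C d) = 0 := by
      rw [map_sub, PowerSeries.constantCoeff_C, ← hd, sub_self]
    have hne' : c' ≠ 0 ∨ d' ≠ 0 := by
      rcases hne with h | h
      · exact Or.inl fun h0 => h (by rw [← hc', h0, map_zero])
      · exact Or.inr fun h0 => h (by rw [← hd', h0, map_zero])
    obtain ⟨-, -, hL⟩ := hS (IntermediateField.adjoin κ (s : Set L))
    obtain ⟨s1, s2⟩ := hL c' d' hne'
    have e1' := (EXPx.subL (hCen 0) hY hZ c').1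
    have e2' := (EXPx.subL (hCen 0) hY hZ d').2
    exact hEXG κ L s G V (thL c' d') (MvPowerSeries.C c' + X 1) (MvPowerSeries.C d' + X 2) lexA
      M μ n g k z Y Z (Y - PowerSeries.C c) (Z - PowerSeries.C d) N a' e Finset.card_le_two
      ((hCHARTS _).2.1 c' d') rfl rfl rfl (hADM lexA (by decide)) (by decide) rfl rfl hV s1 s2 hK
      hBig hFam hCen hord he h1 h2 hY hZ (by rw [e1', hc']; ring) (by rw [e2', hd']; ring)
      hdvd hCod h4 h6

end EAL2x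

theorem p_EAL2 (hADM : S_ADM) (hTRUNC : S_TRUNC) (hKB0 : S_KB0) (hCHARTS : S_CHARTS) (hREGF : S_REGF) (hARCT : S_ARCT) (hRECEN : S_RECEN) (hCHJET : S_CHJET) (hEX : S_EX) (hEXG : S_EXG) :
    S_EAL2 := by
  intro κ _ _ G V hV hS
  have hK : KBd G V := hKB0 κ (thP κ) AP2 G V (hCHARTS κ).1 (hADM AP2 (by decide)) (by decide)
    (hS.2.2 κ).1.1
  have hX : RegX G V (fun _ _ _ _ _ => True) := by
    intro M μ n g k L _ _ z Y Z N b e h1 h2 h3 h4 h5 h6 h7 _
    obtain ⟨x1, x2⟩ := EAL2x.exp hADM hEXG hCHARTS hV hS hK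
    by_cases c0 : PowerSeries.constantCoeff Y = 0 ∧ PowerSeries.constantCoeff Z = 0
    · exact x1 M μ n g k L z Y Z N b e h1 h2 h3 h4 h5 h6 h7 c0
    · exact x2 M μ n g k L z Y Z N b e h1 h2 h3 h4 h5 h6 h7 (not_and_or.1 c0)
  have r4 := hEX κ G V hV hX
  have r3 := EAL2x.et hADM hARCT hRECEN hCHJET hCHARTS hV hS hK
  obtain ⟨r1, r2⟩ := EAL2x.eyz hADM hREGF hV hS hK
  intro M μ n g k h1 h2
  refine hTRUNC κ _ μ fun L _ _ z N b o h3 => ?_
  have hc : (o 2 < 3 * o 0 ∧ 2 * o 2 < 3 * o 1) ∨ (o 1 < 2 * o 0 ∧ 3 * o 1 < 2 * o 2) ∨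
      (3 * o 1 = 2 * o 2 ∧ o 1 < 2 * o 0) ∨ (2 * o 0 ≤ o 1 ∧ 3 * o 0 ≤ o 2) := by omega
  rcases hc with hc | hc | hc | hc
  · exact r1 M μ n g k L z N b o h1 h2 h3 hc
  · exact r2 M μ n g k L z N b o h1 h2 h3 hc
  · exact r3 M μ n g k L z N b o h1 h2 h3 hc
  · exact r4 M μ n g k L z N b o h1 h2 h3 hc

end Pool.Agent.P.MP_6149fc_ag.V22

end
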