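import Pool.Agent.P.MP_6149fc_ag.V22.IfaceG
import Pool.Agent.P.MP_6149fc_ag.V18.StepGlob

section

/-! Step BRG. -/

set_option autoImplicit false
set_option linter.unusedSectionVars false

namespace Pool.Agent.P.MP_6149fc_ag.V22

open Pool.Agent.P.MP_6149fc_ag.V18
open MvPowerSeries (coeff X constantCoeff monomial)
open Matrix

namespace BRGx

theorem ev {κ C : Type} [Field κ] [Algebra ℂ κ] [CommRing C] [Algebra ℂ C] [Algebra κ C]
    [IsScalarTower ℂ κ C] (ω : Fin 3 → Fin 7 → Fin 7 → ℂ) (P : I3 → C) (s : Fin 3) (k : Fin 7) :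
    MvPolynomial.aeval P (∑ i, ∑ j, MvPolynomial.C (ω s i j) * MvPolynomial.X (i, j, k) :
      MvPolynomial I3 ℂ) = ctr (omK κ ω s) P k := by
  simp only [map_sum, map_mul, MvPolynomial.aeval_C, MvPolynomial.aeval_X, ctr, omK,
    Matrix.of_apply, Algebra.smul_def, ← IsScalarTower.algebraMap_apply]

end BRGx

theorem p_BRG :
    S_BRG := by
  intro ω
  have hX : ∀ t : I3, (MvPolynomial.X t : MvPolynomial I3 ℂ).IsHomogeneous 1 :=
    fun t => MvPolynomial.isHomogeneous_X ℂ t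
  have hXX : ∀ t u : I3,
      (MvPolynomial.X t * MvPolynomial.X u : MvPolynomial I3 ℂ).IsHomogeneous 2 :=
    fun t u => (hX t).mul (hX u)
  refine ⟨?_, fun κ C _ _ _ _ _ _ P => ⟨fun h => ?_, fun h => ?_⟩⟩
  · rintro G (⟨i, j, k, rfl⟩ | ⟨i, j, k, rfl⟩ | ⟨i, j, a, b, c, d, rfl⟩ | ⟨s, k, rfl⟩)
    · exact ⟨1, (hX _).add (hX _)⟩
    · exact ⟨1, (hX _).add (hX _)⟩
    · exact ⟨2, (((hXX _ _).sub (hXX _ _)).add (hXX _ _)).sub (hXX _ _)⟩
    · exact ⟨1, MvPolynomial.IsHomogeneous.sum _ _ _ fun i _ =>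
        MvPolynomial.IsHomogeneous.sum _ _ _ fun j _ => MvPolynomial.isHomogeneous_C_mul_X _ _⟩
  · have s1 : ∀ i j k, P (i, j, k) + P (j, i, k) = 0 := fun i j k => by
      simpa using h _ (.inl ⟨i, j, k, rfl⟩)
    refine ⟨⟨fun i k => ?_, s1, fun i j k => ?_, fun i j a b c d => ?_⟩, fun s k => ?_⟩
    · have e : (2 : ℂ)⁻¹ • (P (i, i, k) + P (i, i, k)) = P (i, i, k) := by
        rw [← two_smul ℂ, smul_smul, inv_mul_cancel₀ two_ne_zero, one_smul]
      rw [← e, s1, smul_zero]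
    · simpa using h _ (.inr (.inl ⟨i, j, k, rfl⟩))
    · simpa using h _ (.inr (.inr (.inl ⟨i, j, a, b, c, d, rfl⟩)))
    · rw [← BRGx.ev]
      exact h _ (.inr (.inr (.inr ⟨s, k, rfl⟩)))
  · rintro G (⟨i, j, k, rfl⟩ | ⟨i, j, k, rfl⟩ | ⟨i, j, a, b, c, d, rfl⟩ | ⟨s, k, rfl⟩)
    · simpa using h.1.s1 i j k
    · simpa using h.1.s2 i j k
    · simpa using h.1.q i j a b c d
    · rw [BRGx.ev (κ := κ)]
      exact h.2 s k

end Pool.Agent.P.MP_6149fc_ag.V22

end

section

/-! Step SMBV. -/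

set_option autoImplicit false
set_option linter.unusedSectionVars false

namespace Pool.Agent.P.MP_6149fc_ag.V22

open Pool.Agent.P.MP_6149fc_ag.V18
open MvPowerSeries (coeff X constantCoeff monomial)
open Matrix

open TrivSqZeroExt in
theorem p_SMBV (hBRG : S_BRG) :
    S_SMBV := by
  intro ω κ _ _ hsm P hP0 hP v hv hli
  have hE := ((hBRG ω).2 κ κ P).2 hP
  have hT : ∀ a, v a ∈ tangentSpace (equations ω) P := by
    intro a G hG
    have hD := ((hBRG ω).2 κ (DualNumber κ) _).2 (hv a) G hG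
    have h := (SMBx.eval_dual (dual3 P (v a)) G).2
    rw [hD, snd_zero] at h
    have e1 : (fun i => fst (dual3 P (v a) i)) = P := funext fun i => by simp [dual3]
    have e2 : ∀ i, snd (dual3 P (v a) i) = v a i := fun i => by simp [dual3]
    rw [e1] at h
    simp only [e2] at h
    exact h.symm
  let w : Fin 5 → tangentSpace (equations ω) P := fun a => ⟨v a, hT a⟩
  have hw : LinearIndependent κ w :=
    LinearIndependent.of_comp (tangentSpace (equations ω) P).subtype hli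
  have h5 := hw.fintype_card_le_finrank
  have h4 := hsm _ hP0 hE
  rw [Fintype.card_fin] at h5
  omega

end Pool.Agent.P.MP_6149fc_ag.V22

end

section

/-! Step PLU. -/

set_option autoImplicit false
set_option linter.unusedSectionVars false

namespace Pool.Agent.P.MP_6149fc_ag.V22

open Pool.Agent.P.MP_6149fc_ag.V18
open MvPowerSeries (coeff X constantCoeff monomial)
open Matrix

theorem PLUx.one {C : Type} [CommRing C] {Q : I3 → C} (h : Pl Q) {i j k : Fin 7}
    (e : Q (i, j, k) = 1) (a b : Fin 7) :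
    Q (a, b, i) = Q (i, a, k) * Q (i, j, b) - Q (i, b, k) * Q (i, j, a) := by
  have c : ∀ x y z, Q (x, y, z) = Q (z, x, y) := fun x y z => by
    linear_combination h.s2 x y z - h.s1 x z y
  have z : Q (i, a, i) = 0 := by rw [c, h.z]
  have := h.q i a b i j k
  rw [z, e, c b i j, c j b i, show Q (b, i, k) = -Q (i, b, k) by linear_combination h.s1 b i k,
    show Q (i, a, j) = -Q (i, j, a) by linear_combination h.s2 i a j] at this
  rw [c]
  linear_combination this

theorem PLUx.main {C : Type} [CommRing C] {Q : I3 → C} (h : Pl Q) {i j k : Fin 7}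
    (e : Q (i, j, k) = 1) (a b c : Fin 7) :
    Q (a, b, c) = mn ![fun l => Q (l, j, k), fun l => Q (i, l, k), fun l => Q (i, j, l)]
      (a, b, c) := by
  have cy : ∀ x y z, Q (x, y, z) = Q (z, x, y) := fun x y z => by
    linear_combination h.s2 x y z - h.s1 x z y
  have h1 := PLUx.one h e a b
  have h2 := PLUx.one h (i := j) (j := k) (k := i) (by rw [cy, e]) a b
  have h3 := PLUx.one h (i := k) (j := i) (k := j) (by rw [← cy, e]) a b
  have h4 := h.q a b c i j k
  rw [cy j a i, cy j b i, cy j k a, cy j k b] at h2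
  rw [← cy a j k, ← cy b j k, ← cy i a k, ← cy i b k] at h3
  rw [e, h1, h2, h3, show Q (c, i, k) = -Q (i, c, k) by linear_combination h.s1 c i k,
    ← cy i j c] at h4
  simp only [mn, cons_val_zero, cons_val_one, cons_val]
  linear_combination h4

theorem p_PLU :
    S_PLU := by
  rintro C _ P i j k u h e ⟨a, b, c⟩
  rw [← PLUx.main (h.mul u) e, ← mul_assoc, mul_comm _ u, e, one_mul]

end Pool.Agent.P.MP_6149fc_ag.V22

end

section

/-! Step ACT1. -/

set_option autoImplicit false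
set_option linter.unusedSectionVars false

namespace Pool.Agent.P.MP_6149fc_ag.V22

open Pool.Agent.P.MP_6149fc_ag.V18
open MvPowerSeries (coeff X constantCoeff monomial)
open Matrix

namespace ACT1x

variable {κ C : Type} [Field κ] [CommRing C] [Algebra κ C]

theorem tri (α β γ : Fin 7 → κ) (x y z : Fin 7 → C) :
    ∑ a, ∑ b, ∑ c, (α a * β b * γ c) • (x a * y b * z c) =
      (∑ a, α a • x a) * (∑ b, β b • y b) * ∑ c, γ c • z c := by
  rw [Finset.sum_mul_sum, Finset.sum_mul]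
  refine Finset.sum_congr rfl fun a _ => ?_
  rw [Finset.sum_mul_sum]
  refine Finset.sum_congr rfl fun b _ => Finset.sum_congr rfl fun c _ => ?_
  simp only [Algebra.smul_def, map_mul]; ring

theorem c3 (f : Fin 7 → Fin 7 → Fin 7 → C) :
    ∑ a, ∑ b, ∑ c, f a b c = ∑ c, ∑ a, ∑ b, f a b c := by
  rw [Finset.sum_congr rfl fun a _ => Finset.sum_comm, Finset.sum_comm]

theorem c4 (f : Fin 7 → Fin 7 → Fin 7 → Fin 7 → C) :
    ∑ a, ∑ b, ∑ c, ∑ d, f a b c d = ∑ c, ∑ d, ∑ a, ∑ b, f a b c d := by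
  rw [c3]
  exact Finset.sum_congr rfl fun c _ => c3 _

theorem ent (g w : Fm κ) (a b : Fin 7) : (g * w * gᵀ) a b = ∑ i, ∑ j, g a i * w i j * g b j := by
  simp only [Matrix.mul_apply, transpose_apply, Finset.sum_mul]
  exact Finset.sum_comm

/-- The coefficient form of the action. -/
theorem act_eq (g : Fm κ) (P : I3 → C) (t : I3) :
    act g P t = ∑ s : I3, (g s.1 t.1 * g s.2.1 t.2.1 * g s.2.2 t.2.2) • P s := by
  simp only [act, Fintype.sum_prod_type]

end ACT1x

open ACT1x in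
theorem p_ACT1 :
    S_ACT1 := by
  intro κ C _ _ _ g
  refine ⟨fun M => funext fun t => ?_, fun w P k => ?_, fun g' P => funext fun t => ?_,
    fun P => funext fun t => ?_, fun w u v => ?_, fun C' _ _ φ P t => ?_⟩
  · have e : ∀ a b c, mn M (a, b, c) = M 0 a * M 1 b * M 2 c - M 0 a * M 2 b * M 1 c -
        M 1 a * M 0 b * M 2 c + M 2 a * M 0 b * M 1 c + M 1 a * M 2 b * M 0 c -
        M 2 a * M 1 b * M 0 c := fun a b c => by simp only [mn]; ring
    simp only [act, e, smul_sub, smul_add, Finset.sum_sub_distrib, Finset.sum_add_distrib]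
    simp only [tri (fun a => g a t.1) (fun a => g a t.2.1) (fun a => g a t.2.2), mn]
    ring
  · simp only [ctr, act, ent, Finset.smul_sum, Finset.sum_smul, smul_smul]
    rw [Finset.sum_congr rfl fun i _ => Finset.sum_congr rfl fun j _ => c3 _, c3]
    refine Finset.sum_congr rfl fun c _ => ?_
    rw [c4]
    refine Finset.sum_congr rfl fun a _ => Finset.sum_congr rfl fun b _ =>
      Finset.sum_congr rfl fun i _ => Finset.sum_congr rfl fun j _ => ?_
    congr 1
    ring
  · simp only [act_eq, Finset.smul_sum, smul_smul]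
    rw [Finset.sum_comm]
    refine Finset.sum_congr rfl fun s _ => ?_
    rw [← Finset.sum_smul]
    congr 1
    simp only [Matrix.mul_apply, Fintype.sum_prod_type]
    rw [Finset.sum_mul_sum, Finset.sum_mul]
    refine Finset.sum_congr rfl fun a _ => ?_
    rw [Finset.sum_mul_sum]
    exact Finset.sum_congr rfl fun b _ => Finset.sum_congr rfl fun c _ => by ring
  · rw [act_eq, Finset.sum_eq_single t]
    · simp
    · rintro ⟨a, b, c⟩ - hs
      by_cases h1 : a = t.1
      · by_cases h2 : b = t.2.1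
        · have h3 : c ≠ t.2.2 := fun h3 => hs (by rw [h1, h2, h3])
          simp [Matrix.one_apply, h3]
        · simp [Matrix.one_apply, h2]
      · simp [Matrix.one_apply, h1]
    · simp
  · simp only [fm, ent, Finset.sum_smul]
    rw [c4]
    refine Finset.sum_congr rfl fun i _ => Finset.sum_congr rfl fun j _ => ?_
    rw [Finset.sum_mul_sum, mul_comm (∑ a, g a j • u a), Finset.sum_mul_sum,
      ← Finset.sum_sub_distrib, Finset.smul_sum]
    refine Finset.sum_congr rfl fun a _ => ?_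
    rw [← Finset.sum_sub_distrib, Finset.smul_sum]
    refine Finset.sum_congr rfl fun b _ => ?_
    simp only [Algebra.smul_def, map_mul]; ring
  · simp only [act, map_sum, map_smul]

end Pool.Agent.P.MP_6149fc_ag.V22

end

section

/-! Step ACT2. -/

set_option autoImplicit false
set_option linter.unusedSectionVars false

namespace Pool.Agent.P.MP_6149fc_ag.V22

open Pool.Agent.P.MP_6149fc_ag.V18
open MvPowerSeries (coeff X constantCoeff monomial)
open Matrix

namespace ACT2x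

variable {κ C : Type} [Field κ] [CommRing C] [Algebra κ C]

/-- The value of a three-vector on three vectors. -/
def T (P : I3 → C) (x y z : Fin 7 → κ) : C := ∑ a, ∑ b, ∑ c, (x a * y b * z c) • P (a, b, c)

theorem T_eq (P : I3 → C) (x y z : Fin 7 → κ) :
    T P x y z = ∑ t : I3, (x t.1 * y t.2.1 * z t.2.2) • P t := by
  simp only [T, Fintype.sum_prod_type]

theorem alt (x : Fin 7 → κ) (Q : Fin 7 → Fin 7 → C) (h0 : ∀ a, Q a a = 0)
    (h1 : ∀ a b, Q a b + Q b a = 0) : ∑ a, ∑ b, (x a * x b) • Q a b = 0 := by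
  rw [← Fintype.sum_prod_type' (fun a b => (x a * x b) • Q a b)]
  refine Finset.sum_involution (fun p _ => p.swap) (fun p _ => ?_) (fun p _ hp he => hp ?_)
    (fun _ _ => Finset.mem_univ _) (fun p _ => rfl)
  · simp only [Prod.fst_swap, Prod.snd_swap]
    rw [mul_comm (x p.2), ← smul_add, h1, smul_zero]
  · have : p.2 = p.1 := congrArg Prod.fst he
    rw [this, h0, smul_zero]

theorem T_z {P : I3 → C} (h : Pl P) (x z : Fin 7 → κ) : T P x x z = 0 := by
  have e : T P x x z = ∑ a, ∑ b, (x a * x b) • ∑ c, z c • P (a, b, c) := by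
    simp only [T, Finset.smul_sum, smul_smul]
  rw [e]
  refine alt x _ (fun a => ?_) fun a b => ?_
  · simp only [h.z, smul_zero, Finset.sum_const_zero]
  · simp only [← Finset.sum_add_distrib, ← smul_add, h.s1, smul_zero, Finset.sum_const_zero]

theorem T_s1 {P : I3 → C} (h : Pl P) (x y z : Fin 7 → κ) : T P x y z + T P y x z = 0 := by
  have e : T P y x z = ∑ t : I3, (x t.1 * y t.2.1 * z t.2.2) • P (t.2.1, t.1, t.2.2) := by
    rw [T_eq]
    exact Fintype.sum_equiv ⟨fun t => (t.2.1, t.1, t.2.2), fun t => (t.2.1, t.1, t.2.2),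
      fun _ => rfl, fun _ => rfl⟩ _ _ fun t => by
        simp only [Equiv.coe_fn_mk]; rw [mul_comm (y _)]
  rw [e, T_eq, ← Finset.sum_add_distrib]
  exact Finset.sum_eq_zero fun t _ => by rw [← smul_add, h.s1, smul_zero]

theorem T_s2 {P : I3 → C} (h : Pl P) (x y z : Fin 7 → κ) : T P x y z + T P x z y = 0 := by
  have e : T P x z y = ∑ t : I3, (x t.1 * y t.2.1 * z t.2.2) • P (t.1, t.2.2, t.2.1) := by
    rw [T_eq]
    exact Fintype.sum_equiv ⟨fun t => (t.1, t.2.2, t.2.1), fun t => (t.1, t.2.2, t.2.1),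
      fun _ => rfl, fun _ => rfl⟩ _ _ fun t => by
        simp only [Equiv.coe_fn_mk]; rw [mul_right_comm]
  rw [e, T_eq, ← Finset.sum_add_distrib]
  exact Finset.sum_eq_zero fun t _ => by rw [← smul_add, h.s2, smul_zero]

theorem T_mul (P : I3 → C) (x y z u v w : Fin 7 → κ) : T P x y z * T P u v w =
    ∑ p : I3 × I3, (x p.1.1 * y p.1.2.1 * z p.1.2.2 * (u p.2.1 * v p.2.2.1 * w p.2.2.2)) •
      (P p.1 * P p.2) := by
  rw [T_eq, T_eq, Finset.sum_mul_sum, Fintype.sum_prod_type (α₁ := I3) (α₂ := I3)]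
  simp only [smul_mul_smul_comm]

theorem T_q {P : I3 → C} (h : Pl P) (i j a b c d : Fin 7 → κ) :
    T P i j a * T P b c d - T P i j b * T P a c d + T P i j c * T P a b d -
      T P i j d * T P a b c = 0 := by
  have e1 : T P i j b * T P a c d = ∑ p : I3 × I3,
      (i p.1.1 * j p.1.2.1 * a p.1.2.2 * (b p.2.1 * c p.2.2.1 * d p.2.2.2)) •
        (P (p.1.1, p.1.2.1, p.2.1) * P (p.1.2.2, p.2.2.1, p.2.2.2)) := by
    rw [T_mul]
    exact Fintype.sum_equiv ⟨fun p => ((p.1.1, p.1.2.1, p.2.1), (p.1.2.2, p.2.2.1, p.2.2.2)),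
      fun p => ((p.1.1, p.1.2.1, p.2.1), (p.1.2.2, p.2.2.1, p.2.2.2)),
      fun _ => rfl, fun _ => rfl⟩ _ _ fun p => by
        simp only [Equiv.coe_fn_mk]; congr 1; ring
  have e2 : T P i j c * T P a b d = ∑ p : I3 × I3,
      (i p.1.1 * j p.1.2.1 * a p.1.2.2 * (b p.2.1 * c p.2.2.1 * d p.2.2.2)) •
        (P (p.1.1, p.1.2.1, p.2.2.1) * P (p.1.2.2, p.2.1, p.2.2.2)) := by
    rw [T_mul]
    exact Fintype.sum_equiv ⟨fun p => ((p.1.1, p.1.2.1, p.2.1), (p.2.2.1, p.1.2.2, p.2.2.2)),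
      fun p => ((p.1.1, p.1.2.1, p.2.2.1), (p.1.2.2, p.2.1, p.2.2.2)),
      fun _ => rfl, fun _ => rfl⟩ _ _ fun p => by
        simp only [Equiv.coe_fn_mk]; congr 1; ring
  have e3 : T P i j d * T P a b c = ∑ p : I3 × I3,
      (i p.1.1 * j p.1.2.1 * a p.1.2.2 * (b p.2.1 * c p.2.2.1 * d p.2.2.2)) •
        (P (p.1.1, p.1.2.1, p.2.2.2) * P (p.1.2.2, p.2.1, p.2.2.1)) := by
    rw [T_mul]
    exact Fintype.sum_equiv ⟨fun p => ((p.1.1, p.1.2.1, p.2.1), (p.2.2.1, p.2.2.2, p.1.2.2)),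
      fun p => ((p.1.1, p.1.2.1, p.2.2.2), (p.1.2.2, p.2.1, p.2.2.1)),
      fun _ => rfl, fun _ => rfl⟩ _ _ fun p => by
        simp only [Equiv.coe_fn_mk]; congr 1; ring
  rw [e1, e2, e3, T_mul, ← Finset.sum_sub_distrib, ← Finset.sum_add_distrib,
    ← Finset.sum_sub_distrib]
  exact Finset.sum_eq_zero fun p _ => by
    rw [← smul_sub, ← smul_add, ← smul_sub, h.q, smul_zero]

end ACT2x

theorem p_ACT2 :
    S_ACT2 := by
  intro κ C _ _ _ g P h
  exact ⟨fun i k => ACT2x.T_z h (fun a => g a i) fun a => g a k,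
    fun i j k => ACT2x.T_s1 h (fun a => g a i) (fun a => g a j) fun a => g a k,
    fun i j k => ACT2x.T_s2 h (fun a => g a i) (fun a => g a j) fun a => g a k,
    fun i j a b c d => ACT2x.T_q h (fun s => g s i) (fun s => g s j) (fun s => g s a)
      (fun s => g s b) (fun s => g s c) fun s => g s d⟩

end Pool.Agent.P.MP_6149fc_ag.V22

end

section

/-! Step AUT1. -/

set_option autoImplicit false
set_option linter.unusedSectionVars false

namespace Pool.Agent.P.MP_6149fc_ag.V22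

open Pool.Agent.P.MP_6149fc_ag.V18
open MvPowerSeries (coeff X constantCoeff monomial)
open Matrix

namespace AUT1x

variable {κ : Type} [Field κ]

theorem eq_act (hACT1 : S_ACT1) (hACT2 : S_ACT2) {C : Type} [CommRing C] [Algebra κ C]
    (g : Fm κ) (ω : Fin 3 → Fm κ) {P : I3 → C} (h : EQ (fun s => g * ω s * gᵀ) P) :
    EQ ω (act g P) :=
  ⟨hACT2 κ C g P h.1, fun s k => by
    rw [(hACT1 κ C g).2.1]
    exact Finset.sum_eq_zero fun c _ => by rw [h.2 s c, smul_zero]⟩

/-- The action as a linear map. -/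
def actL (g : Fm κ) : (I3 → κ) →ₗ[κ] I3 → κ where
  toFun := act g
  map_add' P Q := by
    funext t
    simp only [act, Pi.add_apply, smul_add, Finset.sum_add_distrib]
  map_smul' c P := by
    funext t
    simp only [act, Pi.smul_apply, RingHom.id_apply, Finset.smul_sum]
    refine Finset.sum_congr rfl fun a _ => Finset.sum_congr rfl fun b _ =>
      Finset.sum_congr rfl fun d _ => smul_comm _ _ _

theorem act_dual (hACT1 : S_ACT1) (g : Fm κ) (P v : I3 → κ) :
    act g (dual3 P v) = dual3 (act g P) (act g v) := by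
  funext t
  have h := (hACT1 κ (DualNumber κ) g).2.2.2.2.2 κ
  refine TrivSqZeroExt.ext ?_ ?_
  · have h1 := h (TrivSqZeroExt.fstHom κ κ κ).toLinearMap (dual3 P v) t
    simpa [dual3] using h1
  · have h1 := h (TrivSqZeroExt.sndHom κ κ) (dual3 P v) t
    simpa [dual3] using h1

end AUT1x

open AUT1x in
theorem p_AUT1 (hACT1 : S_ACT1) (hACT2 : S_ACT2) :
    S_AUT1 := by
  intro κ _ g g' ω h1 _ hs P h0 hP v hv hl
  have inv : ∀ Q : I3 → κ, act g' (act g Q) = Q := fun Q => by
    rw [(hACT1 κ κ g).2.2.1, h1, (hACT1 κ κ g).2.2.2.1]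
  have inj : Function.Injective (actL g) := Function.LeftInverse.injective (g := act g') inv
  refine hs (act g P) (fun e => h0 (inj (e.trans (map_zero (actL g)).symm)))
    (eq_act hACT1 hACT2 g ω hP) (fun a => act g (v a)) (fun a => ?_)
    (hl.map' (actL g) (LinearMap.ker_eq_bot.2 inj))
  rw [← act_dual hACT1]
  exact eq_act hACT1 hACT2 g ω (hv a)

end Pool.Agent.P.MP_6149fc_ag.V22

end

section

/-! Step AUT. -/

set_option autoImplicit false
set_option linter.unusedSectionVars false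

namespace Pool.Agent.P.MP_6149fc_ag.V22

open Pool.Agent.P.MP_6149fc_ag.V18
open MvPowerSeries (coeff X constantCoeff monomial)
open Matrix

namespace AUTx

variable {κ : Type} [Field κ]

theorem span_le {C : Type} [CommRing C] [Algebra κ C] (g : Fm κ) (Ψ : I3 → C) :
    Submodule.span κ (Set.range (act g Ψ)) ≤ Submodule.span κ (Set.range Ψ) := by
  rw [Submodule.span_le]
  rintro _ ⟨t, rfl⟩
  change ∑ a, ∑ b, ∑ c, (g a t.1 * g b t.2.1 * g c t.2.2) • Ψ (a, b, c) ∈
    Submodule.span κ (Set.range Ψ)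
  refine Submodule.sum_mem _ fun a _ => Submodule.sum_mem _ fun b _ =>
    Submodule.sum_mem _ fun c _ => Submodule.smul_mem _ _ ?_
  exact Submodule.subset_span (Set.mem_range_self (a, b, c))

theorem conj (g g' w : Fm κ) (h : g' * g = 1) : g' * (g * w * gᵀ) * g'ᵀ = w := by
  have h' : gᵀ * g'ᵀ = 1 := by rw [← transpose_mul, h, transpose_one]
  calc g' * (g * w * gᵀ) * g'ᵀ = (g' * g) * w * (gᵀ * g'ᵀ) := by simp only [Matrix.mul_assoc]
    _ = w := by rw [h, h', Matrix.one_mul, Matrix.mul_one]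

end AUTx

open AUTx in
theorem p_AUT (hACT1 : S_ACT1) (hACT2 : S_ACT2) (hAUT1 : S_AUT1) :
    S_AUT := by
  intro κ _ g g' ω x h1 h2
  refine ⟨hAUT1 κ g g' ω h1 h2, ?_⟩
  rintro ⟨Ψ, hΨ, hA⟩
  have inv1 : ∀ (C : Type) [CommRing C] [Algebra κ C] (P : I3 → C), act g' (act g P) = P := by
    intro C _ _ P
    rw [(hACT1 κ C g).2.2.1, h1, (hACT1 κ C g).2.2.2.1]
  have inv2 : ∀ (C : Type) [CommRing C] [Algebra κ C] (P : I3 → C), act g (act g' P) = P := by
    intro C _ _ P
    rw [(hACT1 κ C g').2.2.1, h2, (hACT1 κ C g).2.2.2.1]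
  have hU : UU κ (act g Ψ) = UU κ Ψ := by
    funext M
    have e1 := span_le g Ψ
    have e2 := span_le g' (act g Ψ)
    rw [inv1] at e2
    rw [UU, UU, le_antisymm e1 e2]
  refine ⟨act g Ψ, by unfold LocV at hΨ ⊢; rw [hU]; exact hΨ, fun L _ _ p hp h0 => ?_⟩
  obtain ⟨u, z, hz, hq⟩ := hA L (act g' p)
    ⟨hACT2 κ _ g' p hp.1, fun s k => by
      rw [(hACT1 κ _ g').2.1]
      refine Finset.sum_eq_zero fun c _ => ?_
      rw [conj g g' _ h2, hp.2, smul_zero]⟩ fun t => by
      have e1 := (hACT1 κ _ g').2.2.2.2.2 L (ValA.cc κ L).toLinearMap p t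
      have e2 := (hACT1 κ κ g').2.2.2.2.2 L (Algebra.ofId κ L).toLinearMap (act g x) t
      rw [inv1] at e2
      refine e1.trans (Eq.trans ?_ e2.symm)
      congr 1
      funext j
      exact h0 j
  obtain ⟨ψ, hψ, -⟩ := exists_subHom (κ := κ) hz
  refine ⟨u, z, hz, fun t => ?_⟩
  have e := (hACT1 κ _ g).2.2.2.2.2 _ ((LinearMap.mulLeft κ u).comp ψ.toLinearMap) Ψ t
  simp only [LinearMap.comp_apply, LinearMap.mulLeft_apply, AlgHom.toLinearMap_apply, hψ] at e
  rw [e, ← funext hq, inv2]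

end Pool.Agent.P.MP_6149fc_ag.V22

end

section

/-! Step GSC. -/

set_option autoImplicit false
set_option linter.unusedSectionVars false

namespace Pool.Agent.P.MP_6149fc_ag.V22

open Pool.Agent.P.MP_6149fc_ag.V18
open MvPowerSeries (coeff X constantCoeff monomial)
open Matrix

theorem p_GSC :
    S_GSC := by
  intro κ _ ω x c hc
  refine ⟨id, fun ⟨Ψ, h1, h2⟩ => ⟨Ψ, h1, fun L _ _ p hp hx => ?_⟩⟩
  obtain ⟨u, z, hz, e⟩ := h2 L (fun t => PowerSeries.C (algebraMap κ L c) * p t) (hp.mul _)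
    fun t => by rw [map_mul, PowerSeries.constantCoeff_C, hx, map_mul]
  refine ⟨PowerSeries.C (algebraMap κ L c⁻¹) * u, z, hz, fun t => ?_⟩
  rw [mul_assoc, ← e t, ← mul_assoc, ← map_mul, ← map_mul, inv_mul_cancel₀ hc, map_one, map_one,
    one_mul]

end Pool.Agent.P.MP_6149fc_ag.V22

end

section

/-! Step SAME. -/

set_option autoImplicit false
set_option linter.unusedSectionVars false

namespace Pool.Agent.P.MP_6149fc_ag.V22

open Pool.Agent.P.MP_6149fc_ag.V18
open MvPowerSeries (coeff X constantCoeff monomial)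
open Matrix

namespace SAMEx

variable {κ : Type} [Field κ] {C : Type} [CommRing C] [Algebra κ C]

/-- The contraction as a linear map in the form. -/
def cl (P : I3 → C) (k : Fin 7) : Fm κ →ₗ[κ] C where
  toFun w := ctr w P k
  map_add' w w' := by simp only [ctr, Matrix.add_apply, add_smul, Finset.sum_add_distrib]
  map_smul' c w := by
    simp only [ctr, Matrix.smul_apply, smul_eq_mul, mul_smul, Finset.smul_sum, RingHom.id_apply]

theorem skew {P : I3 → C} (h : Pl P) (w : Fm κ) (k : Fin 7) :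
    cl P k (w - wᵀ) = (2 : κ) • ctr w P k := by
  have e : ctr wᵀ P k = -ctr w P k := by
    rw [ctr, Finset.sum_comm]
    simp only [ctr, ← Finset.sum_neg_distrib, ← smul_neg, transpose_apply]
    refine Finset.sum_congr rfl fun i _ => Finset.sum_congr rfl fun j _ => ?_
    rw [eq_neg_of_add_eq_zero_left (h.s1 j i k)]
  rw [map_sub, two_smul]
  change ctr w P k - ctr wᵀ P k = _
  rw [e, sub_neg_eq_add]

theorem imp [CharZero κ] {ω ω' : Fin 3 → Fm κ} (h : ∀ s, ∃ c, ω s - (ω s)ᵀ = sk ω' c)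
    {P : I3 → C} (hP : EQ ω' P) : EQ ω P := by
  refine ⟨hP.1, fun s k => ?_⟩
  obtain ⟨c, hc⟩ := h s
  have e := skew hP.1 (ω s) k
  rw [hc, sk, map_sum] at e
  simp only [map_smul, skew hP.1, hP.2, smul_zero, Finset.sum_const_zero] at e
  rw [← inv_smul_smul₀ (two_ne_zero (α := κ)) (ctr (ω s) P k), ← e, smul_zero]

end SAMEx

theorem p_SAME :
    S_SAME := by
  intro κ _ _ ω ω' h h' C _ _ P
  exact ⟨SAMEx.imp h', SAMEx.imp h⟩

end Pool.Agent.P.MP_6149fc_ag.V22

end

section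

/-! Step EXT. -/

set_option autoImplicit false
set_option linter.unusedSectionVars false

namespace Pool.Agent.P.MP_6149fc_ag.V22

open Pool.Agent.P.MP_6149fc_ag.V18
open MvPowerSeries (coeff X constantCoeff monomial)
open Matrix

theorem p_EXT :
    S_EXT := by
  intro κ _ n m M hM
  classical
  obtain ⟨W', hW⟩ := Submodule.exists_isCompl (Submodule.span κ (Set.range M))
  have h1 : Module.finrank κ (Submodule.span κ (Set.range M)) = n := by
    rw [finrank_span_eq_card hM, Fintype.card_fin]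
  have h2 : Module.finrank κ W' = m := by
    have := Submodule.finrank_add_eq_of_isCompl hW
    rw [h1, Module.finrank_fintype_fun_eq_card, Fintype.card_fin] at this
    omega
  let b := Module.finBasisOfFinrankEq κ W' h2
  have hb : LinearIndependent κ fun i => (b i : Fin (n + m) → κ) :=
    b.linearIndependent.map' W'.subtype (Submodule.ker_subtype W')
  have hd : Disjoint (Submodule.span κ (Set.range M))
      (Submodule.span κ (Set.range fun i => (b i : Fin (n + m) → κ))) := by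
    refine hW.disjoint.mono_right ?_
    rw [Submodule.span_le]
    rintro _ ⟨i, rfl⟩
    exact (b i).2
  have hs := (hM.sum_type hb hd).comp finSumFinEquiv.symm finSumFinEquiv.symm.injective
  let g : Matrix (Fin (n + m)) (Fin (n + m)) κ :=
    Matrix.of (Sum.elim M (fun i => (b i : Fin (n + m) → κ)) ∘ finSumFinEquiv.symm)
  have hu : IsUnit g := Matrix.linearIndependent_rows_iff_isUnit.1 hs
  obtain ⟨u, hu⟩ := hu
  refine ⟨g, (u⁻¹ : (Matrix (Fin (n + m)) (Fin (n + m)) κ)ˣ), ?_, ?_, fun r => ?_⟩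
  · rw [← hu]; exact u.mul_inv
  · rw [← hu]; exact u.inv_mul
  · show Sum.elim M (fun i => (b i : Fin (n + m) → κ)) (finSumFinEquiv.symm (Fin.castAdd m r)) = M r
    rw [finSumFinEquiv_symm_apply_castAdd]
    rfl

end Pool.Agent.P.MP_6149fc_ag.V22

end

section

/-! Step DEC. -/

set_option autoImplicit false
set_option linter.unusedSectionVars false

namespace Pool.Agent.P.MP_6149fc_ag.V22

open Pool.Agent.P.MP_6149fc_ag.V18
open MvPowerSeries (coeff X constantCoeff monomial)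
open Matrix

namespace DECx

variable {κ : Type} [Field κ]

theorem indep {M : Fin 3 → Fin 7 → κ} {t : I3} (h : mn M t ≠ 0) : LinearIndependent κ M := by
  rw [Fintype.linearIndependent_iff]
  intro c hc
  have e : ∀ j, c 0 * M 0 j + c 1 * M 1 j + c 2 * M 2 j = 0 := fun j => by
    simpa [Fin.sum_univ_three] using congrFun hc j
  obtain ⟨i, j, k⟩ := t
  have a := e i
  have b := e j
  have d := e k
  intro r
  refine (mul_eq_zero.1 (?_ : c r * mn M (i, j, k) = 0)).resolve_right h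
  fin_cases r <;> simp only [mn, Fin.zero_eta, Fin.mk_one, Fin.reduceFinMk]
  · linear_combination (M 1 j * M 2 k - M 1 k * M 2 j) * a - (M 1 i * M 2 k - M 1 k * M 2 i) * b +
      (M 1 i * M 2 j - M 1 j * M 2 i) * d
  · linear_combination -(M 0 j * M 2 k - M 0 k * M 2 j) * a + (M 0 i * M 2 k - M 0 k * M 2 i) * b -
      (M 0 i * M 2 j - M 0 j * M 2 i) * d
  · linear_combination (M 0 j * M 1 k - M 0 k * M 1 j) * a - (M 0 i * M 1 k - M 0 k * M 1 i) * b +
      (M 0 i * M 1 j - M 0 j * M 1 i) * d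

theorem iso {M : Fin 3 → Fin 7 → κ} (h : LinearIndependent κ M) {w : Fm κ}
    (hw : ∀ k, ctr w (mn M) k = 0) (a b : Fin 3) : fm w (M a) (M b) = 0 := by
  have e := Fintype.linearIndependent_iff.1 h
    ![fm w (M 1) (M 2), -fm w (M 0) (M 2), fm w (M 0) (M 1)] (funext fun k => by
      have := hw k
      rw [ctr_mn] at this
      simp only [Fin.sum_univ_three, Pi.add_apply, Pi.smul_apply, smul_eq_mul, cons_val_zero,
        cons_val_one, cons_val_two, Pi.zero_apply, head_cons, tail_cons]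
      linear_combination this)
  have e0 : fm w (M 1) (M 2) = 0 := e 0
  have e1 : fm w (M 0) (M 2) = 0 := neg_eq_zero.1 (e 1)
  have e2 : fm w (M 0) (M 1) = 0 := e 2
  fin_cases a <;> fin_cases b <;> simp only [Fin.zero_eta, Fin.mk_one, Fin.reduceFinMk]
  exacts [fm_self _ _, e2, e1, by rw [fm_swap, e2, neg_zero], fm_self _ _, e0,
    by rw [fm_swap, e1, neg_zero], by rw [fm_swap, e0, neg_zero], fm_self _ _]

theorem hk_zero (r : Fin 3) : hk (0 : Fin 6 → κ) r = Pi.single (Fin.castAdd 4 r) 1 := by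
  funext i
  fin_cases r <;> fin_cases i <;> simp [hk]

theorem row (g : Fm κ) (r : Fin 3) (j : Fin 7) :
    ∑ i, g i j • hk (0 : Fin 6 → κ) r i = g (Fin.castAdd 4 r) j := by
  rw [hk_zero]
  simp [Pi.single_apply]

theorem block (W : Fm κ) (h : ∀ a b : Fin 3, W (Fin.castAdd 4 a) (Fin.castAdd 4 b) -
    W (Fin.castAdd 4 b) (Fin.castAdd 4 a) = 0) : ∃ B D, bf B D - (bf B D)ᵀ = W - Wᵀ := by
  refine ⟨of fun i k => W (Fin.castAdd 4 i) (Fin.natAdd 3 k) - W (Fin.natAdd 3 k) (Fin.castAdd 4 i),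
    of fun k l => W (Fin.natAdd 3 k) (Fin.natAdd 3 l), ?_⟩
  have a : W 0 1 = W 1 0 := sub_eq_zero.1 (h 0 1)
  have b : W 0 2 = W 2 0 := sub_eq_zero.1 (h 0 2)
  have c : W 1 2 = W 2 1 := sub_eq_zero.1 (h 1 2)
  ext i j
  fin_cases i <;> fin_cases j <;> simp [bf, a, b, c, Fin.castAdd, Fin.natAdd, Fin.castLE]

theorem sk_single (ω : Fin 3 → Fm κ) (s : Fin 3) : sk ω (Pi.single s 1) = ω s - (ω s)ᵀ := by
  simp [sk, Pi.single_apply]

end DECx

open DECx in
theorem p_DEC (hPLU : S_PLU) (hACT1 : S_ACT1) (hSAME : S_SAME) (hEXT : S_EXT) :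
    S_DEC := by
  intro κ _ _ ω x hx hE
  obtain ⟨⟨i, j, k⟩, ht⟩ := Function.ne_iff.1 hx
  have ha : x (i, j, k) ≠ 0 := ht
  have h1 := hPLU κ x i j k (x (i, j, k))⁻¹ hE.1 (inv_mul_cancel₀ ha)
  obtain ⟨M, hM⟩ : ∃ M : Fin 3 → Fin 7 → κ, x = mn M := by
    refine ⟨![fun l => x (i, j, k) * ((x (i, j, k))⁻¹ * x (l, j, k)),
      fun l => (x (i, j, k))⁻¹ * x (i, l, k), fun l => (x (i, j, k))⁻¹ * x (i, j, l)],
      funext fun t => ?_⟩
    rw [h1 t]
    simp only [mn, cons_val_zero, cons_val_one, cons_val_two, head_cons, tail_cons]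
    ring
  subst hM
  have hI := indep ha
  obtain ⟨g, g', e1, e2, e3'⟩ := hEXT κ 3 4 M hI
  obtain ⟨a1, -, -, -, a5, -⟩ := hACT1 κ κ g
  have hr : ∀ r, (fun j => ∑ i, g i j • hk (0 : Fin 6 → κ) r i) = M r := fun r =>
    (funext (row g r)).trans (e3' r)
  refine ⟨g, g', e1, e2, by rw [e3, a1]; exact congrArg mn (funext hr).symm, ?_⟩
  have hb : ∀ s, ∃ B D, bf B D - (bf B D)ᵀ = g * ω s * gᵀ - (g * ω s * gᵀ)ᵀ := fun s =>
    block _ fun a b => by
      have := a5 (ω s) (hk 0 a) (hk 0 b)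
      rw [hr, hr, iso hI (hE.2 s), fm_eq, hk_zero, hk_zero] at this
      generalize g * ω s * gᵀ = W at this
      simpa using this
  choose B D hBD using hb
  exact ⟨B, D, hSAME κ _ _ (fun s => ⟨Pi.single s 1, by rw [sk_single]; exact (hBD s).symm⟩)
    fun s => ⟨Pi.single s 1, by rw [sk_single]; exact hBD s⟩⟩

end Pool.Agent.P.MP_6149fc_ag.V22

end

section

/-! Step TV0. -/

set_option autoImplicit false
set_option linter.unusedSectionVars false

namespace Pool.Agent.P.MP_6149fc_ag.V22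

open Pool.Agent.P.MP_6149fc_ag.V18
open MvPowerSeries (coeff X constantCoeff monomial)
open Matrix

namespace TV0x

open TrivSqZeroExt (inl inr fst snd)

variable {κ : Type} [Field κ]

/-- A vector in the last four coordinates. -/
def nv : (Fin 4 → κ) →ₗ[κ] (Fin 7 → κ) where
  toFun n := ![0, 0, 0, n 0, n 1, n 2, n 3]
  map_add' n n' := by ext i; fin_cases i <;> simp
  map_smul' c n := by ext i; fin_cases i <;> simp

/-- The form with a fixed first vector. -/
def fL (w : Fm κ) (u : Fin 7 → κ) : (Fin 7 → κ) →ₗ[κ] κ where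
  toFun := fm w u
  map_add' := fm_add_right w u
  map_smul' c v := fm_smul_right w c u v

/-- One term of the linearised equations. -/
def tm (w : Fm κ) (a r : Fin 3) : (Fin 3 → Fin 4 → κ) →ₗ[κ] κ :=
  fL w (hk 0 a) ∘ₗ nv ∘ₗ LinearMap.proj r

/-- The linearised equations. -/
def cc (ω : Fin 3 → Fm κ) : (Fin 3 → Fin 4 → κ) →ₗ[κ] (Fin 3 → Fin 3 → κ) :=
  LinearMap.pi fun s => LinearMap.pi ![tm (ω s) 1 2 - tm (ω s) 2 1, tm (ω s) 0 2 - tm (ω s) 2 0,
    tm (ω s) 0 1 - tm (ω s) 1 0]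

theorem cc0 (ω : Fin 3 → Fm κ) (N : Fin 3 → Fin 4 → κ) (s : Fin 3) :
    cc ω N s 0 = fm (ω s) (hk 0 1) (nv (N 2)) - fm (ω s) (hk 0 2) (nv (N 1)) := rfl
theorem cc1 (ω : Fin 3 → Fm κ) (N : Fin 3 → Fin 4 → κ) (s : Fin 3) :
    cc ω N s 1 = fm (ω s) (hk 0 0) (nv (N 2)) - fm (ω s) (hk 0 2) (nv (N 0)) := rfl
theorem cc2 (ω : Fin 3 → Fm κ) (N : Fin 3 → Fin 4 → κ) (s : Fin 3) :
    cc ω N s 2 = fm (ω s) (hk 0 0) (nv (N 1)) - fm (ω s) (hk 0 1) (nv (N 0)) := rfl

theorem fm_dual (w : Fm κ) (u u' v v' : Fin 7 → κ) :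
    fm w (fun i => (inl (u i) + inr (u' i) : DualNumber κ)) (fun i => inl (v i) + inr (v' i)) =
      inl (fm w u v) + inr (fm w u v' - fm w v u') := by
  ext
  · simp [fm, TrivSqZeroExt.fst_sum]
  · simp only [fm, TrivSqZeroExt.snd_sum, TrivSqZeroExt.snd_add, TrivSqZeroExt.snd_inl,
      TrivSqZeroExt.snd_inr, zero_add, ← Finset.sum_sub_distrib]
    refine Finset.sum_congr rfl fun i _ => Finset.sum_congr rfl fun j _ => ?_
    simp
    ring

/-- The deformed matrix. -/
def Mt (N : Fin 3 → Fin 4 → κ) (r : Fin 3) (i : Fin 7) : DualNumber κ :=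
  inl (hk 0 r i) + inr (nv (N r) i)

/-- The tangent vector. -/
def vv (N : Fin 3 → Fin 4 → κ) (t : I3) : κ := snd (mn (Mt N) t)

theorem dual_eq (N : Fin 3 → Fin 4 → κ) : dual3 (e3 κ) (vv N) = mn (Mt N) := by
  funext t
  ext
  · simp [dual3, e3, mn, Mt]
  · simp [dual3, vv]

/-- The twelve coordinates. -/
def idx (r : Fin 3) (k : Fin 4) : I3 :=
  ![(![3, 4, 5, 6] k, 1, 2), (0, ![3, 4, 5, 6] k, 2), (0, 1, ![3, 4, 5, 6] k)] r

theorem vv_idx (N : Fin 3 → Fin 4 → κ) (r : Fin 3) (k : Fin 4) : vv N (idx r k) = N r k := by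
  fin_cases r <;> fin_cases k <;> simp [vv, idx, mn, Mt, hk, nv]

theorem vv_base (N : Fin 3 → Fin 4 → κ) : vv N (0, 1, 2) = 0 := by simp [vv, mn, Mt, hk, nv]

theorem e3_idx (r : Fin 3) (k : Fin 4) : e3 κ (idx r k) = 0 := by
  fin_cases r <;> fin_cases k <;> simp [e3, idx, mn, hk]

theorem e3_base : e3 κ (0, 1, 2) = 1 := by simp [e3, mn, hk]

theorem eq_vv {ω : Fin 3 → Fm κ} (h : ∀ s a b, fm (ω s) (hk (0 : Fin 6 → κ) a) (hk 0 b) = 0)
    {N : Fin 3 → Fin 4 → κ} (hN : cc ω N = 0) : EQ ω (dual3 (e3 κ) (vv N)) := by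
  rw [dual_eq]
  refine eq_mn fun s a b => (fm_dual _ _ _ _ _).trans ?_
  have e0 := (cc0 ω N s).symm.trans (congrFun (congrFun hN s) 0)
  have e1 := (cc1 ω N s).symm.trans (congrFun (congrFun hN s) 1)
  have e2 := (cc2 ω N s).symm.trans (congrFun (congrFun hN s) 2)
  have e : fm (ω s) (hk 0 a) (nv (N b)) = fm (ω s) (hk 0 b) (nv (N a)) := by
    fin_cases a <;> fin_cases b
    exacts [rfl, sub_eq_zero.1 e2, sub_eq_zero.1 e1, (sub_eq_zero.1 e2).symm, rfl,
      sub_eq_zero.1 e0, (sub_eq_zero.1 e1).symm, (sub_eq_zero.1 e0).symm, rfl]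
  rw [h, e, sub_self]
  simp

end TV0x

open TV0x in
theorem p_TV0 :
    S_TV0 := by
  intro κ _ ω hS iso β h1 h2 h3
  by_contra hβ
  have hr : LinearMap.range (cc ω) ≠ ⊤ := fun e => hβ (by
    funext s j
    obtain ⟨N, hN⟩ := LinearMap.range_eq_top.1 e (Pi.single s (Pi.single j 1))
    have k : ∑ s, ∑ j, β s j * cc ω N s j = 0 := by
      have a1 := h1 (nv (N 0))
      have a2 := h2 (nv (N 1))
      have a3 := h3 (nv (N 2))
      simp only [Fin.sum_univ_three, cc0, cc1, cc2] at a1 a2 a3 ⊢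
      linear_combination a3 + a2 - a1
    rw [hN, Finset.sum_eq_single s (fun s' _ n => by simp [Pi.single_eq_of_ne n]) (by simp),
      Finset.sum_eq_single j (fun j' _ n => by simp [Pi.single_eq_of_ne n]) (by simp)] at k
    simpa using k)
  have d1 := Submodule.finrank_lt hr
  have d2 := (cc ω).finrank_range_add_finrank_ker
  simp only [Module.finrank_pi_fintype, Module.finrank_self, Finset.sum_const, Finset.card_univ,
    Fintype.card_fin, smul_eq_mul] at d1 d2
  obtain ⟨f, hf⟩ := exists_linearIndependent_of_le_finrank (R := κ) (M := LinearMap.ker (cc ω))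
    (n := 4) (by omega)
  have hN := Fintype.linearIndependent_iff.1 (hf.map' _ (Submodule.ker_subtype _))
  have hE : EQ ω (e3 κ) := eq_mn iso
  have hE' : EQ ω (dual3 (e3 κ) (e3 κ)) := by
    have e : dual3 (e3 κ) (e3 κ) = fun t => (1 + DualNumber.eps) *
        TrivSqZeroExt.inlAlgHom κ κ κ (e3 κ t) := by
      funext t
      ext <;> simp [dual3]
    exact e ▸ (hE.map _).mul _
  refine hS (e3 κ) (fun e => one_ne_zero (e3_base.symm.trans (congrFun e _))) hE
    (Fin.cons (e3 κ) fun a => vv (f a).1) (Fin.cases hE' fun a => eq_vv iso (f a).2)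
    (Fintype.linearIndependent_iff.2 fun g hg => ?_)
  rw [Fin.sum_univ_succ] at hg
  refine Fin.cases ?_ (hN (fun a => g a.succ) ?_)
  · simpa [e3_base, vv_base, Finset.sum_apply] using congrFun hg (0, 1, 2)
  · funext r k
    simpa [e3_idx, vv_idx, Finset.sum_apply] using congrFun hg (idx r k)

end Pool.Agent.P.MP_6149fc_ag.V22

end
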