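import Pool.Agent.P.MP_6149fc_ag.V22.IfaceG

section

/-! Step TV. -/

set_option autoImplicit false
set_option linter.unusedSectionVars false

namespace Pool.Agent.P.MP_6149fc_ag.V22

open Pool.Agent.P.MP_6149fc_ag.V18
open MvPowerSeries (coeff X constantCoeff monomial)
open Matrix

namespace TVx

theorem row {κ : Type} [Field κ] (g : Fm κ) (a : Fin 3) :
    (fun j => ∑ i, g i j • hk (0 : Fin 6 → κ) a i) = g (Fin.castAdd 4 a) := by
  funext j
  fin_cases a <;> simp [hk, Fin.sum_univ_succ]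

end TVx

theorem p_TV (hTV0 : S_TV0) (hEXT : S_EXT) (hAUT1 : S_AUT1) (hACT1 : S_ACT1) :
    S_TV := by
  intro κ _ ω hs M hM h0 β h1 h2 h3
  obtain ⟨g, g', e1, e2, e3⟩ := hEXT κ 3 4 M hM
  have key : ∀ s a v, fm (g * ω s * gᵀ : Fm κ) (hk (0 : Fin 6 → κ) a) v =
      fm (ω s) (M a) fun j => ∑ i, g i j • v i := fun s a v => by
    rw [(hACT1 κ κ g).2.2.2.2.1, TVx.row, e3]
  refine hTV0 κ _ (hAUT1 κ g g' ω e1 e2 hs) (fun s a b => ?_) β (fun v => ?_) (fun v => ?_)
    fun v => ?_
  · rw [key, TVx.row, e3, h0]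
  · simp only [key]; exact h1 _
  · simp only [key]; exact h2 _
  · simp only [key]; exact h3 _

end Pool.Agent.P.MP_6149fc_ag.V22

end

section

/-! Step PAR5. -/

set_option autoImplicit false
set_option linter.unusedSectionVars false

namespace Pool.Agent.P.MP_6149fc_ag.V22

open Pool.Agent.P.MP_6149fc_ag.V18
open MvPowerSeries (coeff X constantCoeff monomial)
open Matrix

theorem p_PAR5 (hEXT : S_EXT) :
    S_PAR5 := by
  intro κ _ _ S u v hS hu hv hli
  obtain ⟨g, g', h1, h2, hg⟩ := hEXT κ 2 5 ![u, v] hli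
  have hM : ∀ r : Fin 2, S *ᵥ (![u, v] r) = 0 := fun r => by fin_cases r <;> assumption
  obtain ⟨T, hT⟩ : ∃ T : Matrix (Fin (2 + 5)) (Fin (2 + 5)) κ, T = g * S * gᵀ := ⟨_, rfl⟩
  have t1 : Tᵀ = -T := by
    rw [hT, transpose_mul, transpose_mul, transpose_transpose, hS, Matrix.neg_mul, Matrix.mul_neg,
      Matrix.mul_assoc]
  have t2 : ∀ i r, T i (Fin.castAdd 5 r) = 0 := fun i r => by
    have : T i (Fin.castAdd 5 r) = (g *ᵥ (S *ᵥ g (Fin.castAdd 5 r))) i := by
      rw [hT, mulVec_mulVec]; rfl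
    rw [this, hg, hM, mulVec_zero]; rfl
  have t3 : ∀ i r, T (Fin.castAdd 5 r) i = 0 := fun i r => by
    have := congrFun (congrFun t1 i) (Fin.castAdd 5 r)
    rwa [transpose_apply, neg_apply, t2, neg_zero] at this
  have hd : (T.submatrix (Fin.natAdd 2) (Fin.natAdd 2)).det = 0 := by
    have e := det_transpose (T.submatrix (Fin.natAdd 2) (Fin.natAdd 2))
    rw [transpose_submatrix, t1, submatrix_neg, Pi.neg_apply, Pi.neg_apply, det_neg,
      Fintype.card_fin] at e
    linear_combination (-1 / 2 : κ) * e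
  obtain ⟨y, hy0, hy⟩ := exists_mulVec_eq_zero_iff.2 hd
  have hY : T *ᵥ Fin.append (0 : Fin 2 → κ) y = 0 := funext fun i => by
    refine Fin.addCases (fun r => ?_) (fun a => ?_) i
    · simp [mulVec, dotProduct, t3]
    · rw [mulVec, dotProduct, Fin.sum_univ_add]
      simpa [mulVec, dotProduct] using congrFun hy a
  refine ⟨Fin.cons (Fin.append (0 : Fin 2 → κ) y ᵥ* g) ![u, v],
    linearIndependent_finCons.2 ⟨hli, fun h => hy0 ?_⟩, Fin.cases ?_ hM⟩
  · obtain ⟨c, hc⟩ := (Submodule.mem_span_range_iff_exists_fun κ).1 h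
    have e : Fin.append c (0 : Fin 5 → κ) ᵥ* g = Fin.append (0 : Fin 2 → κ) y ᵥ* g := by
      rw [← hc, vecMul_eq_sum, Fin.sum_univ_add]
      simp only [Fin.append_left, Fin.append_right, Pi.zero_apply, zero_smul, Finset.sum_const_zero,
        add_zero, hg]
    have e' := congrArg (· ᵥ* g') e
    simp only [vecMul_vecMul, h1, vecMul_one] at e'
    funext a
    simpa using (congrFun e' (Fin.natAdd 2 a)).symm
  · have := congrArg (g' *ᵥ ·) hY
    simp only [hT, mulVec_mulVec, ← Matrix.mul_assoc, h2, Matrix.one_mul, mulVec_zero] at this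
    rw [Fin.cons_zero, ← mulVec_transpose, mulVec_mulVec]
    exact this

end Pool.Agent.P.MP_6149fc_ag.V22

end

section

/-! Step ISO2. -/

set_option autoImplicit false
set_option linter.unusedSectionVars false

namespace Pool.Agent.P.MP_6149fc_ag.V22

open Pool.Agent.P.MP_6149fc_ag.V18
open MvPowerSeries (coeff X constantCoeff monomial)
open Matrix

namespace ISO2x

variable {κ : Type} [Field κ]

theorem sum_fm (ω : Fin 3 → Fm κ) (c : Fin 3 → κ) (u v : Fin 7 → κ) :
    ∑ s, c s * fm (ω s) u v = u ⬝ᵥ (sk ω c *ᵥ v) := by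
  simp only [sk, Fin.sum_univ_three, fm_eq, add_mulVec, smul_mulVec, dotProduct_add,
    dotProduct_smul, smul_eq_mul]

theorem three (ω : Fin 3 → Fm κ) (S : Fm κ) (a b d : Fin 7 → κ) (x y z : κ) (hx : x ≠ 0)
    (hl : ∀ p q r : κ, p • a + q • b + r • d = 0 → q = 0 ∧ r = 0)
    (ha : S *ᵥ a = 0) (hb : S *ᵥ b = 0) (hd : S *ᵥ d = 0)
    (hn : ∀ s, fm (ω s) b d * x + fm (ω s) d a * y + fm (ω s) a b * z = 0) :
    ∃ f g : Fin 7 → κ, LinearIndependent κ ![f, g] ∧ S *ᵥ f = 0 ∧ S *ᵥ g = 0 ∧
      ∀ s, fm (ω s) f g = 0 := by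
  refine ⟨x • b + (-y) • a, x • d + (-z) • a, ?_, ?_, ?_, fun s => ?_⟩
  · rw [LinearIndependent.pair_iff]
    intro p q h
    have h' : (-(p * y) - q * z) • a + (p * x) • b + (q * x) • d = 0 := by
      rw [← h]
      module
    obtain ⟨h1, h2⟩ := hl _ _ _ h'
    exact ⟨(mul_eq_zero.1 h1).resolve_right hx, (mul_eq_zero.1 h2).resolve_right hx⟩
  · rw [mulVec_add, mulVec_smul, mulVec_smul, ha, hb, smul_zero, smul_zero, add_zero]
  · rw [mulVec_add, mulVec_smul, mulVec_smul, ha, hd, smul_zero, smul_zero, add_zero]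
  · have h := hn s
    simp only [fm_add_left, fm_add_right, fm_smul_left, fm_smul_right, fm_self]
    rw [fm_swap (ω s) a d] at h
    rw [fm_swap (ω s) a b]
    linear_combination x * h

end ISO2x

open ISO2x in
theorem p_ISO2 :
    S_ISO2 := by
  intro κ _ ω c k hc hk hS
  let A : Matrix (Fin 3) (Fin 3) κ := Matrix.of fun s =>
    ![fm (ω s) (k 1) (k 2), fm (ω s) (k 2) (k 0), fm (ω s) (k 0) (k 1)]
  have hv : c ᵥ* A = 0 := by
    funext j
    have h := fun u v => sum_fm ω c (k u) (k v)
    simp only [hS, dotProduct_zero] at h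
    fin_cases j
    · simpa [A, vecMul, dotProduct] using h 1 2
    · simpa [A, vecMul, dotProduct] using h 2 0
    · simpa [A, vecMul, dotProduct] using h 0 1
  have hdet : A.det = 0 := Matrix.exists_vecMul_eq_zero_iff.1 ⟨c, hc, hv⟩
  obtain ⟨n, hn0, hn⟩ := Matrix.exists_mulVec_eq_zero_iff.2 hdet
  have hs : ∀ s, fm (ω s) (k 1) (k 2) * n 0 + fm (ω s) (k 2) (k 0) * n 1 +
      fm (ω s) (k 0) (k 1) * n 2 = 0 := fun s => by
    have := congrFun hn s
    simpa [A, mulVec, dotProduct, Fin.sum_univ_three] using this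
  have hl : ∀ p q r : κ, p • k 0 + q • k 1 + r • k 2 = 0 → p = 0 ∧ q = 0 ∧ r = 0 := by
    intro p q r h
    have h' := Fintype.linearIndependent_iff.1 hk ![p, q, r] (by
      simpa [Fin.sum_univ_three] using h)
    exact ⟨h' 0, h' 1, h' 2⟩
  by_cases h0 : n 0 = 0
  · by_cases h1 : n 1 = 0
    · have h2 : n 2 ≠ 0 := fun h2 => hn0 (by funext i; fin_cases i <;> assumption)
      refine three ω _ (k 2) (k 0) (k 1) (n 2) (n 0) (n 1) h2 (fun p q r h => ?_) (hS 2) (hS 0)
        (hS 1) fun s => by linear_combination hs s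
      obtain ⟨a, b, -⟩ := hl q r p (by rw [← h]; abel)
      exact ⟨a, b⟩
    · refine three ω _ (k 1) (k 2) (k 0) (n 1) (n 2) (n 0) h1 (fun p q r h => ?_) (hS 1) (hS 2)
        (hS 0) fun s => by linear_combination hs s
      obtain ⟨a, -, b⟩ := hl r p q (by rw [← h]; abel)
      exact ⟨b, a⟩
  · exact three ω _ (k 0) (k 1) (k 2) (n 0) (n 1) (n 2) h0 (fun p q r h => (hl p q r h).2) (hS 0)
      (hS 1) (hS 2) hs

end Pool.Agent.P.MP_6149fc_ag.V22

end

section

/-! Step ND. -/

set_option autoImplicit false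
set_option linter.unusedSectionVars false

namespace Pool.Agent.P.MP_6149fc_ag.V22

open Pool.Agent.P.MP_6149fc_ag.V18
open MvPowerSeries (coeff X constantCoeff monomial)
open Matrix

namespace NDx

variable {κ : Type} [Field κ]

theorem rel {ω : Fin 3 → Fm κ} {c : Fin 3 → κ} {f : Fin 7 → κ} (h : sk ω c *ᵥ f = 0)
    (v : Fin 7 → κ) : ∑ s, c s * fm (ω s) f v = 0 := by
  have e : ∑ s, c s * fm (ω s) v f = v ⬝ᵥ (sk ω c *ᵥ f) := by
    simp only [sk, fm_eq, Matrix.sum_mulVec, dotProduct_sum, Matrix.smul_mulVec, dotProduct_smul,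
      smul_eq_mul]
  rw [h, dotProduct_zero] at e
  simp only [fm_swap _ v f, mul_neg, Finset.sum_neg_distrib, e, neg_zero]

theorem all {ω : Fin 3 → Fm κ} {c : Fin 3 → κ} {f h : Fin 7 → κ} (hf : sk ω c *ᵥ f = 0)
    (s0 : Fin 3) (h0 : c s0 ≠ 0) (hh : ∀ j : Fin 2, fm (ω (s0.succAbove j)) f h = 0) (s : Fin 3) :
    fm (ω s) f h = 0 := by
  rcases Fin.eq_self_or_eq_succAbove s0 s with rfl | ⟨j, rfl⟩
  · have := rel hf h
    rw [Fin.sum_univ_succAbove _ s] at this
    simpa [hh, h0] using this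
  · exact hh j

theorem third (A : Matrix (Fin 2 ⊕ Fin 2) (Fin 7) κ) (v : Fin 2 → Fin 7 → κ) :
    ∃ h, A *ᵥ h = 0 ∧ h ∉ Submodule.span κ (Set.range v) := by
  by_contra c
  have le : LinearMap.ker A.mulVecLin ≤ Submodule.span κ (Set.range v) := fun h hh => by
    by_contra c'
    exact c ⟨h, hh, c'⟩
  have h1 := LinearMap.finrank_range_add_finrank_ker A.mulVecLin
  have h2 := Submodule.finrank_le (LinearMap.range A.mulVecLin)
  have h3 := (Submodule.finrank_mono le).trans (finrank_range_le_card v)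
  simp only [Module.finrank_fintype_fun_eq_card, Fintype.card_sum, Fintype.card_fin] at h1 h2 h3
  omega

end NDx

theorem p_ND (hPAR5 : S_PAR5) (hISO2 : S_ISO2) :
    S_ND := by
  intro κ _ _ ω hT c hc u v hu hv huv
  have hs : (sk ω c)ᵀ = -sk ω c := by
    simp only [sk, transpose_sum, transpose_smul, transpose_sub, transpose_transpose,
      ← Finset.sum_neg_distrib, ← smul_neg, neg_sub]
  obtain ⟨k, k1, k2⟩ := hPAR5 κ _ u v hs hu hv huv
  obtain ⟨f, g, hfg, hf, hg, h0⟩ := hISO2 κ ω c k hc k1 k2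
  obtain ⟨s0, hs0⟩ := Function.ne_iff.1 hc
  obtain ⟨h, h1, h2⟩ := NDx.third (Matrix.of (Sum.elim
    (fun j : Fin 2 => f ᵥ* (ω (s0.succAbove j) - (ω (s0.succAbove j))ᵀ))
    fun j : Fin 2 => g ᵥ* (ω (s0.succAbove j) - (ω (s0.succAbove j))ᵀ))) ![f, g]
  have a1 := NDx.all (h := h) hf s0 hs0 fun j => by
    rw [fm_eq, dotProduct_mulVec]; exact congrFun h1 (Sum.inl j)
  have a2 := NDx.all (h := h) hg s0 hs0 fun j => by
    rw [fm_eq, dotProduct_mulVec]; exact congrFun h1 (Sum.inr j)
  have b0 : ∀ s, fm (ω s) g f = 0 := fun s => by rw [fm_swap, h0, neg_zero]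
  have b1 : ∀ s, fm (ω s) h f = 0 := fun s => by rw [fm_swap, a1, neg_zero]
  have b2 : ∀ s, fm (ω s) h g = 0 := fun s => by rw [fm_swap, a2, neg_zero]
  have := hT ![h, f, g] (linearIndependent_finCons.2 ⟨hfg, h2⟩)
    (fun s a b => by fin_cases a <;> fin_cases b <;> simp [fm_self, a1, a2, b0, b1, b2, h0])
    (fun s => ![c s, 0, 0]) (fun w => by simp) (fun w => by simpa using NDx.rel hg w)
    fun w => by simpa using NDx.rel hf w
  exact hs0 (congrFun (congrFun this s0) 0)

end Pool.Agent.P.MP_6149fc_ag.V22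

end

section

/-! Step RATA. -/

set_option autoImplicit false
set_option linter.unusedSectionVars false

namespace Pool.Agent.P.MP_6149fc_ag.V22

open Pool.Agent.P.MP_6149fc_ag.V18
open MvPowerSeries (coeff X constantCoeff monomial)
open Matrix

theorem p_RATA :
    S_RATA := by
  intro κ _ S u i hS hK hu hi h0
  rw [adjugate_apply] at h0
  obtain ⟨w, w0, hw⟩ := exists_mulVec_eq_zero_iff.2 h0
  have a : w i = 0 := by
    have := congrFun hw i
    rwa [mulVec, updateRow_self, single_dotProduct, one_mul] at this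
  have b : ∀ j, j ≠ i → (S *ᵥ w) j = 0 := fun j hj => by
    have := congrFun hw j
    rwa [mulVec, updateRow_ne hj] at this
  have c : u ⬝ᵥ S *ᵥ w = 0 := by
    rw [dotProduct_mulVec, ← mulVec_transpose, hS, neg_mulVec, hu, neg_zero, zero_dotProduct]
  rw [dotProduct, Finset.sum_eq_single i (fun j _ hj => by rw [b j hj, mul_zero]) (by simp)] at c
  refine hK u w hu (funext fun j => ?_) (LinearIndependent.pair_iff.2 fun s t e => ?_)
  · by_cases d : j = i
    · exact d ▸ (mul_eq_zero.1 c).resolve_left hi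
    · exact b j d
  · have d : s = 0 := by simpa [a, hi] using congrFun e i
    exact ⟨d, by simpa [d, w0] using e⟩

end Pool.Agent.P.MP_6149fc_ag.V22

end

section

/-! Step RATB. -/

set_option autoImplicit false
set_option linter.unusedSectionVars false

namespace Pool.Agent.P.MP_6149fc_ag.V22

open Pool.Agent.P.MP_6149fc_ag.V18
open MvPowerSeries (coeff X constantCoeff monomial)
open Matrix

theorem p_RATB :
    S_RATB := by
  intro κ _ S u hS hK hu h0 i j
  have hd : S.det = 0 := Matrix.exists_mulVec_eq_zero_iff.1 ⟨u, h0, hu⟩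
  have k : ∀ v, S *ᵥ v = 0 → ∃ a : κ, ∀ t, v t = a * u t := by
    intro v hv
    have h := hK u v hu hv
    rw [LinearIndependent.pair_iff' h0] at h
    push Not at h
    obtain ⟨a, ha⟩ := h
    exact ⟨a, fun t => by rw [← ha]; rfl⟩
  have c : ∀ b, ∃ a : κ, ∀ t, S.adjugate t b = a * u t := fun b => k (fun t => S.adjugate t b) (by
    funext r
    have := congrFun (congrFun (Matrix.mul_adjugate S) r) b
    rw [hd, zero_smul] at this
    exact this)
  have r : ∀ b, ∃ a : κ, ∀ t, S.adjugate b t = a * u t := fun b => k (fun t => S.adjugate b t) (by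
    funext s
    have := congrFun (congrFun (Matrix.adjugate_mul S) b) s
    rw [hd, zero_smul, Matrix.mul_apply] at this
    have e : ∀ t, S s t = -S t s := fun t => congrFun (congrFun hS t) s
    simp only [mulVec, dotProduct, e, neg_mul, Finset.sum_neg_distrib, Pi.zero_apply, neg_eq_zero]
    simpa only [mul_comm, Matrix.zero_apply] using this)
  obtain ⟨a, ha⟩ := c i
  obtain ⟨b, hb⟩ := r j
  have e : a * u j = b * u i := (ha j).symm.trans (hb i)
  rw [ha i, hb j]
  linear_combination u i * u j * e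

end Pool.Agent.P.MP_6149fc_ag.V22

end

section

/-! Step RATC. -/

set_option autoImplicit false
set_option linter.unusedSectionVars false

namespace Pool.Agent.P.MP_6149fc_ag.V22

open Pool.Agent.P.MP_6149fc_ag.V18
open MvPowerSeries (coeff X constantCoeff monomial)
open Matrix

namespace RATCx

theorem det_deg {κ : Type} [Field κ] {n : ℕ} (N : Matrix (Fin n) (Fin n) (Polynomial κ)) (d : ℕ)
    (h : ∀ i j, (N i j).natDegree ≤ d) :
    N.det.natDegree ≤ n * d ∧ N.det.coeff (n * d) = (N.map fun f => f.coeff d).det := by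
  constructor
  · rw [det_apply]
    refine Polynomial.natDegree_sum_le_of_forall_le _ _ fun σ _ => ?_
    refine (Polynomial.natDegree_smul_le _ _).trans ((Polynomial.natDegree_prod_le _ _).trans ?_)
    simpa using Finset.sum_le_card_nsmul Finset.univ (fun i => (N (σ i) i).natDegree) d
      fun i _ => h _ _
  · rw [det_apply, det_apply, Polynomial.finsetSum_coeff]
    refine Finset.sum_congr rfl fun σ _ => ?_
    have := Polynomial.coeff_prod_of_natDegree_le Finset.univ (fun i => N (σ i) i) d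
      fun i _ => h _ _
    rw [Finset.card_univ, Fintype.card_fin] at this
    rw [Polynomial.coeff_smul, this]
    rfl

end RATCx

theorem p_RATC :
    S_RATC := by
  intro κ _ M d h i
  rw [adjugate_fin_succ_eq_det_submatrix, adjugate_fin_succ_eq_det_submatrix,
    Even.neg_one_pow ⟨_, rfl⟩, Even.neg_one_pow ⟨_, rfl⟩, one_mul, one_mul]
  exact RATCx.det_deg _ d fun _ _ => h _ _

end Pool.Agent.P.MP_6149fc_ag.V22

end

section

/-! Step PRIM. -/

set_option autoImplicit false
set_option linter.unusedSectionVars false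

namespace Pool.Agent.P.MP_6149fc_ag.V22

open Pool.Agent.P.MP_6149fc_ag.V18
open MvPowerSeries (coeff X constantCoeff monomial)
open Matrix

theorem p_PRIM :
    S_PRIM := by
  intro κ n _ _ c hc
  classical
  obtain ⟨h, hh⟩ : ∃ h : Polynomial κ, Ideal.span (Set.range c) = Ideal.span {h} :=
    ⟨_, (Ideal.span_singleton_generator _).symm⟩
  have hd : ∀ i, ∃ q, c i = h * q := fun i =>
    Ideal.mem_span_singleton.1 (hh ▸ Ideal.subset_span ⟨i, rfl⟩)
  choose c' hc' using hd
  have h0 : h ≠ 0 := fun e => hc (funext fun i => by rw [hc' i, e, zero_mul]; rfl)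
  obtain ⟨b, hb⟩ : ∃ b : n → Polynomial κ, ∑ i, b i * c i = h :=
    Ideal.mem_span_range_iff_exists_fun.1 (hh ▸ Ideal.mem_span_singleton_self h)
  have hb1 : ∑ i, b i * c' i = 1 := by
    refine mul_left_cancel₀ h0 ?_
    rw [mul_one, Finset.mul_sum]
    refine (Finset.sum_congr rfl fun i _ => ?_).trans hb
    rw [hc' i]; ring
  have hne : (Finset.univ.filter fun i => c' i ≠ 0).Nonempty := by
    by_contra e
    refine hc (funext fun i => ?_)
    have : c' i = 0 := by
      by_contra e'
      exact e ⟨i, Finset.mem_filter.2 ⟨Finset.mem_univ _, e'⟩⟩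
    rw [hc' i, this, mul_zero]; rfl
  obtain ⟨i0, hi0, hmax⟩ := Finset.exists_max_image _ (fun i => (c' i).natDegree) hne
  have hi : c' i0 ≠ 0 := (Finset.mem_filter.1 hi0).2
  refine ⟨h, c', b, (c' i0).natDegree, h0, hc', hb1, fun i => ?_,
    ⟨i0, Polynomial.leadingCoeff_ne_zero.2 hi⟩, fun e he => ?_⟩
  · by_cases e : c' i = 0
    · simp [e]
    · exact hmax i (Finset.mem_filter.2 ⟨Finset.mem_univ _, e⟩)
  · have := he i0
    rw [hc' i0, Polynomial.natDegree_mul h0 hi] at this
    omega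

end Pool.Agent.P.MP_6149fc_ag.V22

end

section

/-! Step RAT. -/

set_option autoImplicit false
set_option linter.unusedSectionVars false

namespace Pool.Agent.P.MP_6149fc_ag.V22

open Pool.Agent.P.MP_6149fc_ag.V18
open MvPowerSeries (coeff X constantCoeff monomial)
open Matrix

namespace RATx

theorem deg_le {κ : Type} [Field κ] [IsAlgClosed κ] {a c : Polynomial κ} (hc : c ≠ 0)
    (h : ∀ t : κ, ∃ p q : Polynomial κ, q.eval t ≠ 0 ∧ a * p = q * c) :
    a.natDegree ≤ c.natDegree := by
  classical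
  rw [← IsAlgClosed.card_roots_eq_natDegree]
  refine le_trans (Multiset.card_le_card (Multiset.le_iff_count.2 fun t => ?_)) c.card_roots'
  obtain ⟨p, q, hq, e⟩ := h t
  have h0 : q * c ≠ 0 := mul_ne_zero (fun e' => hq (by rw [e', Polynomial.eval_zero])) hc
  have h1 := Polynomial.rootMultiplicity_mul (x := t) h0
  rw [← e, Polynomial.rootMultiplicity_mul (e ▸ h0), Polynomial.rootMultiplicity_eq_zero hq] at h1
  rw [Polynomial.count_roots, Polynomial.count_roots]
  omega

theorem skew {A B : Type} [AddGroup A] [AddGroup B] {M : Matrix (Fin 7) (Fin 7) A} (h : Mᵀ = -M)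
    (f : A → B) (hf : ∀ x, f (-x) = -f x) : (M.map f)ᵀ = -M.map f := by
  ext i j
  have := congrFun (congrFun h i) j
  rw [transpose_apply, Matrix.neg_apply] at this
  rw [transpose_apply, Matrix.neg_apply, map_apply, map_apply, this, hf]

theorem adj {κ n : Type} [Field κ] [Fintype n] [DecidableEq n] (M : Matrix n n (Polynomial κ))
    (t : κ) (j : n) : (M.map (Polynomial.eval t)).adjugate j j = (M.adjugate j j).eval t :=
  (congrFun (congrFun ((Polynomial.evalRingHom t).map_adjugate M) j) j).symm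

theorem ev {κ n : Type} [Field κ] [Fintype n] [DecidableEq n] (M : Matrix n n (Polynomial κ))
    (w : n → Polynomial κ) (s : κ) (i j : n)
    (h : (M.map (Polynomial.eval s)).adjugate i i * (w j).eval s ^ 2 =
      (M.map (Polynomial.eval s)).adjugate j j * (w i).eval s ^ 2) :
    (M.adjugate i i * w j ^ 2).eval s = (M.adjugate j j * w i ^ 2).eval s := by
  rwa [Polynomial.eval_mul, Polynomial.eval_mul, Polynomial.eval_pow, Polynomial.eval_pow,
    ← adj, ← adj]

theorem top {κ n : Type} [Field κ] [Fintype n] (M : Matrix n n (Polynomial κ))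
    (w : n → Polynomial κ) {d e : ℕ} (hd : ∀ i j, (M i j).natDegree ≤ d)
    (he : ∀ i, (w i).natDegree ≤ e) (h : ∀ k, ∑ j, M k j * w j = 0) :
    (M.map fun f => f.coeff d) *ᵥ (fun j => (w j).coeff e) = 0 := by
  funext k
  have := congrArg (fun f => Polynomial.coeff f (d + e)) (h k)
  simp only [Polynomial.finsetSum_coeff, Polynomial.coeff_zero,
    Polynomial.coeff_mul_add_eq_of_natDegree_le (hd _ _) (he _)] at this
  exact this

end RATx

theorem p_RAT (hRATA : S_RATA) (hRATB : S_RATB) (hRATC : S_RATC) (hPRIM : S_PRIM) :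
    S_RAT := by
  intro κ _ _ M u d e hM hd hK hKd hu he hMu
  obtain ⟨h, w, b, e', h0, hw, hb, hdeg, ⟨i, hi⟩, hmin⟩ := hPRIM κ (Fin 7) u hu
  have hMw : ∀ k, ∑ j, M k j * w j = 0 := fun k => by
    have := congrFun hMu k
    simp only [mulVec, dotProduct, hw, Pi.zero_apply] at this
    refine mul_left_cancel₀ h0 ?_
    rw [mul_zero, ← this, Finset.mul_sum]
    exact Finset.sum_congr rfl fun j _ => by ring
  have hev : ∀ t : κ, M.map (Polynomial.eval t) *ᵥ (fun j => (w j).eval t) = 0 := fun t => by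
    funext k
    have := congrArg (Polynomial.eval t) (hMw k)
    simpa only [mulVec, dotProduct, map_apply, Polynomial.eval_finsetSum, Polynomial.eval_mul,
      Polynomial.eval_zero, Pi.zero_apply] using this
  have hne : ∀ t : κ, ∃ j, (w j).eval t ≠ 0 := fun t => by
    by_contra hc
    push Not at hc
    have := congrArg (Polynomial.eval t) hb
    simp [Polynomial.eval_finsetSum, hc] at this
  have hsk : ∀ t : κ, (M.map (Polynomial.eval t))ᵀ = -M.map (Polynomial.eval t) := fun t =>
    RATx.skew hM _ fun x => Polynomial.eval_neg x t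
  have hadj := RATx.adj M
  have htop := RATx.top M w hd hdeg hMw
  have ha : (M.adjugate i i).coeff (6 * d) ≠ 0 := by
    rw [(hRATC κ M d hd i).2]
    exact hRATA κ _ _ i (RATx.skew hM _ fun x => Polynomial.coeff_neg x d) hKd htop hi
  have hwi : w i ≠ 0 := fun e0 => hi (by rw [e0, Polynomial.coeff_zero])
  have key : (M.adjugate i i).natDegree ≤ (w i ^ 2).natDegree := by
    refine RATx.deg_le (pow_ne_zero 2 hwi) fun t => ?_
    obtain ⟨j, hj⟩ := hne t
    refine ⟨w j ^ 2, M.adjugate j j, ?_, Polynomial.funext fun s => ?_⟩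
    · exact fun e0 => hRATA κ _ _ j (hsk t) (hK t) (hev t) hj ((hadj t j).trans e0)
    · obtain ⟨k, hk⟩ := hne s
      exact RATx.ev M w s i j
        (hRATB κ _ _ (hsk s) (hK s) (hev s) (fun e0 => hk (congrFun e0 k)) i j)
  have h1 := (Polynomial.le_natDegree_of_ne_zero ha).trans key
  have h2 := hdeg i
  have h3 := hmin e he
  rw [Polynomial.natDegree_pow] at h1
  clear key ha
  omega

end Pool.Agent.P.MP_6149fc_ag.V22

end

section

/-! Step HK0. -/

set_option autoImplicit false
set_option linter.unusedSectionVars false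

namespace Pool.Agent.P.MP_6149fc_ag.V22

open Pool.Agent.P.MP_6149fc_ag.V18
open MvPowerSeries (coeff X constantCoeff monomial)
open Matrix

namespace HK0x

open Polynomial (C)

variable {κ : Type} [Field κ]

/-- The skew matrix with polynomial coefficients. -/
noncomputable def PM (w : Fin 3 → Fm κ) (c : Fin 3 → Polynomial κ) :
    Matrix (Fin 7) (Fin 7) (Polynomial κ) :=
  Matrix.of fun i j => ∑ s, c s * C ((w s - (w s)ᵀ) i j)

theorem PM_skew (w : Fin 3 → Fm κ) (c : Fin 3 → Polynomial κ) : (PM w c)ᵀ = -PM w c := by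
  ext1 i j
  simp only [PM, transpose_apply, Matrix.neg_apply, of_apply, Matrix.sub_apply,
    ← Finset.sum_neg_distrib, map_sub]
  exact Finset.sum_congr rfl fun s _ => by ring

theorem PM_deg (w : Fin 3 → Fm κ) (c : Fin 3 → Polynomial κ) (d : ℕ)
    (h : ∀ s, (c s).natDegree ≤ d) (i j : Fin 7) : (PM w c i j).natDegree ≤ d := by
  rw [PM, of_apply]
  exact Polynomial.natDegree_sum_le_of_forall_le _ _ fun s _ =>
    (Polynomial.natDegree_mul_C_le _ _).trans (h s)

theorem PM_eval (w : Fin 3 → Fm κ) (c : Fin 3 → Polynomial κ) (t : κ) :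
    (PM w c).map (Polynomial.eval t) = sk w fun s => (c s).eval t := by
  ext i j
  simp only [PM, sk, map_apply, of_apply, Polynomial.eval_finsetSum, Polynomial.eval_mul,
    Polynomial.eval_C, Matrix.sum_apply, Matrix.smul_apply, smul_eq_mul]

theorem PM_coeff (w : Fin 3 → Fm κ) (c : Fin 3 → Polynomial κ) (d : ℕ) :
    (PM w c).map (fun f => f.coeff d) = sk w fun s => (c s).coeff d := by
  ext i j
  simp only [PM, sk, map_apply, of_apply, Polynomial.finsetSum_coeff, Polynomial.coeff_mul_C,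
    Matrix.sum_apply, Matrix.smul_apply, smul_eq_mul]

/-- Extension by zero. -/
def ez {R : Type} [Zero R] (u : Fin 3 → R) : Fin 7 → R := ![u 0, u 1, u 2, 0, 0, 0, 0]

theorem PM_ker (B : Fin 3 → Matrix (Fin 3) (Fin 4) κ) (D : Fin 3 → Matrix (Fin 4) (Fin 4) κ)
    (c u : Fin 3 → Polynomial κ) (h : ∀ k, ∑ s, ∑ i, c s * u i * C (B s i k) = 0) :
    PM (bnet B D) c *ᵥ ez u = 0 := by
  have h0 := h 0
  have h1 := h 1
  have h2 := h 2
  have h3 := h 3
  simp only [Fin.sum_univ_three] at h0 h1 h2 h3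
  funext i
  fin_cases i <;>
    simp [PM, ez, mulVec, dotProduct, Fin.sum_univ_seven, Fin.sum_univ_three, bnet, bf]
  · linear_combination -h0
  · linear_combination -h1
  · linear_combination -h2
  · linear_combination -h3

theorem minor {n : Type} (u v : n → κ) (h : ¬ LinearIndependent κ ![u, v]) (i j : n) :
    u i * v j = u j * v i := by
  by_contra hne
  refine h (LinearIndependent.pair_iff.2 fun s t e => ?_)
  have e1 := congrFun e i
  have e2 := congrFun e j
  simp only [Pi.add_apply, Pi.smul_apply, smul_eq_mul, Pi.zero_apply] at e1 e2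
  have hd : u i * v j - u j * v i ≠ 0 := sub_ne_zero.2 hne
  exact ⟨mul_right_cancel₀ hd (by linear_combination v j * e1 - v i * e2),
    mul_right_cancel₀ hd (by linear_combination u i * e2 - u j * e1)⟩

end HK0x

open HK0x in
theorem p_HK0 (hRAT : S_RAT) (hPRIM : S_PRIM) :
    S_HK0 := by
  intro κ _ _ B D hN c u hc hu hd h
  obtain ⟨g, c', b, d, hg, e, hb, hdeg, ⟨i0, hi0⟩, -⟩ := hPRIM κ (Fin 3) c hc
  have h' : ∀ k, ∑ s, ∑ i, c' s * u i * Polynomial.C (B s i k) = 0 := fun k => by
    refine mul_left_cancel₀ hg ?_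
    rw [mul_zero, ← h k]
    simp only [Finset.mul_sum, e, mul_assoc]
  have hk := PM_ker B D c' u h'
  have hev : ∀ t : κ, (fun s => (c' s).eval t) ≠ 0 := fun t ht => by
    have := congrArg (Polynomial.eval t) hb
    simp only [Polynomial.eval_finsetSum, Polynomial.eval_mul, Polynomial.eval_one] at this
    rw [Finset.sum_eq_zero fun s _ => by rw [show (c' s).eval t = 0 from congrFun ht s, mul_zero]]
      at this
    exact zero_ne_one this
  have hco : (fun s => (c' s).coeff d) ≠ 0 := fun ht => hi0 (congrFun ht i0)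
  have hU : ez u ≠ 0 := fun h0 => hu (funext fun i => by
    fin_cases i
    exacts [congrFun h0 0, congrFun h0 1, congrFun h0 2])
  have hUd : ∀ i, (ez u i).natDegree ≤ 2 := fun i => by
    fin_cases i <;> first | exact hd _ | simp [ez]
  have h3 := hRAT κ (PM (bnet B D) c') (ez u) d 2 (PM_skew _ _) (PM_deg _ _ _ hdeg)
    (fun t => by rw [PM_eval]; exact hN _ (hev t)) (by rw [PM_coeff]; exact hN _ hco) hU hUd hk
  obtain rfl : d = 0 := by omega
  have hC : ∀ s, c' s = Polynomial.C ((c' s).coeff 0) := fun s =>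
    Polynomial.eq_C_of_natDegree_le_zero (hdeg s)
  constructor
  · intro i j x y
    rw [e i, e j, hC i, hC j]
    simp only [Polynomial.coeff_mul_C]
    ring
  · have hM : ∀ i j, PM (bnet B D) c' i j =
        Polynomial.C (sk (bnet B D) (fun s => (c' s).coeff 0) i j) := fun i j => by
      rw [← PM_coeff]
      exact Polynomial.eq_C_of_natDegree_le_zero (PM_deg _ _ _ hdeg i j)
    have hx : ∀ x, sk (bnet B D) (fun s => (c' s).coeff 0) *ᵥ (fun i => (ez u i).coeff x) = 0 :=
      fun x => funext fun i => by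
        have := congrArg (fun f => f.coeff x) (congrFun hk i)
        simpa only [mulVec, dotProduct, hM, Polynomial.finsetSum_coeff, Polynomial.coeff_C_mul,
          Pi.zero_apply, Polynomial.coeff_zero] using this
    intro i j x y
    have := minor _ _ (hN _ hco _ _ (hx x) (hx y)) (i.castAdd 4) (j.castAdd 4)
    have e3 : ∀ i : Fin 3, ez u (i.castAdd 4) = u i := fun i => by fin_cases i <;> rfl
    simpa only [e3] using this

end Pool.Agent.P.MP_6149fc_ag.V22

end

section

/-! Step KER. -/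

set_option autoImplicit false
set_option linter.unusedSectionVars false

namespace Pool.Agent.P.MP_6149fc_ag.V22

open Pool.Agent.P.MP_6149fc_ag.V18
open MvPowerSeries (coeff X constantCoeff monomial)
open Matrix

namespace KERx

open Polynomial

variable {κ : Type} [Field κ]

/-- The cross product. -/
noncomputable def cr (a b : Fin 3 → Polynomial κ) : Fin 3 → Polynomial κ :=
  ![a 1 * b 2 - a 2 * b 1, a 2 * b 0 - a 0 * b 2, a 0 * b 1 - a 1 * b 0]

theorem deg2 {p q r s : Polynomial κ} (hp : p.natDegree ≤ 1) (hq : q.natDegree ≤ 1)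
    (hr : r.natDegree ≤ 1) (hs : s.natDegree ≤ 1) : (p * q - r * s).natDegree ≤ 2 :=
  (natDegree_sub_le _ _).trans (max_le (natDegree_mul_le.trans (add_le_add hp hq))
    (natDegree_mul_le.trans (add_le_add hr hs)))

theorem deg_cr {a b : Fin 3 → Polynomial κ} (ha : ∀ i, (a i).natDegree ≤ 1)
    (hb : ∀ i, (b i).natDegree ≤ 1) (i : Fin 3) : (cr a b i).natDegree ≤ 2 := by
  fin_cases i <;> exact deg2 (ha _) (hb _) (ha _) (hb _)

theorem dot_cr (a b c : Fin 3 → Polynomial κ) :
    ∑ i, cr a b i * c i = d3 (a 0) (b 0) (c 0) (a 1) (b 1) (c 1) (a 2) (b 2) (c 2) := by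
  simp only [Fin.sum_univ_three, cr, d3, cons_val_zero, cons_val_one, cons_val]
  ring

theorem dot_cr' (a b c : Fin 3 → Polynomial κ) : ∑ i, cr a b i * c i = -∑ i, cr a c i * b i := by
  rw [dot_cr, dot_cr]
  simp only [d3]
  ring

theorem eq_zero {a : Fin 3 → Polynomial κ} (h : ∀ j, cr a (Pi.single j 1) = 0) : a = 0 := by
  have h0 := congrFun (h 1) 2
  have h1 := congrFun (h 2) 0
  have h2 := congrFun (h 0) 1
  simp [cr] at h0 h1 h2
  funext i
  fin_cases i
  exacts [h0, h1, h2]

theorem deg_single (j i : Fin 3) :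
    ((Pi.single j 1 : Fin 3 → Polynomial κ) i).natDegree ≤ 1 := by
  rw [Pi.single_apply]
  split_ifs <;> simp

end KERx

open KERx in
theorem p_KER :
    S_KER := by
  intro κ _ B hd h3
  by_cases h1 : ∀ k l, cr (fun i => B i k) (fun i => B i l) = 0
  · by_cases h2 : ∀ k j, cr (fun i => B i k) (Pi.single j 1) = 0
    · refine ⟨Pi.single 0 1, fun h => by simpa using congrFun h 0,
        fun i => (deg_single 0 i).trans one_le_two, fun k => Finset.sum_eq_zero fun i _ => ?_⟩
      rw [show B i k = 0 from congrFun (eq_zero (h2 k)) i, mul_zero]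
    · obtain ⟨k, hk⟩ := not_forall.1 h2
      obtain ⟨j, hj⟩ := not_forall.1 hk
      refine ⟨_, hj, deg_cr (fun i => hd i k) (deg_single j), fun m => ?_⟩
      rw [dot_cr' _ _ fun i => B i m, h1 k m]
      simp
  · obtain ⟨k, hk⟩ := not_forall.1 h1
    obtain ⟨l, hl⟩ := not_forall.1 hk
    exact ⟨_, hl, deg_cr (fun i => hd i k) (fun i => hd i l), fun m =>
      (dot_cr _ _ fun i => B i m).trans (h3 k l m)⟩

end Pool.Agent.P.MP_6149fc_ag.V22

end

section

/-! Step KA. -/

set_option autoImplicit false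
set_option linter.unusedSectionVars false

namespace Pool.Agent.P.MP_6149fc_ag.V22

open Pool.Agent.P.MP_6149fc_ag.V18
open MvPowerSeries (coeff X constantCoeff monomial)
open Matrix

namespace KAx

theorem d3_zero {κ : Type} [Field κ] (M : Matrix (Fin 3) (Fin 4) κ) (u : Fin 3 → κ) (hu : u ≠ 0)
    (h : u ᵥ* M = 0) (k l m : Fin 4) :
    d3 (M 0 k) (M 0 l) (M 0 m) (M 1 k) (M 1 l) (M 1 m) (M 2 k) (M 2 l) (M 2 m) = 0 := by
  have e : ∀ k, u 0 * M 0 k + u 1 * M 1 k + u 2 * M 2 k = 0 := fun k => by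
    have := congrFun h k
    simpa only [vecMul, dotProduct, Fin.sum_univ_three, Pi.zero_apply] using this
  by_contra hd
  apply hu
  have h0 : u 0 * d3 (M 0 k) (M 0 l) (M 0 m) (M 1 k) (M 1 l) (M 1 m) (M 2 k) (M 2 l) (M 2 m)
      = 0 := by
    simp only [d3]
    linear_combination (M 1 l * M 2 m - M 1 m * M 2 l) * e k -
      (M 1 k * M 2 m - M 1 m * M 2 k) * e l + (M 1 k * M 2 l - M 1 l * M 2 k) * e m
  have h1 : u 1 * d3 (M 0 k) (M 0 l) (M 0 m) (M 1 k) (M 1 l) (M 1 m) (M 2 k) (M 2 l) (M 2 m)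
      = 0 := by
    simp only [d3]
    linear_combination -(M 0 l * M 2 m - M 0 m * M 2 l) * e k +
      (M 0 k * M 2 m - M 0 m * M 2 k) * e l - (M 0 k * M 2 l - M 0 l * M 2 k) * e m
  have h2 : u 2 * d3 (M 0 k) (M 0 l) (M 0 m) (M 1 k) (M 1 l) (M 1 m) (M 2 k) (M 2 l) (M 2 m)
      = 0 := by
    simp only [d3]
    linear_combination (M 0 l * M 1 m - M 0 m * M 1 l) * e k -
      (M 0 k * M 1 m - M 0 m * M 1 k) * e l + (M 0 k * M 1 l - M 0 l * M 1 k) * e m
  funext i
  fin_cases i
  · exact (mul_eq_zero.1 h0).resolve_right hd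
  · exact (mul_eq_zero.1 h1).resolve_right hd
  · exact (mul_eq_zero.1 h2).resolve_right hd

end KAx

theorem p_KA (hKER : S_KER) :
    S_KA := by
  intro κ _ _ B hB
  by_contra hc
  have hc' : ∀ t : κ, ∃ u : Fin 3 → κ, u ᵥ* (B 0 + t • B 1) = 0 ∧ u ≠ 0 := fun t => by
    by_contra h
    exact hc ⟨t, fun u hu => by_contra fun h0 => h ⟨u, hu, h0⟩⟩
  obtain ⟨u, hu, hd, he⟩ := hKER κ
    (Matrix.of fun i k => Polynomial.C (B 0 i k) + Polynomial.X * Polynomial.C (B 1 i k))
    (fun i k => by
      rw [Matrix.of_apply]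
      compute_degree)
    (fun k l m => by
      apply Polynomial.funext
      intro t
      obtain ⟨u, h1, h2⟩ := hc' t
      have := KAx.d3_zero _ u h2 h1 k l m
      simp only [d3, Matrix.add_apply, Matrix.smul_apply, smul_eq_mul] at this
      simp only [d3, Matrix.of_apply, Polynomial.eval_add, Polynomial.eval_sub,
        Polynomial.eval_mul, Polynomial.eval_C, Polynomial.eval_X, Polynomial.eval_zero]
      exact this)
  have h1 := (hB ![1, Polynomial.X, 0] u (fun h => one_ne_zero (congrFun h 0)) hu hd fun k => by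
    have := he k
    simp only [Fin.sum_univ_three, Matrix.of_apply] at this
    simp only [Fin.sum_univ_three, Matrix.cons_val_zero, Matrix.cons_val_one, Matrix.cons_val_two,
      Matrix.head_cons, Matrix.tail_cons]
    linear_combination this).1 0 1 0 1
  simp [Polynomial.coeff_one] at h1

end Pool.Agent.P.MP_6149fc_ag.V22

end

section

/-! Step KN. -/

set_option autoImplicit false
set_option linter.unusedSectionVars false

namespace Pool.Agent.P.MP_6149fc_ag.V22

open Pool.Agent.P.MP_6149fc_ag.V18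
open MvPowerSeries (coeff X constantCoeff monomial)
open Matrix

theorem p_KN (hEXT : S_EXT) :
    S_KN := by
  intro κ _ B hB
  have hli : LinearIndependent κ (fun r : Fin 3 => (B r : Fin (3 + 1) → κ)) := by
    rw [Fintype.linearIndependent_iff]
    intro c hc i
    have h0 : c ᵥ* B = 0 := by
      ext j
      have := congrFun hc j
      simpa [Matrix.vecMul, dotProduct, Finset.sum_apply] using this
    exact congrFun (hB c h0) i
  obtain ⟨g, g', h1, h2, h3⟩ := hEXT κ 3 1 _ hli
  have hBg : B = pA κ * (g : Matrix (Fin 4) (Fin 4) κ) := by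
    ext i j
    have h4 : B i j = g (Fin.castAdd 1 i) j := (congrFun (h3 i) j).symm
    rw [h4]
    fin_cases i <;> simp [pA, Matrix.mul_apply, Fin.sum_univ_four]
  refine ⟨(g' : Matrix (Fin 4) (Fin 4) κ)ᵀ, (g : Matrix (Fin 4) (Fin 4) κ)ᵀ, ?_, ?_, ?_⟩
  · rw [← Matrix.transpose_mul, h1, Matrix.transpose_one]
  · rw [← Matrix.transpose_mul, h2, Matrix.transpose_one]
  · rw [Matrix.transpose_transpose, hBg, Matrix.mul_assoc, h1, Matrix.mul_one]

end Pool.Agent.P.MP_6149fc_ag.V22

end
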