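import Pool.Agent.P.MP_6149fc_ag.V22.IfaceG

section

/-! Step EIGP. -/

set_option autoImplicit false
set_option linter.unusedSectionVars false

namespace Pool.Agent.P.MP_6149fc_ag.V22

open Pool.Agent.P.MP_6149fc_ag.V18
open MvPowerSeries (coeff X constantCoeff monomial)
open Matrix

theorem p_EIGP (hPRIM : S_PRIM) :
    S_EIGP := by
  intro κ _ A n hn hA hpar
  obtain ⟨h, n', b, d, hh, hc, hb, hd, ⟨i0, hi0⟩, -⟩ := hPRIM κ (Fin 3) n hn
  obtain rfl : n = h • n' := funext hc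
  rw [Matrix.mulVec_smul] at hpar ⊢
  have h1 : ∀ i j, (A *ᵥ n') i * n' j = (A *ᵥ n') j * n' i := fun i j => by
    have := hpar i j
    simp only [Pi.smul_apply, smul_eq_mul] at this
    refine mul_left_cancel₀ (mul_ne_zero hh hh) ?_
    linear_combination this
  have h2 : ∀ i, (A *ᵥ n') i = (∑ j, b j * (A *ᵥ n') j) * n' i := fun i => by
    rw [← mul_one ((A *ᵥ n') i), ← hb, Finset.mul_sum, Finset.sum_mul]
    refine Finset.sum_congr rfl fun j _ => ?_
    linear_combination b j * h1 i j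
  refine ⟨∑ j, b j * (A *ᵥ n') j, ?_, ?_⟩
  · generalize ∑ j, b j * (A *ᵥ n') j = τ at h2
    by_cases hτ : τ = 0
    · rw [hτ, Polynomial.natDegree_zero]; exact Nat.zero_le _
    · have h3 : d ≤ (n' i0).natDegree := Polynomial.le_natDegree_of_ne_zero hi0
      have h4 : n' i0 ≠ 0 := fun e => hi0 (by rw [e, Polynomial.coeff_zero])
      have h5 : ((A *ᵥ n') i0).natDegree ≤ 1 + d := by
        show (∑ j, A i0 j * n' j).natDegree ≤ 1 + d
        refine Polynomial.natDegree_sum_le_of_forall_le _ _ fun j _ => ?_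
        exact Polynomial.natDegree_mul_le.trans (add_le_add (hA i0 j) (hd j))
      rw [h2 i0, Polynomial.natDegree_mul hτ h4] at h5
      omega
  · funext i
    simp only [Pi.smul_apply, smul_eq_mul]
    linear_combination h * h2 i

end Pool.Agent.P.MP_6149fc_ag.V22

end

section

/-! Step CONIC. -/

set_option autoImplicit false
set_option linter.unusedSectionVars false

namespace Pool.Agent.P.MP_6149fc_ag.V22

open Pool.Agent.P.MP_6149fc_ag.V18
open MvPowerSeries (coeff X constantCoeff monomial)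
open Matrix

namespace CONICx

variable {κ : Type} [Field κ]

/-- The bilinear form. -/
def bf (q : Fin 3 → Fin 3 → κ) (x y : Fin 3 → κ) : κ := ∑ i, ∑ j, q i j * x i * y j

theorem fin (q : Fin 3 → Fin 3 → κ) (a b c : Fin 3 → κ) (h0 : bf q a a = 0)
    (h1 : bf q a b + bf q b a = 0) (h2 : bf q a c + bf q c a + bf q b b = 0)
    (h3 : bf q b c + bf q c b = 0) (h4 : bf q c c = 0)
    (hn : (∀ i j, a i * b j = a j * b i) → (∀ i j, b i * c j = b j * c i) → False) :
    ∃ u : Fin 3 → Polynomial κ, (∀ i, (u i).natDegree ≤ 2) ∧ ¬ PC u ∧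
      ∑ i, ∑ j, Polynomial.C (q i j) * u i * u j = 0 := by
  refine ⟨fun i => Polynomial.C (c i) * Polynomial.X ^ 2 + Polynomial.C (b i) * Polynomial.X +
    Polynomial.C (a i), fun i => Polynomial.natDegree_quadratic_le, fun h => hn ?_ ?_, ?_⟩
  · intro i j
    simpa [Polynomial.coeff_X, Polynomial.coeff_C, Polynomial.coeff_X_pow] using h i j 0 1
  · intro i j
    simpa [Polynomial.coeff_X, Polynomial.coeff_C, Polynomial.coeff_X_pow] using h i j 1 2
  · have e0 := congrArg Polynomial.C h0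
    have e1 := congrArg Polynomial.C h1
    have e2 := congrArg Polynomial.C h2
    have e3 := congrArg Polynomial.C h3
    have e4 := congrArg Polynomial.C h4
    simp only [bf, Fin.sum_univ_three, map_add, map_mul, map_zero] at e0 e1 e2 e3 e4 ⊢
    linear_combination e0 + Polynomial.X * e1 + Polynomial.X ^ 2 * e2 + Polynomial.X ^ 3 * e3 +
      Polynomial.X ^ 4 * e4

theorem bil (q : Fin 3 → Fin 3 → κ) (f g h : Fin 3 → κ) (x y z x' y' z' : κ) :
    bf q (fun i => x * f i + y * g i + z * h i) (fun i => x' * f i + y' * g i + z' * h i) =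
      x * x' * bf q f f + x * y' * bf q f g + x * z' * bf q f h +
      y * x' * bf q g f + y * y' * bf q g g + y * z' * bf q g h +
      z * x' * bf q h f + z * y' * bf q h g + z * z' * bf q h h := by
  simp only [bf, Fin.sum_univ_three]
  ring

theorem bin [IsAlgClosed κ] (A S D : κ) :
    ∃ a b : κ, (a ≠ 0 ∨ b ≠ 0) ∧ a * a * A + a * b * S + b * b * D = 0 := by
  by_cases hA : A = 0
  · exact ⟨1, 0, Or.inl one_ne_zero, by simp [hA]⟩
  · obtain ⟨t, ht⟩ := IsAlgClosed.exists_root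
      (Polynomial.C A * Polynomial.X ^ 2 + Polynomial.C S * Polynomial.X + Polynomial.C D)
      (by rw [Polynomial.degree_quadratic hA]; decide)
    refine ⟨t, 1, Or.inr one_ne_zero, ?_⟩
    simp only [Polynomial.IsRoot, Polynomial.eval_add, Polynomial.eval_mul, Polynomial.eval_C,
      Polynomial.eval_pow, Polynomial.eval_X] at ht
    linear_combination ht

theorem key [IsAlgClosed κ] (q : Fin 3 → Fin 3 → κ) (f g h : Fin 3 → κ) (hQ : bf q f f = 0)
    (hd : f 0 * (g 1 * h 2 - g 2 * h 1) + f 1 * (g 2 * h 0 - g 0 * h 2) +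
      f 2 * (g 0 * h 1 - g 1 * h 0) ≠ 0) :
    ∃ u : Fin 3 → Polynomial κ, (∀ i, (u i).natDegree ≤ 2) ∧ ¬ PC u ∧
      ∑ i, ∑ j, Polynomial.C (q i j) * u i * u j = 0 := by
  by_cases hl : bf q f g + bf q g f = 0 ∧ bf q f h + bf q h f = 0
  · obtain ⟨a, b, hab, e⟩ := bin (bf q g g) (bf q g h + bf q h g) (bf q h h)
    refine fin q (fun i => 1 * f i + 0 * g i + 0 * h i) (fun i => 0 * f i + a * g i + b * h i)
      (fun i => 0 * f i + 0 * g i + 0 * h i) ?_ ?_ ?_ ?_ ?_ fun p _ => ?_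
    · rw [bil]; linear_combination hQ
    · rw [bil, bil]; linear_combination a * hl.1 + b * hl.2
    · rw [bil, bil, bil]; linear_combination e
    · rw [bil, bil]; ring
    · rw [bil]; ring
    · rcases hab with hab | hab
      · refine mul_ne_zero hab hd ?_
        linear_combination h 0 * p 1 2 + h 1 * p 2 0 + h 2 * p 0 1
      · refine mul_ne_zero hab hd ?_
        linear_combination -(g 0 * p 1 2 + g 1 * p 2 0 + g 2 * p 0 1)
  · refine fin q
      (fun i => -bf q g g * f i + (bf q f g + bf q g f) * g i + 0 * h i)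
      (fun i => -(bf q g h + bf q h g) * f i + (bf q f h + bf q h f) * g i +
        (bf q f g + bf q g f) * h i)
      (fun i => -bf q h h * f i + 0 * g i + (bf q f h + bf q h f) * h i) ?_ ?_ ?_ ?_ ?_
      fun p p' => hl ⟨?_, ?_⟩
    · rw [bil, hQ]; ring
    · rw [bil, bil, hQ]; ring
    · rw [bil, bil, bil, hQ]; ring
    · rw [bil, bil, hQ]; ring
    · rw [bil, hQ]; ring
    · by_contra c
      refine mul_ne_zero (mul_ne_zero c c) hd ?_
      linear_combination f 0 * p 1 2 + f 1 * p 2 0 + f 2 * p 0 1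
    · by_contra c
      refine mul_ne_zero (mul_ne_zero c c) hd ?_
      linear_combination f 0 * p' 1 2 + f 1 * p' 2 0 + f 2 * p' 0 1

end CONICx

theorem p_CONIC :
    S_CONIC := by
  intro κ _ _ q
  obtain ⟨a, b, hab, e⟩ := CONICx.bin (q 0 0) (q 0 1 + q 1 0) (q 1 1)
  have hQ : CONICx.bf q ![a, b, 0] ![a, b, 0] = 0 := by
    simp only [CONICx.bf, Fin.sum_univ_three, Matrix.cons_val_zero, Matrix.cons_val_one,
      Matrix.cons_val]
    linear_combination e
  rcases hab with hab | hab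
  · exact CONICx.key q _ ![0, 1, 0] ![0, 0, 1] hQ (by simpa using hab)
  · exact CONICx.key q _ ![1, 0, 0] ![0, 0, 1] hQ (by simpa using hab)

end Pool.Agent.P.MP_6149fc_ag.V22

end

section

/-! Step KI. -/

set_option autoImplicit false
set_option linter.unusedSectionVars false

namespace Pool.Agent.P.MP_6149fc_ag.V22

open Pool.Agent.P.MP_6149fc_ag.V18
open MvPowerSeries (coeff X constantCoeff monomial)
open Matrix

namespace KIx

variable {R : Type} [CommRing R]

/-- the cross product -/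
def cr (g h : Fin 3 → R) : Fin 3 → R :=
  ![g 1 * h 2 - g 2 * h 1, g 2 * h 0 - g 0 * h 2, g 0 * h 1 - g 1 * h 0]

theorem par (g h m : Fin 3 → R) (a : m 0 * g 0 + m 1 * g 1 + m 2 * g 2 = 0)
    (b : m 0 * h 0 + m 1 * h 1 + m 2 * h 2 = 0) (i j : Fin 3) :
    m i * cr g h j = m j * cr g h i := by
  fin_cases i <;> fin_cases j <;> simp [cr]
  · linear_combination h 2 * 0 * a + g 2 * b - h 2 * a
  · linear_combination h 1 * a - g 1 * b
  · linear_combination h 2 * a - g 2 * b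
  · linear_combination g 0 * b - h 0 * a
  · linear_combination g 1 * b - h 1 * a
  · linear_combination h 0 * a - g 0 * b

theorem eig (A : Matrix (Fin 3) (Fin 3) R) (g : Fin 3 → R) (hk : kal A g = 0) (i j : Fin 3) :
    (Aᵀ *ᵥ cr g (A *ᵥ g)) i * cr g (A *ᵥ g) j = (Aᵀ *ᵥ cr g (A *ᵥ g)) j * cr g (A *ᵥ g) i := by
  refine par g _ _ ?_ ?_ i j
  · simp [cr, mulVec, dotProduct, Fin.sum_univ_three]
    ring
  · simp only [kal, det_fin_three, of_apply, cons_val_zero, cons_val_one, cons_val] at hk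
    generalize A *ᵥ g = h at hk ⊢
    simp [cr, mulVec, dotProduct, Fin.sum_univ_three] at hk ⊢
    linear_combination hk

theorem minor [IsDomain R] (B : Matrix (Fin 3) (Fin 4) R) (n : Fin 3 → R) (hn : n ≠ 0)
    (h : ∀ k, n 0 * B 0 k + n 1 * B 1 k + n 2 * B 2 k = 0) (k l m : Fin 4) :
    d3 (B 0 k) (B 0 l) (B 0 m) (B 1 k) (B 1 l) (B 1 m) (B 2 k) (B 2 l) (B 2 m) = 0 := by
  obtain ⟨i, hi⟩ := Function.ne_iff.1 hn
  refine (mul_eq_zero.1 ?_).resolve_left hi
  unfold d3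
  fin_cases i
  · show n 0 * _ = 0
    linear_combination (B 1 l * B 2 m - B 1 m * B 2 l) * h k - (B 1 k * B 2 m - B 1 m * B 2 k) * h l
      + (B 1 k * B 2 l - B 1 l * B 2 k) * h m
  · show n 1 * _ = 0
    linear_combination -(B 0 l * B 2 m - B 0 m * B 2 l) * h k + (B 0 k * B 2 m - B 0 m * B 2 k) * h l
      - (B 0 k * B 2 l - B 0 l * B 2 k) * h m
  · show n 2 * _ = 0
    linear_combination (B 0 l * B 1 m - B 0 m * B 1 l) * h k - (B 0 k * B 1 m - B 0 m * B 1 k) * h l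
      + (B 0 k * B 1 l - B 0 l * B 1 k) * h m

theorem of_zero (g h : Fin 3 → R) (e : cr g h = 0) (i j : Fin 3) : h i * g j = h j * g i := by
  have e0 : g 1 * h 2 - g 2 * h 1 = 0 := congrFun e 0
  have e1 : g 2 * h 0 - g 0 * h 2 = 0 := congrFun e 1
  have e2 : g 0 * h 1 - g 1 * h 0 = 0 := congrFun e 2
  fin_cases i <;> fin_cases j <;> simp
  · linear_combination -e2
  · linear_combination e1
  · linear_combination e2
  · linear_combination -e0
  · linear_combination -e1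
  · linear_combination e0

end KIx

theorem KIx.lin {κ : Type} [Field κ] (a b : κ) :
    (Polynomial.C a + Polynomial.X * Polynomial.C b).natDegree ≤ 1 := by
  refine (Polynomial.natDegree_add_le _ _).trans (max_le ?_ ?_)
  · rw [Polynomial.natDegree_C]; exact Nat.zero_le _
  · refine Polynomial.natDegree_mul_le.trans ?_
    rw [Polynomial.natDegree_C, Polynomial.natDegree_X]

theorem p_KI (hEIGP : S_EIGP) (hKER : S_KER) :
    S_KI := by
  intro κ _ A1 A2 γ1 γ2 hHK hkal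
  have hA : ∀ i j, pM A1 A2 i j = Polynomial.C (A1 i j) + Polynomial.X * Polynomial.C (A2 i j) :=
    fun i j => rfl
  have hg : ∀ i, pV γ1 γ2 i = Polynomial.C (γ1 i) + Polynomial.X * Polynomial.C (γ2 i) :=
    fun i => rfl
  generalize pM A1 A2 = A at hA hkal ⊢
  generalize pV γ1 γ2 = g at hg hkal ⊢
  have dA : ∀ i j, (A i j).natDegree ≤ 1 := fun i j => by rw [hA]; exact KIx.lin _ _
  have dg : ∀ i, (g i).natDegree ≤ 1 := fun i => by rw [hg]; exact KIx.lin _ _
  refine KIx.of_zero g _ ?_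
  by_contra hn
  obtain ⟨τ, dτ, hτ⟩ := hEIGP κ Aᵀ (KIx.cr g (A *ᵥ g)) hn (fun i j => dA j i) (KIx.eig A g hkal)
  have hng : KIx.cr g (A *ᵥ g) 0 * g 0 + KIx.cr g (A *ᵥ g) 1 * g 1 + KIx.cr g (A *ᵥ g) 2 * g 2 = 0 := by
    generalize A *ᵥ g = h
    simp [KIx.cr]
    ring
  generalize KIx.cr g (A *ᵥ g) = n at hn hτ hng
  have e : ∀ k, A 0 k * n 0 + A 1 k * n 1 + A 2 k * n 2 = τ * n k := fun k => by
    have := congrFun hτ k
    simpa [mulVec, dotProduct, Fin.sum_univ_three] using this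
  have ds : ∀ i, (A i i - τ).natDegree ≤ 1 := fun i =>
    (Polynomial.natDegree_sub_le _ _).trans (max_le (dA i i) dτ)
  obtain ⟨u, hu, du, hB⟩ := hKER κ
    !![A 0 0 - τ, A 0 1, A 0 2, g 0; A 1 0, A 1 1 - τ, A 1 2, g 1; A 2 0, A 2 1, A 2 2 - τ, g 2]
    (fun i k => by
      fin_cases i <;> fin_cases k
      exacts [ds 0, dA 0 1, dA 0 2, dg 0, dA 1 0, ds 1, dA 1 2, dg 1, dA 2 0, dA 2 1, ds 2, dg 2])
    (KIx.minor _ n hn fun k => by
      fin_cases k
      · show n 0 * (A 0 0 - τ) + n 1 * A 1 0 + n 2 * A 2 0 = 0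
        linear_combination e 0
      · show n 0 * A 0 1 + n 1 * (A 1 1 - τ) + n 2 * A 2 1 = 0
        linear_combination e 1
      · show n 0 * A 0 2 + n 1 * A 1 2 + n 2 * (A 2 2 - τ) = 0
        linear_combination e 2
      · show n 0 * g 0 + n 1 * g 1 + n 2 * g 2 = 0
        exact hng)
  have b0 : u 0 * (A 0 0 - τ) + u 1 * A 1 0 + u 2 * A 2 0 = 0 := by
    have := hB 0
    rwa [Fin.sum_univ_three] at this
  have b1 : u 0 * A 0 1 + u 1 * (A 1 1 - τ) + u 2 * A 2 1 = 0 := by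
    have := hB 1
    rwa [Fin.sum_univ_three] at this
  have b2 : u 0 * A 0 2 + u 1 * A 1 2 + u 2 * (A 2 2 - τ) = 0 := by
    have := hB 2
    rwa [Fin.sum_univ_three] at this
  have b3 : u 0 * g 0 + u 1 * g 1 + u 2 * g 2 = 0 := by
    have := hB 3
    rwa [Fin.sum_univ_three] at this
  simp only [hA, hg] at b0 b1 b2 b3
  have hc : (![-τ, 1, Polynomial.X] : Fin 3 → Polynomial κ) ≠ 0 := fun h => by
    have : (1 : Polynomial κ) = 0 := congrFun h 1
    exact one_ne_zero this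
  have hPC := (hHK ![-τ, 1, Polynomial.X] u hc hu du (fun k => by
    fin_cases k
    · simp [Fin.sum_univ_three, pA, aug]
      linear_combination b0
    · simp [Fin.sum_univ_three, pA, aug]
      linear_combination b1
    · simp [Fin.sum_univ_three, pA, aug]
      linear_combination b2
    · simp [Fin.sum_univ_three, pA, aug]
      linear_combination b3)).1 1 2 0 1
  simp at hPC

end Pool.Agent.P.MP_6149fc_ag.V22

end

section

/-! Step KIIA. -/

set_option autoImplicit false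
set_option linter.unusedSectionVars false

namespace Pool.Agent.P.MP_6149fc_ag.V22

open Pool.Agent.P.MP_6149fc_ag.V18
open MvPowerSeries (coeff X constantCoeff monomial)
open Matrix

namespace KIIAx

variable {κ : Type} [Field κ]

/-- The pairing of a constant vector with a polynomial vector. -/
noncomputable def D (v : Fin 3 → κ) (u : Fin 3 → Polynomial κ) : Polynomial κ :=
  ∑ k, Polynomial.C (v k) * u k

theorem D_add (v v' : Fin 3 → κ) (u : Fin 3 → Polynomial κ) : D (v + v') u = D v u + D v' u := by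
  simp only [D, Pi.add_apply, map_add, add_mul, Finset.sum_add_distrib]

theorem D_smul (a : κ) (v : Fin 3 → κ) (u : Fin 3 → Polynomial κ) :
    D (a • v) u = Polynomial.C a * D v u := by
  simp only [D, Pi.smul_apply, smul_eq_mul, map_mul, Finset.mul_sum, mul_assoc]

theorem inv {g g' : Matrix (Fin 3) (Fin 3) κ} (h : g' * g = 1) (w : Fin 3 → Polynomial κ)
    (h0 : D (g 0) w = 0) (h1 : D (g 1) w = 0) (i : Fin 3) :
    w i = Polynomial.C (g' i 2) * D (g 2) w := by
  have e : D ((g' * g) i) w = w i := by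
    rw [h]
    simp [D, Matrix.one_apply, apply_ite]
  have e2 : (g' * g) i = g' i 0 • g 0 + g' i 1 • g 1 + g' i 2 • g 2 := by
    funext k
    simp [Matrix.mul_apply, Fin.sum_univ_three]
  rw [← e, e2, D_add, D_add, D_smul, D_smul, D_smul, h0, h1]
  ring

theorem D_w (A1 A2 : Matrix (Fin 3) (Fin 3) κ) (v : Fin 3 → κ) (u : Fin 3 → Polynomial κ)
    (c0 c1 c2 : Polynomial κ) : D v (fun k => c0 * u k + c1 * D (A1ᵀ k) u + c2 * D (A2ᵀ k) u) =
      c0 * D v u + c1 * D (A1 *ᵥ v) u + c2 * D (A2 *ᵥ v) u := by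
  simp only [D, mulVec, dotProduct, Fin.sum_univ_three, transpose_apply, map_add, map_mul]
  ring

end KIIAx

open KIIAx in
theorem p_KIIA (hCONIC : S_CONIC) (hEXT : S_EXT) :
    S_KIIA := by
  intro κ _ _ A1 A2 γ1 γ2 ν1 ν2 hk hl e1 e2 e3
  obtain ⟨g, g', -, h2, h3⟩ : ∃ g g' : Matrix (Fin 3) (Fin 3) κ, g * g' = 1 ∧ g' * g = 1 ∧
    ∀ r, g (Fin.castAdd 1 r) = ![γ1, γ2] r := hEXT κ 2 1 _ hl
  obtain rfl : g 0 = γ1 := h3 0
  obtain rfl : g 1 = γ2 := h3 1
  obtain ⟨u, hd, hu, hq⟩ := hCONIC κ fun i j => (ν2 * g 0 i - (A1 *ᵥ g 1) i) * g 2 j +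
    g 1 i * (A1 *ᵥ g 2) j - g 0 i * (A2 *ᵥ g 2) j
  have f1 := congrArg (D · u) e1
  have f2 := congrArg (D · u) e2
  have f3 := congrArg (D · u) e3
  simp only [D_add, D_smul] at f1 f2 f3
  have hw := inv h2 (fun k => (Polynomial.C ν2 * D (g 0) u - D (A1 *ᵥ g 1) u) * u k +
    D (g 1) u * D (A1ᵀ k) u + -D (g 0) u * D (A2ᵀ k) u)
    (by rw [D_w]; linear_combination D (g 1) u * f1 - D (g 0) u * f3)
    (by rw [D_w]; linear_combination -D (g 0) u * f2)
  have h0 : (Polynomial.C ν2 * D (g 0) u - D (A1 *ᵥ g 1) u) * D (g 2) u +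
      D (g 1) u * D (A1 *ᵥ g 2) u + -D (g 0) u * D (A2 *ᵥ g 2) u = 0 := by
    rw [← hq]
    simp only [D, Fin.sum_univ_three, map_add, map_sub, map_mul]
    ring
  simp only [D_w, h0, mul_zero] at hw
  refine hu (hk ![Polynomial.C ν2 * D (g 0) u - D (A1 *ᵥ g 1) u, D (g 1) u, -D (g 0) u] u
    (fun c => hu ?_) (fun c => hu ?_) hd fun k => ?_).2
  · have := inv h2 u (neg_eq_zero.1 (congrFun c 2)) (congrFun c 1)
    intro i j a b
    rw [this i, this j]
    simp only [Polynomial.coeff_C_mul]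
    ring
  · intro i j a b
    simp [c]
  · generalize Polynomial.C ν2 * D (g 0) u - D (A1 *ᵥ g 1) u = c0 at hw
    have w0 := hw 0
    have w1 := hw 1
    have w2 := hw 2
    simp only [D, Fin.sum_univ_three, transpose_apply] at w0 w1 w2
    fin_cases k <;> simp [Fin.sum_univ_three, pA, aug, D]
    · linear_combination w0
    · linear_combination w1
    · linear_combination w2
    · ring

end Pool.Agent.P.MP_6149fc_ag.V22

end

section

/-! Step KIIB. -/

set_option autoImplicit false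
set_option linter.unusedSectionVars false

namespace Pool.Agent.P.MP_6149fc_ag.V22

open Pool.Agent.P.MP_6149fc_ag.V18
open MvPowerSeries (coeff X constantCoeff monomial)
open Matrix

namespace KIIBx

theorem core {κ : Type} [Field κ] (A1 A2 : Matrix (Fin 3) (Fin 3) κ) (γ : Fin 3 → κ)
    (θ1 θ2 ν1 ν2 : κ) (h : HK ![pA κ, aug A1 (θ1 • γ), aug A2 (θ2 • γ)]) (hγ : γ ≠ 0)
    (h1 : A1 *ᵥ γ = ν1 • γ) (h2 : A2 *ᵥ γ = ν2 • γ) (f g : Fin 3 → κ) (hf : f ⬝ᵥ γ = 0)
    (hg : g ⬝ᵥ γ = 0) (i j : Fin 3) : f i * g j = f j * g i := by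
  by_contra hne
  obtain ⟨u, hu⟩ : ∃ u : Fin 3 → Polynomial κ,
      u = fun i => Polynomial.C (f i) + Polynomial.C (g i) * Polynomial.X := ⟨_, rfl⟩
  have c0 : ∀ i, (u i).coeff 0 = f i := fun i => by simp [hu]
  have c1 : ∀ i, (u i).coeff 1 = g i := fun i => by simp [hu, Polynomial.coeff_C]
  have hug : ∑ i, u i * Polynomial.C (γ i) = 0 := by
    have e1 := congrArg Polynomial.C hf
    have e2 := congrArg Polynomial.C hg
    simp only [dotProduct, Fin.sum_univ_three, map_add, map_mul, map_zero] at e1 e2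
    simp only [hu, Fin.sum_univ_three]
    linear_combination e1 + Polynomial.X * e2
  have hA : ∀ (A : Matrix (Fin 3) (Fin 3) κ) (ν : κ), A *ᵥ γ = ν • γ →
      ∑ k, (∑ i, u i * Polynomial.C (A i k)) * Polynomial.C (γ k) = 0 := fun A ν e => by
    have e0 := congrArg Polynomial.C (congrFun e 0)
    have e1 := congrArg Polynomial.C (congrFun e 1)
    have e2 := congrArg Polynomial.C (congrFun e 2)
    simp only [mulVec, dotProduct, Fin.sum_univ_three, map_add, map_mul, Pi.smul_apply,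
      smul_eq_mul] at e0 e1 e2 hug ⊢
    linear_combination u 0 * e0 + u 1 * e1 + u 2 * e2 + Polynomial.C ν * hug
  have hdet : (Matrix.of ![u, fun k => ∑ i, u i * Polynomial.C (A1 i k),
      fun k => ∑ i, u i * Polynomial.C (A2 i k)]).det = 0 := by
    refine Matrix.exists_mulVec_eq_zero_iff.1 ⟨fun k => Polynomial.C (γ k), fun e => hγ ?_, ?_⟩
    · exact funext fun k => Polynomial.C_eq_zero.1 (congrFun e k)
    · funext r
      fin_cases r
      · exact hug
      · exact hA A1 ν1 h1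
      · exact hA A2 ν2 h2
  obtain ⟨c, hc, hN⟩ := Matrix.exists_vecMul_eq_zero_iff.2 hdet
  have hu0 : u ≠ 0 := fun e => hne (by rw [← c0 i, ← c0 j, e]; simp)
  refine hne ?_
  have := (h c u hc hu0 (fun i => ?_) fun k => ?_).2 i j 0 1
  · rwa [c0, c0, c1, c1] at this
  · rw [hu]
    exact (Polynomial.natDegree_add_le_of_degree_le ((Polynomial.natDegree_C _).trans_le zero_le_one)
      ((Polynomial.natDegree_C_mul_le _ _).trans Polynomial.natDegree_X_le)).trans one_le_two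
  · have n0 := congrFun hN 0
    have n1 := congrFun hN 1
    have n2 := congrFun hN 2
    simp only [vecMul, dotProduct, Fin.sum_univ_three, of_apply, cons_val_zero, cons_val_one,
      cons_val, Pi.zero_apply] at n0 n1 n2 hug
    fin_cases k
    · simp [pA, aug, Fin.sum_univ_three]
      linear_combination n0
    · simp [pA, aug, Fin.sum_univ_three]
      linear_combination n1
    · simp [pA, aug, Fin.sum_univ_three]
      linear_combination n2
    · simp [pA, aug, Fin.sum_univ_three]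
      linear_combination (c 1 * Polynomial.C θ1 + c 2 * Polynomial.C θ2) * hug

end KIIBx

theorem p_KIIB :
    S_KIIB := by
  intro κ _ A1 A2 γ θ1 θ2 ν1 ν2 h hγ h1 h2
  have H := KIIBx.core A1 A2 γ θ1 θ2 ν1 ν2 h hγ h1 h2
  have a0 := H ![-γ 1, γ 0, 0] ![-γ 2, 0, γ 0] (by simp [dotProduct, Fin.sum_univ_three]; ring)
    (by simp [dotProduct, Fin.sum_univ_three]; ring) 1 2
  have a1 := H ![γ 1, -γ 0, 0] ![0, -γ 2, γ 1] (by simp [dotProduct, Fin.sum_univ_three]; ring)
    (by simp [dotProduct, Fin.sum_univ_three]; ring) 0 2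
  have a2 := H ![γ 2, 0, -γ 0] ![0, γ 2, -γ 1] (by simp [dotProduct, Fin.sum_univ_three]; ring)
    (by simp [dotProduct, Fin.sum_univ_three]; ring) 0 1
  simp at a0 a1 a2
  exact hγ (funext fun i => by fin_cases i <;> assumption)

end Pool.Agent.P.MP_6149fc_ag.V22

end

section

/-! Step KII. -/

set_option autoImplicit false
set_option linter.unusedSectionVars false

namespace Pool.Agent.P.MP_6149fc_ag.V22

open Pool.Agent.P.MP_6149fc_ag.V18
open MvPowerSeries (coeff X constantCoeff monomial)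
open Matrix

namespace KIIx

variable {κ : Type} [Field κ]

lemma co3 {a b c a' b' c' : κ}
    (h : Polynomial.C a + Polynomial.X * Polynomial.C b + Polynomial.X ^ 2 * Polynomial.C c =
      Polynomial.C a' + Polynomial.X * Polynomial.C b' + Polynomial.X ^ 2 * Polynomial.C c') :
    a = a' ∧ b = b' ∧ c = c' := by
  have h0 := congrArg (Polynomial.coeff · 0) h
  have h1 := congrArg (Polynomial.coeff · 1) h
  have h2 := congrArg (Polynomial.coeff · 2) h
  simp [Polynomial.coeff_X, Polynomial.coeff_X_pow, Polynomial.coeff_C] at h0 h1 h2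
  exact ⟨h0, h1, h2⟩

lemma expand (A1 A2 : Matrix (Fin 3) (Fin 3) κ) (γ1 γ2 : Fin 3 → κ) (i : Fin 3) :
    (pM A1 A2 *ᵥ pV γ1 γ2) i = Polynomial.C ((A1 *ᵥ γ1) i) +
      Polynomial.X * Polynomial.C ((A1 *ᵥ γ2 + A2 *ᵥ γ1) i) +
      Polynomial.X ^ 2 * Polynomial.C ((A2 *ᵥ γ2) i) := by
  simp only [pM, pV, mulVec, dotProduct, Fin.sum_univ_three, Matrix.of_apply, Pi.add_apply,
    map_add, map_mul]
  ring

lemma ne (γ1 γ2 : Fin 3 → κ) (h : γ1 ≠ 0 ∨ γ2 ≠ 0) : pV γ1 γ2 ≠ 0 := fun e => by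
  have : ∀ i, γ1 i = 0 ∧ γ2 i = 0 := fun i => by
    have h1 : Polynomial.C (γ1 i) + Polynomial.X * Polynomial.C (γ2 i) = 0 := congrFun e i
    have := co3 (a := γ1 i) (b := γ2 i) (c := 0) (a' := 0) (b' := 0) (c' := 0) (by
      rw [h1]; simp)
    exact ⟨this.1, this.2.1⟩
  exact h.elim (fun h => h (funext fun i => (this i).1)) fun h => h (funext fun i => (this i).2)

end KIIx

theorem p_KII (hEIGP : S_EIGP) (hKIIA : S_KIIA) (hKIIB : S_KIIB) :
    S_KII := by
  intro κ _ _ A1 A2 γ1 γ2 hk h0 hp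
  obtain ⟨τ, ht, he⟩ := hEIGP κ (pM A1 A2) (pV γ1 γ2) (KIIx.ne γ1 γ2 h0) (fun i j => by
    simp only [pM, Matrix.of_apply]
    compute_degree) hp
  obtain ⟨ν1, ν2, rfl⟩ : ∃ ν1 ν2 : κ, τ = Polynomial.C ν2 * Polynomial.X + Polynomial.C ν1 :=
    ⟨_, _, Polynomial.eq_X_add_C_of_natDegree_le_one ht⟩
  have hc : ∀ i, (A1 *ᵥ γ1) i = (ν1 • γ1) i ∧
      (A1 *ᵥ γ2 + A2 *ᵥ γ1) i = (ν1 • γ2 + ν2 • γ1) i ∧ (A2 *ᵥ γ2) i = (ν2 • γ2) i := fun i => by
    refine KIIx.co3 ?_
    rw [← KIIx.expand, he]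
    simp only [pV, Pi.smul_apply, Pi.add_apply, smul_eq_mul, map_add, map_mul]
    ring
  have e1 : A1 *ᵥ γ1 = ν1 • γ1 := funext fun i => (hc i).1
  have e2 : A1 *ᵥ γ2 + A2 *ᵥ γ1 = ν1 • γ2 + ν2 • γ1 := funext fun i => (hc i).2.1
  have e3 : A2 *ᵥ γ2 = ν2 • γ2 := funext fun i => (hc i).2.2
  by_cases hl : LinearIndependent κ ![γ1, γ2]
  · exact hKIIA κ A1 A2 γ1 γ2 ν1 ν2 hk hl e1 e3 e2
  by_cases h1 : γ1 = 0
  · have h2 := h0.resolve_left fun h => h h1
    refine hKIIB κ A1 A2 γ2 0 1 ν1 ν2 (by rwa [zero_smul, one_smul, ← h1]) h2 ?_ e3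
    simpa [h1] using e2
  · rw [LinearIndependent.pair_iff' h1] at hl
    obtain ⟨a, ha⟩ := not_forall.1 hl
    obtain rfl := not_not.1 ha
    refine hKIIB κ A1 A2 γ1 1 a ν1 ν2 (by rwa [one_smul]) h1 e1 ?_
    rw [mulVec_smul, e1, smul_comm] at e2
    exact add_left_cancel e2

end Pool.Agent.P.MP_6149fc_ag.V22

end

section

/-! Step HAUT. -/

set_option autoImplicit false
set_option linter.unusedSectionVars false

namespace Pool.Agent.P.MP_6149fc_ag.V22

open Pool.Agent.P.MP_6149fc_ag.V18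
open MvPowerSeries (coeff X constantCoeff monomial)
open Matrix

namespace HAUTx

variable {κ : Type} [Field κ]

/-- The identity of Cayley and Hamilton, applied to a vector. -/
theorem ch (A : Matrix (Fin 3) (Fin 3) κ) (η y : Fin 3 → κ) :
    η ⬝ᵥ (A *ᵥ (A *ᵥ (A *ᵥ y))) = (A 0 0 + A 1 1 + A 2 2) * (η ⬝ᵥ (A *ᵥ (A *ᵥ y))) -
      (A 0 0 * A 1 1 + A 0 0 * A 2 2 + A 1 1 * A 2 2 - A 0 1 * A 1 0 - A 0 2 * A 2 0 -
        A 1 2 * A 2 1) * (η ⬝ᵥ (A *ᵥ y)) + A.det * (η ⬝ᵥ y) := by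
  simp only [det_fin_three, mulVec, dotProduct, Fin.sum_univ_three]
  ring

theorem tr (A : Matrix (Fin 3) (Fin 3) κ) (η y : Fin 3 → κ) :
    (Aᵀ *ᵥ η) ⬝ᵥ y = η ⬝ᵥ (A *ᵥ y) := by
  rw [mulVec_transpose, dotProduct_mulVec]

/-- The vectors orthogonal to the three rows. -/
def W (A : Matrix (Fin 3) (Fin 3) κ) (η : Fin 3 → κ) : Submodule κ (Fin 3 → κ) where
  carrier := {y | η ⬝ᵥ y = 0 ∧ η ⬝ᵥ (A *ᵥ y) = 0 ∧ η ⬝ᵥ (A *ᵥ (A *ᵥ y)) = 0}
  add_mem' := by
    rintro a b ⟨a1, a2, a3⟩ ⟨b1, b2, b3⟩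
    refine ⟨?_, ?_, ?_⟩
    · rw [dotProduct_add, a1, b1, add_zero]
    · rw [mulVec_add, dotProduct_add, a2, b2, add_zero]
    · rw [mulVec_add, mulVec_add, dotProduct_add, a3, b3, add_zero]
  zero_mem' := ⟨by simp, by simp, by simp⟩
  smul_mem' := by
    rintro c a ⟨a1, a2, a3⟩
    refine ⟨?_, ?_, ?_⟩
    · rw [dotProduct_smul, a1, smul_zero]
    · rw [mulVec_smul, dotProduct_smul, a2, smul_zero]
    · rw [mulVec_smul, mulVec_smul, dotProduct_smul, a3, smul_zero]

theorem inv (A : Matrix (Fin 3) (Fin 3) κ) (η : Fin 3 → κ) :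
    ∀ y ∈ W A η, A.mulVecLin y ∈ W A η := by
  rintro y ⟨a1, a2, a3⟩
  refine ⟨a2, a3, ?_⟩
  rw [mulVecLin_apply, ch, a1, a2, a3]
  ring

end HAUTx

theorem p_HAUT :
    S_HAUT := by
  intro κ _ _ A η h
  obtain ⟨y0, hy0, h0⟩ := Matrix.exists_mulVec_eq_zero_iff.2 h
  have hm : y0 ∈ HAUTx.W A η := by
    have e0 : η ⬝ᵥ y0 = 0 := congrFun h0 0
    have e1 : (Aᵀ *ᵥ η) ⬝ᵥ y0 = 0 := congrFun h0 1
    have e2 : (Aᵀ *ᵥ (Aᵀ *ᵥ η)) ⬝ᵥ y0 = 0 := congrFun h0 2
    rw [HAUTx.tr] at e1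
    rw [HAUTx.tr, HAUTx.tr] at e2
    exact ⟨e0, e1, e2⟩
  have : Nontrivial (HAUTx.W A η) :=
    ⟨⟨⟨y0, hm⟩, 0, fun he => hy0 (congrArg Subtype.val he)⟩⟩
  obtain ⟨τ, hτ⟩ := Module.End.exists_eigenvalue
    (show Module.End κ (HAUTx.W A η) from A.mulVecLin.restrict (HAUTx.inv A η))
  obtain ⟨y, hy⟩ := hτ.exists_hasEigenvector
  refine ⟨τ, y.1, fun he => hy.2 (Subtype.ext he), ?_, y.2.1⟩
  exact congrArg Subtype.val hy.apply_eq_smul

end Pool.Agent.P.MP_6149fc_ag.V22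

end

section

/-! Step HROOT. -/

set_option autoImplicit false
set_option linter.unusedSectionVars false

namespace Pool.Agent.P.MP_6149fc_ag.V22

open Pool.Agent.P.MP_6149fc_ag.V18
open MvPowerSeries (coeff X constantCoeff monomial)
open Matrix

namespace HROOTx

theorem kal_smul {κ : Type} [Field κ] (s : κ) (A : Matrix (Fin 3) (Fin 3) κ) (γ : Fin 3 → κ) :
    kal (s • A) (s • γ) = s ^ 6 * kal A γ := by
  simp only [kal, det_fin_three, of_apply, cons_val, mulVec, dotProduct, Fin.sum_univ_three,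
    Matrix.smul_apply, Pi.smul_apply, smul_eq_mul]
  ring

theorem ex_poly {κ : Type} [Field κ] (A1 A2 : Matrix (Fin 3) (Fin 3) κ) (γ1 γ2 : Fin 3 → κ) :
    ∃ g : Polynomial κ, ∀ t, g.eval t = kal (A1 + t • A2) (γ1 + t • γ2) := by
  refine ⟨kal (Matrix.of fun i j => Polynomial.C (A1 i j) + Polynomial.X * Polynomial.C (A2 i j))
    (fun i => Polynomial.C (γ1 i) + Polynomial.X * Polynomial.C (γ2 i)), fun t => ?_⟩
  simp only [kal, det_fin_three, of_apply, cons_val, mulVec, dotProduct, Fin.sum_univ_three,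
    Matrix.smul_apply, Pi.smul_apply, smul_eq_mul, Matrix.add_apply, Pi.add_apply,
    Polynomial.eval_add, Polynomial.eval_sub, Polynomial.eval_mul, Polynomial.eval_C,
    Polynomial.eval_X]

end HROOTx

theorem p_HROOT :
    S_HROOT := by
  intro κ _ _ A1 A2 γ1 γ2
  obtain ⟨g, hg⟩ := HROOTx.ex_poly A1 A2 γ1 γ2
  by_cases hd : g.degree = 0
  · obtain ⟨h, hh⟩ := HROOTx.ex_poly A2 A1 γ2 γ1
    have e1 : ∀ t, g.eval t = g.coeff 0 := fun t => by
      rw [Polynomial.eq_C_of_degree_eq_zero hd, Polynomial.eval_C, Polynomial.coeff_C_zero]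
    have e2 : h = Polynomial.C (g.coeff 0) * Polynomial.X ^ 6 := by
      refine Polynomial.eq_of_infinite_eval_eq _ _
        (((Set.finite_singleton (0 : κ)).infinite_compl).mono fun s hs => ?_)
      have hs0 : s ≠ 0 := hs
      have a1 : A2 + s • A1 = s • (A1 + s⁻¹ • A2) := by
        rw [smul_add, smul_smul, mul_inv_cancel₀ hs0, one_smul, add_comm]
      have a2 : γ2 + s • γ1 = s • (γ1 + s⁻¹ • γ2) := by
        rw [smul_add, smul_smul, mul_inv_cancel₀ hs0, one_smul, add_comm]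
      change h.eval s = _
      rw [hh, a1, a2, HROOTx.kal_smul, ← hg, e1, Polynomial.eval_mul, Polynomial.eval_C,
        Polynomial.eval_pow, Polynomial.eval_X, mul_comm]
    refine ⟨0, 1, .inr one_ne_zero, ?_⟩
    have e3 := hh 0
    rw [e2] at e3
    simpa using e3.symm
  · obtain ⟨t, ht⟩ := IsAlgClosed.exists_root g hd
    exact ⟨1, t, .inl one_ne_zero, by rw [one_smul, one_smul, ← hg]; exact ht⟩

end Pool.Agent.P.MP_6149fc_ag.V22

end

section

/-! Step KH2. -/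

set_option autoImplicit false
set_option linter.unusedSectionVars false

namespace Pool.Agent.P.MP_6149fc_ag.V22

open Pool.Agent.P.MP_6149fc_ag.V18
open MvPowerSeries (coeff X constantCoeff monomial)
open Matrix

namespace KH2x

variable {κ : Type} [Field κ]

/-- The vector with the given first three coordinates and last coordinate. -/
def em (κ : Type) [Field κ] : ((Fin 3 → κ) × κ) →ₗ[κ] (Fin 7 → κ) where
  toFun z := ![z.1 0, z.1 1, z.1 2, 0, 0, 0, z.2]
  map_add' a b := by ext i; fin_cases i <;> simp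
  map_smul' a b := by ext i; fin_cases i <;> simp

theorem em_ker : LinearMap.ker (em κ) = ⊥ := by
  rw [LinearMap.ker_eq_bot']
  rintro ⟨x, l⟩ h
  have h0 := congrFun h 0
  have h1 := congrFun h 1
  have h2 := congrFun h 2
  have h6 := congrFun h 6
  simp [em] at h0 h1 h2 h6
  ext i
  · fin_cases i <;> simp [h0, h1, h2]
  · simp [h6]

theorem two (N : Matrix (Fin 3) (Fin 3) κ) (η y : Fin 3 → κ) (hy : y ≠ 0) (h1 : N *ᵥ y = 0)
    (h2 : η ⬝ᵥ y = 0) : ∃ z : Fin 2 → (Fin 3 → κ) × κ, LinearIndependent κ z ∧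
      ∀ i, Nᵀ *ᵥ (z i).1 = (z i).2 • η := by
  let f : ((Fin 3 → κ) × κ) →ₗ[κ] (Fin 3 → κ) :=
    (Matrix.mulVecLin Nᵀ).comp (LinearMap.fst κ _ _) - (LinearMap.snd κ _ _).smulRight η
  have hf : ∀ z, f z = Nᵀ *ᵥ z.1 - z.2 • η := fun z => rfl
  have hr : LinearMap.range f ≠ ⊤ := by
    intro h
    apply hy
    ext i
    obtain ⟨z, hz⟩ := LinearMap.range_eq_top.1 h (Pi.single i 1)
    have : f z ⬝ᵥ y = 0 := by
      rw [hf, sub_dotProduct, smul_dotProduct, h2, mulVec_transpose, ← dotProduct_mulVec, h1]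
      simp
    rw [hz] at this
    simpa using this
  have h3 := Submodule.finrank_lt hr
  have h4 := f.finrank_range_add_finrank_ker
  simp only [Module.finrank_prod, Module.finrank_fin_fun, Module.finrank_self] at h3 h4
  obtain ⟨z, hz⟩ := exists_linearIndependent_of_le_finrank (R := κ) (M := LinearMap.ker f) (n := 2)
    (by omega)
  exact ⟨fun i => (z i).1, hz.map' (LinearMap.ker f).subtype (Submodule.ker_subtype _),
    fun i => sub_eq_zero.1 (z i).2⟩

theorem bf_em (A : Matrix (Fin 3) (Fin 3) κ) (D : Matrix (Fin 4) (Fin 4) κ)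
    (z : (Fin 3 → κ) × κ) : (bf (aug A 0) D - (bf (aug A 0) D)ᵀ) *ᵥ em κ z =
      ![0, 0, 0, z.2 * (D 0 3 - D 3 0) - (A 0 0 * z.1 0 + A 1 0 * z.1 1 + A 2 0 * z.1 2),
        z.2 * (D 1 3 - D 3 1) - (A 0 1 * z.1 0 + A 1 1 * z.1 1 + A 2 1 * z.1 2),
        z.2 * (D 2 3 - D 3 2) - (A 0 2 * z.1 0 + A 1 2 * z.1 1 + A 2 2 * z.1 2), 0] := by
  ext j
  simp only [mulVec, dotProduct, Matrix.sub_apply, transpose_apply, Fin.sum_univ_seven]
  fin_cases j <;> simp [bf, aug, em] <;> ring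

theorem pA_eq : pA κ = aug 1 0 := by
  ext i j
  fin_cases i <;> fin_cases j <;> simp [pA, aug]

end KH2x

theorem p_KH2 (hHAUT : S_HAUT) (hHROOT : S_HROOT) :
    S_KH2 := by
  intro κ _ _ A1 A2 D hND
  let e : Fin 3 → Fin 3 → κ := fun s l => D s l.castSucc 3 - D s 3 l.castSucc
  obtain ⟨c1, c2, hc, hk⟩ := hHROOT κ A1ᵀ A2ᵀ (e 1 - A1ᵀ *ᵥ e 0) (e 2 - A2ᵀ *ᵥ e 0)
  rw [← transpose_smul, ← transpose_smul, ← transpose_add] at hk
  obtain ⟨τ, y, hy, h1, h2⟩ := hHAUT κ _ _ hk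
  have h3 : (c1 • A1 + c2 • A2 - τ • (1 : Matrix (Fin 3) (Fin 3) κ)) *ᵥ y = 0 := by
    rw [sub_mulVec, h1, smul_mulVec, one_mulVec, sub_self]
  obtain ⟨z, hz, hz'⟩ := KH2x.two _ ((-τ) • e 0 + c1 • e 1 + c2 • e 2) y hy h3 (by
    have : (-τ) • e 0 + c1 • e 1 + c2 • e 2 =
        (c1 • (e 1 - A1ᵀ *ᵥ e 0) + c2 • (e 2 - A2ᵀ *ᵥ e 0)) +
          (c1 • A1 + c2 • A2 - τ • (1 : Matrix (Fin 3) (Fin 3) κ))ᵀ *ᵥ e 0 := by
      simp only [transpose_sub, transpose_add, transpose_smul, transpose_one, sub_mulVec,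
        add_mulVec, smul_mulVec, one_mulVec]
      module
    rw [this, add_dotProduct, h2, mulVec_transpose, ← dotProduct_mulVec, h3]
    simp)
  have hker : ∀ i, sk (bnet ![pA κ, aug A1 0, aug A2 0] D) ![-τ, c1, c2] *ᵥ KH2x.em κ (z i) = 0 := by
    intro i
    have a0 := congrFun (hz' i) 0
    have a1 := congrFun (hz' i) 1
    have a2 := congrFun (hz' i) 2
    simp [mulVec, dotProduct, Fin.sum_univ_three, e] at a0 a1 a2
    rw [sk, Fin.sum_univ_three, add_mulVec, add_mulVec, smul_mulVec, smul_mulVec, smul_mulVec,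
      KH2x.pA_eq]
    change (-τ) • ((bf (aug 1 0) (D 0) - (bf (aug 1 0) (D 0))ᵀ) *ᵥ _) +
      c1 • ((bf (aug A1 0) (D 1) - (bf (aug A1 0) (D 1))ᵀ) *ᵥ _) +
      c2 • ((bf (aug A2 0) (D 2) - (bf (aug A2 0) (D 2))ᵀ) *ᵥ _) = 0
    rw [KH2x.bf_em, KH2x.bf_em, KH2x.bf_em]
    ext j
    fin_cases j <;> simp
    · linear_combination -a0
    · linear_combination -a1
    · linear_combination -a2
  refine hND ![-τ, c1, c2] (fun h => ?_) _ _ (hker 0) (hker 1) ?_
  · have b1 := congrFun h 1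
    have b2 := congrFun h 2
    simp at b1 b2
    exact hc.elim (fun h => h b1) fun h => h b2
  · have := hz.map' (KH2x.em κ) KH2x.em_ker
    have e2 : ![KH2x.em κ (z 0), KH2x.em κ (z 1)] = KH2x.em κ ∘ z := by
      ext1 i
      fin_cases i <;> rfl
    rwa [e2]

end Pool.Agent.P.MP_6149fc_ag.V22

end
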