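import Pool.Agent.P.MP_6149fc_ag.V22.IfaceG

section

/-! Step KSEL. -/

set_option autoImplicit false
set_option linter.unusedSectionVars false

namespace Pool.Agent.P.MP_6149fc_ag.V22

open Pool.Agent.P.MP_6149fc_ag.V18
open MvPowerSeries (coeff X constantCoeff monomial)
open Matrix

namespace KSELx

theorem map_kal {C C' : Type} [CommRing C] [CommRing C'] (φ : C →+* C')
    (A : Matrix (Fin 3) (Fin 3) C) (γ : Fin 3 → C) :
    φ (kal A γ) = kal (A.map φ) fun i => φ (γ i) := by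
  simp [kal, det_fin_three, mulVec, dotProduct, Fin.sum_univ_three, Matrix.mul_apply]

end KSELx

theorem p_KSEL (hHK0 : S_HK0) (hKI : S_KI) (hKII : S_KII) (hKH2 : S_KH2) :
    S_KSEL := by
  intro κ _ _ A1 A2 γ1 γ2 D h
  by_contra! hn
  have h0 : kal (pM A1 A2) (pV γ1 γ2) = 0 := by
    refine Polynomial.funext fun t => ?_
    rw [Polynomial.eval_zero, ← hn t, ← Polynomial.coe_evalRingHom, KSELx.map_kal]
    congr 1
    · ext i j; simp [pM, mul_comm t]
    · ext i; simp [pV, mul_comm t]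
  by_cases hγ : γ1 ≠ 0 ∨ γ2 ≠ 0
  · exact hKII κ A1 A2 γ1 γ2 (hHK0 κ _ D h) hγ (hKI κ A1 A2 γ1 γ2 (hHK0 κ _ D h) h0)
  · push Not at hγ
    obtain ⟨rfl, rfl⟩ := hγ
    exact hKH2 κ A1 A2 D h

end Pool.Agent.P.MP_6149fc_ag.V22

end

section

/-! Step KB. -/

set_option autoImplicit false
set_option linter.unusedSectionVars false

namespace Pool.Agent.P.MP_6149fc_ag.V22

open Pool.Agent.P.MP_6149fc_ag.V18
open MvPowerSeries (coeff X constantCoeff monomial)
open Matrix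

namespace KBx

variable {κ : Type} [Field κ]

/-- The matrix with rows `(P, 0)` and `(q, 1)`. -/
def TT (P : Matrix (Fin 3) (Fin 3) κ) (q : Fin 3 → κ) : Matrix (Fin 4) (Fin 4) κ :=
  !![P 0 0, P 0 1, P 0 2, 0; P 1 0, P 1 1, P 1 2, 0; P 2 0, P 2 1, P 2 2, 0; q 0, q 1, q 2, 1]

theorem det_TT (P : Matrix (Fin 3) (Fin 3) κ) (q : Fin 3 → κ) : (TT P q).det = P.det := by
  rw [det_succ_column _ 3, det_fin_three P]
  simp [TT, Fin.sum_univ_succ, det_fin_three, Fin.succAbove]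
  ring

theorem pA_TT (P : Matrix (Fin 3) (Fin 3) κ) (q : Fin 3 → κ) : P * pA κ = pA κ * TT P q := by
  ext i j
  fin_cases i <;> fin_cases j <;> simp [TT, pA, mul_apply, Fin.sum_univ_succ]

end KBx

theorem p_KB :
    S_KB := by
  intro κ _ A γ h
  set K : Matrix (Fin 3) (Fin 3) κ := Matrix.of ![γ, A *ᵥ γ, A *ᵥ (A *ᵥ γ)] with hK
  have hKu : IsUnit K.det := isUnit_iff_ne_zero.2 h
  obtain ⟨l, hl⟩ : ∃ l : Fin 3 → κ, K *ᵥ l = ![0, 0, 1] :=
    ⟨K⁻¹ *ᵥ ![0, 0, 1], by rw [mulVec_mulVec, mul_nonsing_inv _ hKu, one_mulVec]⟩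
  have h0 : l ⬝ᵥ γ = 0 := by rw [dotProduct_comm]; exact congrFun hl 0
  have h1 : l ⬝ᵥ (A *ᵥ γ) = 0 := by rw [dotProduct_comm]; exact congrFun hl 1
  have h2 : l ⬝ᵥ (A *ᵥ (A *ᵥ γ)) = 1 := by rw [dotProduct_comm]; exact congrFun hl 2
  set P : Matrix (Fin 3) (Fin 3) κ := Matrix.of ![l, l ᵥ* A, l ᵥ* A ᵥ* A] with hP
  have hd : P.det * K.det = -1 := by
    rw [← det_transpose K, ← det_mul, det_fin_three]
    have e : ∀ i j, (P * Kᵀ) i j = P i ⬝ᵥ K j := fun _ _ => rfl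
    have e0 : P 0 = l := rfl
    have e1 : P 1 = l ᵥ* A := rfl
    have e2 : P 2 = l ᵥ* A ᵥ* A := rfl
    have f0 : K 0 = γ := rfl
    have f1 : K 1 = A *ᵥ γ := rfl
    have f2 : K 2 = A *ᵥ (A *ᵥ γ) := rfl
    simp only [e, e0, e1, e2, f0, f1, f2, ← dotProduct_mulVec, h0, h1, h2]
    ring
  have hPu : IsUnit P.det := isUnit_iff_ne_zero.2 fun e => by simp [e] at hd
  set T := KBx.TT P (l ᵥ* A ᵥ* A ᵥ* A) with hT
  have hTu : IsUnit T.det := by rw [hT, KBx.det_TT]; exact hPu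
  have hB : P * aug A γ = pB κ * T := by
    have g1 : (l ᵥ* A) ⬝ᵥ γ = 0 := by rw [← dotProduct_mulVec, h1]
    have g2 : (l ᵥ* A ᵥ* A) ⬝ᵥ γ = 1 := by rw [← dotProduct_mulVec, ← dotProduct_mulVec, h2]
    have a : ∀ (u : Fin 3 → κ), u ᵥ* aug A γ = ![(u ᵥ* A) 0, (u ᵥ* A) 1, (u ᵥ* A) 2, u ⬝ᵥ γ] := by
      intro u
      ext j
      fin_cases j <;> simp [aug, vecMul, dotProduct, Fin.sum_univ_succ]
    ext i j
    have e : (P * aug A γ) i j = (P i ᵥ* aug A γ) j := rfl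
    rw [e, a, hT]
    generalize hq : l ᵥ* A ᵥ* A ᵥ* A = q
    have e0 : P 0 = l := rfl
    have e1 : P 1 = l ᵥ* A := rfl
    have e2 : P 2 = l ᵥ* A ᵥ* A := rfl
    have b0 : P 0 ᵥ* A = P 1 := rfl
    have b1 : P 1 ᵥ* A = P 2 := rfl
    have b2 : P 2 ᵥ* A = q := hq
    have c0 : P 0 ⬝ᵥ γ = 0 := h0
    have c1 : P 1 ⬝ᵥ γ = 0 := g1
    have c2 : P 2 ⬝ᵥ γ = 1 := g2
    clear_value P
    fin_cases i <;> fin_cases j <;>
      simp [KBx.TT, pB, mul_apply, Fin.sum_univ_succ, b0, b1, b2, c0, c1, c2]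
  refine ⟨P, P⁻¹, T⁻¹ᵀ, Tᵀ, mul_nonsing_inv _ hPu, nonsing_inv_mul _ hPu, ?_, ?_, ?_, ?_⟩
  · rw [← transpose_mul, mul_nonsing_inv _ hTu, transpose_one]
  · rw [← transpose_mul, nonsing_inv_mul _ hTu, transpose_one]
  · rw [KBx.pA_TT P (l ᵥ* A ᵥ* A ᵥ* A), transpose_transpose, Matrix.mul_assoc,
      mul_nonsing_inv _ hTu, Matrix.mul_one]
  · rw [hB, transpose_transpose, Matrix.mul_assoc, mul_nonsing_inv _ hTu, Matrix.mul_one]

end Pool.Agent.P.MP_6149fc_ag.V22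

end

section

/-! Step BLK0. -/

set_option autoImplicit false
set_option linter.unusedSectionVars false

namespace Pool.Agent.P.MP_6149fc_ag.V22

open Pool.Agent.P.MP_6149fc_ag.V18
open MvPowerSeries (coeff X constantCoeff monomial)
open Matrix

namespace BLK0x

variable {κ : Type} [Field κ]

theorem blk_eq (P : Matrix (Fin 3) (Fin 3) κ) (ψ : Matrix (Fin 4) (Fin 3) κ)
    (R : Matrix (Fin 4) (Fin 4) κ) : blk P ψ R = (fromBlocks P 0 ψ R).submatrix
      (finSumFinEquiv (m := 3) (n := 4)).symm (finSumFinEquiv (m := 3) (n := 4)).symm := by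
  ext i j
  fin_cases i <;> fin_cases j <;> rfl

theorem bf_eq (B : Matrix (Fin 3) (Fin 4) κ) (D : Matrix (Fin 4) (Fin 4) κ) :
    bf B D = (fromBlocks 0 B 0 D).submatrix
      (finSumFinEquiv (m := 3) (n := 4)).symm (finSumFinEquiv (m := 3) (n := 4)).symm := by
  ext i j
  fin_cases i <;> fin_cases j <;> rfl

theorem mn_mul (P : Matrix (Fin 3) (Fin 3) κ) (M : Fin 3 → Fin 7 → κ) (t : I3) :
    mn (fun r i => ∑ j, P r j * M j i) t = P.det * mn M t := by
  simp only [mn, Fin.sum_univ_three, det_fin_three]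
  ring

end BLK0x

theorem p_BLK0 :
    S_BLK0 := by
  intro κ _ P ψ R
  refine ⟨fun B D => ?_, fun _ _ _ => ?_, ?_, ?_⟩
  · simp [BLK0x.blk_eq, BLK0x.bf_eq, fromBlocks_multiply, fromBlocks_transpose]
  · simp [BLK0x.blk_eq, fromBlocks_multiply]
  · simp [BLK0x.blk_eq]
  · funext t
    rw [e3, ← BLK0x.mn_mul]
    congr 1
    funext r j
    fin_cases r <;> fin_cases j <;> simp [blk, hk, Fin.sum_univ_succ]

end Pool.Agent.P.MP_6149fc_ag.V22

end

section

/-! Step BLK. -/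

set_option autoImplicit false
set_option linter.unusedSectionVars false

namespace Pool.Agent.P.MP_6149fc_ag.V22

open Pool.Agent.P.MP_6149fc_ag.V18
open MvPowerSeries (coeff X constantCoeff monomial)
open Matrix

theorem p_BLK (hBLK0 : S_BLK0) (hAUT : S_AUT) (hGSC : S_GSC) (hACT1 : S_ACT1) :
    S_BLK := by
  intro κ _ P P' ψ R R' B D h1 h2 h3 h4
  have hone := (hBLK0 κ P ψ R).2.2.1
  have e1 : blk P ψ R * blk P' (-(R' * ψ * P')) R' = 1 := by
    rw [(hBLK0 κ P ψ R).2.1, h1, h3, Matrix.mul_neg, ← Matrix.mul_assoc, ← Matrix.mul_assoc, h3,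
      Matrix.one_mul, add_neg_cancel, hone]
  have e2 : blk P' (-(R' * ψ * P')) R' * blk P ψ R = 1 := by
    rw [(hBLK0 κ P' _ R').2.1, h2, h4, Matrix.neg_mul, Matrix.mul_assoc _ P', h2, Matrix.mul_one,
      neg_add_cancel, hone]
  have hd : P.det ≠ 0 := left_ne_zero_of_mul_eq_one (b := P'.det) (by rw [← det_mul, h1, det_one])
  have ha : act (blk P ψ R) (e3 κ) = fun t => P.det * e3 κ t := by
    rw [e3, (hACT1 κ κ (blk P ψ R)).1]
    exact (hBLK0 κ P ψ R).2.2.2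
  have hr := hAUT κ _ _ (bnet B D) (e3 κ) e1 e2
  have hn : (fun s => blk P ψ R * bnet B D s * (blk P ψ R)ᵀ) =
      bnet (fun s => P * B s * Rᵀ) fun s => (ψ * B s + R * D s) * Rᵀ :=
    funext fun s => (hBLK0 κ P ψ R).1 (B s) (D s)
  rw [ha, hn] at hr
  exact (hGSC κ (bnet B D) (e3 κ) P.det hd).trans hr

end Pool.Agent.P.MP_6149fc_ag.V22

end

section

/-! Step NETC. -/

set_option autoImplicit false
set_option linter.unusedSectionVars false

namespace Pool.Agent.P.MP_6149fc_ag.V22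

open Pool.Agent.P.MP_6149fc_ag.V18
open MvPowerSeries (coeff X constantCoeff monomial)
open Matrix

namespace NETCx

variable {κ : Type} [Field κ]

lemma bf_sk (B : Matrix (Fin 3) (Fin 4) κ) (D : Matrix (Fin 4) (Fin 4) κ) :
    bf B D - (bf B D)ᵀ = bf B (D - Dᵀ) - (bf B 0)ᵀ := by
  ext i j
  fin_cases i <;> fin_cases j <;> simp [bf]

lemma bf_add (B B' : Matrix (Fin 3) (Fin 4) κ) (D D' : Matrix (Fin 4) (Fin 4) κ) :
    bf (B + B') (D + D') = bf B D + bf B' D' := by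
  ext i j
  fin_cases i <;> fin_cases j <;> first | rfl | exact (add_zero 0).symm

lemma bf_smul (c : κ) (B : Matrix (Fin 3) (Fin 4) κ) (D : Matrix (Fin 4) (Fin 4) κ) :
    bf (c • B) (c • D) = c • bf B D := by
  ext i j
  fin_cases i <;> fin_cases j <;> first | rfl | exact (mul_zero c).symm

lemma bf_sum (c : Fin 3 → κ) (B : Fin 3 → Matrix (Fin 3) (Fin 4) κ)
    (D : Fin 3 → Matrix (Fin 4) (Fin 4) κ) :
    bf (∑ t, c t • B t) (∑ t, c t • D t) = ∑ t, c t • bf (B t) (D t) := by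
  simp only [Fin.sum_univ_three, bf_add, bf_smul]

end NETCx

open NETCx in
theorem p_NETC (hSAME : S_SAME) :
    S_NETC := by
  intro κ _ _ G G' B B' D D' hG hB hD
  have key : ∀ s, bnet B' D' s - (bnet B' D' s)ᵀ = sk (bnet B D) (G s) := fun s => by
    have e := bf_sum (G s) B fun _ => 0
    simp only [smul_zero, Finset.sum_const_zero] at e
    simp only [bnet, sk, bf_sk, hB s, hD s, bf_sum, e, smul_sub (G s _) (bf _ _),
      Finset.sum_sub_distrib, transpose_sum, transpose_smul]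
  refine hSAME κ _ _ (fun s => ⟨G' s, ?_⟩) fun s => ⟨G s, key s⟩
  have h1 : ∀ t, ∑ r, G' s r * G r t = if s = t then 1 else 0 := fun t => by
    simpa [Matrix.mul_apply, Matrix.one_apply] using congrFun (congrFun hG s) t
  rw [sk]
  simp only [key, sk, Finset.smul_sum, smul_smul]
  rw [Finset.sum_comm]
  simp only [← Finset.sum_smul, h1, ite_smul, one_smul, zero_smul, Finset.sum_ite_eq,
    Finset.mem_univ, if_true]

end Pool.Agent.P.MP_6149fc_ag.V22

end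

section

/-! Step CAN0. -/

set_option autoImplicit false
set_option linter.unusedSectionVars false

namespace Pool.Agent.P.MP_6149fc_ag.V22

open Pool.Agent.P.MP_6149fc_ag.V18
open MvPowerSeries (coeff X constantCoeff monomial)
open Matrix

theorem p_CAN0 (hNETC : S_NETC) :
    S_CAN0 := by
  intro κ _ _ E D0 D1 D h0 h1
  refine hNETC κ !![1, 0, 0; 0, 1, 0; -E 1 1, -E 1 2, 1] !![1, 0, 0; 0, 1, 0; E 1 1, E 1 2, 1]
    _ _ _ _ ?_ (fun s => ?_) fun s => ?_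
  · ext i j
    fin_cases i <;> fin_cases j <;> simp [Matrix.mul_apply, Fin.sum_univ_succ]
  · fin_cases s
    · simp [Fin.sum_univ_succ]
    · simp [Fin.sum_univ_succ]
    · ext i j
      fin_cases i <;> fin_cases j <;>
        simp [Fin.sum_univ_succ, datOf, Dat.E, pA, pB] <;> ring
  · fin_cases s
    · simp [Fin.sum_univ_succ, h0]
    · simp [Fin.sum_univ_succ, h1]
    · ext i j
      fin_cases i <;> fin_cases j <;>
        simp [Fin.sum_univ_succ, datOf, Dat.D, h0, h1]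

end Pool.Agent.P.MP_6149fc_ag.V22

end

section

/-! Step CAN. -/

set_option autoImplicit false
set_option linter.unusedSectionVars false

namespace Pool.Agent.P.MP_6149fc_ag.V22

open Pool.Agent.P.MP_6149fc_ag.V18
open MvPowerSeries (coeff X constantCoeff monomial)
open Matrix

namespace CANx

variable {κ : Type} [Field κ]

/-- The shear that makes the last blocks of the first two forms symmetric. -/
def psi (A B : Matrix (Fin 4) (Fin 4) κ) : Matrix (Fin 4) (Fin 3) κ :=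
  !![B 1 0 - B 0 1, B 2 0 - B 0 2, B 3 0 - B 0 3;
    B 2 0 - B 0 2 + (A 0 1 - A 1 0), B 3 0 - B 0 3 + (A 0 2 - A 2 0) - (B 1 2 - B 2 1),
      A 0 3 - A 3 0 - (B 1 3 - B 3 1);
    B 3 0 - B 0 3 + (A 0 2 - A 2 0), A 0 3 - A 3 0 - (B 1 3 - B 3 1) + (A 1 2 - A 2 1),
      A 1 3 - A 3 1 - (B 2 3 - B 3 2);
    A 0 3 - A 3 0, A 1 3 - A 3 1, A 2 3 - A 3 2]

theorem symA (A B : Matrix (Fin 4) (Fin 4) κ) : (psi A B * pA κ + A)ᵀ = psi A B * pA κ + A := by
  ext i j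
  fin_cases i <;> fin_cases j <;> simp [psi, pA] <;> ring

theorem symB (A B : Matrix (Fin 4) (Fin 4) κ) : (psi A B * pB κ + B)ᵀ = psi A B * pB κ + B := by
  ext i j
  fin_cases i <;> fin_cases j <;> simp [psi, pB] <;> ring

end CANx

open CANx in
theorem p_CAN (hBLK : S_BLK) (hCAN0 : S_CAN0) :
    S_CAN := by
  intro κ _ _ E D
  have h1 := hBLK κ 1 1 (psi (D 0) (D 1)) 1 1 ![pA κ, pB κ, E] D (one_mul _) (one_mul _)
    (one_mul _) (one_mul _)
  have h2 := hCAN0 κ E _ _ (psi (D 0) (D 1) * E + D 2) (symA (D 0) (D 1)) (symB (D 0) (D 1))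
  have e1 : (fun s => (1 : Matrix (Fin 3) (Fin 3) κ) * ![pA κ, pB κ, E] s *
      (1 : Matrix (Fin 4) (Fin 4) κ)ᵀ) = ![pA κ, pB κ, E] := by
    funext s
    rw [Matrix.one_mul, transpose_one, Matrix.mul_one]
  have e2 : (fun s => (psi (D 0) (D 1) * ![pA κ, pB κ, E] s + 1 * D s) *
      (1 : Matrix (Fin 4) (Fin 4) κ)ᵀ) = ![psi (D 0) (D 1) * pA κ + D 0,
        psi (D 0) (D 1) * pB κ + D 1, psi (D 0) (D 1) * E + D 2] := by
    funext s
    rw [one_mul, transpose_one, mul_one]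
    fin_cases s <;> rfl
  rw [e1, e2] at h1
  exact ⟨_, h1.trans (h2.rel _)⟩

end Pool.Agent.P.MP_6149fc_ag.V22

end

section

/-! Step NORM1. -/

set_option autoImplicit false
set_option linter.unusedSectionVars false

namespace Pool.Agent.P.MP_6149fc_ag.V22

open Pool.Agent.P.MP_6149fc_ag.V18
open MvPowerSeries (coeff X constantCoeff monomial)
open Matrix

namespace NORM1x

theorem aug_eq {κ : Type} [Field κ] (E : Matrix (Fin 3) (Fin 4) κ) :
    aug (Matrix.of fun i j => E i j.castSucc) (fun i => E i 3) = E := by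
  ext i j
  fin_cases i <;> fin_cases j <;> rfl

end NORM1x

theorem p_NORM1 (hTV : S_TV) (hND : S_ND) (hHK0 : S_HK0) (hKA : S_KA) (hKN : S_KN) (hBLK : S_BLK) (hNETC : S_NETC) :
    S_NORM1 := by
  intro κ _ _ _ B D hs
  obtain ⟨t, ht⟩ := hKA κ B (hHK0 κ B D (hND κ _ (hTV κ _ hs)))
  obtain ⟨R, R', h1, h2, h3⟩ := hKN κ _ ht
  have hb := hBLK κ 1 1 0 R R' B D (mul_one _) (mul_one _) h1 h2
  let G : Matrix (Fin 3) (Fin 3) κ := !![1, t, 0; 0, 1, 0; 0, 0, 1]
  let G' : Matrix (Fin 3) (Fin 3) κ := !![1, -t, 0; 0, 1, 0; 0, 0, 1]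
  have hG : G' * G = 1 := by
    ext i j
    fin_cases i <;> fin_cases j <;> simp [G, G', Matrix.mul_apply, Fin.sum_univ_three]
  refine ⟨_, _, _, _, fun s => ∑ r, G s r • (((0 : Matrix (Fin 4) (Fin 3) κ) * B r + R * D r) * Rᵀ),
    hb.trans (Same.rel
    (hNETC κ G G' _ ![pA κ,
      aug (Matrix.of fun i j => (B 1 * Rᵀ) i j.castSucc) (fun i => (B 1 * Rᵀ) i 3),
      aug (Matrix.of fun i j => (B 2 * Rᵀ) i j.castSucc) (fun i => (B 2 * Rᵀ) i 3)]
      _ _ hG (fun s => ?_) fun s => ?_) _)⟩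
  · rw [NORM1x.aug_eq, NORM1x.aug_eq, ← h3]
    fin_cases s <;> simp [G, Fin.sum_univ_three, Matrix.add_mul]
  · simp only [transpose_sum, transpose_smul, smul_sub, Finset.sum_sub_distrib]

end Pool.Agent.P.MP_6149fc_ag.V22

end

section

/-! Step NORM. -/

set_option autoImplicit false
set_option linter.unusedSectionVars false

namespace Pool.Agent.P.MP_6149fc_ag.V22

open Pool.Agent.P.MP_6149fc_ag.V18
open MvPowerSeries (coeff X constantCoeff monomial)
open Matrix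

namespace NORMx

theorem aug_add {κ : Type} [Field κ] (A1 A2 : Matrix (Fin 3) (Fin 3) κ) (γ1 γ2 : Fin 3 → κ)
    (t : κ) : aug (A1 + t • A2) (γ1 + t • γ2) = aug A1 γ1 + t • aug A2 γ2 := by
  ext i j
  fin_cases i <;> fin_cases j <;> simp [aug]

end NORMx

theorem p_NORM (hNORM1 : S_NORM1) (hTV : S_TV) (hND : S_ND) (hKSEL : S_KSEL) (hKB : S_KB) (hBLK : S_BLK) (hNETC : S_NETC) (hCAN : S_CAN) :
    S_NORM := by
  intro κ _ _ _ B D hs
  obtain ⟨A1, A2, γ1, γ2, D', r1⟩ := hNORM1 κ B D hs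
  obtain ⟨t, ht⟩ := hKSEL κ A1 A2 γ1 γ2 D' (hND κ _ (hTV κ _ (r1.1 hs)))
  obtain ⟨P, P', R, R', h1, h2, h3, h4, h5, h6⟩ := hKB κ _ _ ht
  have r2 := hBLK κ P P' 0 R R' ![pA κ, aug A1 γ1, aug A2 γ2] D' h1 h2 h3 h4
  set B2 : Fin 3 → Matrix (Fin 3) (Fin 4) κ :=
    fun s => P * ![pA κ, aug A1 γ1, aug A2 γ2] s * Rᵀ with hB2
  set D2 : Fin 3 → Matrix (Fin 4) (Fin 4) κ :=
    fun s => ((0 : Matrix (Fin 4) (Fin 3) κ) * ![pA κ, aug A1 γ1, aug A2 γ2] s + R * D' s) * Rᵀ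
    with hD2
  have e0 : B2 0 = pA κ := h5
  have e1 : B2 1 + t • B2 2 = pB κ := by
    rw [← h6, NORMx.aug_add, Matrix.mul_add, Matrix.add_mul, Matrix.mul_smul, Matrix.smul_mul]
    rfl
  have r3 := hNETC κ !![1, 0, 0; 0, 1, t; 0, 0, 1] !![1, 0, 0; 0, 1, -t; 0, 0, 1] B2
    ![pA κ, pB κ, B2 2] D2 (fun s => ∑ u, !![1, 0, 0; 0, 1, t; 0, 0, (1 : κ)] s u • D2 u)
    (by
      ext i j
      fin_cases i <;> fin_cases j <;> simp [Matrix.mul_apply, Fin.sum_univ_three])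
    (by
      intro s
      fin_cases s <;> simp [Fin.sum_univ_three, e0, e1])
    (by
      intro s
      simp only [transpose_sum, transpose_smul, smul_sub, Finset.sum_sub_distrib])
  obtain ⟨d, r4⟩ := hCAN κ (B2 2) fun s => ∑ u, !![1, 0, 0; 0, 1, t; 0, 0, (1 : κ)] s u • D2 u
  exact ⟨d, r1.trans (r2.trans ((r3.rel _).trans r4))⟩

end Pool.Agent.P.MP_6149fc_ag.V22

end

section

/-! Step MOVS. -/

set_option autoImplicit false
set_option linter.unusedSectionVars false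
set_option linter.unnecessarySeqFocus false

namespace Pool.Agent.P.MP_6149fc_ag.V22

open Pool.Agent.P.MP_6149fc_ag.V18
open MvPowerSeries (coeff X constantCoeff monomial)
open Matrix

namespace MOVSx

variable {κ : Type} [Field κ]

/-- The translation on quadratic forms. -/
def mP (c : κ) : Matrix (Fin 3) (Fin 3) κ := !![1, 0, 0; -c, 1, 0; c ^ 2, -2 * c, 1]

/-- The translation on cubic forms. -/
def mR (c : κ) : Matrix (Fin 4) (Fin 4) κ :=
  !![1, c, c ^ 2, c ^ 3; 0, 1, 2 * c, 3 * c ^ 2; 0, 0, 1, 3 * c; 0, 0, 0, 1]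

/-- The change of basis of the net. -/
def mG (c : κ) : Matrix (Fin 3) (Fin 3) κ := !![1, 0, 0; -c, 1, 0; 0, 0, 1]

theorem mP_inv (c c' : κ) (h : c' = -c) : mP c * mP c' = 1 := by
  subst h
  ext i j
  fin_cases i <;> fin_cases j <;> simp [mP, mul_apply, Fin.sum_univ_three] <;> ring

theorem mR_inv (c c' : κ) (h : c' = -c) : mR c * mR c' = 1 := by
  subst h
  ext i j
  fin_cases i <;> fin_cases j <;> simp [mR, mul_apply, Fin.sum_univ_four] <;> ring

theorem mG_inv (c : κ) : mG (-c) * mG c = 1 := by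
  ext i j
  fin_cases i <;> fin_cases j <;> simp [mG, mul_apply, Fin.sum_univ_three]

theorem hA (c : κ) : mP c * pA κ * (mR c)ᵀ = pA κ := by
  ext i j
  fin_cases i <;> fin_cases j <;>
    simp [mP, mR, pA, mul_apply, Fin.sum_univ_four] <;> ring

theorem hB (c : κ) : mP c * pB κ * (mR c)ᵀ = pB κ + c • pA κ := by
  ext i j
  fin_cases i <;> fin_cases j <;>
    simp [mP, mR, pA, pB, mul_apply, Fin.sum_univ_four] <;> ring

theorem hD (c : κ) (d : Dat κ) :
    datOf (mP c * d.E * (mR c)ᵀ) (mR c * d.D * (mR c)ᵀ) = shfD c d := by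
  simp only [datOf, shfD, Dat.mk.injEq, Dat.g1, Dat.g2]
  refine ⟨?_, ?_, ?_, ?_, ?_, ?_, ?_, ?_, ?_, ?_, ?_, ?_, ?_, ?_, ?_, ?_⟩ <;>
    simp [mP, mR, Dat.E, Dat.D, mul_apply, Fin.sum_univ_four] <;> ring

end MOVSx

open MOVSx

theorem p_MOVS (hBLK : S_BLK) (hNETC : S_NETC) (hCAN0 : S_CAN0) :
    S_MOVS := by
  intro κ _ _ c d
  have h1 := hBLK κ (mP c) (mP (-c)) 0 (mR c) (mR (-c)) ![pA κ, pB κ, d.E] ![0, 0, d.D]
    (mP_inv _ _ rfl) (mP_inv _ _ (neg_neg c).symm) (mR_inv _ _ rfl) (mR_inv _ _ (neg_neg c).symm)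
  have h2 := hNETC κ (mG c) (mG (-c)) (fun s => mP c * ![pA κ, pB κ, d.E] s * (mR c)ᵀ)
    ![pA κ, pB κ, mP c * d.E * (mR c)ᵀ]
    (fun s => ((0 : Matrix (Fin 4) (Fin 3) κ) * ![pA κ, pB κ, d.E] s + mR c * ![0, 0, d.D] s) *
      (mR c)ᵀ) ![0, 0, mR c * d.D * (mR c)ᵀ] (mG_inv c)
    (fun s => by
      fin_cases s <;> simp [mG, Fin.sum_univ_three, hA, hB])
    (fun s => by
      fin_cases s <;> simp [mG, Fin.sum_univ_three])
  have h3 := hCAN0 κ (mP c * d.E * (mR c)ᵀ) 0 0 (mR c * d.D * (mR c)ᵀ) transpose_zero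
    transpose_zero
  rw [hD] at h3
  exact h1.trans ((h2.rel _).trans (h3.rel _))

end Pool.Agent.P.MP_6149fc_ag.V22

end

section

/-! Step MOVW. -/

set_option autoImplicit false
set_option linter.unusedSectionVars false

namespace Pool.Agent.P.MP_6149fc_ag.V22

open Pool.Agent.P.MP_6149fc_ag.V18
open MvPowerSeries (coeff X constantCoeff monomial)
open Matrix

namespace MOVWx

variable (κ : Type) [Field κ]

/-- The antidiagonal permutation matrix of size three. -/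
def P3 : Matrix (Fin 3) (Fin 3) κ := !![0, 0, 1; 0, 1, 0; 1, 0, 0]
/-- The antidiagonal permutation matrix of size four. -/
def R4 : Matrix (Fin 4) (Fin 4) κ := !![0, 0, 0, 1; 0, 0, 1, 0; 0, 1, 0, 0; 1, 0, 0, 0]
/-- The change of the basis of the net. -/
def G3 : Matrix (Fin 3) (Fin 3) κ := !![0, 1, 0; 1, 0, 0; 0, 0, -1]

theorem P3_sq : P3 κ * P3 κ = 1 := by
  ext i j
  fin_cases i <;> fin_cases j <;> simp [P3, Matrix.mul_apply, Fin.sum_univ_three]

theorem R4_sq : R4 κ * R4 κ = 1 := by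
  ext i j
  fin_cases i <;> fin_cases j <;> simp [R4, Matrix.mul_apply, Fin.sum_univ_four]

theorem G3_sq : G3 κ * G3 κ = 1 := by
  ext i j
  fin_cases i <;> fin_cases j <;> simp [G3, Matrix.mul_apply, Fin.sum_univ_three]

theorem PB (B : Matrix (Fin 3) (Fin 4) κ) : P3 κ * B * (R4 κ)ᵀ =
    !![B 2 3, B 2 2, B 2 1, B 2 0; B 1 3, B 1 2, B 1 1, B 1 0; B 0 3, B 0 2, B 0 1, B 0 0] := by
  ext i j
  fin_cases i <;> fin_cases j <;>
    simp [P3, R4, Matrix.mul_apply, vecMul, dotProduct, Fin.sum_univ_three, Fin.sum_univ_four]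

theorem RD (D : Matrix (Fin 4) (Fin 4) κ) : R4 κ * D * (R4 κ)ᵀ =
    !![D 3 3, D 3 2, D 3 1, D 3 0; D 2 3, D 2 2, D 2 1, D 2 0; D 1 3, D 1 2, D 1 1, D 1 0;
      D 0 3, D 0 2, D 0 1, D 0 0] := by
  ext i j
  fin_cases i <;> fin_cases j <;>
    simp [R4, Matrix.mul_apply, vecMul, dotProduct, Fin.sum_univ_four]

theorem PA : P3 κ * pA κ * (R4 κ)ᵀ = pB κ := by
  rw [PB]; ext i j; fin_cases i <;> fin_cases j <;> simp [pA, pB]

theorem PBB : P3 κ * pB κ * (R4 κ)ᵀ = pA κ := by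
  rw [PB]; ext i j; fin_cases i <;> fin_cases j <;> simp [pA, pB]

theorem dat (d : Dat κ) :
    datOf (-(P3 κ * d.E * (R4 κ)ᵀ)) (-(R4 κ * d.D * (R4 κ)ᵀ)) = swpD d := by
  rw [PB, RD]
  simp [datOf, swpD, Dat.E, Dat.D]

end MOVWx

theorem p_MOVW (hBLK : S_BLK) (hNETC : S_NETC) (hCAN0 : S_CAN0) :
    S_MOVW := by
  intro κ _ _ d
  have h1 := hBLK κ (MOVWx.P3 κ) (MOVWx.P3 κ) 0 (MOVWx.R4 κ) (MOVWx.R4 κ) ![pA κ, pB κ, d.E]
    ![0, 0, d.D] (MOVWx.P3_sq κ) (MOVWx.P3_sq κ) (MOVWx.R4_sq κ) (MOVWx.R4_sq κ)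
  have h2 := hNETC κ (MOVWx.G3 κ) (MOVWx.G3 κ)
    (fun s => MOVWx.P3 κ * ![pA κ, pB κ, d.E] s * (MOVWx.R4 κ)ᵀ)
    ![pA κ, pB κ, -(MOVWx.P3 κ * d.E * (MOVWx.R4 κ)ᵀ)]
    (fun s => ((0 : Matrix (Fin 4) (Fin 3) κ) * ![pA κ, pB κ, d.E] s +
      MOVWx.R4 κ * ![0, 0, d.D] s) * (MOVWx.R4 κ)ᵀ)
    ![0, 0, -(MOVWx.R4 κ * d.D * (MOVWx.R4 κ)ᵀ)] (MOVWx.G3_sq κ)
    (fun s => by
      fin_cases s <;> simp [MOVWx.G3, Fin.sum_univ_three, MOVWx.PA, MOVWx.PBB])
    (fun s => by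
      fin_cases s
      · simp [MOVWx.G3, Fin.sum_univ_three]
      · simp [MOVWx.G3, Fin.sum_univ_three]
      · simp [MOVWx.G3, Fin.sum_univ_three, sub_eq_add_neg, add_comm])
  have h3 := hCAN0 κ (-(MOVWx.P3 κ * d.E * (MOVWx.R4 κ)ᵀ)) 0 0
    (-(MOVWx.R4 κ * d.D * (MOVWx.R4 κ)ᵀ)) transpose_zero transpose_zero
  rw [MOVWx.dat] at h3
  exact (h1.trans (h2.rel _)).trans (h3.rel _)

end Pool.Agent.P.MP_6149fc_ag.V22

end

section

/-! Step MOVT. -/

set_option autoImplicit false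
set_option linter.unusedSectionVars false

namespace Pool.Agent.P.MP_6149fc_ag.V22

open Pool.Agent.P.MP_6149fc_ag.V18
open MvPowerSeries (coeff X constantCoeff monomial)
open Matrix

namespace MOVTx

variable {κ : Type} [Field κ] [CharZero κ]

theorem dinv {n : Type} [Fintype n] [DecidableEq n] {g : n → κ} (hg : ∀ i, g i ≠ 0) :
    diagonal g * diagonal (fun i => (g i)⁻¹) = 1 ∧ diagonal (fun i => (g i)⁻¹) * diagonal g = 1 := by
  rw [diagonal_mul_diagonal, diagonal_mul_diagonal, ← diagonal_one]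
  constructor <;> congr 1 <;> funext i
  · exact mul_inv_cancel₀ (hg i)
  · exact inv_mul_cancel₀ (hg i)

theorem mv (hBLK : S_BLK) (hNETC : S_NETC) (hCAN0 : S_CAN0) (d : Dat κ) {p g : Fin 3 → κ}
    {r : Fin 4 → κ} (hp : ∀ i, p i ≠ 0) (hg : ∀ i, g i ≠ 0) (hr : ∀ i, r i ≠ 0)
    (hA : pA κ = g 0 • (diagonal p * pA κ * (diagonal r)ᵀ))
    (hB : pB κ = g 1 • (diagonal p * pB κ * (diagonal r)ᵀ)) :
    RelD d (datOf (g 2 • (diagonal p * d.E * (diagonal r)ᵀ))
      (g 2 • (diagonal r * d.D * (diagonal r)ᵀ))) := by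
  have h1 := hBLK κ _ _ 0 _ _ ![pA κ, pB κ, d.E] ![0, 0, d.D] (dinv hp).1 (dinv hp).2 (dinv hr).1
    (dinv hr).2
  refine h1.trans (Rel.trans (Same.rel (hNETC κ (diagonal g) _ _
    ![pA κ, pB κ, g 2 • (diagonal p * d.E * (diagonal r)ᵀ)] _
    ![0, 0, g 2 • (diagonal r * d.D * (diagonal r)ᵀ)] (dinv hg).2 (fun s => ?_) fun s => ?_) _)
    (Same.rel (hCAN0 κ _ 0 0 _ transpose_zero transpose_zero) _))
  · rw [Finset.sum_eq_single s (fun t _ ht => by rw [diagonal_apply_ne _ ht.symm, zero_smul])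
      (fun h => (h (Finset.mem_univ s)).elim), diagonal_apply_eq]
    fin_cases s
    exacts [hA, hB, rfl]
  · rw [Finset.sum_eq_single s (fun t _ ht => by rw [diagonal_apply_ne _ ht.symm, zero_smul])
      (fun h => (h (Finset.mem_univ s)).elim), diagonal_apply_eq]
    fin_cases s
    · simp
    · simp
    · simp [smul_sub]

end MOVTx

theorem p_MOVT (hBLK : S_BLK) (hNETC : S_NETC) (hCAN0 : S_CAN0) :
    S_MOVT := by
  intro κ _ _ s s' d hs hs'
  constructor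
  · have h := MOVTx.mv hBLK hNETC hCAN0 d (p := ![s ^ 2, s, 1]) (g := ![(s ^ 2)⁻¹, (s ^ 3)⁻¹, 1])
      (r := ![1, s, s ^ 2, s ^ 3]) (fun i => by fin_cases i <;> simp [hs])
      (fun i => by fin_cases i <;> simp [hs]) (fun i => by fin_cases i <;> simp [hs])
      (by
        ext i j
        simp only [diagonal_transpose, Matrix.smul_apply, mul_diagonal, diagonal_mul, smul_eq_mul]
        fin_cases i <;> fin_cases j <;> simp [pA] <;> field_simp)
      (by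
        ext i j
        simp only [diagonal_transpose, Matrix.smul_apply, mul_diagonal, diagonal_mul, smul_eq_mul]
        fin_cases i <;> fin_cases j <;> simp [pB] <;> field_simp)
    refine (congrArg (RelD d) ?_).mp h
    simp only [datOf, torD, diagonal_transpose, Matrix.smul_apply, mul_diagonal, diagonal_mul,
      smul_eq_mul, Dat.mk.injEq]
    refine ⟨?_, ?_, ?_, ?_, ?_, ?_, ?_, ?_, ?_, ?_, ?_, ?_, ?_, ?_, ?_, ?_⟩ <;>
      simp [Dat.E, Dat.D] <;> ring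
  · have h := MOVTx.mv hBLK hNETC hCAN0 d (p := fun _ => s / s') (g := ![s' / s, s' / s, s'])
      (r := fun _ => 1) (fun i => div_ne_zero hs hs')
      (fun i => by fin_cases i <;> simp [hs, hs']) (fun i => one_ne_zero)
      (by
        ext i j
        simp only [diagonal_transpose, Matrix.smul_apply, mul_diagonal, diagonal_mul, smul_eq_mul]
        simp only [cons_val_zero]
        field_simp)
      (by
        ext i j
        simp only [diagonal_transpose, Matrix.smul_apply, mul_diagonal, diagonal_mul, smul_eq_mul]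
        simp only [cons_val_one, cons_val_zero]
        field_simp)
    refine (congrArg (RelD d) ?_).mp h
    have e : ∀ x : κ, s' * (s / s' * x) = s * x := fun x => by field_simp
    simp only [datOf, sclD, diagonal_transpose, Matrix.smul_apply, mul_diagonal, diagonal_mul,
      smul_eq_mul, Dat.mk.injEq, mul_one, one_mul, cons_val, e]
    refine ⟨?_, ?_, ?_, ?_, ?_, ?_, ?_, ?_, ?_, ?_, ?_, ?_, ?_, ?_, ?_, ?_⟩ <;>
      simp [Dat.E, Dat.D] <;> ring

end Pool.Agent.P.MP_6149fc_ag.V22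

end

section

/-! Step SM0V. -/

set_option autoImplicit false
set_option linter.unusedSectionVars false

namespace Pool.Agent.P.MP_6149fc_ag.V22

open Pool.Agent.P.MP_6149fc_ag.V18
open MvPowerSeries (coeff X constantCoeff monomial)
open Matrix

namespace SM0Vx

variable {κ : Type} [Field κ]

theorem fm_bf (B : Matrix (Fin 3) (Fin 4) κ) (D : Matrix (Fin 4) (Fin 4) κ) (a : Fin 3)
    (v : Fin 7 → κ) : fm (bf B D) (hk (0 : Fin 6 → κ) a) v =
      B a 0 * v 3 + B a 1 * v 4 + B a 2 * v 5 + B a 3 * v 6 := by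
  fin_cases a <;> simp [fm, bf, hk, Fin.sum_univ_succ] <;> ring

theorem li : LinearIndependent κ (hk (0 : Fin 6 → κ)) := by
  rw [Fintype.linearIndependent_iff]
  intro g hg i
  have h0 := congrFun hg 0
  have h1 := congrFun hg 1
  have h2 := congrFun hg 2
  simp [hk, Fin.sum_univ_succ] at h0 h1 h2
  fin_cases i <;> assumption

theorem iso (B : Matrix (Fin 3) (Fin 4) κ) (D : Matrix (Fin 4) (Fin 4) κ) (a b : Fin 3) :
    fm (bf B D) (hk (0 : Fin 6 → κ) a) (hk (0 : Fin 6 → κ) b) = 0 := by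
  rw [fm_bf]
  fin_cases b <;> simp [hk]

end SM0Vx

theorem p_SM0V (hTV : S_TV) :
    S_SM0V := by
  intro κ _ d hs ε hε
  have h0 := congrFun hε 0
  have h1 := congrFun hε 1
  have h2 := congrFun hε 2
  have h3 := congrFun hε 3
  have h4 := congrFun hε 4
  have h5 := congrFun hε 5
  simp only [Dat.lin, Pi.add_apply, Pi.smul_apply, smul_eq_mul, Pi.zero_apply,
    cons_val] at h0 h1 h2 h3 h4 h5
  have key := hTV κ (net d) hs (hk 0) SM0Vx.li (fun s a b => SM0Vx.iso _ _ a b)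
    ![![ε 0 * (d.r3 + d.p4) + ε 2 * d.p2, -(ε 1 * d.r1 - ε 2 * d.r0), -(ε 2 * d.p0) - ε 0 * d.r1],
      ![ε 0 * d.r4 + ε 2 * d.p3, -(ε 1 * d.r2 + (ε 0 * (d.r3 + d.p4) + ε 2 * d.p2)),
        -(ε 2 * (d.r0 + d.p1)) - ε 0 * d.r2], ![ε 2, ε 1, ε 0]] (fun v => ?_) (fun v => ?_)
    (fun v => ?_)
  case refine_4 =>
    have k := congrFun key 2
    have k0 : ε 2 = 0 := congrFun k 0
    have k1 : ε 1 = 0 := congrFun k 1
    have k2 : ε 0 = 0 := congrFun k 2
    ext i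
    fin_cases i <;> assumption
  all_goals
    simp only [net, bnet, SM0Vx.fm_bf, Fin.sum_univ_three, cons_val, pA, pB, Dat.E, of_apply]
  · linear_combination -(v 3) * h0 - v 4 * h1 - v 5 * h2 - v 6 * h3
  · ring
  · linear_combination v 5 * h4 + v 6 * h5

end Pool.Agent.P.MP_6149fc_ag.V22

end

section

/-! Step SMLV. -/

set_option autoImplicit false
set_option linter.unusedSectionVars false

namespace Pool.Agent.P.MP_6149fc_ag.V22

open Pool.Agent.P.MP_6149fc_ag.V18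
open MvPowerSeries (coeff X constantCoeff monomial)
open Matrix

namespace SMLVx

variable {κ : Type} [Field κ]

theorem fm0 (d : Dat κ) (u v : Fin 7 → κ) : fm (net d 0) u v =
    (u 0 * v 3 - u 3 * v 0) + (u 1 * v 4 - u 4 * v 1) + (u 2 * v 5 - u 5 * v 2) := by
  simp [fm, net, bnet, bf, pA, Fin.sum_univ_succ]
  ring

theorem fm1 (d : Dat κ) (u v : Fin 7 → κ) : fm (net d 1) u v =
    (u 0 * v 4 - u 4 * v 0) + (u 1 * v 5 - u 5 * v 1) + (u 2 * v 6 - u 6 * v 2) := by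
  simp [fm, net, bnet, bf, pB, Fin.sum_univ_succ]
  ring

theorem fm2 (d : Dat κ) (hp : d.p0 = 0) (hr : d.r0 = 0) (u v : Fin 7 → κ) : fm (net d 2) u v =
    d.r1 * (u 0 * v 3 - u 3 * v 0) + d.r2 * (u 0 * v 4 - u 4 * v 0)
      + (d.r3 + d.p4) * (u 0 * v 5 - u 5 * v 0) + d.r4 * (u 0 * v 6 - u 6 * v 0)
      + d.p4 * (u 1 * v 6 - u 6 * v 1)
      - d.p1 * (u 2 * v 4 - u 4 * v 2) - d.p2 * (u 2 * v 5 - u 5 * v 2)
      - d.p3 * (u 2 * v 6 - u 6 * v 2)
      + d.c01 * (u 3 * v 4 - u 4 * v 3) + d.c02 * (u 3 * v 5 - u 5 * v 3)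
      + d.c03 * (u 3 * v 6 - u 6 * v 3) + d.c12 * (u 4 * v 5 - u 5 * v 4)
      + d.c13 * (u 4 * v 6 - u 6 * v 4) + d.c23 * (u 5 * v 6 - u 6 * v 5) := by
  simp [fm, net, bnet, bf, Dat.E, Dat.D, Fin.sum_univ_succ, hp, hr]
  ring

/-- The isotropic subspace. -/
def MM (l m : κ) : Fin 3 → Fin 7 → κ :=
  ![![l, 0, 0, m, 0, 0, 0], ![0, 1, 0, 0, 0, 0, 0], ![0, 0, 1, 0, 0, 0, 0]]

theorem MM_li (l m : κ) (h : l ≠ 0 ∨ m ≠ 0) : LinearIndependent κ (MM l m) := by
  rw [Fintype.linearIndependent_iff]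
  intro g hg
  have h0 := congrFun hg 0
  have h1 := congrFun hg 1
  have h2 := congrFun hg 2
  have h3 := congrFun hg 3
  simp [MM, Fin.sum_univ_succ] at h0 h1 h2 h3
  have hg0 : g 0 = 0 := by
    rcases h with h | h
    · exact h0.resolve_right h
    · exact h3.resolve_right h
  intro i
  fin_cases i
  · exact hg0
  · exact h1
  · exact h2

end SMLVx

theorem p_SMLV (hTV : S_TV) :
    S_SMLV := by
  intro κ _ d hs l m e0 e1 e2 hp hr hlm he H0 H1 H2 H3 H4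
  have key := hTV κ (net d) hs (SMLVx.MM l m) (SMLVx.MM_li l m hlm) ?_
    ![![-(l * ((e1 * d.p3 - e0 * d.p4) + e1 * d.r2) + m * e1 * d.c01), -(d.r1 * e1), -(d.r1 * e0)],
      ![-(l * e1 * (d.r3 + d.p4) + m * e1 * d.c02), e1 * d.p3 - e0 * d.p4, e1 * (d.r1 + d.p2)],
      ![e2, e1, e0]] ?_ ?_ ?_
  · have h0 := congrFun (congrFun key 2) 0
    have h1 := congrFun (congrFun key 2) 1
    have h2 := congrFun (congrFun key 2) 2
    simp at h0 h1 h2
    rcases he with h | h | h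
    · exact h h2
    · exact h h1
    · exact h h0
  · intro s a b
    fin_cases s
    · simp only [Fin.zero_eta, SMLVx.fm0]
      fin_cases a <;> fin_cases b <;> simp [SMLVx.MM, mul_comm]
    · simp only [Fin.mk_one, SMLVx.fm1]
      fin_cases a <;> fin_cases b <;> simp [SMLVx.MM, mul_comm]
    · simp only [Fin.reduceFinMk, SMLVx.fm2 d hp hr]
      fin_cases a <;> fin_cases b <;> simp [SMLVx.MM, mul_comm]
  · intro v
    simp only [Fin.sum_univ_three, SMLVx.fm0, SMLVx.fm1, SMLVx.fm2 d hp hr]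
    simp [SMLVx.MM]
    linear_combination (-v 4) * H0
  · intro v
    simp only [Fin.sum_univ_three, SMLVx.fm0, SMLVx.fm1, SMLVx.fm2 d hp hr]
    simp [SMLVx.MM]
    linear_combination v 4 * H1 + v 5 * H2 + v 6 * H3
  · intro v
    simp only [Fin.sum_univ_three, SMLVx.fm0, SMLVx.fm1, SMLVx.fm2 d hp hr]
    simp [SMLVx.MM]
    linear_combination v 6 * H4

end Pool.Agent.P.MP_6149fc_ag.V22

end
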