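import Pool.Agent.P.MP_6149fc_ag.V22.IfaceK

section

/-! Step PK2JA. -/

set_option autoImplicit false
set_option linter.unusedSectionVars false

namespace Pool.Agent.P.MP_6149fc_ag.V22

open Pool.Agent.P.MP_6149fc_ag.V18
open MvPowerSeries (coeff X constantCoeff monomial)

namespace PK2JAx

variable {κ : Type} [Field κ] {p : Hk (PS κ)} {c : Cm κ} {h1 h2 k0 k1 : κ}

theorem id2 (E : p.Eqs c 0 0 h1 h2 0 0 k0 k1 0 0) :
    (h1 * k1 - h2 * k0) • p.a2 = h2 • p.K3 c - k1 • p.K1 c := by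
  obtain ⟨e1, -, e3⟩ := E
  rw [eq_neg_of_add_eq_zero_right e1, eq_neg_of_add_eq_zero_right e3]
  simp only [Algebra.smul_def, map_sub, map_mul, map_zero]
  ring

theorem id3 (E : p.Eqs c 0 0 h1 h2 0 0 k0 k1 0 0) :
    (h1 * k1 - h2 * k0) • p.a3 = k0 • p.K1 c - h1 • p.K3 c := by
  obtain ⟨e1, -, e3⟩ := E
  rw [eq_neg_of_add_eq_zero_right e1, eq_neg_of_add_eq_zero_right e3]
  simp only [Algebra.smul_def, map_sub, map_mul, map_zero]
  ring

theorem id4 (E : p.Eqs c 0 0 h1 h2 0 0 k0 k1 0 0) :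
    h2 • p.a4 = -(k0 • p.a1 + p.K2 c) - (k1 • p.a2 + h1 • p.a3) := by
  obtain ⟨-, e2, -⟩ := E
  rw [eq_neg_of_add_eq_zero_right e2]
  simp only [Algebra.smul_def, map_add, map_zero]
  ring

theorem id1 (E : p.Eqs c 0 0 h1 h2 0 0 k0 k1 0 0) :
    (-h1) • p.q02 + (-h2) • p.q03 = h1 • (p.a1 * p.a1) + (p.a0 * p.K1 c + h2 • (p.a1 * p.a2)) := by
  obtain ⟨e1, -, -⟩ := E
  rw [eq_neg_of_add_eq_zero_right e1]
  simp only [Hk.q02, Hk.q03, Algebra.smul_def, map_neg, map_zero]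
  ring

variable {w : Fin 3 → ℕ} {n : ℕ}

theorem st23 (E : p.Eqs c 0 0 h1 h2 0 0 k0 k1 0 0) (hD : h1 * k1 - h2 * k0 ≠ 0)
    (a : Ge w n (p.K1 c)) (b : Ge w n (p.K3 c)) : Ge w n p.a2 ∧ Ge w n p.a3 :=
  ⟨ge_of_smul hD (((b.smul h2).sub (a.smul k1)).congr (id2 E)),
    ge_of_smul hD (((a.smul k0).sub (b.smul h1)).congr (id3 E))⟩

theorem st4 (E : p.Eqs c 0 0 h1 h2 0 0 k0 k1 0 0) (hh : h2 ≠ 0) (a : Ge w n p.a1)
    (b : Ge w n (p.K2 c)) (d : Ge w n p.a2) (e : Ge w n p.a3) : Ge w n p.a4 :=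
  ge_of_smul hh ((((a.smul k0).add b).neg.sub ((d.smul k1).add (e.smul h1))).congr (id4 E))

end PK2JAx

open PK2JAx in
theorem p_PK2JA :
    S_PK2JA := by
  intro κ _ U p c h1 h2 k0 k1 h E ex ey ez hc hh hD hh1
  let w : Fin 3 → ℕ := ![1, 3, 2]
  have hw : First A_2j w := by decide
  have lx : Ld w 1 p.a5 (X 0) := (Ld.X 0).congr ex rfl
  have ly : Ld w 3 p.a1 (X 1) := (Ld.X 1).congr ey rfl
  have lz : Ld w 2 p.a0 (X 2) := (Ld.X 2).congr ez rfl
  have G0 := h.geA (w := w) (n := 1) (by decide)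
  have G1 : p.GeA w 2 3 1 1 1 1 := ⟨lz.ge, ly.ge, G0.g2, G0.g3, G0.g4, lx.ge⟩
  obtain ⟨a2, a3⟩ := st23 (n := 2) E hD (G1.K1 c (by decide)) (G1.K3 c (by decide))
  have G2 : p.GeA w 2 3 2 2 1 1 := ⟨lz.ge, ly.ge, a2, a3, G0.g4, lx.ge⟩
  have a4 := st4 (n := 2) E hh (ly.ge.mono (by decide)) (G2.K2 c (by decide)) a2 a3
  have G3 : p.GeA w 2 3 2 2 2 1 := ⟨lz.ge, ly.ge, a2, a3, a4, lx.ge⟩
  obtain ⟨b2, b3⟩ := st23 (n := 3) E hD (G3.K1 c (by decide)) (G3.K3 c (by decide))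
  have G4 : p.GeA w 2 3 3 3 2 1 := ⟨lz.ge, ly.ge, b2, b3, a4, lx.ge⟩
  have b4 := st4 (n := 3) E hh ly.ge (G4.K2 c (by decide)) b2 b3
  have G5 : p.GeA w 2 3 3 3 3 1 := ⟨lz.ge, ly.ge, b2, b3, b4, lx.ge⟩
  obtain ⟨g2, g3⟩ := st23 (n := 4) E hD (G5.K1 c (by decide)) (G5.K3 c (by decide))
  have G : p.GeA w 2 3 4 4 3 1 := ⟨lz.ge, ly.ge, g2, g3, b4, lx.ge⟩
  have gK1 : Ge w 5 (p.K1 c) := G.K1 c (by decide)
  have lK3 : Ld w 4 (p.K3 c) (c.c03 • (X 1 * X 0)) :=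
    (((ly.mul lx).smul c.c03).add_ge
      (((((((G.q13 (n := 5) (by decide)).smul c.c01).add
        ((G.q14 (n := 5) (by decide)).smul c.c02)).sub
        (((g3.mul' g3 (n := 5) (by decide)).add (G.q24 (n := 5) (by decide))).smul c.c03)).add
        ((G.q24 (n := 5) (by decide)).smul c.c12)).add
        ((G.q25 (n := 5) (by decide)).smul c.c13)).add
        ((G.q35 (n := 5) (by decide)).smul c.c23))).congr (by
      simp only [Hk.K3, Hk.q15, Algebra.smul_def]; ring) rfl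
  have lK2 : Ld w 3 (p.K2 c) (c.c03 • (X 2 * X 0)) :=
    (((lz.mul lx).smul c.c03).add_ge
      (((((((G.q03 (n := 4) (by decide)).smul c.c01).add
        ((G.q04 (n := 4) (by decide)).smul c.c02)).sub
        ((g2.mul' g3 (n := 4) (by decide)).smul c.c03)).add
        ((G.q14 (n := 4) (by decide)).smul c.c12)).add
        ((G.q15 (n := 4) (by decide)).smul c.c13)).add
        ((G.q25 (n := 4) (by decide)).smul c.c23))).congr (by
      simp only [Hk.K2, Hk.q05, Algebra.smul_def]; ring) rfl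
  have l2 : Ld w 4 ((h1 * k1 - h2 * k0) • p.a2) (h2 • c.c03 • (X 1 * X 0)) :=
    ((lK3.smul h2).sub_ge (gK1.smul k1)).congr (id2 E) rfl
  have l3 : Ld w 4 ((h1 * k1 - h2 * k0) • p.a3) (-(h1 • c.c03 • (X 1 * X 0))) :=
    ((lK3.smul h1).neg.add_ge (gK1.smul k0)).congr (by rw [id3 E]; ring) rfl
  have l4 : Ld w 3 (h2 • p.a4) (-(k0 • X 1 + c.c03 • (X 2 * X 0))) :=
    (((ly.smul k0).add lK2).neg.sub_ge ((g2.smul k1).add (g3.smul h1))).congr (id4 E) rfl
  have m1 : Ld w 5 (h2 • (p.q04 - p.q13)) (X 2 * -(k0 • X 1 + c.c03 • (X 2 * X 0))) :=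
    ((lz.mul l4).sub_ge ((ly.ge.mul' g3 (by decide)).smul h2)).congr (by
      simp only [Hk.q04, Hk.q13, Algebra.smul_def]; ring) rfl
  have m2 : Ld w 5 ((h1 * k1 - h2 * k0) • p.q25) (h2 • c.c03 • (X 1 * X 0) * X 0) :=
    ((l2.mul lx).sub_ge ((g3.mul' b4 (by decide)).smul (h1 * k1 - h2 * k0))).congr (by
      simp only [Hk.q25, Algebra.smul_def]; ring) rfl
  have m3 : Ld w 6 ((-h1) • p.q02 + (-h2) • p.q03) (h1 • (X 1 * X 1)) :=
    (((ly.mul ly).smul h1).add_ge ((lz.ge.mul gK1).add ((ly.ge.mul g2).smul h2))).congr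
      (id1 E) rfl
  have m4 : Ld w 8 ((h1 * k1 - h2 * k0) • p.d123)
      (X 1 * (-(h1 • c.c03 • (X 1 * X 0)) * X 0)) :=
    ((ly.mul (l3.mul lx)).add_ge
      ((((g3.mul' (G.q24 (n := 7) (by decide)) (n := 9) (by decide)).sub
        (g2.mul (G.q25 (n := 5) (by decide)))).sub
        (ly.ge.mul (b4.mul b4))).smul (h1 * k1 - h2 * k0))).congr (by
      simp only [Hk.d123, Hk.q24, Hk.q25, Algebra.smul_def]; ring) rfl
  have m5 : Ld w 9 (((h1 * k1 - h2 * k0) * h2) • p.d012)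
      (-(k0 • X 1 + c.c03 • (X 2 * X 0)) *
        (X 2 * (h2 • c.c03 • (X 1 * X 0)) - (h1 * k1 - h2 * k0) • (X 1 * X 1))) :=
    ((l4.mul ((lz.mul l2).sub ((ly.mul ly).smul (h1 * k1 - h2 * k0)))).add_ge
      ((((g2.mul' (G.q13 (n := 7) (by decide)) (n := 10) (by decide)).add
        (ly.ge.mul' (g2.mul g3) (n := 10) (by decide))).sub
        (lz.ge.mul (g3.mul g3))).smul ((h1 * k1 - h2 * k0) * h2))).congr (by
      simp only [Hk.d012, Hk.q13, Algebra.smul_def, map_mul]; ring) rfl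
  intro q hq
  simp only [P_2ja, List.mem_cons, List.not_mem_nil, or_false] at hq
  rcases hq with rfl | rfl | rfl | rfl | rfl
  · refine ⟨_, Submodule.smul_mem _ h2 (sub_mem h.m04 h.m13), m1.init hw
      (init_of (t := -c.c03) (e := (-k0) • mon κ 0 1 1) (neg_ne_zero.2 hc)
        (Submodule.smul_mem _ _ (mon_gt (by decide))) ?_)⟩
    simp only [mon, Algebra.smul_def, map_neg]; ring
  · refine ⟨_, Submodule.smul_mem _ _ h.m25, m2.init hw
      (init_of (t := h2 * c.c03) (e := 0) (mul_ne_zero hh hc) (zero_mem _) ?_)⟩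
    simp only [mon, Algebra.smul_def, map_mul]; ring
  · refine ⟨_, add_mem (Submodule.smul_mem _ _ h.m02) (Submodule.smul_mem _ _ h.m03), m3.init hw
      (init_of (t := h1) (e := 0) hh1 (zero_mem _) ?_)⟩
    simp only [mon, Algebra.smul_def]; ring
  · refine ⟨_, Submodule.smul_mem _ _ h.m123, m4.init hw
      (init_of (t := -(h1 * c.c03)) (e := 0) (neg_ne_zero.2 (mul_ne_zero hh1 hc))
        (zero_mem _) ?_)⟩
    simp only [mon, Algebra.smul_def, map_mul, map_neg]; ring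
  · refine ⟨_, Submodule.smul_mem _ _ h.m012, m5.init hw
      (init_of (t := -(c.c03 * c.c03 * h2))
        (e := (c.c03 * (h1 * k1 - h2 * k0) - k0 * h2 * c.c03) • mon κ 1 2 1 +
          (k0 * (h1 * k1 - h2 * k0)) • mon κ 0 3 0)
        (neg_ne_zero.2 (mul_ne_zero (mul_ne_zero hc hc) hh))
        (add_mem (Submodule.smul_mem _ _ (mon_gt (by decide)))
          (Submodule.smul_mem _ _ (mon_gt (by decide)))) ?_)⟩
    simp only [mon, Algebra.smul_def, map_mul, map_neg, map_sub]; ring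

end Pool.Agent.P.MP_6149fc_ag.V22

end

section

/-! Step PK2JB. -/

set_option autoImplicit false
set_option linter.unusedSectionVars false

namespace Pool.Agent.P.MP_6149fc_ag.V22

open Pool.Agent.P.MP_6149fc_ag.V18
open MvPowerSeries (coeff X constantCoeff monomial)

theorem p_PK2JB :
    S_PK2JB := by
  intro κ _ U p c h2 k0 k1 h E e5 e1 e0 hc hh hk
  let w : Fin 3 → ℕ := ![1, 3, 2]
  have hw : First A_2j w := by decide
  have l5 : Ld w 1 p.a5 (X 0) := (Ld.X 0).congr e5 rfl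
  have l1 : Ld w 3 p.a1 (X 1) := (Ld.X 1).congr e1 rfl
  have l0 : Ld w 2 p.a0 (X 2) := (Ld.X 2).congr e0 rfl
  have E3 : h2 • p.a3 = -p.K1 c := by
    have := E.e1
    simp only [zero_smul, zero_add, add_zero] at this
    linear_combination this
  have E2 : k0 • p.a2 = -p.K3 c - k1 • p.a3 := by
    have := E.e3
    simp only [zero_smul, zero_add, add_zero] at this
    linear_combination this
  have E4 : h2 • p.a4 = -(k0 • p.a1 + p.K2 c) - k1 • p.a2 := by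
    have := E.e2
    simp only [zero_smul, zero_add, add_zero] at this
    linear_combination this
  have s3 : ∀ n, Ge w n (p.K1 c) → Ge w n p.a3 := fun n g => ge_of_smul hh (g.neg.congr E3)
  have s2 : ∀ n, Ge w n (p.K3 c) → Ge w n p.a3 → Ge w n p.a2 := fun n g g' =>
    ge_of_smul hk ((g.neg.sub (g'.smul k1)).congr E2)
  have s4 : ∀ n, n ≤ 3 → Ge w n (p.K2 c) → Ge w n p.a2 → Ge w n p.a4 := fun n hn g g' =>
    ge_of_smul hh (((((l1.ge.mono hn).smul k0).add g).neg.sub (g'.smul k1)).congr E4)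
  have G0 := h.geA (w := w) (n := 1) (by decide)
  have a3 := s3 2 (G0.K1 c (by decide))
  have a2 := s2 2 (G0.K3 c (by decide)) a3
  have a4 := s4 2 (by decide) (G0.K2 c (by decide)) a2
  have G1 : p.GeA w 2 3 2 2 2 1 := ⟨l0.ge, l1.ge, a2, a3, a4, l5.ge⟩
  have b3 := s3 4 (G1.K1 c (by decide))
  have b2 := s2 3 (G1.K3 c (by decide)) (b3.mono (by decide))
  have b4 := s4 3 (by decide) (G1.K2 c (by decide)) b2
  have G2 : p.GeA w 2 3 3 4 3 1 := ⟨l0.ge, l1.ge, b2, b3, b4, l5.ge⟩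
  have g3 := s3 5 (G2.K1 c (by decide))
  have g2 := s2 4 (G2.K3 c (by decide)) (g3.mono (by decide))
  have G : p.GeA w 2 3 4 5 3 1 := ⟨l0.ge, l1.ge, g2, g3, b4, l5.ge⟩
  -- leading forms
  have q15 : Ld w 4 p.q15 (X 1 * X 0) :=
    ((l1.mul l5).sub_ge (g3.mul' g3 (by decide))).congr (by rw [Hk.q15]; ring) rfl
  have q05 : Ld w 3 p.q05 (X 2 * X 0) := (l0.mul l5).sub_ge (g2.mul' g3 (by decide))
  have K3 : Ld w 4 (p.K3 c) (c.c03 • (X 1 * X 0)) :=
    (((q15.sub_ge (G.q24 (by decide))).smul c.c03).add_ge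
      (((((G.q13 (by decide)).smul c.c01).add ((G.q14 (by decide)).smul c.c02)).add
        ((G.q24 (by decide)).smul c.c12)).add (((G.q25 (by decide)).smul c.c13).add
        ((G.q35 (by decide)).smul c.c23)))).congr (by rw [Hk.K3]; ring) rfl
  have K2 : Ld w 3 (p.K2 c) (c.c03 • (X 2 * X 0)) :=
    ((q05.smul c.c03).add_ge
      (((((G.q03 (by decide)).smul c.c01).add ((G.q04 (by decide)).smul c.c02)).add
        ((G.q14 (by decide)).smul c.c12)).add (((G.q15 (by decide)).smul c.c13).add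
        ((G.q25 (by decide)).smul c.c23)))).congr (by rw [Hk.K2]; ring) rfl
  have l2 := ld_of_smul hk ((K3.neg.sub_ge (g3.smul k1)).congr E2 rfl)
  have l4 := ld_of_smul hh ((((l1.smul k0).add K2).neg.sub_ge (g2.smul k1)).congr E4 rfl)
  have q04 := ((l0.mul l4).sub_ge (g2.mul' g2 (by decide))).congr
    (f' := p.q04) (by rw [Hk.q04]; ring) rfl
  have K1 := (((q04.sub_ge (G.q13 (by decide))).smul c.c03).add_ge
      (((((G.q02 (by decide)).smul c.c01).add ((G.q03 (by decide)).smul c.c02)).add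
        ((G.q13 (by decide)).smul c.c12)).add (((G.q14 (by decide)).smul c.c13).add
        ((G.q24 (by decide)).smul c.c23)))).congr (f' := p.K1 c) (by rw [Hk.K1]; ring) rfl
  have l3 := ld_of_smul hh (K1.neg.congr E3 rfl)
  have q25 := ((l2.mul l5).sub_ge (g3.mul' b4 (by decide))).congr (f' := p.q25) rfl rfl
  have q03 := ((l0.mul l3).sub (l1.mul l2)).congr (f' := p.q03) rfl rfl
  have d012 := ((((l0.mul l2).mul l4).sub ((l1.mul l1).mul l4)).add_ge
    ((((l1.ge.mul g2).mul' g3 (by decide)).add ((l1.ge.mul g2).mul' g3 (by decide))).sub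
      (((l0.ge.mul g3).mul' g3 (by decide)).add ((g2.mul g2).mul' g2 (by decide))))).congr
    (f' := p.d012) (by rw [Hk.d012]; ring) rfl
  have d123 := (((((l1.mul l3).mul l5).sub ((l1.mul l4).mul l4)).sub ((l2.mul l2).mul l5)).add_ge
    ((((g2.mul g3).mul' b4 (by decide)).add ((g2.mul g3).mul' b4 (by decide))).sub
      ((g3.mul g3).mul' g3 (by decide)))).congr
    (f' := p.d123) (by rw [Hk.d123]; ring) rfl
  have hu := inv_ne_zero hh
  have hv := inv_ne_zero hk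
  generalize h2⁻¹ = u at *
  generalize k0⁻¹ = v at *
  intro q hq
  simp only [P_2jb, List.mem_cons, List.not_mem_nil, or_false] at hq
  rcases hq with rfl | rfl | rfl | rfl
  · refine ⟨_, h.m25, q25.init hw (init_of (t := -(v * c.c03)) (e := 0)
      (neg_ne_zero.2 (mul_ne_zero hv hc)) (zero_mem _) ?_)⟩
    simp only [mon, Algebra.smul_def, map_neg, map_mul]; ring
  · refine ⟨_, h.m03, q03.init hw (init_of (t := u * u * c.c03 * c.c03)
      (e := (u * u * c.c03 * k0) • mon κ 0 1 2 + (v * c.c03) • mon κ 1 2 0)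
      (mul_ne_zero (mul_ne_zero (mul_ne_zero hu hu) hc) hc) ?_ ?_)⟩
    · exact add_mem (Submodule.smul_mem _ _ (mon_gt (by decide)))
        (Submodule.smul_mem _ _ (mon_gt (by decide)))
    · simp only [mon, Algebra.smul_def, map_mul]; ring
  · refine ⟨_, h.m012, d012.init hw (init_of (t := u * v * c.c03 * c.c03)
      (e := (u * v * c.c03 * k0 + u * c.c03) • mon κ 1 2 1 + (u * k0) • mon κ 0 3 0)
      (mul_ne_zero (mul_ne_zero (mul_ne_zero hu hv) hc) hc) ?_ ?_)⟩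
    · exact add_mem (Submodule.smul_mem _ _ (mon_gt (by decide)))
        (Submodule.smul_mem _ _ (mon_gt (by decide)))
    · simp only [mon, Algebra.smul_def, map_mul, map_add]; ring
  · refine ⟨_, h.m123, d123.init hw (init_of (t := -(u * u * k0 * c.c03))
      (e := -((u * u * k0 * k0) • mon κ 0 3 0 + (v * v * c.c03 * c.c03) • mon κ 3 2 0))
      (neg_ne_zero.2 (mul_ne_zero (mul_ne_zero (mul_ne_zero hu hu) hk) hc)) ?_ ?_)⟩
    · exact neg_mem (add_mem (Submodule.smul_mem _ _ (mon_gt (by decide)))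
        (Submodule.smul_mem _ _ (mon_gt (by decide))))
    · simp only [mon, Algebra.smul_def, map_mul, map_neg]; ring

end Pool.Agent.P.MP_6149fc_ag.V22

end

section

/-! Step PDA1. -/

set_option autoImplicit false
set_option linter.unusedSectionVars false

namespace Pool.Agent.P.MP_6149fc_ag.V22

open Pool.Agent.P.MP_6149fc_ag.V18
open MvPowerSeries (coeff X constantCoeff monomial)

namespace PDA1x

variable {κ : Type} [Field κ] {w : Fin 3 → ℕ} {n : ℕ}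

/-- The entries are multiples of one series up to terms of weight `n`. -/
theorem near {a2 a3 a4 a5 z : PS κ} {u2 u3 u4 u5 m3 m4 m5 : κ}
    (hz : m3 • a3 + m4 • a4 + m5 • a5 = z) (hm : m3 * u3 + m4 * u4 + m5 * u5 = 1)
    (d1 : Ge w n (u3 • a2 - u2 • a3)) (d2 : Ge w n (u4 • a2 - u2 • a4))
    (d3 : Ge w n (u5 • a2 - u2 • a5)) (d4 : Ge w n (u4 • a3 - u3 • a4))
    (d5 : Ge w n (u5 • a3 - u3 • a5)) (d6 : Ge w n (u5 • a4 - u4 • a5)) :
    Ge w n (a2 - u2 • z) ∧ Ge w n (a3 - u3 • z) ∧ Ge w n (a4 - u4 • z) ∧ Ge w n (a5 - u5 • z) := by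
  subst hz
  refine ⟨(((d1.smul m3).add (d2.smul m4)).add (d3.smul m5)).congr ?_,
    ((d4.smul m4).add (d5.smul m5)).congr ?_, ((d6.smul m5).sub (d4.smul m3)).congr ?_,
    ((d5.smul m3).add (d6.smul m4)).neg.congr ?_⟩
  · linear_combination (norm := module) (-1 : κ) • hm • a2
  · linear_combination (norm := module) (-1 : κ) • hm • a3
  · linear_combination (norm := module) (-1 : κ) • hm • a4
  · linear_combination (norm := module) (-1 : κ) • hm • a5

theorem up {a z : PS κ} {u : κ} {k : ℕ} (h : Ge w n (a - u • z)) (hz : Ge w k z) (hk : n ≤ k) :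
    Ge w n a := (h.add ((hz.mono hk).smul u)).congr (by ring)

end PDA1x

theorem p_PDA1 :
    S_PDA1 := by
  intro κ _ U p c h1 h2 k1 k2 u2 u3 u4 u5 m3 m4 m5 h E ex' ey ez e2 e3 e4 e5 hm hk hρ hA hc
  let w : Fin 3 → ℕ := ![1, 2, 3]
  have hW : First (WC 1 1) w := by decide
  have hY : First (WC 1 (-1)) w := by decide
  have lx : Ld w 1 p.a0 (X 0) := (Ld.X 0).congr ex' rfl
  have ly : Ld w 2 p.a1 (X 1) := (Ld.X 1).congr ey rfl
  have hz : Hm w 3 (X 2 : PS κ) := Hm.X 2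
  obtain ⟨c1, c2, c3, c4, c5, c6⟩ := cof (h0 := 0) (h1 := h1) (h2 := h2) (k0 := 1) (k1 := k1)
    (k2 := k2) (b1 := p.a2) (b2 := p.a3) (b3 := p.a4) (b4 := p.a5) (A := p.K1 c) (B := p.K2 c)
    (D := p.K3 c) (by linear_combination (norm := module) E.e1)
    (by linear_combination (norm := module) E.e2) (by linear_combination (norm := module) E.e3)
  rw [← e2, ← e3] at c1
  rw [← e2, ← e4] at c2
  rw [← e2, ← e5] at c3
  rw [← e3, ← e4] at c4
  rw [← e3, ← e5] at c5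
  rw [← e4, ← e5] at c6
  have dif : ∀ n, Ge w n (p.K1 c) → Ge w n (p.K2 c) → Ge w n (p.K3 c) →
      Ge w n (u3 • p.a2 - u2 • p.a3) ∧ Ge w n (u4 • p.a2 - u2 • p.a4) ∧
      Ge w n (u5 • p.a2 - u2 • p.a5) ∧ Ge w n (u4 • p.a3 - u3 • p.a4) ∧
      Ge w n (u5 • p.a3 - u3 • p.a5) ∧ Ge w n (u5 • p.a4 - u4 • p.a5) := fun n a b d =>
    ⟨(((a.smul _).sub (b.smul _)).add (d.smul _)).congr c1,
      (((a.smul _).add (b.smul _)).sub (d.smul _)).congr c2,
      (((a.smul _).add (b.smul _)).add (d.smul _)).congr c3,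
      (((a.smul _).sub (b.smul _)).add (d.smul _)).congr c4,
      (((b.smul _).sub (a.smul _)).add (d.smul _)).congr c5,
      (((a.smul _).sub (b.smul _)).add (d.smul _)).congr c6⟩
  have nr : ∀ n, Ge w n (p.K1 c) → Ge w n (p.K2 c) → Ge w n (p.K3 c) →
      Ge w n (p.a2 - u2 • X 2) ∧ Ge w n (p.a3 - u3 • X 2) ∧ Ge w n (p.a4 - u4 • X 2) ∧
        Ge w n (p.a5 - u5 • X 2) := fun n a b d => by
    obtain ⟨d1, d2, d3, d4, d5, d6⟩ := dif n a b d
    exact PDA1x.near ez hm d1 d2 d3 d4 d5 d6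
  have st : ∀ n, n ≤ 3 → Ge w n (p.K1 c) → Ge w n (p.K2 c) → Ge w n (p.K3 c) →
      p.GeA w 1 2 n n n n := fun n hn a b d => by
    obtain ⟨d2, d3, d4, d5⟩ := nr n a b d
    exact ⟨lx.ge, ly.ge, PDA1x.up d2 hz.ge hn, PDA1x.up d3 hz.ge hn, PDA1x.up d4 hz.ge hn,
      PDA1x.up d5 hz.ge hn⟩
  have G1 : p.GeA w 1 1 1 1 1 1 := h.geA (by decide)
  have G2 := st 2 (by decide) (G1.K1 c (by decide)) (G1.K2 c (by decide)) (G1.K3 c (by decide))
  have G := st 3 (by decide) (G2.K1 c (by decide)) (G2.K2 c (by decide)) (G2.K3 c (by decide))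
  have gK1 : Ge w 4 (p.K1 c) := G.K1 c (by decide)
  have gK2 : Ge w 4 (p.K2 c) := G.K2 c (by decide)
  have gK3 : Ge w 5 (p.K3 c) := G.K3 c (by decide)
  obtain ⟨d1, d2, d3, -, -, -⟩ := dif 4 gK1 gK2 (gK3.mono (by decide))
  obtain ⟨n2, n3, n4, n5⟩ := nr 4 gK1 gK2 (gK3.mono (by decide))
  have l2 : Ld w 3 p.a2 (u2 • X 2) := ld_of_ge (hz.smul _) n2
  have l3 : Ld w 3 p.a3 (u3 • X 2) := ld_of_ge (hz.smul _) n3
  have l4 : Ld w 3 p.a4 (u4 • X 2) := ld_of_ge (hz.smul _) n4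
  have l5 : Ld w 3 p.a5 (u5 • X 2) := ld_of_ge (hz.smul _) n5
  have l02 : Ld w 4 p.q02 (X 0 * (u2 • X 2) - X 1 ^ 2) := (lx.mul l2).sub (ly.pow 2)
  have l03 : Ld w 4 p.q03 (X 0 * (u3 • X 2)) := (lx.mul l3).sub_ge (ly.ge.mul G.g2)
  have l04 : Ld w 4 (p.a0 * p.a4 - p.a1 * p.a3) (X 0 * (u4 • X 2)) :=
    (lx.mul l4).sub_ge (ly.ge.mul G.g3)
  have g13 : Ge w 5 p.q13 := G.q13 (by decide)
  have g14 : Ge w 5 p.q14 := G.q14 (by decide)
  have g24 : Ge w 5 p.q24 := G.q24 (by decide)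
  obtain ⟨F, hF⟩ : ∃ F : PS κ, F = c.c01 • (X 0 * (u2 • X 2) - X 1 ^ 2) +
    c.c02 • (X 0 * (u3 • X 2)) + c.c03 • (X 0 * (u4 • X 2)) := ⟨_, rfl⟩
  have lK : Ld w 4 (p.K1 c) F :=
    ((((l02.smul c.c01).add (l03.smul c.c02)).add (l04.smul c.c03)).add_ge
      (((g13.smul c.c12).add (g14.smul c.c13)).add (g24.smul c.c23))).congr
      (by simp only [Hk.K1, Hk.q04, Hk.q13, Algebra.smul_def]; ring) hF
  have l35 : Ld w 6 p.q35 (u3 • X 2 * (u5 • X 2) - (u4 • X 2) ^ 2) := (l3.mul l5).sub (l4.pow 2)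
  have l023 : Ld w 7 p.d023 (X 0 * (u3 • X 2 * (u5 • X 2) - (u4 • X 2) ^ 2)) :=
    ((lx.mul l35).add_ge ((G.g3.mul g14).sub (G.g2.mul
      (ge_q G.g1 G.g5 G.g2 G.g4 (n := 5) (by decide))))).congr
      (by simp only [Hk.d023, Hk.q35, Hk.q14]; ring) rfl
  have lR : Ld w 5 (p.RB c 0 h1 h2 1 k1 k2 p.a0 p.a1) (F * X 0) :=
    ((lK.mul lx).add_ge ((((gK1.mul ly.ge).smul k1).add ((gK2.mul ly.ge).smul k2)).sub
      (((gK3.mul lx.ge).smul (h1 + k2)).add ((gK3.mul' ly.ge (by decide)).smul h2)))).congr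
      (by simp only [Hk.RB, Algebra.smul_def, map_add, map_zero, map_one]; ring) rfl
  have m4' : Ld w 4 (u4 • p.a3 - u3 • p.a4) (k2 • F) :=
    (lK.smul k2).congr (by rw [c4]; module) rfl
  have m5' : Ld w 4 (u5 • p.a3 - u3 • p.a5) ((-k1) • F) :=
    ((lK.smul (-k1)).add_ge (gK3.smul h2)).congr (by rw [c5]; module) rfl
  have m6' : Ld w 4 (u5 • p.a4 - u4 • p.a5) F :=
    (lK.add_ge (gK3.smul (-h1))).congr (by rw [c6]; module) rfl
  have lD : Ld w 8 (p.dx u2 u3 u4 u5) (X 0 * (u3 • X 2) * ((-k1) • F) -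
      (X 0 * (u2 • X 2) - X 1 ^ 2) * F - X 0 * (u4 • X 2) * (k2 • F)) :=
    ((((l03.mul m5').sub (l02.mul m6')).sub (l04.mul m4')).add_ge
      (((g14.mul d2).sub (g13.mul d3)).sub (g24.mul d1))).congr
      (by simp only [Hk.dx, Hk.d123, Hk.d023, Hk.d013, Hk.d012, Hk.q02, Hk.q03, Hk.q13, Hk.q14,
        Hk.q24, Algebra.smul_def]; ring) rfl
  have hP : u3 * u5 - u4 ^ 2 ≠ 0 := by
    have : u3 * u5 - u4 ^ 2 = -(k2 * (h2 ^ 2 - k1 * h1 * h2 + k2 * h1 ^ 2)) := by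
      rw [e3, e4, e5, kp2, kp3, kp4]; ring
    rw [this]
    exact neg_ne_zero.2 (mul_ne_zero hk hρ)
  have hr : u2 + k1 * u3 + k2 * u4 ≠ 0 := by
    have : u2 + k1 * u3 + k2 * u4 = h2 ^ 2 - k1 * h1 * h2 + k2 * h1 ^ 2 := by
      rw [e2, e3, e4, kp1, kp2, kp3]; ring
    rwa [this]
  subst hF
  refine ⟨fun q hq => ?_, fun q hq => ?_⟩
  · simp only [P_d1, List.mem_cons, List.not_mem_nil, or_false] at hq
    rcases hq with rfl | rfl | rfl | rfl
    · refine ⟨_, h.m35, l35.init hW (init_of (e := 0) hP (zero_mem _) ?_)⟩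
      simp only [mon, Algebra.smul_def, map_sub, map_mul, map_pow]; ring
    · refine ⟨_, h.mdx u2 u3 u4 u5, lD.init hW (init_of (t := -c.c01)
        (e := (c.c01 * u2 + c.c02 * u3 + c.c03 * u4 + c.c01 * (u2 + k1 * u3 + k2 * u4)) •
            mon κ 1 2 1 -
          ((c.c01 * u2 + c.c02 * u3 + c.c03 * u4) * (u2 + k1 * u3 + k2 * u4)) • mon κ 2 0 2)
        (neg_ne_zero.2 hc) (sub_mem (Submodule.smul_mem _ _ (mon_gt (by decide)))
          (Submodule.smul_mem _ _ (mon_gt (by decide)))) ?_)⟩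
      simp only [mon, Algebra.smul_def, map_add, map_neg, map_mul]; ring
    · refine ⟨_, h.m023, l023.init hW (init_of (e := 0) hP (zero_mem _) ?_)⟩
      simp only [mon, Algebra.smul_def, map_sub, map_mul, map_pow]; ring
    · refine ⟨_, (h.mRC E).1, lR.init hW (init_of (t := -c.c01)
        (e := (c.c01 * u2 + c.c02 * u3 + c.c03 * u4) • mon κ 2 0 1)
        (neg_ne_zero.2 hc) (Submodule.smul_mem _ _ (mon_gt (by decide))) ?_)⟩
      simp only [mon, Algebra.smul_def, map_add, map_neg, map_mul]; ring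
  · simp only [P_dY, List.mem_cons, List.not_mem_nil, or_false] at hq
    rcases hq with rfl | rfl
    · refine ⟨_, h.m35, l35.init hY (init_of (e := 0) hP (zero_mem _) ?_)⟩
      simp only [mon, Algebra.smul_def, map_sub, map_mul, map_pow]; ring
    · refine ⟨_, h.mdx u2 u3 u4 u5, lD.init hY (init_of
        (t := -((c.c01 * u2 + c.c02 * u3 + c.c03 * u4) * (u2 + k1 * u3 + k2 * u4)))
        (e := (c.c01 * u2 + c.c02 * u3 + c.c03 * u4 + c.c01 * (u2 + k1 * u3 + k2 * u4)) •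
            mon κ 1 2 1 - c.c01 • mon κ 0 4 0)
        (neg_ne_zero.2 (mul_ne_zero hA hr)) (sub_mem (Submodule.smul_mem _ _ (mon_gt (by decide)))
          (Submodule.smul_mem _ _ (mon_gt (by decide)))) ?_)⟩
      simp only [mon, Algebra.smul_def, map_add, map_neg, map_mul]; ring

end Pool.Agent.P.MP_6149fc_ag.V22

end

section

/-! Step PDA2. -/

set_option autoImplicit false
set_option linter.unusedSectionVars false

namespace Pool.Agent.P.MP_6149fc_ag.V22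

open Pool.Agent.P.MP_6149fc_ag.V18
open MvPowerSeries (coeff X constantCoeff monomial)

namespace PDA2x

variable {κ : Type} [Field κ] {w : Fin 3 → ℕ} {n : ℕ}

theorem ge3 {f g h e : PS κ} (a b d : κ) (hf : Ge w n f) (hg : Ge w n g) (hh : Ge w n h)
    (he : e = a • f + b • g + d • h) : Ge w n e :=
  (((hf.smul a).add (hg.smul b)).add (hh.smul d)).congr he

theorem lin {a a3 a4 a5 z : PS κ} {u u3 u4 u5 m3 m4 m5 : κ}
    (hz : m3 • a3 + m4 • a4 + m5 • a5 = z) (hm : m3 * u3 + m4 * u4 + m5 * u5 = 1)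
    (h3 : Ge w n (u3 • a - u • a3)) (h4 : Ge w n (u4 • a - u • a4))
    (h5 : Ge w n (u5 • a - u • a5)) : Ge w n (a - u • z) := by
  refine ge3 m3 m4 m5 h3 h4 h5 ?_
  have h1 : a = (m3 * u3 + m4 * u4 + m5 * u5) • a := by rw [hm, one_smul]
  rw [← hz]
  nth_rewrite 1 [h1]
  module

end PDA2x

open PDA2x in
theorem p_PDA2 :
    S_PDA2 := by
  intro κ _ U p c h1 h2 k1 k2 u2 u3 u4 u5 m3 m4 m5 h E ex ey ez e2 e3 e4 e5 hm hk hρ hA hc
  let w : Fin 3 → ℕ := ![1, 2, 3]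
  have hw : First (WC 1 1) w := by decide
  obtain ⟨c23, c24, c25, c34, c35, c45⟩ := cof (h0 := 0) (h1 := h1) (h2 := h2) (k0 := 1) (k1 := k1)
    (k2 := k2) (b1 := p.a2) (b2 := p.a3) (b3 := p.a4) (b4 := p.a5) (A := p.K1 c) (B := p.K2 c)
    (D := p.K3 c) (by rw [← E.e1]; module) (by rw [← E.e2]; module) (by rw [← E.e3]; module)
  rw [← e2, ← e3] at c23
  rw [← e2, ← e4] at c24
  rw [← e2, ← e5] at c25
  rw [← e3, ← e4] at c34
  rw [← e3, ← e5] at c35
  rw [← e4, ← e5] at c45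
  have cross : ∀ n, Ge w n (p.K1 c) → Ge w n (p.K2 c) → Ge w n (p.K3 c) →
      Ge w n (u3 • p.a2 - u2 • p.a3) ∧ Ge w n (u4 • p.a2 - u2 • p.a4) ∧
      Ge w n (u5 • p.a2 - u2 • p.a5) ∧ Ge w n (u4 • p.a3 - u3 • p.a4) ∧
      Ge w n (u5 • p.a3 - u3 • p.a5) ∧ Ge w n (u5 • p.a4 - u4 • p.a5) := fun n a b d =>
    ⟨(((a.smul _).sub (b.smul _)).add (d.smul _)).congr c23,
      (((a.smul _).add (b.smul _)).sub (d.smul _)).congr c24,
      (((a.smul _).add (b.smul _)).add (d.smul _)).congr c25,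
      (((a.smul _).sub (b.smul _)).add (d.smul _)).congr c34,
      (((b.smul _).sub (a.smul _)).add (d.smul _)).congr c35,
      (((a.smul _).sub (b.smul _)).add (d.smul _)).congr c45⟩
  have step : ∀ n, Ge w n (p.K1 c) → Ge w n (p.K2 c) → Ge w n (p.K3 c) →
      Ge w n (p.a2 - u2 • X 2) ∧ Ge w n (p.a3 - u3 • X 2) ∧ Ge w n (p.a4 - u4 • X 2) ∧
      Ge w n (p.a5 - u5 • X 2) := by
    intro n a b d
    obtain ⟨t23, t24, t25, t34, t35, t45⟩ := cross n a b d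
    exact ⟨lin ez hm t23 t24 t25, lin ez hm (Ge.zero.congr (sub_self _)) t34 t35,
      lin ez hm (t34.neg.congr (neg_sub _ _).symm) (Ge.zero.congr (sub_self _)) t45,
      lin ez hm (t35.neg.congr (neg_sub _ _).symm) (t45.neg.congr (neg_sub _ _).symm)
        (Ge.zero.congr (sub_self _))⟩
  have lx : Ld w 1 p.a0 (X 0) := (Ld.X 0).congr ex rfl
  have ly : Ld w 2 p.a1 (X 1) := (Ld.X 1).congr ey rfl
  have hz : Hm w 3 (X 2 : PS κ) := Hm.X 2
  have up : ∀ n, n ≤ 3 → Ge w n (p.K1 c) → Ge w n (p.K2 c) → Ge w n (p.K3 c) →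
      p.GeA w 1 2 n n n n := by
    intro n hn a b d
    obtain ⟨t2, t3, t4, t5⟩ := step n a b d
    have f : ∀ (a : PS κ) (u : κ), Ge w n (a - u • X 2) → Ge w n a := fun a u t =>
      (t.add ((hz.ge.mono hn).smul u)).congr (sub_add_cancel _ _).symm
    exact ⟨lx.ge, ly.ge, f _ _ t2, f _ _ t3, f _ _ t4, f _ _ t5⟩
  have G1 : p.GeA w 1 1 1 1 1 1 := h.geA (by decide)
  have G2 := up 2 (by decide) (G1.K1 c (by decide)) (G1.K2 c (by decide)) (G1.K3 c (by decide))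
  have G := up 3 (by decide) (G2.K1 c (by decide)) (G2.K2 c (by decide)) (G2.K3 c (by decide))
  have g1 : Ge w 4 (p.K1 c) := G.K1 c (by decide)
  have g2 : Ge w 4 (p.K2 c) := G.K2 c (by decide)
  have g3 : Ge w 5 (p.K3 c) := G.K3 c (by decide)
  obtain ⟨t2, t3, t4, t5⟩ := step 4 g1 g2 (g3.mono (by decide))
  obtain ⟨t23, t24, t25, -, -, -⟩ := cross 4 g1 g2 (g3.mono (by decide))
  have l2 : Ld w 3 p.a2 (u2 • X 2) := ld_of_ge (hz.smul _) t2
  have l3 : Ld w 3 p.a3 (u3 • X 2) := ld_of_ge (hz.smul _) t3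
  have l4 : Ld w 3 p.a4 (u4 • X 2) := ld_of_ge (hz.smul _) t4
  have l5 : Ld w 3 p.a5 (u5 • X 2) := ld_of_ge (hz.smul _) t5
  have g13 : Ge w 5 p.q13 := G.q13 (by decide)
  have g14 : Ge w 5 p.q14 := G.q14 (by decide)
  have g24 : Ge w 5 p.q24 := G.q24 (by decide)
  have l02 : Ld w 4 p.q02 (X 0 * u2 • X 2 - X 1 ^ 2) := (lx.mul l2).sub (ly.pow 2)
  have l03 : Ld w 4 p.q03 (X 0 * u3 • X 2) := (lx.mul l3).sub_ge (ly.ge.mul l2.ge)
  have l04 : Ld w 4 (p.q04 - p.q13) (X 0 * u4 • X 2) :=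
    ((lx.mul l4).sub_ge ((l2.ge.pow 2).mono (by decide))).sub_ge g13
  have l35 : Ld w 6 p.q35 (u3 • X 2 * u5 • X 2 - (u4 • X 2) ^ 2) := (l3.mul l5).sub (l4.pow 2)
  have lK : Ld w 4 (p.K1 c) ((c.c02 * u3 + c.c03 * u4) • (X 0 * X 2)) :=
    (((((l03.smul c.c02).add (l04.smul c.c03)).add_ge (g13.smul c.c12)).add_ge
      (g14.smul c.c13)).add_ge (g24.smul c.c23)).congr (by rw [Hk.K1, hc, zero_smul, zero_add])
      (by simp only [Algebra.smul_def, map_add, map_mul]; ring)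
  have hP : u3 * u5 - u4 ^ 2 ≠ 0 := by
    have : u3 * u5 - u4 ^ 2 = -(k2 * (h2 ^ 2 - k1 * h1 * h2 + k2 * h1 ^ 2)) := by
      rw [e3, e4, e5, kp2, kp3, kp4]; ring
    rw [this]
    exact neg_ne_zero.2 (mul_ne_zero hk hρ)
  have m15 : Ge w 5 (p.a1 * p.a5 - p.a2 * p.a4) := ge_q G.g1 G.g5 G.g2 G.g4 (by decide)
  intro q hq
  simp only [P_d2, List.mem_cons, List.not_mem_nil, or_false] at hq
  rcases hq with rfl | rfl | rfl | rfl | rfl | rfl
  · refine ⟨_, h.m02, l02.init hw (init_of (t := -1) (e := u2 • mon κ 1 0 1) (by simp)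
      (Submodule.smul_mem _ _ (mon_gt (by decide))) ?_)⟩
    simp only [mon, Algebra.smul_def, map_neg, map_one]; ring
  · have lR : Ld w 5 (p.RB c 0 h1 h2 1 k1 k2 p.a0 p.a1)
        ((c.c02 * u3 + c.c03 * u4) • (X 0 * X 2) * X 0) :=
      (((lK.mul (lx.add_ge (ly.ge.smul k1))).add_ge (g2.mul (ly.ge.smul k2))).sub_ge
        (g3.mul ((lx.ge.smul (h1 + k2)).add ((ly.ge.mono (by decide)).smul h2)))).congr
        (by rw [Hk.RB, one_smul, zero_add, zero_smul, sub_zero]) rfl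
    refine ⟨_, (h.mRC E).1, lR.init hw (init_of (e := 0) hA (zero_mem _) ?_)⟩
    simp only [mon, Algebra.smul_def]; ring
  · refine ⟨_, h.m35, l35.init hw (init_of (e := 0) hP (zero_mem _) ?_)⟩
    simp only [mon, Algebra.smul_def, map_sub, map_mul, map_pow]; ring
  · by_cases h4 : u4 = 0
    · have h5 : u5 ≠ 0 := fun h5 => hP (by rw [h4, h5]; ring)
      have ld : Ld w 7 p.d013 _ := ((lx.mul ((l2.mul l5).sub (l3.mul l4))).sub
        (ly.mul ((ly.mul l5).sub_ge (G.g2.mul G.g4)))).add_ge (G.g3.mul g13)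
      refine ⟨_, h.m013, ld.init hw (init_of (t := -u5) (e := (u2 * u5 - u3 * u4) • mon κ 1 0 2)
        (neg_ne_zero.2 h5) (Submodule.smul_mem _ _ (mon_gt (by decide))) ?_)⟩
      simp only [mon, Algebra.smul_def, map_neg, map_sub, map_mul]; ring
    · have ld : Ld w 7 p.d012 _ := ((lx.mul ((l2.mul l4).sub (l3.pow 2))).sub
        (ly.mul ((ly.mul l4).sub_ge (G.g2.mul G.g3)))).add_ge (G.g2.mul g13)
      refine ⟨_, h.m012, ld.init hw (init_of (t := -u4) (e := (u2 * u4 - u3 ^ 2) • mon κ 1 0 2)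
        (neg_ne_zero.2 h4) (Submodule.smul_mem _ _ (mon_gt (by decide))) ?_)⟩
      simp only [mon, Algebra.smul_def, map_neg, map_sub, map_mul, map_pow]; ring
  · have ld : Ld w 7 p.d023 _ := ((lx.mul l35).sub_ge (G.g2.mul m15)).add_ge (G.g3.mul g14)
    refine ⟨_, h.m023, ld.init hw (init_of (e := 0) hP (zero_mem _) ?_)⟩
    simp only [mon, Algebra.smul_def, map_sub, map_mul, map_pow]; ring
  · have l45 : Ld w 4 (u5 • p.a4 - u4 • p.a5) _ :=
      (lK.add_ge (g3.smul (-h1))).congr (by rw [c45]; module) rfl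
    have l35' : Ld w 4 (u5 • p.a3 - u3 • p.a5) _ :=
      ((lK.smul (-k1)).add_ge (g3.smul h2)).congr (by rw [c35]; module) rfl
    have l34 : Ld w 4 (u4 • p.a3 - u3 • p.a4) _ := (lK.smul k2).congr (by rw [c34]; module) rfl
    have ld : Ld w 8 (-p.dx u2 u3 u4 u5) _ :=
      ((((((l02.mul l45).sub (l03.mul l35')).add (l04.mul l34)).add_ge (g13.mul t25)).sub_ge
        (g14.mul t24)).add_ge (g24.mul t23)).congr (by
          simp only [Hk.dx, Hk.d123, Hk.d023, Hk.d013, Hk.d012, Hk.q02, Hk.q03, Hk.q04, Hk.q13,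
            Hk.q14, Hk.q24, Algebra.smul_def]
          ring) rfl
    refine ⟨_, neg_mem (h.mdx u2 u3 u4 u5), ld.init hw (init_of
      (e := ((c.c02 * u3 + c.c03 * u4) * (u2 + k1 * u3 + k2 * u4)) • mon κ 2 0 2)
      (neg_ne_zero.2 hA) (Submodule.smul_mem _ _ (mon_gt (by decide))) ?_)⟩
    simp only [mon, Algebra.smul_def, map_neg, map_add, map_mul]; ring

end Pool.Agent.P.MP_6149fc_ag.V22

end

section

/-! Step PDA3. -/

set_option autoImplicit false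
set_option linter.unusedSectionVars false

namespace Pool.Agent.P.MP_6149fc_ag.V22

open Pool.Agent.P.MP_6149fc_ag.V18
open MvPowerSeries (coeff X constantCoeff monomial)

theorem p_PDA3 :
    S_PDA3 := by
  intro κ _ U p c h1 h2 k1 k2 u2 u3 u4 u5 m3 m4 m5 h E ex0 ey ez hu2 hu3 hu4 hu5 hm hk hρ hA hc hB
  let w : Fin 3 → ℕ := ![1, 2, 2]
  have hW : First (WC 2 1) w := by decide
  have hY : First (WC 2 (-1)) w := by decide
  obtain ⟨c23, c24, c25, c34, c35, c45⟩ := cof (C := PS κ) (h0 := 0) (h1 := h1) (h2 := h2)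
    (k0 := 1) (k1 := k1) (k2 := k2) (b1 := p.a2) (b2 := p.a3) (b3 := p.a4) (b4 := p.a5)
    (A := p.K1 c) (B := p.K2 c) (D := p.K3 c) (by simpa using E.e1) (by simpa using E.e2)
    (by simpa using E.e3)
  simp only [← hu2, ← hu3, ← hu4, ← hu5] at c23 c24 c25 c34 c35 c45
  have v3 : u3 = h2 * k2 := by rw [hu3, kp2]; ring
  have v4 : u4 = -(h1 * k2) := by rw [hu4, kp3]; ring
  have v5 : u5 = h1 * k1 - h2 := by rw [hu5, kp4]; ring
  have vρ : u2 + k1 * u3 + k2 * u4 = h2 ^ 2 - k1 * h1 * h2 + k2 * h1 ^ 2 := by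
    rw [hu2, v3, v4, kp1]; ring
  have hP : u3 * u5 - u4 ^ 2 ≠ 0 := by
    have : u3 * u5 - u4 ^ 2 = -(k2 * (h2 ^ 2 - k1 * h1 * h2 + k2 * h1 ^ 2)) := by
      rw [v3, v4, v5]; ring
    rw [this]
    exact neg_ne_zero.2 (mul_ne_zero hk hρ)
  rw [← vρ] at hρ
  have d45 : u5 • p.a4 - u4 • p.a5 = p.K1 c - h1 • p.K3 c := by rw [c45]; module
  have d35 : u5 • p.a3 - u3 • p.a5 = h2 • p.K3 c - k1 • p.K1 c := by rw [c35]; module
  have d34 : u4 • p.a3 - u3 • p.a4 = k2 • p.K1 c := by rw [c34]; module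
  obtain ⟨r3, s3, d23⟩ : ∃ r s : κ, u3 • p.a2 - u2 • p.a3 =
      -(u3 • p.K2 c) + (r • p.K1 c + s • p.K3 c) :=
    ⟨h1 * k2 - h2 * k1 + k2 ^ 2, h2 ^ 2, by rw [c23, v3]; module⟩
  obtain ⟨r4, s4, d24⟩ : ∃ r s : κ, u4 • p.a2 - u2 • p.a4 =
      -(u4 • p.K2 c) + (r • p.K1 c + s • p.K3 c) :=
    ⟨h2 - k1 * k2, -(h1 * h2), by rw [c24, v4]; module⟩
  obtain ⟨r5, s5, d25⟩ : ∃ r s : κ, u5 • p.a2 - u2 • p.a5 =
      -(u5 • p.K2 c) + (r • p.K1 c + s • p.K3 c) :=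
    ⟨k1 ^ 2 - h1 - k2, h1 * k2 + h1 ^ 2 - h2 * k1, by rw [c25, v5]; module⟩
  clear c23 c24 c25 c34 c35 c45 hu2 hu3 hu4 hu5 v3 v4 v5 vρ
  have key : ∀ n, Ge w n (p.K1 c) → Ge w n (p.K3 c) → Ge w n (p.a2 - u2 • X 2 + p.K2 c) ∧
      Ge w n (p.a3 - u3 • X 2) ∧ Ge w n (p.a4 - u4 • X 2) ∧ Ge w n (p.a5 - u5 • X 2) := by
    intro n g1 g3
    have g45 := (g1.sub (g3.smul h1)).congr d45
    have g35 := ((g3.smul h2).sub (g1.smul k1)).congr d35
    have g34 := (g1.smul k2).congr d34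
    refine ⟨(((((g1.smul r3).add (g3.smul s3)).smul m3).add
      (((g1.smul r4).add (g3.smul s4)).smul m4)).add
      (((g1.smul r5).add (g3.smul s5)).smul m5)).congr ?_,
      ((g34.smul m4).add (g35.smul m5)).congr ?_, ((g45.smul m5).sub (g34.smul m3)).congr ?_,
      ((g35.smul m3).add (g45.smul m4)).neg.congr ?_⟩
    · rw [← ez]
      linear_combination (norm := module) hm.symm • (p.a2 + p.K2 c) + m3 • d23 + m4 • d24 +
        m5 • d25
    · rw [← ez]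
      linear_combination (norm := module) hm.symm • p.a3
    · rw [← ez]
      linear_combination (norm := module) hm.symm • p.a4
    · rw [← ez]
      linear_combination (norm := module) hm.symm • p.a5
  have lx : Ld w 1 p.a0 (X 0) := (Ld.X 0).congr ex0 rfl
  have ly : Ld w 2 p.a1 (X 1) := (Ld.X 1).congr ey rfl
  have hz : Hm w 2 (X 2 : PS κ) := Hm.X 2
  have hx : Hm w 1 (X 0 : PS κ) := Hm.X 0
  have G0 : p.GeA w 1 2 1 1 1 1 :=
    have g := h.geA (w := w) (n := 1) (by decide)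
    ⟨g.g0, ly.ge, g.g2, g.g3, g.g4, g.g5⟩
  have G1 : p.GeA w 1 2 2 2 2 2 := by
    obtain ⟨g2, g3, g4, g5⟩ := key 2 (G0.K1 c (by decide)) (G0.K3 c (by decide))
    exact ⟨lx.ge, ly.ge,
      ((g2.sub (G0.K2 c (by decide))).add (hz.ge.smul u2)).congr (by ring),
      (g3.add (hz.ge.smul u3)).congr (by ring), (g4.add (hz.ge.smul u4)).congr (by ring),
      (g5.add (hz.ge.smul u5)).congr (by ring)⟩
  have gK2 : Ge w 3 (p.K2 c) := G1.K2 c (by decide)
  have gK3 : Ge w 4 (p.K3 c) := G1.K3 c (by decide)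
  have es : c.c01 • p.a2 + c.c02 • p.a3 + c.c03 • p.a4 = -(c.c01 • p.K2 c) +
      (c.c01 • (p.a2 - u2 • X 2 + p.K2 c) + c.c02 • (p.a3 - u3 • X 2) +
        c.c03 • (p.a4 - u4 • X 2)) := by
    linear_combination (norm := module) hA • (X 2 : PS κ)
  have eK1 : p.K1 c = p.a0 * (c.c01 • p.a2 + c.c02 • p.a3 + c.c03 • p.a4) +
      (-(c.c01 • (p.a1 * p.a1)) - c.c02 • (p.a1 * p.a2) - c.c03 • (p.a1 * p.a3) +
        c.c12 • (p.a1 * p.a3 - p.a2 * p.a2) + c.c13 • (p.a1 * p.a4 - p.a2 * p.a3) +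
        c.c23 • (p.a2 * p.a4 - p.a3 * p.a3)) := by
    simp only [Hk.K1, Hk.q02, Hk.q03, Hk.q04, Hk.q13, Hk.q14, Hk.q24, Algebra.smul_def]; ring
  obtain ⟨t2, t3, t4, t5⟩ := key 3 (G1.K1 c (by decide)) (gK3.mono (by decide))
  have l2 : Ld w 2 p.a2 (u2 • X 2) := ld_of_ge (hz.smul _) ((t2.sub gK2).congr (by ring))
  have l3 : Ld w 2 p.a3 (u3 • X 2) := ld_of_ge (hz.smul _) t3
  have l4 : Ld w 2 p.a4 (u4 • X 2) := ld_of_ge (hz.smul _) t4
  have l5 : Ld w 2 p.a5 (u5 • X 2) := ld_of_ge (hz.smul _) t5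
  have lR := ((((((ly.mul ly).smul c.c01).neg.sub ((ly.mul l2).smul c.c02)).sub
    ((ly.mul l3).smul c.c03)).add (((ly.mul l3).sub (l2.mul l2)).smul c.c12)).add
    (((ly.mul l4).sub (l2.mul l3)).smul c.c13)).add (((l2.mul l4).sub (l3.mul l3)).smul c.c23)
  have gK1 : Ge w 4 (p.K1 c) :=
    ((lx.ge.mul (((gK2.smul _).neg.add (((t2.smul _).add (t3.smul _)).add
      (t4.smul _))).congr es)).add lR.ge).congr eK1
  clear t2 t3 t4 t5
  obtain ⟨t2, t3, t4, t5⟩ := key 4 gK1 gK3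
  obtain ⟨B, hB'⟩ : ∃ B, B = c.c01 * u3 + c.c02 * u4 + c.c03 * u5 := ⟨_, rfl⟩
  rw [← hB'] at hB
  obtain ⟨P, hP'⟩ : ∃ P, P = u3 * u5 - u4 ^ 2 := ⟨_, rfl⟩
  rw [← hP'] at hP
  have hxz : Hm w 3 (X 0 * X 2 : PS κ) := hx.mul hz
  obtain ⟨ep, fi, lK2'⟩ : ∃ ep fi : κ, Ld w 4 (p.K2 c - B • (X 0 * X 2))
      (ep • (X 1 * X 2) + fi • (X 2 * X 2)) := by
    refine ⟨-(c.c01 * u2) + c.c12 * u4 + c.c13 * u5, -(c.c02 * u2 * u2) - c.c03 * u2 * u3 -
      c.c12 * u2 * u3 - c.c13 * u3 * u3 + c.c23 * (u2 * u5 - u3 * u4),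
      ((((((((ly.mul l2).smul c.c01).neg.sub ((l2.mul l2).smul c.c02)).sub
      ((l2.mul l3).smul c.c03)).add (((ly.mul l4).sub (l2.mul l3)).smul c.c12)).add
      (((ly.mul l5).sub (l3.mul l3)).smul c.c13)).add
      (((l2.mul l5).sub (l3.mul l4)).smul c.c23)).add_ge
      (lx.ge.mul (((t3.smul c.c01).add (t4.smul c.c02)).add (t5.smul c.c03)))).congr ?_ ?_⟩
    · simp only [Hk.K2, Hk.q03, Hk.q04, Hk.q05, Hk.q14, Hk.q15, Hk.q25, Algebra.smul_def, hB', ex0,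
        map_add, map_mul]
      ring
    · simp only [Algebra.smul_def, map_add, map_mul, map_sub, map_neg]; ring
  have lK2 : Ld w 3 (p.K2 c) (B • (X 0 * X 2)) := ld_of_ge (hxz.smul _) lK2'.ge
  have l2' : Ld w 3 (p.a2 - u2 • X 2) (-(B • (X 0 * X 2))) :=
    (lK2.neg.add_ge t2).congr (by ring) rfl
  obtain ⟨al, be, lK1⟩ : ∃ al be : κ, Ld w 4 (p.K1 c) ((-(c.c01 * B)) • (X 0 * X 0 * X 2) +
      (-c.c01) • (X 1 * X 1) + al • (X 1 * X 2) + be • (X 2 * X 2)) := by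
    refine ⟨-(c.c02 * u2) - c.c03 * u3 + c.c12 * u3 + c.c13 * u4,
      -(c.c12 * u2 * u2) - c.c13 * u2 * u3 + c.c23 * (u2 * u4 - u3 * u3),
      ((lx.mul (((lK2.smul c.c01).neg.add_ge (((t2.smul _).add (t3.smul _)).add
        (t4.smul _))).congr es rfl)).add lR).congr eK1 ?_⟩
    simp only [Algebra.smul_def, map_add, map_mul, map_sub, map_neg]; ring
  have l13 := (ly.mul l3).sub (l2.mul l2)
  have l14 := (ly.mul l4).sub (l2.mul l3)
  have l24 := (l2.mul l4).sub (l3.mul l3)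
  have l25 := (l2.mul l5).sub (l3.mul l4)
  have l35 : Ld w 4 (p.a3 * p.a5 - p.a4 * p.a4) (P • (X 2 * X 2)) :=
    ((l3.mul l5).sub (l4.mul l4)).congr rfl (by
      simp only [Algebra.smul_def, hP', map_mul, map_sub, map_pow]; ring)
  obtain ⟨ga, de, lK3⟩ : ∃ ga de : κ, Ld w 4 (p.K3 c) (ga • (X 1 * X 2) + de • (X 2 * X 2)) := by
    refine ⟨c.c01 * u3 + c.c02 * u4 + c.c03 * u5, -(c.c01 * u2 * u2) - c.c02 * u2 * u3 -
      c.c03 * u2 * u4 + c.c12 * (u2 * u4 - u3 * u3) + c.c13 * (u2 * u5 - u3 * u4) + c.c23 * P,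
      ((((((l13.smul c.c01).add (l14.smul c.c02)).add
      ((((ly.mul l5).sub (l3.mul l3)).sub l24).smul c.c03)).add (l24.smul c.c12)).add
      (l25.smul c.c13)).add (l35.smul c.c23)).congr ?_ ?_⟩
    · simp only [Hk.K3, Hk.q13, Hk.q14, Hk.q15, Hk.q24, Hk.q25, Hk.q35, sq]
    · simp only [Algebra.smul_def, map_add, map_mul, map_sub, map_neg]; ring
  have lT := (l3.mul l14).sub (l2.mul ((ly.mul l5).sub (l2.mul l4)))
  have l023 : Ld w 5 p.d023 (X 0 * P • (X 2 * X 2)) :=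
    ((lx.mul l35).add_ge lT.ge).congr (by rw [Hk.d023]; ring) rfl
  have l123 := (((ly.mul l35).sub (l2.mul l25)).add (l3.mul l24)).congr
    (f' := p.d123) (by rw [Hk.d123]; ring) rfl
  have lR0 := ((((lK1.mul lx).add ((lK2.mul ly).smul k2)).sub
    ((lK3.mul lx).smul (h1 + k2))).add_ge (((gK1.mul ly.ge).smul k1).sub
    ((gK3.mul ly.ge).smul h2))).congr (f' := p.RB c 0 h1 h2 1 k1 k2 p.a0 p.a1) (by
      simp only [Hk.RB, Algebra.smul_def, map_add, map_zero, map_one]; ring) rfl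
  have g35 : Ge w 6 (p.a3 * p.a5 - p.a4 * p.a4 - P • (X 2 * X 2)) :=
    (((t3.mul l5.ge).add ((t5.mul hz.ge).smul u3)).sub
      (t4.mul (l4.ge.add (hz.ge.smul u4)))).congr (by
        simp only [Algebra.smul_def, hP', map_mul, map_sub, map_pow]; ring)
  have lR1 := ((((((lK1.mul (ly.add (l2.smul k1))).sub
    (lK3.mul ((ly.smul (h1 + k2)).add (l2.smul h2)))).add
    (((lK2'.mul l2).add ((hxz.ld.mul l2').smul B)).smul k2)).smul P).sub
    (lT.smul (k2 * B * u2))).sub_ge ((lx.ge.mul g35).smul (k2 * B * u2))).congr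
    (f' := P • p.RB c 0 h1 h2 1 k1 k2 p.a1 p.a2 - (k2 * B * u2) • p.d023) (by
      simp only [Hk.RB, Hk.d023, Algebra.smul_def, map_add, map_zero, map_one, map_mul, ex0]
      ring) rfl
  have n45 := (lK1.sub (lK3.smul h1)).congr d45 rfl
  have n35 := ((lK3.smul h2).sub (lK1.smul k1)).congr d35 rfl
  have n34 := (lK1.smul k2).congr d34 rfl
  have n25 := ((lK2.smul u5).neg.add_ge ((gK1.smul r5).add (gK3.smul s5))).congr d25 rfl
  have n24 := ((lK2.smul u4).neg.add_ge ((gK1.smul r4).add (gK3.smul s4))).congr d24 rfl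
  have n23 := ((lK2.smul u3).neg.add_ge ((gK1.smul r3).add (gK3.smul s3))).congr d23 rfl
  have lD := ((((((((lx.mul l2).sub_ge (ly.ge.mul ly.ge)).mul n45).sub
    (((lx.mul l3).sub_ge (ly.ge.mul l2.ge)).mul n35)).add
    (((lx.mul l4).sub_ge (ly.ge.mul l3.ge)).mul n34)).add (l13.mul n25)).sub (l14.mul n24)).add
    (l24.mul n23)).neg.congr (f' := p.dx u2 u3 u4 u5) (by
      simp only [Hk.dx, Hk.d123, Hk.d023, Hk.d013, Hk.d012, Algebra.smul_def]; ring) rfl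
  have sm : ∀ {A : Rows} {a b d a' b' d' : ℕ} (t : κ), ltA A a b d a' b' d' →
      t • mon κ a' b' d' ∈ GtK κ A (ex a b d) := fun t ht => Submodule.smul_mem _ _ (mon_gt ht)
  refine ⟨fun q hq => ?_, fun q hq => ?_⟩
  · simp only [P_d3, List.mem_cons, List.not_mem_nil, or_false] at hq
    rcases hq with rfl | rfl | rfl | rfl | rfl
    · refine ⟨_, h.m123, l123.init hW (init_of (t := P) hP
        (sm (a' := 0) (b' := 0) (d' := 3) (u3 * (u2 * u4 - u3 * u3) - u2 * (u2 * u5 - u3 * u4))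
          (by decide)) ?_)⟩
      simp only [mon, Algebra.smul_def, map_mul, map_sub]; ring
    · refine ⟨_, h.m023, l023.init hW (init_of (t := P) hP (zero_mem _) ?_)⟩
      simp only [mon, Algebra.smul_def]; ring
    · refine ⟨_, (h.mRC E).1, lR0.init hW (init_of (t := -c.c01) (neg_ne_zero.2 hc)
        (add_mem (add_mem (sm (a' := 3) (b' := 0) (d' := 1) (-(c.c01 * B)) (by decide))
          (sm (a' := 1) (b' := 1) (d' := 1) (al + k2 * B - (h1 + k2) * ga) (by decide)))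
          (sm (a' := 1) (b' := 0) (d' := 2) (be - (h1 + k2) * de) (by decide))) ?_)⟩
      simp only [mon, Algebra.smul_def, map_mul, map_sub, map_add, map_neg]; ring
    · refine ⟨_, sub_mem (Submodule.smul_mem _ _ (h.mRC E).2) (Submodule.smul_mem _ _ h.m023),
        lR1.init hW (init_of (t := -(P * c.c01)) (neg_ne_zero.2 (mul_ne_zero hP hc))
        (add_mem (add_mem (add_mem (add_mem
          (sm (a' := 2) (b' := 1) (d' := 1) (-(P * c.c01 * B)) (by decide))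
          (sm (a' := 0) (b' := 2) (d' := 1) (P * (al - c.c01 * k1 * u2 - ga * (h1 + k2)))
            (by decide)))
          (sm (a' := 2) (b' := 0) (d' := 2) (-(P * (c.c01 * B * k1 * u2 + k2 * B * B)))
            (by decide)))
          (sm (a' := 0) (b' := 1) (d' := 2) (P * (be + al * k1 * u2 - de * (h1 + k2) -
            ga * h2 * u2 + k2 * ep * u2) - k2 * B * u2 * (u3 * u4 - u2 * u5)) (by decide)))
          (sm (a' := 0) (b' := 0) (d' := 3) (P * (be * k1 * u2 - de * h2 * u2 + k2 * fi * u2) -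
            k2 * B * u2 * (u2 * u2 * u4 - u2 * u3 * u3)) (by decide))) ?_)⟩
      simp only [mon, Algebra.smul_def, map_mul, map_sub, map_add, map_neg]; ring
    · refine ⟨_, h.mdx _ _ _ _, lD.init hW (init_of (t := (u2 + k1 * u3 + k2 * u4) * c.c01)
        (mul_ne_zero hρ hc) (add_mem (add_mem
          (sm (a' := 3) (b' := 0) (d' := 2) ((u2 + k1 * u3 + k2 * u4) * c.c01 * B) (by decide))
          (sm (a' := 1) (b' := 1) (d' := 2) ((u2 * h1 + u3 * h2) * ga -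
            (u2 + k1 * u3 + k2 * u4) * al + B * (u3 * u5 - u4 * u4)) (by decide)))
          (sm (a' := 1) (b' := 0) (d' := 3) ((u2 * h1 + u3 * h2) * de -
            (u2 + k1 * u3 + k2 * u4) * be + B * (2 * u2 * u3 * u4 - u2 * u2 * u5 - u3 * u3 * u3))
            (by decide))) ?_)⟩
      simp only [mon, Algebra.smul_def, map_mul, map_sub, map_add, map_neg, map_ofNat]; ring
  · simp only [P_d3Y, List.mem_cons, List.not_mem_nil, or_false] at hq
    rcases hq with rfl | rfl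
    · refine ⟨_, h.m35, (l35.congr (by rw [Hk.q35, sq]) rfl).init hY
        (init_of (t := P) hP (zero_mem _) ?_)⟩
      simp only [mon, Algebra.smul_def]; ring
    · refine ⟨_, (h.mRC E).1, lR0.init hY (init_of (t := -(c.c01 * B))
        (neg_ne_zero.2 (mul_ne_zero hc hB))
        (add_mem (add_mem (sm (a' := 1) (b' := 2) (d' := 0) (-c.c01) (by decide))
          (sm (a' := 1) (b' := 1) (d' := 1) (al + k2 * B - (h1 + k2) * ga) (by decide)))
          (sm (a' := 1) (b' := 0) (d' := 2) (be - (h1 + k2) * de) (by decide))) ?_)⟩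
      simp only [mon, Algebra.smul_def, map_mul, map_sub, map_add, map_neg]; ring

end Pool.Agent.P.MP_6149fc_ag.V22

end
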