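import Pool.Agent.P.MP_6149fc_ag.V22.IfaceK

section

/-! Step PDA4. -/

set_option autoImplicit false
set_option linter.unusedSectionVars false

namespace Pool.Agent.P.MP_6149fc_ag.V22

open Pool.Agent.P.MP_6149fc_ag.V18
open MvPowerSeries (coeff X constantCoeff monomial)

theorem p_PDA4 :
    S_PDA4 := by
  intro κ _ U p c h1 h2 k1 h E ex' ey ez hh hT hc hk
  let w : Fin 3 → ℕ := ![1, 2, 3]
  have hW : First (WC 1 1) w := by decide
  have hY : First (WC 1 (-1)) w := by decide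
  have lx : Ld w 1 p.a0 (X 0) := (Ld.X 0).congr ex' rfl
  have ly : Ld w 2 p.a1 (X 1) := (Ld.X 1).congr ey rfl
  have lz : Ld w 3 p.a5 (X 2) := (Ld.X 2).congr ez rfl
  have e4 : (h1 * k1 - h2) • p.a4 = p.K1 c - h1 • p.K3 c := by
    linear_combination (norm := module) h1 • E.e3 - E.e1
  have e3 : p.a3 = -(k1 • p.a4) - p.K3 c := by
    linear_combination (norm := module) E.e3
  have e2 : p.a2 = -(h2 • p.a5) - (k1 • p.a3 + h1 • p.a4 + p.K2 c) := by
    linear_combination (norm := module) E.e2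
  have st : ∀ n, Ge w n (p.K1 c) → Ge w n (p.K2 c) → Ge w n (p.K3 c) →
      Ge w n p.a3 ∧ Ge w n p.a4 ∧ Ge w n (k1 • p.a3 + h1 • p.a4 + p.K2 c) := fun n a b d => by
    have g4 : Ge w n p.a4 := ge_of_smul hT ((a.sub (d.smul h1)).congr e4)
    have g3 : Ge w n p.a3 := ((g4.smul k1).neg.sub d).congr e3
    exact ⟨g3, g4, ((g3.smul k1).add (g4.smul h1)).add b⟩
  have G0 := h.geA (w := w) (n := 1) (by decide)
  have G1 : p.GeA w 1 2 1 1 1 3 := ⟨lx.ge, ly.ge, G0.g2, G0.g3, G0.g4, lz.ge⟩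
  obtain ⟨g3, g4, g2⟩ := st 2 (G1.K1 c (by decide)) (G1.K2 c (by decide)) (G1.K3 c (by decide))
  have G2 : p.GeA w 1 2 2 2 2 3 :=
    ⟨lx.ge, ly.ge, (((lz.ge.mono (by decide)).smul h2).neg.sub g2).congr e2, g3, g4, lz.ge⟩
  clear g2 g3 g4
  obtain ⟨g3, g4, g2⟩ := st 3 (G2.K1 c (by decide)) (G2.K2 c (by decide)) (G2.K3 c (by decide))
  have G3 : p.GeA w 1 2 3 3 3 3 :=
    ⟨lx.ge, ly.ge, ((lz.ge.smul h2).neg.sub g2).congr e2, g3, g4, lz.ge⟩
  clear g2 g3 g4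
  obtain ⟨g3, g4, g2⟩ := st 4 (G3.K1 c (by decide)) (G3.K2 c (by decide)) (G3.K3 c (by decide))
  have l2 : Ld w 3 p.a2 (-(h2 • X 2)) := ((lz.smul h2).neg.sub_ge g2).congr e2 rfl
  have G : p.GeA w 1 2 3 4 4 3 := ⟨lx.ge, ly.ge, l2.ge, g3, g4, lz.ge⟩
  have gK2 : Ge w 4 (p.K2 c) := G.K2 c (by decide)
  have gK3 : Ge w 5 (p.K3 c) := G.K3 c (by decide)
  have l02 : Ld w 4 p.q02 (X 0 * -(h2 • X 2) - X 1 ^ 2) := (lx.mul l2).sub (ly.pow 2)
  have lK : Ld w 4 (p.K1 c) (c.c01 • (X 0 * -(h2 • X 2) - X 1 ^ 2)) :=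
    ((l02.smul c.c01).add_ge ((((((G.q03 (by decide)).smul c.c02).add
      (((G.q04 (by decide)).sub (G.q13 (by decide))).smul c.c03)).add
      ((G.q13 (by decide)).smul c.c12)).add ((G.q14 (by decide)).smul c.c13)).add
      ((G.q24 (by decide)).smul c.c23))).congr (by rw [Hk.K1]; abel) rfl
  have l4 := ld_of_smul hT ((lK.sub_ge (gK3.smul h1)).congr e4 rfl)
  have l3 := ((l4.smul k1).neg.sub_ge gK3).congr e3 rfl
  have ht : (h1 * k1 - h2)⁻¹ ≠ 0 := inv_ne_zero hT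
  generalize (h1 * k1 - h2)⁻¹ = t at l3 l4 ht
  have l05 : Ld w 4 p.q05 (X 0 * X 2) := (lx.mul lz).sub_ge (l2.ge.mul' g3 (by decide))
  have l25 : Ld w 6 p.q25 (-(h2 • X 2) * X 2) := (l2.mul lz).sub_ge (g3.mul' g4 (by decide))
  have lR : Ld w 5 (p.RB c 0 h1 h2 1 k1 0 p.a0 p.a1) _ :=
    ((lK.mul lx).add_ge (((lK.ge.mul ly.ge).smul k1).sub
      (((gK3.mul lx.ge).smul h1).add ((gK3.mul' ly.ge (by decide)).smul h2)))).congr (by
        simp only [Hk.RB, Algebra.smul_def, map_add, map_zero, map_one]; ring) rfl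
  have l012 : Ld w 8 p.d012 _ :=
    ((l02.mul l4).add_ge ((((ly.ge.mul l2.ge).mul g3).sub (lx.ge.mul (g3.mul g3))).add
      (l2.ge.mul (G.q13 (n := 6) (by decide))))).congr (by
        simp only [Hk.d012, Hk.q02, Hk.q13]; ring) rfl
  have l023 : Ld w 8 p.d023 _ :=
    ((((lx.mul l3).mul lz).sub ((l2.mul ly).mul lz)).add_ge
      (((((l2.ge.mul l2.ge).mul' g4 (by decide)).sub (lx.ge.mul (g4.mul g4)))).add
        (g3.mul' (G.q14 (n := 6) (by decide)) (by decide)))).congr (by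
        simp only [Hk.d023, Hk.q14]; ring) rfl
  refine ⟨fun q hq => ?_, fun q hq => ?_⟩
  · simp only [P_d4, List.mem_cons, List.not_mem_nil, or_false] at hq
    rcases hq with rfl | rfl | rfl | rfl | rfl
    · refine ⟨_, h.m05, l05.init hW (init_of (t := 1) (e := 0) one_ne_zero (zero_mem _) ?_)⟩
      simp only [mon, Algebra.smul_def, map_one]; ring
    · refine ⟨_, (h.mRC E).1, lR.init hW (init_of (t := -c.c01)
        (e := (-(c.c01 * h2)) • mon κ 2 0 1) (neg_ne_zero.2 hc)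
        (Submodule.smul_mem _ _ (mon_gt (by decide))) ?_)⟩
      simp only [mon, Algebra.smul_def, map_neg, map_mul]; ring
    · refine ⟨_, h.m25, l25.init hW (init_of (t := -h2) (e := 0) (neg_ne_zero.2 hh)
        (zero_mem _) ?_)⟩
      simp only [mon, Algebra.smul_def, map_neg]; ring
    · refine ⟨_, h.m012, l012.init hW (init_of (t := t * c.c01)
        (e := (t * c.c01 * h2 * h2) • mon κ 2 0 2 + (t * c.c01 * (h2 + h2)) • mon κ 1 2 1)
        (mul_ne_zero ht hc) (add_mem (Submodule.smul_mem _ _ (mon_gt (by decide)))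
          (Submodule.smul_mem _ _ (mon_gt (by decide)))) ?_)⟩
      simp only [mon, Algebra.smul_def, map_add, map_mul]; ring
    · refine ⟨_, h.m023, l023.init hW (init_of (t := k1 * t * c.c01)
        (e := (k1 * t * c.c01 * h2) • mon κ 2 0 2 + h2 • mon κ 0 1 2)
        (mul_ne_zero (mul_ne_zero hk ht) hc)
        (add_mem (Submodule.smul_mem _ _ (mon_gt (by decide)))
          (Submodule.smul_mem _ _ (mon_gt (by decide)))) ?_)⟩
      simp only [mon, Algebra.smul_def, map_mul]; ring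
  · simp only [P_dY, List.mem_cons, List.not_mem_nil, or_false] at hq
    rcases hq with rfl | rfl
    · refine ⟨_, h.m25, l25.init hY (init_of (t := -h2) (e := 0) (neg_ne_zero.2 hh)
        (zero_mem _) ?_)⟩
      simp only [mon, Algebra.smul_def, map_neg]; ring
    · refine ⟨_, h.m012, l012.init hY (init_of (t := t * c.c01 * h2 * h2)
        (e := (t * c.c01) • mon κ 0 4 0 + (t * c.c01 * (h2 + h2)) • mon κ 1 2 1)
        (mul_ne_zero (mul_ne_zero (mul_ne_zero ht hc) hh) hh)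
        (add_mem (Submodule.smul_mem _ _ (mon_gt (by decide)))
          (Submodule.smul_mem _ _ (mon_gt (by decide)))) ?_)⟩
      simp only [mon, Algebra.smul_def, map_add, map_mul]; ring

end Pool.Agent.P.MP_6149fc_ag.V22

end

section

/-! Step PDA5. -/

set_option autoImplicit false
set_option linter.unusedSectionVars false

namespace Pool.Agent.P.MP_6149fc_ag.V22

open Pool.Agent.P.MP_6149fc_ag.V18
open MvPowerSeries (coeff X constantCoeff monomial)

theorem p_PDA5 :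
    S_PDA5 := by
  intro κ _ U p c h1 h2 hU h E e0 e1 e5 hh hc
  let w : Fin 3 → ℕ := ![1, 2, 3]
  have hW : First (WC 1 1) w := by decide
  have hY : First (WC 1 (-1)) w := by decide
  have l0 : Ld w 1 p.a0 (X 0) := (Ld.X 0).congr e0 rfl
  have l1 : Ld w 2 p.a1 (X 1) := (Ld.X 1).congr e1 rfl
  have l5 : Ld w 3 p.a5 (X 2) := (Ld.X 2).congr e5 rfl
  have q3 : p.a3 = -p.K3 c := by
    have := E.e3
    simp only [zero_smul, one_smul, zero_add, add_zero] at this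
    linear_combination this
  have q4 : h2 • p.a4 = -p.K1 c - h1 • p.a3 := by
    have := E.e1
    simp only [zero_smul, zero_add] at this
    linear_combination this
  have q2 : p.a2 = -(h2 • p.a5) - (h1 • p.a4 + p.K2 c) := by
    have := E.e2
    simp only [zero_smul, one_smul, zero_add, add_zero] at this
    linear_combination this
  have step : ∀ {n m : ℕ}, n ≤ m → Ge w n (p.K1 c) → Ge w n (p.K2 c) → Ge w m (p.K3 c) →
      Ge w n (h1 • p.a4 + p.K2 c) ∧ Ge w m p.a3 ∧ Ge w n p.a4 := fun hn k1 k2 k3 => by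
    have g3 := k3.neg.congr q3
    have g4 := ge_of_smul hh ((k1.neg.sub ((g3.mono hn).smul h1)).congr q4)
    exact ⟨(g4.smul h1).add k2, g3, g4⟩
  have G0 := h.geA (w := w) (n := 1) (by decide)
  have G1 : p.GeA w 1 2 1 1 1 3 := ⟨G0.g0, l1.ge, G0.g2, G0.g3, G0.g4, l5.ge⟩
  obtain ⟨g2, g3, g4⟩ := step (n := 2) (m := 2) le_rfl (G1.K1 c (by decide)) (G1.K2 c (by decide))
    (G1.K3 c (by decide))
  have G2 : p.GeA w 1 2 2 2 2 3 := ⟨G0.g0, l1.ge,
    (((l5.ge.mono (by decide)).smul h2).neg.sub g2).congr q2, g3, g4, l5.ge⟩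
  obtain ⟨g2, g3, g4⟩ := step (n := 3) (m := 3) le_rfl (G2.K1 c (by decide)) (G2.K2 c (by decide))
    (G2.K3 c (by decide))
  have G3 : p.GeA w 1 2 3 3 3 3 := ⟨G0.g0, l1.ge,
    ((l5.ge.smul h2).neg.sub g2).congr q2, g3, g4, l5.ge⟩
  have k3 : Ge w 5 (p.K3 c) := G3.K3 c (by decide)
  obtain ⟨g2, g3, g4⟩ := step (n := 4) (m := 5) (by decide) (G3.K1 c (by decide))
    (G3.K2 c (by decide)) k3
  have G : p.GeA w 1 2 3 5 4 3 := ⟨G0.g0, l1.ge, G3.g2, g3, g4, l5.ge⟩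
  have l2 : Ld w 3 p.a2 (-(h2 • X 2)) := ((l5.smul h2).neg.sub_ge g2).congr q2 rfl
  have lq : Ld w 4 p.q02 (X 0 * -(h2 • X 2) - X 1 ^ 2) := (l0.mul l2).sub (l1.pow 2)
  have lK : Ld w 4 (p.K1 c) (c.c01 • (X 0 * -(h2 • X 2) - X 1 ^ 2)) :=
    (((((lq.smul c.c01).add_ge ((G.q03 (by decide)).smul _)).add_ge
      (((G.q04 (by decide)).sub (G.q13 (by decide))).smul _)).add_ge
      ((G.q13 (by decide)).smul _)).add_ge ((G.q14 (by decide)).smul _)).add_ge
      ((G.q24 (by decide)).smul _)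
  have l4 : Ld w 4 p.a4 (h2⁻¹ • -(c.c01 • (X 0 * -(h2 • X 2) - X 1 ^ 2))) :=
    ld_of_smul hh ((lK.neg.sub_ge (g3.smul h1)).congr q4 rfl)
  have l05 : Ld w 4 p.q05 (X 0 * X 2) := (l0.mul l5).sub_ge (l2.ge.mul' g3 (by decide))
  have l25 : Ld w 6 p.q25 (-(h2 • X 2) * X 2) := (l2.mul l5).sub_ge (g3.mul' g4 (by decide))
  have lR : Ld w 5 (p.RB c 0 h1 h2 1 0 0 p.a0 p.a1)
      (c.c01 • (X 0 * -(h2 • X 2) - X 1 ^ 2) * X 0) :=
    ((lK.mul l0).sub_ge (k3.mul' ((l0.ge.smul h1).add ((l1.ge.mono (by decide)).smul h2))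
      (by decide))).congr
      (by simp only [Hk.RB, zero_smul, one_smul, add_zero, sub_zero, mul_zero]) rfl
  have l012 := ((lq.mul l4).add_ge (((((l1.ge.mul l2.ge).mul' g3 (by decide)).add
    ((l1.ge.mul l2.ge).mul' g3 (by decide))).sub ((l0.ge.mul g3).mul' g3 (by decide))).sub
    ((l2.ge.mul l2.ge).mul' l2.ge (by decide)))).congr (f' := p.d012)
    (by simp only [Hk.d012, Hk.q02]; ring) rfl
  have l023 := ((((l2.mul l1).mul l5).neg).add_ge (((l0.ge.mul' (G.q35 (n := 8) (by decide))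
    (by decide)).add ((l2.ge.mul l2.ge).mul' g4 (by decide))).add
    (g3.mul' (G.q14 (n := 6) (by decide)) (by decide)))).congr (f' := p.d023)
    (by simp only [Hk.d023, Hk.q35, Hk.q14]; ring) rfl
  have l013 := ((lq.mul l5).add_ge ((((l1.ge.mul l2.ge).mul' g4 (by decide)).sub
    ((l0.ge.mul g3).mul' g4 (by decide))).add
    (g3.mul' (G.q13 (n := 6) (by decide)) (by decide)))).congr (f' := p.d013)
    (by simp only [Hk.d013, Hk.q02, Hk.q13]; ring) rfl
  have l123 := ((l2.mul l25).neg.add_ge ((l1.ge.mul' (G.q35 (n := 8) (by decide)) (by decide)).add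
    (g3.mul' (G.q24 (n := 7) (by decide)) (by decide)))).congr (f' := p.d123)
    (by simp only [Hk.d123, Hk.q35, Hk.q25, Hk.q24]; ring) rfl
  have sm := fun (t : κ) (a b d a' b' d' : ℕ) (A : Rows) (hl : ltA A a b d a' b' d') =>
    Submodule.smul_mem _ t (mon_gt (κ := κ) hl)
  refine ⟨fun q hq => ?_, fun q hq => ?_⟩
  · simp only [P_d5, List.mem_cons, List.not_mem_nil, or_false] at hq
    rcases hq with rfl | rfl | rfl | rfl | rfl
    · refine ⟨_, h.m05, l05.init hW (init_of (t := 1) (e := 0) one_ne_zero (zero_mem _) ?_)⟩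
      simp only [mon, Algebra.smul_def, map_one]; ring
    · refine ⟨_, (h.mRC E).1, lR.init hW (init_of (t := -c.c01) (neg_ne_zero.2 hc)
        (sm (-(c.c01 * h2)) 1 2 0 2 0 1 _ (by decide)) ?_)⟩
      simp only [mon, Algebra.smul_def, map_neg, map_mul]; ring
    · refine ⟨_, h.m012, l012.init hW (init_of (t := -(h2⁻¹ * c.c01))
        (neg_ne_zero.2 (mul_ne_zero (inv_ne_zero hh) hc))
        (add_mem (sm (-(2 * (h2⁻¹ * c.c01 * h2))) 0 4 0 1 2 1 _ (by decide))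
          (sm (-(h2⁻¹ * c.c01 * h2 ^ 2)) 0 4 0 2 0 2 _ (by decide))) ?_)⟩
      simp only [mon, Algebra.smul_def, map_neg, map_mul, map_pow, map_ofNat]; ring
    · refine ⟨_, h.m023, l023.init hW (init_of (t := h2) (e := 0) hh (zero_mem _) ?_)⟩
      simp only [mon, Algebra.smul_def]; ring
    · refine ⟨_, sub_mem (hU.mul 1 1 _ _ h.m023 h.m023) (hU.mul 1 1 _ _ h.m123 h.m013),
        ((l023.mul l023).sub (l123.mul l013)).init hW (init_of (t := -h2 ^ 3) (e := 0)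
          (neg_ne_zero.2 (pow_ne_zero 3 hh)) (zero_mem _) ?_)⟩
      simp only [mon, Algebra.smul_def, map_neg, map_pow]; ring
  · simp only [P_dY, List.mem_cons, List.not_mem_nil, or_false] at hq
    rcases hq with rfl | rfl
    · refine ⟨_, h.m25, l25.init hY (init_of (t := -h2) (e := 0) (neg_ne_zero.2 hh)
        (zero_mem _) ?_)⟩
      simp only [mon, Algebra.smul_def, map_neg]; ring
    · refine ⟨_, h.m012, l012.init hY (init_of (t := -(h2⁻¹ * c.c01 * h2 ^ 2))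
        (neg_ne_zero.2 (mul_ne_zero (mul_ne_zero (inv_ne_zero hh) hc) (pow_ne_zero 2 hh)))
        (add_mem (sm (-(2 * (h2⁻¹ * c.c01 * h2))) 2 0 2 1 2 1 _ (by decide))
          (sm (-(h2⁻¹ * c.c01)) 2 0 2 0 4 0 _ (by decide))) ?_)⟩
      simp only [mon, Algebra.smul_def, map_neg, map_mul, map_pow, map_ofNat]; ring

end Pool.Agent.P.MP_6149fc_ag.V22

end

section

/-! Step PDB1. -/

set_option autoImplicit false
set_option linter.unusedSectionVars false

namespace Pool.Agent.P.MP_6149fc_ag.V22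

open Pool.Agent.P.MP_6149fc_ag.V18
open MvPowerSeries (coeff X constantCoeff monomial)

namespace PDB1x

theorem lin {κ C : Type} [Field κ] [CommRing C] [Algebra κ C] {p : Hk C} {c : Cm κ}
    {h1 h2 k1 k2 u3 u4 u5 m3 m4 m5 : κ} {z : C} (E : p.Eqs c 0 0 1 h1 h2 0 0 0 k1 k2)
    (ez : m3 • p.a3 + m4 • p.a4 + m5 • p.a5 = z) (hu3 : u3 = (h1 + k2) * k2 - h2 * k1)
    (hu4 : u4 = -(1 + k1) * k2) (hu5 : u5 = (1 + k1) * k1)
    (hm : m3 * u3 + m4 * u4 + m5 * u5 = 1) :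
    p.a2 = -(h1 • p.a3) - h2 • p.a4 - p.K1 c ∧
    p.a3 - u3 • z = (m4 * k2 - m5 * k1) • p.K2 c + (m5 * (h1 + k2) - m4 * h2) • p.K3 c ∧
    p.a4 - u4 • z = (-m3 * k2) • p.K2 c + (m3 * h2 - m5 * (1 + k1)) • p.K3 c ∧
    p.a5 - u5 • z = (m3 * k1) • p.K2 c + (m4 * (1 + k1) - m3 * (h1 + k2)) • p.K3 c ∧
    u5 • p.a4 - u4 • p.a5 = -((1 + k1) • p.K3 c) := by
  obtain ⟨e1, e2, e3⟩ := E
  have hm' : algebraMap κ C (m3 * u3 + m4 * u4 + m5 * u5) = 1 := by rw [hm, map_one]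
  rw [eq_neg_of_add_eq_zero_right e1, eq_neg_of_add_eq_zero_right e2,
    eq_neg_of_add_eq_zero_right e3]
  subst hu3 hu4 hu5 ez
  simp only [Algebra.smul_def, map_add, map_sub, map_mul, map_neg, map_one, map_zero] at hm' ⊢
  refine ⟨by ring, ?_, ?_, ?_, by ring⟩
  · linear_combination (-p.a3) * hm'
  · linear_combination (-p.a4) * hm'
  · linear_combination (-p.a5) * hm'

theorem dx_eq {κ C : Type} [Field κ] [CommRing C] [Algebra κ C] (p : Hk C) (u2 u3 u4 u5 : κ)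
    (z : C) : p.dx u2 u3 u4 u5 =
      -((p.a2 - u2 • z) * (u5 • (p.a1 * p.a3) - u4 • (p.a1 * p.a4) +
        (u3 • p.q24 + u4 • (p.a2 * p.a3) - u5 • (p.a2 * p.a2)))) +
      (p.a3 - u3 • z) * (u5 • (p.a0 * p.a3) - u4 • (p.a0 * p.a4) +
        (u2 • p.q24 + u4 • (p.a1 * p.a3) - u5 • (p.a1 * p.a2))) -
      (p.a4 - u4 • z) * (u5 • (p.a0 * p.a2) - u3 • (p.a0 * p.a4) +
        (u2 • p.q14 + u3 • (p.a1 * p.a3))) +
      (p.a5 - u5 • z) * (u4 • (p.a0 * p.a2) - u3 • (p.a0 * p.a3) +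
        (u2 • p.q13 + u3 • (p.a1 * p.a2))) +
      p.a1 * p.a1 * (u5 • p.a4 - u4 • p.a5) := by
  simp only [Hk.dx, Hk.d012, Hk.d013, Hk.d023, Hk.d123, Hk.q24, Hk.q14, Hk.q13, Algebra.smul_def]
  ring

end PDB1x

theorem p_PDB1 :
    S_PDB1 := by
  intro κ _ U p c h1 h2 k1 k2 u3 u4 u5 m3 m4 m5 hU h E e0 e1 ez hu3 hu4 hu5 hm hk hρ hB
  let w : Fin 3 → ℕ := ![2, 3, 5]
  have hw : First A_db w := by decide
  obtain ⟨r2, r3, r4, r5, r45⟩ := PDB1x.lin E ez hu3 hu4 hu5 hm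
  obtain ⟨B, eB⟩ : ∃ B, B = c.c01 * u3 + c.c02 * u4 + c.c03 * u5 := ⟨_, rfl⟩
  obtain ⟨ρ, eρ⟩ : ∃ ρ, ρ = k2 ^ 2 - h1 * k1 * k2 + h2 * k1 ^ 2 := ⟨_, rfl⟩
  obtain ⟨u2, hu2⟩ : ∃ u2, u2 = -h1 * u3 - h2 * u4 := ⟨_, rfl⟩
  rw [← eB] at hB
  rw [← eρ] at hρ
  have l0 : Ld w 2 p.a0 (X 0) := (Ld.X 0).congr e0 rfl
  have l1 : Ld w 3 p.a1 (X 1) := (Ld.X 1).congr e1 rfl
  have hz : Hm w 5 (X 2 : PS κ) := Hm.X 2
  have step : ∀ n, n ≤ 5 → Ge w n (p.K1 c) → Ge w n (p.K2 c) → Ge w n (p.K3 c) →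
      p.GeA w 2 3 n n n n := fun n hn g1 g2 g3 => by
    have gz := hz.ge.mono hn
    have a3 : Ge w n p.a3 :=
      ((gz.smul u3).add ((g2.smul _).add (g3.smul _))).congr (eq_add_of_sub_eq' r3)
    have a4 : Ge w n p.a4 :=
      ((gz.smul u4).add ((g2.smul _).add (g3.smul _))).congr (eq_add_of_sub_eq' r4)
    have a5 : Ge w n p.a5 :=
      ((gz.smul u5).add ((g2.smul _).add (g3.smul _))).congr (eq_add_of_sub_eq' r5)
    exact ⟨l0.ge, l1.ge, (((a3.smul _).neg.sub (a4.smul _)).sub g1).congr r2, a3, a4, a5⟩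
  have G2 : p.GeA w 2 2 2 2 2 2 := h.geA (by decide)
  have G4 := step 4 (by decide) (G2.K1 c (by decide)) (G2.K2 c (by decide)) (G2.K3 c (by decide))
  have G := step 5 (by decide) (G4.K1 c (by decide)) (G4.K2 c (by decide)) (G4.K3 c (by decide))
  have g1 : Ge w 6 (p.K1 c) := G.K1 c (by decide)
  have g2 : Ge w 6 (p.K2 c) := G.K2 c (by decide)
  have g3 : Ge w 8 (p.K3 c) := G.K3 c (by decide)
  have g3' : Ge w 6 (p.K3 c) := g3.mono (by decide)
  have l3 : Ld w 5 p.a3 (u3 • X 2) := ld_of_ge (hz.smul _) (((g2.smul _).add (g3'.smul _)).congr r3)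
  have l4 : Ld w 5 p.a4 (u4 • X 2) := ld_of_ge (hz.smul _) (((g2.smul _).add (g3'.smul _)).congr r4)
  have l5 : Ld w 5 p.a5 (u5 • X 2) := ld_of_ge (hz.smul _) (((g2.smul _).add (g3'.smul _)).congr r5)
  have l2 : Ld w 5 p.a2 (u2 • X 2) :=
    (((l3.smul h1).neg.sub (l4.smul h2)).sub_ge g1).congr r2 (by
      simp only [hu2, Algebra.smul_def, map_sub, map_mul, map_neg]; ring)
  -- the quadrics
  have q02 : Ld w 6 p.q02 (-(X 1 * X 1)) :=
    ((l1.mul l1).neg.add_ge (G.g0.mul G.g2)).congr (by rw [Hk.q02]; ring) rfl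
  have q03 : Ld w 7 p.q03 (X 0 * u3 • X 2) := (l0.mul l3).sub_ge (G.g1.mul G.g2)
  have q04 : Ld w 7 p.q04 (X 0 * u4 • X 2) :=
    (l0.mul l4).sub_ge ((G.g2.pow 2).mono (by decide))
  have q05 : Ld w 7 p.q05 (X 0 * u5 • X 2) := (l0.mul l5).sub_ge (G.g2.mul' G.g3 (by decide))
  have q13 : Ld w 8 p.q13 (X 1 * u3 • X 2) :=
    (l1.mul l3).sub_ge ((G.g2.pow 2).mono (by decide))
  have q14 : Ld w 8 p.q14 (X 1 * u4 • X 2) := (l1.mul l4).sub_ge (G.g2.mul' G.g3 (by decide))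
  have q15 : Ld w 8 p.q15 (X 1 * u5 • X 2) :=
    (l1.mul l5).sub_ge ((G.g3.pow 2).mono (by decide))
  have q35 : Ld w 10 p.q35 ((-((1 + k1) * ρ)) • mon κ 0 0 2) :=
    ((l3.mul l5).sub (l4.pow 2)).congr rfl (by
      simp only [eρ, hu3, hu4, hu5, mon, Algebra.smul_def, map_add, map_sub, map_mul, map_neg,
        map_pow, map_one]
      ring)
  have K1 : Ld w 6 (p.K1 c) (c.c01 • -(X 1 * X 1)) :=
    (((((q02.smul _).add_ge ((G.q03 (by decide)).smul _)).add_ge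
      (((G.q04 (by decide)).sub (G.q13 (by decide))).smul _)).add_ge
      ((G.q13 (by decide)).smul _)).add_ge ((G.q14 (by decide)).smul _)).add_ge
      ((G.q24 (by decide)).smul _)
  have K2 : Ld w 7 (p.K2 c) (B • (X 0 * X 2)) :=
    ((((((q03.smul _).add (q04.smul _)).add (q05.smul _)).add_ge
      ((G.q14 (by decide)).smul _)).add_ge ((G.q15 (by decide)).smul _)).add_ge
      ((G.q25 (by decide)).smul _)).congr rfl (by
      simp only [eB, Algebra.smul_def, map_add, map_mul]; ring)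
  have K3 : Ld w 8 (p.K3 c) (B • (X 1 * X 2)) :=
    ((((((q13.smul _).add (q14.smul _)).add ((q15.sub_ge (G.q24 (by decide))).smul _)).add_ge
      ((G.q24 (by decide)).smul _)).add_ge ((G.q25 (by decide)).smul _)).add_ge
      ((G.q35 (by decide)).smul _)).congr rfl (by
      simp only [eB, Algebra.smul_def, map_add, map_mul]; ring)
  have d3 : Ld w 7 (p.a3 - u3 • X 2) _ := ((K2.smul _).add_ge (g3.smul _)).congr r3 rfl
  have d4 : Ld w 7 (p.a4 - u4 • X 2) _ := ((K2.smul _).add_ge (g3.smul _)).congr r4 rfl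
  have d5 : Ld w 7 (p.a5 - u5 • X 2) _ := ((K2.smul _).add_ge (g3.smul _)).congr r5 rfl
  have d2 : Ld w 6 (p.a2 - u2 • X 2) _ :=
    ((K1.neg.sub_ge (d3.ge.smul h1)).sub_ge (d4.ge.smul h2)).congr (by
      rw [r2]
      simp only [hu2, Algebra.smul_def, map_sub, map_mul, map_neg]
      ring) rfl
  -- the sections
  have R0 : Ld w 9 (p.RB c 1 h1 h2 0 k1 k2 p.a0 p.a1)
      ((-B) • mon κ 2 0 1 + (-((1 + k1) * c.c01)) • mon κ 0 3 0) :=
    ((((K1.mul (l1.smul (1 + k1))).sub (K2.mul l0)).add_ge (K2.ge.mul (l1.ge.smul k2))).sub_ge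
      (g3.mul ((l0.ge.smul (h1 + k2)).add ((l1.ge.mono (by decide)).smul h2)))).congr (by
        simp only [Hk.RB, Algebra.smul_def, map_one, map_zero]; ring) (by
        simp only [mon, Algebra.smul_def, map_mul, map_neg]; ring)
  have d123 : Ld w 13 p.d123 ((-((1 + k1) * ρ)) • mon κ 0 1 2) :=
    (((l1.mul q35).sub_ge (G.g2.mul' (G.q25 (n := 10) (by decide)) (by decide))).add_ge
      (G.g3.mul' (G.q24 (n := 10) (by decide)) (by decide))).congr rfl (by
        simp only [mon, Algebra.smul_def]; ring)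
  have d012 : Ld w 11 p.d012 (-(X 1 * (X 1 * u4 • X 2))) :=
    (((l1.mul q14).neg.add_ge (G.g0.mul (G.q24 (n := 10) (by decide)))).add_ge
      (G.g2.mul' (G.q13 (n := 8) (by decide)) (by decide))).congr (by
        simp only [Hk.d012, Hk.q14, Hk.q24, Hk.q13]; ring) rfl
  have d013 : Ld w 11 p.d013 (-(X 1 * (X 1 * u5 • X 2))) :=
    (((l1.mul ((l1.mul l5).sub_ge (G.g2.mul' G.g4 (by decide)))).neg.add_ge
      (G.g0.mul (G.q25 (n := 10) (by decide)))).add_ge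
      (G.g3.mul' (G.q13 (n := 8) (by decide)) (by decide))).congr (by
        simp only [Hk.d013, Hk.q25, Hk.q13]; ring) rfl
  have T : Ld w 11 (k2 • p.d012 - (h2 * k1 - h1 * k2) • p.d013) (((1 + k1) * ρ) • mon κ 0 2 1) :=
    ((d012.smul _).sub (d013.smul _)).congr rfl (by
      simp only [eρ, hu4, hu5, mon, Algebra.smul_def, map_add, map_sub, map_mul, map_neg,
        map_pow, map_one]
      ring)
  have M1 := (((l1.mul l3).smul u5).sub ((l1.mul l4).smul u4)).add_ge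
    ((((G.q24 (by decide)).smul u3).add ((G.g2.mul' G.g3 (by decide)).smul u4)).sub
      ((G.g2.mul' G.g2 (by decide)).smul u5))
  have M2 := (((l0.mul l3).smul u5).sub ((l0.mul l4).smul u4)).add_ge
    ((((G.q24 (by decide)).smul u2).add ((G.g1.mul' G.g3 (by decide)).smul u4)).sub
      ((G.g1.mul' G.g2 (by decide)).smul u5))
  have M3 := (((l0.mul l2).smul u5).sub ((l0.mul l4).smul u3)).add_ge
    (((G.q14 (by decide)).smul u2).add ((G.g1.mul' G.g3 (by decide)).smul u3))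
  have M4 := (((l0.mul l2).smul u4).sub ((l0.mul l3).smul u3)).add_ge
    (((G.q13 (by decide)).smul u2).add ((G.g1.mul' G.g2 (by decide)).smul u3))
  have M5 : Ld w 8 (u5 • p.a4 - u4 • p.a5) _ := (K3.smul (1 + k1)).neg.congr r45 rfl
  have hm' : algebraMap κ (PS κ) (m3 * u3 + m4 * u4 + m5 * u5) = 1 := by rw [hm, map_one]
  have D : Ld w 14 (p.dx u2 u3 u4 u5)
      ((B * ρ) • mon κ 2 0 2 + ((1 + k1) * (c.c01 * ρ - B)) • mon κ 0 3 1) :=
    (((((d2.mul M1).neg.add (d3.mul M2)).sub (d4.mul M3)).add (d5.mul M4)).add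
      ((l1.mul l1).mul M5)).congr (PDB1x.dx_eq p u2 u3 u4 u5 (X 2)) (by
        simp only [eρ, hu2, hu3, hu4, hu5, mon, Algebra.smul_def, map_add, map_sub, map_mul,
          map_neg, map_pow, map_one] at hm' ⊢
        linear_combination (-(algebraMap κ (PS κ) B * X 0 ^ 2 * X 2 ^ 2 *
          (algebraMap κ (PS κ) k2 ^ 2 - algebraMap κ (PS κ) h1 * algebraMap κ (PS κ) k1 *
            algebraMap κ (PS κ) k2 + algebraMap κ (PS κ) h2 * algebraMap κ (PS κ) k1 ^ 2))) * hm')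
  have hP : -((1 + k1) * ρ) ≠ 0 := neg_ne_zero.2 (mul_ne_zero hk hρ)
  intro q hq
  simp only [P_db1, List.mem_cons, List.not_mem_nil, or_false] at hq
  rcases hq with rfl | rfl | rfl | rfl | rfl | rfl
  · refine ⟨_, h.m02, q02.init hw (init_of (t := -1) (e := 0) (by simp) (zero_mem _) ?_)⟩
    simp only [mon, Algebra.smul_def, map_neg, map_one]; ring
  · exact ⟨_, (h.mRC E).1, R0.init hw (init_of (neg_ne_zero.2 hB)
      (Submodule.smul_mem _ _ (mon_gt (by decide))) rfl)⟩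
  · exact ⟨_, h.m35, q35.init hw ((init_mon 0 0 2).smul hP)⟩
  · exact ⟨_, h.m123, d123.init hw ((init_mon 0 1 2).smul hP)⟩
  · exact ⟨_, h.mdx _ _ _ _, D.init hw (init_of (mul_ne_zero hB hρ)
      (Submodule.smul_mem _ _ (mon_gt (by decide))) rfl)⟩
  · have i1 : LdIn w 14 (U 1) _ := ⟨_, h.mdx _ _ _ _, D⟩
    have i2 : LdIn w 6 (U 1) _ := ⟨_, h.m02, q02⟩
    have i3 : LdIn w 9 (U 1) _ := ⟨_, (h.mRC E).1, R0⟩
    have i4 : LdIn w 11 (U 1) _ :=
      ⟨_, sub_mem (Submodule.smul_mem _ _ h.m012) (Submodule.smul_mem _ _ h.m013), T⟩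
    refine (((i1.mul hU i2).smul (1 + k1)).sub (i3.mul hU i4)).pt hw
      (init_of (t := (1 + k1) ^ 2 * B) (e := 0) (mul_ne_zero (pow_ne_zero 2 hk) hB) (zero_mem _) ?_)
    simp only [mon, Algebra.smul_def, map_sub, map_mul, map_neg, map_pow]
    ring

end Pool.Agent.P.MP_6149fc_ag.V22

end

section

/-! Step PDB2. -/

set_option autoImplicit false
set_option linter.unusedSectionVars false

namespace Pool.Agent.P.MP_6149fc_ag.V22

open Pool.Agent.P.MP_6149fc_ag.V18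
open MvPowerSeries (coeff X constantCoeff monomial)

theorem p_PDB2 :
    S_PDB2 := by
  intro κ _ U p c h1 h2 k2 h E e0 e1 e3 hr hc
  let w : Fin 3 → ℕ := ![2, 3, 5]
  have hw : First A_db w := by decide
  set r : κ := (h1 + k2) * k2 + h2 with hrdef
  have l0 : Ld w 2 p.a0 (X 0) := (Ld.X 0).congr e0 rfl
  have l1 : Ld w 3 p.a1 (X 1) := (Ld.X 1).congr e1 rfl
  have l3 : Ld w 5 p.a3 (X 2) := (Ld.X 2).congr e3 rfl
  have E1 := E.e1
  have E2 := E.e2
  have E3 := E.e3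
  have s5 : r • p.a5 = -p.K2 c - (h1 + k2) • p.K3 c := by
    simp only [hrdef, Algebra.smul_def, map_add, map_mul, map_neg, map_one, map_zero] at E2 E3 ⊢
    linear_combination E2 + (algebraMap κ (PS κ) h1 + algebraMap κ (PS κ) k2) * E3
  have s4 : p.a4 = k2 • p.a5 + p.K3 c := by
    simp only [Algebra.smul_def, map_add, map_mul, map_neg, map_one, map_zero] at E3 ⊢
    linear_combination -E3
  have s2 : p.a2 = -(h1 • p.a3) - h2 • p.a4 - p.K1 c := by
    simp only [Algebra.smul_def, map_add, map_mul, map_neg, map_one, map_zero] at E1 ⊢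
    linear_combination E1
  have step : ∀ n m : ℕ, m ≤ 5 → m ≤ n → Ge w m (p.K1 c) → Ge w n (p.K2 c) → Ge w n (p.K3 c) →
      p.GeA w 2 3 m 5 n n := by
    intro n m hm hmn a b d
    have g5 : Ge w n p.a5 := ge_of_smul hr ((b.neg.sub (d.smul _)).congr s5)
    have g4 : Ge w n p.a4 := ((g5.smul _).add d).congr s4
    have g2 : Ge w m p.a2 :=
      (((((l3.ge.mono hm).smul _).neg).sub ((g4.mono hmn).smul _)).sub a).congr s2
    exact ⟨l0.ge, l1.ge, g2, l3.ge, g4, g5⟩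
  have G0 := h.geA (w := w) (n := 2) (by decide)
  have G1 : p.GeA w 2 3 2 5 2 2 := ⟨l0.ge, l1.ge, G0.g2, l3.ge, G0.g4, G0.g5⟩
  have G2 := step 4 4 (by decide) (by decide) (G1.K1 c (by decide)) (G1.K2 c (by decide))
    (G1.K3 c (by decide))
  have G3 := step 6 5 (by decide) (by decide) (G2.K1 c (by decide)) (G2.K2 c (by decide))
    (G2.K3 c (by decide))
  have G := step 7 5 (by decide) (by decide) (G3.K1 c (by decide)) (G3.K2 c (by decide))
    (G3.K3 c (by decide))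
  have gK3 : Ge w 8 (p.K3 c) := G.K3 c (by decide)
  have lq03 : Ld w 7 p.q03 (X 0 * X 2) := (l0.mul l3).sub_ge (G.g1.mul G.g2)
  have lK2 : Ld w 7 (p.K2 c) (c.c01 • (X 0 * X 2)) :=
    (((((lq03.smul c.c01).add_ge ((G.q04 (by decide)).smul c.c02)).add_ge
      ((G.q05 (by decide)).smul c.c03)).add_ge ((G.q14 (by decide)).smul c.c12)).add_ge
      ((G.q15 (by decide)).smul c.c13)).add_ge ((G.q25 (by decide)).smul c.c23)
  have l5 : Ld w 7 p.a5 (r⁻¹ • -(c.c01 • (X 0 * X 2))) :=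
    ld_of_smul hr ((lK2.neg.sub_ge (gK3.smul _)).congr s5 rfl)
  have lq02 : Ld w 6 p.q02 (-(X 1 ^ 2)) :=
    ((l1.pow 2).neg.add_ge (G.g0.mul G.g2)).congr (by rw [Hk.q02]; ring) rfl
  have lR : Ld w 9 (p.RB c 1 h1 h2 0 (-1) k2 p.a0 p.a1) (-(c.c01 • (X 0 * X 2) * X 0)) :=
    (((lK2.mul l0).neg.add_ge (lK2.ge.mul (G.g1.smul k2))).sub_ge
      (gK3.mul ((G.g0.smul (h1 + k2)).add ((G.g1.mono (by decide)).smul h2)))).congr
      (by simp only [Hk.RB, Algebra.smul_def, map_add, map_neg, map_one, map_zero]; ring) rfl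
  have lq24 : Ld w 10 p.q24 (-(X 2 ^ 2)) :=
    ((l3.pow 2).neg.add_ge (G.g2.mul' G.g4 (by decide))).congr (by rw [Hk.q24]; ring) rfl
  have l013 : Ld w 13 p.d013 (X 2 * (X 1 * X 2) - X 1 * (X 1 * (r⁻¹ • -(c.c01 • (X 0 * X 2))))) :=
    (((((l3.mul (l1.mul l3)).sub (l1.mul (l1.mul l5))).add_ge
      (G.g0.mul (G.q25 (n := 12) (by decide)))).add_ge
      (G.g1.mul' (G.g2.mul G.g4) (by decide))).sub_ge
      (G.g3.mul' (G.g2.mul G.g2) (by decide))).congr (by rw [Hk.d013, Hk.q25]; ring) rfl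
  have l023 : Ld w 14 p.d023 (X 0 * (X 2 * (r⁻¹ • -(c.c01 • (X 0 * X 2))))) :=
    ((((l0.mul (l3.mul l5)).sub_ge (G.g0.mul' (G.g4.mul G.g4) (by decide))).sub_ge
      (G.g2.mul (ge_q (n := 10) G.g1 G.g5 G.g2 G.g4 (by decide)))).add_ge
      (G.g3.mul (G.q14 (n := 10) (by decide)))).congr (by rw [Hk.d023, Hk.q14]; ring) rfl
  have l123 : Ld w 15 p.d123 (X 1 * (X 2 * (r⁻¹ • -(c.c01 • (X 0 * X 2)))) - X 2 * (X 2 * X 2)) :=
    (((((l1.mul (l3.mul l5)).sub (l3.mul (l3.mul l3))).sub_ge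
      (G.g1.mul' (G.g4.mul G.g4) (by decide))).sub_ge
      (G.g2.mul' (G.q25 (n := 12) (by decide)) (by decide))).add_ge
      (G.g3.mul' (G.g2.mul G.g4) (by decide))).congr (by rw [Hk.d123, Hk.q25]; ring) rfl
  have ht : r⁻¹ * c.c01 ≠ 0 := mul_ne_zero (inv_ne_zero hr) hc
  intro q hq
  simp only [P_db2, List.mem_cons, List.not_mem_nil, or_false] at hq
  rcases hq with rfl | rfl | rfl | rfl | rfl | rfl
  · refine ⟨_, h.m02, lq02.init hw (init_of (t := -1) (e := 0) (by simp) (zero_mem _) ?_)⟩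
    simp only [mon, Algebra.smul_def, map_neg, map_one]; ring
  · refine ⟨_, (h.mRC E).1, lR.init hw (init_of (t := -c.c01) (e := 0) (neg_ne_zero.2 hc)
      (zero_mem _) ?_)⟩
    simp only [mon, Algebra.smul_def, map_neg, map_one]; ring
  · refine ⟨_, h.m24, lq24.init hw (init_of (t := -1) (e := 0) (by simp) (zero_mem _) ?_)⟩
    simp only [mon, Algebra.smul_def, map_neg, map_one]; ring
  · refine ⟨_, h.m013, l013.init hw (init_of (t := r⁻¹ * c.c01) (e := mon κ 0 1 2) ht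
      (mon_gt (by decide)) ?_)⟩
    simp only [mon, Algebra.smul_def, map_neg, map_one, map_mul]; ring
  · refine ⟨_, h.m023, l023.init hw (init_of (t := -(r⁻¹ * c.c01)) (e := 0) (neg_ne_zero.2 ht)
      (zero_mem _) ?_)⟩
    simp only [mon, Algebra.smul_def, map_neg, map_one, map_mul]; ring
  · refine ⟨_, h.m123, l123.init hw (init_of (t := -(r⁻¹ * c.c01)) (e := -mon κ 0 0 3)
      (neg_ne_zero.2 ht) (neg_mem (mon_gt (by decide))) ?_)⟩
    simp only [mon, Algebra.smul_def, map_neg, map_one, map_mul]; ring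

end Pool.Agent.P.MP_6149fc_ag.V22

end
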