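import Pool.Agent.P.MP_6149fc_ag.V22.IfaceK

section

/-! Step GEN. -/

set_option autoImplicit false
set_option linter.unusedSectionVars false

namespace Pool.Agent.P.MP_6149fc_ag.V22

open Pool.Agent.P.MP_6149fc_ag.V18
open MvPowerSeries (coeff X constantCoeff monomial)

namespace GENx

theorem aux {κ : Type} [Field κ] {n N : ℕ} {f g F : Polynomial κ} (hf : f.natDegree ≤ n)
    (hg : g.natDegree ≤ n) (h0 : f.coeff n ≠ 0) (hc : IsCoprime f g) (hF : F.natDegree ≤ N)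
    (h1 : n ≤ N) (h2 : 2 * n ≤ N + 1) :
    ∃ u v : Polynomial κ, u.natDegree ≤ N - n ∧ v.natDegree ≤ N - n ∧ F = f * u + g * v := by
  have hn : f.natDegree = n := hf.antisymm (Polynomial.le_natDegree_of_ne_zero h0)
  have hf0 : f ≠ 0 := by rintro rfl; exact h0 rfl
  obtain ⟨a, b, hab⟩ := hc
  have hd := EuclideanDomain.div_add_mod (b * F) f
  have hv : (b * F % f).natDegree ≤ N - n := by
    by_cases hz : b * F % f = 0
    · rw [hz]; exact Nat.zero_le _
    · have := Polynomial.natDegree_lt_natDegree hz (Polynomial.degree_mod_lt (b * F) hf0)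
      omega
  have e : F = f * (a * F + g * (b * F / f)) + g * (b * F % f) := by
    linear_combination -F * hab - g * hd
  refine ⟨_, _, ?_, hv, e⟩
  generalize a * F + g * (b * F / f) = u at e
  by_cases hu : u = 0
  · rw [hu]; exact Nat.zero_le _
  have h3 : (f * u).natDegree ≤ N := by
    rw [show f * u = F - g * (b * F % f) by linear_combination -e]
    refine (Polynomial.natDegree_sub_le _ _).trans (max_le hF ?_)
    exact Polynomial.natDegree_mul_le.trans (by omega)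
  rw [Polynomial.natDegree_mul hf0 hu] at h3
  omega

end GENx

theorem p_GEN :
    S_GEN := by
  intro κ _ _ n N f g F hf hg h0 hr hF h1 h2
  have hc : IsCoprime f g :=
    (Polynomial.isCoprime_iff_aeval_ne_zero_of_isAlgClosed κ κ f g).2 (by simpa using hr)
  rcases h0 with h0 | h0
  · exact GENx.aux hf hg h0 hc hF h1 h2
  · obtain ⟨u, v, hu, hv, e⟩ := GENx.aux hg hf h0 hc.symm hF h1 h2
    exact ⟨v, u, hv, hu, e.trans (add_comm _ _)⟩

end Pool.Agent.P.MP_6149fc_ag.V22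

end

section

/-! Step APOL. -/

set_option autoImplicit false
set_option linter.unusedSectionVars false

namespace Pool.Agent.P.MP_6149fc_ag.V22

open Pool.Agent.P.MP_6149fc_ag.V18
open MvPowerSeries (coeff X constantCoeff monomial)

namespace APOLx

variable {κ : Type} [Field κ]

theorem ext (φ : Polynomial κ →ₗ[κ] κ) (f : Polynomial κ) (n N : ℕ)
    (h : ∀ i, i + n ≤ N → φ (f * Polynomial.X ^ i) = 0) (w : Polynomial κ)
    (hw : w.natDegree + n ≤ N) : φ (f * w) = 0 := by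
  rw [w.as_sum_range_C_mul_X_pow, Finset.mul_sum, map_sum]
  refine Finset.sum_eq_zero fun i hi => ?_
  have hi' : i + n ≤ N := by
    have := Finset.mem_range.mp hi
    omega
  have e : f * (Polynomial.C (w.coeff i) * Polynomial.X ^ i)
      = w.coeff i • (f * Polynomial.X ^ i) := by
    rw [Polynomial.smul_eq_C_mul]; ring
  rw [e, map_smul, h i hi', smul_zero]

theorem top (φ : Polynomial κ →ₗ[κ] κ) (f v : Polynomial κ) (n N d : ℕ)
    (hf : f.natDegree ≤ n) (hfn : f.coeff n ≠ 0) (hv : v.natDegree ≤ d) (hdn : d + n ≤ N)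
    (hdN : d + 1 ≤ N) (h1 : ∀ i, i + n ≤ N → φ (f * Polynomial.X ^ i) = 0)
    (h2 : ∀ i, i + (d + 1) ≤ N → φ (v * Polynomial.X ^ i) = 0) :
    φ (v * Polynomial.X ^ (N - d)) = 0 := by
  obtain ⟨m, hm⟩ : ∃ m, N - d = m + n := ⟨N - d - n, by omega⟩
  have e1 : φ (f * (v * Polynomial.X ^ m)) = 0 := by
    refine ext φ f n N h1 _ ?_
    have h3 : (v * Polynomial.X ^ m).natDegree ≤ d + m :=
      Polynomial.natDegree_mul_le.trans (add_le_add hv (Polynomial.natDegree_X_pow_le m))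
    omega
  set r : Polynomial κ := f * Polynomial.X ^ m
    - Polynomial.C (f.coeff n) * Polynomial.X ^ (m + n) with hr
  have hrd : r.natDegree ≤ m + n - 1 := by
    rw [Polynomial.natDegree_le_iff_coeff_eq_zero]
    intro k hk
    rw [hr, Polynomial.coeff_sub, Polynomial.coeff_mul_X_pow', Polynomial.coeff_C_mul_X_pow]
    have hk1 : m ≤ k := by omega
    rw [if_pos hk1]
    by_cases hk2 : k = m + n
    · rw [if_pos hk2, hk2, Nat.add_sub_cancel_left, sub_self]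
    · rw [if_neg hk2, sub_zero]
      exact Polynomial.coeff_eq_zero_of_natDegree_lt (by omega)
  have e2 : φ (v * r) = 0 := ext φ v (d + 1) N h2 r (by omega)
  have e3 : f * (v * Polynomial.X ^ m)
      = v * r + f.coeff n • (v * Polynomial.X ^ (m + n)) := by
    rw [Polynomial.smul_eq_C_mul, hr]; ring
  rw [e3, map_add, e2, zero_add, map_smul, smul_eq_mul] at e1
  rw [hm]
  exact (mul_eq_zero.mp e1).resolve_left hfn

theorem root (φ : Polynomial κ →ₗ[κ] κ) (v p : Polynomial κ) (τ : κ) (N d : ℕ)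
    (h2 : ∀ i, i + (d + 1) ≤ N →
      φ ((Polynomial.X - Polynomial.C τ) * v * Polynomial.X ^ i) = 0)
    (hp : p.natDegree - 1 + (d + 1) ≤ N) : φ (v * p) = p.eval τ * φ v := by
  have hm : (Polynomial.X - Polynomial.C τ : Polynomial κ).Monic := Polynomial.monic_X_sub_C τ
  have e0 := Polynomial.modByMonic_add_div p (Polynomial.X - Polynomial.C τ)
  rw [Polynomial.modByMonic_X_sub_C_eq_C_eval] at e0
  have e1 : φ ((Polynomial.X - Polynomial.C τ) * v * (p /ₘ (Polynomial.X - Polynomial.C τ)))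
      = 0 := by
    refine ext φ _ (d + 1) N h2 _ ?_
    rw [Polynomial.natDegree_divByMonic p hm, Polynomial.natDegree_X_sub_C]
    exact hp
  have e2 : v * p = p.eval τ • v
      + (Polynomial.X - Polynomial.C τ) * v * (p /ₘ (Polynomial.X - Polynomial.C τ)) := by
    rw [Polynomial.smul_eq_C_mul]
    conv_lhs => rw [← e0]
    ring
  rw [e2, map_add, e1, add_zero, map_smul, smul_eq_mul]

end APOLx

theorem p_APOL :
    S_APOL := by
  intro κ _ _ n N d f g v φ hf hg hfg hev hv0 hv hdn hn hd h1 h2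
  induction d generalizing v with
  | zero =>
    intro i hi
    have hc : v = Polynomial.C (v.coeff 0) :=
      Polynomial.eq_C_of_natDegree_le_zero hv
    have hc0 : v.coeff 0 ≠ 0 := fun h => hv0 (by rw [hc, h, map_zero])
    have e := h2 i (by omega)
    rw [hc, ← Polynomial.smul_eq_C_mul, map_smul, smul_eq_mul] at e
    exact (mul_eq_zero.mp e).resolve_left hc0
  | succ d ih =>
    by_cases hvd : v.natDegree ≤ d
    · refine ih v hv0 hvd (by omega) (by omega) fun i hi => ?_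
      by_cases hi2 : i + (d + 1) ≤ N
      · exact h2 i hi2
      · have hi3 : i = N - d := by omega
        rw [hi3]
        rcases hfg with hfn | hgn
        · exact APOLx.top φ f v n N d hf hfn hvd (by omega) hd (fun i hi => (h1 i hi).1) h2
        · exact APOLx.top φ g v n N d hg hgn hvd (by omega) hd (fun i hi => (h1 i hi).2) h2
    · have hdeg : v.degree ≠ 0 := by
        intro h
        have := Polynomial.natDegree_eq_zero_iff_degree_le_zero.mpr h.le
        omega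
      obtain ⟨τ, hτ⟩ := IsAlgClosed.exists_root v hdeg
      obtain ⟨u, hu⟩ := Polynomial.dvd_iff_isRoot.mpr hτ
      have hu0 : u ≠ 0 := fun h => hv0 (by rw [hu, h, mul_zero])
      have hud : u.natDegree ≤ d := by
        have e := Polynomial.natDegree_mul (Polynomial.X_sub_C_ne_zero τ) hu0
        rw [← hu, Polynomial.natDegree_X_sub_C] at e
        omega
      rw [hu] at h2
      have key : ∀ p : Polynomial κ, p.natDegree ≤ n → p.eval τ ≠ 0 →
          (∀ i, i + n ≤ N → φ (p * Polynomial.X ^ i) = 0) → φ u = 0 := by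
        intro p hp hpτ hp1
        have e1 := APOLx.root φ u p τ N d h2 (by omega)
        have e2 := APOLx.ext φ p n N hp1 u (by omega)
        rw [mul_comm, e1] at e2
        exact (mul_eq_zero.mp e2).resolve_left hpτ
      have hφu : φ u = 0 := by
        rcases hev τ with h | h
        · exact key f hf h fun i hi => (h1 i hi).1
        · exact key g hg h fun i hi => (h1 i hi).2
      refine ih u hu0 hud (by omega) (by omega) fun i hi => ?_
      have e1 := APOLx.root φ u (Polynomial.X ^ i) τ N d h2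
        (by rw [Polynomial.natDegree_X_pow]; omega)
      rw [e1, hφu, mul_zero]

end Pool.Agent.P.MP_6149fc_ag.V22

end

section

/-! Step SCH6. -/

set_option autoImplicit false
set_option linter.unusedSectionVars false

namespace Pool.Agent.P.MP_6149fc_ag.V22

open Pool.Agent.P.MP_6149fc_ag.V18
open MvPowerSeries (coeff X constantCoeff monomial)

namespace SCH6x

open Polynomial in
/-- a quartic from its coefficients -/
noncomputable def q4 {κ : Type} [Field κ] (a b c d e : κ) : Polynomial κ :=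
  C a + C b * Polynomial.X + C c * Polynomial.X ^ 2 + C d * Polynomial.X ^ 3 +
    C e * Polynomial.X ^ 4

lemma q4_deg {κ : Type} [Field κ] (a b c d e : κ) : (q4 a b c d e).natDegree ≤ 4 := by
  unfold q4
  compute_degree

lemma q4_deg3 {κ : Type} [Field κ] (a b c d : κ) : (q4 a b c d 0).natDegree ≤ 3 := by
  unfold q4
  rw [map_zero, zero_mul, add_zero]
  compute_degree

lemma q4_phi {κ : Type} [Field κ] (φ : Polynomial κ →ₗ[κ] κ) (a b c d e : κ) (i : ℕ) :
    φ (q4 a b c d e * Polynomial.X ^ i) = a * φ (Polynomial.X ^ i) + b * φ (Polynomial.X ^ (i + 1)) +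
      c * φ (Polynomial.X ^ (i + 2)) + d * φ (Polynomial.X ^ (i + 3)) +
      e * φ (Polynomial.X ^ (i + 4)) := by
  have : q4 a b c d e * Polynomial.X ^ i = a • Polynomial.X ^ i + b • Polynomial.X ^ (i + 1) +
      c • Polynomial.X ^ (i + 2) + d • Polynomial.X ^ (i + 3) + e • Polynomial.X ^ (i + 4) := by
    simp only [q4, Polynomial.smul_eq_C_mul]
    ring
  simp only [this, map_add, map_smul, smul_eq_mul]

end SCH6x

open SCH6x in
theorem p_SCH6 (hAPOL : S_APOL) :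
    S_SCH6 := by
  intro κ _ _ g0 g1 g2 g3 g4 h0 h1 h2 h3 h4 hN
  let A : Matrix (Fin 6) (Fin 7) κ := !![g0, g1, g2, g3, g4, 0, 0; 0, g0, g1, g2, g3, g4, 0;
    0, 0, g0, g1, g2, g3, g4; h0, h1, h2, h3, h4, 0, 0; 0, h0, h1, h2, h3, h4, 0;
    0, 0, h0, h1, h2, h3, h4]
  obtain ⟨F, hF, F0⟩ := Submodule.exists_mem_ne_zero_of_ne_bot
    (LinearMap.ker_ne_bot_of_finrank_lt (f := A.mulVecLin) (by simp))
  have e := fun i => congrFun (LinearMap.mem_ker.1 hF) i
  have e0 := e 0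
  have e1 := e 1
  have e2 := e 2
  have e3 := e 3
  have e4 := e 4
  have e5 := e 5
  simp [A, Matrix.mulVec, dotProduct, Fin.sum_univ_succ] at e0 e1 e2 e3 e4 e5
  refine ⟨F 0, F 1, F 2, F 3, F 4, F 5, F 6, ?_, ?_, fun hd => F0 ?_⟩
  · constructor <;> simp only [Hk.K1, Hk.K2, Hk.K3, smul_eq_mul]
    · linear_combination e0
    · linear_combination e1 + e3
    · linear_combination e4
  · constructor <;> simp only [Hk.K1, Hk.K2, Hk.K3, smul_eq_mul]
    · linear_combination e1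
    · linear_combination e2 + e4
    · linear_combination e5
  have hdet : (!![F 0, F 1, F 2, F 3; F 1, F 2, F 3, F 4; F 2, F 3, F 4, F 5;
      F 3, F 4, F 5, F 6] : Matrix (Fin 4) (Fin 4) κ).det = 0 := by
    simp only [Hk.dx, Hk.d123, Hk.d023, Hk.d013, Hk.d012, smul_eq_mul] at hd
    simp [Matrix.det_succ_row_zero, Fin.sum_univ_succ, Fin.succAbove]
    linear_combination hd
  obtain ⟨v, v0, hv⟩ := Matrix.exists_mulVec_eq_zero_iff.2 hdet
  have k0 := congrFun hv 0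
  have k1 := congrFun hv 1
  have k2 := congrFun hv 2
  have k3 := congrFun hv 3
  simp [Matrix.mulVec, dotProduct, Fin.sum_univ_succ] at k0 k1 k2 k3
  let φ : Polynomial κ →ₗ[κ] κ :=
    (Polynomial.basisMonomials κ).constr κ fun i => if h : i < 7 then F ⟨i, h⟩ else 0
  have hφ : ∀ i (h : i < 7), φ (Polynomial.X ^ i) = F ⟨i, h⟩ := fun i h => by
    have := (Polynomial.basisMonomials κ).constr_basis κ
      (fun i => if h : i < 7 then F ⟨i, h⟩ else 0) i
    rw [dif_pos h, Polynomial.coe_basisMonomials] at this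
    rw [← this, Polynomial.X_pow_eq_monomial]
  have p0 : φ (Polynomial.X ^ 0) = F 0 := hφ 0 (by norm_num)
  have p1 : φ (Polynomial.X ^ 1) = F 1 := hφ 1 (by norm_num)
  have p2 : φ (Polynomial.X ^ 2) = F 2 := hφ 2 (by norm_num)
  have p3 : φ (Polynomial.X ^ 3) = F 3 := hφ 3 (by norm_num)
  have p4 : φ (Polynomial.X ^ 4) = F 4 := hφ 4 (by norm_num)
  have p5 : φ (Polynomial.X ^ 5) = F 5 := hφ 5 (by norm_num)
  have p6 : φ (Polynomial.X ^ 6) = F 6 := hφ 6 (by norm_num)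
  have key := hAPOL κ 4 6 3 (q4 g0 g1 g2 g3 g4) (q4 h0 h1 h2 h3 h4) (q4 (v 0) (v 1) (v 2) (v 3) 0)
    φ (q4_deg _ _ _ _ _) (q4_deg _ _ _ _ _) (by simpa [q4, Polynomial.coeff_X] using hN.1)
    (fun t => by simpa [q4] using hN.2 t) (fun h => v0 (by
      have c := fun n => congrArg (Polynomial.coeff · n) h
      have c0 := c 0
      have c1 := c 1
      have c2 := c 2
      have c3 := c 3
      simp [q4, Polynomial.coeff_X] at c0 c1 c2 c3
      ext i
      fin_cases i <;> simp [c0, c1, c2, c3])) (q4_deg3 _ _ _ _) (by norm_num) (by norm_num)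
    (by norm_num) (fun i hi => by
      have : i ≤ 2 := by omega
      interval_cases i <;> simp only [q4_phi, zero_add, Nat.reduceAdd, p0, p1, p2, p3, p4, p5, p6]
      · exact ⟨by linear_combination e0, by linear_combination e3⟩
      · exact ⟨by linear_combination e1, by linear_combination e4⟩
      · exact ⟨by linear_combination e2, by linear_combination e5⟩) (fun i hi => by
      have : i ≤ 3 := by omega
      interval_cases i <;>
        simp only [q4_phi, zero_add, Nat.reduceAdd, p0, p1, p2, p3, p4, p5, p6, zero_mul]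
      · linear_combination k0
      · linear_combination k1
      · linear_combination k2
      · linear_combination k3)
  ext i
  rw [← hφ i.1 i.2]
  exact key i.1 (by omega)

end Pool.Agent.P.MP_6149fc_ag.V22

end

section

/-! Step SCH4. -/

set_option autoImplicit false
set_option linter.unusedSectionVars false

namespace Pool.Agent.P.MP_6149fc_ag.V22

open Pool.Agent.P.MP_6149fc_ag.V18
open MvPowerSeries (coeff X constantCoeff monomial)

namespace SCH4x

variable {κ : Type} [Field κ]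

/-- A cubic. -/
noncomputable def cub (a b c d : κ) : Polynomial κ :=
  Polynomial.C a + Polynomial.C b * Polynomial.X + Polynomial.C c * Polynomial.X ^ 2 +
    Polynomial.C d * Polynomial.X ^ 3

theorem cub_deg (a b c d : κ) : (cub a b c d).natDegree ≤ 3 := by
  unfold cub; compute_degree

theorem cub_deg2 (a b c : κ) : (cub a b c 0).natDegree ≤ 2 := by
  unfold cub
  rw [map_zero, zero_mul, add_zero]
  compute_degree

theorem cub_coeff (a b c d : κ) : (cub a b c d).coeff 0 = a ∧ (cub a b c d).coeff 1 = b ∧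
    (cub a b c d).coeff 2 = c ∧ (cub a b c d).coeff 3 = d := by
  simp [cub, Polynomial.coeff_X, Polynomial.coeff_C, Polynomial.coeff_X_pow]

theorem cub_eval (a b c d t : κ) : (cub a b c d).eval t = a + b * t + c * t ^ 2 + d * t ^ 3 := by
  simp [cub]

theorem exists_phi (F : ℕ → κ) : ∃ φ : Polynomial κ →ₗ[κ] κ, (∀ i, φ (Polynomial.X ^ i) = F i) ∧
    ∀ a b c d i, φ (cub a b c d * Polynomial.X ^ i) =
      a * F i + b * F (i + 1) + c * F (i + 2) + d * F (i + 3) := by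
  have h : ∀ i, (Polynomial.basisMonomials κ).constr κ F (Polynomial.X ^ i) = F i := fun i => by
    rw [← (Polynomial.basisMonomials κ).constr_basis κ F i, Polynomial.coe_basisMonomials,
      ← Polynomial.monomial_one_right_eq_X_pow]
  refine ⟨_, h, fun a b c d i => ?_⟩
  have e : cub a b c d * Polynomial.X ^ i = a • Polynomial.X ^ i + b • Polynomial.X ^ (i + 1) +
      c • Polynomial.X ^ (i + 2) + d • Polynomial.X ^ (i + 3) := by
    simp only [cub, Polynomial.smul_eq_C_mul]; ring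
  simp only [e, map_add, map_smul, h, smul_eq_mul]

end SCH4x

open SCH4x in
theorem p_SCH4 (hAPOL : S_APOL) :
    S_SCH4 := by
  intro κ _ _ g0 g1 g2 g3 h0 h1 h2 h3 hN
  obtain ⟨F, hF, hF0⟩ := (Submodule.ne_bot_iff _).1 (LinearMap.ker_ne_bot_of_finrank_lt
    (f := Matrix.mulVecLin (!![g0, g1, g2, g3, 0; 0, g0, g1, g2, g3; h0, h1, h2, h3, 0;
      0, h0, h1, h2, h3] : Matrix (Fin 4) (Fin 5) κ)) (by simp))
  have k0 := congrFun hF 0
  have k1 := congrFun hF 1
  have k2 := congrFun hF 2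
  have k3 := congrFun hF 3
  simp [Matrix.mulVec, dotProduct, Fin.sum_univ_succ] at k0 k1 k2 k3
  refine ⟨⟨0, F 0, F 1, F 2, F 3, F 4⟩, rfl, ⟨?_, ?_, ?_⟩, fun hd => hF0 ?_⟩
  · simp [Hk.K1]; linear_combination k0
  · simp [Hk.K2]; linear_combination k1 + k2
  · simp [Hk.K3]; linear_combination k3
  obtain ⟨v, hv, hv0⟩ := (Matrix.exists_mulVec_eq_zero_iff
    (M := (!![F 0, F 1, F 2; F 1, F 2, F 3; F 2, F 3, F 4] : Matrix (Fin 3) (Fin 3) κ))).2 (by
      rw [Matrix.det_fin_three]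
      simp only [Hk.d123] at hd
      simp
      linear_combination hd)
  have m0 := congrFun hv0 0
  have m1 := congrFun hv0 1
  have m2 := congrFun hv0 2
  simp [Matrix.mulVec, dotProduct, Fin.sum_univ_succ] at m0 m1 m2
  obtain ⟨φ, p1, p2⟩ := exists_phi fun i => if h : i < 5 then F ⟨i, h⟩ else 0
  have key := hAPOL κ 3 4 2 (cub g0 g1 g2 g3) (cub h0 h1 h2 h3) (cub (v 0) (v 1) (v 2) 0) φ
    (cub_deg _ _ _ _) (cub_deg _ _ _ _)
    (by rw [(cub_coeff _ _ _ _).2.2.2, (cub_coeff _ _ _ _).2.2.2]; exact hN.1)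
    (fun t => by rw [cub_eval, cub_eval]; exact hN.2 t)
    (fun e => hv (by
      obtain ⟨c0, c1, c2, -⟩ := cub_coeff (v 0) (v 1) (v 2) 0
      rw [e, Polynomial.coeff_zero] at c0 c1 c2
      funext i
      fin_cases i
      exacts [c0.symm, c1.symm, c2.symm]))
    (cub_deg2 _ _ _) (by norm_num) (by norm_num) (by norm_num)
    (fun i hi => by
      have : i ≤ 1 := by omega
      rw [p2, p2]
      interval_cases i <;> simp
      · exact ⟨by linear_combination k0, by linear_combination k2⟩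
      · exact ⟨by linear_combination k1, by linear_combination k3⟩)
    (fun i hi => by
      have : i ≤ 2 := by omega
      rw [p2]
      interval_cases i <;> simp
      · linear_combination m0
      · linear_combination m1
      · linear_combination m2)
  funext i
  have := key i (by omega)
  rw [p1] at this
  simpa using this

end Pool.Agent.P.MP_6149fc_ag.V22

end

section

/-! Step SQ0. -/

set_option autoImplicit false
set_option linter.unusedSectionVars false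

namespace Pool.Agent.P.MP_6149fc_ag.V22

open Pool.Agent.P.MP_6149fc_ag.V18
open MvPowerSeries (coeff X constantCoeff monomial)

namespace SQ0x


theorem exq {κ : Type} [Field κ] (u : Polynomial κ) (h : u.natDegree ≤ 6) :
    u = Polynomial.C (u.coeff 0) + Polynomial.C (u.coeff 1) * Polynomial.X + Polynomial.C (u.coeff
      2) * Polynomial.X ^ 2 + Polynomial.C (u.coeff 3) * Polynomial.X ^ 3 + Polynomial.C (u.coeff
      4) * Polynomial.X ^ 4 + Polynomial.C (u.coeff 5) * Polynomial.X ^ 5 + Polynomial.C (u.coeff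
      6) * Polynomial.X ^ 6 := by
  conv_lhs => rw [Polynomial.as_sum_range_C_mul_X_pow' u (show u.natDegree < 7 by omega)]
  simp [Finset.sum_range_succ]

theorem coeffs {κ : Type} [Field κ] {e0 e1 e2 e3 e4 e5 e6 e7 e8 e9 e10 : κ}
    (h : Polynomial.C e0 + Polynomial.C e1 * Polynomial.X + Polynomial.C e2 * Polynomial.X ^ 2 +
      Polynomial.C e3 * Polynomial.X ^ 3 + Polynomial.C e4 * Polynomial.X ^ 4 + Polynomial.C e5 *
      Polynomial.X ^ 5 + Polynomial.C e6 * Polynomial.X ^ 6 + Polynomial.C e7 * Polynomial.X ^ 7 +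
      Polynomial.C e8 * Polynomial.X ^ 8 + Polynomial.C e9 * Polynomial.X ^ 9 + Polynomial.C e10 *
      Polynomial.X ^ 10 = 0) :
    e0 = 0 ∧ e1 = 0 ∧ e2 = 0 ∧ e3 = 0 ∧ e4 = 0 ∧ e5 = 0 ∧ e6 = 0 ∧ e7 = 0 ∧ e8 = 0 ∧ e9 = 0 ∧ e10 = 0 := by
  refine ⟨?_, ?_, ?_, ?_, ?_, ?_, ?_, ?_, ?_, ?_, ?_⟩
  · simpa [Polynomial.coeff_X, Polynomial.coeff_C] using congrArg (fun p => p.coeff 0) h
  · simpa [Polynomial.coeff_X, Polynomial.coeff_C] using congrArg (fun p => p.coeff 1) h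
  · simpa [Polynomial.coeff_X, Polynomial.coeff_C] using congrArg (fun p => p.coeff 2) h
  · simpa [Polynomial.coeff_X, Polynomial.coeff_C] using congrArg (fun p => p.coeff 3) h
  · simpa [Polynomial.coeff_X, Polynomial.coeff_C] using congrArg (fun p => p.coeff 4) h
  · simpa [Polynomial.coeff_X, Polynomial.coeff_C] using congrArg (fun p => p.coeff 5) h
  · simpa [Polynomial.coeff_X, Polynomial.coeff_C] using congrArg (fun p => p.coeff 6) h
  · simpa [Polynomial.coeff_X, Polynomial.coeff_C] using congrArg (fun p => p.coeff 7) h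
  · simpa [Polynomial.coeff_X, Polynomial.coeff_C] using congrArg (fun p => p.coeff 8) h
  · simpa [Polynomial.coeff_X, Polynomial.coeff_C] using congrArg (fun p => p.coeff 9) h
  · simpa [Polynomial.coeff_X, Polynomial.coeff_C] using congrArg (fun p => p.coeff 10) h

theorem dec (hGEN : S_GEN) {κ : Type} [Field κ] [IsAlgClosed κ]
    {g0 g1 g2 g3 g4 h0 h1 h2 h3 h4 : κ} (hN : NoRoot4 g0 g1 g2 g3 g4 h0 h1 h2 h3 h4)
    (m0 m1 m2 m3 m4 m5 : κ) :
    ∃ u0 u1 u2 u3 u4 u5 u6 v0 v1 v2 v3 v4 v5 v6 : κ,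
      (m0 * m0 - (g0 * u0 + h0 * v0) = 0) ∧
      (m0 * m1 + m1 * m0 - (g0 * u1 + g1 * u0 + h0 * v1 + h1 * v0) = 0) ∧
      (m0 * m2 + m1 * m1 + m2 * m0 - (g0 * u2 + g1 * u1 + g2 * u0 + h0 * v2 + h1 * v1 + h2 * v0) =
        0) ∧
      (m0 * m3 + m1 * m2 + m2 * m1 + m3 * m0 - (g0 * u3 + g1 * u2 + g2 * u1 + g3 * u0 + h0 * v3 +
        h1 * v2 + h2 * v1 + h3 * v0) = 0) ∧
      (m0 * m4 + m1 * m3 + m2 * m2 + m3 * m1 + m4 * m0 - (g0 * u4 + g1 * u3 + g2 * u2 + g3 * u1 +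
        g4 * u0 + h0 * v4 + h1 * v3 + h2 * v2 + h3 * v1 + h4 * v0) = 0) ∧
      (m0 * m5 + m1 * m4 + m2 * m3 + m3 * m2 + m4 * m1 + m5 * m0 - (g0 * u5 + g1 * u4 + g2 * u3 +
        g3 * u2 + g4 * u1 + h0 * v5 + h1 * v4 + h2 * v3 + h3 * v2 + h4 * v1) = 0) ∧
      (m1 * m5 + m2 * m4 + m3 * m3 + m4 * m2 + m5 * m1 - (g0 * u6 + g1 * u5 + g2 * u4 + g3 * u3 +
        g4 * u2 + h0 * v6 + h1 * v5 + h2 * v4 + h3 * v3 + h4 * v2) = 0) ∧
      (m2 * m5 + m3 * m4 + m4 * m3 + m5 * m2 - (g1 * u6 + g2 * u5 + g3 * u4 + g4 * u3 + h1 * v6 +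
        h2 * v5 + h3 * v4 + h4 * v3) = 0) ∧
      (m3 * m5 + m4 * m4 + m5 * m3 - (g2 * u6 + g3 * u5 + g4 * u4 + h2 * v6 + h3 * v5 + h4 * v4) =
        0) ∧
      (m4 * m5 + m5 * m4 - (g3 * u6 + g4 * u5 + h3 * v6 + h4 * v5) = 0) ∧
      (m5 * m5 - (g4 * u6 + h4 * v6) = 0) := by
  obtain ⟨u, v, hu, hv, e⟩ := hGEN κ 4 10
    (Polynomial.C g0 + Polynomial.C g1 * Polynomial.X + Polynomial.C g2 * Polynomial.X ^ 2 +
      Polynomial.C g3 * Polynomial.X ^ 3 + Polynomial.C g4 * Polynomial.X ^ 4)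
    (Polynomial.C h0 + Polynomial.C h1 * Polynomial.X + Polynomial.C h2 * Polynomial.X ^ 2 +
      Polynomial.C h3 * Polynomial.X ^ 3 + Polynomial.C h4 * Polynomial.X ^ 4)
    ((Polynomial.C m0 + Polynomial.C m1 * Polynomial.X + Polynomial.C m2 * Polynomial.X ^ 2 +
      Polynomial.C m3 * Polynomial.X ^ 3 + Polynomial.C m4 * Polynomial.X ^ 4 + Polynomial.C m5 *
      Polynomial.X ^ 5) ^ 2)
    (by compute_degree) (by compute_degree)
    (by simpa [Polynomial.coeff_X, Polynomial.coeff_C] using hN.1)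
    (fun t => by simpa using hN.2 t)
    (by compute_degree) (by norm_num) (by norm_num)
  rw [exq u hu, exq v hv] at e
  refine ⟨u.coeff 0, u.coeff 1, u.coeff 2, u.coeff 3, u.coeff 4, u.coeff 5, u.coeff 6,
    v.coeff 0, v.coeff 1, v.coeff 2, v.coeff 3, v.coeff 4, v.coeff 5, v.coeff 6, coeffs ?_⟩
  simp only [map_add, map_sub, map_mul]
  linear_combination e

theorem ident {C : Type} [CommRing C] (m0 m1 m2 m3 m4 m5 g0 g1 g2 g3 g4 h0 h1 h2 h3 h4
    u0 u1 u2 u3 u4 u5 u6 v0 v1 v2 v3 v4 v5 v6 a0 a1 a2 a3 a4 a5 : C)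
    (e0 : m0 * m0 - (g0 * u0 + h0 * v0) = 0)
    (e1 : m0 * m1 + m1 * m0 - (g0 * u1 + g1 * u0 + h0 * v1 + h1 * v0) = 0)
    (e2 : m0 * m2 + m1 * m1 + m2 * m0 - (g0 * u2 + g1 * u1 + g2 * u0 + h0 * v2 + h1 * v1 + h2 *
      v0) = 0)
    (e3 : m0 * m3 + m1 * m2 + m2 * m1 + m3 * m0 - (g0 * u3 + g1 * u2 + g2 * u1 + g3 * u0 + h0 * v3
      + h1 * v2 + h2 * v1 + h3 * v0) = 0)
    (e4 : m0 * m4 + m1 * m3 + m2 * m2 + m3 * m1 + m4 * m0 - (g0 * u4 + g1 * u3 + g2 * u2 + g3 * u1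
      + g4 * u0 + h0 * v4 + h1 * v3 + h2 * v2 + h3 * v1 + h4 * v0) = 0)
    (e5 : m0 * m5 + m1 * m4 + m2 * m3 + m3 * m2 + m4 * m1 + m5 * m0 - (g0 * u5 + g1 * u4 + g2 * u3
      + g3 * u2 + g4 * u1 + h0 * v5 + h1 * v4 + h2 * v3 + h3 * v2 + h4 * v1) = 0)
    (e6 : m1 * m5 + m2 * m4 + m3 * m3 + m4 * m2 + m5 * m1 - (g0 * u6 + g1 * u5 + g2 * u4 + g3 * u3
      + g4 * u2 + h0 * v6 + h1 * v5 + h2 * v4 + h3 * v3 + h4 * v2) = 0)
    (e7 : m2 * m5 + m3 * m4 + m4 * m3 + m5 * m2 - (g1 * u6 + g2 * u5 + g3 * u4 + g4 * u3 + h1 * v6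
      + h2 * v5 + h3 * v4 + h4 * v3) = 0)
    (e8 : m3 * m5 + m4 * m4 + m5 * m3 - (g2 * u6 + g3 * u5 + g4 * u4 + h2 * v6 + h3 * v5 + h4 *
      v4) = 0)
    (e9 : m4 * m5 + m5 * m4 - (g3 * u6 + g4 * u5 + h3 * v6 + h4 * v5) = 0)
    (e10 : m5 * m5 - (g4 * u6 + h4 * v6) = 0) :
    ((m0 * m2 - g0 * u2) + (m2 * m0 - g2 * u0 - (g1 + h2) * v0 - h1 * v1)) * (a0 * a2 - a1 ^ 2) +
      ((m0 * m3 - g0 * u3) + (m3 * m0 - g3 * u0 - (g2 + h3) * v0 - h2 * v1)) * (a0 * a3 - a1 * a2)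
      + ((m0 * m4 - g0 * u4) + (m4 * m0 - g4 * u0 - (g3 + h4) * v0 - h3 * v1)) * (a0 * a4 - a2 ^
      2) + ((m1 * m3 - g1 * u3 - h0 * v4) + (m3 * m1 - g3 * (u1 - v0) - h2 * v2)) * (a1 * a3 - a2
      ^ 2) + ((m0 * m5 - g0 * u5 - h0 * u6) + (m5 * m0 - g4 * v0 - h4 * v1)) * (a0 * a5 - a2 * a3)
      + ((m1 * m4 - g1 * u4 - h0 * (v5 - u6)) + (m4 * m1 - g4 * (u1 - v0) - h3 * v2)) * (a1 * a4 -
      a2 * a3) + ((m1 * m5 - g1 * u5 - (g0 + h1) * u6 - h0 * v6) + (m5 * m1 - h4 * v2)) * (a1 * a5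
      - a3 ^ 2) + ((m2 * m4 - g2 * u4 - h1 * (v5 - u6)) + (m4 * m2 - g4 * u2 - h3 * v3)) * (a2 *
      a4 - a3 ^ 2) + ((m2 * m5 - g2 * u5 - (g1 + h2) * u6 - h1 * v6) + (m5 * m2 - h4 * v3)) * (a2
      * a5 - a3 * a4) + ((m3 * m5 - g3 * u5 - (g2 + h3) * u6 - h2 * v6) + (m5 * m3 - h4 * v4)) *
      (a3 * a5 - a4 ^ 2) = (m0 * a0 + m1 * a1 + m2 * a2 + m3 * a3 + m4 * a4 + m5 * a5) ^ 2 - (g0 *
      a0 + g1 * a1 + g2 * a2 + g3 * a3 + g4 * a4) * (u0 * a0 + (u1 - v0) * a1 + u2 * a2 + u3 * a3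
      + u4 * a4 + u5 * a5) - (h0 * a0 + (g0 + h1) * a1 + (g1 + h2) * a2 + (g2 + h3) * a3 + (g3 +
      h4) * a4 + g4 * a5) * (v0 * a0 + u6 * a5) - (h0 * a1 + h1 * a2 + h2 * a3 + h3 * a4 + h4 *
      a5) * (v1 * a0 + v2 * a1 + v3 * a2 + v4 * a3 + (v5 - u6) * a4 + v6 * a5) := by
  linear_combination - (a0 ^ 2) * e0 - (a0 * a1) * e1 - (a1 ^ 2) * e2 - (a1 * a2) * e3 - (a2 ^ 2)
    * e4 - (a2 * a3) * e5 - (a3 ^ 2) * e6 - (a3 * a4) * e7 - (a4 ^ 2) * e8 - (a4 * a5) * e9 - (a5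
    ^ 2) * e10

end SQ0x

theorem p_SQ0 (hGEN : S_GEN) :
    S_SQ0 := by
  intro κ _ _ W p c g0 g1 g2 g3 g4 h0 h1 h2 h3 h4 m hN hp hE hl
  obtain ⟨m0, m1, m2, m3, m4, m5⟩ := m
  obtain ⟨u0, u1, u2, u3, u4, u5, u6, v0, v1, v2, v3, v4, v5, v6, e0, e1, e2, e3, e4, e5, e6, e7,
    e8, e9, e10⟩ := SQ0x.dec hGEN hN m0 m1 m2 m3 m4 m5
  have hG : p.GeA w1 1 1 1 1 1 1 := hp.geA (fun j => by fin_cases j <;> simp [w1])
  have k1 : Ge w1 2 (p.K1 c) := hG.K1 c (by decide)
  have k2 : Ge w1 2 (p.K2 c) := hG.K2 c (by decide)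
  have k3 : Ge w1 2 (p.K3 c) := hG.K3 c (by decide)
  have hlin : ∀ M : Hk κ, Ge w1 1 (p.lin M) := fun M =>
    (((((hG.g0.smul _).add (hG.g1.smul _)).add (hG.g2.smul _)).add (hG.g3.smul _)).add
      (hG.g4.smul _)).add (hG.g5.smul _)
  refine ⟨_, hp.quad
    ((m0 * m2 - g0 * u2) + (m2 * m0 - g2 * u0 - (g1 + h2) * v0 - h1 * v1))
    ((m0 * m3 - g0 * u3) + (m3 * m0 - g3 * u0 - (g2 + h3) * v0 - h2 * v1))
    ((m0 * m4 - g0 * u4) + (m4 * m0 - g4 * u0 - (g3 + h4) * v0 - h3 * v1))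
    ((m1 * m3 - g1 * u3 - h0 * v4) + (m3 * m1 - g3 * (u1 - v0) - h2 * v2))
    ((m0 * m5 - g0 * u5 - h0 * u6) + (m5 * m0 - g4 * v0 - h4 * v1))
    ((m1 * m4 - g1 * u4 - h0 * (v5 - u6)) + (m4 * m1 - g4 * (u1 - v0) - h3 * v2))
    ((m1 * m5 - g1 * u5 - (g0 + h1) * u6 - h0 * v6) + (m5 * m1 - h4 * v2))
    ((m2 * m4 - g2 * u4 - h1 * (v5 - u6)) + (m4 * m2 - g4 * u2 - h3 * v3))
    ((m2 * m5 - g2 * u5 - (g1 + h2) * u6 - h1 * v6) + (m5 * m2 - h4 * v3))
    ((m3 * m5 - g3 * u5 - (g2 + h3) * u6 - h2 * v6) + (m5 * m3 - h4 * v4)), ld_of_ge ?_ ?_⟩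
  · exact (Hm.X (w := w1) 0).pow 2
  · have t := ((k1.mul' (hlin ⟨u0, u1 - v0, u2, u3, u4, u5⟩) (le_refl 3)).add
      (k2.mul' (hlin ⟨v0, 0, 0, 0, 0, u6⟩) (le_refl 3))).add
      (k3.mul' (hlin ⟨v1, v2, v3, v4, v5 - u6, v6⟩) (le_refl 3))
    refine t.congr ?_
    have φ : ∀ {x : κ}, x = 0 → algebraMap κ (PS κ) x = 0 := fun h => by rw [h, map_zero]
    replace e0 := φ e0
    replace e1 := φ e1
    replace e2 := φ e2
    replace e3 := φ e3
    replace e4 := φ e4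
    replace e5 := φ e5
    replace e6 := φ e6
    replace e7 := φ e7
    replace e8 := φ e8
    replace e9 := φ e9
    replace e10 := φ e10
    simp only [map_add, map_sub, map_mul] at e0 e1 e2 e3 e4 e5 e6 e7 e8 e9 e10
    have i := SQ0x.ident _ _ _ _ _ _ _ _ _ _ _ _ _ _ _ _ _ _ _ _ _ _ _ _ _ _ _ _ _ _
      p.a0 p.a1 p.a2 p.a3 p.a4 p.a5 e0 e1 e2 e3 e4 e5 e6 e7 e8 e9 e10
    rw [← hl, eq_neg_of_add_eq_zero_right hE.e1, eq_neg_of_add_eq_zero_right hE.e2,
      eq_neg_of_add_eq_zero_right hE.e3]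
    simp only [Hk.lin, Hk.q02, Hk.q03, Hk.q04, Hk.q13, Hk.q05, Hk.q14, Hk.q15, Hk.q24, Hk.q25,
      Hk.q35, Algebra.smul_def, map_add, map_sub, map_mul, map_zero]
    linear_combination i

end Pool.Agent.P.MP_6149fc_ag.V22

end

section

/-! Step SQ1. -/

set_option autoImplicit false
set_option linter.unusedSectionVars false

namespace Pool.Agent.P.MP_6149fc_ag.V22

open Pool.Agent.P.MP_6149fc_ag.V18
open MvPowerSeries (coeff X constantCoeff monomial)

namespace SQ1x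

open Polynomial

variable {κ : Type} [Field κ]

/-- A cubic. -/
noncomputable def cub (a b c d : κ) : κ[X] :=
  C a + C b * Polynomial.X + C c * Polynomial.X ^ 2 + C d * Polynomial.X ^ 3

theorem deg (a b c d : κ) : (cub a b c d).natDegree ≤ 3 := by
  unfold cub
  compute_degree

theorem ex {u : κ[X]} (h : u.natDegree ≤ 3) : ∃ a b c d, u = cub a b c d := by
  refine ⟨u.coeff 0, u.coeff 1, u.coeff 2, u.coeff 3, ?_⟩
  conv_lhs => rw [u.as_sum_range_C_mul_X_pow' (n := 4) (by omega)]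
  simp [cub, Finset.sum_range_succ]

theorem six {e0 e1 e2 e3 e4 e5 e6 : κ}
    (h : C e0 + C e1 * Polynomial.X + C e2 * Polynomial.X ^ 2 + C e3 * Polynomial.X ^ 3 +
      C e4 * Polynomial.X ^ 4 + C e5 * Polynomial.X ^ 5 + C e6 * Polynomial.X ^ 6 = 0) :
    e0 = 0 ∧ e1 = 0 ∧ e2 = 0 ∧ e3 = 0 ∧ e4 = 0 ∧ e5 = 0 ∧ e6 = 0 := by
  have k := fun n => congrArg (fun p => p.coeff n) h
  simp only [coeff_add, coeff_C_mul, coeff_X_pow, coeff_X, coeff_C, coeff_zero] at k
  exact ⟨by simpa using k 0, by simpa using k 1, by simpa using k 2, by simpa using k 3,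
    by simpa using k 4, by simpa using k 5, by simpa using k 6⟩

end SQ1x

open SQ1x in
theorem p_SQ1 (hGEN : S_GEN) :
    S_SQ1 := by
  intro κ _ _ W p g0 g1 g2 g3 h0 h1 h2 h3 m2 m3 m4 m5 hn ok hg hh hm
  obtain ⟨u, v, hu, hv, e⟩ := hGEN κ 3 6 (cub g0 g1 g2 g3) (cub h0 h1 h2 h3)
    (cub m2 m3 m4 m5 * cub m2 m3 m4 m5) (deg ..) (deg ..)
    (by simpa [cub, Polynomial.coeff_X, Polynomial.coeff_C] using hn.1)
    (fun t => by simpa [cub] using hn.2 t)
    (Polynomial.natDegree_mul_le.trans (add_le_add (deg ..) (deg ..))) (by norm_num) (by norm_num)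
  obtain ⟨u0, u1, u2, u3, rfl⟩ := ex hu
  obtain ⟨v0, v1, v2, v3, rfl⟩ := ex hv
  obtain ⟨e0, e1, e2, e3, e4, e5, e6⟩ := six (e0 := m2 * m2 - g0 * u0 - h0 * v0)
    (e1 := m2 * m3 + m3 * m2 - (g0 * u1 + g1 * u0) - (h0 * v1 + h1 * v0))
    (e2 := m2 * m4 + m3 * m3 + m4 * m2 - (g0 * u2 + g1 * u1 + g2 * u0) -
      (h0 * v2 + h1 * v1 + h2 * v0))
    (e3 := m2 * m5 + m3 * m4 + m4 * m3 + m5 * m2 - (g0 * u3 + g1 * u2 + g2 * u1 + g3 * u0) -
      (h0 * v3 + h1 * v2 + h2 * v1 + h3 * v0))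
    (e4 := m3 * m5 + m4 * m4 + m5 * m3 - (g1 * u3 + g2 * u2 + g3 * u1) -
      (h1 * v3 + h2 * v2 + h3 * v1))
    (e5 := m4 * m5 + m5 * m4 - (g2 * u3 + g3 * u2) - (h2 * v3 + h3 * v2))
    (e6 := m5 * m5 - g3 * u3 - h3 * v3) (by
      simp only [cub] at e
      simp only [map_add, map_sub, map_mul]
      linear_combination e)
  have a := ok.geA (w := w1) (n := 1) (by decide)
  have gu := hg.mul ((((a.g2.smul u0).add (a.g3.smul u1)).add (a.g4.smul u2)).add (a.g5.smul u3))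
  have gv := hh.mul ((((a.g2.smul v0).add (a.g3.smul v1)).add (a.g4.smul v2)).add (a.g5.smul v3))
  refine ⟨m3 * m5 + m5 * m3 - (g1 * u3 + g3 * u1) - (h1 * v3 + h3 * v1),
    m2 * m5 + m5 * m2 - (g0 * u3 + g3 * u0) - (h0 * v3 + h3 * v0),
    m2 * m4 + m4 * m2 - (g0 * u2 + g2 * u0) - (h0 * v2 + h2 * v0),
    (Hm.X 1).pow 2, (gu.add gv).neg.congr ?_⟩
  have c := fun {x : κ} (h : x = 0) => congrArg (algebraMap κ (PS κ)) h
  have f0 := c e0
  have f1 := c e1
  have f2 := c e2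
  have f3 := c e3
  have f4 := c e4
  have f5 := c e5
  have f6 := c e6
  rw [← hm]
  simp only [Hk.q35, Hk.q25, Hk.q24, Algebra.smul_def, map_add, map_sub, map_mul, map_zero]
    at f0 f1 f2 f3 f4 f5 f6 ⊢
  linear_combination (-p.a2 ^ 2) * f0 - p.a2 * p.a3 * f1 - p.a3 ^ 2 * f2 - p.a3 * p.a4 * f3 -
    p.a4 ^ 2 * f4 - p.a4 * p.a5 * f5 - p.a5 ^ 2 * f6

end Pool.Agent.P.MP_6149fc_ag.V22

end

section

/-! Step LINA. -/

set_option autoImplicit false
set_option linter.unusedSectionVars false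

namespace Pool.Agent.P.MP_6149fc_ag.V22

open Pool.Agent.P.MP_6149fc_ag.V18
open MvPowerSeries (coeff X constantCoeff monomial)

namespace LINAx

variable {κ : Type} [Field κ]

theorem hm (a b c : κ) : Hm w1 1 (a • X 0 + b • X 1 + c • X 2 : PS κ) :=
  (((Hm.X (w := w1) 0).smul a).add ((Hm.X (w := w1) 1).smul b)).add ((Hm.X (w := w1) 2).smul c)

theorem cz {f : PS κ} (h : Ge w1 2 f) {α : Ex} (hα : ¬ 2 ≤ wt w1 α) : coeff α f = 0 := by
  by_contra h0
  exact hα (h α h0)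

theorem ld_of {f : PS κ} {a b c : κ} (h : ∀ α : Ex, ¬ 2 ≤ wt w1 α → coeff α f -
    (a * coeff α (X 0 : PS κ) + b * coeff α (X 1 : PS κ) + c * coeff α (X 2 : PS κ)) = 0) :
    Ld w1 1 f (a • X 0 + b • X 1 + c • X 2) :=
  ⟨hm a b c, fun α hα => by
    by_contra h2
    exact hα (by simpa only [map_sub, map_add, map_smul, smul_eq_mul] using h α h2)⟩

end LINAx

theorem p_LINA :
    S_LINA := by
  intro κ _ W p c g0 g1 g2 g3 g4 h0 h1 h2 h3 h4 m0 m1 m2 u v w hok he l0 l1 l2 hinj hu hv hw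
    ⟨u0, u1, u2⟩ ⟨v0, v1, v2⟩ ⟨w0, w1', w2⟩
  have hg : p.GeA w1 1 1 1 1 1 1 := hok.geA (by decide)
  have key : ∀ α : Ex, ¬ 2 ≤ wt w1 α → (⟨coeff α p.a0 -
      (u.a0 * coeff α (X 0 : PS κ) + v.a0 * coeff α (X 1 : PS κ) + w.a0 * coeff α (X 2 : PS κ)),
      coeff α p.a1 -
      (u.a1 * coeff α (X 0 : PS κ) + v.a1 * coeff α (X 1 : PS κ) + w.a1 * coeff α (X 2 : PS κ)),
      coeff α p.a2 -
      (u.a2 * coeff α (X 0 : PS κ) + v.a2 * coeff α (X 1 : PS κ) + w.a2 * coeff α (X 2 : PS κ)),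
      coeff α p.a3 -
      (u.a3 * coeff α (X 0 : PS κ) + v.a3 * coeff α (X 1 : PS κ) + w.a3 * coeff α (X 2 : PS κ)),
      coeff α p.a4 -
      (u.a4 * coeff α (X 0 : PS κ) + v.a4 * coeff α (X 1 : PS κ) + w.a4 * coeff α (X 2 : PS κ)),
      coeff α p.a5 -
      (u.a5 * coeff α (X 0 : PS κ) + v.a5 * coeff α (X 1 : PS κ) + w.a5 * coeff α (X 2 : PS κ))⟩ :
      Hk κ) = ⟨0, 0, 0, 0, 0, 0⟩ := by
    intro α hα
    have k1 := LINAx.cz (hg.K1 c (by decide)) hα
    have k2 := LINAx.cz (hg.K2 c (by decide)) hα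
    have k3 := LINAx.cz (hg.K3 c (by decide)) hα
    have e1 := congrArg (coeff α) he.e1
    have e2 := congrArg (coeff α) he.e2
    have e3 := congrArg (coeff α) he.e3
    have f0 := congrArg (coeff α) l0
    have f1 := congrArg (coeff α) l1
    have f2 := congrArg (coeff α) l2
    obtain ⟨a1, a2, a3⟩ := hu
    obtain ⟨b1, b2, b3⟩ := hv
    obtain ⟨c1, c2, c3⟩ := hw
    simp only [Hk.lin, map_add, map_smul, smul_eq_mul, map_zero, k1, k2, k3] at e1 e2 e3 f0 f1 f2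
    simp only [Hk.lin, Hk.K1, Hk.K2, Hk.K3, smul_eq_mul, zero_mul, add_zero]
      at a1 a2 a3 b1 b2 b3 c1 c2 c3 u0 u1 u2 v0 v1 v2 w0 w1' w2
    generalize coeff α (X 0 : PS κ) = x at *
    generalize coeff α (X 1 : PS κ) = y at *
    generalize coeff α (X 2 : PS κ) = z at *
    refine hinj _ ⟨?_, ?_, ?_⟩ ?_ ?_ ?_ <;>
      simp only [Hk.lin, Hk.K1, Hk.K2, Hk.K3, smul_eq_mul, zero_mul, add_zero]
    · linear_combination e1 - x * a1 - y * b1 - z * c1
    · linear_combination e2 - x * a2 - y * b2 - z * c2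
    · linear_combination e3 - x * a3 - y * b3 - z * c3
    · linear_combination f0 - x * u0 - y * v0 - z * w0
    · linear_combination f1 - x * u1 - y * v1 - z * w1'
    · linear_combination f2 - x * u2 - y * v2 - z * w2
  exact ⟨LINAx.ld_of fun α hα => congrArg Hk.a0 (key α hα),
    LINAx.ld_of fun α hα => congrArg Hk.a1 (key α hα),
    LINAx.ld_of fun α hα => congrArg Hk.a2 (key α hα),
    LINAx.ld_of fun α hα => congrArg Hk.a3 (key α hα),
    LINAx.ld_of fun α hα => congrArg Hk.a4 (key α hα),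
    LINAx.ld_of fun α hα => congrArg Hk.a5 (key α hα)⟩

end Pool.Agent.P.MP_6149fc_ag.V22

end
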