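import Pool.Agent.P.MP_6149fc_ag.V22.BaseN
import Pool.Agent.P.MP_6149fc_ag.V22.IfaceB
import Pool.Agent.P.MP_6149fc_ag.V22.IfaceG

/-! Statements: the strata and the global argument. -/

set_option autoImplicit false

namespace Pool.Agent.P.MP_6149fc_ag.V22

open Pool.Agent.P.MP_6149fc_ag.V18
open MvPowerSeries (coeff X constantCoeff monomial)
open Matrix

-- deps:
def S_QK0 : Prop :=
  ∀ (κ : Type) [Field κ] [IsAlgClosed κ] [CharZero κ] (d : Dat κ), d.K0 → TD d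

-- deps:
def S_QK1 : Prop :=
  ∀ (κ : Type) [Field κ] [IsAlgClosed κ] [CharZero κ] (d : Dat κ), d.K1 → TD d

-- deps:
def S_QK11 : Prop :=
  ∀ (κ : Type) [Field κ] [IsAlgClosed κ] [CharZero κ] (d : Dat κ), d.K11 → TD d

-- deps:
def S_QK2 : Prop :=
  ∀ (κ : Type) [Field κ] [IsAlgClosed κ] [CharZero κ] (d : Dat κ), d.K2 → TD d

-- deps:
def S_Q111 : Prop :=
  ∀ (κ : Type) [Field κ] [IsAlgClosed κ] [CharZero κ] (d : Dat κ), d.K111 → TD d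

-- deps:
def S_Q21 : Prop :=
  ∀ (κ : Type) [Field κ] [IsAlgClosed κ] [CharZero κ] (d : Dat κ), d.K21 → TD d

-- deps:
def S_Q3N : Prop :=
  ∀ (κ : Type) [Field κ] [IsAlgClosed κ] [CharZero κ] (d : Dat κ), d.K3 → d.p3 ≠ 0 → d.p4 = 0 →
    TD d

-- deps:
def S_Q3S : Prop :=
  ∀ (κ : Type) [Field κ] [IsAlgClosed κ] [CharZero κ] (d : Dat κ), d.K3 → d.p3 = 0 → TD d

-- deps:
def S_NFA2 : Prop :=
  ∀ (κ : Type) [Field κ] (Q : Dat κ → Prop), CloD Q → StrD Q →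
    ∀ d : Dat κ, d.p0 = 0 → d.r0 = 0 → d.p4 = 0 → d.r4 = 0 → Q d

-- deps: NFA2
def S_NFB2 : Prop :=
  ∀ (κ : Type) [Field κ] (Q : Dat κ → Prop), CloD Q → StrD Q →
    ∀ d : Dat κ, d.p0 = 0 → d.r0 = 0 → Q d

-- deps: NFB2 MOVS MOVW MOVT QK0 QK1 QK11 QK2 Q111 Q21 Q3N Q3S
def S_NFK : Prop :=
  ∀ (κ : Type) [Field κ] [IsAlgClosed κ] [CharZero κ] (d : Dat κ), TD d

-- deps: BRG SMBV DEC AUT NORM NFK
def S_PARBV : Prop :=
  ∀ (ω : Fin 3 → Fin 7 → Fin 7 → ℂ) (K κ : Type) [Field K] [Algebra ℂ K] [Field κ] [Algebra ℂ κ]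
    [IsAlgClosed κ] (ξ : I3 → K) (x : I3 → κ) (j : I3),
    (∀ P : I3 → κ, P ≠ 0 → (∀ G ∈ equations ω, MvPolynomial.aeval P G = 0) →
      Module.finrank κ (tangentSpace (equations ω) P) ≤ 3 + 1) →
    (∀ G ∈ equations ω, MvPolynomial.aeval ξ G = 0) → x j = 1 →
    (∀ G ∈ equations ω, MvPolynomial.aeval x G = 0) →
    ∃ Ψ : I3 → PS κ, LocV Ψ ∧ Par ξ x j Ψ

-- deps: BRG NULL2 SEL ARC1 ARC2 PARBV FINX
def S_MAINV : Prop :=
  ∀ ω : Fin 3 → Fin 7 → Fin 7 → ℂ, SmoothOfDim 3 (equations ω) →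
    ValuativeCriterion 3 (Ideal.span (equations ω)).radical

end Pool.Agent.P.MP_6149fc_ag.V22
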