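import Pool.Agent.P.MP_6149fc_ag.V22.BaseQ
import Pool.Agent.P.MP_6149fc_ag.V22.IfaceN
import Pool.Agent.P.MP_6149fc_ag.V22.IfaceV

/-! Statements: points on three lines (counted with multiplicity), except the sharp case. -/

set_option autoImplicit false

namespace Pool.Agent.P.MP_6149fc_ag.V22

open Pool.Agent.P.MP_6149fc_ag.V18
open MvPowerSeries (coeff X constantCoeff monomial)
open Matrix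

-- redeps: Q111 QT0 PT LT C03T SM0V
-- redeps: Q21 PARL LUA LUC C03V SM0V SMLV
-- redeps: Q3N PARL LN SM0V SMLV MOVT

-- deps: TV ND
def S_C03V : Prop :=
  ∀ (κ : Type) [Field κ] [CharZero κ] (d : Dat κ), Sm3 (net d) → d.p0 = 0 → d.r0 = 0 →
    d.p4 = 0 → d.r4 = 0 → d.c03 ≠ 0

-- deps: C03V MOVS MOVW
def S_C03T : Prop :=
  ∀ (κ : Type) [Field κ] [CharZero κ] (d : Dat κ), Sm3 (net d) → d.K111 →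
    d.c03 ≠ 0 ∧ d.c01 + d.c02 + d.c03 ≠ 0 ∧ d.c03 + d.c13 + d.c23 ≠ 0

/-! ### Three distinct lines -/

-- deps:
def S_PT0 : Prop :=
  ∀ (κ : Type) [Field κ] (W : Submodule κ (PS κ)) (p : P6 κ) (d : Dat κ) (x y z : PS κ)
    (A B G : κ), p.Ok W → p.Eqs d → d.K111 → d.Dt ≠ 0 → Hm w1 1 x → Hm w1 1 y → Hm w1 1 z →
    p.a0 - p.a1 = x → p.a5 - p.a4 = y → p.a1 = z → A = d.c03 → B = d.c01 + d.c02 + d.c03 →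
    G = d.c03 + d.c13 + d.c23 →
    Ld w1 2 (d.Dt • (p.a1 - p.a2)) (qd (A * d.r3 * d.p3)
      (B * (d.r1 * d.p3 - d.p3 ^ 2 - d.r3 * d.p1 + d.r3 * d.p3)) (G * d.r3 * (d.p3 - d.r3)) x y z) ∧
    Ld w1 2 (d.Dt • (p.a2 - p.a3)) (qd (A * d.r1 * d.p3) (B * d.p3 * (d.r1 - d.p1))
      (G * d.r1 * (d.p3 - d.r3)) x y z) ∧
    Ld w1 2 (d.Dt • (p.a3 - p.a4)) (qd (A * d.r1 * d.p1) (B * d.p1 * (d.r1 - d.p1))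
      (G * (d.r1 * d.p1 - d.r1 ^ 2 + d.r1 * d.p3 - d.r3 * d.p1)) x y z)

-- deps:
def S_PT1 : Prop :=
  ∀ (κ : Type) [Field κ] (W : Submodule κ (PS κ)) (p : P6 κ) (x y z : PS κ),
    p.Ok W → Hm w1 1 x → Hm w1 1 y → Hm w1 1 z → p.a0 - p.a1 = x → p.a5 - p.a4 = y → p.a1 = z →
    ∀ n1 n2 n3 : PS κ, Ld w1 2 (p.a1 - p.a2) n1 → Ld w1 2 (p.a2 - p.a3) n2 →
      Ld w1 2 (p.a3 - p.a4) n3 →
      (LdIn w1 2 W (x * y) ∧ LdIn w1 2 W (x * z) ∧ LdIn w1 2 W (y * z) ∧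
        LdIn w1 3 W (x * y * z)) ∧
      (LdIn w1 3 W (x * n2) ∧ LdIn w1 3 W (x * n3) ∧ LdIn w1 3 W (y * n1) ∧ LdIn w1 3 W (y * n2) ∧
        LdIn w1 3 W (z * (n1 - n2)) ∧ LdIn w1 3 W (z * (n2 - n3)))

-- deps:
def S_PT2 : Prop :=
  ∀ (κ : Type) [Field κ] (W : Submodule κ (PS κ)) (p : P6 κ) (x y z : PS κ),
    p.Ok W → Hm w1 1 x → Hm w1 1 y → Hm w1 1 z → p.a0 - p.a1 = x → p.a5 - p.a4 = y → p.a1 = z →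
    ∀ n1 n2 n3 : PS κ, Ld w1 2 (p.a1 - p.a2) n1 → Ld w1 2 (p.a2 - p.a3) n2 →
      Ld w1 2 (p.a3 - p.a4) n3 →
      LdIn w1 4 W (y * z * (n1 - n2)) ∧ LdIn w1 4 W (x * z * (n2 - n3)) ∧ LdIn w1 4 W (x * y * n2)

-- deps: PT0 PT1 PT2
def S_PT : Prop :=
  ∀ (κ : Type) [Field κ] (W : Submodule κ (PS κ)) (p : P6 κ) (d : Dat κ) (x y z : PS κ),
    p.Ok W → p.Eqs d → d.K111 → d.Dt ≠ 0 → Hm w1 1 x → Hm w1 1 y → Hm w1 1 z →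
    p.a0 - p.a1 = x → p.a5 - p.a4 = y → p.a1 = z →
    In111 W x y z d.c03 (d.c01 + d.c02 + d.c03) (d.c03 + d.c13 + d.c23) d.r1 (d.r1 - d.p1) d.p3
      (d.p3 - d.r3) (d.p3 - d.p1) (d.r1 - d.r3)

-- deps:
def S_PTA : Prop :=
  ∀ (κ : Type) [Field κ] (U : ℕ → Submodule κ (PS κ)) (A B G t01 t02 t10 t12 t20 t21 : κ),
    In111 (U 1) (X 0) (X 1) (X 2) A B G t01 t02 t10 t12 t20 t21 → A ≠ 0 → B ≠ 0 → G ≠ 0 →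
    t01 ≠ 0 → t20 ≠ 0 → (t10 ≠ 0 → t21 ≠ 0 → Pts A_t U P_ta) ∧ (t10 = 0 → t12 ≠ 0 → Pts A_t U P_tc)

-- deps: SIMV CERTV PTA
-- imports: Pool.Agent.P.MP_6149fc_ag.V22.BaseCert3
def S_LT : Prop :=
  ∀ (κ : Type) [Field κ] (A B G t01 t02 t10 t12 t20 t21 : κ), A ≠ 0 → B ≠ 0 → G ≠ 0 →
    t01 * t12 * t20 - t02 * t21 * t10 ≠ 0 → Ex111 A B G t01 t02 t10 t12 t20 t21

-- deps: PARL
def S_QT0 : Prop :=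
  ∀ (κ : Type) [Field κ] [CharZero κ] (d : Dat κ) (i j k : Fin 3), i ≠ j → i ≠ k → j ≠ k →
    d.K111 → d.Dt ≠ 0 →
    (∀ (p : P6 κ) (U : ℕ → Submodule κ (PS κ)) (V : ℝ), CtxV U V → p.Ok (U 1) → p.Eqs d →
      p.a0 - p.a1 = X i → p.a5 - p.a4 = X j → p.a1 = X k → Loc U V) → GoalV (net d) (e3 κ)

/-! ### A double line and a line -/

-- deps:
def S_PU0 : Prop :=
  ∀ (κ : Type) [Field κ] (W : Submodule κ (PS κ)) (p : P6 κ) (d : Dat κ), p.Ok W → p.Eqs d →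
    d.K21 → d.Du ≠ 0 → p.C015 → ∃ s2 s3 s4 u2 u3 u4 : κ,
      Ld w1 2 (d.Du • p.a2)
        ((d.r3 * d.p3 * d.c03) • mon κ 1 0 1 + s2 • mon κ 0 1 1 + u2 • mon κ 0 2 0) ∧
      Ld w1 2 (d.Du • p.a3)
        ((-(d.r2 * d.p3 * d.c03)) • mon κ 1 0 1 + s3 • mon κ 0 1 1 + u3 • mon κ 0 2 0) ∧
      Ld w1 2 (d.Du • p.a4)
        ((d.r2 * d.p2 * d.c03) • mon κ 1 0 1 + s4 • mon κ 0 1 1 + u4 • mon κ 0 2 0) ∧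
      s3 = d.r2 * (d.r3 * d.c03 - d.p3 * d.c13) ∧
      s4 = d.r2 * d.p2 * d.c13 - (d.r2 * (d.p3 + d.r2) - d.r3 * d.p2) * d.c03

-- deps: PU0
def S_PUA : Prop :=
  ∀ (κ : Type) [Field κ] (U : ℕ → Submodule κ (PS κ)) (p : P6 κ) (d : Dat κ), p.Ok (U 1) →
    p.Eqs d → d.K21 → d.Du ≠ 0 → p.C015 → d.c03 ≠ 0 → d.r2 ≠ 0 → d.p3 ≠ 0 →
    Pts A_u U P_ua ∧ (Pt A_u U 1 (ex 1 2 1) ∨ Pt A_u U 1 (ex 0 3 1))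

-- deps: PU0
def S_PUB : Prop :=
  ∀ (κ : Type) [Field κ] (U : ℕ → Submodule κ (PS κ)) (p : P6 κ) (d : Dat κ), p.Ok (U 1) →
    p.Eqs d → d.K21 → d.Du ≠ 0 → p.C015 → d.c03 ≠ 0 → d.p3 = 0 → Pts A_u U P_ub

-- deps:
def S_PUC : Prop :=
  ∀ (κ : Type) [Field κ] (U : ℕ → Submodule κ (PS κ)) (p : P6 κ) (d : Dat κ), p.Ok (U 1) →
    p.Eqs d → d.K21 → p.C015 → d.c03 ≠ 0 → d.c01 ≠ 0 → d.r2 = 0 → d.p2 ≠ 0 → d.p3 ≠ 0 →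
    d.r3 ≠ 0 → Pts (WC 2 1) U P_uW ∧ Pts (WC 2 (-1)) U P_uY

-- deps: SIMV CERTV PUA PUB
-- imports: Pool.Agent.P.MP_6149fc_ag.V22.BaseCert3
def S_LUA : Prop :=
  ∀ (κ : Type) [Field κ] (U : ℕ → Submodule κ (PS κ)) (V : ℝ) (p : P6 κ) (d : Dat κ), CtxV U V →
    p.Ok (U 1) → p.Eqs d → d.K21 → d.Du ≠ 0 → p.C015 → d.c03 ≠ 0 → d.r2 ≠ 0 → Loc U V

-- deps: WALV CERTV PUC
-- imports: Pool.Agent.P.MP_6149fc_ag.V22.BaseCert3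
def S_LUC : Prop :=
  ∀ (κ : Type) [Field κ] [IsAlgClosed κ] (U : ℕ → Submodule κ (PS κ)) (V : ℝ) (p : P6 κ)
    (d : Dat κ), CtxV U V → p.Ok (U 1) → p.Eqs d → d.K21 → d.Du ≠ 0 → p.C015 → d.c03 ≠ 0 →
    d.c01 ≠ 0 → d.r2 = 0 → Loc U V

/-! ### A triple line, not fixed -/

-- deps:
def S_PN0 : Prop :=
  ∀ (κ : Type) [Field κ] (W : Submodule κ (PS κ)) (p : P6 κ) (d : Dat κ) (g : κ), p.Ok W →
    p.Eqs d → d.K3 → d.p4 = 0 → p.C012 → d.p3 ≠ 0 → d.r3 ≠ 0 → d.r4 ≠ 0 → d.c01 = -d.r3 →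
    g * d.r4 = -d.p3 → Ld w3 4 p.a3 (bq (X 0) (X 1) (X 2)) ∧ Ge w3 6 p.a4 ∧
      Ld w3 4 p.a5 (g • bq (X 0) (X 1) (X 2))

-- deps:
def S_PN : Prop :=
  ∀ (κ : Type) [Field κ] (U : ℕ → Submodule κ (PS κ)) (p : P6 κ) (g : κ), Sys U → p.Ok (U 1) →
    p.C012 → g ≠ 0 → Ld w3 4 p.a3 (bq (X 0) (X 1) (X 2)) → Ge w3 6 p.a4 →
    Ld w3 4 p.a5 (g • bq (X 0) (X 1) (X 2)) → Pts (WC 1 1) U P_nW ∧ Pts (WC 1 (-1)) U P_nY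

-- deps: WALV CERTV PN0 PN
-- imports: Pool.Agent.P.MP_6149fc_ag.V22.BaseCert3
def S_LN : Prop :=
  ∀ (κ : Type) [Field κ] [IsAlgClosed κ] (U : ℕ → Submodule κ (PS κ)) (V : ℝ) (p : P6 κ)
    (d : Dat κ), CtxV U V → p.Ok (U 1) → p.Eqs d → d.K3 → d.p4 = 0 → p.C012 → d.p3 ≠ 0 →
    d.r3 ≠ 0 → d.r4 ≠ 0 → d.c01 = -d.r3 → Loc U V

end Pool.Agent.P.MP_6149fc_ag.V22
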