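import Pool.Agent.P.MP_6149fc_ag.V22.BaseE
import Pool.Agent.P.MP_6149fc_ag.V22.IfaceB

/-! Statements: the point with a fixed triple line. -/

set_option autoImplicit false

namespace Pool.Agent.P.MP_6149fc_ag.V22

open Pool.Agent.P.MP_6149fc_ag.V18
open MvPowerSeries (coeff X constantCoeff monomial)

-- deps:
def S_PE3 : Prop :=
  ∀ (κ : Type) [Field κ] (U : ℕ → Submodule κ (PS κ)) (p : P6 κ) (d : Dat κ), p.Ok (U 1) →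
    p.Eqs d → d.K3 → d.p3 = 0 → d.c01 = -d.r3 → d.r3 ≠ 0 → d.p4 ≠ 0 → d.p4 + d.r3 ≠ 0 →
    p.a0 = X 0 → p.a1 = X 1 → p.a2 = X 2 →
    E3in (d.r3 / (d.p4 + d.r3)) (d.r3 / d.p4) (Gr w3 U 1) (X 0) (X 1) (X 2)

-- deps:
def S_PTE1 : Prop :=
  ∀ (κ : Type) [Field κ] (e f : κ) (U : ℕ → Submodule κ (PS κ)), Sys U → EF e f →
    (E3in e f (U 1) (X 0) (X 1) (X 2) → Pts AZ U P_fZ ∧ Pts AY U P_fY) ∧
    (E3in e f (U 1) (thP κ 0) (thP κ 1) (thP κ 2) → Gen AP2 U ∧ Pts AP2 U P_fP)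

-- deps: ADM
-- imports: Pool.Agent.P.MP_6149fc_ag.V18.StepPtE
def S_PTE2 : Prop :=
  ∀ (κ : Type) [Field κ] (e f : κ) (U : ℕ → Submodule κ (PS κ)), Sys U → EF e f →
    (∀ c, c ≠ 0 → E3in e f (U 1) (thT c 0) (thT c 1) (thT c 2) → Gen lexA U ∧ Pts lexA U P_eT) ∧
    ∀ c d, (c ≠ 0 ∨ d ≠ 0) → E3in e f (U 1) (thL c d 0) (thL c d 1) (thL c d 2) → Gen lexA U ∧
      (Pts lexA U P_fL11a ∨ Pts lexA U P_fL11b ∨ Pts lexA U P_fL12a ∨ Pts lexA U P_fL12b)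

-- deps: ADM SBV CERTV PULL CHARTS PTE1 PTE2
-- imports: Pool.Agent.P.MP_6149fc_ag.V22.BaseCertE Pool.Agent.P.MP_6149fc_ag.V18.StepLoc
def S_SUME : Prop :=
  ∀ (κ : Type) [Field κ] (e f : κ) (G : ℕ → Submodule κ (PS κ)) (V : ℝ), CtxV G V → EF e f →
    E3in e f (G 1) (X 0) (X 1) (X 2) → SumsE G V

-- deps: ADM TRUNC KB0 CHARTS REGF ARCT RECEN CHJET EX EXG
-- imports: Pool.Agent.P.MP_6149fc_ag.V18.StepLoc
def S_EAL2 : Prop :=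
  ∀ (κ : Type) [Field κ] [CharZero κ] (G : ℕ → Submodule κ (PS κ)) (V : ℝ), 0 ≤ V →
    SumsE G V → HomB w3 G V

-- redeps: Q3S PARL SM0V SMLV MOVT ADM GR GRED PE3 SUME EAL2

end Pool.Agent.P.MP_6149fc_ag.V22
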