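import Pool.Agent.P.MP_6149fc_ag.V22.BaseJ

/-! Statements: initial exponents at points on at most two lines, binary forms. -/

set_option autoImplicit false

namespace Pool.Agent.P.MP_6149fc_ag.V22

open Pool.Agent.P.MP_6149fc_ag.V18
open MvPowerSeries (coeff X constantCoeff monomial)

-- deps:
def S_PK0 : Prop :=
  ∀ (κ : Type) [Field κ] (U : ℕ → Submodule κ (PS κ)) (p : Hk (PS κ)) (τ : Hk κ)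
    (f0 f1 f2 f3 f4 f5 f6 : κ), p.Ok (U 1) →
    p.LdA τ ⟨f0, f1, f2, f3, f4, f5⟩ ⟨f1, f2, f3, f4, f5, f6⟩ →
    (⟨f1, f2, f3, f4, f5, f6⟩ : Hk κ).dx f0 f1 f2 f3 ≠ 0 → LdIn w1 2 (U 1) (X 0 ^ 2) →
    Pts A_k0 U P_k0

-- deps:
def S_PK1G : Prop :=
  ∀ (κ : Type) [Field κ] (U : ℕ → Submodule κ (PS κ)) (p : Hk (PS κ)) (c : Cm κ)
    (al b1 b2 b3 ap e1 e2 e3 : κ) (u v : Hk κ) (n1 n2 n3 ξ0 ξ1 ξ2 ξ3 : κ), p.Ok (U 1) →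
    p.Eqs c 0 al b1 b2 b3 0 ap e1 e2 e3 → p.LdA u v ⟨1, 0, 0, 0, 0, 0⟩ → u.a0 = 0 → v.a0 = 0 →
    Ld w1 2 (n1 • p.q35 + n2 • p.q25 + n3 • p.q24) (X 1 ^ 2) →
    Ge w1 3 (ξ1 • p.q35 - ξ2 • p.q25 + ξ3 • p.q24) → u.dx ξ0 ξ1 ξ2 ξ3 ≠ 0 →
    (ell c al ap u ≠ 0 ∨ ell c al ap v ≠ 0) →
    Pts A_1g U P_1g ∧ (Pt A_1g U 1 (ex 1 0 2) ∨ Pt A_1g U 1 (ex 0 1 2))

-- deps: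
def S_PK1A : Prop :=
  ∀ (κ : Type) [Field κ] (U : ℕ → Submodule κ (PS κ)) (p : Hk (PS κ)) (c : Cm κ)
    (b1 b2 b3 e1 e2 : κ), p.Ok (U 1) → p.Eqs c 0 0 b1 b2 b3 0 1 e1 e2 0 →
    p.a5 = X 0 → p.a4 = X 1 → p.a0 = X 2 → b3 = b1 * e2 → b3 ≠ 0 → b2 - b1 * e1 ≠ 0 →
    c.c03 - e2 * c.c01 ≠ 0 →
    Pts A_1s U P_1s ∧ (Pt A_1s U 1 (ex 1 2 0) ∨ Pt A_1s U 1 (ex 0 3 0))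

-- deps:
def S_PK1B : Prop :=
  ∀ (κ : Type) [Field κ] (U : ℕ → Submodule κ (PS κ)) (p : Hk (PS κ)) (c : Cm κ)
    (b1 b2 b3 e2 e3 k3 k4 k5 m3 m4 m5 : κ), p.Ok (U 1) → p.Eqs c 0 1 b1 b2 b3 0 0 (-1) e2 e3 →
    p.a2 = X 0 → m3 • p.a3 + m4 • p.a4 + m5 • p.a5 = X 1 → p.a0 = X 2 →
    k3 = (b2 + e3) * e3 - b3 * e2 → k4 = -b3 - (b1 + e2) * e3 → k5 = (b1 + e2) * e2 + (b2 + e3) →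
    m3 * k3 + m4 * k4 + m5 * k5 = 1 → k3 * k5 - k4 ^ 2 ≠ 0 →
    c.c01 * k3 + c.c02 * k4 + c.c03 * k5 ≠ 0 →
    Pts A_1s U P_1s ∧
      (Pt A_1s U 1 (ex 2 1 0) ∨ Pt A_1s U 1 (ex 1 2 0) ∨ Pt A_1s U 1 (ex 0 3 0))

-- deps:
def S_PK2G : Prop :=
  ∀ (κ : Type) [Field κ] (U : ℕ → Submodule κ (PS κ)) (p : Hk (PS κ)) (c : Cm κ)
    (h0 h1 h2 k0 k1 k2 u1 u2 u3 u4 m1 m2 m3 m4 : κ), p.Ok (U 1) →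
    p.Eqs c 0 h0 h1 h2 0 0 k0 k1 k2 0 → p.a5 = X 0 →
    m1 • p.a1 + m2 • p.a2 + m3 • p.a3 + m4 • p.a4 = X 1 → p.a0 = X 2 →
    u1 = kp1 h0 h1 h2 k0 k1 k2 → u2 = kp2 h0 h1 h2 k0 k1 k2 → u3 = kp3 h0 h1 h2 k0 k1 k2 →
    u4 = kp4 h0 h1 h2 k0 k1 k2 → m1 * u1 + m2 * u2 + m3 * u3 + m4 * u4 = 1 →
    (u1 * u3 - u2 ^ 2 ≠ 0 ∨ u1 * u4 - u2 * u3 ≠ 0 ∨ u2 * u4 - u3 ^ 2 ≠ 0) →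
    c.c03 ≠ 0 → h0 ≠ 0 → k2 ≠ 0 →
    Pts A_2g U P_2g ∧ (Pt A_2g U 1 (ex 0 2 1) ∧ Pt A_2g U 1 (ex 1 2 0) ∨ Pt A_2g U 1 (ex 0 3 0))

-- deps:
def S_PK2H : Prop :=
  ∀ (κ : Type) [Field κ] (U : ℕ → Submodule κ (PS κ)) (p : Hk (PS κ)) (c : Cm κ)
    (h1 h2 k0 k1 k2 u1 u2 u3 u4 m2 m3 m4 : κ), p.Ok (U 1) →
    p.Eqs c 0 0 h1 h2 0 0 k0 k1 k2 0 → p.a5 = X 0 →
    m2 • p.a2 + m3 • p.a3 + m4 • p.a4 = X 1 → p.a0 = X 2 →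
    u1 = kp1 0 h1 h2 k0 k1 k2 → u2 = kp2 0 h1 h2 k0 k1 k2 → u3 = kp3 0 h1 h2 k0 k1 k2 →
    u4 = kp4 0 h1 h2 k0 k1 k2 → m2 * u2 + m3 * u3 + m4 * u4 = 1 →
    (u1 * u3 - u2 ^ 2 ≠ 0 ∨ u1 * u4 - u2 * u3 ≠ 0 ∨ u2 * u4 - u3 ^ 2 ≠ 0) →
    c.c03 ≠ 0 → k0 ≠ 0 → k2 ≠ 0 → c.c01 * u2 + c.c02 * u3 + c.c03 * u4 ≠ 0 →
    Pts A_2g U P_2h ∧ (Pt A_2g U 1 (ex 1 2 0) ∨ Pt A_2g U 1 (ex 0 3 0))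

-- deps:
def S_PK2JA : Prop :=
  ∀ (κ : Type) [Field κ] (U : ℕ → Submodule κ (PS κ)) (p : Hk (PS κ)) (c : Cm κ)
    (h1 h2 k0 k1 : κ), p.Ok (U 1) → p.Eqs c 0 0 h1 h2 0 0 k0 k1 0 0 → p.a5 = X 0 →
    p.a1 = X 1 → p.a0 = X 2 → c.c03 ≠ 0 → h2 ≠ 0 → h1 * k1 - h2 * k0 ≠ 0 → h1 ≠ 0 →
    Pts A_2j U P_2ja

-- deps:
def S_PK2JB : Prop :=
  ∀ (κ : Type) [Field κ] (U : ℕ → Submodule κ (PS κ)) (p : Hk (PS κ)) (c : Cm κ)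
    (h2 k0 k1 : κ), p.Ok (U 1) → p.Eqs c 0 0 0 h2 0 0 k0 k1 0 0 → p.a5 = X 0 →
    p.a1 = X 1 → p.a0 = X 2 → c.c03 ≠ 0 → h2 ≠ 0 → k0 ≠ 0 →
    Pts A_2j U P_2jb

-- deps:
def S_PDA1 : Prop :=
  ∀ (κ : Type) [Field κ] (U : ℕ → Submodule κ (PS κ)) (p : Hk (PS κ)) (c : Cm κ)
    (h1 h2 k1 k2 u2 u3 u4 u5 m3 m4 m5 : κ), p.Ok (U 1) → p.Eqs c 0 0 0 h1 h2 0 0 1 k1 k2 →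
    p.a0 = X 0 → p.a1 = X 1 → m3 • p.a3 + m4 • p.a4 + m5 • p.a5 = X 2 →
    u2 = kp1 0 h1 h2 1 k1 k2 → u3 = kp2 0 h1 h2 1 k1 k2 → u4 = kp3 0 h1 h2 1 k1 k2 →
    u5 = kp4 0 h1 h2 1 k1 k2 → m3 * u3 + m4 * u4 + m5 * u5 = 1 →
    k2 ≠ 0 → h2 ^ 2 - k1 * h1 * h2 + k2 * h1 ^ 2 ≠ 0 →
    c.c01 * u2 + c.c02 * u3 + c.c03 * u4 ≠ 0 → c.c01 ≠ 0 →
    Pts (WC 1 1) U P_d1 ∧ Pts (WC 1 (-1)) U P_dY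

-- deps:
def S_PDA2 : Prop :=
  ∀ (κ : Type) [Field κ] (U : ℕ → Submodule κ (PS κ)) (p : Hk (PS κ)) (c : Cm κ)
    (h1 h2 k1 k2 u2 u3 u4 u5 m3 m4 m5 : κ), p.Ok (U 1) → p.Eqs c 0 0 0 h1 h2 0 0 1 k1 k2 →
    p.a0 = X 0 → p.a1 = X 1 → m3 • p.a3 + m4 • p.a4 + m5 • p.a5 = X 2 →
    u2 = kp1 0 h1 h2 1 k1 k2 → u3 = kp2 0 h1 h2 1 k1 k2 → u4 = kp3 0 h1 h2 1 k1 k2 →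
    u5 = kp4 0 h1 h2 1 k1 k2 → m3 * u3 + m4 * u4 + m5 * u5 = 1 →
    k2 ≠ 0 → h2 ^ 2 - k1 * h1 * h2 + k2 * h1 ^ 2 ≠ 0 →
    c.c02 * u3 + c.c03 * u4 ≠ 0 → c.c01 = 0 →
    Pts (WC 1 1) U P_d2

-- deps:
def S_PDA3 : Prop :=
  ∀ (κ : Type) [Field κ] (U : ℕ → Submodule κ (PS κ)) (p : Hk (PS κ)) (c : Cm κ)
    (h1 h2 k1 k2 u2 u3 u4 u5 m3 m4 m5 : κ), p.Ok (U 1) → p.Eqs c 0 0 0 h1 h2 0 0 1 k1 k2 →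
    p.a0 = X 0 → p.a1 = X 1 → m3 • p.a3 + m4 • p.a4 + m5 • p.a5 = X 2 →
    u2 = kp1 0 h1 h2 1 k1 k2 → u3 = kp2 0 h1 h2 1 k1 k2 → u4 = kp3 0 h1 h2 1 k1 k2 →
    u5 = kp4 0 h1 h2 1 k1 k2 → m3 * u3 + m4 * u4 + m5 * u5 = 1 →
    k2 ≠ 0 → h2 ^ 2 - k1 * h1 * h2 + k2 * h1 ^ 2 ≠ 0 →
    c.c01 * u2 + c.c02 * u3 + c.c03 * u4 = 0 → c.c01 ≠ 0 →
    c.c01 * u3 + c.c02 * u4 + c.c03 * u5 ≠ 0 →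
    Pts (WC 2 1) U P_d3 ∧ Pts (WC 2 (-1)) U P_d3Y

-- deps:
def S_PDA4 : Prop :=
  ∀ (κ : Type) [Field κ] (U : ℕ → Submodule κ (PS κ)) (p : Hk (PS κ)) (c : Cm κ)
    (h1 h2 k1 : κ), p.Ok (U 1) → p.Eqs c 0 0 0 h1 h2 0 0 1 k1 0 →
    p.a0 = X 0 → p.a1 = X 1 → p.a5 = X 2 → h2 ≠ 0 → h1 * k1 - h2 ≠ 0 → c.c01 ≠ 0 → k1 ≠ 0 →
    Pts (WC 1 1) U P_d4 ∧ Pts (WC 1 (-1)) U P_dY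

-- deps:
def S_PDA5 : Prop :=
  ∀ (κ : Type) [Field κ] (U : ℕ → Submodule κ (PS κ)) (p : Hk (PS κ)) (c : Cm κ)
    (h1 h2 : κ), Sys U → p.Ok (U 1) → p.Eqs c 0 0 0 h1 h2 0 0 1 0 0 →
    p.a0 = X 0 → p.a1 = X 1 → p.a5 = X 2 → h2 ≠ 0 → c.c01 ≠ 0 →
    Pts (WC 1 1) U P_d5 ∧ Pts (WC 1 (-1)) U P_dY

-- deps:
def S_PDB1 : Prop :=
  ∀ (κ : Type) [Field κ] (U : ℕ → Submodule κ (PS κ)) (p : Hk (PS κ)) (c : Cm κ)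
    (h1 h2 k1 k2 u3 u4 u5 m3 m4 m5 : κ), Sys U → p.Ok (U 1) → p.Eqs c 0 0 1 h1 h2 0 0 0 k1 k2 →
    p.a0 = X 0 → p.a1 = X 1 → m3 • p.a3 + m4 • p.a4 + m5 • p.a5 = X 2 →
    u3 = (h1 + k2) * k2 - h2 * k1 → u4 = -(1 + k1) * k2 → u5 = (1 + k1) * k1 →
    m3 * u3 + m4 * u4 + m5 * u5 = 1 → 1 + k1 ≠ 0 → k2 ^ 2 - h1 * k1 * k2 + h2 * k1 ^ 2 ≠ 0 →
    c.c01 * u3 + c.c02 * u4 + c.c03 * u5 ≠ 0 →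
    Pts A_db U P_db1

-- deps:
def S_PDB2 : Prop :=
  ∀ (κ : Type) [Field κ] (U : ℕ → Submodule κ (PS κ)) (p : Hk (PS κ)) (c : Cm κ)
    (h1 h2 k2 : κ), p.Ok (U 1) → p.Eqs c 0 0 1 h1 h2 0 0 0 (-1) k2 →
    p.a0 = X 0 → p.a1 = X 1 → p.a3 = X 2 → (h1 + k2) * k2 + h2 ≠ 0 → c.c01 ≠ 0 →
    Pts A_db U P_db2

/-! ### Binary forms -/

-- deps:
def S_GEN : Prop :=
  ∀ (κ : Type) [Field κ] [IsAlgClosed κ] (n N : ℕ) (f g F : Polynomial κ), f.natDegree ≤ n →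
    g.natDegree ≤ n → (f.coeff n ≠ 0 ∨ g.coeff n ≠ 0) → (∀ t, f.eval t ≠ 0 ∨ g.eval t ≠ 0) →
    F.natDegree ≤ N → n ≤ N → 2 * n ≤ N + 1 →
    ∃ u v : Polynomial κ, u.natDegree ≤ N - n ∧ v.natDegree ≤ N - n ∧ F = f * u + g * v

-- deps:
def S_APOL : Prop :=
  ∀ (κ : Type) [Field κ] [IsAlgClosed κ] (n N d : ℕ) (f g v : Polynomial κ)
    (φ : Polynomial κ →ₗ[κ] κ), f.natDegree ≤ n → g.natDegree ≤ n →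
    (f.coeff n ≠ 0 ∨ g.coeff n ≠ 0) → (∀ t, f.eval t ≠ 0 ∨ g.eval t ≠ 0) → v ≠ 0 →
    v.natDegree ≤ d → d + n ≤ N + 1 → n ≤ N → d ≤ N →
    (∀ i, i + n ≤ N → φ (f * Polynomial.X ^ i) = 0 ∧ φ (g * Polynomial.X ^ i) = 0) →
    (∀ i, i + d ≤ N → φ (v * Polynomial.X ^ i) = 0) → ∀ i, i ≤ N → φ (Polynomial.X ^ i) = 0

-- deps: APOL
def S_SCH6 : Prop :=
  ∀ (κ : Type) [Field κ] [IsAlgClosed κ] (g0 g1 g2 g3 g4 h0 h1 h2 h3 h4 : κ),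
    NoRoot4 g0 g1 g2 g3 g4 h0 h1 h2 h3 h4 → ∃ f0 f1 f2 f3 f4 f5 f6 : κ,
      (⟨f0, f1, f2, f3, f4, f5⟩ : Hk κ).Tan g0 g1 g2 g3 g4 h0 h1 h2 h3 h4 ∧
      (⟨f1, f2, f3, f4, f5, f6⟩ : Hk κ).Tan g0 g1 g2 g3 g4 h0 h1 h2 h3 h4 ∧
      (⟨f1, f2, f3, f4, f5, f6⟩ : Hk κ).dx f0 f1 f2 f3 ≠ 0

-- deps: APOL
def S_SCH4 : Prop :=
  ∀ (κ : Type) [Field κ] [IsAlgClosed κ] (g0 g1 g2 g3 h0 h1 h2 h3 : κ),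
    NoRoot3 g0 g1 g2 g3 h0 h1 h2 h3 → ∃ u : Hk κ, u.a0 = 0 ∧
      u.Tan 0 g0 g1 g2 g3 0 h0 h1 h2 h3 ∧ u.d123 ≠ 0

-- deps: GEN
def S_SQ0 : Prop :=
  ∀ (κ : Type) [Field κ] [IsAlgClosed κ] (W : Submodule κ (PS κ)) (p : Hk (PS κ)) (c : Cm κ)
    (g0 g1 g2 g3 g4 h0 h1 h2 h3 h4 : κ) (m : Hk κ), NoRoot4 g0 g1 g2 g3 g4 h0 h1 h2 h3 h4 →
    p.Ok W → p.Eqs c g0 g1 g2 g3 g4 h0 h1 h2 h3 h4 → p.lin m = X 0 → LdIn w1 2 W (X 0 ^ 2)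

-- deps: GEN
def S_SQ1 : Prop :=
  ∀ (κ : Type) [Field κ] [IsAlgClosed κ] (W : Submodule κ (PS κ)) (p : Hk (PS κ))
    (g0 g1 g2 g3 h0 h1 h2 h3 m2 m3 m4 m5 : κ), NoRoot3 g0 g1 g2 g3 h0 h1 h2 h3 → p.Ok W →
    Ge w1 2 (g0 • p.a2 + g1 • p.a3 + g2 • p.a4 + g3 • p.a5) →
    Ge w1 2 (h0 • p.a2 + h1 • p.a3 + h2 • p.a4 + h3 • p.a5) →
    m2 • p.a2 + m3 • p.a3 + m4 • p.a4 + m5 • p.a5 = X 1 →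
    ∃ n1 n2 n3 : κ, Ld w1 2 (n1 • p.q35 + n2 • p.q25 + n3 • p.q24) (X 1 ^ 2)

-- deps:
def S_LINA : Prop :=
  ∀ (κ : Type) [Field κ] (W : Submodule κ (PS κ)) (p : Hk (PS κ)) (c : Cm κ)
    (g0 g1 g2 g3 g4 h0 h1 h2 h3 h4 : κ) (m0 m1 m2 u v w : Hk κ), p.Ok W →
    p.Eqs c g0 g1 g2 g3 g4 h0 h1 h2 h3 h4 → p.lin m0 = X 0 → p.lin m1 = X 1 → p.lin m2 = X 2 →
    (∀ a : Hk κ, a.Tan g0 g1 g2 g3 g4 h0 h1 h2 h3 h4 → a.lin m0 = 0 → a.lin m1 = 0 →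
      a.lin m2 = 0 → a = ⟨0, 0, 0, 0, 0, 0⟩) →
    u.Tan g0 g1 g2 g3 g4 h0 h1 h2 h3 h4 → v.Tan g0 g1 g2 g3 g4 h0 h1 h2 h3 h4 →
    w.Tan g0 g1 g2 g3 g4 h0 h1 h2 h3 h4 →
    (u.lin m0 = 1 ∧ u.lin m1 = 0 ∧ u.lin m2 = 0) → (v.lin m0 = 0 ∧ v.lin m1 = 1 ∧ v.lin m2 = 0) →
    (w.lin m0 = 0 ∧ w.lin m1 = 0 ∧ w.lin m2 = 1) → p.LdA u v w

end Pool.Agent.P.MP_6149fc_ag.V22
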