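import Pool.Agent.P.MP_6149fc_ag.V22.BaseW46
import Pool.Agent.P.MP_6149fc_ag.V22.IfaceK
import Pool.Agent.P.MP_6149fc_ag.V22.IfaceN
import Pool.Agent.P.MP_6149fc_ag.V22.IfaceV

/-! Statements: points on at most two lines, from smoothness to the local statement. -/

set_option autoImplicit false

namespace Pool.Agent.P.MP_6149fc_ag.V22

open Pool.Agent.P.MP_6149fc_ag.V18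
open MvPowerSeries (coeff X constantCoeff monomial)
open Matrix

-- deps: SIMV WALV CERTV
-- imports: Pool.Agent.P.MP_6149fc_ag.V22.BaseCertK
def S_LOCK : Prop :=
  ∀ (κ : Type) [Field κ] [IsAlgClosed κ] (U : ℕ → Submodule κ (PS κ)) (V : ℝ), CtxV U V →
    (∀ j, X j ∈ U 1) → LocK κ U V

-- deps: PARL LOCK
def S_KIT : Prop :=
  ∀ (κ : Type) [Field κ] [IsAlgClosed κ] [CharZero κ] (c : Cm κ)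
    (g0 g1 g2 g3 g4 h0 h1 h2 h3 h4 : κ) (m0 m1 m2 : Hk κ),
    (∀ a : Hk κ, a.Tan g0 g1 g2 g3 g4 h0 h1 h2 h3 h4 → a.lin m0 = 0 → a.lin m1 = 0 →
      a.lin m2 = 0 → a = ⟨0, 0, 0, 0, 0, 0⟩) →
    (∀ (p : Hk (PS κ)) (U : ℕ → Submodule κ (PS κ)) (V : ℝ), Sys U → LocK κ U V → p.Ok (U 1) →
      p.Eqs c g0 g1 g2 g3 g4 h0 h1 h2 h3 h4 → p.lin m0 = X 0 → p.lin m1 = X 1 → p.lin m2 = X 2 →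
      Loc U V) → GV c g0 g1 g2 g3 g4 h0 h1 h2 h3 h4

/-! ### Linear algebra and binary forms -/

-- deps:
def S_DUAL : Prop :=
  ∀ (κ : Type) [Field κ] (n k j : ℕ) (q : Fin k → Fin n → κ) (w : Fin j → Fin n → κ),
    LinearIndependent κ q → LinearIndependent κ w → (∀ s i, q s ⬝ᵥ w i = 0) → n = k + j + 1 →
    ∃ (u m0 : Fin n → κ) (m : Fin j → Fin n → κ), (∀ s, q s ⬝ᵥ u = 0) ∧ m0 ⬝ᵥ u = 1 ∧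
      (∀ i, m0 ⬝ᵥ w i = 0) ∧ (∀ i, m i ⬝ᵥ u = 0) ∧
      (∀ i i', m i ⬝ᵥ w i' = if i = i' then 1 else 0) ∧
      ∀ a : Fin n → κ, (∀ s, q s ⬝ᵥ a = 0) → m0 ⬝ᵥ a = 0 → (∀ i, m i ⬝ᵥ a = 0) → a = 0

-- deps: DUAL
def S_DUAL6 : Prop :=
  ∀ (κ : Type) [Field κ] (c : Cm κ) (g0 g1 g2 g3 g4 h0 h1 h2 h3 h4 : κ) (v w : Hk κ),
    (dat c g0 g1 g2 g3 g4 h0 h1 h2 h3 h4).S0 → v.Tan g0 g1 g2 g3 g4 h0 h1 h2 h3 h4 →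
    w.Tan g0 g1 g2 g3 g4 h0 h1 h2 h3 h4 →
    (∀ x y : κ, x * v.a0 + y * w.a0 = 0 → x * v.a1 + y * w.a1 = 0 → x * v.a2 + y * w.a2 = 0 →
      x * v.a3 + y * w.a3 = 0 → x * v.a4 + y * w.a4 = 0 → x * v.a5 + y * w.a5 = 0 →
      x = 0 ∧ y = 0) →
    ∃ u m0 m1 m2 : Hk κ, u.Tan g0 g1 g2 g3 g4 h0 h1 h2 h3 h4 ∧
      (u.lin m0 = 1 ∧ u.lin m1 = 0 ∧ u.lin m2 = 0) ∧ (v.lin m0 = 0 ∧ v.lin m1 = 1 ∧ v.lin m2 = 0) ∧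
      (w.lin m0 = 0 ∧ w.lin m1 = 0 ∧ w.lin m2 = 1) ∧
      ∀ a : Hk κ, a.Tan g0 g1 g2 g3 g4 h0 h1 h2 h3 h4 → a.lin m0 = 0 → a.lin m1 = 0 →
        a.lin m2 = 0 → a = ⟨0, 0, 0, 0, 0, 0⟩

-- deps: DUAL
def S_DUAL4 : Prop :=
  ∀ (κ : Type) [Field κ] (f0 f1 f2 f3 e0 e1 e2 e3 u0 u1 u2 u3 : κ),
    (∀ x y : κ, x * f0 + y * e0 = 0 → x * f1 + y * e1 = 0 → x * f2 + y * e2 = 0 →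
      x * f3 + y * e3 = 0 → x = 0 ∧ y = 0) → (u0 ≠ 0 ∨ u1 ≠ 0 ∨ u2 ≠ 0 ∨ u3 ≠ 0) →
    f0 * u0 + f1 * u1 + f2 * u2 + f3 * u3 = 0 → e0 * u0 + e1 * u1 + e2 * u2 + e3 * u3 = 0 →
    ∃ v0 v1 v2 v3 n0 n1 n2 n3 m0 m1 m2 m3 : κ,
      f0 * v0 + f1 * v1 + f2 * v2 + f3 * v3 = 0 ∧ e0 * v0 + e1 * v1 + e2 * v2 + e3 * v3 = 0 ∧
      n0 * u0 + n1 * u1 + n2 * u2 + n3 * u3 = 1 ∧ m0 * u0 + m1 * u1 + m2 * u2 + m3 * u3 = 0 ∧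
      n0 * v0 + n1 * v1 + n2 * v2 + n3 * v3 = 0 ∧ m0 * v0 + m1 * v1 + m2 * v2 + m3 * v3 = 1 ∧
      ∀ a0 a1 a2 a3 : κ, f0 * a0 + f1 * a1 + f2 * a2 + f3 * a3 = 0 →
        e0 * a0 + e1 * a1 + e2 * a2 + e3 * a3 = 0 → n0 * a0 + n1 * a1 + n2 * a2 + n3 * a3 = 0 →
        m0 * a0 + m1 * a1 + m2 * a2 + m3 * a3 = 0 → a0 = 0 ∧ a1 = 0 ∧ a2 = 0 ∧ a3 = 0

-- deps:
def S_RES2 : Prop :=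
  ∀ (κ : Type) [Field κ] [IsAlgClosed κ] (h0 h1 h2 k0 k1 k2 : κ),
    NoRoot2 h0 h1 h2 k0 k1 k2 → res2 h0 h1 h2 k0 k1 k2 ≠ 0

-- deps:
def S_PEN4 : Prop :=
  ∀ (κ : Type) [Field κ] [IsAlgClosed κ] (a0 a1 b0 b1 c u : Fin 4 → κ), u ≠ 0 → u ⬝ᵥ a0 = 0 →
    u ⬝ᵥ a1 = 0 → u ⬝ᵥ b0 = 0 → u ⬝ᵥ b1 = 0 → u ⬝ᵥ c = 0 →
    ∃ l m e0 e1 e2 : κ, (l ≠ 0 ∨ m ≠ 0) ∧ (e0 ≠ 0 ∨ e1 ≠ 0 ∨ e2 ≠ 0) ∧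
      ∀ i, l * (e0 * a0 i + e1 * a1 i) + e2 * c i + m * (e0 * b0 i + e1 * b1 i) = 0

-- deps:
def S_KMV : Prop :=
  ∀ (κ : Type) [Field κ] (d : Dat κ) (c : κ),
    (d.K1 → (ssh c d).K1 ∧ (ssh c d).p1 = d.p1 ∧ (ssh c d).r1 = d.r1 - c * d.p1) ∧
    (d.K2 → (ssh c d).K2 ∧ (ssh c d).p2 = d.p2 ∧ (ssh c d).r2 = d.r2 - c * d.p2) ∧
    (c ≠ 0 → d.K1 → (sclD c 1 d).K1) ∧ (c ≠ 0 → d.K2 → (sclD c 1 d).K2)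

-- deps:
def S_KNR : Prop :=
  ∀ (κ : Type) [Field κ] (d : Dat κ),
    (d.K0 → NoRoot4 d.r0 d.r1 d.r2 d.r3 d.r4 d.p0 d.p1 d.p2 d.p3 d.p4) ∧
    (d.K1 → NoRoot3 d.r1 d.r2 d.r3 d.r4 d.p1 d.p2 d.p3 d.p4) ∧
    (d.K11 → NoRoot2 d.r1 d.r2 d.r3 d.p1 d.p2 d.p3) ∧
    (d.K2 → NoRoot2 d.r2 d.r3 d.r4 d.p2 d.p3 d.p4)

/-! ### Consequences of smoothness -/

-- deps:
def S_LNZ : Prop :=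
  ∀ (κ : Type) [Field κ] (c : Cm κ) (al b1 b2 b3 ap e1 e2 e3 : κ),
    (dat c 0 al b1 b2 b3 0 ap e1 e2 e3).SL → (al ≠ 0 ∨ ap ≠ 0) →
    ∃ a : Hk κ, a.Tan 0 al b1 b2 b3 0 ap e1 e2 e3 ∧ ell c al ap a ≠ 0

-- deps: TV ND
def S_C03 : Prop :=
  ∀ (κ : Type) [Field κ] [CharZero κ] (c : Cm κ) (h0 h1 h2 k0 k1 k2 : κ),
    Sm3 (net (dat c 0 h0 h1 h2 0 0 k0 k1 k2 0)) → c.c03 ≠ 0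

-- deps:
def S_DA0 : Prop :=
  ∀ (κ : Type) [Field κ] (c : Cm κ) (h1 h2 k1 k2 : κ), (dat c 0 0 0 h1 h2 0 0 1 k1 k2).SL →
    h2 ^ 2 - k1 * h1 * h2 + k2 * h1 ^ 2 ≠ 0 → c.c01 = 0 → k2 * (c.c02 * h2 - c.c03 * h1) ≠ 0

-- deps: PEN4
def S_DAB : Prop :=
  ∀ (κ : Type) [Field κ] [IsAlgClosed κ] (c : Cm κ) (h0 h1 h2 k0 k1 k2 u2 u3 u4 u5 : κ),
    (dat c 0 0 h0 h1 h2 0 0 k0 k1 k2).SL → u2 = kp1 h0 h1 h2 k0 k1 k2 →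
    u3 = kp2 h0 h1 h2 k0 k1 k2 → u4 = kp3 h0 h1 h2 k0 k1 k2 → u5 = kp4 h0 h1 h2 k0 k1 k2 →
    (u2 ≠ 0 ∨ u3 ≠ 0 ∨ u4 ≠ 0 ∨ u5 ≠ 0) →
    c.c01 * u2 + c.c02 * u3 + c.c03 * u4 ≠ 0 ∨ c.c01 * u3 + c.c02 * u4 + c.c03 * u5 ≠ 0

-- deps:
def S_DBB : Prop :=
  ∀ (κ : Type) [Field κ] (c : Cm κ) (h1 h2 k1 k2 : κ), (dat c 0 0 1 h1 h2 0 0 0 k1 k2).SL →
    (k1 ≠ 0 ∨ k2 ≠ 0) → c.c01 * ((h1 + k2) * k2 - h2 * k1) + c.c02 * (-(1 + k1) * k2) +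
      c.c03 * ((1 + k1) * k1) ≠ 0

/-! ### The cases -/

-- deps: KIT SCH4 SQ1 LINA DUAL4 PK1G
def S_GK1U : Prop :=
  ∀ (κ : Type) [Field κ] [IsAlgClosed κ] [CharZero κ] (c : Cm κ)
    (al b1 b2 b3 ap e1 e2 e3 f0 f1 f2 f3 : κ), (al ≠ 0 ∨ ap ≠ 0) →
    f0 = ap * b1 - al * (al + e1) → f1 = ap * b2 - al * (b1 + e2) →
    f2 = ap * b3 - al * (b2 + e3) → f3 = -(al * b3) → NoRoot3 al b1 b2 b3 ap e1 e2 e3 →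
    NoRoot3 f0 f1 f2 f3 ap e1 e2 e3 → (dat c 0 al b1 b2 b3 0 ap e1 e2 e3).S0 →
    (∃ a : Hk κ, a.Tan 0 al b1 b2 b3 0 ap e1 e2 e3 ∧ ell c al ap a ≠ 0) →
    GV c 0 al b1 b2 b3 0 ap e1 e2 e3

-- deps: KIT LINA PK1G
def S_GK1V : Prop :=
  ∀ (κ : Type) [Field κ] [IsAlgClosed κ] [CharZero κ] (c : Cm κ) (b1 b2 b3 e1 e2 : κ),
    b3 ≠ 0 → b3 - b1 * e2 ≠ 0 → res2 b1 b2 b3 1 e1 e2 ≠ 0 →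
    (∃ a : Hk κ, a.Tan 0 0 b1 b2 b3 0 1 e1 e2 0 ∧ ell c 0 1 a ≠ 0) →
    GV c 0 0 b1 b2 b3 0 1 e1 e2 0

-- deps: KIT PK1A
def S_GK1A : Prop :=
  ∀ (κ : Type) [Field κ] [IsAlgClosed κ] [CharZero κ] (c : Cm κ) (b1 b2 b3 e1 e2 : κ),
    b3 ≠ 0 → b3 - b1 * e2 = 0 → res2 b1 b2 b3 1 e1 e2 ≠ 0 →
    (∃ a : Hk κ, a.Tan 0 0 b1 b2 b3 0 1 e1 e2 0 ∧ ell c 0 1 a ≠ 0) →
    GV c 0 0 b1 b2 b3 0 1 e1 e2 0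

-- deps: KIT PK1B
def S_GK1B : Prop :=
  ∀ (κ : Type) [Field κ] [IsAlgClosed κ] [CharZero κ] (c : Cm κ) (b1 b2 b3 e2 e3 : κ),
    res2 (b1 + e2) (b2 + e3) b3 (-1) e2 e3 ≠ 0 →
    (∃ a : Hk κ, a.Tan 0 1 b1 b2 b3 0 0 (-1) e2 e3 ∧ ell c 1 0 a ≠ 0) →
    GV c 0 1 b1 b2 b3 0 0 (-1) e2 e3

-- deps: KIT PK2G
def S_GK2G : Prop :=
  ∀ (κ : Type) [Field κ] [IsAlgClosed κ] [CharZero κ] (c : Cm κ) (h0 h1 h2 k0 k1 k2 : κ),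
    res2 h0 h1 h2 k0 k1 k2 ≠ 0 → c.c03 ≠ 0 → h0 ≠ 0 → k2 ≠ 0 → GV c 0 h0 h1 h2 0 0 k0 k1 k2 0

-- deps: KIT PK2H
def S_GK2H : Prop :=
  ∀ (κ : Type) [Field κ] [IsAlgClosed κ] [CharZero κ] (c : Cm κ) (h1 h2 k0 k1 k2 : κ),
    res2 0 h1 h2 k0 k1 k2 ≠ 0 → c.c03 ≠ 0 → k2 ≠ 0 →
    (∃ a : Hk κ, a.Tan 0 0 h1 h2 0 0 k0 k1 k2 0 ∧ ell c 0 k0 a ≠ 0) →
    GV c 0 0 h1 h2 0 0 k0 k1 k2 0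

-- deps: KIT PK2JA PK2JB
def S_GK2J : Prop :=
  ∀ (κ : Type) [Field κ] [IsAlgClosed κ] [CharZero κ] (c : Cm κ) (h1 h2 k0 k1 : κ),
    res2 0 h1 h2 k0 k1 0 ≠ 0 → c.c03 ≠ 0 → GV c 0 0 h1 h2 0 0 k0 k1 0 0

-- deps: KIT PDA1 PDA2 PDA3
def S_GDA : Prop :=
  ∀ (κ : Type) [Field κ] [IsAlgClosed κ] [CharZero κ] (c : Cm κ) (h1 h2 k1 k2 u2 u3 u4 u5 : κ),
    u2 = kp1 0 h1 h2 1 k1 k2 → u3 = kp2 0 h1 h2 1 k1 k2 → u4 = kp3 0 h1 h2 1 k1 k2 →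
    u5 = kp4 0 h1 h2 1 k1 k2 → k2 ≠ 0 → h2 ^ 2 - k1 * h1 * h2 + k2 * h1 ^ 2 ≠ 0 →
    (c.c01 = 0 → k2 * (c.c02 * h2 - c.c03 * h1) ≠ 0) →
    (c.c01 * u2 + c.c02 * u3 + c.c03 * u4 ≠ 0 ∨ c.c01 * u3 + c.c02 * u4 + c.c03 * u5 ≠ 0) →
    GV c 0 0 0 h1 h2 0 0 1 k1 k2

-- deps: KIT PDA4 PDA5
def S_GDA4 : Prop :=
  ∀ (κ : Type) [Field κ] [IsAlgClosed κ] [CharZero κ] (c : Cm κ) (h1 h2 k1 : κ),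
    h2 ≠ 0 → h1 * k1 - h2 ≠ 0 → c.c01 ≠ 0 → GV c 0 0 0 h1 h2 0 0 1 k1 0

-- deps: KIT PDB1 PDB2
def S_GDB : Prop :=
  ∀ (κ : Type) [Field κ] [IsAlgClosed κ] [CharZero κ] (c : Cm κ) (h1 h2 k1 k2 : κ),
    k2 ^ 2 - h1 * k1 * k2 + h2 * k1 ^ 2 ≠ 0 →
    c.c01 * ((h1 + k2) * k2 - h2 * k1) + c.c02 * (-(1 + k1) * k2) + c.c03 * ((1 + k1) * k1) ≠ 0 →
    GV c 0 0 1 h1 h2 0 0 0 k1 k2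

/-! ### The normal forms -/

-- deps: SM0V SMLV LNZ RES2 GK1U GK1V GK1A
def S_N1A : Prop :=
  ∀ (κ : Type) [Field κ] [IsAlgClosed κ] [CharZero κ] (c : Cm κ) (b1 b2 b3 e1 e2 e3 : κ),
    NoRoot3 0 b1 b2 b3 1 e1 e2 e3 → TD (dat c 0 0 b1 b2 b3 0 1 e1 e2 e3)

-- deps: SM0V SMLV LNZ RES2 GK1U GK1B
def S_N1B : Prop :=
  ∀ (κ : Type) [Field κ] [IsAlgClosed κ] [CharZero κ] (c : Cm κ) (b1 b2 b3 e1 e2 e3 : κ),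
    NoRoot3 1 b1 b2 b3 0 e1 e2 e3 → TD (dat c 0 1 b1 b2 b3 0 0 e1 e2 e3)

-- deps: SMLV LNZ C03 GK2G GK2H GK2J
def S_N11 : Prop :=
  ∀ (κ : Type) [Field κ] [IsAlgClosed κ] [CharZero κ] (c : Cm κ) (h0 h1 h2 k0 k1 k2 : κ),
    res2 h0 h1 h2 k0 k1 k2 ≠ 0 → (h0 = 0 ∨ k2 ≠ 0) → TD (dat c 0 h0 h1 h2 0 0 k0 k1 k2 0)

-- deps: SMLV DA0 DAB GDA GDA4
def S_N2A : Prop :=
  ∀ (κ : Type) [Field κ] [IsAlgClosed κ] [CharZero κ] (c : Cm κ) (h1 h2 k1 k2 : κ),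
    res2 0 h1 h2 1 k1 k2 ≠ 0 → TD (dat c 0 0 0 h1 h2 0 0 1 k1 k2)

-- deps: SMLV DBB GDB
def S_N2B : Prop :=
  ∀ (κ : Type) [Field κ] [IsAlgClosed κ] [CharZero κ] (c : Cm κ) (h1 h2 k1 k2 : κ),
    res2 1 h1 h2 0 k1 k2 ≠ 0 → TD (dat c 0 0 1 h1 h2 0 0 0 k1 k2)

-- redeps: QK0 SM0V KNR KIT SCH6 SQ0 LINA DUAL6 PK0
-- redeps: QK1 MOVS MOVW MOVT KMV KNR N1A N1B
-- redeps: QK11 MOVW KNR RES2 N11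
-- redeps: QK2 MOVS MOVW MOVT KMV KNR RES2 N2A N2B

end Pool.Agent.P.MP_6149fc_ag.V22
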