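import Pool.Agent.P.MP_6149fc_ag.V22.IfaceN
import Pool.Agent.P.MP_6149fc_ag.V22.IfaceG
import Pool.Agent.P.MP_6149fc_ag.V22.IfaceQ
import Pool.Agent.P.MP_6149fc_ag.V22.IfaceK
import Pool.Agent.P.MP_6149fc_ag.V22.IfaceC
import Pool.Agent.P.MP_6149fc_ag.V22.IfaceV
import Pool.Agent.P.MP_6149fc_ag.V22.IfaceE
import Pool.Agent.P.MP_6149fc_ag.V22.IfaceB

section

/-! Step QK0. -/

set_option autoImplicit false
set_option linter.unusedSectionVars false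

namespace Pool.Agent.P.MP_6149fc_ag.V22

open Pool.Agent.P.MP_6149fc_ag.V18
open MvPowerSeries (coeff X constantCoeff monomial)
open Matrix

namespace QK0x

theorem indep {κ : Type} [Field κ] {f0 f1 f2 f3 f4 f5 f6 : κ}
    (h : (⟨f1, f2, f3, f4, f5, f6⟩ : Hk κ).dx f0 f1 f2 f3 ≠ 0) (x y : κ)
    (e0 : x * f0 + y * f1 = 0) (e1 : x * f1 + y * f2 = 0) (e2 : x * f2 + y * f3 = 0)
    (e3 : x * f3 + y * f4 = 0) (e4 : x * f4 + y * f5 = 0) (e5 : x * f5 + y * f6 = 0) :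
    x = 0 ∧ y = 0 := by
  have hx : x = 0 := by
    refine (mul_eq_zero.1 ?_).resolve_right h
    have e : x * (⟨f1, f2, f3, f4, f5, f6⟩ : Hk κ).dx f0 f1 f2 f3 =
        (⟨f1, f2, f3, f4, f5, f6⟩ : Hk κ).dx (x * f0 + y * f1) (x * f1 + y * f2) (x * f2 + y * f3)
          (x * f3 + y * f4) := by
      simp only [Hk.dx, Hk.d123, Hk.d023, Hk.d013, Hk.d012, smul_eq_mul]
      ring
    rw [e, e0, e1, e2, e3]
    simp [Hk.dx]
  refine ⟨hx, by_contra fun hy => h ?_⟩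
  simp only [hx, zero_mul, zero_add, mul_eq_zero, hy, false_or] at e0 e1 e2 e3 e4 e5
  simp [Hk.dx, Hk.d123, Hk.d023, Hk.d013, Hk.d012, e0, e1, e2, e3, e4, e5]

end QK0x

theorem p_QK0 (hSM0V : S_SM0V) (hKNR : S_KNR) (hKIT : S_KIT) (hSCH6 : S_SCH6) (hSQ0 : S_SQ0) (hLINA : S_LINA) (hDUAL6 : S_DUAL6) (hPK0 : S_PK0) :
    S_QK0 := by
  intro κ _ _ _ d h hs
  have N := (hKNR κ d).1 h
  obtain ⟨f0, f1, f2, f3, f4, f5, f6, tv, tw, hd⟩ := hSCH6 κ _ _ _ _ _ _ _ _ _ _ N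
  obtain ⟨u, m0, m1, m2, tu, lu, lv, lw, hz⟩ := hDUAL6 κ d.cm _ _ _ _ _ _ _ _ _ _ _ _
    (hSM0V κ d hs) tv tw (QK0x.indep hd)
  refine hKIT κ d.cm _ _ _ _ _ _ _ _ _ _ m0 m1 m2 hz fun p U V _ L ok E e0 e1 e2 => L.k0 ?_
  exact hPK0 κ U p u f0 f1 f2 f3 f4 f5 f6 ok
    (hLINA κ _ p _ _ _ _ _ _ _ _ _ _ _ m0 m1 m2 u _ _ ok E e0 e1 e2 hz tu tv tw lu lv lw) hd
    (hSQ0 κ _ p _ _ _ _ _ _ _ _ _ _ _ m0 N ok E e0)

end Pool.Agent.P.MP_6149fc_ag.V22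

end

section

/-! Step QK1. -/

set_option autoImplicit false
set_option linter.unusedSectionVars false

namespace Pool.Agent.P.MP_6149fc_ag.V22

open Pool.Agent.P.MP_6149fc_ag.V18
open MvPowerSeries (coeff X constantCoeff monomial)
open Matrix

theorem p_QK1 (hMOVS : S_MOVS) (hMOVW : S_MOVW) (hMOVT : S_MOVT) (hKMV : S_KMV) (hKNR : S_KNR) (hN1A : S_N1A) (hN1B : S_N1B) :
    S_QK1 := by
  intro κ _ _ _ d hd
  have hA : ∀ d : Dat κ, d.K1 → d.r1 = 0 → d.p1 = 1 → TD d := by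
    intro d hd hr hp
    have hn := (hKNR κ d).2.1 hd
    rw [hr, hp] at hn
    exact td_of_dat (by rw [hd.2.1, hr, hd.1, hp]; exact hN1A κ _ _ _ _ _ _ _ hn)
  have hB : ∀ d : Dat κ, d.K1 → d.r1 = 1 → d.p1 = 0 → TD d := by
    intro d hd hr hp
    have hn := (hKNR κ d).2.1 hd
    rw [hr, hp] at hn
    exact td_of_dat (by rw [hd.2.1, hr, hd.1, hp]; exact hN1B κ _ _ _ _ _ _ _ hn)
  by_cases hp : d.p1 = 0
  · have hr : d.r1 ≠ 0 := hd.2.2.1.resolve_left (not_not.2 hp)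
    have hs : d.r1⁻¹ ≠ 0 := inv_ne_zero hr
    refine (hMOVT κ d.r1⁻¹ 1 d hs one_ne_zero).2.td (hB _ ((hKMV κ d _).2.2.1 hs hd) ?_ ?_)
    · exact inv_mul_cancel₀ hr
    · show d.r1⁻¹ * d.p1 = 0
      rw [hp, mul_zero]
  · have hs : d.p1⁻¹ ≠ 0 := inv_ne_zero hp
    obtain ⟨h1, h2, h3⟩ := (hKMV κ d (d.r1 / d.p1)).1 hd
    refine (hMOVW κ d).td ((hMOVS κ (d.r1 / d.p1) _).td ((hMOVW κ _).td
      ((hMOVT κ d.p1⁻¹ 1 (ssh (d.r1 / d.p1) d) hs one_ne_zero).2.td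
        (hA _ ((hKMV κ _ _).2.2.1 hs h1) ?_ ?_))))
    · show d.p1⁻¹ * (ssh (d.r1 / d.p1) d).r1 = 0
      rw [h3, div_mul_cancel₀ _ hp, sub_self, mul_zero]
    · show d.p1⁻¹ * (ssh (d.r1 / d.p1) d).p1 = 1
      rw [h2, inv_mul_cancel₀ hp]

end Pool.Agent.P.MP_6149fc_ag.V22

end

section

/-! Step QK11. -/

set_option autoImplicit false
set_option linter.unusedSectionVars false

namespace Pool.Agent.P.MP_6149fc_ag.V22

open Pool.Agent.P.MP_6149fc_ag.V18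
open MvPowerSeries (coeff X constantCoeff monomial)
open Matrix

theorem p_QK11 (hMOVW : S_MOVW) (hKNR : S_KNR) (hRES2 : S_RES2) (hN11 : S_N11) :
    S_QK11 := by
  intro κ _ _ _ d hd
  have hres : res2 d.r1 d.r2 d.r3 d.p1 d.p2 d.p3 ≠ 0 :=
    hRES2 κ _ _ _ _ _ _ ((hKNR κ d).2.2.1 hd)
  obtain ⟨hp0, hr0, hp4, hr4, -⟩ := hd
  by_cases hc : d.r1 = 0 ∨ d.p3 ≠ 0
  · refine td_of_dat ?_
    rw [hp0, hr0, hp4, hr4]
    exact hN11 κ _ _ _ _ _ _ _ hres hc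
  · simp only [not_or, not_not] at hc
    refine (hMOVW κ d).td (td_of_dat ?_)
    change TD (dat (swpD d).cm d.p4 d.p3 d.p2 d.p1 d.p0 d.r4 d.r3 d.r2 d.r1 d.r0)
    rw [hp0, hr0, hp4, hr4]
    refine hN11 κ _ _ _ _ _ _ _ ?_ (Or.inr hc.1)
    intro h
    apply hres
    rw [← h]
    simp only [res2]
    ring

end Pool.Agent.P.MP_6149fc_ag.V22

end

section

/-! Step QK2. -/

set_option autoImplicit false
set_option linter.unusedSectionVars false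

namespace Pool.Agent.P.MP_6149fc_ag.V22

open Pool.Agent.P.MP_6149fc_ag.V18
open MvPowerSeries (coeff X constantCoeff monomial)
open Matrix

theorem p_QK2 (hMOVS : S_MOVS) (hMOVW : S_MOVW) (hMOVT : S_MOVT) (hKMV : S_KMV) (hKNR : S_KNR) (hRES2 : S_RES2) (hN2A : S_N2A) (hN2B : S_N2B) :
    S_QK2 := by
  intro κ _ _ _ d hd
  have fin : ∀ e : Dat κ, e.K2 → (e.r2 = 0 ∧ e.p2 = 1 ∨ e.r2 = 1 ∧ e.p2 = 0) → TD e := by
    intro e he h
    have hr := hRES2 κ _ _ _ _ _ _ ((hKNR κ e).2.2.2 he)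
    obtain ⟨a1, a2, a3, a4, -⟩ := he
    rcases h with ⟨b1, b2⟩ | ⟨b1, b2⟩ <;> rw [b1, b2] at hr
    · exact td_of_dat (by rw [a1, a2, a3, a4, b1, b2]; exact hN2A κ _ _ _ _ _ hr)
    · exact td_of_dat (by rw [a1, a2, a3, a4, b1, b2]; exact hN2B κ _ _ _ _ _ hr)
  by_cases h : d.p2 = 0
  · have h' : d.r2 ≠ 0 := hd.2.2.2.2.1.resolve_left (not_not.2 h)
    refine (hMOVT κ d.r2⁻¹ 1 d (inv_ne_zero h') one_ne_zero).2.td
      (fin _ ((hKMV κ d _).2.2.2 (inv_ne_zero h') hd) (.inr ⟨inv_mul_cancel₀ h', ?_⟩))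
    show d.r2⁻¹ * d.p2 = 0
    rw [h, mul_zero]
  · obtain ⟨a1, a2, a3⟩ := (hKMV κ d (d.r2 / d.p2)).2.1 hd
    rw [div_mul_cancel₀ _ h, sub_self] at a3
    refine (hMOVW κ d).td ((hMOVS κ (d.r2 / d.p2) _).td ((hMOVW κ _).td
      ((hMOVT κ d.p2⁻¹ 1 (ssh (d.r2 / d.p2) d) (inv_ne_zero h) one_ne_zero).2.td
        (fin _ ((hKMV κ _ _).2.2.2 (inv_ne_zero h) a1) (.inl ⟨?_, ?_⟩)))))
    · show d.p2⁻¹ * (ssh (d.r2 / d.p2) d).r2 = 0
      rw [a3, mul_zero]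
    · show d.p2⁻¹ * (ssh (d.r2 / d.p2) d).p2 = 1
      rw [a2, inv_mul_cancel₀ h]

end Pool.Agent.P.MP_6149fc_ag.V22

end

section

/-! Step Q111. -/

set_option autoImplicit false
set_option linter.unusedSectionVars false

namespace Pool.Agent.P.MP_6149fc_ag.V22

open Pool.Agent.P.MP_6149fc_ag.V18
open MvPowerSeries (coeff X constantCoeff monomial)
open Matrix

theorem p_Q111 (hQT0 : S_QT0) (hPT : S_PT) (hLT : S_LT) (hC03T : S_C03T) (hSM0V : S_SM0V) :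
    S_Q111 := by
  intro κ _ _ _ d hK hs
  obtain ⟨k1, k2, k3, k4, k5, k6⟩ := id hK
  have hD : d.Dt ≠ 0 := fun h0 => by
    have hdet : (!![d.r1, -d.r3, 0; d.p1, d.r1 - d.p3, -d.r3; 0, d.p1, -d.p3] :
        Matrix (Fin 3) (Fin 3) κ).det = 0 := by
      rw [Dat.Dt] at h0
      rw [Matrix.det_fin_three]; simp; linear_combination h0
    obtain ⟨ε, h1, h2⟩ := Matrix.exists_vecMul_eq_zero_iff.2 hdet
    have a0 := congrFun h2 0
    have a1 := congrFun h2 1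
    have a2 := congrFun h2 2
    simp only [vecMul, dotProduct, Fin.sum_univ_three, of_apply, cons_val', cons_val_zero,
      cons_val_one, cons_val_two, cons_val_fin_one, head_cons, tail_cons, head_fin_const,
      Pi.zero_apply] at a0 a1 a2
    refine h1 (hSM0V κ d hs ε ?_)
    funext l
    fin_cases l <;> simp [Dat.lin, k1, k2, k3, k4]
    · linear_combination a0
    · linear_combination a1 - a0 + ε 0 * k6 + ε 1 * k5
    · linear_combination a2 - a1 + ε 1 * k6 + ε 2 * k5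
    · linear_combination -a2
  obtain ⟨c1, c2, c3⟩ := hC03T κ d hs hK
  obtain ⟨i, j, k, hij, hik, hjk, h⟩ := hLT κ _ _ _ d.r1 (d.r1 - d.p1) d.p3 (d.p3 - d.r3)
    (d.p3 - d.p1) (d.r1 - d.r3) c1 c2 c3 (fun h0 => hD (by rw [← h0, Dat.Dt]; ring))
  have hX : ∀ l : Fin 3, Hm w1 1 (X l : PS κ) := fun l => by
    have := Hm.X (κ := κ) (w := w1) l
    rwa [show w1 l = 1 by fin_cases l <;> rfl] at this
  refine hQT0 κ d i j k hij hik hjk hK hD fun p U V hc hp he e1 e2 e3 => h U V hc (fun l => ?_)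
    (hPT κ (U 1) p d _ _ _ hp he hK hD (hX i) (hX j) (hX k) e1 e2 e3)
  have : l = i ∨ l = j ∨ l = k := by omega
  rcases this with rfl | rfl | rfl
  · rw [← e1]; exact sub_mem hp.w0 hp.w1
  · rw [← e2]; exact sub_mem hp.w5 hp.w4
  · rw [← e3]; exact hp.w1

end Pool.Agent.P.MP_6149fc_ag.V22

end

section

/-! Step Q21. -/

set_option autoImplicit false
set_option linter.unusedSectionVars false

namespace Pool.Agent.P.MP_6149fc_ag.V22

open Pool.Agent.P.MP_6149fc_ag.V18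
open MvPowerSeries (coeff X constantCoeff monomial)
open Matrix

theorem p_Q21 (hPARL : S_PARL) (hLUA : S_LUA) (hLUC : S_LUC) (hC03V : S_C03V) (hSM0V : S_SM0V) (hSMLV : S_SMLV) :
    S_Q21 := by
  intro κ _ _ _ d hk hs
  obtain ⟨p0, r0, p1, r1, p4, r4⟩ := id hk
  have hD : d.Du ≠ 0 := fun h => by
    obtain ⟨ε, e0, e⟩ := (exists_vecMul_eq_zero_iff
      (M := !![d.r2, d.r3, 0; d.p2, d.p3 + d.r2, d.r3; 0, d.p2, d.p3])).2 (by
        rw [det_fin_three]; simp; rw [Dat.Du] at h; linear_combination h)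
    have a := congrFun e 0
    have b := congrFun e 1
    have c := congrFun e 2
    simp [vecMul, dotProduct, Fin.sum_univ_three] at a b c
    refine e0 (hSM0V κ d hs ε (funext fun i => ?_))
    fin_cases i <;> simp [Dat.lin, p0, r0, p1, r1, p4, r4, a, b, c]
  have h3 := hC03V κ d hs p0 r0 p4 r4
  refine hPARL κ d ![![1, 0, 0, 0, 0, 0], ![0, 1, 0, 0, 0, 0], ![0, 0, 0, 0, 0, 1]]
    (fun v a b => ?_) fun p U V c1 c2 c3 c4 => ?_
  · have a0 := a 0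
    have a1 := a 1
    have a2 := a 2
    have b0 := b 0
    have b1 := b 1
    have b2 := b 2
    simp [Dat.lin, dotProduct, Fin.sum_univ_six, p0, r0, p1, r1, p4, r4] at a0 a1 a2 b0 b1 b2
    have v2 : d.Du * v 2 = 0 := by
      rw [Dat.Du]
      linear_combination ((d.p3 + d.r2) * d.p3 - d.r3 * d.p2) * a0 - d.r3 * d.p3 * a1 +
        d.r3 ^ 2 * a2
    have v3 : d.Du * v 3 = 0 := by
      rw [Dat.Du]
      linear_combination -d.p2 * d.p3 * a0 + d.r2 * d.p3 * a1 - d.r2 * d.r3 * a2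
    have v4 : d.Du * v 4 = 0 := by
      rw [Dat.Du]
      linear_combination d.p2 ^ 2 * a0 - d.r2 * d.p2 * a1 +
        (d.r2 * (d.p3 + d.r2) - d.r3 * d.p2) * a2
    rw [mul_eq_zero_iff_left hD] at v2 v3 v4
    funext i
    fin_cases i
    exacts [b0, b1, v2, v3, v4, b2]
  · have c5 : p.C015 := ⟨by simpa [P6.lin] using c4 0, by simpa [P6.lin] using c4 1,
      by simpa [P6.lin] using c4 2⟩
    by_cases r2 : d.r2 = 0
    · refine hLUC κ U V p d c1 c2 c3 hk hD c5 h3 (fun c => ?_) r2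
      have a : d.p3 ≠ 0 := fun e => hD (by simp [Dat.Du, e, r2])
      have b : d.r3 ≠ 0 := fun e => hD (by simp [Dat.Du, e, r2])
      exact hSMLV κ d hs (-(-d.c03 / d.p3 * d.p2 + d.c02) / d.r3) 1 1 0 (-d.c03 / d.p3) p0 r0
        (.inr one_ne_zero) (.inl one_ne_zero) (by simp [r1]) (by simp [r2, p1, c])
        (by field_simp; ring) (by simp [r4, a]) (by simp [p4])
    · exact hLUA κ U V p d c1 c2 c3 hk hD c5 h3 r2

end Pool.Agent.P.MP_6149fc_ag.V22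

end

section

/-! Step Q3N. -/

set_option autoImplicit false
set_option linter.unusedSectionVars false

namespace Pool.Agent.P.MP_6149fc_ag.V22

open Pool.Agent.P.MP_6149fc_ag.V18
open MvPowerSeries (coeff X constantCoeff monomial)
open Matrix

namespace Q3Nx

theorem core (hPARL : S_PARL) (hLN : S_LN) (κ : Type) [Field κ] [IsAlgClosed κ] [CharZero κ]
    (d : Dat κ) (hK : d.K3) (h3 : d.p3 ≠ 0) (h4 : d.p4 = 0) (r3 : d.r3 ≠ 0) (r4 : d.r4 ≠ 0)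
    (hc : d.c01 = -d.r3) : GoalV (net d) (e3 κ) := by
  refine hPARL κ d ![![1, 0, 0, 0, 0, 0], ![0, 1, 0, 0, 0, 0], ![0, 0, 1, 0, 0, 0]]
    (fun v hv hm => ?_) fun p U V hU hp he hl => hLN κ U V p d hU hp he hK h4 ?_ h3 r3 r4 hc
  · obtain ⟨a0, b0, a1, b1, a2, b2⟩ := hK
    have e0 := hv 0
    have e1 := hv 1
    have e2 := hv 2
    have m0 := hm 0
    have m1 := hm 1
    have m2 := hm 2
    simp [Dat.lin, dotProduct, Fin.sum_univ_six, a0, b0, a1, b1, a2, b2, h4, h3] at e0 e1 e2 m0 m1 m2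
    simp [e2, r3] at e0
    simp [e0, e2, r4] at e1
    funext i
    fin_cases i <;> simp [*]
  · have m0 := hl 0
    have m1 := hl 1
    have m2 := hl 2
    simp [P6.lin] at m0 m1 m2
    exact ⟨m0, m1, m2⟩

end Q3Nx

theorem p_Q3N (hPARL : S_PARL) (hLN : S_LN) (hSM0V : S_SM0V) (hSMLV : S_SMLV) (hMOVT : S_MOVT) :
    S_Q3N := by
  intro κ _ _ _ d hK h3 h4 hs
  have h0 := hSM0V κ d hs
  have hL := hSMLV κ d hs
  obtain ⟨a0, b0, a1, b1, a2, b2⟩ := id hK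
  have r3 : d.r3 ≠ 0 := fun e => h3 (by
    have := h0 ![d.p3, 0, -d.r4] (by
      funext i
      fin_cases i <;> simp [Dat.lin, a0, b0, a1, b1, a2, b2, h4, e, mul_comm])
    simpa using congrFun this 0)
  have r4 : d.r4 ≠ 0 := fun e => h3 (by
    have := h0 ![d.p3 ^ 2, -(d.r3 * d.p3), d.r3 ^ 2] (by
      funext i
      fin_cases i <;> simp [Dat.lin, a0, b0, a1, b1, a2, b2, h4, e] <;> ring)
    simpa using congrFun this 0)
  have hc : d.c01 ≠ 0 := fun e =>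
    hL (-d.c02 / d.r3) 1 1 0 (-(-d.c02 / d.r3 * d.r4 + d.c03) / d.p3) a0 b0 (Or.inr one_ne_zero)
      (Or.inl one_ne_zero) (by simp [b1]) (by simp [b2, a1, e]) (by simp [a2, r3])
      (by field_simp; ring) (by simp [h4])
  refine ((hMOVT κ 1 (-d.r3 / d.c01) d one_ne_zero
    (div_ne_zero (neg_ne_zero.2 r3) hc)).2).2 (Q3Nx.core hPARL hLN κ _ ?_ ?_ ?_ ?_ ?_ ?_)
  · simpa [sclD, Dat.K3] using hK
  · simpa [sclD] using h3
  · simpa [sclD] using h4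
  · simpa [sclD] using r3
  · simpa [sclD] using r4
  · simp [sclD, hc]

end Pool.Agent.P.MP_6149fc_ag.V22

end

section

/-! Step Q3S. -/

set_option autoImplicit false
set_option linter.unusedSectionVars false

namespace Pool.Agent.P.MP_6149fc_ag.V22

open Pool.Agent.P.MP_6149fc_ag.V18
open MvPowerSeries (coeff X constantCoeff monomial)
open Matrix

namespace Q3Sx

variable {κ : Type} [Field κ]

theorem inj {d : Dat κ} (hk : d.K3) (z7 : d.p3 = 0) (hr : d.r3 ≠ 0) (hp : d.p4 ≠ 0)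
    (hq : d.p4 + d.r3 ≠ 0) (v : Fin 6 → κ) (h1 : ∀ s, d.lin s ⬝ᵥ v = 0) (b0 : v 0 = 0)
    (b1 : v 1 = 0) (b2 : v 2 = 0) : v = 0 := by
  obtain ⟨z1, z2, z3, z4, z5, z6⟩ := hk
  have a0 : d.r3 * v 3 + d.r4 * v 4 = 0 := by
    simpa [Dat.lin, dotProduct, Fin.sum_univ_six, b0, b1, b2] using h1 0
  have a1 : (d.p4 + d.r3) * v 4 + d.r4 * v 5 = 0 := by
    simpa [Dat.lin, dotProduct, Fin.sum_univ_six, b0, b1, b2, z6, z7] using h1 1
  have a2 : d.p4 * v 5 = 0 := by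
    simpa [Dat.lin, dotProduct, Fin.sum_univ_six, b0, b1, b2, z5, z7] using h1 2
  have b5 := (mul_eq_zero.1 a2).resolve_left hp
  have b4 : v 4 = 0 := mul_left_cancel₀ hq (by linear_combination a1 - d.r4 * b5)
  have b3 : v 3 = 0 := mul_left_cancel₀ hr (by linear_combination a0 - d.r4 * b4)
  funext i
  fin_cases i
  exacts [b0, b1, b2, b3, b4, b5]

theorem nz {d : Dat κ} (hk : d.K3) (z7 : d.p3 = 0) (s0 : d.S0) (sl : d.SL) :
    d.r3 ≠ 0 ∧ d.p4 ≠ 0 ∧ d.p4 + d.r3 ≠ 0 ∧ d.c01 ≠ 0 := by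
  obtain ⟨z1, z2, z3, z4, z5, z6⟩ := hk
  have key : ∀ a b c : κ, a * d.r3 = 0 → a * d.r4 + b * (d.p4 + d.r3) = 0 →
      b * d.r4 + c * d.p4 = 0 → a = 0 ∧ b = 0 ∧ c = 0 := fun a b c h1 h2 h3 => by
    have := s0 ![a, b, c] (by
      funext i
      fin_cases i <;> simp [Dat.lin, z1, z2, z3, z4, z5, z6, z7, h1, h2, h3])
    exact ⟨congrFun this 0, congrFun this 1, congrFun this 2⟩
  have hp : d.p4 ≠ 0 := fun h => one_ne_zero (key 0 0 1 (by ring) (by ring) (by rw [h]; ring)).2.2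
  have hq : d.p4 + d.r3 ≠ 0 := fun h =>
    hp (key 0 d.p4 (-d.r4) (by ring) (by rw [h]; ring) (by ring)).2.1
  have hr : d.r3 ≠ 0 := fun h => pow_ne_zero 2 hp
    (key (d.p4 ^ 2) (-d.r4 * d.p4) (d.r4 ^ 2) (by rw [h]; ring) (by rw [h]; ring) (by ring)).1
  exact ⟨hr, hp, hq, fun h => sl (-d.c02 / (d.p4 + d.r3)) 1 0 1
    (-(-d.c02 / (d.p4 + d.r3) * d.r4 + d.c03) / d.p4) z1 z2 (.inr one_ne_zero)
    (.inr (.inl one_ne_zero)) (by rw [z3]; ring) (by rw [z3, z4, z5]; ring)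
    (by rw [z5, z6, z7, h]; ring) (by rw [z7]; field_simp; ring) (by field_simp; ring)⟩

end Q3Sx

theorem p_Q3S (hPARL : S_PARL) (hSM0V : S_SM0V) (hSMLV : S_SMLV) (hMOVT : S_MOVT) (hADM : S_ADM) (hGR : S_GR) (hGRED : S_GRED) (hPE3 : S_PE3) (hSUME : S_SUME) (hEAL2 : S_EAL2) :
    S_Q3S := by
  intro κ _ _ _ d hk z7 hs
  have main : ∀ d : Dat κ, d.K3 → d.p3 = 0 → d.c01 = -d.r3 → d.r3 ≠ 0 → d.p4 ≠ 0 →
      d.p4 + d.r3 ≠ 0 → GoalV (net d) (e3 κ) := by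
    intro d hk z7 hc hr hp hq
    refine hPARL κ d (fun j => Pi.single (Fin.castAdd 3 j) 1)
      (fun v h1 h2 => Q3Sx.inj hk z7 hr hp hq v h1 (by simpa using h2 0) (by simpa using h2 1)
        (by simpa using h2 2)) fun p U V hC ok eq hX => ?_
    have e0 : p.a0 = X 0 := by simpa [P6.lin, Pi.single_apply, Fin.ext_iff] using hX 0
    have e1 : p.a1 = X 1 := by simpa [P6.lin, Pi.single_apply, Fin.ext_iff] using hX 1
    have e2 : p.a2 = X 2 := by simpa [P6.lin, Pi.single_apply, Fin.ext_iff] using hX 2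
    obtain ⟨g1, g2⟩ := hGR κ w3 U hC.sys
    exact hGRED κ AZ w3 U V (hADM AZ (by decide)) (by decide)
      (hEAL2 κ _ V hC.vol.nonneg (hSUME κ _ _ _ V ⟨g1, VolN.mono hC.vol g2, hC.le⟩
        ⟨div_ne_zero hr hq, div_ne_zero hr hp, by field_simp; ring⟩
        (hPE3 κ U p d ok eq hk z7 hc hr hp hq e0 e1 e2)))
  obtain ⟨hr, hp, hq, hc⟩ := Q3Sx.nz hk z7 (hSM0V κ d hs) (hSMLV κ d hs)
  obtain ⟨z1, z2, z3, z4, z5, z6⟩ := hk
  refine (hMOVT κ 1 (-d.r3 / d.c01) d one_ne_zero (div_ne_zero (neg_ne_zero.2 hr) hc)).2.2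
    (main _ ?_ ?_ ?_ ?_ ?_ ?_) <;> simp [sclD, Dat.K3, *]

end Pool.Agent.P.MP_6149fc_ag.V22

end

section

/-! Step NFA2. -/

set_option autoImplicit false
set_option linter.unusedSectionVars false

namespace Pool.Agent.P.MP_6149fc_ag.V22

open Pool.Agent.P.MP_6149fc_ag.V18
open MvPowerSeries (coeff X constantCoeff monomial)
open Matrix

theorem p_NFA2 :
    S_NFA2 := by
  intro κ _ Q hC hS d a0 b0 a4 b4
  obtain ⟨-, hW, hT⟩ := hC
  obtain ⟨-, -, s11, -, s111, s21, -, -⟩ := hS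
  by_cases h1 : d.p1 = 0 ∧ d.r1 = 0
  · exact s21 d ⟨a0, b0, h1.1, h1.2, a4, b4⟩
  by_cases h3 : d.p3 = 0 ∧ d.r3 = 0
  · exact hW d (s21 _ ⟨b4, a4, h3.2, h3.1, b0, a0⟩)
  by_cases hN : d.Nz
  · exact s11 d ⟨a0, b0, a4, b4, not_and_or.1 h1, not_and_or.1 h3, hN⟩
  obtain ⟨t, ht, e1, e2⟩ : ∃ t, t ≠ 0 ∧ d.Rt t := by
    by_contra hc
    exact hN fun t ht hr => hc ⟨t, ht, hr⟩
  simp only [Dat.g1, Dat.g2, a0, b0, a4, b4] at e1 e2
  refine hT t d ht (s111 _ ⟨a0, ?_, ?_, ?_, ?_, ?_⟩) <;> simp only [torD]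
  · rw [b0, mul_zero]
  · rw [a4, mul_zero]
  · rw [b4, mul_zero]
  · linear_combination e1
  · linear_combination t * e2

end Pool.Agent.P.MP_6149fc_ag.V22

end

section

/-! Step NFB2. -/

set_option autoImplicit false
set_option linter.unusedSectionVars false

namespace Pool.Agent.P.MP_6149fc_ag.V22

open Pool.Agent.P.MP_6149fc_ag.V18
open MvPowerSeries (coeff X constantCoeff monomial)
open Matrix

theorem p_NFB2 (hNFA2 : S_NFA2) :
    S_NFB2 := by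
  intro κ _ Q hC hS d h0 h0'
  have mv : ∀ (c : κ) (d : Dat κ), Q (swpD (shfD c (swpD d))) → Q d := fun c d h =>
    hC.2.1 d (hC.1 c _ (hC.2.1 _ h))
  obtain ⟨-, k1, -, k2, -, -, k3, k3'⟩ := id hS
  by_cases h4 : d.p4 = 0 ∧ d.r4 = 0
  · exact hNFA2 κ Q hC hS d h0 h0' h4.1 h4.2
  have h4' : d.p4 ≠ 0 ∨ d.r4 ≠ 0 := not_and_or.1 h4
  by_cases hz : d.Nz
  swap
  · obtain ⟨t, ht, h1, h2⟩ : ∃ t, t ≠ 0 ∧ d.Rt t := by
      by_contra hc
      exact hz fun t ht hr => hc ⟨t, ht, hr⟩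
    have e1 : (swpD d).g1 t⁻¹ = t⁻¹ ^ 4 * d.g2 t := by
      simp only [swpD, Dat.g1, Dat.g2]
      field_simp
      ring
    have e2 : (swpD d).g2 t⁻¹ = t⁻¹ ^ 4 * d.g1 t := by
      simp only [swpD, Dat.g1, Dat.g2]
      field_simp
      ring
    refine mv t⁻¹ d (hNFA2 κ Q hC hS _ h0 ?_ ?_ ?_)
    · change d.r0 - t⁻¹ * d.p0 = 0
      rw [h0, h0', mul_zero, sub_zero]
    · change (swpD d).g2 t⁻¹ = 0
      rw [e2, h1, mul_zero]
    · change (swpD d).g1 t⁻¹ - t⁻¹ * (swpD d).g2 t⁻¹ = 0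
      rw [e1, e2, h1, h2, mul_zero, mul_zero, sub_zero]
  by_cases h1 : d.p1 = 0 ∧ d.r1 = 0
  swap
  · exact k1 d ⟨h0, h0', not_and_or.1 h1, h4', hz⟩
  by_cases h2 : d.p2 = 0 ∧ d.r2 = 0
  swap
  · exact k2 d ⟨h0, h0', h1.1, h1.2, not_and_or.1 h2, h4', hz⟩
  by_cases h3 : d.p3 = 0
  · exact k3' d ⟨h0, h0', h1.1, h1.2, h2.1, h2.2⟩ h3
  refine mv (-d.p4 / d.p3) d (k3 _ ⟨h0, ?_, ?_, ?_, ?_, ?_⟩ ?_ ?_)
  · simp [swpD, shfD, h0, h0']
  · simp [swpD, shfD, h0, h1.1]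
  · simp [swpD, shfD, h0, h0', h1.1, h1.2]
  · simp [swpD, shfD, h0, h1.1, h2.1]
  · simp [swpD, shfD, h0, h0', h1.1, h1.2, h2.1, h2.2]
  · simpa [swpD, shfD, h0, h1.1, h2.1] using h3
  · simp only [swpD, shfD, Dat.g2, h0, h1.1, h2.1]
    field_simp
    ring

end Pool.Agent.P.MP_6149fc_ag.V22

end

section

/-! Step NFK. -/

set_option autoImplicit false
set_option linter.unusedSectionVars false

namespace Pool.Agent.P.MP_6149fc_ag.V22

open Pool.Agent.P.MP_6149fc_ag.V18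
open MvPowerSeries (coeff X constantCoeff monomial)
open Matrix

theorem p_NFK (hNFB2 : S_NFB2) (hMOVS : S_MOVS) (hMOVW : S_MOVW) (hMOVT : S_MOVT) (hQK0 : S_QK0) (hQK1 : S_QK1) (hQK11 : S_QK11) (hQK2 : S_QK2) (hQ111 : S_Q111) (hQ21 : S_Q21) (hQ3N : S_Q3N) (hQ3S : S_Q3S) :
    S_NFK := by
  intro κ _ _ _ d
  have hC : CloD (TD (κ := κ)) :=
    ⟨fun c d h => (hMOVS κ c d).td h, fun d h => (hMOVW κ d).td h,
      fun s d hs h => (hMOVT κ s 1 d hs one_ne_zero).1.td h⟩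
  have hS : StrD (TD (κ := κ)) :=
    ⟨hQK0 κ, hQK1 κ, hQK11 κ, hQK2 κ, hQ111 κ, hQ21 κ, hQ3N κ, hQ3S κ⟩
  by_cases h : ∃ t, d.Rt t
  · obtain ⟨t, h1, h2⟩ := h
    refine hC.1 t d (hNFB2 κ _ hC hS _ ?_ h2)
    show d.g1 t - t * d.g2 t = 0
    rw [h1, h2, mul_zero, sub_zero]
  · by_cases h4 : d.p4 = 0 ∧ d.r4 = 0
    · exact hC.2.1 d (hNFB2 κ _ hC hS _ h4.2 h4.1)
    · exact hS.1 d ⟨not_exists.1 h, not_and_or.1 h4⟩

end Pool.Agent.P.MP_6149fc_ag.V22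

end

section

/-! Step PARBV. -/

set_option autoImplicit false
set_option linter.unusedSectionVars false

namespace Pool.Agent.P.MP_6149fc_ag.V22

open Pool.Agent.P.MP_6149fc_ag.V18
open MvPowerSeries (coeff X constantCoeff monomial)
open Matrix

theorem p_PARBV (hBRG : S_BRG) (hSMBV : S_SMBV) (hDEC : S_DEC) (hAUT : S_AUT) (hNORM : S_NORM) (hNFK : S_NFK) :
    S_PARBV := by
  intro ω K κ _ _ _ _ _ ξ x j hT hξ hj hx
  have : CharZero κ := charZero_of_injective_algebraMap (algebraMap ℂ κ).injective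
  have hE : EQ (omK κ ω) x := ((hBRG ω).2 κ κ x).1 hx
  have hne : x ≠ 0 := fun h0 => by
    rw [h0] at hj
    exact zero_ne_one hj
  have hS : Sm3 (omK κ ω) := hSMBV ω κ hT
  obtain ⟨g, g', h1, h2, hx3, B, D, hsame⟩ := hDEC κ (omK κ ω) x hne hE
  have r1 : Rel (omK κ ω) x (bnet B D) (e3 κ) := by
    rw [hx3]
    exact (hAUT κ g g' (omK κ ω) (e3 κ) h1 h2).trans (hsame.rel (e3 κ))
  obtain ⟨d, r2⟩ := hNORM κ B D (r1.1 hS)
  have r3 := r1.trans r2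
  obtain ⟨Ψ, hL, hG⟩ := r3.2 (hNFK κ d (r3.1 hS))
  refine ⟨Ψ, hL, ?_⟩
  intro L _ _ _ _ p hp
  obtain ⟨-, p2, p3⟩ := hp
  exact hG L p (((hBRG ω).2 κ (PowerSeries L) p).1 fun G hG' => p3 G (hξ G hG')) p2

end Pool.Agent.P.MP_6149fc_ag.V22

end

section

/-! Step MAINV. -/

set_option autoImplicit false
set_option linter.unusedSectionVars false

namespace Pool.Agent.P.MP_6149fc_ag.V22

open Pool.Agent.P.MP_6149fc_ag.V18
open MvPowerSeries (coeff X constantCoeff monomial)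
open Matrix

theorem p_MAINV (hBRG : S_BRG) (hNULL2 : S_NULL2) (hSEL : S_SEL) (hARC1 : S_ARC1) (hARC2 : S_ARC2) (hPARBV : S_PARBV) (hFINX : S_FINX) :
    S_MAINV := by
  intro l hsm K _ _ ξ j hgp v hv hξ
  have hhom : ∀ G ∈ equations l, ∃ d, G.IsHomogeneous d := (hBRG l).1
  have hvan : ∀ G ∈ equations l, MvPolynomial.aeval ξ G = 0 := by
    intro G hG
    obtain ⟨d, hd⟩ := hhom G hG
    exact (hgp.vanishes_iff G d hd).2 (Ideal.le_radical (Ideal.subset_span hG))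
  have hcard : Fintype.card I3 = 3 + 339 + 1 := by simp
  obtain ⟨κ, _, _, x, P, hxj, hx, hS0⟩ := hARC1 I3 339 (equations l) K ξ j v hcard hhom
    (fun Ω _ _ p hp hG => hSEL I3 3 339 (equations l) Ω p hcard
      (hNULL2 I3 3 (equations l) hsm Ω p
        (fun h => by rw [h] at hp; exact zero_ne_one hp) hG))
    hgp.chart hgp.generates hvan hv hξ
  obtain ⟨κ', _, _, φ, hac, hS1, hS2⟩ := hARC2 _ K κ ξ v x j _ P hS0
  have hφx : ∀ G ∈ equations l, MvPolynomial.aeval (fun i => φ (x i)) G = 0 := by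
    intro G hG
    rw [← MvPolynomial.comp_aeval_apply, hx G hG, map_zero]
  obtain ⟨Ψ, hL, hP⟩ := hPARBV l K κ' ξ (fun i => φ (x i)) j
    (fun Q hQ hG => hNULL2 I3 3 (equations l) hsm κ' Q hQ hG) hvan
    (by simp [hxj]) hφx
  exact hFINX _ K κ' ξ v (fun i => φ (x i)) j _ Ψ hv.const hξ hS1 hS2 hP hL

end Pool.Agent.P.MP_6149fc_ag.V22

end
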