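import Pool.Agent.P.MP_6149fc_ag.V22.BaseJ
import Pool.Agent.P.MP_6149fc_ag.V22.IfaceB

/-! Barycentre certificates for points on at most two lines. -/

set_option autoImplicit false

namespace Pool.Agent.P.MP_6149fc_ag.V22

open Pool.Agent.P.MP_6149fc_ag.V18

theorem c_k0_0 (h : S_CERTV) : BaryV (unitP ++ P_k0) 0 (1) :=
  (h _ _ _
    []
    (0)).1 [([], [(5, 1)]), ([(4, 1)], [(4, 1)])]
    (by decide +kernel)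

theorem c_k0_1 (h : S_CERTV) : BaryV (unitP ++ P_k0) 1 (1) :=
  (h _ _ _
    []
    (0)).1 [([], [(5, 1)]), ([(3, 1)], [(3, 1)])]
    (by decide +kernel)

theorem c_k0_2 (h : S_CERTV) : BaryV (unitP ++ P_k0) 2 (1) :=
  (h _ _ _
    []
    (0)).1 [([], [(4, 1)]), ([(3, 1)], [(3, 1)])]
    (by decide +kernel)

theorem c_1ga_0 (h : S_CERTV) : BaryV (unitP ++ (P_1g ++ [(1, 1, 0, 2)])) 0 (1) :=
  (h _ _ _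
    [(0, 1, [([], [(2, 1)]), ([(3, 1)], [(4, 1)]), ([(3, 1)], [(4, 1)])],
        [([(0, 1)], [(6, 1)]), ([(0, 1)], [(6, 1)]), ([(3, 2/3), (5, 1/3)], [(4, 2/3), (5, 1/3)])])]
    (1)).1 [([(0, 1)], [(6, 1)]), ([(3, 2/3), (5, 1/3)], [(4, 2/3), (5, 1/3)])]
    (by decide +kernel)

theorem c_1ga_1 (h : S_CERTV) : BaryV (unitP ++ (P_1g ++ [(1, 1, 0, 2)])) 1 (1) :=
  (h _ _ _
    []
    (0)).1 [([], [(2, 1)]), ([(5, 1/3)], [(6, 1)]), ([(5, 1)], [(5, 1)])]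
    (by decide +kernel)

theorem c_1ga_2 (h : S_CERTV) : BaryV (unitP ++ (P_1g ++ [(1, 1, 0, 2)])) 2 (1) :=
  (h _ _ _
    []
    (0)).1 [([], [(3, 1)]), ([(5, 1)], [(5, 1)])]
    (by decide +kernel)

theorem c_1gb_0 (h : S_CERTV) : BaryV (unitP ++ (P_1g ++ [(1, 0, 1, 2)])) 0 (1) :=
  (h _ _ _
    []
    (0)).1 [([], [(2, 1)]), ([(3, 1/2)], [(6, 1)]), ([(3, 1)], [(4, 1)])]
    (by decide +kernel)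

theorem c_1gb_1 (h : S_CERTV) : BaryV (unitP ++ (P_1g ++ [(1, 0, 1, 2)])) 1 (1) :=
  (h _ _ _
    [(0, 1, [([], [(2, 1)]), ([(5, 1)], [(5, 1)]), ([(5, 1)], [(5, 1)])],
        [([(1, 1)], [(6, 1)]), ([(1, 1)], [(6, 1)]), ([(3, 1/2), (5, 1/2)], [(4, 1/2), (5, 1/2)])])]
    (1)).1 [([(1, 1)], [(6, 1)]), ([(3, 1/2), (5, 1/2)], [(4, 1/2), (5, 1/2)])]
    (by decide +kernel)

theorem c_1gb_2 (h : S_CERTV) : BaryV (unitP ++ (P_1g ++ [(1, 0, 1, 2)])) 2 (1) :=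
  (h _ _ _
    []
    (0)).1 [([], [(3, 1)]), ([(5, 1)], [(5, 1)])]
    (by decide +kernel)

theorem c_1sa_0 (h : S_CERTV) : BaryV (unitP ++ (P_1s ++ [(1, 1, 2, 0)])) 0 (1) :=
  (h _ _ _
    [(0, 1, [([], [(2, 1)]), ([(5, 1/2)], [(6, 1)]), ([(5, 1)], [(5, 1)])],
        [([(0, 1)], [(3, 1)]), ([(0, 1/2), (8, 1/2)], [(7, 1)]), ([(8, 1)], [(8, 1)])])]
    (1)).1 [([(0, 1)], [(3, 1)]), ([(0, 1/2), (8, 1/2)], [(7, 1)]), ([(8, 1)], [(8, 1)])]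
    (by decide +kernel)

theorem c_1sa_1 (h : S_CERTV) : BaryV (unitP ++ (P_1s ++ [(1, 1, 2, 0)])) 1 (1) :=
  (h _ _ _
    [(0, 1, [([], [(2, 1)]), ([(4, 1/2)], [(3, 1)]), ([(4, 1)], [(4, 1)]), ([(4, 1)], [(4, 1)])],
        [([(1, 1)], [(6, 1)]), ([(1, 1/3), (4, 1/3), (8, 1/3)], [(7, 1)]), ([(1, 1/3), (4, 1/3), (8, 1/3)], [(7, 1)]), ([(4, 1/2), (8, 1/2)], [(4, 1/2), (8, 1/2)])])]
    (1)).1 [([(1, 1)], [(6, 1)]), ([(1, 1/3), (4, 1/3), (8, 1/3)], [(7, 1)]), ([(4, 1/2), (8, 1/2)], [(4, 1/2), (8, 1/2)])]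
    (by decide +kernel)

theorem c_1sa_2 (h : S_CERTV) : BaryV (unitP ++ (P_1s ++ [(1, 1, 2, 0)])) 2 (1) :=
  (h _ _ _
    []
    (0)).1 [([], [(5, 1)]), ([(4, 1/2)], [(8, 1)]), ([(4, 1)], [(4, 1)])]
    (by decide +kernel)

theorem c_1sb_0 (h : S_CERTV) : BaryV (unitP ++ (P_1s ++ [(1, 0, 3, 0)])) 0 (1) :=
  (h _ _ _
    []
    (0)).1 [([], [(2, 1)]), ([(8, 1/3)], [(6, 1)]), ([(8, 1)], [(8, 1)])]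
    (by decide +kernel)

theorem c_1sb_1 (h : S_CERTV) : BaryV (unitP ++ (P_1s ++ [(1, 0, 3, 0)])) 1 (1) :=
  (h _ _ _
    [(0, 1, [([], [(2, 1)]), ([(4, 1/2)], [(3, 1)]), ([(4, 1)], [(4, 1)]), ([(4, 1)], [(4, 1)])],
        [([(1, 1)], [(6, 1)]), ([(1, 1/4), (4, 1/2), (8, 1/4)], [(7, 1)]), ([(1, 1/4), (4, 1/2), (8, 1/4)], [(7, 1)]), ([(4, 2/3), (8, 1/3)], [(4, 2/3), (8, 1/3)])])]
    (1)).1 [([(1, 1)], [(6, 1)]), ([(1, 1/4), (4, 1/2), (8, 1/4)], [(7, 1)]), ([(4, 2/3), (8, 1/3)], [(4, 2/3), (8, 1/3)])]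
    (by decide +kernel)

theorem c_1sb_2 (h : S_CERTV) : BaryV (unitP ++ (P_1s ++ [(1, 0, 3, 0)])) 2 (1) :=
  (h _ _ _
    []
    (0)).1 [([], [(8, 1)]), ([(4, 1)], [(4, 1)])]
    (by decide +kernel)

theorem c_1sc_0 (h : S_CERTV) : BaryV (unitP ++ (P_1s ++ [(1, 2, 1, 0)])) 0 (1) :=
  (h _ _ _
    [(0, 1, [([], [(2, 1)]), ([(5, 1/2)], [(6, 1)]), ([(5, 1)], [(5, 1)]), ([(5, 1)], [(5, 1)])],
        [([(0, 1)], [(3, 1)]), ([(0, 1/3), (5, 1/3), (8, 1/3)], [(7, 1)]), ([(0, 1/3), (5, 1/3), (8, 1/3)], [(7, 1)]), ([(5, 1/2), (8, 1/2)], [(5, 1/2), (8, 1/2)])])]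
    (1)).1 [([(0, 1)], [(3, 1)]), ([(0, 1/3), (5, 1/3), (8, 1/3)], [(7, 1)]), ([(5, 1/2), (8, 1/2)], [(5, 1/2), (8, 1/2)])]
    (by decide +kernel)

theorem c_1sc_1 (h : S_CERTV) : BaryV (unitP ++ (P_1s ++ [(1, 2, 1, 0)])) 1 (1) :=
  (h _ _ _
    [(0, 1, [([], [(2, 1)]), ([(4, 1/2)], [(3, 1)]), ([(4, 1)], [(4, 1)]), ([(4, 1)], [(4, 1)])],
        [([(1, 1)], [(6, 1)]), ([(1, 1/2), (8, 1/2)], [(7, 1)]), ([(1, 1/2), (8, 1/2)], [(7, 1)]), ([(8, 1)], [(8, 1)])])]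
    (1)).1 [([(1, 1)], [(6, 1)]), ([(1, 1/2), (8, 1/2)], [(7, 1)]), ([(8, 1)], [(8, 1)])]
    (by decide +kernel)

theorem c_1sc_2 (h : S_CERTV) : BaryV (unitP ++ (P_1s ++ [(1, 2, 1, 0)])) 2 (1) :=
  (h _ _ _
    []
    (0)).1 [([], [(5, 1)]), ([(4, 1)], [(8, 1)])]
    (by decide +kernel)

theorem c_2ga_0 (h : S_CERTV) : BaryV (unitP ++ (P_2g ++ [(1, 0, 2, 1), (1, 1, 2, 0)])) 0 (1) :=
  (h _ _ _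
    [(0, 1/2, [([], [(2, 1)]), ([(1, 1)], [(2, 1/2), (6, 1/2)]), ([(6, 1)], [(6, 1)]), ([(6, 1)], [(6, 1)])],
        [([(0, 1/2)], [(2, 1/2), (3, 1/2)]), ([(1, 1/2), (7, 1/2)], [(5, 1/4), (6, 3/4)]), ([(1, 1/2), (7, 1/2)], [(5, 1/4), (6, 3/4)]), ([(6, 1/2), (7, 1/2)], [(6, 1/2), (7, 1/2)])]),
      (1/2, 1, [([(0, 1/2)], [(2, 1/2), (3, 1/2)]), ([(0, 1/6), (1, 1/3), (7, 1/3)], [(3, 1/2), (6, 1/2)]), ([(1, 1/2), (7, 1/2)], [(5, 1/4), (6, 3/4)]), ([(1, 1/2), (7, 1/2)], [(5, 1/4), (6, 3/4)]), ([(6, 1/2), (7, 1/2)], [(6, 1/2), (7, 1/2)])],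
        [([(0, 1)], [(3, 1)]), ([(0, 1)], [(3, 1)]), ([(0, 1/2), (7, 1/2)], [(5, 1/2), (6, 1/2)]), ([(7, 1)], [(7, 1)]), ([(7, 1)], [(7, 1)])])]
    (1)).1 [([(0, 1)], [(3, 1)]), ([(0, 1/2), (7, 1/2)], [(5, 1/2), (6, 1/2)]), ([(7, 1)], [(7, 1)])]
    (by decide +kernel)

theorem c_2ga_1 (h : S_CERTV) : BaryV (unitP ++ (P_2g ++ [(1, 0, 2, 1), (1, 1, 2, 0)])) 1 (1) :=
  (h _ _ _
    []
    (0)).1 [([], [(2, 1)]), ([(0, 1)], [(3, 1)]), ([(4, 1)], [(5, 1)])]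
    (by decide +kernel)

theorem c_2ga_2 (h : S_CERTV) : BaryV (unitP ++ (P_2g ++ [(1, 0, 2, 1), (1, 1, 2, 0)])) 2 (1) :=
  (h _ _ _
    [(0, 1, [([], [(1, 1)]), ([(0, 1)], [(7, 1)]), ([(0, 1)], [(7, 1)]), ([(0, 1)], [(7, 1)])],
        [([(2, 1)], [(6, 1)]), ([(2, 1)], [(6, 1)]), ([(2, 1/4), (4, 3/4)], [(5, 1/2), (7, 1/2)]), ([(4, 1)], [(4, 1)])])]
    (1)).1 [([(2, 1)], [(6, 1)]), ([(2, 1/4), (4, 3/4)], [(5, 1/2), (7, 1/2)]), ([(4, 1)], [(4, 1)])]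
    (by decide +kernel)

theorem c_2gb_0 (h : S_CERTV) : BaryV (unitP ++ (P_2g ++ [(1, 0, 3, 0)])) 0 (1) :=
  (h _ _ _
    [(0, 1, [([], [(2, 1)]), ([(6, 1)], [(6, 1)]), ([(6, 1)], [(6, 1)])],
        [([(0, 1)], [(3, 1)]), ([(0, 1)], [(3, 1)]), ([(4, 1/2), (6, 1/2)], [(5, 1/2), (6, 1/2)])])]
    (1)).1 [([(0, 1)], [(3, 1)]), ([(4, 1/2), (6, 1/2)], [(5, 1/2), (6, 1/2)])]
    (by decide +kernel)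

theorem c_2gb_1 (h : S_CERTV) : BaryV (unitP ++ (P_2g ++ [(1, 0, 3, 0)])) 1 (1) :=
  (h _ _ _
    []
    (0)).1 [([], [(2, 1)]), ([(0, 1)], [(3, 1)]), ([(4, 1)], [(5, 1)])]
    (by decide +kernel)

theorem c_2gb_2 (h : S_CERTV) : BaryV (unitP ++ (P_2g ++ [(1, 0, 3, 0)])) 2 (1) :=
  (h _ _ _
    [(0, 1, [([], [(6, 1)]), ([], [(6, 1)]), ([], [(6, 1)]), ([], [(6, 1)]), ([(0, 1)], [(0, 1)])],
        [([(2, 1)], [(2, 1)]), ([(2, 3/4), (4, 1/4)], [(3, 1/2), (6, 1/2)]), ([(2, 1/2), (4, 1/2)], [(5, 1/2), (6, 1/2)]), ([(4, 1)], [(4, 1)]), ([(4, 1)], [(4, 1)])])]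
    (1)).1 [([(2, 1)], [(2, 1)]), ([(2, 3/4), (4, 1/4)], [(3, 1/2), (6, 1/2)]), ([(2, 1/2), (4, 1/2)], [(5, 1/2), (6, 1/2)]), ([(4, 1)], [(4, 1)])]
    (by decide +kernel)

theorem c_2ha_0 (h : S_CERTV) : BaryV (unitP ++ (P_2h ++ [(1, 1, 2, 0)])) 0 (1) :=
  (h _ _ _
    [(0, 1, [([], [(2, 1)]), ([(1, 1)], [(4, 1)]), ([(1, 1)], [(4, 1)])],
        [([(0, 1)], [(2, 1/2), (3, 1/2)]), ([(0, 1/2), (6, 1/2)], [(5, 1)]), ([(6, 1)], [(6, 1)])])]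
    (1)).1 [([(0, 1)], [(2, 1/2), (3, 1/2)]), ([(0, 1/2), (6, 1/2)], [(5, 1)]), ([(6, 1)], [(6, 1)])]
    (by decide +kernel)

theorem c_2ha_1 (h : S_CERTV) : BaryV (unitP ++ (P_2h ++ [(1, 1, 2, 0)])) 1 (1) :=
  (h _ _ _
    [(0, 1, [([], [(2, 1)]), ([(0, 1)], [(2, 1/2), (3, 1/2)]), ([(3, 1)], [(3, 1)]), ([(3, 1)], [(3, 1)])],
        [([(1, 1)], [(4, 1)]), ([(0, 1/2), (6, 1/2)], [(5, 1)]), ([(0, 1/2), (6, 1/2)], [(5, 1)]), ([(3, 1/2), (6, 1/2)], [(3, 1/2), (6, 1/2)])])]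
    (1)).1 [([(1, 1)], [(4, 1)]), ([(0, 1/2), (6, 1/2)], [(5, 1)]), ([(3, 1/2), (6, 1/2)], [(3, 1/2), (6, 1/2)])]
    (by decide +kernel)

theorem c_2ha_2 (h : S_CERTV) : BaryV (unitP ++ (P_2h ++ [(1, 1, 2, 0)])) 2 (1) :=
  (h _ _ _
    [(0, 1, [([], [(1, 1)]), ([(0, 1)], [(6, 1)]), ([(0, 1)], [(6, 1)]), ([(0, 1)], [(6, 1)])],
        [([(2, 1)], [(1, 1/2), (4, 1/2)]), ([(2, 3/4), (3, 1/4)], [(4, 1/2), (6, 1/2)]), ([(2, 1/2), (3, 1/2)], [(5, 1/2), (6, 1/2)]), ([(3, 1)], [(3, 1)])])]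
    (1)).1 [([(2, 1)], [(1, 1/2), (4, 1/2)]), ([(2, 3/4), (3, 1/4)], [(4, 1/2), (6, 1/2)]), ([(2, 1/2), (3, 1/2)], [(5, 1/2), (6, 1/2)]), ([(3, 1)], [(3, 1)])]
    (by decide +kernel)

theorem c_2hb_0 (h : S_CERTV) : BaryV (unitP ++ (P_2h ++ [(1, 0, 3, 0)])) 0 (1) :=
  (h _ _ _
    []
    (0)).1 [([], [(2, 1)]), ([(6, 1/3)], [(4, 1)]), ([(6, 1)], [(6, 1)])]
    (by decide +kernel)

theorem c_2hb_1 (h : S_CERTV) : BaryV (unitP ++ (P_2h ++ [(1, 0, 3, 0)])) 1 (1) :=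
  (h _ _ _
    [(0, 1, [([], [(2, 1)]), ([(0, 1)], [(2, 1/2), (3, 1/2)]), ([(3, 1)], [(3, 1)]), ([(3, 1)], [(3, 1)])],
        [([(1, 1)], [(4, 1)]), ([(0, 2/3), (6, 1/3)], [(4, 1/3), (5, 2/3)]), ([(0, 1/3), (3, 1/3), (6, 1/3)], [(5, 1)]), ([(3, 2/3), (6, 1/3)], [(3, 2/3), (6, 1/3)])])]
    (1)).1 [([(1, 1)], [(4, 1)]), ([(0, 2/3), (6, 1/3)], [(4, 1/3), (5, 2/3)]), ([(0, 1/3), (3, 1/3), (6, 1/3)], [(5, 1)]), ([(3, 2/3), (6, 1/3)], [(3, 2/3), (6, 1/3)])]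
    (by decide +kernel)

theorem c_2hb_2 (h : S_CERTV) : BaryV (unitP ++ (P_2h ++ [(1, 0, 3, 0)])) 2 (1) :=
  (h _ _ _
    [(0, 1, [([], [(6, 1)]), ([], [(6, 1)]), ([], [(6, 1)]), ([(0, 1)], [(0, 1)])],
        [([(2, 1)], [(4, 1/2), (6, 1/2)]), ([(2, 3/4), (3, 1/4)], [(5, 1/2), (6, 1/2)]), ([(3, 1)], [(3, 1)]), ([(3, 1)], [(3, 1)])])]
    (1)).1 [([(2, 1)], [(4, 1/2), (6, 1/2)]), ([(2, 3/4), (3, 1/4)], [(5, 1/2), (6, 1/2)]), ([(3, 1)], [(3, 1)])]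
    (by decide +kernel)

theorem c_2ja_0 (h : S_CERTV) : BaryV (unitP ++ P_2ja) 0 (1) :=
  (h _ _ _
    [(0, 1, [([], [(2, 1)]), ([(5, 1)], [(5, 1)]), ([(5, 1)], [(5, 1)]), ([(5, 1)], [(5, 1)])],
        [([(0, 1)], [(3, 1)]), ([(0, 1)], [(3, 1)]), ([(0, 1/4), (5, 3/8), (6, 3/8)], [(5, 1/2), (7, 1/2)]), ([(5, 1/2), (6, 1/2)], [(5, 1/2), (6, 1/2)])]),
      (1, 2, [([(0, 1)], [(3, 1)]), ([(0, 1/4), (5, 3/8), (6, 3/8)], [(5, 1/2), (7, 1/2)]), ([(5, 1/2), (6, 1/2)], [(5, 1/2), (6, 1/2)])],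
        [([(4, 1)], [(7, 1)]), ([(4, 1)], [(7, 1)]), ([(6, 1)], [(6, 1)])])]
    (2)).1 [([(4, 1)], [(7, 1)]), ([(6, 1)], [(6, 1)])]
    (by decide +kernel)

theorem c_2ja_1 (h : S_CERTV) : BaryV (unitP ++ P_2ja) 1 (1) :=
  (h _ _ _
    [(0, 1, [([], [(2, 1)]), ([(0, 1)], [(3, 1)]), ([(0, 1)], [(3, 1)])],
        [([(1, 1)], [(2, 1/2), (5, 1/2)]), ([(1, 3/4), (4, 1/4)], [(3, 1/2), (5, 1/2)]), ([(4, 1)], [(7, 1)])])]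
    (1)).1 [([(1, 1)], [(2, 1/2), (5, 1/2)]), ([(1, 3/4), (4, 1/4)], [(3, 1/2), (5, 1/2)]), ([(4, 1)], [(7, 1)])]
    (by decide +kernel)

theorem c_2ja_2 (h : S_CERTV) : BaryV (unitP ++ P_2ja) 2 (1) :=
  (h _ _ _
    []
    (0)).1 [([], [(5, 1)]), ([(0, 1)], [(5, 1/2), (6, 1/2)]), ([(4, 1)], [(6, 1)])]
    (by decide +kernel)

theorem c_2jb_0 (h : S_CERTV) : BaryV (unitP ++ P_2jb) 0 (1) :=
  (h _ _ _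
    [(0, 1/2, [([], [(2, 1)]), ([(1, 1)], [(1, 1)]), ([(1, 1)], [(1, 1)])],
        [([(0, 1/2)], [(2, 1/2), (4, 1/2)]), ([(1, 3/4), (3, 1/4)], [(1, 1/3), (2, 1/6), (4, 1/6), (6, 1/3)]), ([(1, 1/2), (6, 1/2)], [(1, 1/2), (6, 1/2)])]),
      (1/2, 1, [([(0, 1/2)], [(2, 1/2), (4, 1/2)]), ([(1, 3/4), (3, 1/4)], [(1, 1/3), (2, 1/6), (4, 1/6), (6, 1/3)]), ([(1, 1/2), (6, 1/2)], [(1, 1/2), (6, 1/2)])],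
        [([(0, 1)], [(4, 1)]), ([(1, 1/2), (3, 1/2)], [(4, 1/2), (6, 1/2)]), ([(6, 1)], [(6, 1)])]),
      (1, 3/2, [([(0, 1)], [(4, 1)]), ([(1, 1/2), (3, 1/2)], [(4, 1/2), (6, 1/2)]), ([(6, 1)], [(6, 1)])],
        [([(0, 1/2), (3, 1/2)], [(4, 1/2), (5, 1/2)]), ([(1, 1/4), (3, 3/4)], [(4, 1/4), (5, 1/2), (6, 1/4)]), ([(3, 1/2), (6, 1/2)], [(5, 1/2), (6, 1/2)])])]
    (3/2)).1 [([(0, 1/2), (3, 1/2)], [(4, 1/2), (5, 1/2)]), ([(1, 1/4), (3, 3/4)], [(4, 1/4), (5, 1/2), (6, 1/4)]), ([(3, 1/2), (6, 1/2)], [(5, 1/2), (6, 1/2)])]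
    (by decide +kernel)

theorem c_2jb_1 (h : S_CERTV) : BaryV (unitP ++ P_2jb) 1 (1) :=
  (h _ _ _
    [(0, 1, [([], [(2, 1)]), ([(0, 1)], [(4, 1)]), ([(0, 1)], [(4, 1)])],
        [([(1, 1)], [(1, 1)]), ([(1, 1/2), (3, 1/2)], [(4, 1/2), (6, 1/2)]), ([(3, 1)], [(5, 1)])])]
    (1)).1 [([(1, 1)], [(1, 1)]), ([(1, 1/2), (3, 1/2)], [(4, 1/2), (6, 1/2)]), ([(3, 1)], [(5, 1)])]
    (by decide +kernel)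

theorem c_2jb_2 (h : S_CERTV) : BaryV (unitP ++ P_2jb) 2 (1) :=
  (h _ _ _
    [(0, 1, [([], [(1, 1)]), ([], [(1, 1)]), ([(0, 1)], [(1, 1/2), (3, 1/2)]), ([(3, 1)], [(3, 1)]), ([(3, 1)], [(3, 1)])],
        [([(2, 1)], [(2, 1)]), ([(0, 2/3), (4, 1/3)], [(6, 1)]), ([(0, 2/3), (4, 1/3)], [(6, 1)]), ([(0, 2/3), (4, 1/3)], [(6, 1)]), ([(3, 1/2), (5, 1/2)], [(3, 1/2), (5, 1/2)])]),
      (1, 2, [([(2, 1)], [(2, 1)]), ([(0, 2/3), (4, 1/3)], [(6, 1)]), ([(0, 2/3), (4, 1/3)], [(6, 1)]), ([(3, 1/2), (5, 1/2)], [(3, 1/2), (5, 1/2)])],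
        [([(2, 1/2), (4, 1/2)], [(2, 1/2), (4, 1/2)]), ([(0, 1/3), (4, 2/3)], [(4, 1/2), (6, 1/2)]), ([(5, 1)], [(5, 1)]), ([(5, 1)], [(5, 1)])])]
    (2)).1 [([(2, 1/2), (4, 1/2)], [(2, 1/2), (4, 1/2)]), ([(0, 1/3), (4, 2/3)], [(4, 1/2), (6, 1/2)]), ([(5, 1)], [(5, 1)])]
    (by decide +kernel)

theorem c_d1_0 (h : S_CERTV) : BaryV (unitP ++ P_d1) 0 (3/5) :=
  (h _ _ _
    [(0, 1, [([], [(3, 1)]), ([(4, 1)], [(4, 1)]), ([(4, 1)], [(4, 1)])],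
        [([(0, 1)], [(5, 1)]), ([(0, 1)], [(5, 1)]), ([(6, 1)], [(6, 1)])])]
    (1)).1 [([(0, 1)], [(5, 1)]), ([(6, 1)], [(6, 1)])]
    (by decide +kernel)

theorem c_d1_1 (h : S_CERTV) : BaryV (unitP ++ P_d1) 1 (13/10) :=
  (h _ _ _
    [(0, 1, [([], [(3, 1)]), ([(0, 1)], [(5, 1)]), ([(0, 1)], [(5, 1)])],
        [([(1, 1)], [(3, 3/4), (4, 1/4)]), ([(0, 3/8), (1, 1/4), (6, 3/8)], [(4, 1/4), (5, 3/4)]), ([(0, 1/2), (6, 1/2)], [(5, 1/2), (6, 1/2)])])]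
    (1)).1 [([(1, 1)], [(3, 3/4), (4, 1/4)]), ([(0, 3/8), (1, 1/4), (6, 3/8)], [(4, 1/4), (5, 3/4)]), ([(0, 1/2), (6, 1/2)], [(5, 1/2), (6, 1/2)])]
    (by decide +kernel)

theorem c_d1_2 (h : S_CERTV) : BaryV (unitP ++ P_d1) 2 (17/20) :=
  (h _ _ _
    [(0, 1, [([], [(4, 1)]), ([], [(4, 1)]), ([(0, 1)], [(6, 1)])],
        [([(2, 1)], [(3, 1/2), (4, 1/2)]), ([(0, 1/4), (2, 1/2), (5, 1/4)], [(4, 1/2), (5, 1/2)]), ([(0, 1/2), (5, 1/2)], [(5, 1/2), (6, 1/2)])])]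
    (1)).1 [([(2, 1)], [(3, 1/2), (4, 1/2)]), ([(0, 1/4), (2, 1/2), (5, 1/4)], [(4, 1/2), (5, 1/2)]), ([(0, 1/2), (5, 1/2)], [(5, 1/2), (6, 1/2)])]
    (by decide +kernel)

theorem c_dY_1 (h : S_CERTV) : BaryV (unitP ++ P_dY) 1 (1) :=
  (h _ _ _
    []
    (0)).1 [([], [(3, 1)]), ([(0, 1)], [(3, 1/2), (4, 1/2)]), ([(4, 1)], [(4, 1)])]
    (by decide +kernel)

theorem c_d2_0 (h : S_CERTV) : BaryV (unitP ++ P_d2) 0 (1) :=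
  (h _ _ _
    []
    (0)).1 [([], [(5, 1)]), ([(3, 1)], [(6, 1)])]
    (by decide +kernel)

theorem c_d2_1 (h : S_CERTV) : BaryV (unitP ++ P_d2) 1 (1) :=
  (h _ _ _
    []
    (0)).1 [([], [(5, 1)]), ([(0, 1)], [(7, 1)]), ([(4, 1)], [(4, 1)])]
    (by decide +kernel)

theorem c_d2_2 (h : S_CERTV) : BaryV (unitP ++ P_d2) 2 (1) :=
  (h _ _ _
    [(0, 1, [([], [(3, 1)]), ([], [(3, 1)]), ([(0, 1)], [(0, 1)])],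
        [([(2, 1)], [(6, 1)]), ([(2, 1/2), (4, 1/2)], [(8, 1)]), ([(4, 1)], [(4, 1)])])]
    (1)).1 [([(2, 1)], [(6, 1)]), ([(2, 1/2), (4, 1/2)], [(8, 1)]), ([(4, 1)], [(4, 1)])]
    (by decide +kernel)

theorem c_d3_0 (h : S_CERTV) : BaryV (unitP ++ P_d3) 0 (3/5) :=
  (h _ _ _
    [(0, 1, [([], [(2, 1)]), ([(6, 1/3)], [(3, 1)]), ([(6, 1/3)], [(3, 1)]), ([(6, 1)], [(6, 1)])],
        [([(0, 1)], [(4, 1)]), ([(0, 1)], [(4, 1)]), ([(5, 1)], [(7, 1)]), ([(5, 1)], [(7, 1)])])]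
    (1)).1 [([(0, 1)], [(4, 1)]), ([(5, 1)], [(7, 1)])]
    (by decide +kernel)

theorem c_d3_1 (h : S_CERTV) : BaryV (unitP ++ P_d3) 1 (6/5) :=
  (h _ _ _
    [(0, 1, [([], [(2, 1)]), ([(0, 1)], [(4, 1)]), ([(0, 1)], [(4, 1)])],
        [([(1, 1)], [(3, 1)]), ([(1, 1)], [(3, 1)]), ([(0, 1/2), (5, 1/2)], [(4, 1/2), (7, 1/2)])])]
    (1)).1 [([(1, 1)], [(3, 1)]), ([(0, 1/2), (5, 1/2)], [(4, 1/2), (7, 1/2)])]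
    (by decide +kernel)

theorem c_d3_2 (h : S_CERTV) : BaryV (unitP ++ P_d3) 2 (9/10) :=
  (h _ _ _
    [(0, 1, [([], [(6, 1)]), ([], [(6, 1)]), ([(0, 1)], [(5, 1)])],
        [([(2, 1)], [(3, 1/2), (6, 1/2)]), ([(0, 1/2), (4, 1/2)], [(7, 1)]), ([(0, 1/2), (4, 1/2)], [(7, 1)])])]
    (1)).1 [([(2, 1)], [(3, 1/2), (6, 1/2)]), ([(0, 1/2), (4, 1/2)], [(7, 1)])]
    (by decide +kernel)

theorem c_d3Y_1 (h : S_CERTV) : BaryV (unitP ++ P_d3Y) 1 (1) :=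
  (h _ _ _
    []
    (0)).1 [([], [(3, 1)]), ([(0, 1)], [(3, 2/3), (4, 1/3)]), ([(4, 1)], [(4, 1)])]
    (by decide +kernel)

theorem c_d4_0 (h : S_CERTV) : BaryV (unitP ++ P_d4) 0 (3/5) :=
  (h _ _ _
    [(0, 1, [([], [(5, 1)]), ([], [(5, 1)]), ([(6, 1)], [(6, 1)])],
        [([(0, 1)], [(3, 1)]), ([(4, 1)], [(7, 1)]), ([(4, 1)], [(7, 1)])])]
    (1)).1 [([(0, 1)], [(3, 1)]), ([(4, 1)], [(7, 1)])]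
    (by decide +kernel)

theorem c_d4_1 (h : S_CERTV) : BaryV (unitP ++ P_d4) 1 (3/2) :=
  (h _ _ _
    [(0, 2, [([], [(5, 1)]), ([], [(5, 1)]), ([(0, 1)], [(3, 1)])],
        [([(6, 1/2)], [(5, 1/2), (6, 1/2)]), ([(4, 1)], [(7, 1)]), ([(4, 1)], [(7, 1)])])]
    (2)).1 [([(6, 1/2)], [(5, 1/2), (6, 1/2)]), ([(4, 1)], [(7, 1)])]
    (by decide +kernel)

theorem c_d4_2 (h : S_CERTV) : BaryV (unitP ++ P_d4) 2 (3/4) :=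
  (h _ _ _
    [(0, 1, [([], [(6, 1)]), ([], [(6, 1)]), ([(0, 1)], [(4, 1)])],
        [([(2, 1)], [(5, 1/2), (6, 1/2)]), ([(3, 1)], [(7, 1)]), ([(3, 1)], [(7, 1)])])]
    (1)).1 [([(2, 1)], [(5, 1/2), (6, 1/2)]), ([(3, 1)], [(7, 1)])]
    (by decide +kernel)

theorem c_d5_0 (h : S_CERTV) : BaryV (unitP ++ P_d5) 0 (1/2) :=
  (h _ _ _
    [(0, 1/2, [([], [(2, 1)]), ([(5, 1/4)], [(6, 1)]), ([(5, 1)], [(5, 1)]), ([(5, 1)], [(5, 1)])],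
        [([(0, 1/2)], [(7, 1)]), ([(0, 1/2)], [(7, 1)]), ([(0, 1/2)], [(7, 1)]), ([(4, 1/2), (5, 1/2)], [(4, 1/2), (5, 1/2)])])]
    (1/2)).1 [([(0, 1/2)], [(7, 1)]), ([(4, 1/2), (5, 1/2)], [(4, 1/2), (5, 1/2)])]
    (by decide +kernel)

theorem c_d5_1 (h : S_CERTV) : BaryV (unitP ++ P_d5) 1 (32/25) :=
  (h _ _ _
    [(0, 1, [([], [(2, 1)]), ([(0, 1/2)], [(7, 1)]), ([(0, 1/2)], [(7, 1)]), ([(0, 1/2)], [(7, 1)]), ([(0, 1)], [(3, 1)])],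
        [([(1, 1)], [(6, 1)]), ([(1, 1)], [(6, 1)]), ([(0, 3/16), (1, 5/8), (4, 3/16)], [(5, 1/4), (7, 3/4)]), ([(0, 3/8), (1, 1/4), (4, 3/8)], [(4, 1/2), (7, 1/2)]), ([(0, 1/2), (4, 1/2)], [(3, 1/2), (4, 1/2)])])]
    (1)).1 [([(1, 1)], [(6, 1)]), ([(0, 3/16), (1, 5/8), (4, 3/16)], [(5, 1/4), (7, 3/4)]), ([(0, 3/8), (1, 1/4), (4, 3/8)], [(4, 1/2), (7, 1/2)]), ([(0, 1/2), (4, 1/2)], [(3, 1/2), (4, 1/2)])]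
    (by decide +kernel)

theorem c_d5_2 (h : S_CERTV) : BaryV (unitP ++ P_d5) 2 (43/50) :=
  (h _ _ _
    [(0, 1, [([], [(5, 1)]), ([], [(5, 1)]), ([(0, 1)], [(4, 1)]), ([(0, 1)], [(4, 1)])],
        [([(2, 1)], [(5, 1/2), (6, 1/2)]), ([(2, 4/5), (3, 1/5)], [(5, 3/5), (7, 2/5)]), ([(2, 1/5), (3, 4/5)], [(4, 3/5), (7, 2/5)]), ([(3, 1)], [(3, 1)])])]
    (1)).1 [([(2, 1)], [(5, 1/2), (6, 1/2)]), ([(2, 4/5), (3, 1/5)], [(5, 3/5), (7, 2/5)]), ([(2, 1/5), (3, 4/5)], [(4, 3/5), (7, 2/5)]), ([(3, 1)], [(3, 1)])]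
    (by decide +kernel)

theorem c_db1_0 (h : S_CERTV) : BaryV (unitP ++ P_db1) 0 (1) :=
  (h _ _ _
    []
    (0)).1 [([], [(5, 1)]), ([(3, 1/2)], [(6, 1)]), ([(3, 1)], [(6, 1/3), (8, 2/3)]), ([(8, 1)], [(8, 1)])]
    (by decide +kernel)

theorem c_db1_1 (h : S_CERTV) : BaryV (unitP ++ P_db1) 1 (1) :=
  (h _ _ _
    []
    (0)).1 [([], [(5, 1)]), ([(0, 1)], [(5, 1/2), (7, 1/2)]), ([(4, 1)], [(7, 1)])]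
    (by decide +kernel)

theorem c_db1_2 (h : S_CERTV) : BaryV (unitP ++ P_db1) 2 (1) :=
  (h _ _ _
    [(0, 1/2, [([], [(3, 1)]), ([], [(3, 1)]), ([(0, 1)], [(0, 1)])],
        [([(2, 1/2)], [(8, 1)]), ([(0, 1/3), (2, 1/6), (4, 1/3)], [(3, 1/2), (4, 1/2)]), ([(0, 1/2), (4, 1/2)], [(0, 1/2), (4, 1/2)])]),
      (1/2, 1, [([(2, 1/2)], [(8, 1)]), ([(2, 1/2)], [(8, 1)]), ([(2, 1/2)], [(8, 1)]), ([(0, 1/3), (2, 1/6), (4, 1/3)], [(3, 1/2), (4, 1/2)]), ([(0, 1/2), (4, 1/2)], [(0, 1/2), (4, 1/2)])],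
        [([(2, 1)], [(6, 1/3), (8, 2/3)]), ([(2, 2/3), (4, 1/3)], [(7, 1/3), (8, 2/3)]), ([(4, 1)], [(4, 1)]), ([(4, 1)], [(4, 1)]), ([(4, 1)], [(4, 1)])]),
      (1, 3/2, [([(2, 1)], [(6, 1/3), (8, 2/3)]), ([(2, 2/3), (4, 1/3)], [(7, 1/3), (8, 2/3)]), ([(4, 1)], [(4, 1)])],
        [([(5, 3/4)], [(6, 2/3), (8, 1/3)]), ([(4, 1/3), (5, 1/4), (7, 1/3)], [(7, 2/3), (8, 1/3)]), ([(4, 1/2), (7, 1/2)], [(4, 1/2), (7, 1/2)])]),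
      (3/2, 2, [([(5, 3/4)], [(6, 2/3), (8, 1/3)]), ([(4, 1/3), (5, 1/4), (7, 1/3)], [(7, 2/3), (8, 1/3)]), ([(4, 1/2), (7, 1/2)], [(4, 1/2), (7, 1/2)])],
        [([(5, 1)], [(6, 1)]), ([(7, 1)], [(7, 1)]), ([(7, 1)], [(7, 1)])])]
    (2)).1 [([(5, 1)], [(6, 1)]), ([(7, 1)], [(7, 1)])]
    (by decide +kernel)

theorem c_db2_0 (h : S_CERTV) : BaryV (unitP ++ P_db2) 0 (1) :=
  (h _ _ _
    [(0, 1, [([], [(5, 1)]), ([], [(5, 1)]), ([(3, 1)], [(3, 1)])],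
        [([(0, 1)], [(5, 1/2), (7, 1/2)]), ([(0, 1/2), (6, 1/2)], [(8, 1)]), ([(6, 1)], [(6, 1)])])]
    (1)).1 [([(0, 1)], [(5, 1/2), (7, 1/2)]), ([(0, 1/2), (6, 1/2)], [(8, 1)]), ([(6, 1)], [(6, 1)])]
    (by decide +kernel)

theorem c_db2_1 (h : S_CERTV) : BaryV (unitP ++ P_db2) 1 (1) :=
  (h _ _ _
    []
    (0)).1 [([], [(5, 1)]), ([(0, 1)], [(5, 1/2), (7, 1/2)]), ([(4, 1)], [(7, 1)])]
    (by decide +kernel)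

theorem c_db2_2 (h : S_CERTV) : BaryV (unitP ++ P_db2) 2 (1) :=
  (h _ _ _
    [(0, 1, [([], [(3, 1)]), ([], [(3, 1)]), ([(0, 1)], [(0, 1)])],
        [([(2, 1)], [(3, 1/2), (5, 1/2)]), ([(2, 1/2), (4, 1/2)], [(6, 1)]), ([(4, 1)], [(4, 1)])]),
      (1, 2, [([(2, 1)], [(3, 1/2), (5, 1/2)]), ([(2, 1/2), (4, 1/2)], [(6, 1)]), ([(2, 1/2), (4, 1/2)], [(6, 1)]), ([(4, 1)], [(4, 1)])],
        [([(5, 1)], [(5, 1)]), ([(5, 1/2), (7, 1/2)], [(8, 1)]), ([(7, 1)], [(7, 1)]), ([(7, 1)], [(7, 1)])])]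
    (2)).1 [([(5, 1)], [(5, 1)]), ([(5, 1/2), (7, 1/2)], [(8, 1)]), ([(7, 1)], [(7, 1)])]
    (by decide +kernel)

end Pool.Agent.P.MP_6149fc_ag.V22
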