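import Pool.Agent.P.MP_6149fc_ag.V22.IfaceQ
import Pool.Agent.P.MP_6149fc_ag.V22.IfaceB
import Pool.Agent.P.MP_6149fc_ag.V22.BaseCertK
import Pool.Agent.P.MP_6149fc_ag.V22.IfaceV
import Pool.Agent.P.MP_6149fc_ag.V22.IfaceG

section

/-! Step LOCK. -/

set_option autoImplicit false
set_option linter.unusedSectionVars false

namespace Pool.Agent.P.MP_6149fc_ag.V22

open Pool.Agent.P.MP_6149fc_ag.V18
open MvPowerSeries (coeff X constantCoeff monomial)
open Matrix

namespace LOCKx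

variable {κ : Type} [Field κ] {A : Rows} {U : ℕ → Submodule κ (PS κ)} {P : List PT}

theorem app1 {a b c : ℕ} (h : Pts A U P) (h' : Pt A U 1 (ex a b c)) :
    Pts A U (P ++ [(1, a, b, c)]) := by
  intro q hq
  rcases List.mem_append.1 hq with hq | hq
  · exact h q hq
  · rw [List.mem_singleton.1 hq]; exact h'

theorem app2 {a b c a' b' c' : ℕ} (h : Pts A U P) (h' : Pt A U 1 (ex a b c))
    (h'' : Pt A U 1 (ex a' b' c')) : Pts A U (P ++ [(1, a, b, c), (1, a', b', c')]) := by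
  have := app1 (app1 h h') h''
  rwa [List.append_assoc] at this

end LOCKx

open LOCKx in
theorem p_LOCK (hSIMV : S_SIMV) (hWALV : S_WALV) (hCERTV : S_CERTV) :
    S_LOCK := by
  intro κ _ _ U V hc hX
  refine ⟨?_, ?_, ?_, ?_, ?_, ?_, ?_, ?_, ?_, ?_, ?_, ?_, ?_, ?_⟩
  · exact fun h => hSIMV κ A_k0 _ U V (by decide) (by decide) (c_k0_0 hCERTV) (c_k0_1 hCERTV)
        (c_k0_2 hCERTV) hc hX h
  · rintro ⟨h, h' | h'⟩
    · exact hSIMV κ A_1g _ U V (by decide) (by decide) (c_1ga_0 hCERTV) (c_1ga_1 hCERTV)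
        (c_1ga_2 hCERTV) hc hX (app1 h h')
    · exact hSIMV κ A_1g _ U V (by decide) (by decide) (c_1gb_0 hCERTV) (c_1gb_1 hCERTV)
        (c_1gb_2 hCERTV) hc hX (app1 h h')
  · rintro ⟨h, h' | h' | h'⟩
    · exact hSIMV κ A_1s _ U V (by decide) (by decide) (c_1sc_0 hCERTV) (c_1sc_1 hCERTV)
        (c_1sc_2 hCERTV) hc hX (app1 h h')
    · exact hSIMV κ A_1s _ U V (by decide) (by decide) (c_1sa_0 hCERTV) (c_1sa_1 hCERTV)
        (c_1sa_2 hCERTV) hc hX (app1 h h')
    · exact hSIMV κ A_1s _ U V (by decide) (by decide) (c_1sb_0 hCERTV) (c_1sb_1 hCERTV)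
        (c_1sb_2 hCERTV) hc hX (app1 h h')
  · rintro ⟨h, h' | h'⟩
    · exact hSIMV κ A_2g _ U V (by decide) (by decide) (c_2ga_0 hCERTV) (c_2ga_1 hCERTV)
        (c_2ga_2 hCERTV) hc hX (app2 h h'.1 h'.2)
    · exact hSIMV κ A_2g _ U V (by decide) (by decide) (c_2gb_0 hCERTV) (c_2gb_1 hCERTV)
        (c_2gb_2 hCERTV) hc hX (app1 h h')
  · rintro ⟨h, h' | h'⟩
    · exact hSIMV κ A_2g _ U V (by decide) (by decide) (c_2ha_0 hCERTV) (c_2ha_1 hCERTV)
        (c_2ha_2 hCERTV) hc hX (app1 h h')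
    · exact hSIMV κ A_2g _ U V (by decide) (by decide) (c_2hb_0 hCERTV) (c_2hb_1 hCERTV)
        (c_2hb_2 hCERTV) hc hX (app1 h h')
  · exact fun h => hSIMV κ A_2j _ U V (by decide) (by decide) (c_2ja_0 hCERTV) (c_2ja_1 hCERTV)
        (c_2ja_2 hCERTV) hc hX h
  · exact fun h => hSIMV κ A_2j _ U V (by decide) (by decide) (c_2jb_0 hCERTV) (c_2jb_1 hCERTV)
        (c_2jb_2 hCERTV) hc hX h
  · exact fun h => hWALV κ 1 _ _ _ _ _ U V (by decide) (by decide) (by decide) (c_d1_0 hCERTV)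
        (c_d1_1 hCERTV) (c_d1_2 hCERTV) (c_dY_1 hCERTV) (by norm_num) hc hX h.1 h.2
  · exact fun h => hSIMV κ (WC 1 1) _ U V (by decide) (by decide) (c_d2_0 hCERTV) (c_d2_1 hCERTV)
        (c_d2_2 hCERTV) hc hX h
  · exact fun h => hWALV κ 2 _ _ _ _ _ U V (by decide) (by decide) (by decide) (c_d3_0 hCERTV)
        (c_d3_1 hCERTV) (c_d3_2 hCERTV) (c_d3Y_1 hCERTV) (by norm_num) hc hX h.1 h.2
  · exact fun h => hWALV κ 1 _ _ _ _ _ U V (by decide) (by decide) (by decide) (c_d4_0 hCERTV)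
        (c_d4_1 hCERTV) (c_d4_2 hCERTV) (c_dY_1 hCERTV) (by norm_num) hc hX h.1 h.2
  · exact fun h => hWALV κ 1 _ _ _ _ _ U V (by decide) (by decide) (by decide) (c_d5_0 hCERTV)
        (c_d5_1 hCERTV) (c_d5_2 hCERTV) (c_dY_1 hCERTV) (by norm_num) hc hX h.1 h.2
  · exact fun h => hSIMV κ A_db _ U V (by decide) (by decide) (c_db1_0 hCERTV) (c_db1_1 hCERTV)
        (c_db1_2 hCERTV) hc hX h
  · exact fun h => hSIMV κ A_db _ U V (by decide) (by decide) (c_db2_0 hCERTV) (c_db2_1 hCERTV)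
        (c_db2_2 hCERTV) hc hX h

end Pool.Agent.P.MP_6149fc_ag.V22

end

section

/-! Step KIT. -/

set_option autoImplicit false
set_option linter.unusedSectionVars false

namespace Pool.Agent.P.MP_6149fc_ag.V22

open Pool.Agent.P.MP_6149fc_ag.V18
open MvPowerSeries (coeff X constantCoeff monomial)
open Matrix

theorem p_KIT (hPARL : S_PARL) (hLOCK : S_LOCK) :
    S_KIT := by
  intro κ _ _ _ c g0 g1 g2 g3 g4 h0 h1 h2 h3 h4 m0 m1 m2 hn hL
  refine hPARL κ _ ![![m0.a0, m0.a1, m0.a2, m0.a3, m0.a4, m0.a5],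
    ![m1.a0, m1.a1, m1.a2, m1.a3, m1.a4, m1.a5], ![m2.a0, m2.a1, m2.a2, m2.a3, m2.a4, m2.a5]]
    (fun v hv hm => ?_) fun p U V hc hO E hX => ?_
  · have e0 := hv 0
    have e1 := hv 1
    have e2 := hv 2
    have l0 := hm 0
    have l1 := hm 1
    have l2 := hm 2
    simp [dat, Dat.lin, dotProduct, Fin.sum_univ_six] at e0 e1 e2 l0 l1 l2
    have := hn ⟨v 0, v 1, v 2, v 3, v 4, v 5⟩ ((Hk.tan_iff ..).2
      ⟨by linear_combination e0, by linear_combination e1, by linear_combination e2⟩)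
      (by rw [Hk.lin_eq]; linear_combination l0) (by rw [Hk.lin_eq]; linear_combination l1)
      (by rw [Hk.lin_eq]; linear_combination l2)
    simp only [Hk.mk.injEq] at this
    obtain ⟨a, b, d, e, f, g⟩ := this
    funext i
    fin_cases i
    exacts [a, b, d, e, f, g]
  · have hx : ∀ j, (X j : PS κ) ∈ U 1 := fun j => hX j ▸ hO.lin_mem _
    obtain ⟨k0, k1, k2, k3, k4, k5, e01, e02, e03, e04, e12, e13, e14, e23, e24, e34, f012, f013,
      f023, f123, w0, w1, w2, w3, w4, w5, w01, w02, w03, w04, w12, w13, w14, w23, w24, w34, w012,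
      w013, w023, w123⟩ := hO
    obtain ⟨E0, E1, E2⟩ := E
    simp only [P6.q0, P6.q1, P6.q2, dat, e01, e02, e03, e04, e12, e13, e14, e23, e24, e34,
      Algebra.smul_def, map_add] at E0 E1 E2
    refine hL ⟨p.a0, p.a1, p.a2, p.a3, p.a4, p.a5⟩ U V hc.sys (hLOCK κ U V hc hx)
      ⟨k0, k1, k2, k3, k4, k5, w0, w1, w2, w3, w4, w5, ?_, ?_, ?_, ?_, ?_, ?_, ?_, ?_, ?_, ?_, ?_,
        ?_, ?_, ?_⟩ ⟨?_, ?_, ?_⟩ (hX 0) (hX 1) (hX 2)
    · convert w01 using 1; rw [e01, Hk.q02]; ring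
    · convert w02 using 1; rw [e02, Hk.q03]; ring
    · convert add_mem w03 w12 using 1; rw [e03, e12, Hk.q04]; ring
    · convert w12 using 1; rw [e12, Hk.q13]; ring
    · convert add_mem w04 w13 using 1; rw [e04, e13, Hk.q05]; ring
    · convert w13 using 1; rw [e13, Hk.q14]; ring
    · convert add_mem w14 w23 using 1; rw [e14, e23, Hk.q15]; ring
    · convert w23 using 1; rw [e23, Hk.q24]; ring
    · convert w24 using 1; rw [e24, Hk.q25]; ring
    · convert w34 using 1; rw [e34, Hk.q35]; ring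
    · convert w012 using 1; rw [f012, e23, e13, e12, Hk.d012]; ring
    · convert w013 using 1; rw [f013, e24, e14, e12, Hk.d013]; ring
    · convert w023 using 1; rw [f023, e34, e14, e13, Hk.d023]; ring
    · convert w123 using 1; rw [f123, e34, e24, e23, Hk.d123]; ring
    all_goals simp only [Hk.K1, Hk.K2, Hk.K3, Hk.q02, Hk.q03, Hk.q04, Hk.q13, Hk.q05, Hk.q14,
      Hk.q15, Hk.q24, Hk.q25, Hk.q35, Algebra.smul_def, map_add]
    · linear_combination E0
    · linear_combination E1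
    · linear_combination E2

end Pool.Agent.P.MP_6149fc_ag.V22

end

section

/-! Step DUAL. -/

set_option autoImplicit false
set_option linter.unusedSectionVars false

namespace Pool.Agent.P.MP_6149fc_ag.V22

open Pool.Agent.P.MP_6149fc_ag.V18
open MvPowerSeries (coeff X constantCoeff monomial)
open Matrix

namespace DUALx

theorem dot {κ : Type} [Field κ] {n : ℕ} (φ : (Fin n → κ) →ₗ[κ] κ) (a : Fin n → κ) :
    (fun l => φ (Pi.single l 1)) ⬝ᵥ a = φ a := by
  rw [LinearMap.pi_apply_eq_sum_univ φ a, dotProduct]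
  refine Finset.sum_congr rfl fun l _ => ?_
  have : (fun j => if l = j then (1 : κ) else 0) = Pi.single l 1 := by
    funext j; simp [Pi.single_apply, eq_comm]
  rw [this, smul_eq_mul, mul_comm]

end DUALx

theorem p_DUAL :
    S_DUAL := by
  intro κ _ n k j q w hq hw hqw hn
  let T : Submodule κ (Fin n → κ) := LinearMap.ker (Matrix.of q).mulVecLin
  have hT : ∀ a, a ∈ T ↔ ∀ s, q s ⬝ᵥ a = 0 := fun a => by
    simp only [T, LinearMap.mem_ker, Matrix.mulVecLin_apply, funext_iff]; rfl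
  have hr : Module.finrank κ T = j + 1 := by
    have h1 := LinearMap.finrank_range_add_finrank_ker (Matrix.of q).mulVecLin
    have h2 : (Matrix.of q).rank = Fintype.card (Fin k) := LinearIndependent.rank_matrix hq
    rw [Matrix.rank] at h2
    rw [h2] at h1
    simp only [Fintype.card_fin, Module.finrank_fin_fun] at h1
    change Module.finrank κ (LinearMap.ker (Matrix.of q).mulVecLin) = j + 1
    omega
  have hle : Submodule.span κ (Set.range w) ≤ T :=
    Submodule.span_le.2 (by rintro _ ⟨i, rfl⟩; exact (hT _).2 fun s => hqw s i)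
  have hw' : Module.finrank κ (Submodule.span κ (Set.range w)) = j := by
    rw [finrank_span_eq_card hw, Fintype.card_fin]
  obtain ⟨u, hu, hu'⟩ : ∃ u ∈ T, u ∉ Submodule.span κ (Set.range w) := by
    by_contra hc
    push Not at hc
    have := Submodule.finrank_mono (show T ≤ Submodule.span κ (Set.range w) from hc)
    omega
  let b : Fin (j + 1) → Fin n → κ := Fin.cons u w
  have hb : LinearIndependent κ b := linearIndependent_finCons.2 ⟨hw, hu'⟩
  have hsp : Submodule.span κ (Set.range b) = T := by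
    refine Submodule.eq_of_le_of_finrank_eq (Submodule.span_le.2 ?_) ?_
    · rintro _ ⟨i, rfl⟩
      refine Fin.cases hu (fun i => ?_) i
      exact (hT _).2 fun s => hqw s i
    · rw [finrank_span_eq_card hb, Fintype.card_fin, hr]
  obtain ⟨g, hg⟩ := (Fintype.linearCombination κ b).exists_leftInverse_of_injective
    (LinearMap.ker_eq_bot.2 hb.fintypeLinearCombination_injective)
  have hg' : ∀ x, g (Fintype.linearCombination κ b x) = x := fun x => LinearMap.congr_fun hg x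
  have hgb : ∀ i, g (b i) = Pi.single i 1 := fun i => by
    rw [← hg' (Pi.single i 1), Fintype.linearCombination_apply_single, one_smul]
  have e : ∀ i a, (fun l => g (Pi.single l 1) i) ⬝ᵥ a = g a i := fun i a =>
    DUALx.dot ((LinearMap.proj i).comp g) a
  refine ⟨u, fun l => g (Pi.single l 1) 0, fun i l => g (Pi.single l 1) i.succ, (hT u).1 hu, ?_,
    fun i => ?_, fun i => ?_, fun i i' => ?_, fun a ha h0 h1 => ?_⟩
  · rw [e, show u = b 0 from rfl, hgb]; simp
  · rw [e, show w i = b i.succ from rfl, hgb]; simp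
  · rw [e, show u = b 0 from rfl, hgb]; simp
  · rw [e, show w i' = b i'.succ from rfl, hgb]; simp [Pi.single_apply]
  · have hm : a ∈ Submodule.span κ (Set.range b) := hsp ▸ (hT a).2 ha
    rw [← Fintype.range_linearCombination] at hm
    obtain ⟨x, rfl⟩ := hm
    have hx : x = 0 := by
      funext i
      refine Fin.cases ?_ (fun i => ?_) i
      · rw [e, hg'] at h0; exact h0
      · have := h1 i
        rw [e, hg'] at this; exact this
    rw [hx, map_zero]

end Pool.Agent.P.MP_6149fc_ag.V22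

end

section

/-! Step DUAL6. -/

set_option autoImplicit false
set_option linter.unusedSectionVars false

namespace Pool.Agent.P.MP_6149fc_ag.V22

open Pool.Agent.P.MP_6149fc_ag.V18
open MvPowerSeries (coeff X constantCoeff monomial)
open Matrix

namespace DUAL6x

variable {κ : Type} [Field κ]

/-- The vector of entries. -/
def vec (a : Hk κ) : Fin 6 → κ := ![a.a0, a.a1, a.a2, a.a3, a.a4, a.a5]

/-- The inverse map. -/
def unv (m : Fin 6 → κ) : Hk κ := ⟨m 0, m 1, m 2, m 3, m 4, m 5⟩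

theorem vec_hk (m : Fin 6 → κ) : vec (unv m) = m := by
  ext i
  fin_cases i <;> rfl

theorem lin_hk (a : Hk κ) (m : Fin 6 → κ) : a.lin (unv m) = m ⬝ᵥ vec a := by
  rw [dotProduct, Fin.sum_univ_six]
  rfl

theorem tan (c : Cm κ) (g0 g1 g2 g3 g4 h0 h1 h2 h3 h4 : κ) (a : Hk κ) :
    a.Tan g0 g1 g2 g3 g4 h0 h1 h2 h3 h4 ↔
      ∀ s, (dat c g0 g1 g2 g3 g4 h0 h1 h2 h3 h4).lin s ⬝ᵥ vec a = 0 := by
  have e : ∀ s, (dat c g0 g1 g2 g3 g4 h0 h1 h2 h3 h4).lin s ⬝ᵥ vec a =
      a.lin (unv ((dat c g0 g1 g2 g3 g4 h0 h1 h2 h3 h4).lin s)) := fun s => (lin_hk _ _).symm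
  rw [Hk.tan_iff]
  simp only [e, Fin.forall_fin_succ, IsEmpty.forall_iff, and_true]
  change _ ↔ a.lin ⟨g0, g1, g2, g3, g4, 0⟩ = 0 ∧
    a.lin ⟨h0, h1 + g0, h2 + g1, h3 + g2, h4 + g3, g4⟩ = 0 ∧ a.lin ⟨0, h0, h1, h2, h3, h4⟩ = 0
  simp only [Hk.lin_eq, zero_mul, add_zero, zero_add, add_comm h1, add_comm h2, add_comm h3,
    add_comm h4]

end DUAL6x

open DUAL6x in
theorem p_DUAL6 (hDUAL : S_DUAL) :
    S_DUAL6 := by
  intro κ _ c g0 g1 g2 g3 g4 h0 h1 h2 h3 h4 v w hs hv hw hi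
  have t := tan c g0 g1 g2 g3 g4 h0 h1 h2 h3 h4
  obtain ⟨u, m0, m, a1, a2, a3, a4, a5, a6⟩ := hDUAL κ 6 3 2
    (dat c g0 g1 g2 g3 g4 h0 h1 h2 h3 h4).lin ![vec v, vec w]
    (Fintype.linearIndependent_iff.2 fun ε h => congrFun (hs ε (by rwa [Fin.sum_univ_three] at h)))
    (LinearIndependent.pair_iff.2 fun x y h => hi x y (congrFun h 0) (congrFun h 1) (congrFun h 2)
      (congrFun h 3) (congrFun h 4) (congrFun h 5))
    (fun s => Fin.forall_fin_two.2 ⟨(t v).1 hv s, (t w).1 hw s⟩) rfl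
  refine ⟨unv u, unv m0, unv (m 0), unv (m 1), (t _).2 (by rwa [vec_hk]), ?_, ?_, ?_,
    fun a ha b0 b1 b2 => ?_⟩
  · simp only [lin_hk, vec_hk]
    exact ⟨a2, a4 0, a4 1⟩
  · simp only [lin_hk]
    exact ⟨a3 0, a5 0 0, a5 1 0⟩
  · simp only [lin_hk]
    exact ⟨a3 1, a5 0 1, a5 1 1⟩
  · rw [lin_hk] at b0 b1 b2
    have h := a6 (vec a) ((t a).1 ha) b0 (Fin.forall_fin_two.2 ⟨b1, b2⟩)
    exact Hk.ext6 (congrFun h 0) (congrFun h 1) (congrFun h 2) (congrFun h 3) (congrFun h 4)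
      (congrFun h 5)

end Pool.Agent.P.MP_6149fc_ag.V22

end

section

/-! Step DUAL4. -/

set_option autoImplicit false
set_option linter.unusedSectionVars false

namespace Pool.Agent.P.MP_6149fc_ag.V22

open Pool.Agent.P.MP_6149fc_ag.V18
open MvPowerSeries (coeff X constantCoeff monomial)
open Matrix

theorem p_DUAL4 (hDUAL : S_DUAL) :
    S_DUAL4 := by
  intro κ _ f0 f1 f2 f3 e0 e1 e2 e3 u0 u1 u2 u3 hi hu hf he
  have h1 : LinearIndependent κ (![![f0, f1, f2, f3], ![e0, e1, e2, e3]] : Fin 2 → Fin 4 → κ) := by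
    rw [LinearIndependent.pair_iff]
    intro x y h
    exact hi x y (by simpa using congrFun h 0) (by simpa using congrFun h 1)
      (by simpa using congrFun h 2) (by simpa using congrFun h 3)
  have h2 : LinearIndependent κ (![![u0, u1, u2, u3]] : Fin 1 → Fin 4 → κ) := by
    rw [linearIndependent_unique_iff]
    intro h
    have a0 : u0 = 0 := by simpa using congrFun h 0
    have a1 : u1 = 0 := by simpa using congrFun h 1
    have a2 : u2 = 0 := by simpa using congrFun h 2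
    have a3 : u3 = 0 := by simpa using congrFun h 3
    simp [a0, a1, a2, a3] at hu
  obtain ⟨v, m, n, b1, b2, b3, b4, b5, b6⟩ := hDUAL κ 4 2 1 _ _ h1 h2 (by
    intro s i
    fin_cases i
    fin_cases s
    · simpa [dotProduct, Fin.sum_univ_four] using hf
    · simpa [dotProduct, Fin.sum_univ_four] using he) rfl
  refine ⟨v 0, v 1, v 2, v 3, n 0 0, n 0 1, n 0 2, n 0 3, m 0, m 1, m 2, m 3,
    by simpa [dotProduct, Fin.sum_univ_four] using b1 0,
    by simpa [dotProduct, Fin.sum_univ_four] using b1 1,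
    by simpa [dotProduct, Fin.sum_univ_four] using b5 0 0,
    by simpa [dotProduct, Fin.sum_univ_four] using b3 0,
    by simpa [dotProduct, Fin.sum_univ_four] using b4 0,
    by simpa [dotProduct, Fin.sum_univ_four] using b2, fun a0 a1 a2 a3 c1 c2 c3 c4 => ?_⟩
  have h := b6 ![a0, a1, a2, a3] (by
      intro s
      fin_cases s
      · simpa [dotProduct, Fin.sum_univ_four] using c1
      · simpa [dotProduct, Fin.sum_univ_four] using c2)
    (by simpa [dotProduct, Fin.sum_univ_four] using c4) (by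
      intro i
      fin_cases i
      simpa [dotProduct, Fin.sum_univ_four] using c3)
  exact ⟨by simpa using congrFun h 0, by simpa using congrFun h 1, by simpa using congrFun h 2,
    by simpa using congrFun h 3⟩

end Pool.Agent.P.MP_6149fc_ag.V22

end

section

/-! Step RES2. -/

set_option autoImplicit false
set_option linter.unusedSectionVars false

namespace Pool.Agent.P.MP_6149fc_ag.V22

open Pool.Agent.P.MP_6149fc_ag.V18
open MvPowerSeries (coeff X constantCoeff monomial)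
open Matrix

namespace RES2x

theorem aux {κ : Type} [Field κ] [IsAlgClosed κ] (h0 h1 h2 k0 k1 k2 : κ) (h : h2 ≠ 0)
    (hn : ∀ t : κ, h0 + h1 * t + h2 * t ^ 2 ≠ 0 ∨ k0 + k1 * t + k2 * t ^ 2 ≠ 0) :
    res2 h0 h1 h2 k0 k1 k2 ≠ 0 := by
  obtain ⟨s, hs⟩ := IsAlgClosed.exists_root
    (Polynomial.C h2 * Polynomial.X ^ 2 + Polynomial.C h1 * Polynomial.X + Polynomial.C h0)
    (by rw [Polynomial.degree_quadratic h]; decide)
  have e : h2 * s ^ 2 + h1 * s + h0 = 0 := by simpa using hs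
  obtain ⟨r, hr⟩ : ∃ r, h1 = -h2 * (s + r) := ⟨-h1 / h2 - s, by field_simp; ring⟩
  have e0 : h0 = h2 * s * r := by linear_combination e - s * hr
  have a := (hn s).resolve_left (by rw [not_not, e0, hr]; ring)
  have b := (hn r).resolve_left (by rw [not_not, e0, hr]; ring)
  have c : res2 h0 h1 h2 k0 k1 k2 =
      h2 ^ 2 * (k0 + k1 * s + k2 * s ^ 2) * (k0 + k1 * r + k2 * r ^ 2) := by
    rw [res2, e0, hr]
    ring
  rw [c]
  exact mul_ne_zero (mul_ne_zero (pow_ne_zero 2 h) a) b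

end RES2x

theorem p_RES2 :
    S_RES2 := by
  rintro κ _ _ h0 h1 h2 k0 k1 k2 ⟨h | h, hn⟩
  · exact RES2x.aux _ _ _ _ _ _ h hn
  · have := RES2x.aux k0 k1 k2 h0 h1 h2 h fun t => (hn t).symm
    intro e
    apply this
    rw [← e, res2, res2]
    ring

end Pool.Agent.P.MP_6149fc_ag.V22

end

section

/-! Step PEN4. -/

set_option autoImplicit false
set_option linter.unusedSectionVars false

namespace Pool.Agent.P.MP_6149fc_ag.V22

open Pool.Agent.P.MP_6149fc_ag.V18
open MvPowerSeries (coeff X constantCoeff monomial)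
open Matrix

namespace PEN4x

variable {κ : Type} [Field κ]

theorem root [IsAlgClosed κ] (A B C : κ) :
    ∃ l m : κ, (l ≠ 0 ∨ m ≠ 0) ∧ A * l ^ 2 + B * l * m + C * m ^ 2 = 0 := by
  by_cases h : C = 0
  · exact ⟨0, 1, Or.inr one_ne_zero, by simp [h]⟩
  · obtain ⟨m, hm⟩ := IsAlgClosed.exists_root
      (Polynomial.C C * Polynomial.X ^ 2 + Polynomial.C B * Polynomial.X + Polynomial.C A)
      (by rw [Polynomial.degree_quadratic h]; decide)
    refine ⟨1, m, Or.inl one_ne_zero, ?_⟩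
    simp only [Polynomial.IsRoot.def, Polynomial.eval_add, Polynomial.eval_mul, Polynomial.eval_C,
      Polynomial.eval_pow, Polynomial.eval_X] at hm
    linear_combination hm

/-- The determinant with four given rows. -/
def dt (p q r s : Fin 4 → κ) : κ := (Matrix.of ![p, q, r, s]).det

theorem lin0 (l m : κ) (p p' q r s : Fin 4 → κ) :
    dt (l • p + m • p') q r s = l * dt p q r s + m * dt p' q r s := by
  have e : ∀ v : Fin 4 → κ, Matrix.of ![v, q, r, s] = (Matrix.of ![p, q, r, s]).updateRow 0 v :=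
    fun v => by ext i j; fin_cases i <;> simp
  unfold dt
  rw [e (l • p + m • p'), e p', det_updateRow_add, det_updateRow_smul, det_updateRow_smul, ← e p]

theorem lin1 (l m : κ) (p q q' r s : Fin 4 → κ) :
    dt p (l • q + m • q') r s = l * dt p q r s + m * dt p q' r s := by
  have e : ∀ v : Fin 4 → κ, Matrix.of ![p, v, r, s] = (Matrix.of ![p, q, r, s]).updateRow 1 v :=
    fun v => by ext i j; fin_cases i <;> simp
  unfold dt
  rw [e (l • q + m • q'), e q', det_updateRow_add, det_updateRow_smul, det_updateRow_smul, ← e q]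

end PEN4x

open PEN4x in
theorem p_PEN4 :
    S_PEN4 := by
  intro κ _ _ a0 a1 b0 b1 c u hu h0 h1 h2 h3 h4
  obtain ⟨i, hi⟩ := Function.ne_iff.1 hu
  obtain ⟨w, hw⟩ : ∃ w : Fin 4 → κ, u ⬝ᵥ w = 1 :=
    ⟨Pi.single i (u i)⁻¹, by rw [dotProduct_single]; exact mul_inv_cancel₀ hi⟩
  obtain ⟨l, m, hlm, hd⟩ := root (dt a0 a1 c w) (dt a0 b1 c w + dt b0 a1 c w) (dt b0 b1 c w)
  have hd' : dt (l • a0 + m • b0) (l • a1 + m • b1) c w = 0 := by
    rw [lin0, lin1, lin1]; linear_combination hd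
  obtain ⟨e, he, hv⟩ := Matrix.exists_vecMul_eq_zero_iff.2 hd'
  have hv' : e 0 • (l • a0 + m • b0) + e 1 • (l • a1 + m • b1) + e 2 • c + e 3 • w = 0 := by
    rw [← hv]
    funext j
    simp [vecMul, dotProduct, Fin.sum_univ_four, mul_add]
  have h5 : e 3 = 0 := by
    have := congrArg (u ⬝ᵥ ·) hv'
    simpa [dotProduct_add, dotProduct_smul, h0, h1, h2, h3, h4, hw] using this
  refine ⟨l, m, e 0, e 1, e 2, hlm, ?_, fun j => ?_⟩
  · by_contra hc
    push Not at hc
    apply he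
    funext j
    fin_cases j
    exacts [hc.1, hc.2.1, hc.2.2, h5]
  · have := congrFun hv' j
    simp only [h5, Pi.add_apply, Pi.smul_apply, smul_eq_mul, Pi.zero_apply] at this
    linear_combination this

end Pool.Agent.P.MP_6149fc_ag.V22

end

section

/-! Step KMV. -/

set_option autoImplicit false
set_option linter.unusedSectionVars false

namespace Pool.Agent.P.MP_6149fc_ag.V22

open Pool.Agent.P.MP_6149fc_ag.V18
open MvPowerSeries (coeff X constantCoeff monomial)
open Matrix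

namespace KMVx

variable {κ : Type} [Field κ]

/-- The first form. -/
def P (d : Dat κ) (s t : κ) : κ :=
  d.p0 * s ^ 4 + d.p1 * s ^ 3 * t + d.p2 * s ^ 2 * t ^ 2 + d.p3 * s * t ^ 3 + d.p4 * t ^ 4

/-- The second form. -/
def R (d : Dat κ) (s t : κ) : κ :=
  d.r0 * s ^ 4 + d.r1 * s ^ 3 * t + d.r2 * s ^ 2 * t ^ 2 + d.r3 * s * t ^ 3 + d.r4 * t ^ 4

theorem nz {d : Dat κ} (h4 : d.p4 ≠ 0 ∨ d.r4 ≠ 0) (hN : d.Nz) (s : κ) {t : κ} (ht : t ≠ 0)
    (h1 : P d s t = 0) (h2 : R d s t = 0) : False := by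
  by_cases hs : s = 0
  · subst hs
    have h := pow_ne_zero 4 ht
    rcases h4 with h4 | h4
    · exact mul_ne_zero h4 h (by simpa [P] using h1)
    · exact mul_ne_zero h4 h (by simpa [R] using h2)
  · have e1 : s ^ 4 * d.g1 (t / s) = P d s t := by simp only [P, Dat.g1]; field_simp
    have e2 : s ^ 4 * d.g2 (t / s) = R d s t := by simp only [R, Dat.g2]; field_simp
    have h := pow_ne_zero 4 hs
    exact hN _ (div_ne_zero ht hs) ⟨(mul_eq_zero.1 (e1.trans h1)).resolve_left h,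
      (mul_eq_zero.1 (e2.trans h2)).resolve_left h⟩

theorem mv {d : Dat κ} (c : κ) (h4 : d.p4 ≠ 0 ∨ d.r4 ≠ 0) (hN : d.Nz) :
    ((ssh c d).p4 ≠ 0 ∨ (ssh c d).r4 ≠ 0) ∧ (ssh c d).Nz := by
  have e1 : (ssh c d).p4 = P d c 1 := by simp only [ssh, swpD, shfD, Dat.g2, P]; ring
  have e2 : (ssh c d).r4 = R d c 1 - c * P d c 1 := by
    simp only [ssh, swpD, shfD, Dat.g1, Dat.g2, P, R]; ring
  refine ⟨?_, fun t ht h => ?_⟩
  · by_contra h
    push Not at h
    have a1 := e1.symm.trans h.1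
    refine nz h4 hN c one_ne_zero a1 ?_
    have a2 := e2.symm.trans h.2
    rwa [a1, mul_zero, sub_zero] at a2
  · have e3 : (ssh c d).g1 t = P d (1 + c * t) t := by
      simp only [ssh, swpD, shfD, Dat.g1, Dat.g2, P]; ring
    have e4 : (ssh c d).g2 t = R d (1 + c * t) t - c * P d (1 + c * t) t := by
      simp only [ssh, swpD, shfD, Dat.g1, Dat.g2, P, R]; ring
    have a1 := e3.symm.trans h.1
    refine nz h4 hN _ ht a1 ?_
    have a2 := e4.symm.trans h.2
    rwa [a1, mul_zero, sub_zero] at a2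

theorem or_mv {a b : κ} (c : κ) (h : a ≠ 0 ∨ b ≠ 0) : a ≠ 0 ∨ b - c * a ≠ 0 := by
  by_cases ha : a = 0
  · exact .inr (by simpa [ha] using h)
  · exact .inl ha

theorem or_sc {a b c : κ} (hc : c ≠ 0) (h : a ≠ 0 ∨ b ≠ 0) : c * a ≠ 0 ∨ c * b ≠ 0 :=
  h.imp (mul_ne_zero hc) (mul_ne_zero hc)

theorem sc {d : Dat κ} {c : κ} (hc : c ≠ 0) (hN : d.Nz) : (sclD c 1 d).Nz := by
  intro t ht h
  have e1 : (sclD c 1 d).g1 t = c * d.g1 t := by simp only [sclD, Dat.g1]; ring
  have e2 : (sclD c 1 d).g2 t = c * d.g2 t := by simp only [sclD, Dat.g2]; ring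
  exact hN t ht ⟨(mul_eq_zero.1 (e1.symm.trans h.1)).resolve_left hc,
    (mul_eq_zero.1 (e2.symm.trans h.2)).resolve_left hc⟩

end KMVx

open KMVx in
theorem p_KMV :
    S_KMV := by
  intro κ _ d c
  refine ⟨?_, ?_, ?_, ?_⟩
  · rintro ⟨h1, h2, h3, h4, h5⟩
    have e1 : (ssh c d).p1 = d.p1 := by simp [ssh, swpD, shfD, h1]
    have e2 : (ssh c d).r1 = d.r1 - c * d.p1 := by simp [ssh, swpD, shfD, h1, h2]
    exact ⟨⟨h1, by simp [ssh, swpD, shfD, h1, h2], by rw [e1, e2]; exact or_mv c h3,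
      mv c h4 h5⟩, e1, e2⟩
  · rintro ⟨h1, h2, h1', h2', h3, h4, h5⟩
    have e1 : (ssh c d).p2 = d.p2 := by simp [ssh, swpD, shfD, h1, h1']
    have e2 : (ssh c d).r2 = d.r2 - c * d.p2 := by simp [ssh, swpD, shfD, h1, h2, h1', h2']
    exact ⟨⟨h1, by simp [ssh, swpD, shfD, h1, h2], by simp [ssh, swpD, shfD, h1, h1'],
      by simp [ssh, swpD, shfD, h1, h2, h1', h2'], by rw [e1, e2]; exact or_mv c h3,
      mv c h4 h5⟩, e1, e2⟩
  · rintro hc ⟨h1, h2, h3, h4, h5⟩
    exact ⟨by simp [sclD, h1], by simp [sclD, h2], or_sc hc h3, or_sc hc h4, sc hc h5⟩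
  · rintro hc ⟨h1, h2, h1', h2', h3, h4, h5⟩
    exact ⟨by simp [sclD, h1], by simp [sclD, h2], by simp [sclD, h1'], by simp [sclD, h2'],
      or_sc hc h3, or_sc hc h4, sc hc h5⟩

end Pool.Agent.P.MP_6149fc_ag.V22

end

section

/-! Step KNR. -/

set_option autoImplicit false
set_option linter.unusedSectionVars false

namespace Pool.Agent.P.MP_6149fc_ag.V22

open Pool.Agent.P.MP_6149fc_ag.V18
open MvPowerSeries (coeff X constantCoeff monomial)
open Matrix

theorem p_KNR :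
    S_KNR := by
  intro κ _ d
  refine ⟨fun ⟨h, h4⟩ => ⟨h4.symm, fun t => ?_⟩,
    fun ⟨p0, r0, h1, h4, h⟩ => ⟨h4.symm, fun t => ?_⟩,
    fun ⟨p0, r0, p4, r4, h1, h3, h⟩ => ⟨h3.symm, fun t => ?_⟩,
    fun ⟨p0, r0, p1, r1, h2, h4, h⟩ => ⟨h4.symm, fun t => ?_⟩⟩
  · by_contra hc
    push Not at hc
    exact h t ⟨hc.2, hc.1⟩
  · by_cases ht : t = 0
    · simpa [ht] using h1.symm
    by_contra hc
    push Not at hc
    exact h t ht ⟨by rw [Dat.g1]; linear_combination p0 + t * hc.2,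
      by rw [Dat.g2]; linear_combination r0 + t * hc.1⟩
  · by_cases ht : t = 0
    · simpa [ht] using h1.symm
    by_contra hc
    push Not at hc
    exact h t ht ⟨by rw [Dat.g1]; linear_combination p0 + t * hc.2 + t ^ 4 * p4,
      by rw [Dat.g2]; linear_combination r0 + t * hc.1 + t ^ 4 * r4⟩
  · by_cases ht : t = 0
    · simpa [ht] using h2.symm
    by_contra hc
    push Not at hc
    exact h t ht ⟨by rw [Dat.g1]; linear_combination p0 + t * p1 + t ^ 2 * hc.2,
      by rw [Dat.g2]; linear_combination r0 + t * r1 + t ^ 2 * hc.1⟩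

end Pool.Agent.P.MP_6149fc_ag.V22

end

section

/-! Step LNZ. -/

set_option autoImplicit false
set_option linter.unusedSectionVars false

namespace Pool.Agent.P.MP_6149fc_ag.V22

open Pool.Agent.P.MP_6149fc_ag.V18
open MvPowerSeries (coeff X constantCoeff monomial)
open Matrix

namespace LNZx

theorem comb {κ : Type} [Field κ] (q : Fin 3 → Fin 5 → κ) (l : Fin 5 → κ)
    (h : ∀ v : Fin 5 → κ, (∀ s, q s ⬝ᵥ v = 0) → l ⬝ᵥ v = 0) :
    ∃ x : Fin 3 → κ, ∀ i, ∑ s, x s * q s i = l i := by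
  have h1 : dotProductBilin κ κ l ∈
      Submodule.span κ (Set.range fun s => dotProductBilin κ κ (q s)) :=
    mem_span_of_iInf_ker_le_ker fun v hv =>
      h v fun s => (Submodule.mem_iInf _).1 hv s
  obtain ⟨x, hx⟩ := (Submodule.mem_span_range_iff_exists_fun κ).1 h1
  refine ⟨x, fun i => ?_⟩
  simpa using LinearMap.congr_fun hx (Pi.single i 1)

end LNZx

theorem p_LNZ :
    S_LNZ := by
  intro κ _ c al b1 b2 b3 ap e1 e2 e3 hS hne
  by_contra hc
  push Not at hc
  obtain ⟨x, hx⟩ := LNZx.comb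
    ![![al, b1, b2, b3, 0], ![ap, al + e1, b1 + e2, b2 + e3, b3], ![0, ap, e1, e2, e3]]
    ![0, ap * c.c01, ap * c.c02 - al * c.c01, ap * c.c03 - al * c.c02, -(al * c.c03)]
    fun v hv => by
      have k0 := hv 0
      have k1 := hv 1
      have k2 := hv 2
      simp [dotProduct, Fin.sum_univ_five] at k0 k1 k2
      have := hc ⟨0, v 0, v 1, v 2, v 3, v 4⟩ ((Hk.tan_iff _ _ _ _ _ _ _ _ _ _ _).2
        ⟨by linear_combination k0, by linear_combination k1, by linear_combination k2⟩)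
      simp only [ell] at this
      simp [dotProduct, Fin.sum_univ_five]
      linear_combination this
  have k0 := hx 0
  have k1 := hx 1
  have k2 := hx 2
  have k3 := hx 3
  have k4 := hx 4
  simp [Fin.sum_univ_three] at k0 k1 k2 k3 k4
  obtain ⟨s, t, hst⟩ := dual2 hne
  have hx0 : x 0 = (t * x 0 - s * x 1) * ap := by linear_combination (-x 0) * hst + s * k0
  have hx1 : x 1 = -((t * x 0 - s * x 1) * al) := by linear_combination (-x 1) * hst + t * k0
  generalize t * x 0 - s * x 1 = mu at hx0 hx1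
  rw [hx0, hx1] at k1 k2 k3
  rw [hx1] at k4
  refine hS mu (-1) ap (-al) (x 2) rfl rfl (.inr (by simp))
    (hne.elim (fun h => .inr (.inl (neg_ne_zero.2 h))) .inl) ?_ ?_ ?_ ?_ ?_ <;> simp only [dat]
  · ring
  · linear_combination k1
  · linear_combination k2
  · linear_combination k3
  · linear_combination k4

end Pool.Agent.P.MP_6149fc_ag.V22

end

section

/-! Step C03. -/

set_option autoImplicit false
set_option linter.unusedSectionVars false

namespace Pool.Agent.P.MP_6149fc_ag.V22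

open Pool.Agent.P.MP_6149fc_ag.V18
open MvPowerSeries (coeff X constantCoeff monomial)
open Matrix

namespace C03x

theorem two {κ : Type} [Field κ] (S : Fm κ)
    (h : ∀ u : Fin 7 → κ, u 4 = 0 → u 5 = 0 → (S *ᵥ u) 4 = 0 → (S *ᵥ u) 5 = 0 → S *ᵥ u = 0) :
    ¬ K1 S := by
  intro hK
  let g : (Fin 7 → κ) →ₗ[κ] (κ × κ) × κ × κ :=
    ((LinearMap.proj 4).prod (LinearMap.proj 5)).prod
      (((LinearMap.proj 4).prod (LinearMap.proj 5)) ∘ₗ S.mulVecLin)
  have h1 := g.finrank_range_add_finrank_ker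
  have h2 := (LinearMap.range g).finrank_le
  simp only [Module.finrank_prod, Module.finrank_self, Module.finrank_fintype_fun_eq_card,
    Fintype.card_fin] at h1 h2
  obtain ⟨v, hv⟩ := exists_linearIndependent_of_le_finrank (R := κ) (M := LinearMap.ker g) (n := 2)
    (by omega)
  have h3 : ∀ i, S *ᵥ (v i : Fin 7 → κ) = 0 := fun i => by
    have := LinearMap.mem_ker.1 (v i).2
    exact h _ (congrArg (·.1.1) this) (congrArg (·.1.2) this) (congrArg (·.2.1) this)
      (congrArg (·.2.2) this)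
  refine hK _ _ (h3 0) (h3 1) ?_
  have := hv.map' (LinearMap.ker g).subtype (Submodule.ker_subtype _)
  rwa [show (LinearMap.ker g).subtype ∘ v = ![(v 0 : Fin 7 → κ), (v 1 : Fin 7 → κ)] from
    funext fun i => by fin_cases i <;> rfl] at this

end C03x

theorem p_C03 (hTV : S_TV) (hND : S_ND) :
    S_C03 := by
  intro κ _ _ c h0 h1 h2 k0 k1 k2 hs hc
  refine C03x.two _ (fun u a b d e => ?_)
    (hND κ _ (hTV κ _ hs) ![-h0, k2, 1] fun h => one_ne_zero (congrFun h 2))
  funext i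
  fin_cases i
  rotate_left 4
  · exact d
  · exact e
  all_goals
    simp only [sk, Matrix.mulVec, dotProduct, Matrix.sum_apply, Matrix.smul_apply,
      Matrix.sub_apply, Matrix.transpose_apply, Fin.sum_univ_seven, Fin.sum_univ_three, a, b]
    simp [net, bnet, bf, pA, pB, Dat.E, Dat.D, dat, hc]

end Pool.Agent.P.MP_6149fc_ag.V22

end

section

/-! Step DA0. -/

set_option autoImplicit false
set_option linter.unusedSectionVars false

namespace Pool.Agent.P.MP_6149fc_ag.V22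

open Pool.Agent.P.MP_6149fc_ag.V18
open MvPowerSeries (coeff X constantCoeff monomial)
open Matrix

theorem p_DA0 :
    S_DA0 := by
  intro κ _ c h1 h2 k1 k2 hS hρ hc hz
  have key : ∀ l m e2 : κ, (l ≠ 0 ∨ m ≠ 0) → l * h1 + e2 + m * c.c02 = 0 →
      l * h2 + e2 * k1 + m * c.c03 = 0 → e2 * k2 = 0 → False := by
    intro l m e2 hlm a b d
    refine hS l m 1 0 e2 rfl rfl hlm (Or.inl one_ne_zero) ?_ ?_ ?_ ?_ ?_ <;> simp only [dat]
    · ring
    · linear_combination m * hc
    · linear_combination a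
    · linear_combination b
    · linear_combination d
  rcases mul_eq_zero.1 hz with h | h
  · refine key (c.c02 * k1 - c.c03) (-(h1 * k1 - h2)) (h1 * c.c03 - h2 * c.c02)
      (Or.inr fun e => hρ ?_) (by ring) (by ring) (by rw [h, mul_zero])
    linear_combination h2 * e + h1 ^ 2 * h
  · by_cases e1 : h1 = 0
    · have e2 : h2 ≠ 0 := fun e2 => hρ (by rw [e1, e2]; ring)
      exact key (-c.c03) h2 0 (Or.inr e2) (by linear_combination h) (by ring) (by ring)
    · exact key (-c.c02) h1 0 (Or.inr e1) (by ring) (by linear_combination -h) (by ring)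

end Pool.Agent.P.MP_6149fc_ag.V22

end

section

/-! Step DAB. -/

set_option autoImplicit false
set_option linter.unusedSectionVars false

namespace Pool.Agent.P.MP_6149fc_ag.V22

open Pool.Agent.P.MP_6149fc_ag.V18
open MvPowerSeries (coeff X constantCoeff monomial)
open Matrix

theorem p_DAB (hPEN4 : S_PEN4) :
    S_DAB := by
  intro κ _ _ c h0 h1 h2 k0 k1 k2 u2 u3 u4 u5 hSL e2 e3 e4 e5 hu
  by_contra hc
  simp only [not_or, not_not] at hc
  obtain ⟨hA, hB⟩ := hc
  have hu0 : (![u2, u3, u4, u5] : Fin 4 → κ) ≠ 0 := by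
    intro h
    have a0 : u2 = 0 := congrFun h 0
    have a1 : u3 = 0 := congrFun h 1
    have a2 : u4 = 0 := congrFun h 2
    have a3 : u5 = 0 := congrFun h 3
    rcases hu with h | h | h | h
    exacts [h a0, h a1, h a2, h a3]
  have hd : ∀ x0 x1 x2 x3 : κ, (![u2, u3, u4, u5] : Fin 4 → κ) ⬝ᵥ ![x0, x1, x2, x3] =
      u2 * x0 + u3 * x1 + u4 * x2 + u5 * x3 := by
    intro x0 x1 x2 x3
    simp [dotProduct, Fin.sum_univ_four]
  obtain ⟨l, m, f0, f1, f2, hlm, hf, hq⟩ := hPEN4 κ ![h0, h1, h2, 0] ![k0, k1 + h0, k2 + h1, h2]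
    ![c.c01, c.c02, c.c03, 0] ![0, c.c01, c.c02, c.c03] ![0, k0, k1, k2] ![u2, u3, u4, u5] hu0
    (by rw [hd, e2, e3, e4, e5]; simp only [kp1, kp2, kp3, kp4]; ring)
    (by rw [hd, e2, e3, e4, e5]; simp only [kp1, kp2, kp3, kp4]; ring)
    (by rw [hd]; linear_combination hA)
    (by rw [hd]; linear_combination hB)
    (by rw [hd, e2, e3, e4, e5]; simp only [kp1, kp2, kp3, kp4]; ring)
  have q0 : l * (f0 * h0 + f1 * k0) + f2 * 0 + m * (f0 * c.c01 + f1 * 0) = 0 := hq 0
  have q1 : l * (f0 * h1 + f1 * (k1 + h0)) + f2 * k0 + m * (f0 * c.c02 + f1 * c.c01) = 0 := hq 1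
  have q2 : l * (f0 * h2 + f1 * (k2 + h1)) + f2 * k1 + m * (f0 * c.c03 + f1 * c.c02) = 0 := hq 2
  have q3 : l * (f0 * 0 + f1 * h2) + f2 * k2 + m * (f0 * 0 + f1 * c.c03) = 0 := hq 3
  refine hSL l m f0 f1 f2 rfl rfl hlm hf ?_ ?_ ?_ ?_ ?_ <;> simp only [dat]
  · ring
  · linear_combination q0
  · linear_combination q1
  · linear_combination q2
  · linear_combination q3

end Pool.Agent.P.MP_6149fc_ag.V22

end
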