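import Pool.Agent.P.MP_6149fc_ag.V22.IfaceQ
import Pool.Agent.P.MP_6149fc_ag.V22.IfaceK
import Pool.Agent.P.MP_6149fc_ag.V22.IfaceG

section

/-! Step DBB. -/

set_option autoImplicit false
set_option linter.unusedSectionVars false

namespace Pool.Agent.P.MP_6149fc_ag.V22

open Pool.Agent.P.MP_6149fc_ag.V18
open MvPowerSeries (coeff X constantCoeff monomial)
open Matrix

theorem p_DBB :
    S_DBB := by
  intro κ _ c h1 h2 k1 k2 hS hk hB
  have hd : (!![1 + k1, h1 + k2, h2; c.c01, c.c02, c.c03; 0, k1, k2] :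
      Matrix (Fin 3) (Fin 3) κ).det = 0 := by
    rw [det_fin_three]
    simp only [of_apply, cons_val', cons_val_zero, cons_val_one, cons_val_two, cons_val_fin_one,
      Nat.succ_eq_add_one, Nat.reduceAdd, tail_cons, head_cons, head_fin_const]
    linear_combination -hB
  obtain ⟨v, v0, hv⟩ := Matrix.exists_vecMul_eq_zero_iff.2 hd
  have a0 := congrFun hv 0
  have a1 := congrFun hv 1
  have a2 := congrFun hv 2
  simp [vecMul, dotProduct, Fin.sum_univ_three] at a0 a1 a2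
  refine hS (v 0) (v 1) 0 1 (v 2) rfl rfl ?_ (Or.inr (Or.inl one_ne_zero)) ?_ ?_ ?_ ?_ ?_
  · by_contra n
    rw [not_or, not_not, not_not] at n
    rw [n.1, n.2] at a1 a2
    have e : v 2 = 0 := by
      rcases hk with k | k
      · exact (mul_eq_zero.1 (by linear_combination a1)).resolve_right k
      · exact (mul_eq_zero.1 (by linear_combination a2)).resolve_right k
    exact v0 (by funext i; fin_cases i; exacts [n.1, n.2, e])
  · simp [dat]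
  · simp [dat]
  · simp only [dat]; linear_combination a0
  · simp only [dat]; linear_combination a1
  · simp only [dat]; linear_combination a2

end Pool.Agent.P.MP_6149fc_ag.V22

end

section

/-! Step GK1U. -/

set_option autoImplicit false
set_option linter.unusedSectionVars false

namespace Pool.Agent.P.MP_6149fc_ag.V22

open Pool.Agent.P.MP_6149fc_ag.V18
open MvPowerSeries (coeff X constantCoeff monomial)
open Matrix

theorem p_GK1U (hKIT : S_KIT) (hSCH4 : S_SCH4) (hSQ1 : S_SQ1) (hLINA : S_LINA) (hDUAL4 : S_DUAL4) (hPK1G : S_PK1G) :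
    S_GK1U := by
  intro κ _ _ _ c al b1 b2 b3 ap e1 e2 e3 f0 f1 f2 f3 hap hf0 hf1 hf2 hf3 N1 N2 S0 ⟨a, ha, hell⟩
  obtain ⟨u, u0, hu, ud⟩ := hSCH4 κ _ _ _ _ _ _ _ _ N1
  obtain ⟨x, y, hxy⟩ := dual2 hap
  have tf : ∀ a : Hk κ, a.Tan 0 al b1 b2 b3 0 ap e1 e2 e3 →
      f0 * a.a2 + f1 * a.a3 + f2 * a.a4 + f3 * a.a5 = 0 ∧
        ap * a.a2 + e1 * a.a3 + e2 * a.a4 + e3 * a.a5 = 0 := fun a ha => by
    obtain ⟨E1, E2, E3⟩ := (Hk.tan_iff ..).1 ha
    rw [hf0, hf1, hf2, hf3]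
    exact ⟨by linear_combination ap * E1 - al * E2, by linear_combination E3⟩
  have un : u.a2 ≠ 0 ∨ u.a3 ≠ 0 ∨ u.a4 ≠ 0 ∨ u.a5 ≠ 0 := by
    by_contra hc
    simp only [not_or, not_not] at hc
    exact ud (by simp [Hk.d123, hc.1, hc.2.1, hc.2.2.1, hc.2.2.2])
  have ind : ∀ s t : κ, s * f0 + t * ap = 0 → s * f1 + t * e1 = 0 → s * f2 + t * e2 = 0 →
      s * f3 + t * e3 = 0 → s = 0 ∧ t = 0 := fun s t h0 h1 h2 h3 => by
    rw [hf0] at h0
    rw [hf1] at h1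
    rw [hf2] at h2
    rw [hf3] at h3
    have h := S0 ![s * ap, -(s * al), t] (by
      funext i
      fin_cases i <;> simp [dat, Dat.lin]
      · ring
      · linear_combination h0
      · linear_combination h1
      · linear_combination h2
      · linear_combination h3)
    have a0 : s * ap = 0 := congrFun h 0
    have a1 : -(s * al) = 0 := congrFun h 1
    exact ⟨by linear_combination y * a0 - x * a1 - s * hxy, congrFun h 2⟩
  obtain ⟨v2, v3, v4, v5, n2, n3, n4, n5, m2, m3, m4, m5, vf, ve, nu, mu, nv, mv, hz⟩ :=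
    hDUAL4 κ f0 f1 f2 f3 ap e1 e2 e3 u.a2 u.a3 u.a4 u.a5 ind un (tf u hu).1 (tf u hu).2
  obtain ⟨v1, hv1⟩ : ∃ v1, v1 = -(x * (b1 * v2 + b2 * v3 + b3 * v4) +
    y * ((al + e1) * v2 + (b1 + e2) * v3 + (b2 + e3) * v4 + b3 * v5)) := ⟨_, rfl⟩
  have hv : (⟨0, v1, v2, v3, v4, v5⟩ : Hk κ).Tan 0 al b1 b2 b3 0 ap e1 e2 e3 := by
    rw [hf0, hf1, hf2, hf3] at vf
    rw [Hk.tan_iff, hv1]
    refine ⟨?_, ?_, by linear_combination ve⟩
    · linear_combination y * vf - (b1 * v2 + b2 * v3 + b3 * v4) * hxy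
    · linear_combination (-x) * vf -
        ((al + e1) * v2 + (b1 + e2) * v3 + (b2 + e3) * v4 + b3 * v5) * hxy
  have hw : (⟨1, 0, 0, 0, 0, 0⟩ : Hk κ).Tan 0 al b1 b2 b3 0 ap e1 e2 e3 := by
    rw [Hk.tan_iff]
    simp
  have nd : ∀ a : Hk κ, a.Tan 0 al b1 b2 b3 0 ap e1 e2 e3 → a.lin ⟨0, 0, n2, n3, n4, n5⟩ = 0 →
      a.lin ⟨0, 0, m2, m3, m4, m5⟩ = 0 → a.lin (⟨1, 0, 0, 0, 0, 0⟩ : Hk κ) = 0 →
      a = ⟨0, 0, 0, 0, 0, 0⟩ := fun a ha h0 h1 h2 => by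
    simp only [Hk.lin_eq, zero_mul, zero_add, one_mul, add_zero] at h0 h1 h2
    obtain ⟨z2, z3, z4, z5⟩ := hz _ _ _ _ (tf a ha).1 (tf a ha).2 h0 h1
    obtain ⟨E1, E2, -⟩ := (Hk.tan_iff ..).1 ha
    rw [z2, z3, z4] at E1 E2
    rw [z5] at E2
    exact Hk.ext6 h2 (by linear_combination x * E1 + y * E2 - a.a1 * hxy) z2 z3 z4 z5
  have he : ell c al ap u ≠ 0 ∨ ell c al ap ⟨0, v1, v2, v3, v4, v5⟩ ≠ 0 := by
    by_contra hc
    simp only [not_or, not_not, ell] at hc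
    obtain ⟨s, hs⟩ : ∃ s, s = n2 * a.a2 + n3 * a.a3 + n4 * a.a4 + n5 * a.a5 := ⟨_, rfl⟩
    obtain ⟨t, ht⟩ : ∃ t, t = m2 * a.a2 + m3 * a.a3 + m4 * a.a4 + m5 * a.a5 := ⟨_, rfl⟩
    obtain ⟨z2, z3, z4, z5⟩ := hz (a.a2 - s * u.a2 - t * v2) (a.a3 - s * u.a3 - t * v3)
      (a.a4 - s * u.a4 - t * v4) (a.a5 - s * u.a5 - t * v5)
      (by linear_combination (tf a ha).1 - s * (tf u hu).1 - t * vf)
      (by linear_combination (tf a ha).2 - s * (tf u hu).2 - t * ve)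
      (by linear_combination (-1 : κ) * hs - s * nu - t * nv)
      (by linear_combination (-1 : κ) * ht - s * mu - t * mv)
    refine hell ?_
    rw [ell]
    linear_combination s * hc.1 + t * hc.2 + ap * c.c01 * z2 + (ap * c.c02 - al * c.c01) * z3 +
      (ap * c.c03 - al * c.c02) * z4 - al * c.c03 * z5
  refine hKIT κ c _ _ _ _ _ _ _ _ _ _ _ _ _ nd fun p U V _ L hO E x0 x1 x2 => L.k1g ?_
  have lda := hLINA κ _ p c _ _ _ _ _ _ _ _ _ _ _ _ _ u _ _ hO E x0 x1 x2 nd hu hv hw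
    (by
      simp only [Hk.lin_eq, u0]
      exact ⟨by linear_combination nu, by linear_combination mu, by ring⟩)
    (by
      simp only [Hk.lin_eq]
      exact ⟨by linear_combination nv, by linear_combination mv, by ring⟩)
    (by simp [Hk.lin_eq])
  have G := hO.geA (w := w1) (n := 1) (by decide)
  have g1 : Ge w1 2 (p.K1 c) := G.K1 c (by decide)
  have g2 : Ge w1 2 (p.K2 c) := G.K2 c (by decide)
  have g3 : Ge w1 2 (p.K3 c) := G.K3 c (by decide)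
  obtain ⟨k1, k2, k3, hq⟩ := hSQ1 κ _ p f0 f1 f2 f3 ap e1 e2 e3 m2 m3 m4 m5 N2 hO
    (((g2.smul al).sub (g1.smul ap)).congr (by
      rw [eq_neg_of_add_eq_zero_right E.e1, eq_neg_of_add_eq_zero_right E.e2, hf0, hf1, hf2, hf3]
      simp only [Algebra.smul_def, map_add, map_sub, map_mul, map_neg, map_zero]
      ring))
    (g3.neg.congr (by
      rw [eq_neg_of_add_eq_zero_right E.e3]
      simp only [Algebra.smul_def, map_zero]
      ring))
    (by simpa [Hk.lin] using x1)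
  exact hPK1G κ U p c _ _ _ _ _ _ _ _ u _ k1 k2 k3 1 0 0 0 hO E lda u0 rfl hq
    (Ge.zero.congr (by simp)) (by simpa [Hk.dx] using ud) he

end Pool.Agent.P.MP_6149fc_ag.V22

end

section

/-! Step GK1V. -/

set_option autoImplicit false
set_option linter.unusedSectionVars false

namespace Pool.Agent.P.MP_6149fc_ag.V22

open Pool.Agent.P.MP_6149fc_ag.V18
open MvPowerSeries (coeff X constantCoeff monomial)
open Matrix

theorem p_GK1V (hKIT : S_KIT) (hLINA : S_LINA) (hPK1G : S_PK1G) :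
    S_GK1V := by
  intro κ _ _ _ c b1 b2 b3 e1 e2 hb hk hr ⟨a, ha, hl⟩
  obtain ⟨k2, d2⟩ : ∃ k, k = b2 * e2 - b3 * e1 := ⟨_, rfl⟩
  obtain ⟨k3, d3⟩ : ∃ k, k = b3 * 1 - b1 * e2 := ⟨_, rfl⟩
  obtain ⟨k4, d4⟩ : ∃ k, k = b1 * e1 - b2 * 1 := ⟨_, rfl⟩
  have h3 : k3 ≠ 0 := by rwa [d3, mul_one]
  have hδ : k2 * k4 - k3 ^ 2 ≠ 0 := fun h => hr (by
    rw [d2, d3, d4] at h; rw [res2]; linear_combination -h)
  have par : ∀ a : Hk κ, a.Tan 0 0 b1 b2 b3 0 1 e1 e2 0 → ∃ y, a.a2 = y * k2 ∧ a.a3 = y * k3 ∧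
      a.a4 = y * k4 := fun a ha => by
    obtain ⟨t1, -, t3⟩ := (a.tan_iff ..).1 ha
    exact ⟨_, par3 (b1 := a.a2) (b2 := a.a3) (b3 := a.a4) (m1 := 0) (m2 := k3⁻¹) (m3 := 0)
      (by linear_combination t1) (by linear_combination t3) d2 d3 d4 (by simp [h3])⟩
  have nd : ∀ a : Hk κ, a.Tan 0 0 b1 b2 b3 0 1 e1 e2 0 →
      a.lin (⟨0, 0, 0, 0, 0, 1⟩ : Hk κ) = 0 →
      a.lin ⟨0, 0, 0, k3⁻¹, 0, 0⟩ = 0 → a.lin (⟨1, 0, 0, 0, 0, 0⟩ : Hk κ) = 0 →
      a = ⟨0, 0, 0, 0, 0, 0⟩ := fun a ha h0 h1 h2 => by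
    obtain ⟨y, y2, y3, y4⟩ := par a ha
    obtain ⟨-, t2, -⟩ := (a.tan_iff ..).1 ha
    simp [Hk.lin_eq, y3, h3] at h0 h1 h2
    simp [h0, h1, y2, y3, y4] at t2
    exact Hk.ext6 h2 t2 (by simp [y2, h1]) (by simp [y3, h1]) (by simp [y4, h1]) h0
  refine hKIT κ c 0 0 b1 b2 b3 0 1 e1 e2 0 _ _ _ nd fun p U V _ L hO E x0 x1 x2 => L.k1g ?_
  have hA := hLINA κ (U 1) p c 0 0 b1 b2 b3 0 1 e1 e2 0 _ _ _ ⟨0, -b3, 0, 0, 0, 1⟩
    ⟨0, -(e1 * k2 + (b1 + e2) * k3 + b2 * k4), k2, k3, k4, 0⟩ ⟨1, 0, 0, 0, 0, 0⟩ hO E x0 x1 x2 nd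
    (by simp [Hk.tan_iff]) ((Hk.tan_iff ..).2 ⟨by rw [d2, d3, d4]; ring, by ring,
      by rw [d2, d3, d4]; ring⟩) (by simp [Hk.tan_iff]) (by simp [Hk.lin_eq])
    (by simp [Hk.lin_eq, h3]) (by simp [Hk.lin_eq])
  have l2 : Ld w1 1 p.a2 (k2 • X 1) := hA.l2.congr rfl (by simp)
  have l3 : Ld w1 1 p.a3 (k3 • X 1) := hA.l3.congr rfl (by simp)
  have l4 : Ld w1 1 p.a4 (k4 • X 1) := hA.l4.congr rfl (by simp)
  have l5 : Ld w1 1 p.a5 (X 0) := hA.l5.congr rfl (by simp)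
  have q24 := (l2.mul l4).sub (l3.mul l3)
  refine hPK1G κ U p c 0 b1 b2 b3 1 e1 e2 0 _ _ 0 0 (k2 * k4 - k3 ^ 2)⁻¹ 0 k2 k3 k4 hO E hA rfl rfl
    ((ld_of_smul hδ (q24.smul (k2 * k4 - k3 ^ 2)⁻¹ |>.smul _)).congr ?_ ?_)
    (Ld.ge_succ ((((((l3.mul l5).sub (l4.mul l4)).smul k2).sub
      (((l2.mul l5).sub (l3.mul l4)).smul k3)).add (q24.smul k4)).congr ?_ ?_)) ?_ (Or.inr ?_)
  · simp [Hk.q24, sq]
  · rw [smul_smul, inv_mul_cancel₀ hδ, one_smul, eq_inv_smul_iff₀ hδ]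
    simp only [Algebra.smul_def, map_sub, map_mul, map_pow]; ring
  · simp [Hk.q24, Hk.q25, Hk.q35, sq]
  · simp only [Algebra.smul_def]; ring
  · simp [Hk.dx, Hk.d123, Hk.d023, Hk.d013, Hk.d012, h3, hb]
  · obtain ⟨y, y2, y3, y4⟩ := par a ha
    refine fun h => hl ?_
    simp only [ell, y2, y3, y4] at h ⊢
    linear_combination y * h

end Pool.Agent.P.MP_6149fc_ag.V22

end

section

/-! Step GK1A. -/

set_option autoImplicit false
set_option linter.unusedSectionVars false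

namespace Pool.Agent.P.MP_6149fc_ag.V22

open Pool.Agent.P.MP_6149fc_ag.V18
open MvPowerSeries (coeff X constantCoeff monomial)
open Matrix

theorem p_GK1A (hKIT : S_KIT) (hPK1A : S_PK1A) :
    S_GK1A := by
  intro κ _ _ _ c b1 b2 b3 e1 e2 hb3 hb hres hex
  have hb2 : b2 - b1 * e1 ≠ 0 := fun h0 => hres (by
    simp only [res2]
    linear_combination (b3 - b1 * e2) * hb + (b2 * e2 - b3 * e1) * h0)
  have ht : ∀ a : Hk κ, a.Tan 0 0 b1 b2 b3 0 1 e1 e2 0 → a.a3 = 0 ∧ a.a2 = -e2 * a.a4 ∧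
      a.a1 = -(e1 * a.a2 + (b1 + e2) * a.a3 + b2 * a.a4 + b3 * a.a5) := by
    intro a ha
    rw [Hk.tan_iff] at ha
    obtain ⟨E1, E2, E3⟩ := ha
    have h3 : a.a3 = 0 := by
      refine (mul_eq_zero.1 (?_ : (b2 - b1 * e1) * a.a3 = 0)).resolve_left hb2
      linear_combination E1 - b1 * E3 - a.a4 * hb
    refine ⟨h3, ?_, ?_⟩
    · linear_combination E3 - e1 * h3
    · linear_combination E2
  have hc : c.c03 - e2 * c.c01 ≠ 0 := fun h0 => by
    obtain ⟨a, ha, hl⟩ := hex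
    obtain ⟨h3, h2, -⟩ := ht a ha
    apply hl
    simp only [ell]
    linear_combination a.a4 * h0 + c.c01 * h2 + c.c02 * h3
  refine hKIT κ c 0 0 b1 b2 b3 0 1 e1 e2 0 ⟨0, 0, 0, 0, 0, 1⟩ ⟨0, 0, 0, 0, 1, 0⟩
    ⟨1, 0, 0, 0, 0, 0⟩ (fun a ha h0 h1 h2 => ?_) (fun p U V _ L hO E x0 x1 x2 => ?_)
  · obtain ⟨k3, k2, k1⟩ := ht a ha
    simp only [Hk.lin_eq, zero_mul, one_mul, add_zero, zero_add] at h0 h1 h2
    have k2' : a.a2 = 0 := by rw [k2, h1, mul_zero]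
    have k1' : a.a1 = 0 := by
      rw [k1, k2', k3, h1, h0]
      ring
    exact Hk.ext6 h2 k1' k2' k3 h1 h0
  · obtain ⟨q1, q2⟩ := hPK1A κ U p c b1 b2 b3 e1 e2 hO E (by simpa [Hk.lin] using x0)
      (by simpa [Hk.lin] using x1) (by simpa [Hk.lin] using x2) (sub_eq_zero.1 hb) hb3 hb2 hc
    exact L.k1s ⟨q1, Or.inr q2⟩

end Pool.Agent.P.MP_6149fc_ag.V22

end

section

/-! Step GK1B. -/

set_option autoImplicit false
set_option linter.unusedSectionVars false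

namespace Pool.Agent.P.MP_6149fc_ag.V22

open Pool.Agent.P.MP_6149fc_ag.V18
open MvPowerSeries (coeff X constantCoeff monomial)
open Matrix

theorem p_GK1B (hKIT : S_KIT) (hPK1B : S_PK1B) :
    S_GK1B := by
  rintro κ _ _ _ c b1 b2 b3 e2 e3 hr ⟨a, ha, hl⟩
  obtain ⟨k3, h3⟩ : ∃ k, k = (b2 + e3) * e3 - b3 * e2 := ⟨_, rfl⟩
  obtain ⟨k4, h4⟩ : ∃ k, k = -b3 - (b1 + e2) * e3 := ⟨_, rfl⟩
  obtain ⟨k5, h5⟩ : ∃ k, k = (b1 + e2) * e2 + (b2 + e3) := ⟨_, rfl⟩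
  have hk : k3 * k5 - k4 ^ 2 ≠ 0 := fun e => hr (by
    rw [h3, h4, h5] at e
    rw [res2]
    linear_combination -e)
  obtain ⟨m3, m4, m5, hm⟩ := dual3' (u1 := k3) (u2 := k4) (u3 := k5) (by
    by_contra hc
    simp only [not_or, not_not] at hc
    exact hk (by rw [hc.1, hc.2.1]; ring))
  have par : ∀ a : Hk κ, a.Tan 0 1 b1 b2 b3 0 0 (-1) e2 e3 →
      a.a3 = (m3 * a.a3 + m4 * a.a4 + m5 * a.a5) * k3 ∧
      a.a4 = (m3 * a.a3 + m4 * a.a4 + m5 * a.a5) * k4 ∧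
      a.a5 = (m3 * a.a3 + m4 * a.a4 + m5 * a.a5) * k5 := by
    intro a ha
    obtain ⟨-, E2, E3⟩ := (a.tan_iff ..).1 ha
    exact par3 (x1 := b1 + e2) (x2 := b2 + e3) (x3 := b3) (y1 := -1) (y2 := e2) (y3 := e3)
      (by linear_combination E2) (by linear_combination E3) h3 (by rw [h4]; ring)
      (by rw [h5]; ring) hm
  have hc : c.c01 * k3 + c.c02 * k4 + c.c03 * k5 ≠ 0 := fun e => hl (by
    obtain ⟨p3, p4, p5⟩ := par a ha
    rw [ell]
    linear_combination -c.c01 * p3 - c.c02 * p4 - c.c03 * p5 -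
      (m3 * a.a3 + m4 * a.a4 + m5 * a.a5) * e)
  refine hKIT κ c _ _ _ _ _ _ _ _ _ _ ⟨0, 0, 1, 0, 0, 0⟩ ⟨0, 0, 0, m3, m4, m5⟩ ⟨1, 0, 0, 0, 0, 0⟩
    (fun a ha z0 z1 z2 => ?_) fun p U V _ L hO E x0 x1 x2 =>
      L.k1s (hPK1B κ U p c b1 b2 b3 e2 e3 k3 k4 k5 m3 m4 m5 hO E (by simpa [Hk.lin] using x0)
        (by simpa [Hk.lin] using x1) (by simpa [Hk.lin] using x2) h3 h4 h5 hm hk hc)
  obtain ⟨p3, p4, p5⟩ := par a ha
  obtain ⟨E1, -, -⟩ := (a.tan_iff ..).1 ha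
  simp only [Hk.lin_eq, zero_mul, one_mul, zero_add, add_zero] at z0 z1 z2
  rw [z1, zero_mul] at p3 p4 p5
  exact Hk.ext6 z2 (by rw [z0, p3, p4] at E1; linear_combination E1) z0 p3 p4 p5

end Pool.Agent.P.MP_6149fc_ag.V22

end

section

/-! Step GK2G. -/

set_option autoImplicit false
set_option linter.unusedSectionVars false

namespace Pool.Agent.P.MP_6149fc_ag.V22

open Pool.Agent.P.MP_6149fc_ag.V18
open MvPowerSeries (coeff X constantCoeff monomial)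
open Matrix

theorem p_GK2G (hKIT : S_KIT) (hPK2G : S_PK2G) :
    S_GK2G := by
  intro κ _ _ _ c h0 h1 h2 k0 k1 k2 hr hc hh hk
  have R := rk2 hr rfl rfl rfl rfl
  have hu : kp1 h0 h1 h2 k0 k1 k2 ≠ 0 ∨ kp2 h0 h1 h2 k0 k1 k2 ≠ 0 ∨ kp3 h0 h1 h2 k0 k1 k2 ≠ 0 ∨
      kp4 h0 h1 h2 k0 k1 k2 ≠ 0 := by
    by_contra hn
    simp only [not_or, not_not] at hn
    obtain ⟨a, b, d, e⟩ := hn
    rw [a, b, d, e] at R
    simp at R
  obtain ⟨m1, m2, m3, m4, hm⟩ := dual4 hu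
  refine hKIT κ c 0 h0 h1 h2 0 0 k0 k1 k2 0 ⟨0, 0, 0, 0, 0, 1⟩ ⟨0, m1, m2, m3, m4, 0⟩
    ⟨1, 0, 0, 0, 0, 0⟩ (fun a ha x0 x1 x2 => ?_)
    (fun p U V hU L hO E x0 x1 x2 => L.k2g (hPK2G κ U p c h0 h1 h2 k0 k1 k2 _ _ _ _ m1 m2 m3 m4 hO E
      (by simpa [Hk.lin] using x0) (by simpa [Hk.lin] using x1) (by simpa [Hk.lin] using x2)
      rfl rfl rfl rfl hm R hc hh hk))
  rw [Hk.tan_iff] at ha
  obtain ⟨e1, e2, e3⟩ := ha
  simp only [Hk.lin_eq] at x0 x1 x2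
  have y : m1 * a.a1 + m2 * a.a2 + m3 * a.a3 + m4 * a.a4 = 0 := by linear_combination x1
  obtain ⟨b1, b2, b3, b4⟩ := par4 (h0 := h0) (h1 := h1) (h2 := h2) (k0 := k0) (k1 := k1) (k2 := k2)
    (b1 := a.a1) (b2 := a.a2) (b3 := a.a3) (b4 := a.a4) (by linear_combination e1)
    (by linear_combination e2) (by linear_combination e3) hm
  rw [y, zero_mul] at b1 b2 b3 b4
  exact Hk.ext6 (by show a.a0 = 0; linear_combination x2) b1 b2 b3 b4
    (by show a.a5 = 0; linear_combination x0)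

end Pool.Agent.P.MP_6149fc_ag.V22

end

section

/-! Step GK2H. -/

set_option autoImplicit false
set_option linter.unusedSectionVars false

namespace Pool.Agent.P.MP_6149fc_ag.V22

open Pool.Agent.P.MP_6149fc_ag.V18
open MvPowerSeries (coeff X constantCoeff monomial)
open Matrix

theorem p_GK2H (hKIT : S_KIT) (hPK2H : S_PK2H) :
    S_GK2H := by
  intro κ _ _ _ c h1 h2 k0 k1 k2 hr hc hk2 ⟨a, ha, hl⟩
  have hk0 : k0 ≠ 0 := fun e => hr (by simp [res2, e])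
  have R := rk2 hr rfl rfl rfl rfl
  obtain ⟨m2, m3, m4, hm⟩ := dual3' (u1 := kp2 0 h1 h2 k0 k1 k2) (u2 := kp3 0 h1 h2 k0 k1 k2)
    (u3 := kp4 0 h1 h2 k0 k1 k2) (by
      by_contra h
      simp only [not_or, not_not] at h
      simp [h.1, h.2.1, h.2.2] at R)
  have key : ∀ b : Hk κ, b.Tan 0 0 h1 h2 0 0 k0 k1 k2 0 →
      b.a1 = (m2 * b.a2 + m3 * b.a3 + m4 * b.a4) * kp1 0 h1 h2 k0 k1 k2 ∧
      b.a2 = (m2 * b.a2 + m3 * b.a3 + m4 * b.a4) * kp2 0 h1 h2 k0 k1 k2 ∧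
      b.a3 = (m2 * b.a2 + m3 * b.a3 + m4 * b.a4) * kp3 0 h1 h2 k0 k1 k2 ∧
      b.a4 = (m2 * b.a2 + m3 * b.a3 + m4 * b.a4) * kp4 0 h1 h2 k0 k1 k2 := fun b hb => by
    obtain ⟨e1, e2, e3⟩ := (Hk.tan_iff ..).1 hb
    have := par4 (h0 := 0) (h1 := h1) (h2 := h2) (k0 := k0) (k1 := k1) (k2 := k2) (b1 := b.a1)
      (b2 := b.a2) (b3 := b.a3) (b4 := b.a4) (m1 := 0) (m2 := m2) (m3 := m3) (m4 := m4)
      (by linear_combination e1) (by linear_combination e2) (by linear_combination e3)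
      (by linear_combination hm)
    rwa [zero_mul, zero_add] at this
  refine hKIT κ c 0 0 h1 h2 0 0 k0 k1 k2 0 ⟨0, 0, 0, 0, 0, 1⟩ ⟨0, 0, m2, m3, m4, 0⟩
    ⟨1, 0, 0, 0, 0, 0⟩ (fun b hb x0 x1 x2 => ?_) fun p U V hU L hO E x0 x1 x2 =>
    L.k2h (hPK2H κ U p c h1 h2 k0 k1 k2 _ _ _ _ m2 m3 m4 hO E (by simpa [Hk.lin] using x0)
      (by simpa [Hk.lin] using x1) (by simpa [Hk.lin] using x2) rfl rfl rfl rfl hm R hc hk0 hk2
      fun e => hl ?_)
  · simp only [Hk.lin_eq, zero_mul, one_mul, add_zero, zero_add] at x0 x1 x2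
    obtain ⟨b1, b2, b3, b4⟩ := key b hb
    rw [x1, zero_mul] at b1 b2 b3 b4
    exact Hk.ext6 x2 b1 b2 b3 b4 x0
  · obtain ⟨-, b2, b3, b4⟩ := key a ha
    rw [ell]
    linear_combination k0 * (c.c01 * b2 + c.c02 * b3 + c.c03 * b4) +
      k0 * (m2 * a.a2 + m3 * a.a3 + m4 * a.a4) * e

end Pool.Agent.P.MP_6149fc_ag.V22

end

section

/-! Step GK2J. -/

set_option autoImplicit false
set_option linter.unusedSectionVars false

namespace Pool.Agent.P.MP_6149fc_ag.V22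

open Pool.Agent.P.MP_6149fc_ag.V18
open MvPowerSeries (coeff X constantCoeff monomial)
open Matrix

theorem p_GK2J (hKIT : S_KIT) (hPK2JA : S_PK2JA) (hPK2JB : S_PK2JB) :
    S_GK2J := by
  intro κ _ _ _ c h1 h2 k0 k1 hr hc
  have e : res2 0 h1 h2 k0 k1 0 = -(h2 * k0 * (h1 * k1 - h2 * k0)) := by
    simp only [res2]
    ring
  rw [e, neg_ne_zero, mul_ne_zero_iff, mul_ne_zero_iff] at hr
  obtain ⟨⟨n2, n0⟩, nd⟩ := hr
  refine hKIT κ c 0 0 h1 h2 0 0 k0 k1 0 0 ⟨0, 0, 0, 0, 0, 1⟩ ⟨0, 1, 0, 0, 0, 0⟩ ⟨1, 0, 0, 0, 0, 0⟩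
    (fun a ha z0 z1 z2 => ?_) fun p U V _ L hO E x0 x1 x2 => ?_
  · rw [Hk.tan_iff] at ha
    obtain ⟨e1, e2, e3⟩ := ha
    rw [Hk.lin_eq] at z0 z1 z2
    have a5 : a.a5 = 0 := by linear_combination z0
    have a1 : a.a1 = 0 := by linear_combination z1
    have a0 : a.a0 = 0 := by linear_combination z2
    have a2 : a.a2 = 0 := (mul_eq_zero.1 (by linear_combination k1 * e1 - h2 * e3 :
      (h1 * k1 - h2 * k0) * a.a2 = 0)).resolve_left nd
    have a3 : a.a3 = 0 := (mul_eq_zero.1 (by linear_combination e1 - h1 * a2 :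
      h2 * a.a3 = 0)).resolve_left n2
    have a4 : a.a4 = 0 := (mul_eq_zero.1
      (by linear_combination e2 - k0 * a1 - k1 * a2 - h1 * a3 : h2 * a.a4 = 0)).resolve_left n2
    exact Hk.ext6 a0 a1 a2 a3 a4 a5
  · have y0 : p.a5 = X 0 := by simpa [Hk.lin] using x0
    have y1 : p.a1 = X 1 := by simpa [Hk.lin] using x1
    have y2 : p.a0 = X 2 := by simpa [Hk.lin] using x2
    by_cases n1 : h1 = 0
    · subst n1
      exact L.k2jb (hPK2JB κ U p c h2 k0 k1 hO E y0 y1 y2 hc n2 n0)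
    · exact L.k2ja (hPK2JA κ U p c h1 h2 k0 k1 hO E y0 y1 y2 hc n2 nd n1)

end Pool.Agent.P.MP_6149fc_ag.V22

end

section

/-! Step GDA. -/

set_option autoImplicit false
set_option linter.unusedSectionVars false

namespace Pool.Agent.P.MP_6149fc_ag.V22

open Pool.Agent.P.MP_6149fc_ag.V18
open MvPowerSeries (coeff X constantCoeff monomial)
open Matrix

theorem p_GDA (hKIT : S_KIT) (hPDA1 : S_PDA1) (hPDA2 : S_PDA2) (hPDA3 : S_PDA3) :
    S_GDA := by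
  intro κ _ _ _ c h1 h2 k1 k2 u2 u3 u4 u5 e2 e3 e4 e5 hk hρ hc0 hAB
  have hu : u3 ≠ 0 ∨ u4 ≠ 0 ∨ u5 ≠ 0 := by
    by_contra hc
    simp only [not_or, not_not] at hc
    obtain ⟨a, b, d⟩ := hc
    apply mul_ne_zero hk hρ
    rw [e3] at a
    rw [e4] at b
    rw [e5] at d
    simp only [kp2, kp3, kp4] at a b d
    linear_combination (h2 - h1 * k1) * a - h1 * k2 * b
  obtain ⟨m3, m4, m5, hm⟩ := dual3' hu
  refine hKIT κ c 0 0 0 h1 h2 0 0 1 k1 k2 ⟨1, 0, 0, 0, 0, 0⟩ ⟨0, 1, 0, 0, 0, 0⟩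
    ⟨0, 0, 0, m3, m4, m5⟩ ?_ ?_
  · intro a ha x0 x1 x2
    rw [Hk.tan_iff] at ha
    obtain ⟨t1, t2, t3⟩ := ha
    simp only [Hk.lin_eq] at x0 x1 x2
    obtain ⟨b1, b2, b3, b4⟩ := par4 (h0 := 0) (h1 := h1) (h2 := h2) (k0 := 1) (k1 := k1) (k2 := k2)
      (b1 := a.a2) (b2 := a.a3) (b3 := a.a4) (b4 := a.a5) (m1 := 0) (m2 := m3) (m3 := m4)
      (m4 := m5) (by linear_combination t1) (by linear_combination t2) (by linear_combination t3)
      (by rw [← e3, ← e4, ← e5]; linear_combination hm)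
    have z : 0 * a.a2 + m3 * a.a3 + m4 * a.a4 + m5 * a.a5 = 0 := by linear_combination x2
    rw [z, zero_mul] at b1 b2 b3 b4
    exact Hk.ext6 (by linear_combination x0) (by linear_combination x1) b1 b2 b3 b4
  · intro p U V hU L hO E x0 x1 x2
    have y0 : p.a0 = X 0 := by simpa [Hk.lin] using x0
    have y1 : p.a1 = X 1 := by simpa [Hk.lin] using x1
    have y2 : m3 • p.a3 + m4 • p.a4 + m5 • p.a5 = X 2 := by simpa [Hk.lin] using x2
    by_cases h01 : c.c01 = 0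
    · refine L.d2 (hPDA2 κ U p c h1 h2 k1 k2 u2 u3 u4 u5 m3 m4 m5 hO E y0 y1 y2 e2 e3 e4 e5 hm hk
        hρ ?_ h01)
      intro h
      apply hc0 h01
      rw [e3, e4] at h
      simp only [kp2, kp3] at h
      linear_combination h
    · by_cases hA : c.c01 * u2 + c.c02 * u3 + c.c03 * u4 = 0
      · exact L.d3 (hPDA3 κ U p c h1 h2 k1 k2 u2 u3 u4 u5 m3 m4 m5 hO E y0 y1 y2 e2 e3 e4 e5 hm hk
          hρ hA h01 (hAB.resolve_left (not_not.mpr hA)))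
      · exact L.d1 (hPDA1 κ U p c h1 h2 k1 k2 u2 u3 u4 u5 m3 m4 m5 hO E y0 y1 y2 e2 e3 e4 e5 hm hk
          hρ hA h01)

end Pool.Agent.P.MP_6149fc_ag.V22

end

section

/-! Step GDA4. -/

set_option autoImplicit false
set_option linter.unusedSectionVars false

namespace Pool.Agent.P.MP_6149fc_ag.V22

open Pool.Agent.P.MP_6149fc_ag.V18
open MvPowerSeries (coeff X constantCoeff monomial)
open Matrix

theorem p_GDA4 (hKIT : S_KIT) (hPDA4 : S_PDA4) (hPDA5 : S_PDA5) :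
    S_GDA4 := by
  intro κ _ _ _ c h1 h2 k1 hh hT hc
  refine hKIT κ c _ _ _ _ _ _ _ _ _ _ ⟨1, 0, 0, 0, 0, 0⟩ ⟨0, 1, 0, 0, 0, 0⟩ ⟨0, 0, 0, 0, 0, 1⟩
    (fun a ha x0 x1 x2 => ?_) fun p U V hU L hO E x0 x1 x2 => ?_
  · obtain ⟨e1, e2, e3⟩ := (Hk.tan_iff a _ _ _ _ _ _ _ _ _ _).1 ha
    rw [Hk.lin_eq] at x0 x1 x2
    dsimp only at x0 x1 x2
    have a5 : a.a5 = 0 := by linear_combination x2
    have a4 : a.a4 = 0 := (mul_eq_zero.1 (by linear_combination h1 * e3 - e1)).resolve_left hT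
    have a3 : a.a3 = 0 := by linear_combination e3 - k1 * a4
    exact Hk.ext6 (show a.a0 = 0 by linear_combination x0) (show a.a1 = 0 by linear_combination x1)
      (show a.a2 = 0 by linear_combination e2 - k1 * a3 - h1 * a4 - h2 * a5) a3 a4 a5
  · have y0 : p.a0 = X 0 := by simpa [Hk.lin] using x0
    have y1 : p.a1 = X 1 := by simpa [Hk.lin] using x1
    have y2 : p.a5 = X 2 := by simpa [Hk.lin] using x2
    by_cases hk : k1 = 0
    · subst hk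
      exact L.d5 (hPDA5 κ U p c h1 h2 hU hO E y0 y1 y2 hh hc)
    · exact L.d4 (hPDA4 κ U p c h1 h2 k1 hO E y0 y1 y2 hh hT hc hk)

end Pool.Agent.P.MP_6149fc_ag.V22

end

section

/-! Step GDB. -/

set_option autoImplicit false
set_option linter.unusedSectionVars false

namespace Pool.Agent.P.MP_6149fc_ag.V22

open Pool.Agent.P.MP_6149fc_ag.V18
open MvPowerSeries (coeff X constantCoeff monomial)
open Matrix

theorem p_GDB (hKIT : S_KIT) (hPDB1 : S_PDB1) (hPDB2 : S_PDB2) :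
    S_GDB := by
  intro κ _ _ _ c h1 h2 k1 k2 hA hB
  by_cases hk : 1 + k1 = 0
  · obtain rfl : k1 = -1 := eq_neg_of_add_eq_zero_right hk
    have hB' : c.c01 * ((h1 + k2) * k2 + h2) ≠ 0 := fun e => hB (by linear_combination e)
    refine hKIT κ c _ _ _ _ _ _ _ _ _ _ ⟨1, 0, 0, 0, 0, 0⟩ ⟨0, 1, 0, 0, 0, 0⟩ ⟨0, 0, 0, 1, 0, 0⟩ ?_
      fun p U V _ L hO E x0 x1 x2 => L.db2 (hPDB2 κ U p c h1 h2 k2 hO E (by simpa [Hk.lin] using x0)
        (by simpa [Hk.lin] using x1) (by simpa [Hk.lin] using x2) (right_ne_zero_of_mul hB')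
        (left_ne_zero_of_mul hB'))
    intro a ha z0 z1 z3
    obtain ⟨e1, e2, e3⟩ := (Hk.tan_iff ..).1 ha
    simp only [Hk.lin_eq, zero_mul, one_mul, add_zero, zero_add] at z0 z1 z3
    have z5 : a.a5 = 0 := (mul_eq_zero_iff_left (right_ne_zero_of_mul hB')).1
      (by linear_combination e2 + (h1 + k2) * e3)
    have z4 : a.a4 = 0 := by linear_combination k2 * z5 - e3
    exact Hk.ext6 z0 z1 (by linear_combination e1 - h1 * z3 - h2 * z4) z3 z4 z5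
  · obtain ⟨m3, m4, m5, hm⟩ := dual3' (u1 := (h1 + k2) * k2 - h2 * k1) (u2 := -(1 + k1) * k2)
      (u3 := (1 + k1) * k1) (by
        by_contra e
        simp only [not_or, not_not] at e
        exact hB (by rw [e.1, e.2.1, e.2.2]; ring))
    refine hKIT κ c _ _ _ _ _ _ _ _ _ _ ⟨1, 0, 0, 0, 0, 0⟩ ⟨0, 1, 0, 0, 0, 0⟩ ⟨0, 0, 0, m3, m4, m5⟩
      ?_ fun p U V hU L hO E x0 x1 x2 => L.db1 (hPDB1 κ U p c h1 h2 k1 k2 _ _ _ m3 m4 m5 hU hO E
        (by simpa [Hk.lin] using x0) (by simpa [Hk.lin] using x1) (by simpa [Hk.lin] using x2)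
        rfl rfl rfl hm hk hA hB)
    intro a ha z0 z1 z
    obtain ⟨e1, e2, e3⟩ := (Hk.tan_iff ..).1 ha
    simp only [Hk.lin_eq, zero_mul, one_mul, add_zero, zero_add] at z0 z1 z
    obtain ⟨z3, z4, z5⟩ := par3 (x1 := 1 + k1) (x2 := h1 + k2) (x3 := h2) (y1 := 0) (y2 := k1)
      (y3 := k2) (b1 := a.a3) (b2 := a.a4) (b3 := a.a5) (by linear_combination e2)
      (by linear_combination e3) rfl (by ring) (by ring) hm
    rw [z, zero_mul] at z3 z4 z5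
    exact Hk.ext6 z0 z1 (by linear_combination e1 - h1 * z3 - h2 * z4) z3 z4 z5

end Pool.Agent.P.MP_6149fc_ag.V22

end

section

/-! Step N1A. -/

set_option autoImplicit false
set_option linter.unusedSectionVars false

namespace Pool.Agent.P.MP_6149fc_ag.V22

open Pool.Agent.P.MP_6149fc_ag.V18
open MvPowerSeries (coeff X constantCoeff monomial)
open Matrix

theorem p_N1A (hSM0V : S_SM0V) (hSMLV : S_SMLV) (hLNZ : S_LNZ) (hRES2 : S_RES2) (hGK1U : S_GK1U) (hGK1V : S_GK1V) (hGK1A : S_GK1A) :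
    S_N1A := by
  intro κ _ _ _ c b1 b2 b3 e1 e2 e3 hn hs
  have s0 := hSM0V _ _ hs
  have lz := hLNZ κ c 0 b1 b2 b3 1 e1 e2 e3 (hSMLV _ _ hs) (.inr one_ne_zero)
  have key : ∀ t : κ, b1 + b2 * t + b3 * t ^ 2 ≠ 0 ∨
      1 + e1 * t + e2 * t ^ 2 + e3 * t ^ 3 ≠ 0 := fun t =>
    (hn.2 t).imp_left fun h h' => h (by linear_combination t * h')
  show GV c 0 0 b1 b2 b3 0 1 e1 e2 e3
  by_cases h3 : e3 = 0
  · subst h3
    have hb : b3 ≠ 0 := hn.1.resolve_right fun h => h rfl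
    have hr := hRES2 κ b1 b2 b3 1 e1 e2 ⟨.inl hb, fun t =>
      (key t).imp_right fun h h' => h (by linear_combination h')⟩
    by_cases h : b3 - b1 * e2 = 0
    · exact hGK1A κ c b1 b2 b3 e1 e2 hb h hr lz
    · exact hGK1V κ c b1 b2 b3 e1 e2 hb h hr lz
  · exact hGK1U κ c 0 b1 b2 b3 1 e1 e2 e3 b1 b2 b3 0 (.inr one_ne_zero) (by ring) (by ring)
      (by ring) (by ring) hn ⟨.inr h3, fun t =>
        (key t).imp_left fun h h' => h (by linear_combination h')⟩ s0 lz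

end Pool.Agent.P.MP_6149fc_ag.V22

end

section

/-! Step N1B. -/

set_option autoImplicit false
set_option linter.unusedSectionVars false

namespace Pool.Agent.P.MP_6149fc_ag.V22

open Pool.Agent.P.MP_6149fc_ag.V18
open MvPowerSeries (coeff X constantCoeff monomial)
open Matrix

theorem p_N1B (hSM0V : S_SM0V) (hSMLV : S_SMLV) (hLNZ : S_LNZ) (hRES2 : S_RES2) (hGK1U : S_GK1U) (hGK1B : S_GK1B) :
    S_N1B := by
  intro κ _ _ _ c b1 b2 b3 e1 e2 e3 hn hs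
  have lz := hLNZ κ c 1 b1 b2 b3 0 e1 e2 e3 (hSMLV κ _ hs) (.inl one_ne_zero)
  show GV c 0 1 b1 b2 b3 0 0 e1 e2 e3
  by_cases h : e1 = -1
  · subst h
    refine hGK1B κ c b1 b2 b3 e2 e3 (hRES2 κ _ _ _ _ _ _ ⟨hn.1, fun t => ?_⟩) lz
    by_contra hc
    simp only [not_or, not_not] at hc
    rcases hn.2 t with a | a
    · exact a (by linear_combination t * hc.1 - hc.2)
    · exact a (by linear_combination t * hc.2)
  · refine hGK1U κ c 1 b1 b2 b3 0 e1 e2 e3 _ _ _ _ (.inl one_ne_zero) rfl rfl rfl rfl hn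
      ⟨hn.1.imp_left fun a => by simpa using a, fun t => ?_⟩ (hSM0V κ _ hs) lz
    by_contra hc
    simp only [not_or, not_not] at hc
    have h1 := (hn.2 t).resolve_right (not_not.2 hc.2)
    have h2 : t = 0 := (mul_eq_zero.1 (by linear_combination -t * hc.1 - hc.2)).resolve_right h1
    subst h2
    exact h (by linear_combination -hc.1)

end Pool.Agent.P.MP_6149fc_ag.V22

end

section

/-! Step N11. -/

set_option autoImplicit false
set_option linter.unusedSectionVars false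

namespace Pool.Agent.P.MP_6149fc_ag.V22

open Pool.Agent.P.MP_6149fc_ag.V18
open MvPowerSeries (coeff X constantCoeff monomial)
open Matrix

theorem p_N11 (hSMLV : S_SMLV) (hLNZ : S_LNZ) (hC03 : S_C03) (hGK2G : S_GK2G) (hGK2H : S_GK2H) (hGK2J : S_GK2J) :
    S_N11 := by
  intro κ _ _ _ c h0 h1 h2 k0 k1 k2 hr hor hs
  have c3 := hC03 κ c h0 h1 h2 k0 k1 k2 hs
  have SL := hSMLV κ _ hs
  show GV c 0 h0 h1 h2 0 0 k0 k1 k2 0
  by_cases e0 : h0 = 0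
  · subst e0
    by_cases e2 : k2 = 0
    · subst e2
      exact hGK2J κ c h1 h2 k0 k1 hr c3
    · have hk : k0 ≠ 0 := by
        rintro rfl
        exact hr (by simp only [res2]; ring)
      exact hGK2H κ c h1 h2 k0 k1 k2 hr c3 e2 (hLNZ κ c 0 h1 h2 0 k0 k1 k2 0 SL (Or.inr hk))
  · exact hGK2G κ c h0 h1 h2 k0 k1 k2 hr c3 e0 (hor.resolve_left e0)

end Pool.Agent.P.MP_6149fc_ag.V22

end

section

/-! Step N2A. -/

set_option autoImplicit false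
set_option linter.unusedSectionVars false

namespace Pool.Agent.P.MP_6149fc_ag.V22

open Pool.Agent.P.MP_6149fc_ag.V18
open MvPowerSeries (coeff X constantCoeff monomial)
open Matrix

theorem p_N2A (hSMLV : S_SMLV) (hDA0 : S_DA0) (hDAB : S_DAB) (hGDA : S_GDA) (hGDA4 : S_GDA4) :
    S_N2A := by
  intro κ _ _ _ c h1 h2 k1 k2 hr hs
  have hSL : (dat c 0 0 0 h1 h2 0 0 1 k1 k2).SL := hSMLV κ _ hs
  have hρ : h2 ^ 2 - k1 * h1 * h2 + k2 * h1 ^ 2 ≠ 0 := fun e => hr (by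
    unfold res2
    linear_combination e)
  have h0 := hDA0 κ c h1 h2 k1 k2 hSL hρ
  show GV c 0 0 0 h1 h2 0 0 1 k1 k2
  by_cases hk : k2 = 0
  · subst hk
    exact hGDA4 κ c h1 h2 k1 (fun e => hρ (by rw [e]; ring))
      (fun e => hρ (by linear_combination (-h2) * e)) fun e => h0 e (zero_mul _)
  · refine hGDA κ c h1 h2 k1 k2 _ _ _ _ rfl rfl rfl rfl hk hρ h0
      (hDAB κ c 0 h1 h2 1 k1 k2 _ _ _ _ hSL rfl rfl rfl rfl ?_)
    by_contra hc
    simp only [not_or, not_not] at hc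
    obtain ⟨a, b, d, e⟩ := hc
    rcases rk2 hr rfl rfl rfl rfl with h | h | h <;> exact h (by simp only [a, b, d, e]; ring)

end Pool.Agent.P.MP_6149fc_ag.V22

end

section

/-! Step N2B. -/

set_option autoImplicit false
set_option linter.unusedSectionVars false

namespace Pool.Agent.P.MP_6149fc_ag.V22

open Pool.Agent.P.MP_6149fc_ag.V18
open MvPowerSeries (coeff X constantCoeff monomial)
open Matrix

theorem p_N2B (hSMLV : S_SMLV) (hDBB : S_DBB) (hGDB : S_GDB) :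
    S_N2B := by
  intro κ _ _ _ c h1 h2 k1 k2 hres hs
  have hr : k2 ^ 2 - h1 * k1 * k2 + h2 * k1 ^ 2 ≠ 0 := by
    intro h
    apply hres
    simp only [res2]
    linear_combination h
  have hk : k1 ≠ 0 ∨ k2 ≠ 0 := by
    by_contra hc
    simp only [not_or, not_not] at hc
    apply hr
    rw [hc.1, hc.2]
    ring
  exact hGDB κ c h1 h2 k1 k2 hr (hDBB κ c h1 h2 k1 k2 (hSMLV κ _ hs) hk)

end Pool.Agent.P.MP_6149fc_ag.V22

end
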