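import Pool.Agent.P.MP_6149fc_ag.V22.IfaceV
import Pool.Agent.P.MP_6149fc_ag.V22.IfaceG
import Pool.Agent.P.MP_6149fc_ag.V18.StepPar

section

/-! Step FMH. -/

set_option autoImplicit false
set_option linter.unusedSectionVars false

namespace Pool.Agent.P.MP_6149fc_ag.V22

open Pool.Agent.P.MP_6149fc_ag.V18
open MvPowerSeries (coeff X constantCoeff monomial)
open Matrix

namespace FMHx

variable {κ C : Type} [Field κ] [CommRing C] [Algebra κ C]

theorem fm_bf (B : Matrix (Fin 3) (Fin 4) κ) (D : Matrix (Fin 4) (Fin 4) κ) (u v : Fin 7 → C) :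
    fm (bf B D) u v =
    B 0 0 • (u 0 * v 3 - u 3 * v 0) + B 0 1 • (u 0 * v 4 - u 4 * v 0) +
    B 0 2 • (u 0 * v 5 - u 5 * v 0) + B 0 3 • (u 0 * v 6 - u 6 * v 0) +
    B 1 0 • (u 1 * v 3 - u 3 * v 1) + B 1 1 • (u 1 * v 4 - u 4 * v 1) +
    B 1 2 • (u 1 * v 5 - u 5 * v 1) + B 1 3 • (u 1 * v 6 - u 6 * v 1) +
    B 2 0 • (u 2 * v 3 - u 3 * v 2) + B 2 1 • (u 2 * v 4 - u 4 * v 2) +
    B 2 2 • (u 2 * v 5 - u 5 * v 2) + B 2 3 • (u 2 * v 6 - u 6 * v 2) +
    D 0 0 • (u 3 * v 3 - u 3 * v 3) + D 0 1 • (u 3 * v 4 - u 4 * v 3) +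
    D 0 2 • (u 3 * v 5 - u 5 * v 3) + D 0 3 • (u 3 * v 6 - u 6 * v 3) +
    D 1 0 • (u 4 * v 3 - u 3 * v 4) + D 1 1 • (u 4 * v 4 - u 4 * v 4) +
    D 1 2 • (u 4 * v 5 - u 5 * v 4) + D 1 3 • (u 4 * v 6 - u 6 * v 4) +
    D 2 0 • (u 5 * v 3 - u 3 * v 5) + D 2 1 • (u 5 * v 4 - u 4 * v 5) +
    D 2 2 • (u 5 * v 5 - u 5 * v 5) + D 2 3 • (u 5 * v 6 - u 6 * v 5) +
    D 3 0 • (u 6 * v 3 - u 3 * v 6) + D 3 1 • (u 6 * v 4 - u 4 * v 6) +
    D 3 2 • (u 6 * v 5 - u 5 * v 6) + D 3 3 • (u 6 * v 6 - u 6 * v 6) := by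
  simp only [fm, Fin.sum_univ_seven]
  simp [bf]
  ring

end FMHx

theorem p_FMH :
    S_FMH := by
  intro κ C _ _ _ d a
  have e0 : net d 0 = bf (pA κ) 0 := rfl
  have e1 : net d 1 = bf (pB κ) 0 := rfl
  have e2 : net d 2 = bf d.E d.D := rfl
  rw [e0, e1, e2]
  simp only [FMHx.fm_bf, dot21, sum21]
  refine ⟨fun i j => ?_, fun i j => ?_, ?_, ?_, ?_⟩
  · fin_cases i <;> fin_cases j <;> simp [pA, hk]
  · fin_cases i <;> fin_cases j <;> simp [pB, hk]
  all_goals
    simp [Dat.E, Dat.D, Dat.eqn, sec, hk, Algebra.smul_def]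
    ring

end Pool.Agent.P.MP_6149fc_ag.V22

end

section

/-! Step CHKV. -/

set_option autoImplicit false
set_option linter.unusedSectionVars false

namespace Pool.Agent.P.MP_6149fc_ag.V22

open Pool.Agent.P.MP_6149fc_ag.V18
open MvPowerSeries (coeff X constantCoeff monomial)
open Matrix

namespace CHKVx

variable {κ C : Type} [Field κ] [CommRing C] [Algebra κ C]

theorem fm0 (d : Dat κ) (x y : Fin 7 → C) : fm (net d 0) x y =
    (x 0 * y 3 - x 3 * y 0) + (x 1 * y 4 - x 4 * y 1) + (x 2 * y 5 - x 5 * y 2) := by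
  simp [fm, net, bnet, bf, pA, Fin.sum_univ_succ]
  ring

theorem fm1 (d : Dat κ) (x y : Fin 7 → C) : fm (net d 1) x y =
    (x 0 * y 4 - x 4 * y 0) + (x 1 * y 5 - x 5 * y 1) + (x 2 * y 6 - x 6 * y 2) := by
  simp [fm, net, bnet, bf, pB, Fin.sum_univ_succ]
  ring

theorem main (d : Dat κ) (M : Fin 3 → Fin 7 → C) (h00 : M 0 0 = 1) (h01 : M 0 1 = 0)
    (h02 : M 0 2 = 0) (h10 : M 1 0 = 0) (h11 : M 1 1 = 1) (h12 : M 1 2 = 0) (h20 : M 2 0 = 0)
    (h21 : M 2 1 = 0) (h22 : M 2 2 = 1) (h : ∀ s k, ctr (net d s) (mn M) k = 0) :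
    M = hk ![M 0 3, M 0 4, M 0 5, M 0 6, M 1 6, M 2 6] ∧ ∀ s, fm (net d s) (M 0) (M 1) = 0 ∧
      fm (net d s) (M 0) (M 2) = 0 ∧ fm (net d s) (M 1) (M 2) = 0 := by
  have e : ∀ s, fm (net d s) (M 0) (M 1) = 0 ∧ fm (net d s) (M 0) (M 2) = 0 ∧
      fm (net d s) (M 1) (M 2) = 0 := fun s => by
    have a := h s 2
    have b := h s 1
    have c := h s 0
    rw [ctr_mn] at a b c
    rw [h22, h12, h02] at a
    rw [h21, h11, h01] at b
    rw [h20, h10, h00] at c
    exact ⟨by linear_combination a, by linear_combination -b, by linear_combination c⟩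
  refine ⟨?_, e⟩
  obtain ⟨a1, a2, a3⟩ := e 0
  obtain ⟨b1, b2, b3⟩ := e 1
  rw [fm0] at a1 a2 a3
  rw [fm1] at b1 b2 b3
  simp only [h00, h01, h02, h10, h11, h12, h20, h21, h22] at a1 a2 a3 b1 b2 b3
  have e13 : M 1 3 = M 0 4 := by linear_combination a1
  have e23 : M 2 3 = M 0 5 := by linear_combination a2
  have e14 : M 1 4 = M 0 5 := by linear_combination b1
  have e24 : M 2 4 = M 0 6 := by linear_combination b2
  have e15 : M 1 5 = M 0 6 := by linear_combination b2 - a3
  have e25 : M 2 5 = M 1 6 := by linear_combination b3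
  funext r i
  fin_cases r <;> fin_cases i <;>
    first | rfl | assumption

end CHKVx

theorem p_CHKV (hPLU : S_PLU) (hFMH : S_FMH) :
    S_CHKV := by
  intro κ C _ _ _ d p u hE hu a ha
  have hp := hPLU C p 0 1 2 u hE.1 hu
  obtain ⟨M, hM⟩ : ∃ M : Fin 3 → Fin 7 → C,
      M = ![fun l => u * p (l, 1, 2), fun l => u * p (0, l, 2), fun l => u * p (0, 1, l)] :=
    ⟨_, rfl⟩
  rw [← hM] at hp
  have m0 : ∀ l, M 0 l = u * p (l, 1, 2) := fun l => by rw [hM]; rfl
  have m1 : ∀ l, M 1 l = u * p (0, l, 2) := fun l => by rw [hM]; rfl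
  have m2 : ∀ l, M 2 l = u * p (0, 1, l) := fun l => by rw [hM]; rfl
  have z1 : ∀ i k, p (i, k, i) = 0 := fun i k => by
    linear_combination hE.1.s2 i k i - hE.1.z i k
  have z2 : ∀ i k, p (k, i, i) = 0 := fun i k => by
    linear_combination hE.1.s1 k i i - z1 i k
  have hm : mn M = fun t => u * p t := funext fun t => by
    rw [hp t, ← mul_assoc, hu, one_mul]
  obtain ⟨e1, e2⟩ := CHKVx.main d M (by rw [m0, hu]) (by rw [m0, hE.1.z, mul_zero])
    (by rw [m0, z1, mul_zero]) (by rw [m1, hE.1.z, mul_zero]) (by rw [m1, hu])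
    (by rw [m1, z2, mul_zero]) (by rw [m2, z1, mul_zero]) (by rw [m2, z2, mul_zero])
    (by rw [m2, hu]) fun s k => by rw [hm, ctr_mul, hE.2, mul_zero]
  have e3 : M = hk a := by rw [e1, ha, m0, m0, m0, m0, m1, m2]
  obtain ⟨-, -, f0, f1, f2⟩ := hFMH κ C d a
  obtain ⟨g0, g1, g2⟩ := e2 2
  rw [e3] at hp g0 g1 g2
  refine ⟨hp, fun s => ?_⟩
  fin_cases s
  exacts [f0.symm.trans g0, f1.symm.trans g1, f2.symm.trans g2]

end Pool.Agent.P.MP_6149fc_ag.V22

end

section

/-! Step LINS. -/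

set_option autoImplicit false
set_option linter.unusedSectionVars false

namespace Pool.Agent.P.MP_6149fc_ag.V22

open Pool.Agent.P.MP_6149fc_ag.V18
open MvPowerSeries (coeff X constantCoeff monomial)
open Matrix

namespace LINSx

variable {κ : Type} [Field κ]

theorem c0 (j : Fin 21) : MvPolynomial.constantCoeff
    (sec (MvPolynomial.X : Fin 6 → MvPolynomial (Fin 6) κ) j) = if j = 0 then 1 else 0 := by
  fin_cases j <;> simp [sec, d3]

theorem c1 (i : Fin 6) (j : Fin 21) : MvPolynomial.constantCoeff (MvPolynomial.pderiv i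
    (sec (MvPolynomial.X : Fin 6 → MvPolynomial (Fin 6) κ) j)) =
      if (j : ℕ) = i + 1 then 1 else 0 := by
  have e : ∀ k, MvPolynomial.constantCoeff (MvPolynomial.pderiv i
      (MvPolynomial.X k : MvPolynomial (Fin 6) κ)) = if (k : ℕ) = i then 1 else 0 := fun k => by
    rw [MvPolynomial.pderiv_X, Pi.single_apply]
    simp [Fin.ext_iff, apply_ite]
  have := i.2
  fin_cases j <;> simp [sec, d3, e, -MvPolynomial.pderiv_X] <;>
    first | omega | exact if_congr (by omega) rfl rfl

end LINSx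

open LINSx in
theorem p_LINS :
    S_LINS := by
  intro κ _ l
  refine ⟨?_, fun i => ?_, fun C _ _ a => ?_⟩
  · simp [dot21, c0]
  · simp only [dot21, map_sum, Derivation.map_smul, MvPolynomial.constantCoeff_smul, c1]
    rw [sum21]
    fin_cases i <;> simp [lin6]
  · simp only [dot21, map_sum, map_smul]
    refine Finset.sum_congr rfl fun j _ => congrArg _ ?_
    simpa using map_sec (MvPolynomial.aeval a : MvPolynomial (Fin 6) κ →ₐ[κ] C).toRingHom
      MvPolynomial.X j

end Pool.Agent.P.MP_6149fc_ag.V22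

end

section

/-! Step SPAN. -/

set_option autoImplicit false
set_option linter.unusedSectionVars false

namespace Pool.Agent.P.MP_6149fc_ag.V22

open Pool.Agent.P.MP_6149fc_ag.V18
open MvPowerSeries (coeff X constantCoeff monomial)
open Matrix

namespace SPANx

/-- Each sorted minor as a combination of two sections. -/
def tb : List (I3 × ℤ × Fin 21 × ℤ × Fin 21) :=
  [((0, 1, 2), 1, 0, 0, 0), ((0, 1, 3), 1, 3, 0, 0), ((0, 1, 4), 1, 4, 0, 0),
    ((0, 1, 5), 1, 5, 0, 0), ((0, 1, 6), 1, 6, 0, 0), ((0, 2, 3), -1, 2, 0, 0),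
    ((0, 2, 4), -1, 3, 0, 0), ((0, 2, 5), -1, 4, 0, 0), ((0, 2, 6), -1, 5, 0, 0),
    ((0, 3, 4), 1, 11, 0, 0), ((0, 3, 5), 1, 12, 0, 0), ((0, 3, 6), 1, 13, 0, 0),
    ((0, 4, 5), 1, 14, 0, 0), ((0, 4, 6), 1, 15, 0, 0), ((0, 5, 6), 1, 16, 0, 0),
    ((1, 2, 3), 1, 1, 0, 0), ((1, 2, 4), 1, 2, 0, 0), ((1, 2, 5), 1, 3, 0, 0),
    ((1, 2, 6), 1, 4, 0, 0), ((1, 3, 4), -1, 8, 0, 0), ((1, 3, 5), -1, 9, -1, 11),
    ((1, 3, 6), -1, 10, -1, 12), ((1, 4, 5), -1, 12, 0, 0), ((1, 4, 6), -1, 13, -1, 14),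
    ((1, 5, 6), -1, 15, 0, 0), ((2, 3, 4), 1, 7, 0, 0), ((2, 3, 5), 1, 8, 0, 0),
    ((2, 3, 6), 1, 9, 0, 0), ((2, 4, 5), 1, 11, 0, 0), ((2, 4, 6), 1, 12, 0, 0),
    ((2, 5, 6), 1, 14, 0, 0), ((3, 4, 5), 1, 17, 0, 0), ((3, 4, 6), 1, 18, 0, 0),
    ((3, 5, 6), 1, 19, 0, 0), ((4, 5, 6), 1, 20, 0, 0)]

/-- A minor for each section. -/
def ix : Fin 21 → I3 :=
  ![(0, 1, 2), (1, 2, 3), (1, 2, 4), (0, 1, 3), (0, 1, 4), (0, 1, 5), (0, 1, 6), (2, 3, 4),
    (2, 3, 5), (2, 3, 6), (3, 1, 6), (0, 3, 4), (0, 3, 5), (0, 3, 6), (0, 4, 5), (0, 4, 6),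
    (0, 5, 6), (3, 4, 5), (3, 4, 6), (3, 5, 6), (4, 5, 6)]

theorem tb_all : ∀ i j k : Fin 7, i < j → j < k → ∃ e ∈ tb, e.1 = (i, j, k) := by decide

variable {C : Type} [CommRing C] (a : Fin 6 → C)

theorem tb_eq : ∀ e ∈ tb, mn (hk a) e.1 = e.2.1 • sec a e.2.2.1 + e.2.2.2.1 • sec a e.2.2.2.2 := by
  simp only [tb, List.forall_mem_cons, List.not_mem_nil, false_imp_iff, implies_true, and_true]
  refine ⟨?_, ?_, ?_, ?_, ?_, ?_, ?_, ?_, ?_, ?_, ?_, ?_, ?_, ?_, ?_, ?_, ?_, ?_, ?_, ?_, ?_, ?_,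
    ?_, ?_, ?_, ?_, ?_, ?_, ?_, ?_, ?_, ?_, ?_, ?_, ?_⟩ <;>
  simp only [mn, hk, sec, d3, cons_val, one_smul, neg_smul, zero_smul] <;> ring

theorem ix_eq (p : Fin 21) :
    sec a p = mn (hk a) (ix p) + mn (hk a) (if p = 10 then (3, 0, 5) else (0, 0, 0)) := by
  fin_cases p <;> simp [mn, hk, sec, d3, ix] <;> ring

end SPANx

theorem p_SPAN :
    S_SPAN := by
  intro κ C _ _ _ a
  have key : Submodule.span κ (Set.range (mn (hk a))) = Submodule.span κ (Set.range (sec a)) := by
    refine le_antisymm (Submodule.span_le.2 ?_) (Submodule.span_le.2 ?_)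
    · obtain ⟨W, hW⟩ : ∃ W, W = Submodule.span κ (Set.range (sec a)) := ⟨_, rfl⟩
      have h0 : ∀ p, sec a p ∈ W := fun p => hW ▸ Submodule.subset_span ⟨p, rfl⟩
      have h := pl_mn (hk a)
      have s1 : ∀ i j k, mn (hk a) (j, i, k) ∈ W → mn (hk a) (i, j, k) ∈ W := fun i j k e =>
        eq_neg_of_add_eq_zero_left (h.s1 i j k) ▸ neg_mem e
      have s2 : ∀ i j k, mn (hk a) (i, k, j) ∈ W → mn (hk a) (i, j, k) ∈ W := fun i j k e =>
        eq_neg_of_add_eq_zero_left (h.s2 i j k) ▸ neg_mem e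
      have z : ∀ i k, mn (hk a) (i, i, k) ∈ W := fun i k => h.z i k ▸ zero_mem W
      have h1 : ∀ i j k, i < j → j < k → mn (hk a) (i, j, k) ∈ W := fun i j k c d => by
        obtain ⟨e, he, e'⟩ := SPANx.tb_all i j k c d
        rw [← e', SPANx.tb_eq a e he]
        exact add_mem (zsmul_mem (h0 _) _) (zsmul_mem (h0 _) _)
      have h2 : ∀ i j k, i < j → mn (hk a) (i, j, k) ∈ W := fun i j k c => by
        rcases lt_trichotomy j k with d | rfl | d
        · exact h1 i j k c d
        · exact s1 _ _ _ (s2 _ _ _ (z _ _))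
        rcases lt_trichotomy i k with e | rfl | e
        · exact s2 _ _ _ (h1 i k j e d)
        · exact s2 _ _ _ (z _ _)
        · exact s2 _ _ _ (s1 _ _ _ (h1 k i j e c))
      rintro _ ⟨⟨i, j, k⟩, rfl⟩
      rw [← hW]
      rcases lt_trichotomy i j with d | rfl | d
      · exact h2 i j k d
      · exact z _ _
      · exact s1 _ _ _ (h2 j i k d)
    · rintro _ ⟨p, rfl⟩
      rw [SPANx.ix_eq]
      exact add_mem (Submodule.subset_span ⟨_, rfl⟩) (Submodule.subset_span ⟨_, rfl⟩)
  funext M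
  rw [UU, UU, key]

end Pool.Agent.P.MP_6149fc_ag.V22

end

section

/-! Step VOLD. -/

set_option autoImplicit false
set_option linter.unusedSectionVars false

namespace Pool.Agent.P.MP_6149fc_ag.V22

open Pool.Agent.P.MP_6149fc_ag.V18
open MvPowerSeries (coeff X constantCoeff monomial)
open Matrix

namespace VOLDx

open MvPolynomial (aeval pderiv rename)

theorem gen {κ R σ : Type} [Field κ] [CommRing R] [Algebra κ R] [Fintype σ] [DecidableEq σ] {r : ℕ}
    (G G' : Fin r → MvPolynomial σ κ) (ζ : σ → R) (W : Fin r → σ → R)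
    (h0 : ∀ s, aeval ζ (G s) = 0)
    (hd : ∀ s l, ∑ i, aeval ζ (pderiv i (G s)) * W l i = if s = l then 1 else 0) :
    ∃ η : σ → PowerSeries R, (∀ i, PowerSeries.constantCoeff (η i) = ζ i) ∧
      ∀ s, aeval η (G s) + PowerSeries.X * aeval η (G' s) = 0 := by
  have hJ : ∀ f : PowerSeries R, f ∈ Ideal.span {(PowerSeries.X : PowerSeries R)} ↔
      PowerSeries.constantCoeff f = 0 := fun f => by
    rw [Ideal.mem_span_singleton, PowerSeries.X_dvd_iff]
  have hc : ∀ H : MvPolynomial σ κ,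
      PowerSeries.constantCoeff (aeval (fun i => PowerSeries.C (ζ i)) H) = aeval ζ H := fun H => by
    induction H using MvPolynomial.induction_on with
    | C c => simp [PowerSeries.algebraMap_apply]
    | add p q hp hq => simp only [map_add, hp, hq]
    | mul_X p j hp => simp [hp]
  obtain ⟨y, hy, hs⟩ := IFTEx.hens
    (fun s => rename some (G s) + MvPolynomial.X none * rename some (G' s))
    (Ideal.span {(PowerSeries.X : PowerSeries R)}) 1
    (fun o => o.elim PowerSeries.X fun i => PowerSeries.C (ζ i))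
    (fun l o => o.elim 0 fun i => PowerSeries.C (W l i)) 0 le_rfl
    (fun s => by
      simp [hJ, MvPolynomial.aeval_rename, Function.comp_def, hc, h0])
    (fun s l => by
      rw [hJ, map_sub, map_sum, Fintype.sum_option, sub_eq_zero, apply_ite PowerSeries.constantCoeff,
        map_one, map_zero, ← hd]
      simp [MvPolynomial.pderiv_rename (Option.some_injective σ), MvPolynomial.aeval_rename,
        Function.comp_def, hc])
  refine ⟨fun i => PowerSeries.C (ζ i) + ∑ l, y l * PowerSeries.C (W l i), fun i => ?_,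
    fun s => ?_⟩
  · simp only [pow_one, hJ] at hy
    simp [hy]
  · have := hs s
    rw [map_add, map_mul, MvPolynomial.aeval_rename, MvPolynomial.aeval_rename,
      MvPolynomial.aeval_X] at this
    refine Eq.trans ?_ this
    congr 2
    simp [IFTEx.pt]

theorem cc {κ σ : Type} [Field κ] {ζ : σ → PS κ} (h : ∀ i, constantCoeff (ζ i) = 0)
    (G : MvPolynomial σ κ) : constantCoeff (aeval ζ G) = MvPolynomial.constantCoeff G := by
  induction G using MvPolynomial.induction_on with
  | C c => simp [MvPowerSeries.algebraMap_apply]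
  | add p q hp hq => simp only [map_add, hp, hq]
  | mul_X p j hp => simp [h]

theorem gen2 {κ σ : Type} [Field κ] [Fintype σ] [DecidableEq σ] {r : ℕ}
    (G G' : Fin r → MvPolynomial σ κ) (ζ : σ → PS κ) (δ : Fin r → σ → κ)
    (h0 : ∀ i, constantCoeff (ζ i) = 0) (hz : ∀ s, aeval ζ (G s) = 0)
    (hδ : ∀ s l, (fun i => MvPolynomial.constantCoeff (pderiv i (G s))) ⬝ᵥ δ l =
      if s = l then 1 else 0) :
    ∃ η : σ → PowerSeries (PS κ), (∀ i, PowerSeries.constantCoeff (η i) = ζ i) ∧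
      ∀ s, aeval η (G s) + PowerSeries.X * aeval η (G' s) = 0 := by
  let N : Matrix (Fin r) (Fin r) (PS κ) := Matrix.of fun s m =>
    ∑ i, δ m i • aeval ζ (pderiv i (G s))
  have hN : (constantCoeff : PS κ →+* κ).mapMatrix N = 1 := by
    ext s m
    rw [Matrix.one_apply, ← hδ]
    simp only [RingHom.mapMatrix_apply, Matrix.map_apply, N, Matrix.of_apply, map_sum,
      MvPowerSeries.smul_eq_C_mul, map_mul, MvPowerSeries.constantCoeff_C, cc h0, dotProduct,
      mul_comm]
  have hu : IsUnit N.det := by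
    rw [MvPowerSeries.isUnit_iff_constantCoeff, RingHom.map_det, hN, det_one]
    exact isUnit_one
  refine gen G G' ζ (fun l i => ∑ m, δ m i • N⁻¹ m l) hz fun s l => ?_
  rw [← Matrix.one_apply, ← Matrix.mul_nonsing_inv N hu, Matrix.mul_apply]
  simp only [N, Matrix.of_apply, Finset.mul_sum, Finset.sum_mul, mul_smul_comm, smul_mul_assoc]
  exact Finset.sum_comm

end VOLDx

theorem p_VOLD (hLINS : S_LINS) :
    S_VOLD := by
  intro κ _ d d' δ ζ h0 hz hδ
  have := VOLDx.gen2 (fun s => dot21 (d.eqn s) (sec MvPolynomial.X))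
    (fun s => dot21 (d'.eqn s) (sec MvPolynomial.X)) ζ δ h0
    (fun s => ((hLINS κ _).2.2 _ ζ).trans (hz s))
    (fun s l => by rw [← hδ, ← lin6_eqn, funext (hLINS κ (d.eqn s)).2.1])
  simpa only [(hLINS κ _).2.2] using this

end Pool.Agent.P.MP_6149fc_ag.V22

end

section

/-! Step RNK0. -/

set_option autoImplicit false
set_option linter.unusedSectionVars false

namespace Pool.Agent.P.MP_6149fc_ag.V22

open Pool.Agent.P.MP_6149fc_ag.V18
open MvPowerSeries (coeff X constantCoeff monomial)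
open Matrix

namespace RNK0x

theorem arith (a r : ℕ) (h : ∀ N, N * a ≤ (N + 1) * r) : a ≤ r := by
  by_contra k
  have := h (r + 1)
  have h2 : r + 1 ≤ a := by omega
  nlinarith [Nat.mul_le_mul_left (r + 1) h2]

/-- Extension by zero. -/
noncomputable def ex (κ T : Type) [Field κ] [AddCommGroup T] [Module κ T] (N k : ℕ) :
    (Fin N → T) →ₗ[κ] T := if h : k < N then LinearMap.proj ⟨k, h⟩ else 0

theorem main (κ S T : Type) [Field κ] [AddCommGroup S] [Module κ S] [FiniteDimensional κ S]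
    [AddCommGroup T] [Module κ T] [FiniteDimensional κ T] (A B : T →ₗ[κ] S)
    (h : ∀ (N : ℕ) (y : ℕ → T), (∀ k, N ≤ k → y k = 0) → A (y 0) = 0 →
      (∀ k, A (y (k + 1)) + B (y k) = 0) → ∀ k, y k = 0) :
    Module.finrank κ T ≤ Module.finrank κ S := by
  refine arith _ _ fun N => ?_
  let G : ℕ → (Fin N → T) →ₗ[κ] S := fun k =>
    Nat.casesOn k (A ∘ₗ ex κ T N 0) fun k => A ∘ₗ ex κ T N (k + 1) + B ∘ₗ ex κ T N k
  have hi : Function.Injective (LinearMap.pi fun k : Fin (N + 1) => G k) := by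
    refine (injective_iff_map_eq_zero _).2 fun x hx => ?_
    have h0 : ∀ k, N ≤ k → ex κ T N k x = 0 := fun k hk => by
      rw [ex, dif_neg (by omega), LinearMap.zero_apply]
    have h1 : ∀ k, k < N + 1 → G k x = 0 := fun k hk => congrFun hx ⟨k, hk⟩
    have h2 := h N (fun k => ex κ T N k x) h0 (h1 0 (by omega)) fun k => by
      by_cases hk : k < N
      · exact h1 (k + 1) (by omega)
      · simp only [h0 k (by omega), h0 (k + 1) (by omega), map_zero, add_zero]
    funext i
    have h3 := h2 i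
    simp only [ex, dif_pos i.2] at h3
    exact h3
  have := LinearMap.finrank_le_finrank_of_injective hi
  simpa [Module.finrank_pi_fintype] using this

end RNK0x

theorem p_RNK0 :
    S_RNK0 := by
  intro κ S _ _ _ _ n m s α β hβ h
  have := RNK0x.main κ S ((Fin n → κ) × (Fin m → κ))
    ((Fintype.linearCombination κ s).coprod (Fintype.linearCombination κ α))
    (Fintype.linearCombination κ β ∘ₗ LinearMap.snd _ _ _) fun N y h0 h1 h2 => ?_
  · simpa using this
  simp only [LinearMap.coprod_apply, LinearMap.comp_apply, Fintype.linearCombination_apply,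
    LinearMap.snd_apply] at h1 h2
  have hp := h N (fun k => (y k).1) (fun k => (y k).2)
    (fun k hk => by rw [h0 k hk]; exact ⟨rfl, rfl⟩) h1 h2
  have hq : ∀ t k, N ≤ k + t → y k = 0 := by
    intro t
    induction t with
    | zero => exact h0
    | succ t ih =>
      intro k hk
      have h3 := h2 k
      rw [ih (k + 1) (by omega)] at h3
      simp only [Prod.fst_zero, Prod.snd_zero, Pi.zero_apply, zero_smul, Finset.sum_const_zero,
        zero_add] at h3
      exact Prod.ext (hp k) (funext (Fintype.linearIndependent_iff.1 hβ _ h3))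
  exact fun k => hq N k (by omega)

end Pool.Agent.P.MP_6149fc_ag.V22

end

section

/-! Step RNK. -/

set_option autoImplicit false
set_option linter.unusedSectionVars false

namespace Pool.Agent.P.MP_6149fc_ag.V22

open Pool.Agent.P.MP_6149fc_ag.V18
open MvPowerSeries (coeff X constantCoeff monomial)
open Matrix

namespace RNKx

theorem lift {κ V W ι : Type} [Field κ] [AddCommGroup V] [Module κ V] [AddCommGroup W]
    [Module κ W] (φ : V →ₗ[κ] W) (v : ι → V)
    [FiniteDimensional κ (Submodule.span κ (Set.range fun i => φ (v i)))] :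
    ∃ t : Fin (Module.finrank κ (Submodule.span κ (Set.range fun i => φ (v i)))) → ι,
      LinearIndependent κ fun j => φ (v (t j)) := by
  obtain ⟨f, hf, -, hli⟩ := Submodule.exists_fun_fin_finrank_span_eq κ (Set.range fun i => φ (v i))
  choose t ht using hf
  refine ⟨t, ?_⟩
  have : (fun j => φ (v (t j))) = f := funext ht
  rw [this]
  exact hli

theorem key {R : Type} [CommRing R] (A b : ℕ → PowerSeries R)
    (h0 : A 0 = PowerSeries.X * b 0)
    (hs : ∀ k, A (k + 1) + b k = PowerSeries.X * b (k + 1)) (K : ℕ) (hK : ∀ k < K, A k = 0) :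
    PowerSeries.constantCoeff (A K) = 0 := by
  have h : ∀ K, ∑ k ∈ Finset.range (K + 1), PowerSeries.X ^ k * A k =
      PowerSeries.X ^ (K + 1) * b K := by
    intro K
    induction K with
    | zero => simp [h0]
    | succ K ih =>
      rw [Finset.sum_range_succ, ih]
      linear_combination PowerSeries.X ^ (K + 1) * hs K
  have h1 := h K
  rw [Finset.sum_range_succ, Finset.sum_eq_zero (fun k hk => by
    rw [hK k (Finset.mem_range.1 hk), mul_zero]), zero_add, pow_succ, mul_assoc] at h1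
  have h2 := PowerSeries.X_pow_mul_cancel h1
  rw [h2]
  simp

end RNKx

theorem p_RNK (hRNK0 : S_RNK0) :
    S_RNK := by
  intro κ R E ι _ _ _ _ _ S _ α β ev ev0 hev hS hab
  let α' : ι → S := fun i => ⟨α i, (hS i).1⟩
  let β' : ι → S := fun i => ⟨β i, (hS i).2⟩
  have e1 : Submodule.span κ (Set.range fun x : S => (ev0 ∘ₗ S.subtype) (id x)) = S.map ev0 := by
    have : (Set.range fun x : S => (ev0 ∘ₗ S.subtype) (id x)) = (S.map ev0 : Set R) := by
      ext y
      simp
    rw [this, Submodule.span_eq]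
  have f1 : FiniteDimensional κ
      (Submodule.span κ (Set.range fun x : S => (ev0 ∘ₗ S.subtype) (id x))) := by
    rw [e1]; infer_instance
  have f2 : FiniteDimensional κ (Submodule.span κ (Set.range fun i => S.subtype (β' i))) :=
    Submodule.finiteDimensional_of_le (S₂ := S)
      (Submodule.span_le.2 (by rintro _ ⟨i, rfl⟩; exact (hS i).2))
  obtain ⟨s, hs⟩ := RNKx.lift (ev0 ∘ₗ S.subtype) (id : S → S)
  obtain ⟨t, ht⟩ := RNKx.lift S.subtype β'
  have hβ : LinearIndependent κ fun j => β' (t j) := LinearIndependent.of_comp S.subtype ht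
  have main := hRNK0 κ S _ _ s (fun j => α' (t j)) (fun j => β' (t j)) hβ ?_
  · rw [e1] at main
    exact main
  intro N p q _ h0 hk
  let φ : S →ₗ[κ] PowerSeries R := ev ∘ₗ S.subtype
  have hα : ∀ k, φ (∑ j, q k j • α' (t j)) = -(PowerSeries.X * φ (∑ j, q k j • β' (t j))) := by
    intro k
    rw [map_sum, map_sum, Finset.mul_sum, ← Finset.sum_neg_distrib]
    refine Finset.sum_congr rfl fun j _ => ?_
    rw [map_smul, map_smul, mul_smul_comm, ← smul_neg]
    exact congrArg _ (eq_neg_of_add_eq_zero_left (hab (t j)))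
  have key := RNKx.key (fun k => φ (∑ i, p k i • s i)) (fun k => φ (∑ j, q k j • β' (t j)))
    (by
      have := congrArg φ h0
      rw [map_add, hα, map_zero] at this
      exact add_neg_eq_zero.1 this)
    (fun k => by
      have := congrArg φ (hk k)
      rw [map_add, map_add, hα, map_zero] at this
      linear_combination this)
  intro k
  induction k using Nat.strong_induction_on with
  | _ K ih =>
    have h1 := key K fun k hk => by simp [ih k hk]
    have h2 : ∑ i, p K i • (ev0 ∘ₗ S.subtype) (id (s i)) = 0 := by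
      rw [← h1]
      change _ = PowerSeries.constantCoeff (ev (S.subtype _))
      rw [← hev]
      simp
    exact funext (Fintype.linearIndependent_iff.1 hs _ h2)

end Pool.Agent.P.MP_6149fc_ag.V22

end

section

/-! Step QUO. -/

set_option autoImplicit false
set_option linter.unusedSectionVars false

namespace Pool.Agent.P.MP_6149fc_ag.V22

open Pool.Agent.P.MP_6149fc_ag.V18
open MvPowerSeries (coeff X constantCoeff monomial)
open Matrix

namespace QUOx

variable (κ : Type) {E σ ι : Type} [Field κ] [CommRing E] [Algebra κ E] (Φ : σ → E) (l : ι → E)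

/-- The graded algebra generated by the `Φ t`. -/
noncomputable def TT : Subalgebra κ (Polynomial E) where
  carrier := {f | ∀ n, f.coeff n ∈ UU κ Φ n}
  mul_mem' := fun {f g} hf hg n => by
    rw [Polynomial.coeff_mul]
    exact Submodule.sum_mem _ fun p hp =>
      Finset.HasAntidiagonal.mem_antidiagonal.1 hp ▸ UU_mul (hf _) (hg _)
  add_mem' := fun {f g} hf hg n => by
    rw [Polynomial.coeff_add]
    exact add_mem (hf n) (hg n)
  algebraMap_mem' := fun c n => by
    rw [Polynomial.algebraMap_apply, Polynomial.coeff_C]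
    split_ifs with h
    · rw [h, Algebra.algebraMap_eq_smul_one]
      exact Submodule.smul_mem _ _ (UU_zero Φ)
    · exact zero_mem _

theorem mono_mem {n : ℕ} {g : E} (hg : g ∈ UU κ Φ n) : Polynomial.monomial n g ∈ TT κ Φ :=
  fun m => by
    rw [Polynomial.coeff_monomial]
    split_ifs with h
    · exact h ▸ hg
    · exact zero_mem _

/-- The graded pieces of the ideal of the linear forms. -/
noncomputable def NN : ℕ → Submodule κ E
  | 0 => ⊥
  | n + 1 => Submodule.span κ (Set.range fun z : ι × UU κ Φ n => l z.1 * (z.2 : E))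

theorem NN_mul {m n : ℕ} {g f : E} (hg : g ∈ UU κ Φ m) (hf : f ∈ NN κ Φ l n) :
    g * f ∈ NN κ Φ l (m + n) := by
  cases n with
  | zero =>
    rw [(Submodule.mem_bot κ).1 hf, mul_zero]
    exact zero_mem _
  | succ n =>
    induction hf using Submodule.span_induction with
    | mem x hx =>
      obtain ⟨z, rfl⟩ := hx
      exact Submodule.subset_span ⟨(z.1, ⟨_, UU_mul hg z.2.2⟩), mul_left_comm _ _ _⟩
    | zero =>
      rw [mul_zero]
      exact zero_mem _
    | add x y _ _ hx hy =>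
      rw [mul_add]
      exact add_mem hx hy
    | smul c x _ hx =>
      rw [mul_smul_comm]
      exact Submodule.smul_mem _ _ hx

/-- The ideal of the linear forms. -/
noncomputable def JJ : Ideal (TT κ Φ) where
  carrier := {f | ∀ n, f.1.coeff n ∈ NN κ Φ l n}
  add_mem' := fun {f g} hf hg n => by
    rw [Subalgebra.coe_add, Polynomial.coeff_add]
    exact add_mem (hf n) (hg n)
  zero_mem' := fun n => by
    rw [Subalgebra.coe_zero, Polynomial.coeff_zero]
    exact zero_mem _
  smul_mem' := fun g f hf n => by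
    rw [smul_eq_mul, Subalgebra.coe_mul, Polynomial.coeff_mul]
    exact Submodule.sum_mem _ fun p hp =>
      Finset.HasAntidiagonal.mem_antidiagonal.1 hp ▸ NN_mul κ Φ l (g.2 _) (hf _)

/-- The generators. -/
noncomputable def yy (t : σ) : TT κ Φ :=
  ⟨Polynomial.monomial 1 (Φ t), mono_mem κ Φ (UU_one (κ := κ) Φ ▸ Submodule.subset_span ⟨t, rfl⟩)⟩

/-- The embedding of a graded piece. -/
noncomputable def em (n : ℕ) : UU κ Φ n →ₗ[κ] TT κ Φ where
  toFun g := ⟨Polynomial.monomial n g, mono_mem κ Φ g.2⟩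
  map_add' _ _ := Subtype.ext (map_add (Polynomial.monomial n) _ _)
  map_smul' c g := Subtype.ext (Polynomial.smul_monomial c n g.1).symm

theorem em_mem {C : Type} [CommRing C] [Algebra κ C] (π : TT κ Φ →ₐ[κ] C) (n : ℕ) :
    ∀ g (hg : g ∈ UU κ Φ n), π (em κ Φ n ⟨g, hg⟩) ∈ UU κ (fun t => π (yy κ Φ t)) n := by
  intro g hg
  induction hg using Submodule.pow_induction_on_left' with
  | algebraMap c =>
    have : ∀ h, em κ Φ 0 ⟨algebraMap κ E c, h⟩ = algebraMap κ _ c := fun _ => Subtype.ext rfl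
    rw [this, AlgHom.commutes, Algebra.algebraMap_eq_smul_one]
    exact Submodule.smul_mem _ _ (UU_zero _)
  | add x y i hx hy ix iy =>
    have := add_mem ix iy
    rwa [← map_add, ← map_add] at this
  | mem_mul m hm i x hx ix =>
    have h1 : ∀ m (hm : m ∈ UU κ Φ 1),
        π (em κ Φ 1 ⟨m, hm⟩) ∈ UU κ (fun t => π (yy κ Φ t)) 1 := fun m hm => by
      have hm' := UU_one (κ := κ) Φ ▸ hm
      induction hm' using Submodule.span_induction with
      | mem x hx =>
        obtain ⟨t, rfl⟩ := hx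
        exact UU_one (κ := κ) (fun t => π (yy κ Φ t)) ▸ Submodule.subset_span ⟨t, rfl⟩
      | zero => exact (map_zero (π.toLinearMap.comp (em κ Φ 1))).symm ▸ zero_mem _
      | add x y hx hy ix iy =>
        have := add_mem (ix (UU_one (κ := κ) Φ ▸ hx)) (iy (UU_one (κ := κ) Φ ▸ hy))
        rwa [← map_add, ← map_add] at this
      | smul c x hx ix =>
        have := Submodule.smul_mem _ c (ix (UU_one (κ := κ) Φ ▸ hx))
        rwa [← map_smul, ← map_smul] at this
    have h2 := UU_mul ix (h1 m (UU_one (κ := κ) Φ ▸ hm))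
    rw [← map_mul] at h2
    refine (congrArg π (Subtype.ext ?_)).symm ▸ h2
    change Polynomial.monomial (i + 1) (m * x) =
      Polynomial.monomial i x * Polynomial.monomial 1 m
    rw [Polynomial.monomial_mul_monomial, mul_comm]

end QUOx

open QUOx in
theorem p_QUO :
    S_QUO := by
  intro κ E σ ι _ _ _ _ Φ l hl
  refine ⟨TT κ Φ, TT κ Φ ⧸ JJ κ Φ l, inferInstance, inferInstance, inferInstance, inferInstance,
    yy κ Φ, (TT κ Φ).val, Ideal.Quotient.mkₐ κ _, Subtype.val_injective,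
    fun t => (Polynomial.C_mul_X_eq_monomial).symm, fun k f hf => ?_, fun M => ?_⟩
  · refine Ideal.Quotient.eq_zero_iff_mem.2 fun n => ?_
    rw [show f.1 = _ from hf, Polynomial.C_mul_X_eq_monomial, Polynomial.coeff_monomial]
    split_ifs with h
    · subst h
      exact Submodule.subset_span ⟨(k, ⟨1, UU_zero Φ⟩), mul_one _⟩
    · exact zero_mem _
  · have := UU_fin (κ := κ) Φ (M + 1)
    have := UU_fin (κ := κ) (fun t => Ideal.Quotient.mkₐ κ (JJ κ Φ l) (yy κ Φ t)) (M + 1)
    have le : NN κ Φ l (M + 1) ≤ UU κ Φ (M + 1) := Submodule.span_le.2 (by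
      rintro _ ⟨z, rfl⟩
      exact add_comm 1 M ▸ UU_mul (hl z.1) z.2.2)
    have := Submodule.finiteDimensional_of_le le
    let lam := (Ideal.Quotient.mkₐ κ (JJ κ Φ l)).toLinearMap.comp (em κ Φ (M + 1))
    rw [← lam.finrank_range_add_finrank_ker]
    refine add_le_add (Submodule.finrank_mono ?_) ?_
    · rintro _ ⟨g, rfl⟩
      exact em_mem κ Φ _ _ g.1 g.2
    · rw [← Submodule.finrank_map_subtype_eq]
      refine Submodule.finrank_mono (t := NN κ Φ l (M + 1)) ?_
      rintro _ ⟨g, hg, rfl⟩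
      have := Ideal.Quotient.eq_zero_iff_mem.1 hg (M + 1)
      change (Polynomial.monomial (M + 1) g.1).coeff (M + 1) ∈ _ at this
      rwa [Polynomial.coeff_monomial_same] at this

end Pool.Agent.P.MP_6149fc_ag.V22

end

section

/-! Step GROBA4. -/

set_option autoImplicit false
set_option linter.unusedSectionVars false

namespace Pool.Agent.P.MP_6149fc_ag.V22

open Pool.Agent.P.MP_6149fc_ag.V18
open MvPowerSeries (coeff X constantCoeff monomial)
open Matrix

namespace GROBA4x

open scoped Pointwise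

theorem lift {ι : Type} (c : List ι) (s : Multiset ι) (h : ∀ i ∈ s, i ∈ c) :
    ∃ t : Multiset (Fin c.length), t.map c.get = s := by
  induction s using Multiset.induction_on with
  | empty => exact ⟨0, rfl⟩
  | cons a s ih =>
    obtain ⟨t, ht⟩ := ih fun i hi => h i (Multiset.mem_cons_of_mem hi)
    obtain ⟨j, hj⟩ := List.get_of_mem (h a (Multiset.mem_cons_self a s))
    exact ⟨j ::ₘ t, by rw [Multiset.map_cons, ht, hj]⟩

theorem pow_mem {ι C : Type} [CommRing C] (Φ : ι → C) (M : ℕ) :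
    ∀ f ∈ Set.range Φ ^ M, ∃ s : Multiset ι, s.card = M ∧ f = (s.map Φ).prod := by
  induction M with
  | zero => exact fun f hf => ⟨0, rfl, by simpa using hf⟩
  | succ M ih =>
    rw [pow_succ]
    rintro _ ⟨g, hg, _, ⟨i, rfl⟩, rfl⟩
    obtain ⟨s, h1, rfl⟩ := ih g hg
    exact ⟨i ::ₘ s, by simp [h1], by simp [mul_comm]⟩

end GROBA4x

open scoped Pointwise in
theorem p_GROBA4 :
    S_GROBA4 := by
  intro κ C _ _ _ n Φ ω bad cl hb hc hT M
  classical
  let F : List (Fin n) → Finset C := fun c => Finset.univ.image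
    fun σ : Sym (Fin c.length) M => ((σ.1.map c.get).map Φ).prod
  let G : Finset C := cl.toFinset.biUnion F
  have key : ∀ (k : ℕ) (s : Multiset (Fin n)), (s.map ω).sum = k → s.card = M →
      (s.map Φ).prod ∈ Submodule.span κ (G : Set C) := by
    intro k
    induction k using Nat.strong_induction_on with
    | _ k ih =>
      intro s h1 h2
      by_cases h : ∃ p ∈ bad, p.1 ∈ s ∧ p.2 ∈ s
      · obtain ⟨p, hp, a1, a2⟩ := h
        obtain ⟨s1, rfl⟩ := Multiset.exists_cons_of_mem a1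
        obtain ⟨s2, rfl⟩ := Multiset.exists_cons_of_mem
          ((Multiset.mem_cons.1 a2).resolve_left (hb p hp).1.symm)
        have e : ((p.1 ::ₘ p.2 ::ₘ s2).map Φ).prod = Φ p.1 * Φ p.2 * (s2.map Φ).prod := by
          simp [mul_assoc]
        rw [e]
        refine Submodule.span_induction (p := fun f _ => f * (s2.map Φ).prod ∈
          Submodule.span κ (G : Set C)) ?_ ?_ ?_ ?_ (hb p hp).2
        · rintro _ ⟨a, b, hl, rfl⟩
          have := ih _ (by simp at h1 ⊢; omega) (a ::ₘ b ::ₘ s2) rfl (by simpa using h2)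
          simpa [mul_assoc] using this
        · simp
        · intro x y _ _ hx hy
          rw [add_mul]
          exact add_mem hx hy
        · intro a x _ hx
          rw [smul_mul_assoc]
          exact Submodule.smul_mem _ _ hx
      · obtain ⟨c, hcl, hs⟩ := hT (fun i => decide (i ∈ s)) fun p hp => by
          by_cases a1 : p.1 ∈ s
          · exact Or.inr (decide_eq_false fun a2 => h ⟨p, hp, a1, a2⟩)
          · exact Or.inl (decide_eq_false a1)
        obtain ⟨t, rfl⟩ := GROBA4x.lift c s fun i hi => hs i (decide_eq_true hi)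
        refine Submodule.subset_span (Finset.mem_coe.2 (Finset.mem_biUnion.2
          ⟨c, List.mem_toFinset.2 hcl, Finset.mem_image.2 ⟨⟨t, ?_⟩, Finset.mem_univ _, rfl⟩⟩))
        simpa using h2
  have le : UU κ Φ M ≤ Submodule.span κ (G : Set C) := by
    rw [UU, Submodule.span_pow, Submodule.span_le]
    intro f hf
    obtain ⟨s, h1, rfl⟩ := GROBA4x.pow_mem Φ M f hf
    exact key _ s rfl h1
  refine (Submodule.finrank_mono le).trans ((finrank_span_finset_le_card G).trans ?_)
  refine (Finset.card_biUnion_le_card_mul _ _ ((M + 3).choose 3) fun c h => ?_).trans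
    (Nat.mul_le_mul_right _ (List.toFinset_card_le cl))
  refine Finset.card_image_le.trans ?_
  rw [Finset.card_univ, Sym.card_sym_eq_choose, Fintype.card_fin, hc c (List.mem_toFinset.1 h),
    show 4 + M - 1 = M + 3 by omega, Nat.choose_symm_add]

end Pool.Agent.P.MP_6149fc_ag.V22

end
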