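import Pool.Agent.P.MP_6149fc_ag.V22.IfaceV

section

/-! Step GROBC4. -/

set_option autoImplicit false
set_option linter.unusedSectionVars false

namespace Pool.Agent.P.MP_6149fc_ag.V22

open Pool.Agent.P.MP_6149fc_ag.V18
open MvPowerSeries (coeff X constantCoeff monomial)
open Matrix

namespace GROBC4x

/-- Search over the sets without a bad pair; `S` holds the chosen indices. -/
def chk (bad : List (Fin 14 × Fin 14)) (cl : List (List (Fin 14))) :
    List (Fin 14) → List (Fin 14) → Bool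
  | [], S => decide (∃ c ∈ cl, ∀ i ∈ S, i ∈ c)
  | i :: r, S => chk bad cl r S &&
      (decide (∃ p ∈ bad, p.1 ∈ i :: S ∧ p.2 ∈ i :: S) || chk bad cl r (i :: S))

theorem sound {bad : List (Fin 14 × Fin 14)} {cl : List (List (Fin 14))} {T : Fin 14 → Bool}
    (h : ∀ p ∈ bad, T p.1 = false ∨ T p.2 = false) (r : List (Fin 14)) :
    ∀ S : List (Fin 14), (∀ i ∈ S, T i = true) → chk bad cl r S = true →
      ∃ c ∈ cl, ∀ i, T i = true → i ∈ S ∨ i ∈ r → i ∈ c := by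
  induction r with
  | nil =>
    intro S _ hc
    obtain ⟨c, h1, h2⟩ := of_decide_eq_true hc
    exact ⟨c, h1, fun i _ hi => h2 i (by simpa using hi)⟩
  | cons j r ih =>
    intro S hS hc
    rw [chk, Bool.and_eq_true, Bool.or_eq_true] at hc
    cases hj : T j
    · obtain ⟨c, h1, h2⟩ := ih S hS hc.1
      refine ⟨c, h1, fun i hi hm => h2 i hi (hm.imp_right fun e => ?_)⟩
      refine (List.mem_cons.1 e).resolve_left fun e => ?_
      rw [e, hj] at hi
      exact Bool.false_ne_true hi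
    · have hS' : ∀ i ∈ j :: S, T i = true := List.forall_mem_cons.2 ⟨hj, hS⟩
      rcases hc.2 with hb | hb
      · obtain ⟨p, h1, h2, h3⟩ := of_decide_eq_true hb
        have := h p h1
        rw [hS' _ h2, hS' _ h3] at this
        simp at this
      · obtain ⟨c, h1, h2⟩ := ih _ hS' hb
        refine ⟨c, h1, fun i hi hm => h2 i hi ?_⟩
        simp only [List.mem_cons] at hm ⊢
        tauto

end GROBC4x

theorem p_GROBC4 :
    S_GROBC4 := by
  intro T h
  obtain ⟨c, h1, h2⟩ := GROBC4x.sound (cl := gCl4) h (List.finRange 14) [] (by simp)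
    (by decide +kernel)
  exact ⟨c, h1, fun i hi => h2 i hi (.inr (List.mem_finRange i))⟩

end Pool.Agent.P.MP_6149fc_ag.V22

end

section

/-! Step GROBQ. -/

set_option autoImplicit false
set_option linter.unusedSectionVars false

namespace Pool.Agent.P.MP_6149fc_ag.V22

open Pool.Agent.P.MP_6149fc_ag.V18
open MvPowerSeries (coeff X constantCoeff monomial)
open Matrix

namespace GROBQx

section
variable {C : Type} [CommRing C]

theorem skew {y : I3 → C} (h : Pl y) : (∀ i k, y (i, i, k) = 0) ∧ (∀ i k, y (i, k, i) = 0) ∧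
    (∀ i k, y (k, i, i) = 0) ∧ (∀ a b c, y (b, a, c) = -y (a, b, c)) ∧
    (∀ a b c, y (a, c, b) = -y (a, b, c)) ∧ (∀ a b c, y (c, b, a) = -y (a, b, c)) ∧
    (∀ a b c, y (b, c, a) = y (a, b, c)) ∧ ∀ a b c, y (c, a, b) = y (a, b, c) :=
  ⟨h.z, fun i k => by linear_combination h.s2 i k i - h.z i k,
    fun i k => by linear_combination h.s1 k i i - h.s2 i k i + h.z i k,
    fun a b c => by linear_combination h.s1 a b c, fun a b c => by linear_combination h.s2 a b c,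
    fun a b c => by linear_combination h.s1 c b a - h.s2 b c a + h.s1 a b c,
    fun a b c => by linear_combination h.s2 b c a - h.s1 a b c,
    fun a b c => by linear_combination h.s1 c a b - h.s2 a b c⟩

/-- The thirty five coordinates in terms of fourteen. -/
structure Co (y : I3 → C) (x0 x1 x2 x3 x4 x5 x6 x7 x8 x9 x10 x11 x12 x13 : C) : Prop where
  e012 : y (0, 1, 2) = x0
  e013 : y (0, 1, 3) = -x7
  e014 : y (0, 1, 4) = x6
  e015 : y (0, 1, 5) = -x8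
  e016 : y (0, 1, 6) = x3
  e023 : y (0, 2, 3) = -x2
  e024 : y (0, 2, 4) = x7
  e025 : y (0, 2, 5) = -x6
  e026 : y (0, 2, 6) = x8
  e034 : y (0, 3, 4) = x7
  e035 : y (0, 3, 5) = x11
  e036 : y (0, 3, 6) = x8
  e045 : y (0, 4, 5) = x12
  e046 : y (0, 4, 6) = 0
  e056 : y (0, 5, 6) = x9
  e123 : y (1, 2, 3) = x1
  e124 : y (1, 2, 4) = x2
  e125 : y (1, 2, 5) = -x7
  e126 : y (1, 2, 6) = x6
  e134 : y (1, 3, 4) = -x5
  e135 : y (1, 3, 5) = -2 * x7
  e136 : y (1, 3, 6) = 2 * x6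
  e145 : y (1, 4, 5) = -x11
  e146 : y (1, 4, 6) = -x8 - x12
  e156 : y (1, 5, 6) = 0
  e234 : y (2, 3, 4) = x4
  e235 : y (2, 3, 5) = x5
  e236 : y (2, 3, 6) = x7
  e245 : y (2, 4, 5) = x7
  e246 : y (2, 4, 6) = x11
  e256 : y (2, 5, 6) = x12
  e345 : y (3, 4, 5) = x10
  e346 : y (3, 4, 6) = x11
  e356 : y (3, 5, 6) = 2 * x12
  e456 : y (4, 5, 6) = x13

theorem co {y : I3 → C} (h : Pl y) (l0 : ∀ k, y (0, 3, k) + y (1, 4, k) + y (2, 5, k) = 0)
    (l1 : ∀ k, y (0, 4, k) + y (1, 5, k) + y (2, 6, k) = 0)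
    (l2 : ∀ k, y (0, 4, k) - y (2, 6, k) + y (3, 6, k) = 0) :
    Co y (y (0, 1, 2)) (y (1, 2, 3)) (y (1, 2, 4)) (y (0, 1, 6)) (y (2, 3, 4)) (y (2, 3, 5)) (y (1, 2, 6)) (y
      (2, 4, 5)) (y (0, 3, 6)) (y (0, 5, 6)) (y (3, 4, 5)) (y (3, 4, 6)) (y (0, 4, 5)) (y (4, 5, 6)) := by
  obtain ⟨z1, z2, z3, w1, w2, w3, c1, c2⟩ := skew h
  have r00 : y (0, 1, 4) + y (0, 2, 5) = 0 := by
    linear_combination l0 0 - (z2 0 3) - (c1 0 1 4) - (c1 0 2 5)
  have r01 : -y (0, 1, 3) + y (1, 2, 5) = 0 := by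
    linear_combination l0 1 - (w2 0 1 3) - (z2 1 4) - (c1 1 2 5)
  have r02 : -y (0, 2, 3) - y (1, 2, 4) = 0 := by
    linear_combination l0 2 - (w2 0 2 3) - (w2 1 2 4) - (z2 2 5)
  have r03 : -y (1, 3, 4) - y (2, 3, 5) = 0 := by
    linear_combination l0 3 - (z3 3 0) - (w2 1 3 4) - (w2 2 3 5)
  have r04 : y (0, 3, 4) - y (2, 4, 5) = 0 := by
    linear_combination l0 4 - (z3 4 1) - (w2 2 4 5)
  have r05 : y (0, 3, 5) + y (1, 4, 5) = 0 := by
    linear_combination l0 5 - (z3 5 2)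
  have r06 : y (0, 3, 6) + y (1, 4, 6) + y (2, 5, 6) = 0 := by
    linear_combination l0 6
  have r10 : y (0, 1, 5) + y (0, 2, 6) = 0 := by
    linear_combination l1 0 - (z2 0 4) - (c1 0 1 5) - (c1 0 2 6)
  have r11 : -y (0, 1, 4) + y (1, 2, 6) = 0 := by
    linear_combination l1 1 - (w2 0 1 4) - (z2 1 5) - (c1 1 2 6)
  have r12 : -y (0, 2, 4) - y (1, 2, 5) = 0 := by
    linear_combination l1 2 - (w2 0 2 4) - (w2 1 2 5) - (z2 2 6)
  have r13 : -y (0, 3, 4) - y (1, 3, 5) - y (2, 3, 6) = 0 := by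
    linear_combination l1 3 - (w2 0 3 4) - (w2 1 3 5) - (w2 2 3 6)
  have r14 : -y (1, 4, 5) - y (2, 4, 6) = 0 := by
    linear_combination l1 4 - (z3 4 0) - (w2 1 4 5) - (w2 2 4 6)
  have r15 : y (0, 4, 5) - y (2, 5, 6) = 0 := by
    linear_combination l1 5 - (z3 5 1) - (w2 2 5 6)
  have r16 : y (0, 4, 6) + y (1, 5, 6) = 0 := by
    linear_combination l1 6 - (z3 6 2)
  have r20 : -y (0, 2, 6) + y (0, 3, 6) = 0 := by
    linear_combination l2 0 - (z2 0 4) + (c1 0 2 6) - (c1 0 3 6)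
  have r21 : -y (0, 1, 4) - y (1, 2, 6) + y (1, 3, 6) = 0 := by
    linear_combination l2 1 - (w2 0 1 4) + (c1 1 2 6) - (c1 1 3 6)
  have r22 : -y (0, 2, 4) + y (2, 3, 6) = 0 := by
    linear_combination l2 2 - (w2 0 2 4) + (z2 2 6) - (c1 2 3 6)
  have r23 : -y (0, 3, 4) + y (2, 3, 6) = 0 := by
    linear_combination l2 3 - (w2 0 3 4) + (w2 2 3 6) - (z2 3 6)
  have r24 : y (2, 4, 6) - y (3, 4, 6) = 0 := by
    linear_combination l2 4 - (z3 4 0) + (w2 2 4 6) - (w2 3 4 6)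
  have r25 : y (0, 4, 5) + y (2, 5, 6) - y (3, 5, 6) = 0 := by
    linear_combination l2 5 + (w2 2 5 6) - (w2 3 5 6)
  have r26 : y (0, 4, 6) = 0 := by
    linear_combination l2 6 + (z3 6 2) - (z3 6 3)
  constructor
  · rfl
  · linear_combination -r01 - r04 - r12 + r22 - r23
  · linear_combination -r11
  · linear_combination r10 + r20
  · rfl
  · linear_combination -r02
  · linear_combination r04 - r22 + r23
  · linear_combination r00 + r11
  · linear_combination -r20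
  · linear_combination r04
  · linear_combination r05 + r14 + r24
  · rfl
  · rfl
  · linear_combination r26
  · rfl
  · rfl
  · rfl
  · linear_combination -r04 - r12 + r22 - r23
  · rfl
  · linear_combination -r03
  · linear_combination -2 * r04 - r13 - r23
  · linear_combination -r11 + r21
  · linear_combination -r14 - r24
  · linear_combination r06 + r15
  · linear_combination r16 - r26
  · rfl
  · rfl
  · linear_combination r04 + r23
  · rfl
  · linear_combination r24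
  · linear_combination -r15
  · rfl
  · rfl
  · linear_combination -r15 - r25
  · rfl

variable {y : I3 → C} {x0 x1 x2 x3 x4 x5 x6 x7 x8 x9 x10 x11 x12 x13 : C}

theorem q0 (h : Pl y) (e : Co y x0 x1 x2 x3 x4 x5 x6 x7 x8 x9 x10 x11 x12 x13) : -(x3 * x7) +
    (x6 * x8) = 0 := by
  obtain ⟨z1, z2, z3, w1, w2, w3, c1, c2⟩ := skew h
  have t := h.q 0 1 0 2 4 6
  rw [z2 0 1, e.e246, e.e012, e.e046, e.e014, e.e026, e.e016, e.e024] at t
  linear_combination t

theorem q1 (h : Pl y) (e : Co y x0 x1 x2 x3 x4 x5 x6 x7 x8 x9 x10 x11 x12 x13) : -(x3 * x12) -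
    (x6 * x9) = 0 := by
  obtain ⟨z1, z2, z3, w1, w2, w3, c1, c2⟩ := skew h
  have t := h.q 0 1 0 4 5 6
  rw [z2 0 1, e.e456, e.e014, e.e056, e.e015, e.e046, e.e016, e.e045] at t
  linear_combination t

theorem q2 (h : Pl y) (e : Co y x0 x1 x2 x3 x4 x5 x6 x7 x8 x9 x10 x11 x12 x13) : -(x7 * x9) -
    (x8 * x12) = 0 := by
  obtain ⟨z1, z2, z3, w1, w2, w3, c1, c2⟩ := skew h
  have t := h.q 0 2 0 4 5 6
  rw [z2 0 2, e.e456, e.e024, e.e056, e.e025, e.e046, e.e026, e.e045] at t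
  linear_combination t

theorem q3 (h : Pl y) (e : Co y x0 x1 x2 x3 x4 x5 x6 x7 x8 x9 x10 x11 x12 x13) : (x7 * x13) -
    (x11 * x12) = 0 := by
  obtain ⟨z1, z2, z3, w1, w2, w3, c1, c2⟩ := skew h
  have t := h.q 0 3 1 4 5 6
  rw [w2 0 1 3, e.e013, e.e456, e.e034, e.e156, e.e035, e.e146, e.e036, e.e145] at t
  linear_combination t

theorem q4 (h : Pl y) (e : Co y x0 x1 x2 x3 x4 x5 x6 x7 x8 x9 x10 x11 x12 x13) : (x8 * x13) +
    (x9 * x11) = 0 := by
  obtain ⟨z1, z2, z3, w1, w2, w3, c1, c2⟩ := skew h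
  have t := h.q 0 5 1 4 5 6
  rw [w2 0 1 5, w2 0 4 5, z3 5 0, e.e015, e.e456, e.e045, e.e156, e.e146, e.e056, e.e145] at t
  linear_combination t

theorem q5 (h : Pl y) (e : Co y x0 x1 x2 x3 x4 x5 x6 x7 x8 x9 x10 x11 x12 x13) : -(x0 * x7) +
    (x2 * x6) - (x7 * x7) = 0 := by
  obtain ⟨z1, z2, z3, w1, w2, w3, c1, c2⟩ := skew h
  have t := h.q 0 1 0 2 3 4
  rw [z2 0 1, e.e234, e.e012, e.e034, e.e013, e.e024, e.e014, e.e023] at t
  linear_combination t

theorem q6 (h : Pl y) (e : Co y x0 x1 x2 x3 x4 x5 x6 x7 x8 x9 x10 x11 x12 x13) : -(x0 * x11) -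
    (x2 * x8) + (x6 * x7) = 0 := by
  obtain ⟨z1, z2, z3, w1, w2, w3, c1, c2⟩ := skew h
  have t := h.q 0 1 0 2 3 5
  rw [z2 0 1, e.e235, e.e012, e.e035, e.e013, e.e025, e.e015, e.e023] at t
  linear_combination t

theorem q7 (h : Pl y) (e : Co y x0 x1 x2 x3 x4 x5 x6 x7 x8 x9 x10 x11 x12 x13) : -(x0 * x8) +
    (x2 * x3) - (x7 * x8) = 0 := by
  obtain ⟨z1, z2, z3, w1, w2, w3, c1, c2⟩ := skew h
  have t := h.q 0 1 0 2 3 6
  rw [z2 0 1, e.e236, e.e012, e.e036, e.e013, e.e026, e.e016, e.e023] at t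
  linear_combination t

theorem q8 (h : Pl y) (e : Co y x0 x1 x2 x3 x4 x5 x6 x7 x8 x9 x10 x11 x12 x13) : -(x0 * x12) -
    (x6 * x6) + (x7 * x8) = 0 := by
  obtain ⟨z1, z2, z3, w1, w2, w3, c1, c2⟩ := skew h
  have t := h.q 0 1 0 2 4 5
  rw [z2 0 1, e.e245, e.e012, e.e045, e.e014, e.e025, e.e015, e.e024] at t
  linear_combination t

theorem q9 (h : Pl y) (e : Co y x0 x1 x2 x3 x4 x5 x6 x7 x8 x9 x10 x11 x12 x13) : -(x0 * x9) +
    (x3 * x6) - (x8 * x8) = 0 := by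
  obtain ⟨z1, z2, z3, w1, w2, w3, c1, c2⟩ := skew h
  have t := h.q 0 1 0 2 5 6
  rw [z2 0 1, e.e256, e.e012, e.e056, e.e015, e.e026, e.e016, e.e025] at t
  linear_combination t

theorem q10 (h : Pl y) (e : Co y x0 x1 x2 x3 x4 x5 x6 x7 x8 x9 x10 x11 x12 x13) : (x6 * x11) +
    (x7 * x8) + (x7 * x12) = 0 := by
  obtain ⟨z1, z2, z3, w1, w2, w3, c1, c2⟩ := skew h
  have t := h.q 0 1 0 3 4 5
  rw [z2 0 1, e.e345, e.e013, e.e045, e.e014, e.e035, e.e015, e.e034] at t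
  linear_combination t

theorem q11 (h : Pl y) (e : Co y x0 x1 x2 x3 x4 x5 x6 x7 x8 x9 x10 x11 x12 x13) : -(x3 * x11) +
    (x7 * x9) - (x8 * x8) = 0 := by
  obtain ⟨z1, z2, z3, w1, w2, w3, c1, c2⟩ := skew h
  have t := h.q 0 1 0 3 5 6
  rw [z2 0 1, e.e356, e.e013, e.e056, e.e015, e.e036, e.e016, e.e035] at t
  linear_combination t

theorem q12 (h : Pl y) (e : Co y x0 x1 x2 x3 x4 x5 x6 x7 x8 x9 x10 x11 x12 x13) : (x0 * x5) -
    (x1 * x6) - (x2 * x7) = 0 := by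
  obtain ⟨z1, z2, z3, w1, w2, w3, c1, c2⟩ := skew h
  have t := h.q 0 1 1 2 3 4
  rw [z3 1 0, e.e234, e.e012, e.e134, e.e013, e.e124, e.e014, e.e123] at t
  linear_combination t

theorem q13 (h : Pl y) (e : Co y x0 x1 x2 x3 x4 x5 x6 x7 x8 x9 x10 x11 x12 x13) : 2 * (x0 * x7)
    + (x1 * x8) + (x7 * x7) = 0 := by
  obtain ⟨z1, z2, z3, w1, w2, w3, c1, c2⟩ := skew h
  have t := h.q 0 1 1 2 3 5
  rw [z3 1 0, e.e235, e.e012, e.e135, e.e013, e.e125, e.e015, e.e123] at t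
  linear_combination t

theorem q14 (h : Pl y) (e : Co y x0 x1 x2 x3 x4 x5 x6 x7 x8 x9 x10 x11 x12 x13) : -2 * (x0 * x6)
    - (x1 * x3) - (x6 * x7) = 0 := by
  obtain ⟨z1, z2, z3, w1, w2, w3, c1, c2⟩ := skew h
  have t := h.q 0 1 1 2 3 6
  rw [z3 1 0, e.e236, e.e012, e.e136, e.e013, e.e126, e.e016, e.e123] at t
  linear_combination t

theorem q15 (h : Pl y) (e : Co y x0 x1 x2 x3 x4 x5 x6 x7 x8 x9 x10 x11 x12 x13) : -(x5 * x8) - 2
    * (x6 * x7) - (x7 * x11) = 0 := by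
  obtain ⟨z1, z2, z3, w1, w2, w3, c1, c2⟩ := skew h
  have t := h.q 0 1 1 3 4 5
  rw [z3 1 0, e.e345, e.e013, e.e145, e.e014, e.e135, e.e015, e.e134] at t
  linear_combination t

theorem q16 (h : Pl y) (e : Co y x0 x1 x2 x3 x4 x5 x6 x7 x8 x9 x10 x11 x12 x13) : (x2 * x12) +
    (x6 * x7) + (x7 * x11) = 0 := by
  obtain ⟨z1, z2, z3, w1, w2, w3, c1, c2⟩ := skew h
  have t := h.q 0 2 0 3 4 5
  rw [z2 0 2, e.e345, e.e023, e.e045, e.e024, e.e035, e.e025, e.e034] at t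
  linear_combination t

theorem q17 (h : Pl y) (e : Co y x0 x1 x2 x3 x4 x5 x6 x7 x8 x9 x10 x11 x12 x13) : (x2 * x9) -
    (x6 * x8) - (x8 * x11) = 0 := by
  obtain ⟨z1, z2, z3, w1, w2, w3, c1, c2⟩ := skew h
  have t := h.q 0 2 0 3 5 6
  rw [z2 0 2, e.e356, e.e023, e.e056, e.e025, e.e036, e.e026, e.e035] at t
  linear_combination t

theorem q18 (h : Pl y) (e : Co y x0 x1 x2 x3 x4 x5 x6 x7 x8 x9 x10 x11 x12 x13) : -(x0 * x4) -
    (x1 * x7) - (x2 * x2) = 0 := by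
  obtain ⟨z1, z2, z3, w1, w2, w3, c1, c2⟩ := skew h
  have t := h.q 0 2 1 2 3 4
  rw [w2 0 1 2, z3 2 0, e.e012, e.e234, e.e134, e.e023, e.e124, e.e024, e.e123] at t
  linear_combination t

theorem q19 (h : Pl y) (e : Co y x0 x1 x2 x3 x4 x5 x6 x7 x8 x9 x10 x11 x12 x13) : (x2 * x7) +
    (x4 * x6) + (x5 * x7) = 0 := by
  obtain ⟨z1, z2, z3, w1, w2, w3, c1, c2⟩ := skew h
  have t := h.q 0 2 2 3 4 5
  rw [z3 2 0, e.e345, e.e023, e.e245, e.e024, e.e235, e.e025, e.e234] at t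
  linear_combination t

theorem q20 (h : Pl y) (e : Co y x0 x1 x2 x3 x4 x5 x6 x7 x8 x9 x10 x11 x12 x13) : (x2 * x11) -
    (x4 * x8) + (x7 * x7) = 0 := by
  obtain ⟨z1, z2, z3, w1, w2, w3, c1, c2⟩ := skew h
  have t := h.q 0 2 2 3 4 6
  rw [z3 2 0, e.e346, e.e023, e.e246, e.e024, e.e236, e.e026, e.e234] at t
  linear_combination t

theorem q21 (h : Pl y) (e : Co y x0 x1 x2 x3 x4 x5 x6 x7 x8 x9 x10 x11 x12 x13) : -(x1 * x7) +
    (x2 * x5) + (x4 * x7) = 0 := by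
  obtain ⟨z1, z2, z3, w1, w2, w3, c1, c2⟩ := skew h
  have t := h.q 0 3 1 2 3 4
  rw [w2 0 1 3, w2 0 2 3, z3 3 0, e.e013, e.e234, e.e023, e.e134, e.e124, e.e034, e.e123] at t
  linear_combination t

theorem q22 (h : Pl y) (e : Co y x0 x1 x2 x3 x4 x5 x6 x7 x8 x9 x10 x11 x12 x13) : -(x1 * x11) +
    2 * (x2 * x7) + (x5 * x7) = 0 := by
  obtain ⟨z1, z2, z3, w1, w2, w3, c1, c2⟩ := skew h
  have t := h.q 0 3 1 2 3 5
  rw [w2 0 1 3, w2 0 2 3, z3 3 0, e.e013, e.e235, e.e023, e.e135, e.e125, e.e035, e.e123] at t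
  linear_combination t

theorem q23 (h : Pl y) (e : Co y x0 x1 x2 x3 x4 x5 x6 x7 x8 x9 x10 x11 x12 x13) : (x5 * x11) - 2
    * (x7 * x7) + (x7 * x10) = 0 := by
  obtain ⟨z1, z2, z3, w1, w2, w3, c1, c2⟩ := skew h
  have t := h.q 0 3 1 3 4 5
  rw [w2 0 1 3, z3 3 0, e.e013, e.e345, e.e145, e.e034, e.e135, e.e035, e.e134] at t
  linear_combination t

theorem q24 (h : Pl y) (e : Co y x0 x1 x2 x3 x4 x5 x6 x7 x8 x9 x10 x11 x12 x13) : (x2 * x10) -
    (x4 * x11) + (x5 * x7) = 0 := by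
  obtain ⟨z1, z2, z3, w1, w2, w3, c1, c2⟩ := skew h
  have t := h.q 0 3 2 3 4 5
  rw [w2 0 2 3, z3 3 0, e.e023, e.e345, e.e245, e.e034, e.e235, e.e035, e.e234] at t
  linear_combination t

theorem q25 (h : Pl y) (e : Co y x0 x1 x2 x3 x4 x5 x6 x7 x8 x9 x10 x11 x12 x13) : -2 * (x7 *
    x12) - (x8 * x10) + (x11 * x11) = 0 := by
  obtain ⟨z1, z2, z3, w1, w2, w3, c1, c2⟩ := skew h
  have t := h.q 0 3 3 4 5 6
  rw [z3 3 0, e.e456, e.e034, e.e356, e.e035, e.e346, e.e036, e.e345] at t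
  linear_combination t

theorem q26 (h : Pl y) (e : Co y x0 x1 x2 x3 x4 x5 x6 x7 x8 x9 x10 x11 x12 x13) : -(x1 * x12) -
    (x5 * x6) - (x7 * x7) = 0 := by
  obtain ⟨z1, z2, z3, w1, w2, w3, c1, c2⟩ := skew h
  have t := h.q 0 4 1 2 3 5
  rw [w2 0 1 4, w2 0 2 4, w2 0 3 4, e.e014, e.e235, e.e024, e.e135, e.e034, e.e125, e.e045,
    e.e123] at t
  linear_combination t

theorem q27 (h : Pl y) (e : Co y x0 x1 x2 x3 x4 x5 x6 x7 x8 x9 x10 x11 x12 x13) : (x5 * x12) -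
    (x6 * x10) - (x7 * x11) = 0 := by
  obtain ⟨z1, z2, z3, w1, w2, w3, c1, c2⟩ := skew h
  have t := h.q 0 4 1 3 4 5
  rw [w2 0 1 4, w2 0 3 4, z3 4 0, e.e014, e.e345, e.e034, e.e145, e.e135, e.e045, e.e134] at t
  linear_combination t

theorem q28 (h : Pl y) (e : Co y x0 x1 x2 x3 x4 x5 x6 x7 x8 x9 x10 x11 x12 x13) : -(x6 * x13) -
    (x8 * x12) - (x12 * x12) = 0 := by
  obtain ⟨z1, z2, z3, w1, w2, w3, c1, c2⟩ := skew h
  have t := h.q 0 4 1 4 5 6
  rw [w2 0 1 4, z3 4 0, e.e014, e.e456, e.e156, e.e045, e.e146, e.e046, e.e145] at t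
  linear_combination t

theorem q29 (h : Pl y) (e : Co y x0 x1 x2 x3 x4 x5 x6 x7 x8 x9 x10 x11 x12 x13) : -(x4 * x12) +
    (x7 * x7) - (x7 * x10) = 0 := by
  obtain ⟨z1, z2, z3, w1, w2, w3, c1, c2⟩ := skew h
  have t := h.q 0 4 2 3 4 5
  rw [w2 0 2 4, w2 0 3 4, z3 4 0, e.e024, e.e345, e.e034, e.e245, e.e235, e.e045, e.e234] at t
  linear_combination t

theorem q30 (h : Pl y) (e : Co y x0 x1 x2 x3 x4 x5 x6 x7 x8 x9 x10 x11 x12 x13) : (x5 * x9) - 2
    * (x6 * x12) - (x11 * x12) = 0 := by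
  obtain ⟨z1, z2, z3, w1, w2, w3, c1, c2⟩ := skew h
  have t := h.q 0 5 1 3 4 6
  rw [w2 0 1 5, w2 0 3 5, w2 0 4 5, e.e015, e.e346, e.e035, e.e146, e.e045, e.e136, e.e056,
    e.e134] at t
  linear_combination t

theorem q31 (h : Pl y) (e : Co y x0 x1 x2 x3 x4 x5 x6 x7 x8 x9 x10 x11 x12 x13) : -(x9 * x10) -
    (x11 * x13) + 2 * (x12 * x12) = 0 := by
  obtain ⟨z1, z2, z3, w1, w2, w3, c1, c2⟩ := skew h
  have t := h.q 0 5 3 4 5 6
  rw [w2 0 3 5, w2 0 4 5, z3 5 0, e.e035, e.e456, e.e045, e.e356, e.e346, e.e056, e.e345] at t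
  linear_combination t

theorem q32 (h : Pl y) (e : Co y x0 x1 x2 x3 x4 x5 x6 x7 x8 x9 x10 x11 x12 x13) : -(x2 * x8) -
    (x3 * x4) - (x5 * x8) = 0 := by
  obtain ⟨z1, z2, z3, w1, w2, w3, c1, c2⟩ := skew h
  have t := h.q 0 6 1 2 3 4
  rw [w2 0 1 6, w2 0 2 6, w2 0 3 6, w2 0 4 6, e.e016, e.e234, e.e026, e.e134, e.e036, e.e124,
    e.e046, e.e123] at t
  linear_combination t

theorem q33 (h : Pl y) (e : Co y x0 x1 x2 x3 x4 x5 x6 x7 x8 x9 x10 x11 x12 x13) : (x1 * x9) -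
    (x3 * x5) - (x7 * x8) = 0 := by
  obtain ⟨z1, z2, z3, w1, w2, w3, c1, c2⟩ := skew h
  have t := h.q 0 6 1 2 3 5
  rw [w2 0 1 6, w2 0 2 6, w2 0 3 6, w2 0 5 6, e.e016, e.e235, e.e026, e.e135, e.e036, e.e125,
    e.e056, e.e123] at t
  linear_combination t

theorem q34 (h : Pl y) (e : Co y x0 x1 x2 x3 x4 x5 x6 x7 x8 x9 x10 x11 x12 x13) : -(x3 * x10) -
    (x5 * x9) - (x8 * x11) = 0 := by
  obtain ⟨z1, z2, z3, w1, w2, w3, c1, c2⟩ := skew h
  have t := h.q 0 6 1 3 4 5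
  rw [w2 0 1 6, w2 0 3 6, w2 0 4 6, w2 0 5 6, e.e016, e.e345, e.e036, e.e145, e.e046, e.e135,
    e.e056, e.e134] at t
  linear_combination t

theorem q35 (h : Pl y) (e : Co y x0 x1 x2 x3 x4 x5 x6 x7 x8 x9 x10 x11 x12 x13) : -(x3 * x13) +
    (x8 * x9) + (x9 * x12) = 0 := by
  obtain ⟨z1, z2, z3, w1, w2, w3, c1, c2⟩ := skew h
  have t := h.q 0 6 1 4 5 6
  rw [w2 0 1 6, w2 0 4 6, w2 0 5 6, z3 6 0, e.e016, e.e456, e.e046, e.e156, e.e056, e.e146,
    e.e145] at t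
  linear_combination t

theorem q36 (h : Pl y) (e : Co y x0 x1 x2 x3 x4 x5 x6 x7 x8 x9 x10 x11 x12 x13) : (x4 * x9) +
    (x7 * x8) - (x8 * x10) = 0 := by
  obtain ⟨z1, z2, z3, w1, w2, w3, c1, c2⟩ := skew h
  have t := h.q 0 6 2 3 4 5
  rw [w2 0 2 6, w2 0 3 6, w2 0 4 6, w2 0 5 6, e.e026, e.e345, e.e036, e.e245, e.e046, e.e235,
    e.e056, e.e234] at t
  linear_combination t

theorem q37 (h : Pl y) (e : Co y x0 x1 x2 x3 x4 x5 x6 x7 x8 x9 x10 x11 x12 x13) : (x0 * x13) -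
    (x2 * x9) - (x6 * x12) = 0 := by
  obtain ⟨z1, z2, z3, w1, w2, w3, c1, c2⟩ := skew h
  have t := h.q 1 2 0 4 5 6
  rw [c1 0 1 2, e.e012, e.e456, e.e124, e.e056, e.e125, e.e046, e.e126, e.e045] at t
  linear_combination t

theorem q38 (h : Pl y) (e : Co y x0 x1 x2 x3 x4 x5 x6 x7 x8 x9 x10 x11 x12 x13) : -(x1 * x10) +
    2 * (x4 * x7) - (x5 * x5) = 0 := by
  obtain ⟨z1, z2, z3, w1, w2, w3, c1, c2⟩ := skew h
  have t := h.q 1 3 2 3 4 5
  rw [w2 1 2 3, z3 3 1, e.e123, e.e345, e.e245, e.e134, e.e235, e.e135, e.e234] at t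
  linear_combination t

theorem q39 (h : Pl y) (e : Co y x0 x1 x2 x3 x4 x5 x6 x7 x8 x9 x10 x11 x12 x13) : (x3 * x5) + 2
    * (x6 * x6) + (x6 * x11) = 0 := by
  obtain ⟨z1, z2, z3, w1, w2, w3, c1, c2⟩ := skew h
  have t := h.q 1 6 0 2 3 5
  rw [c1 0 1 6, w2 1 2 6, w2 1 3 6, w2 1 5 6, e.e016, e.e235, e.e126, e.e035, e.e136, e.e025,
    e.e156, e.e023] at t
  linear_combination t

theorem q40 (h : Pl y) (e : Co y x0 x1 x2 x3 x4 x5 x6 x7 x8 x9 x10 x11 x12 x13) : -(x2 * x13) -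
    (x4 * x9) - (x7 * x12) = 0 := by
  obtain ⟨z1, z2, z3, w1, w2, w3, c1, c2⟩ := skew h
  have t := h.q 2 3 0 4 5 6
  rw [c1 0 2 3, e.e023, e.e456, e.e234, e.e056, e.e235, e.e046, e.e236, e.e045] at t
  linear_combination t

theorem q41 (h : Pl y) (e : Co y x0 x1 x2 x3 x4 x5 x6 x7 x8 x9 x10 x11 x12 x13) : -(x4 * x13) +
    (x7 * x11) - (x10 * x11) = 0 := by
  obtain ⟨z1, z2, z3, w1, w2, w3, c1, c2⟩ := skew h
  have t := h.q 2 4 3 4 5 6
  rw [w2 2 3 4, z3 4 2, e.e234, e.e456, e.e356, e.e245, e.e346, e.e246, e.e345] at t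
  linear_combination t

theorem q42 (h : Pl y) (e : Co y x0 x1 x2 x3 x4 x5 x6 x7 x8 x9 x10 x11 x12 x13) : -(x5 * x13) +
    2 * (x7 * x12) - (x10 * x12) = 0 := by
  obtain ⟨z1, z2, z3, w1, w2, w3, c1, c2⟩ := skew h
  have t := h.q 2 5 3 4 5 6
  rw [w2 2 3 5, w2 2 4 5, z3 5 2, e.e235, e.e456, e.e245, e.e356, e.e346, e.e256, e.e345] at t
  linear_combination t

theorem q43 (h : Pl y) (e : Co y x0 x1 x2 x3 x4 x5 x6 x7 x8 x9 x10 x11 x12 x13) : -(x1 * x13) +
    2 * (x2 * x12) + (x5 * x12) = 0 := by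
  obtain ⟨z1, z2, z3, w1, w2, w3, c1, c2⟩ := skew h
  have t := h.q 5 6 1 2 3 4
  rw [c1 1 5 6, c1 2 5 6, c1 3 5 6, c1 4 5 6, e.e156, e.e234, e.e256, e.e134, e.e356, e.e124,
    e.e456, e.e123] at t
  linear_combination t

theorem q44 (h : Pl y) (e : Co y x0 x1 x2 x3 x4 x5 x6 x7 x8 x9 x10 x11 x12 x13) : (x0 * x10) +
    (x4 * x8) + (x5 * x6) + (x7 * x7) = 0 := by
  obtain ⟨z1, z2, z3, w1, w2, w3, c1, c2⟩ := skew h
  have t := h.q 0 1 2 3 4 5
  rw [e.e012, e.e345, e.e013, e.e245, e.e014, e.e235, e.e015, e.e234] at t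
  linear_combination t

end

section
variable {κ C : Type} [Field κ] [CommRing C] [Algebra κ C]

theorem mem [CharZero κ] (Φ : Fin 14 → C) (p : Fin 14 × Fin 14) (n : ℕ)
    (L : List (ℤ × Fin 14 × Fin 14)) (hn : n ≠ 0)
    (hL : ∀ t ∈ L, gW4 t.2.1 + gW4 t.2.2 < gW4 p.1 + gW4 p.2)
    (e : (n : C) * (Φ p.1 * Φ p.2) = (L.map fun t => (t.1 : C) * (Φ t.2.1 * Φ t.2.2)).sum) :
    Φ p.1 * Φ p.2 ∈
      Submodule.span κ {f | ∃ a b, gW4 a + gW4 b < gW4 p.1 + gW4 p.2 ∧ f = Φ a * Φ b} := by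
  rw [← Submodule.smul_mem_iff _ (Nat.cast_ne_zero.2 hn : (n : κ) ≠ 0), Nat.cast_smul_eq_nsmul,
    nsmul_eq_mul, e]
  refine list_sum_mem fun f hf => ?_
  obtain ⟨t, ht, rfl⟩ := List.mem_map.1 hf
  rw [← zsmul_eq_mul]
  refine zsmul_mem (Submodule.subset_span ?_) _
  exact ⟨_, _, hL t ht, rfl⟩

theorem mem1 (Φ : Fin 14 → C) (L : List (ℤ × Fin 14)) {f : C}
    (e : f = (L.map fun t => (t.1 : C) * Φ t.2).sum) : f ∈ Submodule.span κ (Set.range Φ) := by
  rw [e]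
  refine list_sum_mem fun f hf => ?_
  obtain ⟨t, -, rfl⟩ := List.mem_map.1 hf
  rw [← zsmul_eq_mul]
  refine zsmul_mem (Submodule.subset_span ?_) _
  exact ⟨_, rfl⟩

theorem all_mem {y : I3 → C} (h : Pl y) (W : Submodule κ C)
    (hW : ∀ i j k, i < j → j < k → y (i, j, k) ∈ W) (t : I3) : y t ∈ W := by
  obtain ⟨z1, z2, z3, w1, w2, w3, c1, c2⟩ := skew h
  obtain ⟨i, j, k⟩ := t
  rcases lt_trichotomy i j with a | rfl | a
  · rcases lt_trichotomy j k with b | rfl | b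
    · exact hW i j k a b
    · rw [z3]; exact W.zero_mem
    · rcases lt_trichotomy i k with c | rfl | c
      · rw [w2]; exact W.neg_mem (hW i k j c b)
      · rw [z2]; exact W.zero_mem
      · rw [c1]; exact hW k i j c a
  · rw [z1]; exact W.zero_mem
  · rcases lt_trichotomy i k with c | rfl | c
    · rw [w1]; exact W.neg_mem (hW j i k a c)
    · rw [z2]; exact W.zero_mem
    · rcases lt_trichotomy j k with b | rfl | b
      · rw [c2]; exact hW j k i b c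
      · rw [z3]; exact W.zero_mem
      · rw [w3]; exact W.neg_mem (hW k j i b a)

theorem main [CharZero κ] {y : I3 → C} {x0 x1 x2 x3 x4 x5 x6 x7 x8 x9 x10 x11 x12 x13 : C} (h : Pl y)
    (e : Co y x0 x1 x2 x3 x4 x5 x6 x7 x8 x9 x10 x11 x12 x13) :
    Submodule.span κ (Set.range y) ≤ Submodule.span κ
      (Set.range ![x0, x1, x2, x3, x4, x5, x6, x7, x8, x9, x10, x11, x12, x13]) ∧
    ∀ p ∈ gBad4, p.1 ≠ p.2 ∧ ![x0, x1, x2, x3, x4, x5, x6, x7, x8, x9, x10, x11, x12, x13] p.1 *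
      ![x0, x1, x2, x3, x4, x5, x6, x7, x8, x9, x10, x11, x12, x13] p.2 ∈ Submodule.span κ
        {f | ∃ a b, gW4 a + gW4 b < gW4 p.1 + gW4 p.2 ∧
          f = ![x0, x1, x2, x3, x4, x5, x6, x7, x8, x9, x10, x11, x12, x13] a *
            ![x0, x1, x2, x3, x4, x5, x6, x7, x8, x9, x10, x11, x12, x13] b} := by
  refine ⟨Submodule.span_le.2 ?_, fun p hp => ?_⟩
  · rintro _ ⟨t, rfl⟩
    refine all_mem h _ (fun i j k a b => ?_) t
    have hm : ∀ i j k : Fin 7, i < j → j < k → (i, j, k) ∈ ([(0, 1, 2), (0, 1, 3), (0, 1, 4), (0, 1, 5), (0, 1, 6), (0, 2, 3), (0, 2, 4), (0, 2, 5), (0, 2,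
        6), (0, 3, 4), (0, 3, 5), (0, 3, 6), (0, 4, 5), (0, 4, 6), (0, 5, 6), (1, 2, 3), (1, 2,
        4), (1, 2, 5), (1, 2, 6), (1, 3, 4), (1, 3, 5), (1, 3, 6), (1, 4, 5), (1, 4, 6), (1, 5,
        6), (2, 3, 4), (2, 3, 5), (2, 3, 6), (2, 4, 5), (2, 4, 6), (2, 5, 6), (3, 4, 5), (3, 4,
        6), (3, 5, 6), (4, 5, 6)] : List I3) := by
      decide
    have hm := hm i j k a b
    generalize (i, j, k) = t at hm
    simp only [List.mem_cons, List.not_mem_nil, or_false] at hm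
    rcases hm with rfl | rfl | rfl | rfl | rfl | rfl | rfl | rfl | rfl | rfl | rfl | rfl | rfl | rfl | rfl | rfl |
      rfl | rfl | rfl | rfl | rfl | rfl | rfl | rfl | rfl | rfl | rfl | rfl | rfl | rfl | rfl |
      rfl | rfl | rfl | rfl
    · refine mem1 _ [(1, 0)] ?_
      change _ = ((1 : ℤ) : C) * x0 + (0)
      push_cast
      linear_combination e.e012
    · refine mem1 _ [(-1, 7)] ?_
      change _ = ((-1 : ℤ) : C) * x7 + (0)
      push_cast
      linear_combination e.e013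
    · refine mem1 _ [(1, 6)] ?_
      change _ = ((1 : ℤ) : C) * x6 + (0)
      push_cast
      linear_combination e.e014
    · refine mem1 _ [(-1, 8)] ?_
      change _ = ((-1 : ℤ) : C) * x8 + (0)
      push_cast
      linear_combination e.e015
    · refine mem1 _ [(1, 3)] ?_
      change _ = ((1 : ℤ) : C) * x3 + (0)
      push_cast
      linear_combination e.e016
    · refine mem1 _ [(-1, 2)] ?_
      change _ = ((-1 : ℤ) : C) * x2 + (0)
      push_cast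
      linear_combination e.e023
    · refine mem1 _ [(1, 7)] ?_
      change _ = ((1 : ℤ) : C) * x7 + (0)
      push_cast
      linear_combination e.e024
    · refine mem1 _ [(-1, 6)] ?_
      change _ = ((-1 : ℤ) : C) * x6 + (0)
      push_cast
      linear_combination e.e025
    · refine mem1 _ [(1, 8)] ?_
      change _ = ((1 : ℤ) : C) * x8 + (0)
      push_cast
      linear_combination e.e026
    · refine mem1 _ [(1, 7)] ?_
      change _ = ((1 : ℤ) : C) * x7 + (0)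
      push_cast
      linear_combination e.e034
    · refine mem1 _ [(1, 11)] ?_
      change _ = ((1 : ℤ) : C) * x11 + (0)
      push_cast
      linear_combination e.e035
    · refine mem1 _ [(1, 8)] ?_
      change _ = ((1 : ℤ) : C) * x8 + (0)
      push_cast
      linear_combination e.e036
    · refine mem1 _ [(1, 12)] ?_
      change _ = ((1 : ℤ) : C) * x12 + (0)
      push_cast
      linear_combination e.e045
    · refine mem1 _ [] ?_
      change _ = 0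
      linear_combination e.e046
    · refine mem1 _ [(1, 9)] ?_
      change _ = ((1 : ℤ) : C) * x9 + (0)
      push_cast
      linear_combination e.e056
    · refine mem1 _ [(1, 1)] ?_
      change _ = ((1 : ℤ) : C) * x1 + (0)
      push_cast
      linear_combination e.e123
    · refine mem1 _ [(1, 2)] ?_
      change _ = ((1 : ℤ) : C) * x2 + (0)
      push_cast
      linear_combination e.e124
    · refine mem1 _ [(-1, 7)] ?_
      change _ = ((-1 : ℤ) : C) * x7 + (0)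
      push_cast
      linear_combination e.e125
    · refine mem1 _ [(1, 6)] ?_
      change _ = ((1 : ℤ) : C) * x6 + (0)
      push_cast
      linear_combination e.e126
    · refine mem1 _ [(-1, 5)] ?_
      change _ = ((-1 : ℤ) : C) * x5 + (0)
      push_cast
      linear_combination e.e134
    · refine mem1 _ [(-2, 7)] ?_
      change _ = ((-2 : ℤ) : C) * x7 + (0)
      push_cast
      linear_combination e.e135
    · refine mem1 _ [(2, 6)] ?_
      change _ = ((2 : ℤ) : C) * x6 + (0)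
      push_cast
      linear_combination e.e136
    · refine mem1 _ [(-1, 11)] ?_
      change _ = ((-1 : ℤ) : C) * x11 + (0)
      push_cast
      linear_combination e.e145
    · refine mem1 _ [(-1, 8), (-1, 12)] ?_
      change _ = ((-1 : ℤ) : C) * x8 + (((-1 : ℤ) : C) * x12 + (0))
      push_cast
      linear_combination e.e146
    · refine mem1 _ [] ?_
      change _ = 0
      linear_combination e.e156
    · refine mem1 _ [(1, 4)] ?_
      change _ = ((1 : ℤ) : C) * x4 + (0)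
      push_cast
      linear_combination e.e234
    · refine mem1 _ [(1, 5)] ?_
      change _ = ((1 : ℤ) : C) * x5 + (0)
      push_cast
      linear_combination e.e235
    · refine mem1 _ [(1, 7)] ?_
      change _ = ((1 : ℤ) : C) * x7 + (0)
      push_cast
      linear_combination e.e236
    · refine mem1 _ [(1, 7)] ?_
      change _ = ((1 : ℤ) : C) * x7 + (0)
      push_cast
      linear_combination e.e245
    · refine mem1 _ [(1, 11)] ?_
      change _ = ((1 : ℤ) : C) * x11 + (0)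
      push_cast
      linear_combination e.e246
    · refine mem1 _ [(1, 12)] ?_
      change _ = ((1 : ℤ) : C) * x12 + (0)
      push_cast
      linear_combination e.e256
    · refine mem1 _ [(1, 10)] ?_
      change _ = ((1 : ℤ) : C) * x10 + (0)
      push_cast
      linear_combination e.e345
    · refine mem1 _ [(1, 11)] ?_
      change _ = ((1 : ℤ) : C) * x11 + (0)
      push_cast
      linear_combination e.e346
    · refine mem1 _ [(2, 12)] ?_
      change _ = ((2 : ℤ) : C) * x12 + (0)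
      push_cast
      linear_combination e.e356
    · refine mem1 _ [(1, 13)] ?_
      change _ = ((1 : ℤ) : C) * x13 + (0)
      push_cast
      linear_combination e.e456
  simp only [gBad4, List.mem_cons, List.not_mem_nil, or_false] at hp
  rcases hp with rfl | rfl | rfl | rfl | rfl | rfl | rfl | rfl | rfl | rfl | rfl | rfl | rfl | rfl | rfl | rfl |
    rfl | rfl | rfl | rfl | rfl | rfl | rfl | rfl | rfl | rfl | rfl | rfl | rfl | rfl | rfl |
    rfl | rfl | rfl | rfl | rfl | rfl | rfl | rfl | rfl | rfl | rfl | rfl | rfl | rfl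
  · refine ⟨by decide, mem _ _ 1 [(-1, 2, 2), (-1, 2, 5), (-1, 4, 7)] (by decide) (by decide)
      ?_⟩
    change ((1 : ℕ) : C) * (x0 * x4) = ((-1 : ℤ) : C) * (x2 * x2) + (((-1 : ℤ) : C) * (x2 * x5)
      + (((-1 : ℤ) : C) * (x4 * x7) + (0)))
    push_cast
    linear_combination -q18 h e + q21 h e
  · refine ⟨by decide, mem _ _ 1 [(1, 1, 6), (1, 2, 7)] (by decide) (by decide) ?_⟩
    change ((1 : ℕ) : C) * (x0 * x5) = ((1 : ℤ) : C) * (x1 * x6) + (((1 : ℤ) : C) * (x2 * x7) +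
      (0))
    push_cast
    linear_combination q12 h e
  · refine ⟨by decide, mem _ _ 1 [(1, 2, 6), (-1, 7, 7)] (by decide) (by decide) ?_⟩
    change ((1 : ℕ) : C) * (x0 * x7) = ((1 : ℤ) : C) * (x2 * x6) + (((-1 : ℤ) : C) * (x7 * x7) +
      (0))
    push_cast
    linear_combination -q5 h e
  · refine ⟨by decide, mem _ _ 1 [(1, 3, 6), (-1, 8, 8)] (by decide) (by decide) ?_⟩
    change ((1 : ℕ) : C) * (x0 * x9) = ((1 : ℤ) : C) * (x3 * x6) + (((-1 : ℤ) : C) * (x8 * x8) +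
      (0))
    push_cast
    linear_combination -q9 h e
  · refine ⟨by decide, mem _ _ 1 [(-1, 2, 11), (-1, 5, 6), (-2, 7, 7)] (by decide) (by decide)
      ?_⟩
    change ((1 : ℕ) : C) * (x0 * x10) = ((-1 : ℤ) : C) * (x2 * x11) + (((-1 : ℤ) : C) * (x5 *
      x6) + (((-2 : ℤ) : C) * (x7 * x7) + (0)))
    push_cast
    linear_combination q20 h e + q44 h e
  · refine ⟨by decide, mem _ _ 1 [(-1, 2, 8), (1, 6, 7)] (by decide) (by decide) ?_⟩
    change ((1 : ℕ) : C) * (x0 * x11) = ((-1 : ℤ) : C) * (x2 * x8) + (((1 : ℤ) : C) * (x6 * x7)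
      + (0))
    push_cast
    linear_combination -q6 h e
  · refine ⟨by decide, mem _ _ 1 [(-1, 6, 6), (1, 7, 8)] (by decide) (by decide) ?_⟩
    change ((1 : ℕ) : C) * (x0 * x12) = ((-1 : ℤ) : C) * (x6 * x6) + (((1 : ℤ) : C) * (x7 * x8)
      + (0))
    push_cast
    linear_combination -q8 h e
  · refine ⟨by decide, mem _ _ 1 [(1, 6, 8), (1, 6, 12), (1, 8, 11)] (by decide) (by decide) ?_⟩
    change ((1 : ℕ) : C) * (x0 * x13) = ((1 : ℤ) : C) * (x6 * x8) + (((1 : ℤ) : C) * (x6 * x12)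
      + (((1 : ℤ) : C) * (x8 * x11) + (0)))
    push_cast
    linear_combination q17 h e + q37 h e
  · refine ⟨by decide, mem _ _ 1 [(-2, 0, 6), (-1, 6, 7)] (by decide) (by decide) ?_⟩
    change ((1 : ℕ) : C) * (x1 * x3) = ((-2 : ℤ) : C) * (x0 * x6) + (((-1 : ℤ) : C) * (x6 * x7)
      + (0))
    push_cast
    linear_combination -q14 h e
  · refine ⟨by decide, mem _ _ 1 [(1, 2, 5), (1, 4, 7)] (by decide) (by decide) ?_⟩
    change ((1 : ℕ) : C) * (x1 * x7) = ((1 : ℤ) : C) * (x2 * x5) + (((1 : ℤ) : C) * (x4 * x7) +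
      (0))
    push_cast
    linear_combination -q21 h e
  · refine ⟨by decide, mem _ _ 1 [(-2, 2, 6), (1, 7, 7)] (by decide) (by decide) ?_⟩
    change ((1 : ℕ) : C) * (x1 * x8) = ((-2 : ℤ) : C) * (x2 * x6) + (((1 : ℤ) : C) * (x7 * x7) +
      (0))
    push_cast
    linear_combination 2 * q5 h e + q13 h e
  · refine ⟨by decide, mem _ _ 2 [(1, 5, 13), (-4, 6, 6), (4, 7, 8), (1, 10, 12)] (by decide)
      (by decide) ?_⟩
    change ((2 : ℕ) : C) * (x1 * x9) = ((1 : ℤ) : C) * (x5 * x13) + (((-4 : ℤ) : C) * (x6 * x6)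
      + (((4 : ℤ) : C) * (x7 * x8) + (((1 : ℤ) : C) * (x10 * x12) + (0))))
    push_cast
    linear_combination -2 * q10 h e + 2 * q33 h e + 2 * q39 h e + q42 h e
  · refine ⟨by decide, mem _ _ 1 [(2, 4, 7), (-1, 5, 5)] (by decide) (by decide) ?_⟩
    change ((1 : ℕ) : C) * (x1 * x10) = ((2 : ℤ) : C) * (x4 * x7) + (((-1 : ℤ) : C) * (x5 * x5)
      + (0))
    push_cast
    linear_combination -q38 h e
  · refine ⟨by decide, mem _ _ 1 [(2, 2, 7), (1, 5, 7)] (by decide) (by decide) ?_⟩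
    change ((1 : ℕ) : C) * (x1 * x11) = ((2 : ℤ) : C) * (x2 * x7) + (((1 : ℤ) : C) * (x5 * x7) +
      (0))
    push_cast
    linear_combination -q22 h e
  · refine ⟨by decide, mem _ _ 1 [(-1, 5, 6), (-1, 7, 7)] (by decide) (by decide) ?_⟩
    change ((1 : ℕ) : C) * (x1 * x12) = ((-1 : ℤ) : C) * (x5 * x6) + (((-1 : ℤ) : C) * (x7 * x7)
      + (0))
    push_cast
    linear_combination -q26 h e
  · refine ⟨by decide, mem _ _ 1 [(1, 5, 12), (-2, 6, 7), (-2, 7, 11)] (by decide) (by decide)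
      ?_⟩
    change ((1 : ℕ) : C) * (x1 * x13) = ((1 : ℤ) : C) * (x5 * x12) + (((-2 : ℤ) : C) * (x6 * x7)
      + (((-2 : ℤ) : C) * (x7 * x11) + (0)))
    push_cast
    linear_combination 2 * q16 h e - q43 h e
  · refine ⟨by decide, mem _ _ 1 [(1, 0, 8), (1, 7, 8)] (by decide) (by decide) ?_⟩
    change ((1 : ℕ) : C) * (x2 * x3) = ((1 : ℤ) : C) * (x0 * x8) + (((1 : ℤ) : C) * (x7 * x8) +
      (0))
    push_cast
    linear_combination q7 h e
  · refine ⟨by decide, mem _ _ 1 [(1, 6, 8), (1, 8, 11)] (by decide) (by decide) ?_⟩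
    change ((1 : ℕ) : C) * (x2 * x9) = ((1 : ℤ) : C) * (x6 * x8) + (((1 : ℤ) : C) * (x8 * x11) +
      (0))
    push_cast
    linear_combination q17 h e
  · refine ⟨by decide, mem _ _ 1 [(1, 4, 11), (-1, 5, 7)] (by decide) (by decide) ?_⟩
    change ((1 : ℕ) : C) * (x2 * x10) = ((1 : ℤ) : C) * (x4 * x11) + (((-1 : ℤ) : C) * (x5 * x7)
      + (0))
    push_cast
    linear_combination q24 h e
  · refine ⟨by decide, mem _ _ 1 [(-1, 6, 7), (-1, 7, 11)] (by decide) (by decide) ?_⟩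
    change ((1 : ℕ) : C) * (x2 * x12) = ((-1 : ℤ) : C) * (x6 * x7) + (((-1 : ℤ) : C) * (x7 *
      x11) + (0))
    push_cast
    linear_combination q16 h e
  · refine ⟨by decide, mem _ _ 2 [(1, 5, 13), (2, 7, 8), (1, 10, 12), (-2, 11, 11)] (by decide)
      (by decide) ?_⟩
    change ((2 : ℕ) : C) * (x2 * x13) = ((1 : ℤ) : C) * (x5 * x13) + (((2 : ℤ) : C) * (x7 * x8)
      + (((1 : ℤ) : C) * (x10 * x12) + (((-2 : ℤ) : C) * (x11 * x11) + (0))))
    push_cast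
    linear_combination 2 * q25 h e - 2 * q36 h e - 2 * q40 h e + q42 h e
  · refine ⟨by decide, mem _ _ 1 [(-1, 2, 8), (2, 6, 7), (1, 7, 11)] (by decide) (by decide) ?_⟩
    change ((1 : ℕ) : C) * (x3 * x4) = ((-1 : ℤ) : C) * (x2 * x8) + (((2 : ℤ) : C) * (x6 * x7) +
      (((1 : ℤ) : C) * (x7 * x11) + (0)))
    push_cast
    linear_combination q15 h e - q32 h e
  · refine ⟨by decide, mem _ _ 2 [(1, 5, 13), (-4, 6, 6), (2, 7, 8), (1, 10, 12)] (by decide)
      (by decide) ?_⟩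
    change ((2 : ℕ) : C) * (x3 * x5) = ((1 : ℤ) : C) * (x5 * x13) + (((-4 : ℤ) : C) * (x6 * x6)
      + (((2 : ℤ) : C) * (x7 * x8) + (((1 : ℤ) : C) * (x10 * x12) + (0))))
    push_cast
    linear_combination -2 * q10 h e + 2 * q39 h e + q42 h e
  · refine ⟨by decide, mem _ _ 1 [(1, 6, 8)] (by decide) (by decide) ?_⟩
    change ((1 : ℕ) : C) * (x3 * x7) = ((1 : ℤ) : C) * (x6 * x8) + (0)
    push_cast
    linear_combination -q0 h e
  · refine ⟨by decide, mem _ _ 1 [(-2, 6, 12), (-1, 7, 13), (-1, 8, 11)] (by decide) (by decide)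
      ?_⟩
    change ((1 : ℕ) : C) * (x3 * x10) = ((-2 : ℤ) : C) * (x6 * x12) + (((-1 : ℤ) : C) * (x7 *
      x13) + (((-1 : ℤ) : C) * (x8 * x11) + (0)))
    push_cast
    linear_combination q3 h e - q30 h e - q34 h e
  · refine ⟨by decide, mem _ _ 1 [(1, 6, 13), (-1, 8, 8), (1, 12, 12)] (by decide) (by decide)
      ?_⟩
    change ((1 : ℕ) : C) * (x3 * x11) = ((1 : ℤ) : C) * (x6 * x13) + (((-1 : ℤ) : C) * (x8 * x8)
      + (((1 : ℤ) : C) * (x12 * x12) + (0)))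
    push_cast
    linear_combination -q2 h e - q11 h e + q28 h e
  · refine ⟨by decide, mem _ _ 1 [(-1, 6, 9)] (by decide) (by decide) ?_⟩
    change ((1 : ℕ) : C) * (x3 * x12) = ((-1 : ℤ) : C) * (x6 * x9) + (0)
    push_cast
    linear_combination -q1 h e
  · refine ⟨by decide, mem _ _ 1 [(1, 8, 9), (1, 9, 12)] (by decide) (by decide) ?_⟩
    change ((1 : ℕ) : C) * (x3 * x13) = ((1 : ℤ) : C) * (x8 * x9) + (((1 : ℤ) : C) * (x9 * x12)
      + (0))
    push_cast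
    linear_combination -q35 h e
  · refine ⟨by decide, mem _ _ 1 [(-1, 2, 7), (-1, 5, 7)] (by decide) (by decide) ?_⟩
    change ((1 : ℕ) : C) * (x4 * x6) = ((-1 : ℤ) : C) * (x2 * x7) + (((-1 : ℤ) : C) * (x5 * x7)
      + (0))
    push_cast
    linear_combination q19 h e
  · refine ⟨by decide, mem _ _ 1 [(1, 2, 11), (1, 7, 7)] (by decide) (by decide) ?_⟩
    change ((1 : ℕ) : C) * (x4 * x8) = ((1 : ℤ) : C) * (x2 * x11) + (((1 : ℤ) : C) * (x7 * x7) +
      (0))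
    push_cast
    linear_combination -q20 h e
  · refine ⟨by decide, mem _ _ 1 [(-1, 5, 13), (-1, 7, 8), (-1, 10, 12), (1, 11, 11)] (by
      decide) (by decide) ?_⟩
    change ((1 : ℕ) : C) * (x4 * x9) = ((-1 : ℤ) : C) * (x5 * x13) + (((-1 : ℤ) : C) * (x7 * x8)
      + (((-1 : ℤ) : C) * (x10 * x12) + (((1 : ℤ) : C) * (x11 * x11) + (0))))
    push_cast
    linear_combination -q25 h e + q36 h e - q42 h e
  · refine ⟨by decide, mem _ _ 1 [(1, 7, 7), (-1, 7, 10)] (by decide) (by decide) ?_⟩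
    change ((1 : ℕ) : C) * (x4 * x12) = ((1 : ℤ) : C) * (x7 * x7) + (((-1 : ℤ) : C) * (x7 * x10)
      + (0))
    push_cast
    linear_combination -q29 h e
  · refine ⟨by decide, mem _ _ 1 [(1, 7, 11), (-1, 10, 11)] (by decide) (by decide) ?_⟩
    change ((1 : ℕ) : C) * (x4 * x13) = ((1 : ℤ) : C) * (x7 * x11) + (((-1 : ℤ) : C) * (x10 *
      x11) + (0))
    push_cast
    linear_combination -q41 h e
  · refine ⟨by decide, mem _ _ 1 [(-2, 6, 7), (-1, 7, 11)] (by decide) (by decide) ?_⟩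
    change ((1 : ℕ) : C) * (x5 * x8) = ((-2 : ℤ) : C) * (x6 * x7) + (((-1 : ℤ) : C) * (x7 * x11)
      + (0))
    push_cast
    linear_combination -q15 h e
  · refine ⟨by decide, mem _ _ 1 [(2, 6, 12), (1, 7, 13)] (by decide) (by decide) ?_⟩
    change ((1 : ℕ) : C) * (x5 * x9) = ((2 : ℤ) : C) * (x6 * x12) + (((1 : ℤ) : C) * (x7 * x13)
      + (0))
    push_cast
    linear_combination -q3 h e + q30 h e
  · refine ⟨by decide, mem _ _ 1 [(2, 7, 7), (-1, 7, 10)] (by decide) (by decide) ?_⟩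
    change ((1 : ℕ) : C) * (x5 * x11) = ((2 : ℤ) : C) * (x7 * x7) + (((-1 : ℤ) : C) * (x7 * x10)
      + (0))
    push_cast
    linear_combination q23 h e
  · refine ⟨by decide, mem _ _ 1 [(1, 5, 12), (-1, 7, 11)] (by decide) (by decide) ?_⟩
    change ((1 : ℕ) : C) * (x6 * x10) = ((1 : ℤ) : C) * (x5 * x12) + (((-1 : ℤ) : C) * (x7 *
      x11) + (0))
    push_cast
    linear_combination -q27 h e
  · refine ⟨by decide, mem _ _ 2 [(-1, 5, 13), (-2, 7, 8), (-1, 10, 12)] (by decide) (by decide)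
      ?_⟩
    change ((2 : ℕ) : C) * (x6 * x11) = ((-1 : ℤ) : C) * (x5 * x13) + (((-2 : ℤ) : C) * (x7 *
      x8) + (((-1 : ℤ) : C) * (x10 * x12) + (0)))
    push_cast
    linear_combination 2 * q10 h e - q42 h e
  · refine ⟨by decide, mem _ _ 1 [(1, 6, 13), (1, 12, 12)] (by decide) (by decide) ?_⟩
    change ((1 : ℕ) : C) * (x7 * x9) = ((1 : ℤ) : C) * (x6 * x13) + (((1 : ℤ) : C) * (x12 * x12)
      + (0))
    push_cast
    linear_combination -q2 h e + q28 h e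
  · refine ⟨by decide, mem _ _ 2 [(1, 5, 13), (1, 10, 12)] (by decide) (by decide) ?_⟩
    change ((2 : ℕ) : C) * (x7 * x12) = ((1 : ℤ) : C) * (x5 * x13) + (((1 : ℤ) : C) * (x10 *
      x12) + (0))
    push_cast
    linear_combination q42 h e
  · refine ⟨by decide, mem _ _ 1 [(-1, 5, 13), (-1, 10, 12), (1, 11, 11)] (by decide) (by
      decide) ?_⟩
    change ((1 : ℕ) : C) * (x8 * x10) = ((-1 : ℤ) : C) * (x5 * x13) + (((-1 : ℤ) : C) * (x10 *
      x12) + (((1 : ℤ) : C) * (x11 * x11) + (0)))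
    push_cast
    linear_combination -q25 h e - q42 h e
  · refine ⟨by decide, mem _ _ 1 [(-1, 6, 13), (-1, 12, 12)] (by decide) (by decide) ?_⟩
    change ((1 : ℕ) : C) * (x8 * x12) = ((-1 : ℤ) : C) * (x6 * x13) + (((-1 : ℤ) : C) * (x12 *
      x12) + (0))
    push_cast
    linear_combination -q28 h e
  · refine ⟨by decide, mem _ _ 1 [(-1, 11, 13), (2, 12, 12)] (by decide) (by decide) ?_⟩
    change ((1 : ℕ) : C) * (x9 * x10) = ((-1 : ℤ) : C) * (x11 * x13) + (((2 : ℤ) : C) * (x12 *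
      x12) + (0))
    push_cast
    linear_combination -q31 h e
  · refine ⟨by decide, mem _ _ 1 [(-1, 8, 13)] (by decide) (by decide) ?_⟩
    change ((1 : ℕ) : C) * (x9 * x11) = ((-1 : ℤ) : C) * (x8 * x13) + (0)
    push_cast
    linear_combination q4 h e
  · refine ⟨by decide, mem _ _ 1 [(1, 7, 13)] (by decide) (by decide) ?_⟩
    change ((1 : ℕ) : C) * (x11 * x12) = ((1 : ℤ) : C) * (x7 * x13) + (0)
    push_cast
    linear_combination -q3 h e

end

end GROBQx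

theorem p_GROBQ :
    S_GROBQ := by
  intro κ C _ _ _ _ y h
  have l := h.2
  refine ⟨_, GROBQx.main h.1 (GROBQx.co h.1 (fun k => ?_) (fun k => ?_) fun k => ?_)⟩
  · have t := l 0 k
    simp [ctr, net, bnet, bf, pA, Fin.sum_univ_succ] at t
    linear_combination t
  · have t := l 1 k
    simp [ctr, net, bnet, bf, pB, Fin.sum_univ_succ] at t
    linear_combination t
  · have t := l 2 k
    simp [ctr, net, bnet, bf, dS, Dat.E, Dat.D, Fin.sum_univ_succ] at t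
    linear_combination t

end Pool.Agent.P.MP_6149fc_ag.V22

end
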