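import Pool.Agent.P.MP_6149fc_ag.V22.IfaceV
import Pool.Agent.P.MP_6149fc_ag.V22.IfaceB

section

/-! Step VOLQ. -/

set_option autoImplicit false
set_option linter.unusedSectionVars false

namespace Pool.Agent.P.MP_6149fc_ag.V22

open Pool.Agent.P.MP_6149fc_ag.V18
open MvPowerSeries (coeff X constantCoeff monomial)
open Matrix

namespace VOLQx

theorem ctr_C {κ E : Type} [Field κ] [CommRing E] [Algebra κ E] (w : Fm κ) (Φ : I3 → E)
    (k : Fin 7) : ctr w (fun t => Polynomial.C (Φ t) * Polynomial.X) k =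
      (Polynomial.C (ctr w Φ k) * Polynomial.X : Polynomial E) := by
  have h := map_ctr (Polynomial.CAlgHom : E →ₐ[κ] Polynomial E) w Φ k
  have h2 := ctr_mul w (Polynomial.X : Polynomial E) (fun t => Polynomial.C (Φ t)) k
  simp only [Polynomial.CAlgHom_apply] at h
  simp only [mul_comm _ (Polynomial.X : Polynomial E)]
  rw [h2, h]

theorem pl_of_inj {T E : Type} [CommRing T] [CommRing E] (j : T →+* E) (hj : Function.Injective j)
    {y : I3 → T} (h : Pl fun t => j (y t)) : Pl y :=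
  ⟨fun i k => hj (by rw [map_zero]; exact h.z i k),
    fun a b c => hj (by rw [map_zero, map_add]; exact h.s1 a b c),
    fun a b c => hj (by rw [map_zero, map_add]; exact h.s2 a b c),
    fun a b c d e f => hj (by
      simp only [map_zero, map_add, map_sub, map_mul]; exact h.q a b c d e f)⟩

theorem len22 : gCl4.length = 22 := by decide

theorem len4 : ∀ c ∈ gCl4, c.length = 4 := by decide

end VOLQx

theorem p_VOLQ (hQUO : S_QUO) (hGROBA4 : S_GROBA4) (hGROBC4 : S_GROBC4) (hGROBQ : S_GROBQ) (hFMH : S_FMH) :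
    S_VOLQ := by
  intro κ _ _ Φ hΦ M
  have hl : ∀ k, ctr (net (dS κ) 2) Φ k ∈ UU κ Φ 1 := fun k => by
    rw [UU, pow_one]
    exact Submodule.sum_mem _ fun i _ => Submodule.sum_mem _ fun j _ =>
      Submodule.smul_mem _ _ (Submodule.subset_span ⟨_, rfl⟩)
  obtain ⟨T, C, _, _, _, _, y, j, π, hj, hy, hπ, hM⟩ :=
    hQUO κ (MvPolynomial (Fin 6) κ) I3 (Fin 7) Φ (fun k => ctr (net (dS κ) 2) Φ k) hl
  have hjy : (fun t => j (y t)) = fun t => Polynomial.C (Φ t) * Polynomial.X := funext hy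
  have hc : ∀ s k, j (ctr (net (dS κ) s) y k) =
      Polynomial.C (ctr (net (dS κ) s) Φ k) * Polynomial.X := fun s k => by
    rw [map_ctr, hjy, VOLQx.ctr_C]
  have hpl : Pl y := by
    refine VOLQx.pl_of_inj j.toRingHom hj ?_
    have h1 : Pl Φ := hΦ ▸ pl_mn _
    have h2 := (h1.map Polynomial.C).mul Polynomial.X
    have h3 : (fun t => j.toRingHom (y t)) = fun t => Polynomial.X * Polynomial.C (Φ t) :=
      funext fun t => (hy t).trans (mul_comm _ _)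
    rw [h3]; exact h2
  obtain ⟨f0, f1, -⟩ := hFMH κ (MvPolynomial (Fin 6) κ) (dS κ) MvPolynomial.X
  have hEQ : EQ (net (dS κ)) fun t => π (y t) := by
    refine ⟨hpl.map (π : T →+* C), fun s k => ?_⟩
    rw [← map_ctr]
    have h0 : ∀ s, (∀ a b, fm (net (dS κ) s) (hk MvPolynomial.X a)
        (hk (MvPolynomial.X : Fin 6 → MvPolynomial (Fin 6) κ) b) = 0) →
        π (ctr (net (dS κ) s) y k) = 0 := fun s h => by
      have : ctr (net (dS κ) s) y k = 0 := hj (by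
        rw [hc, hΦ, ctr_mn, h, h, h]; simp)
      rw [this, map_zero]
    fin_cases s
    · exact h0 0 f0
    · exact h0 1 f1
    · exact hπ k _ (hc 2 k)
  obtain ⟨Ψ, hΨ, hb⟩ := hGROBQ κ C _ hEQ
  have h22 := hGROBA4 κ C 14 Ψ gW4 gBad4 gCl4 hb VOLQx.len4 hGROBC4 (M + 1)
  rw [VOLQx.len22] at h22
  have hfin : FiniteDimensional κ (UU κ Ψ (M + 1)) :=
    Module.Finite.iff_fg.2 ((Submodule.fg_span (Set.finite_range Ψ)).pow (M + 1))
  have hle : UU κ (fun t => π (y t)) (M + 1) ≤ UU κ Ψ (M + 1) := pow_le_pow_left' hΨ _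
  exact (hM M).trans (Nat.add_le_add_right ((Submodule.finrank_mono hle).trans h22) _)

end Pool.Agent.P.MP_6149fc_ag.V22

end

section

/-! Step VOLV. -/

set_option autoImplicit false
set_option linter.unusedSectionVars false

namespace Pool.Agent.P.MP_6149fc_ag.V22

open Pool.Agent.P.MP_6149fc_ag.V18
open MvPowerSeries (coeff X constantCoeff monomial)
open Matrix

namespace VOLVx

theorem map_UU {σ κ C C' : Type} [Field κ] [CommRing C] [Algebra κ C] [CommRing C'] [Algebra κ C']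
    (φ : C →ₐ[κ] C') (Ψ : σ → C) (M : ℕ) :
    (UU κ Ψ M).map φ.toLinearMap = UU κ (fun t => φ (Ψ t)) M := by
  unfold UU
  rw [Submodule.map_pow, Submodule.map_span, ← Set.range_comp]
  rfl

theorem aev_mn {κ C : Type} [Field κ] [CommRing C] [Algebra κ C] (a : Fin 6 → C) (t : I3) :
    MvPolynomial.aeval a (mn (hk (MvPolynomial.X : Fin 6 → MvPolynomial (Fin 6) κ)) t) =
      mn (hk a) t := by
  have h := map_mn (MvPolynomial.aeval (R := κ) a : MvPolynomial (Fin 6) κ →+* C)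
    (hk (MvPolynomial.X : Fin 6 → MvPolynomial (Fin 6) κ)) t
  simp only [map_hk] at h
  simpa using h

theorem ctr_mem {κ C : Type} [Field κ] [CommRing C] [Algebra κ C] (w : Fm κ) (P : I3 → C)
    (k : Fin 7) : ctr w P k ∈ UU κ P 1 := by
  rw [UU_one]
  exact Submodule.sum_mem _ fun i _ => Submodule.sum_mem _ fun j _ =>
    Submodule.smul_mem _ _ (Submodule.subset_span (Set.mem_range_self _))

theorem cc_aev {κ : Type} [Field κ] {η : Fin 6 → PowerSeries (PS κ)} {ζ : Fin 6 → PS κ}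
    (h : ∀ i, PowerSeries.constantCoeff (η i) = ζ i) (f : MvPolynomial (Fin 6) κ) :
    MvPolynomial.aeval ζ f = PowerSeries.constantCoeff (MvPolynomial.aeval η f) := by
  induction f using MvPolynomial.induction_on with
  | C c =>
    rw [MvPolynomial.aeval_C, MvPolynomial.aeval_C, PowerSeries.algebraMap_apply,
      PowerSeries.constantCoeff_C]
  | add p q hp hq => rw [map_add, map_add, map_add, hp, hq]
  | mul_X p i hp => rw [map_mul, map_mul, map_mul, hp, MvPolynomial.aeval_X, MvPolynomial.aeval_X, h]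

end VOLVx

open VOLVx in
theorem p_VOLV (hVOLD : S_VOLD) (hRNK : S_RNK) (hVOLQ : S_VOLQ) (hVOLM : S_VOLM) (hFMH : S_FMH) :
    S_VOLV := by
  intro κ _ _ d δ ζ h0 h1 h2
  obtain ⟨η, hη, he⟩ := hVOLD κ d (dS κ) δ ζ h0 h1 h2
  refine hVOLM _ fun M => ?_
  cases M with
  | zero =>
    have e : UU κ (mn (hk ζ)) 0 = Submodule.span κ {1} := by
      rw [UU, pow_zero, Submodule.one_eq_span]
    rw [e]
    exact (finrank_span_le_card ({1} : Set (PS κ))).trans (by simp)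
  | succ M =>
    obtain ⟨Φ, hΦ⟩ : ∃ Φ : I3 → MvPolynomial (Fin 6) κ, Φ = mn (hk MvPolynomial.X) := ⟨_, rfl⟩
    have hq := hVOLQ κ Φ hΦ M
    have := UU_fin (κ := κ) Φ (M + 1)
    have hm : ∀ (w : Fm κ) (z : Fin 7 × UU κ Φ M),
        ctr w Φ z.1 * (z.2 : MvPolynomial (Fin 6) κ) ∈ UU κ Φ (M + 1) := fun w z => by
      rw [add_comm M 1]
      exact UU_mul (ctr_mem w Φ z.1) z.2.2
    have hP : (fun t => MvPolynomial.aeval η (Φ t)) = mn (hk η) := by
      rw [hΦ]; exact funext (aev_mn η)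
    have hP0 : (fun t => MvPolynomial.aeval ζ (Φ t)) = mn (hk ζ) := by
      rw [hΦ]; exact funext (aev_mn ζ)
    have hr := hRNK κ (PS κ) (MvPolynomial (Fin 6) κ) (Fin 7 × UU κ Φ M) (UU κ Φ (M + 1))
      (fun z => ctr (net d 2) Φ z.1 * (z.2 : MvPolynomial (Fin 6) κ))
      (fun z => ctr (net (dS κ) 2) Φ z.1 * (z.2 : MvPolynomial (Fin 6) κ))
      (MvPolynomial.aeval η).toLinearMap (MvPolynomial.aeval ζ).toLinearMap (cc_aev hη)
      (fun z => ⟨hm _ z, hm _ z⟩) (fun z => by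
        obtain ⟨-, -, a0, a1, a2⟩ := hFMH κ _ d η
        obtain ⟨-, -, b0, b1, b2⟩ := hFMH κ _ (dS κ) η
        simp only [AlgHom.toLinearMap_apply, map_mul, map_ctr, hP]
        rw [ctr_mn, ctr_mn, a0, a1, a2, b0, b1, b2]
        linear_combination (hk η 2 z.1 * he 0 - hk η 1 z.1 * he 1 + hk η 0 z.1 * he 2) *
          MvPolynomial.aeval η (z.2 : MvPolynomial (Fin 6) κ))
    rw [map_UU, hP0] at hr
    omega

end Pool.Agent.P.MP_6149fc_ag.V22

end

section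

/-! Step PARFV. -/

set_option autoImplicit false
set_option linter.unusedSectionVars false

namespace Pool.Agent.P.MP_6149fc_ag.V22

open Pool.Agent.P.MP_6149fc_ag.V18
open MvPowerSeries (coeff X constantCoeff monomial)
open Matrix

namespace PARFVx

theorem sec_zero {C : Type} [CommRing C] (i : Fin 21) (hi : i ≠ 0) :
    sec (fun _ => (0 : C)) i = 0 := by
  fin_cases i <;> first | exact absurd rfl hi | simp [sec, d3]

/-- A form without constant term vanishes at the centre of an arc. -/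
theorem const_dot {κ L : Type} [Field κ] [Field L] [Algebra κ L] (l : Fin 21 → κ) (h : l 0 = 0)
    (ζ : Fin 6 → PowerSeries L) (hζ : ∀ a, PowerSeries.constantCoeff (ζ a) = 0) :
    PowerSeries.constantCoeff (dot21 l (sec ζ)) = 0 := by
  rw [dot21, map_sum]
  refine Finset.sum_eq_zero fun i _ => ?_
  by_cases hi : i = 0
  · rw [hi, h, zero_smul, map_zero]
  · rw [Algebra.smul_def, map_mul, map_sec]
    simp only [hζ]
    rw [sec_zero i hi, mul_zero]

theorem hom_dot {κ C C' : Type} [Field κ] [CommRing C] [Algebra κ C] [CommRing C'] [Algebra κ C']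
    (φ : C →ₐ[κ] C') (l : Fin 21 → κ) (ζ : Fin 6 → C) :
    φ (dot21 l (sec ζ)) = dot21 l (sec fun a => φ (ζ a)) := by
  simp only [dot21, map_sum, map_smul]
  exact Finset.sum_congr rfl fun i _ => congrArg _ (map_sec (φ : C →+* C') ζ i)

end PARFVx

theorem p_PARFV (hIFTU : S_IFTU) (hCHKV : S_CHKV) (hLINS : S_LINS) (hBC : S_BC) :
    S_PARFV := by
  intro κ _ d m ζ hm hlin hζ h1 h3 L _ _ p hK hc
  have hp0 : PowerSeries.constantCoeff (p (0, 1, 2)) = 1 := by rw [hc]; simp [e3, mn, hk]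
  obtain ⟨u, hu⟩ : ∃ u, u * p (0, 1, 2) = 1 :=
    (PowerSeries.isUnit_iff_constantCoeff.2 (hp0 ▸ isUnit_one)).exists_left_inv
  obtain ⟨ζ', hζ', hp, hd⟩ : ∃ ζ' : Fin 6 → PowerSeries L,
      (∀ a, PowerSeries.constantCoeff (ζ' a) = 0) ∧
      (∀ t, p t = p (0, 1, 2) * mn (hk ζ') t) ∧ ∀ s, dot21 (d.eqn s) (sec ζ') = 0 := by
    refine ⟨_, fun a => ?_, hCHKV κ _ d p u hK hu _ rfl⟩
    fin_cases a <;> simp [hc, e3, mn, hk]
  let z : Fin 3 → PowerSeries L := fun j => dot21 (m j) (sec ζ')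
  have hz : Cen z := fun j => PARFVx.const_dot _ (hm j) ζ' hζ'
  obtain ⟨ψ, hψ, hX⟩ := exists_subHom (κ := κ) hz
  let l : Fin 6 → Fin 21 → κ := ![d.eqn 0, d.eqn 1, d.eqn 2, m 0, m 1, m 2]
  have key : (fun a => ψ (ζ a)) = ζ' := by
    refine hIFTU κ L 6 (fun s => dot21 (l s) (sec MvPolynomial.X)) _ _ (fun v hv => ?_)
      (fun a => ?_) hζ' fun s => ?_
    · simp only [(hLINS κ _).2.1] at hv
      refine hlin v (fun s => ?_) fun j => ?_
      · rw [← lin6_eqn]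
        fin_cases s
        exacts [hv 0, hv 1, hv 2]
      · fin_cases j
        exacts [hv 3, hv 4, hv 5]
    · rw [hψ, ((hBC κ κ).2 L z hz).2.1, hζ a, map_zero]
    · rw [(hLINS κ _).2.2, (hLINS κ _).2.2, ← PARFVx.hom_dot]
      fin_cases s
      · exact ((congrArg ψ (h1 0)).trans (map_zero ψ)).trans (hd 0).symm
      · exact ((congrArg ψ (h1 1)).trans (map_zero ψ)).trans (hd 1).symm
      · exact ((congrArg ψ (h1 2)).trans (map_zero ψ)).trans (hd 2).symm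
      · exact (congrArg ψ (h3 0)).trans (hX 0)
      · exact (congrArg ψ (h3 1)).trans (hX 1)
      · exact (congrArg ψ (h3 2)).trans (hX 2)
  refine ⟨p (0, 1, 2), z, hz, fun t => ?_⟩
  rw [hp t, ← hψ, ← key]
  refine congrArg _ (Eq.symm ((map_mn (ψ : PS κ →+* PowerSeries L) _ t).trans ?_))
  exact congrArg (mn · t) (funext fun r => funext fun i =>
    map_hk (ψ : PS κ →+* PowerSeries L) ζ r i)

end Pool.Agent.P.MP_6149fc_ag.V22

end

section

/-! Step PARGV. -/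

set_option autoImplicit false
set_option linter.unusedSectionVars false

namespace Pool.Agent.P.MP_6149fc_ag.V22

open Pool.Agent.P.MP_6149fc_ag.V18
open MvPowerSeries (coeff X constantCoeff monomial)
open Matrix

namespace PARGVx

variable {κ : Type} [Field κ]

/-- The data of a parametrisation from the six coordinates. -/
noncomputable def pp (ζ : Fin 6 → PS κ) : P6 κ :=
  ⟨ζ 0, ζ 1, ζ 2, ζ 3, ζ 4, ζ 5, sec ζ 7, sec ζ 8, sec ζ 9, sec ζ 10, sec ζ 11, sec ζ 12,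
    sec ζ 13, sec ζ 14, sec ζ 15, sec ζ 16, sec ζ 17, sec ζ 18, sec ζ 19, sec ζ 20⟩

theorem pp_sec (ζ : Fin 6 → PS κ) : (pp ζ).sec = sec ζ := rfl

theorem mem1 (Ψ : Fin 21 → PS κ) (i : Fin 21) : Ψ i ∈ UU κ Ψ 1 := by
  rw [UU_one]; exact Submodule.subset_span ⟨i, rfl⟩

theorem pp_ok (ζ : Fin 6 → PS κ) (h : ∀ i, constantCoeff (ζ i) = 0) :
    (pp ζ).Ok (UU κ (sec ζ) 1) :=
  ⟨h 0, h 1, h 2, h 3, h 4, h 5, rfl, rfl, rfl, rfl, rfl, rfl, rfl, rfl, rfl, rfl,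
    by
      change d3 _ _ _ _ _ _ _ _ _ = ζ 0 * (ζ 2 * ζ 4 - ζ 3 * ζ 3) - ζ 1 * (ζ 1 * ζ 4 - ζ 3 * ζ 2) +
        ζ 2 * (ζ 1 * ζ 3 - ζ 2 * ζ 2)
      rw [d3],
    by
      change d3 _ _ _ _ _ _ _ _ _ = ζ 0 * (ζ 2 * ζ 5 - ζ 4 * ζ 3) - ζ 1 * (ζ 1 * ζ 5 - ζ 4 * ζ 2) +
        ζ 3 * (ζ 1 * ζ 3 - ζ 2 * ζ 2)
      rw [d3],
    by
      change d3 _ _ _ _ _ _ _ _ _ = ζ 0 * (ζ 3 * ζ 5 - ζ 4 * ζ 4) - ζ 2 * (ζ 1 * ζ 5 - ζ 4 * ζ 2) +
        ζ 3 * (ζ 1 * ζ 4 - ζ 3 * ζ 2)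
      rw [d3],
    by
      change d3 _ _ _ _ _ _ _ _ _ = ζ 1 * (ζ 3 * ζ 5 - ζ 4 * ζ 4) - ζ 2 * (ζ 2 * ζ 5 - ζ 4 * ζ 3) +
        ζ 3 * (ζ 2 * ζ 4 - ζ 3 * ζ 3)
      rw [d3],
    mem1 (sec ζ) 1, mem1 (sec ζ) 2, mem1 (sec ζ) 3, mem1 (sec ζ) 4, mem1 (sec ζ) 5,
    mem1 (sec ζ) 6, mem1 (sec ζ) 7, mem1 (sec ζ) 8, mem1 (sec ζ) 9, mem1 (sec ζ) 10,
    mem1 (sec ζ) 11, mem1 (sec ζ) 12, mem1 (sec ζ) 13, mem1 (sec ζ) 14, mem1 (sec ζ) 15,
    mem1 (sec ζ) 16, mem1 (sec ζ) 17, mem1 (sec ζ) 18, mem1 (sec ζ) 19, mem1 (sec ζ) 20⟩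

theorem eqs (p : P6 κ) (d : Dat κ) (h : ∀ s, dot21 (d.eqn s) p.sec = 0) : p.Eqs d := by
  have h0 := h 0
  have h1 := h 1
  have h2 := h 2
  rw [dot21, sum21] at h0 h1 h2
  constructor
  · change (0 : κ) • (1 : PS κ) + d.r0 • p.a0 + d.r1 • p.a1 + d.r2 • p.a2 + d.r3 • p.a3 +
      d.r4 • p.a4 + (0 : κ) • p.a5 + d.c01 • p.m01 + d.c02 • p.m02 + d.c03 • p.m03 +
      (0 : κ) • p.m04 + d.c12 • p.m12 + d.c13 • p.m13 + (0 : κ) • p.m14 + d.c23 • p.m23 +
      (0 : κ) • p.m24 + (0 : κ) • p.m34 + (0 : κ) • p.c012 + (0 : κ) • p.c013 +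
      (0 : κ) • p.c023 + (0 : κ) • p.c123 = 0 at h0
    rw [P6.q0]
    linear_combination (norm := module) h0
  · change (0 : κ) • (1 : PS κ) + d.p0 • p.a0 + (d.p1 + d.r0) • p.a1 + (d.p2 + d.r1) • p.a2 +
      (d.p3 + d.r2) • p.a3 + (d.p4 + d.r3) • p.a4 + d.r4 • p.a5 + (0 : κ) • p.m01 +
      d.c01 • p.m02 + d.c02 • p.m03 + d.c03 • p.m04 + d.c02 • p.m12 + (d.c03 + d.c12) • p.m13 +
      d.c13 • p.m14 + d.c13 • p.m23 + d.c23 • p.m24 + (0 : κ) • p.m34 + (0 : κ) • p.c012 +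
      (0 : κ) • p.c013 + (0 : κ) • p.c023 + (0 : κ) • p.c123 = 0 at h1
    rw [P6.q1]
    linear_combination (norm := module) h1
  · change (0 : κ) • (1 : PS κ) + (0 : κ) • p.a0 + d.p0 • p.a1 + d.p1 • p.a2 + d.p2 • p.a3 +
      d.p3 • p.a4 + d.p4 • p.a5 + (0 : κ) • p.m01 + (0 : κ) • p.m02 + (0 : κ) • p.m03 +
      (0 : κ) • p.m04 + d.c01 • p.m12 + d.c02 • p.m13 + d.c03 • p.m14 + d.c12 • p.m23 +
      d.c13 • p.m24 + d.c23 • p.m34 + (0 : κ) • p.c012 + (0 : κ) • p.c013 +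
      (0 : κ) • p.c023 + (0 : κ) • p.c123 = 0 at h2
    rw [P6.q2]
    linear_combination (norm := module) h2

end PARGVx

open PARGVx in
theorem p_PARGV (hIFTE : S_IFTE) (hLINS : S_LINS) (hSPAN : S_SPAN) (hVOLV : S_VOLV) (hPARFV : S_PARFV) :
    S_PARGV := by
  intro κ _ _ d m hm hinj hloc
  let l : Fin 6 → Fin 21 → κ := ![d.eqn 0, d.eqn 1, d.eqn 2, m 0, m 1, m 2]
  have hl0 : ∀ s, l s 0 = 0 := fun s => by
    fin_cases s
    exacts [rfl, rfl, rfl, hm 0, hm 1, hm 2]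
  have hli : ∀ v : Fin 6 → κ, (∀ s, lin6 (l s) ⬝ᵥ v = 0) → v = 0 := fun v hv =>
    hinj v (fun s => by
      fin_cases s
      exacts [hv 0, hv 1, hv 2]) fun j => by
      fin_cases j
      exacts [hv 3, hv 4, hv 5]
  let J : Ideal (PS κ) := Ideal.span (Set.range X)
  obtain ⟨ζ, hJ, hζ⟩ := hIFTE κ (PS κ) J 6
    (fun s => dot21 (l s) (sec (MvPolynomial.X : Fin 6 → MvPolynomial (Fin 6) κ)))
    ![0, 0, 0, X 0, X 1, X 2] (fun s => (hLINS κ (l s)).1.trans (hl0 s))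
    (fun v hv => hli v fun s => by
      have := hv s
      simp only [(hLINS κ (l s)).2.1] at this
      exact this)
    (fun s => by
      fin_cases s
      exacts [J.zero_mem, J.zero_mem, J.zero_mem, Ideal.subset_span ⟨0, rfl⟩,
        Ideal.subset_span ⟨1, rfl⟩, Ideal.subset_span ⟨2, rfl⟩])
  have h0 : ∀ i, constantCoeff (ζ i) = 0 := fun i => by
    rw [← RingHom.mem_ker]
    refine Ideal.span_le.2 ?_ (hJ i)
    rintro _ ⟨a, rfl⟩
    exact MvPowerSeries.constantCoeff_X a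
  simp only [(hLINS κ _).2.2] at hζ
  have e1 : ∀ s, dot21 (d.eqn s) (sec ζ) = 0 := fun s => by
    fin_cases s
    exacts [hζ 0, hζ 1, hζ 2]
  have e3 : ∀ j, dot21 (m j) (sec ζ) = X j := fun j => by
    fin_cases j
    exacts [hζ 3, hζ 4, hζ 5]
  have hs : Function.Surjective (Matrix.mulVecLin (Matrix.of fun s => lin6 (l s))) :=
    LinearMap.injective_iff_surjective.1 ((injective_iff_map_eq_zero _).2 fun v hv =>
      hli v fun s => congrFun hv s)
  choose δ hδ using fun j : Fin 3 =>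
    hs ![if 0 = j then 1 else 0, if 1 = j then 1 else 0, if 2 = j then 1 else 0, 0, 0, 0]
  have hV := hVOLV κ d δ ζ h0 e1 fun s j => by
    fin_cases s
    exacts [congrFun (hδ j) 0, congrFun (hδ j) 1, congrFun (hδ j) 2]
  have hone : 1 ∈ UU κ (sec ζ) 1 := mem1 (sec ζ) 0
  refine ⟨mn (hk ζ), ?_, hPARFV κ d m ζ hm hinj h0 e1 e3⟩
  rw [hSPAN] at hV
  rw [LocV, hSPAN]
  refine ⟨hone, fun j => ?_, hV, fun V hV hV3 =>
    hloc (pp ζ) _ V ⟨UU_sys hone, hV, hV3⟩ (pp_ok ζ h0) (eqs _ d e1) e3⟩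
  rw [← e3 j]
  exact Submodule.sum_mem _ fun i _ => Submodule.smul_mem _ _ (mem1 _ i)

end Pool.Agent.P.MP_6149fc_ag.V22

end

section

/-! Step PARL. -/

set_option autoImplicit false
set_option linter.unusedSectionVars false

namespace Pool.Agent.P.MP_6149fc_ag.V22

open Pool.Agent.P.MP_6149fc_ag.V18
open MvPowerSeries (coeff X constantCoeff monomial)
open Matrix

theorem p_PARL (hPARGV : S_PARGV) :
    S_PARL := by
  intro κ _ _ d m h1 h2
  have e1 : ∀ v : Fin 6 → κ, lin6 ![0, v 0, v 1, v 2, v 3, v 4, v 5, 0, 0, 0, 0, 0, 0, 0, 0, 0, 0,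
      0, 0, 0, 0] = v := fun v => by
    funext i
    fin_cases i <;> rfl
  have e2 : ∀ (v : Fin 6 → κ) (p : P6 κ), dot21 ![0, v 0, v 1, v 2, v 3, v 4, v 5, 0, 0, 0, 0, 0,
      0, 0, 0, 0, 0, 0, 0, 0, 0] p.sec = p.lin v := fun v p => by
    rw [dot21, sum21]
    simp [P6.sec, P6.lin]
  refine hPARGV κ d (fun j => ![0, m j 0, m j 1, m j 2, m j 3, m j 4, m j 5, 0, 0, 0, 0, 0, 0, 0,
    0, 0, 0, 0, 0, 0, 0]) (fun _ => rfl) (fun v a b => h1 v a fun j => ?_)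
    fun p U V a b c e => h2 p U V a b c fun j => ?_
  · rw [← e1 (m j)]; exact b j
  · rw [← e2]; exact e j

end Pool.Agent.P.MP_6149fc_ag.V22

end
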