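import Pool.Agent.P.MP_6149fc_ag.V18.StepOrd
import Pool.Agent.P.MP_6149fc_ag.V18.StepDeg
import Pool.Agent.P.MP_6149fc_ag.V18.StepWall
import Pool.Agent.P.MP_6149fc_ag.V18.StepBlow
import Pool.Agent.P.MP_6149fc_ag.V18.StepCvx1
import Pool.Agent.P.MP_6149fc_ag.V18.StepCvx2
import Pool.Agent.P.MP_6149fc_ag.V18.StepPtE
import Pool.Agent.P.MP_6149fc_ag.V18.StepLoc
import Pool.Agent.P.MP_6149fc_ag.V18.StepPar
import Pool.Agent.P.MP_6149fc_ag.V18.StepGlob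
import Pool.Agent.P.MP_6149fc_ag.V22.StepB1
import Pool.Agent.P.MP_6149fc_ag.V22.StepB2
import Pool.Agent.P.MP_6149fc_ag.V22.StepC1
import Pool.Agent.P.MP_6149fc_ag.V22.StepC2
import Pool.Agent.P.MP_6149fc_ag.V22.StepE1
import Pool.Agent.P.MP_6149fc_ag.V22.StepG1
import Pool.Agent.P.MP_6149fc_ag.V22.StepG2
import Pool.Agent.P.MP_6149fc_ag.V22.StepG3
import Pool.Agent.P.MP_6149fc_ag.V22.StepG4
import Pool.Agent.P.MP_6149fc_ag.V22.StepK1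
import Pool.Agent.P.MP_6149fc_ag.V22.StepK2
import Pool.Agent.P.MP_6149fc_ag.V22.StepK3
import Pool.Agent.P.MP_6149fc_ag.V22.StepK4
import Pool.Agent.P.MP_6149fc_ag.V22.StepN1
import Pool.Agent.P.MP_6149fc_ag.V22.StepQ1
import Pool.Agent.P.MP_6149fc_ag.V22.StepQ2
import Pool.Agent.P.MP_6149fc_ag.V22.StepV1
import Pool.Agent.P.MP_6149fc_ag.V22.StepV2
import Pool.Agent.P.MP_6149fc_ag.V22.StepV3

/-! All steps, unconditionally. -/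

namespace Pool.Agent.P.MP_6149fc_ag.V22

theorem o_NULL2 : V18.S_NULL2 := V18.p_NULL2
theorem o_SEL : V18.S_SEL := V18.p_SEL
theorem o_RKA : V18.S_RKA := V18.p_RKA
theorem o_ARC1 : V18.S_ARC1 := V18.p_ARC1 o_RKA
theorem o_RKC : V18.S_RKC := V18.p_RKC o_RKA
theorem o_BC : V18.S_BC := V18.p_BC
theorem o_COUNT : V18.S_COUNT := V18.p_COUNT o_RKA
theorem o_REDUCE : V18.S_REDUCE := V18.p_REDUCE
theorem o_DEG0B : V18.S_DEG0B := V18.p_DEG0B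
theorem o_DEG0 : V18.S_DEG0 := V18.p_DEG0 o_COUNT o_REDUCE o_DEG0B o_RKA
theorem o_SUBC : V18.S_SUBC := V18.p_SUBC
theorem o_DEGR : V18.S_DEGR := V18.p_DEGR o_DEG0 o_SUBC o_RKA
theorem o_DEG : V18.S_DEG := V18.p_DEG o_DEGR
theorem o_MONO : V18.S_MONO := V18.p_MONO
theorem o_ORD : V18.S_ORD := V18.p_ORD o_RKA
theorem o_JET2 : V18.S_JET2 := V18.p_JET2 o_DEG o_MONO o_ORD
theorem o_ADM : V18.S_ADM := V18.p_ADM
theorem o_ARC2 : V18.S_ARC2 := V18.p_ARC2 o_RKC o_BC o_JET2 o_ADM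
theorem o_IFTE : V18.S_IFTE := V18.p_IFTE
theorem o_IFTU : V18.S_IFTU := V18.p_IFTU
theorem o_BODY0 : V18.S_BODY0 := V18.p_BODY0
theorem o_SB1 : V18.S_SB1 := V18.p_SB1
theorem o_TWOFLAG : V18.S_TWOFLAG := V18.p_TWOFLAG
theorem o_RED : V18.S_RED := V18.p_RED o_TWOFLAG
theorem o_ENGS : V18.S_ENGS := V18.p_ENGS o_RED o_JET2
theorem o_TWO2 : V18.S_TWO2 := V18.p_TWO2 o_TWOFLAG
theorem o_ENGY : V18.S_ENGY := V18.p_ENGY o_TWO2 o_ADM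
theorem o_JC1 : V18.S_JC1 := V18.p_JC1
theorem o_JC2 : V18.S_JC2 := V18.p_JC2
theorem o_JC3A : V18.S_JC3A := V18.p_JC3A
theorem o_CFA : V18.S_CFA := V18.p_CFA
theorem o_JC3 : V18.S_JC3 := V18.p_JC3 o_JC3A o_RKA o_CFA
theorem o_TRUNC : V18.S_TRUNC := V18.p_TRUNC o_SUBC o_ORD
theorem o_JC : V18.S_JC := V18.p_JC o_JC1 o_JC2 o_JC3 o_TRUNC
theorem o_ENGC : V18.S_ENGC := V18.p_ENGC o_RED o_ENGY o_DEG o_JC o_ADM
theorem o_TRAP1 : V18.S_TRAP1 := V18.p_TRAP1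
theorem o_TRAP : V18.S_TRAP := V18.p_TRAP o_TRAP1
theorem o_CERT1 : V18.S_CERT1 := V18.p_CERT1 o_TRAP
theorem o_SLICE1 : V18.S_SLICE1 := V18.p_SLICE1
theorem o_SLICE2 : V18.S_SLICE2 := V18.p_SLICE2
theorem o_CRT : V18.S_CRT := V18.p_CRT
theorem o_GR : V18.S_GR := V18.p_GR
theorem o_GRED : V18.S_GRED := V18.p_GRED o_RED o_DEG
theorem o_PULL : V18.S_PULL := V18.p_PULL
theorem o_CHARTS : V18.S_CHARTS := V18.p_CHARTS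
theorem o_CHIND : V18.S_CHIND := V18.p_CHIND o_BC
theorem o_KB0 : V18.S_KB0 := V18.p_KB0 o_CHIND o_PULL o_TWO2
theorem o_RKB : V18.S_RKB := V18.p_RKB o_RKA
theorem o_REGION : V18.S_REGION := V18.p_REGION o_DEGR o_MONO o_ORD o_RKB o_BC
theorem o_REGF : V18.S_REGF := V18.p_REGF o_TWO2 o_REGION
theorem o_ARCT : V18.S_ARCT := V18.p_ARCT o_RKA o_CFA
theorem o_RECEN : V18.S_RECEN := V18.p_RECEN o_RKA o_RKB o_CFA
theorem o_CHJET : V18.S_CHJET := V18.p_CHJET o_CHIND o_PULL o_TWO2 o_REGION o_SUBC o_BC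
theorem o_ARCX : V18.S_ARCX := V18.p_ARCX o_RKA o_CFA
theorem o_EX : V18.S_EX := V18.p_EX o_ARCX
theorem o_EXG : V18.S_EXG := V18.p_EXG o_RECEN o_CHJET
theorem o_FIN1 : V18.S_FIN1 := V18.p_FIN1 o_RKA o_CFA
theorem o_FIN2 : V18.S_FIN2 := V18.p_FIN2 o_FIN1 o_JET2 o_ADM
theorem o_FINV : V18.S_FINV := V18.p_FINV o_FIN1
theorem o_FINW : V18.S_FINW := V18.p_FINW
theorem o_FINS : V18.S_FINS := V18.p_FINS
theorem t_BRG : S_BRG := p_BRG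
theorem t_SMBV : S_SMBV := p_SMBV t_BRG
theorem t_PLU : S_PLU := p_PLU
theorem t_ACT1 : S_ACT1 := p_ACT1
theorem t_SAME : S_SAME := p_SAME
theorem t_EXT : S_EXT := p_EXT
theorem t_DEC : S_DEC := p_DEC t_PLU t_ACT1 t_SAME t_EXT
theorem t_ACT2 : S_ACT2 := p_ACT2
theorem t_AUT1 : S_AUT1 := p_AUT1 t_ACT1 t_ACT2
theorem t_AUT : S_AUT := p_AUT t_ACT1 t_ACT2 t_AUT1
theorem t_TV0 : S_TV0 := p_TV0
theorem t_TV : S_TV := p_TV t_TV0 t_EXT t_AUT1 t_ACT1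
theorem t_PAR5 : S_PAR5 := p_PAR5 t_EXT
theorem t_ISO2 : S_ISO2 := p_ISO2
theorem t_ND : S_ND := p_ND t_PAR5 t_ISO2
theorem t_RATA : S_RATA := p_RATA
theorem t_RATB : S_RATB := p_RATB
theorem t_RATC : S_RATC := p_RATC
theorem t_PRIM : S_PRIM := p_PRIM
theorem t_RAT : S_RAT := p_RAT t_RATA t_RATB t_RATC t_PRIM
theorem t_HK0 : S_HK0 := p_HK0 t_RAT t_PRIM
theorem t_KER : S_KER := p_KER
theorem t_KA : S_KA := p_KA t_KER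
theorem t_KN : S_KN := p_KN t_EXT
theorem t_BLK0 : S_BLK0 := p_BLK0
theorem t_GSC : S_GSC := p_GSC
theorem t_BLK : S_BLK := p_BLK t_BLK0 t_AUT t_GSC t_ACT1
theorem t_NETC : S_NETC := p_NETC t_SAME
theorem t_NORM1 : S_NORM1 := p_NORM1 t_TV t_ND t_HK0 t_KA t_KN t_BLK t_NETC
theorem t_EIGP : S_EIGP := p_EIGP t_PRIM
theorem t_KI : S_KI := p_KI t_EIGP t_KER
theorem t_CONIC : S_CONIC := p_CONIC
theorem t_KIIA : S_KIIA := p_KIIA t_CONIC t_EXT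
theorem t_KIIB : S_KIIB := p_KIIB
theorem t_KII : S_KII := p_KII t_EIGP t_KIIA t_KIIB
theorem t_HAUT : S_HAUT := p_HAUT
theorem t_HROOT : S_HROOT := p_HROOT
theorem t_KH2 : S_KH2 := p_KH2 t_HAUT t_HROOT
theorem t_KSEL : S_KSEL := p_KSEL t_HK0 t_KI t_KII t_KH2
theorem t_KB : S_KB := p_KB
theorem t_CAN0 : S_CAN0 := p_CAN0 t_NETC
theorem t_CAN : S_CAN := p_CAN t_BLK t_CAN0
theorem t_NORM : S_NORM := p_NORM t_NORM1 t_TV t_ND t_KSEL t_KB t_BLK t_NETC t_CAN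
theorem t_NFA2 : S_NFA2 := p_NFA2
theorem t_NFB2 : S_NFB2 := p_NFB2 t_NFA2
theorem t_MOVS : S_MOVS := p_MOVS t_BLK t_NETC t_CAN0
theorem t_MOVW : S_MOVW := p_MOVW t_BLK t_NETC t_CAN0
theorem t_MOVT : S_MOVT := p_MOVT t_BLK t_NETC t_CAN0
theorem t_SM0V : S_SM0V := p_SM0V t_TV
theorem t_KNR : S_KNR := p_KNR
theorem t_LINS : S_LINS := p_LINS
theorem t_SPAN : S_SPAN := p_SPAN
theorem t_VOLD : S_VOLD := p_VOLD t_LINS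
theorem t_RNK0 : S_RNK0 := p_RNK0
theorem t_RNK : S_RNK := p_RNK t_RNK0
theorem t_QUO : S_QUO := p_QUO
theorem t_GROBA4 : S_GROBA4 := p_GROBA4
theorem t_GROBC4 : S_GROBC4 := p_GROBC4
theorem t_GROBQ : S_GROBQ := p_GROBQ
theorem t_FMH : S_FMH := p_FMH
theorem t_VOLQ : S_VOLQ := p_VOLQ t_QUO t_GROBA4 t_GROBC4 t_GROBQ t_FMH
theorem t_VOLM : S_VOLM := p_VOLM
theorem t_VOLV : S_VOLV := p_VOLV t_VOLD t_RNK t_VOLQ t_VOLM t_FMH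
theorem t_CHKV : S_CHKV := p_CHKV t_PLU t_FMH
theorem t_PARFV : S_PARFV := p_PARFV o_IFTU t_CHKV t_LINS o_BC
theorem t_PARGV : S_PARGV := p_PARGV o_IFTE t_LINS t_SPAN t_VOLV t_PARFV
theorem t_PARL : S_PARL := p_PARL t_PARGV
theorem t_SBV : S_SBV := p_SBV o_BODY0 o_SB1
theorem t_SIMV : S_SIMV := p_SIMV o_ADM t_SBV o_ENGS
theorem t_WALV : S_WALV := p_WALV o_ADM t_SBV o_ENGC
theorem t_TRAPM : S_TRAPM := p_TRAPM o_TRAP1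
theorem t_CERTM : S_CERTM := p_CERTM t_TRAPM
theorem t_CRQ : S_CRQ := p_CRQ
theorem t_CRM : S_CRM := p_CRM t_CRQ
theorem t_CRITV : S_CRITV := p_CRITV o_CRT
theorem t_CRITF : S_CRITF := p_CRITF
theorem t_CERTV : S_CERTV := p_CERTV o_CERT1 t_CERTM o_SLICE1 o_SLICE2 t_CRM t_CRITV t_CRITF
theorem t_LOCK : S_LOCK := p_LOCK t_SIMV t_WALV t_CERTV
theorem t_KIT : S_KIT := p_KIT t_PARL t_LOCK
theorem t_APOL : S_APOL := p_APOL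
theorem t_SCH6 : S_SCH6 := p_SCH6 t_APOL
theorem t_GEN : S_GEN := p_GEN
theorem t_SQ0 : S_SQ0 := p_SQ0 t_GEN
theorem t_LINA : S_LINA := p_LINA
theorem t_DUAL : S_DUAL := p_DUAL
theorem t_DUAL6 : S_DUAL6 := p_DUAL6 t_DUAL
theorem t_PK0 : S_PK0 := p_PK0
theorem t_QK0 : S_QK0 := p_QK0 t_SM0V t_KNR t_KIT t_SCH6 t_SQ0 t_LINA t_DUAL6 t_PK0
theorem t_KMV : S_KMV := p_KMV
theorem t_SMLV : S_SMLV := p_SMLV t_TV
theorem t_LNZ : S_LNZ := p_LNZ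
theorem t_RES2 : S_RES2 := p_RES2
theorem t_SCH4 : S_SCH4 := p_SCH4 t_APOL
theorem t_SQ1 : S_SQ1 := p_SQ1 t_GEN
theorem t_DUAL4 : S_DUAL4 := p_DUAL4 t_DUAL
theorem t_PK1G : S_PK1G := p_PK1G
theorem t_GK1U : S_GK1U := p_GK1U t_KIT t_SCH4 t_SQ1 t_LINA t_DUAL4 t_PK1G
theorem t_GK1V : S_GK1V := p_GK1V t_KIT t_LINA t_PK1G
theorem t_PK1A : S_PK1A := p_PK1A
theorem t_GK1A : S_GK1A := p_GK1A t_KIT t_PK1A
theorem t_N1A : S_N1A := p_N1A t_SM0V t_SMLV t_LNZ t_RES2 t_GK1U t_GK1V t_GK1A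
theorem t_PK1B : S_PK1B := p_PK1B
theorem t_GK1B : S_GK1B := p_GK1B t_KIT t_PK1B
theorem t_N1B : S_N1B := p_N1B t_SM0V t_SMLV t_LNZ t_RES2 t_GK1U t_GK1B
theorem t_QK1 : S_QK1 := p_QK1 t_MOVS t_MOVW t_MOVT t_KMV t_KNR t_N1A t_N1B
theorem t_C03 : S_C03 := p_C03 t_TV t_ND
theorem t_PK2G : S_PK2G := p_PK2G
theorem t_GK2G : S_GK2G := p_GK2G t_KIT t_PK2G
theorem t_PK2H : S_PK2H := p_PK2H
theorem t_GK2H : S_GK2H := p_GK2H t_KIT t_PK2H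
theorem t_PK2JA : S_PK2JA := p_PK2JA
theorem t_PK2JB : S_PK2JB := p_PK2JB
theorem t_GK2J : S_GK2J := p_GK2J t_KIT t_PK2JA t_PK2JB
theorem t_N11 : S_N11 := p_N11 t_SMLV t_LNZ t_C03 t_GK2G t_GK2H t_GK2J
theorem t_QK11 : S_QK11 := p_QK11 t_MOVW t_KNR t_RES2 t_N11
theorem t_DA0 : S_DA0 := p_DA0
theorem t_PEN4 : S_PEN4 := p_PEN4
theorem t_DAB : S_DAB := p_DAB t_PEN4
theorem t_PDA1 : S_PDA1 := p_PDA1
theorem t_PDA2 : S_PDA2 := p_PDA2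
theorem t_PDA3 : S_PDA3 := p_PDA3
theorem t_GDA : S_GDA := p_GDA t_KIT t_PDA1 t_PDA2 t_PDA3
theorem t_PDA4 : S_PDA4 := p_PDA4
theorem t_PDA5 : S_PDA5 := p_PDA5
theorem t_GDA4 : S_GDA4 := p_GDA4 t_KIT t_PDA4 t_PDA5
theorem t_N2A : S_N2A := p_N2A t_SMLV t_DA0 t_DAB t_GDA t_GDA4
theorem t_DBB : S_DBB := p_DBB
theorem t_PDB1 : S_PDB1 := p_PDB1
theorem t_PDB2 : S_PDB2 := p_PDB2
theorem t_GDB : S_GDB := p_GDB t_KIT t_PDB1 t_PDB2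
theorem t_N2B : S_N2B := p_N2B t_SMLV t_DBB t_GDB
theorem t_QK2 : S_QK2 := p_QK2 t_MOVS t_MOVW t_MOVT t_KMV t_KNR t_RES2 t_N2A t_N2B
theorem t_QT0 : S_QT0 := p_QT0 t_PARL
theorem t_PT0 : S_PT0 := p_PT0
theorem t_PT1 : S_PT1 := p_PT1
theorem t_PT2 : S_PT2 := p_PT2
theorem t_PT : S_PT := p_PT t_PT0 t_PT1 t_PT2
theorem t_PTA : S_PTA := p_PTA
theorem t_LT : S_LT := p_LT t_SIMV t_CERTV t_PTA
theorem t_C03V : S_C03V := p_C03V t_TV t_ND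
theorem t_C03T : S_C03T := p_C03T t_C03V t_MOVS t_MOVW
theorem t_Q111 : S_Q111 := p_Q111 t_QT0 t_PT t_LT t_C03T t_SM0V
theorem t_PU0 : S_PU0 := p_PU0
theorem t_PUA : S_PUA := p_PUA t_PU0
theorem t_PUB : S_PUB := p_PUB t_PU0
theorem t_LUA : S_LUA := p_LUA t_SIMV t_CERTV t_PUA t_PUB
theorem t_PUC : S_PUC := p_PUC
theorem t_LUC : S_LUC := p_LUC t_WALV t_CERTV t_PUC
theorem t_Q21 : S_Q21 := p_Q21 t_PARL t_LUA t_LUC t_C03V t_SM0V t_SMLV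
theorem t_PN0 : S_PN0 := p_PN0
theorem t_PN : S_PN := p_PN
theorem t_LN : S_LN := p_LN t_WALV t_CERTV t_PN0 t_PN
theorem t_Q3N : S_Q3N := p_Q3N t_PARL t_LN t_SM0V t_SMLV t_MOVT
theorem t_PE3 : S_PE3 := p_PE3
theorem t_PTE1 : S_PTE1 := p_PTE1
theorem t_PTE2 : S_PTE2 := p_PTE2 o_ADM
theorem t_SUME : S_SUME := p_SUME o_ADM t_SBV t_CERTV o_PULL o_CHARTS t_PTE1 t_PTE2
theorem t_EAL2 : S_EAL2 := p_EAL2 o_ADM o_TRUNC o_KB0 o_CHARTS o_REGF o_ARCT o_RECEN o_CHJET o_EX o_EXG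
theorem t_Q3S : S_Q3S := p_Q3S t_PARL t_SM0V t_SMLV t_MOVT o_ADM o_GR o_GRED t_PE3 t_SUME t_EAL2
theorem t_NFK : S_NFK := p_NFK t_NFB2 t_MOVS t_MOVW t_MOVT t_QK0 t_QK1 t_QK11 t_QK2 t_Q111 t_Q21 t_Q3N t_Q3S
theorem t_PARBV : S_PARBV := p_PARBV t_BRG t_SMBV t_DEC t_AUT t_NORM t_NFK
theorem t_CONVV : S_CONVV := p_CONVV
theorem t_FINX : S_FINX := p_FINX o_FIN2 o_FINV o_FINW o_FINS t_CONVV o_ADM
theorem t_MAINV : S_MAINV := p_MAINV t_BRG o_NULL2 o_SEL o_ARC1 o_ARC2 t_PARBV t_FINX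

end Pool.Agent.P.MP_6149fc_ag.V22
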