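import Pool.Agent.P.MP_6149fc_ag.V18.IfaceA
import Pool.Agent.P.MP_6149fc_ag.V18.IfaceB
import Pool.Agent.P.MP_6149fc_ag.V18.IfaceC
import Pool.Agent.P.MP_6149fc_ag.V18.IfaceG

/-! Volume bound `11 / 3` and the exact certificate checker. -/

set_option autoImplicit false

namespace Pool.Agent.P.MP_6149fc_ag.V22

open Pool.Agent.P.MP_6149fc_ag.V18
open scoped ENNReal
open MeasureTheory

/-- Barycentre bound for all convex bodies of volume at most `11 / 3` that contain the points. -/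
def BaryV (P : List PT) (i : Fin 3) (τ : ℚ) : Prop :=
  ∀ B : Set (Fin 3 → ℝ), Convex ℝ B → MeasurableSet B → (∀ x ∈ B, ∀ j, 0 ≤ x j) →
    volume B ≤ ENNReal.ofReal (11 / 3) → (0 : Fin 3 → ℝ) ∈ B → (∀ p ∈ P, pR p ∈ B) →
    ∫⁻ x in B, ENNReal.ofReal (x i) ≤ ENNReal.ofReal (τ : ℝ) * volume B

/-- The mixed area of two chains of trapezoids. -/
def mix : List Q3 → List Q3 → ℚ
  | a :: b :: l, a' :: b' :: l' =>
    ((b.1 - a.1) * ((a'.2.2 - a'.2.1) + (b'.2.2 - b'.2.1)) +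
      (b'.1 - a'.1) * ((a.2.2 - a.2.1) + (b.2.2 - b.2.1))) / 2 + mix (b :: l) (b' :: l')
  | _, _ => 0

/-- A slab `(s, t, A0, A1, A2)`: the area at height `(1 - θ) s + θ t` is at least
`A0 (1 - θ) ^ 2 + A1 θ (1 - θ) + A2 θ ^ 2`. -/
abbrev Q5 : Type := ℚ × ℚ × ℚ × ℚ × ℚ

/-- Lower bound for the volume. -/
def vq : List Q5 → ℚ
  | [] => 0
  | a :: l => (a.2.1 - a.1) * (a.2.2.1 / 3 + a.2.2.2.1 / 6 + a.2.2.2.2 / 3) + vq l

/-- Lower bound for the moment about the cut `c`. -/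
def mq (c : ℚ) : List Q5 → ℚ
  | [] => 0
  | a :: l => (a.2.1 - a.1) *
      ((c - a.1) * (a.2.2.1 / 4 + a.2.2.2.1 / 12 + a.2.2.2.2 / 12) +
        (c - a.2.1) * (a.2.2.1 / 12 + a.2.2.2.1 / 12 + a.2.2.2.2 / 4)) + mq c l

/-- The slabs are ordered and lie between `lo` and `c`; the coefficients are nonnegative. -/
def ordq (c : ℚ) : ℚ → List Q5 → Bool
  | lo, [] => decide (lo ≤ c)
  | lo, a :: l => decide (lo ≤ a.1) && decide (a.1 ≤ a.2.1) && decide (0 ≤ a.2.2.1) &&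
      decide (0 ≤ a.2.2.2.1) && decide (0 ≤ a.2.2.2.2) && ordq c a.2.1 l

/-- A slab certificate: two heights and two chains of the same length. -/
abbrev Slab : Type := ℚ × ℚ × List (Wt × Wt) × List (Wt × Wt)

/-- The numbers of a slab certificate. -/
def slq (P : List PT) (i : Fin 3) (a : Slab) : Q5 :=
  (a.1, a.2.1, trap (chainOf P i a.2.2.1), mix (chainOf P i a.2.2.1) (chainOf P i a.2.2.2),
    trap (chainOf P i a.2.2.2))

/-- Check of the slabs. -/
def okL (P : List PT) (i : Fin 3) (L : List Slab) (c : ℚ) : Bool :=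
  ordq c 0 (L.map (slq P i)) && L.all fun a => okS P i a.1 a.2.2.1 && okS P i a.2.1 a.2.2.2 &&
    decide (a.2.2.1.length = a.2.2.2.length)

/-- Check of a certificate with a tail: slabs, cut `c` with its slice. -/
def chkV (P : List PT) (i : Fin 3) (τ : ℚ) (L : List Slab) (c : ℚ) (S : List (Wt × Wt)) : Bool :=
  decide (0 ≤ τ) && okL P i L c && okS P i c S && decide (0 < trap (chainOf P i S)) &&
  decide (3 / 4 * (11 / 3 - vq (L.map (slq P i))) ^ 2 ≤
    trap (chainOf P i S) * (mq c (L.map (slq P i)) - 11 / 3 * (c - τ)))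

/-- Check of a certificate whose slabs carry the whole volume. -/
def chkF (P : List PT) (i : Fin 3) (τ : ℚ) (L : List Slab) (c : ℚ) : Bool :=
  decide (0 ≤ τ) && okL P i L c && decide (11 / 3 ≤ vq (L.map (slq P i))) &&
  decide (11 / 3 * (c - τ) ≤ mq c (L.map (slq P i)))

section
variable {κ : Type} [Field κ]

/-- Standing hypotheses on a system. -/
structure CtxV (U : ℕ → Submodule κ (PS κ)) (V : ℝ) : Prop where
  sys : Sys U
  vol : Vol U V
  le : V ≤ 11 / 3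

/-- The system of the parametrisation satisfies the local statement. -/
def LocV {σ : Type} (Ψ : σ → PS κ) : Prop :=
  1 ∈ UU κ Ψ 1 ∧ (∀ j, MvPowerSeries.X j ∈ UU κ Ψ 1) ∧ Vol (UU κ Ψ) (11 / 3) ∧
    ∀ V, Vol (UU κ Ψ) V → V ≤ 11 / 3 → Loc (UU κ Ψ) V

/-- `g` is the leading form of weight `k` of a member of `W`. -/
def LdIn (w : Fin 3 → ℕ) (k : ℕ) (W : Submodule κ (PS κ)) (g : PS κ) : Prop :=
  ∃ f ∈ W, Ld w k f g

variable {w : Fin 3 → ℕ} {k : ℕ} {W : Submodule κ (PS κ)} {g g' : PS κ}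

theorem LdIn.add (h : LdIn w k W g) (h' : LdIn w k W g') : LdIn w k W (g + g') := by
  obtain ⟨f, a, b⟩ := h
  obtain ⟨f', a', b'⟩ := h'
  exact ⟨f + f', add_mem a a', b.add b'⟩

theorem LdIn.sub (h : LdIn w k W g) (h' : LdIn w k W g') : LdIn w k W (g - g') := by
  obtain ⟨f, a, b⟩ := h
  obtain ⟨f', a', b'⟩ := h'
  exact ⟨f - f', sub_mem a a', b.sub b'⟩

theorem LdIn.smul (c : κ) (h : LdIn w k W g) : LdIn w k W (c • g) := by
  obtain ⟨f, a, b⟩ := h
  exact ⟨c • f, W.smul_mem c a, b.smul c⟩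

theorem LdIn.congr (h : LdIn w k W g) (e : g' = g) : LdIn w k W g' := e ▸ h

theorem LdIn.mul {U : ℕ → Submodule κ (PS κ)} (hU : Sys U) {M M' l : ℕ}
    (h : LdIn w k (U M) g) (h' : LdIn w l (U M') g') : LdIn w (k + l) (U (M + M')) (g * g') := by
  obtain ⟨f, a, b⟩ := h
  obtain ⟨f', a', b'⟩ := h'
  exact ⟨f * f', hU.mul _ _ _ _ a a', b.mul b'⟩

theorem LdIn.pt {U : ℕ → Submodule κ (PS κ)} {A : Rows} {M : ℕ} {γ : Ex} (hA : First A w)
    (h : LdIn w k (U M) g) (hg : Init A g γ) : Pt A U M γ := by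
  obtain ⟨f, a, b⟩ := h
  exact ⟨f, a, b.init hA hg⟩

theorem LdIn.gr {U : ℕ → Submodule κ (PS κ)} {M : ℕ} (h : LdIn w k (U M) g) : g ∈ Gr w U M := by
  obtain ⟨f, a, b⟩ := h
  exact Submodule.subset_span ⟨f, a, k, b⟩

end

end Pool.Agent.P.MP_6149fc_ag.V22
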