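import Pool.Agent.P.MP_6149fc_ag.V22.BaseN

/-! The leading forms at a point with a fixed triple line. -/

set_option autoImplicit false

namespace Pool.Agent.P.MP_6149fc_ag.V22

open Pool.Agent.P.MP_6149fc_ag.V18
open MvPowerSeries (coeff X constantCoeff monomial)

section
variable {C : Type} [CommRing C]

def n03 (e x y z : C) : C := x * (e * bH x y z) - bq x y z * y
def n13 (e x y z : C) : C := y * (e * bH x y z) - bq x y z * z
def n14 (e f x y z : C) : C := y * (f * bK x y z) - e * bH x y z * z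
def n23 (e x y z : C) : C := z * (e * bH x y z) - bq x y z * bq x y z
def n24 (e f x y z : C) : C := z * (f * bK x y z) - e * bH x y z * bq x y z
def n34 (e f x y z : C) : C := bq x y z * (f * bK x y z) - e * bH x y z * (e * bH x y z)
def n012 (e x y z : C) : C := x * n23 e x y z - y * n13 e x y z + z * bK x y z
def n013 (e f x y z : C) : C := x * n24 e f x y z - y * n14 e f x y z + bq x y z * bK x y z
def n023 (e f x y z : C) : C := x * n34 e f x y z - z * n14 e f x y z + bq x y z * n13 e x y z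
def n123 (e f x y z : C) : C := y * n34 e f x y z - z * n24 e f x y z + bq x y z * n23 e x y z

end

/-- The order in the chart `thP`. -/
def AP2 : Rows := ![![1, 0, 0], ![0, 2, 5], ![0, 0, 1]]

def P_fZ : List PT := [(1, 0, 0, 4), (1, 0, 1, 3), (1, 1, 0, 3)]
def P_fY : List PT := [(1, 0, 6, 0)]
def P_fP : List PT :=
  [(1, 1, 0, 0), (1, 3, 2, 0), (1, 4, 0, 1), (1, 9, 0, 2), (1, 11, 0, 2), (1, 12, 1, 2), (2, 12, 5, 1)]
def P_fL11a : List PT := [(1, 11, 0, 0), (2, 2, 1, 0), (2, 3, 0, 1)]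
def P_fL11b : List PT := [(1, 11, 0, 0), (2, 2, 1, 0), (2, 6, 0, 1)]
def P_fL12a : List PT := [(1, 12, 0, 0), (2, 2, 1, 0), (2, 3, 0, 1)]
def P_fL12b : List PT := [(1, 12, 0, 0), (2, 2, 1, 0), (2, 6, 0, 1)]

section
variable {κ : Type} [Field κ]

open MvPowerSeries (C)

/-- The leading forms lie in `W`. -/
structure E3in (e f : κ) (W : Submodule κ (PS κ)) (x y z : PS κ) : Prop where
  hx : x ∈ W
  hy : y ∈ W
  hz : z ∈ W
  hq : bq x y z ∈ W
  hH : bH x y z ∈ W
  hK : bK x y z ∈ W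
  h03 : n03 (C e) x y z ∈ W
  h14 : n14 (C e) (C f) x y z ∈ W
  h012 : n012 (C e) x y z ∈ W
  h013 : n013 (C e) (C f) x y z ∈ W
  h023 : n023 (C e) (C f) x y z ∈ W
  h123 : n123 (C e) (C f) x y z ∈ W

/-- The relation between the two parameters. -/
structure EF (e f : κ) : Prop where
  he : e ≠ 0
  hf : f ≠ 0
  rel : f - e = e * f

theorem EF.sub {e f : κ} (h : EF e f) : f - e ≠ 0 := h.rel ▸ mul_ne_zero h.he h.hf

theorem EF.one {e f : κ} (h : EF e f) : e - 1 ≠ 0 := fun k =>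
  one_ne_zero (α := κ) (by linear_combination -h.rel - (1 + f) * k)

theorem EF.succ {e f : κ} (h : EF e f) : f + 1 ≠ 0 := fun k =>
  one_ne_zero (α := κ) (by linear_combination -h.rel + (1 - e) * k)

/-- The bounds for sums of initial exponents in all charts. -/
def SumsE (G : ℕ → Submodule κ (PS κ)) (V : ℝ) : Prop :=
  (SumLe AZ G 0 1 V ∧ SumLe AZ G 1 1 V) ∧ (SumLe AY G 0 1 V ∧ SumLe AY G 2 1 V) ∧
    ∀ (κ' : Type) [Field κ'] [Algebra κ κ'],
      (SumLe AP2 (Pull κ' (thP κ') G) 0 6 V ∧ SumLe AP2 (Pull κ' (thP κ') G) 1 1 V ∧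
        SumLe AP2 (Pull κ' (thP κ') G) 2 1 V) ∧
      (∀ c : κ', c ≠ 0 → SumLe lexA (Pull κ' (thT c) G) 1 1 V ∧
        SumLe lexA (Pull κ' (thT c) G) 2 1 V) ∧
      ∀ c d : κ', (c ≠ 0 ∨ d ≠ 0) →
        SumLe lexA (Pull κ' (thL c d) G) 1 1 V ∧ SumLe lexA (Pull κ' (thL c d) G) 2 1 V

theorem gtL {A : Rows} {a b c : ℕ} : ∀ (E : List (ℕ × ℕ × ℕ)) (L : List κ),
    (∀ p ∈ E, ltA A a b c p.1 p.2.1 p.2.2) →
    (List.zipWith (fun p t => t • mon κ p.1 p.2.1 p.2.2) E L).sum ∈ GtK κ A (ex a b c)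
  | [], _, _ => zero_mem _
  | _ :: _, [], _ => zero_mem _
  | p :: E, t :: L, h => add_mem (Submodule.smul_mem _ t (mon_gt (h p List.mem_cons_self)))
      (gtL E L fun q hq => h q (List.mem_cons_of_mem _ hq))

/-- An initial exponent from an explicit expansion. -/
theorem ptL {A : Rows} {U : ℕ → Submodule κ (PS κ)} {M a b c : ℕ} {g : PS κ} (hg : g ∈ U M)
    {t : κ} (ht : t ≠ 0) (E : List (ℕ × ℕ × ℕ)) (L : List κ)
    (hE : ∀ p ∈ E, ltA A a b c p.1 p.2.1 p.2.2)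
    (h : g = t • mon κ a b c + (List.zipWith (fun p t => t • mon κ p.1 p.2.1 p.2.2) E L).sum) :
    Pt A U M (ex a b c) := ⟨g, hg, init_of ht (gtL E L hE) h⟩

end

end Pool.Agent.P.MP_6149fc_ag.V22
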