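import Pool.Agent.P.MP_6149fc_ag.V18.Defs

/-!
Prime Fano threefolds of genus twelve: the three dimensional subspaces of a seven dimensional
space that are isotropic for three alternating forms.
-/

namespace Pool.Agent.P.MP_6149fc_ag.V22

open MvPolynomial

/-- Equations in the coordinates `P i j k`: skew symmetry, the Plücker quadrics of `Gr(3, 7)`,
and the contractions with three bilinear forms `ω s` (only their alternating parts matter). -/
def equations (ω : Fin 3 → Fin 7 → Fin 7 → ℂ) :
    Set (MvPolynomial (Fin 7 × Fin 7 × Fin 7) ℂ) :=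
  {G | (∃ i j k, G = X (i, j, k) + X (j, i, k)) ∨ (∃ i j k, G = X (i, j, k) + X (i, k, j)) ∨
    (∃ i j a b c d, G = X (i, j, a) * X (b, c, d) - X (i, j, b) * X (a, c, d) +
      X (i, j, c) * X (a, b, d) - X (i, j, d) * X (a, b, c)) ∨
    ∃ s k, G = ∑ i, ∑ j, C (ω s i j) * X (i, j, k)}

end Pool.Agent.P.MP_6149fc_ag.V22
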