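import Pool.Agent.P.MP_6149fc_ag.V22.BaseC
import Pool.Agent.P.MP_6149fc_ag.V22.Defs

/-! Three-vectors, nets of forms, the Hankel chart and the normal form. -/

set_option autoImplicit false

namespace Pool.Agent.P.MP_6149fc_ag.V22

open Pool.Agent.P.MP_6149fc_ag.V18
open MvPowerSeries (coeff X constantCoeff monomial)
open Matrix

/-- Indices of the Plücker coordinates. -/
abbrev I3 : Type := Fin 7 × Fin 7 × Fin 7
/-- Bilinear forms. -/
abbrev Fm (κ : Type) : Type := Matrix (Fin 7) (Fin 7) κ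

/-- Skew symmetry and the Plücker quadrics. -/
structure Pl {C : Type} [CommRing C] (P : I3 → C) : Prop where
  z : ∀ i k, P (i, i, k) = 0
  s1 : ∀ i j k, P (i, j, k) + P (j, i, k) = 0
  s2 : ∀ i j k, P (i, j, k) + P (i, k, j) = 0
  q : ∀ i j a b c d, P (i, j, a) * P (b, c, d) - P (i, j, b) * P (a, c, d) +
    P (i, j, c) * P (a, b, d) - P (i, j, d) * P (a, b, c) = 0

/-- The maximal minors of a matrix with three rows. -/
def mn {C : Type} [CommRing C] (M : Fin 3 → Fin 7 → C) (t : I3) : C :=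
  M 0 t.1 * (M 1 t.2.1 * M 2 t.2.2 - M 1 t.2.2 * M 2 t.2.1) -
    M 0 t.2.1 * (M 1 t.1 * M 2 t.2.2 - M 1 t.2.2 * M 2 t.1) +
    M 0 t.2.2 * (M 1 t.1 * M 2 t.2.1 - M 1 t.2.1 * M 2 t.1)

theorem pl_mn {C : Type} [CommRing C] (M : Fin 3 → Fin 7 → C) : Pl (mn M) :=
  ⟨fun i k => by simp only [mn]; ring, fun i j k => by simp only [mn]; ring,
    fun i j k => by simp only [mn]; ring, fun i j a b c d => by simp only [mn]; ring⟩

theorem map_mn {C C' : Type} [CommRing C] [CommRing C'] (φ : C →+* C') (M : Fin 3 → Fin 7 → C)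
    (t : I3) : φ (mn M t) = mn (fun r i => φ (M r i)) t := by
  simp only [mn, map_add, map_sub, map_mul]

theorem Pl.map {C C' : Type} [CommRing C] [CommRing C'] (φ : C →+* C') {P : I3 → C} (h : Pl P) :
    Pl fun t => φ (P t) :=
  ⟨fun i k => by rw [h.z, map_zero], fun i j k => by rw [← map_add, h.s1, map_zero],
    fun i j k => by rw [← map_add, h.s2, map_zero], fun i j a b c d => by
      simp only [← map_mul, ← map_sub, ← map_add, h.q, map_zero]⟩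

theorem Pl.mul {C : Type} [CommRing C] (u : C) {P : I3 → C} (h : Pl P) : Pl fun t => u * P t :=
  ⟨fun i k => by rw [h.z, mul_zero], fun i j k => by rw [← mul_add, h.s1, mul_zero],
    fun i j k => by rw [← mul_add, h.s2, mul_zero], fun i j a b c d => by
      linear_combination u * u * h.q i j a b c d⟩

section
variable {κ : Type} [Field κ] {C : Type} [CommRing C] [Algebra κ C]

/-- The contraction of a three-vector with a form. -/
def ctr (w : Fm κ) (P : I3 → C) (k : Fin 7) : C := ∑ i, ∑ j, w i j • P (i, j, k)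

/-- The alternating part of a form on two vectors. -/
def fm (w : Fm κ) (u v : Fin 7 → C) : C := ∑ i, ∑ j, w i j • (u i * v j - u j * v i)

/-- All equations. -/
def EQ (ω : Fin 3 → Fm κ) (P : I3 → C) : Prop := Pl P ∧ ∀ s k, ctr (ω s) P k = 0

theorem ctr_mn (w : Fm κ) (M : Fin 3 → Fin 7 → C) (k : Fin 7) : ctr w (mn M) k =
    fm w (M 0) (M 1) * M 2 k - fm w (M 0) (M 2) * M 1 k + fm w (M 1) (M 2) * M 0 k := by
  simp only [ctr, fm, Finset.sum_mul, ← Finset.sum_sub_distrib, ← Finset.sum_add_distrib]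
  refine Finset.sum_congr rfl fun i _ => Finset.sum_congr rfl fun j _ => ?_
  simp only [mn, Algebra.smul_def]
  ring

theorem ctr_mul (w : Fm κ) (u : C) (P : I3 → C) (k : Fin 7) :
    ctr w (fun t => u * P t) k = u * ctr w P k := by
  simp only [ctr, Finset.mul_sum, mul_smul_comm]

theorem map_ctr {C' : Type} [CommRing C'] [Algebra κ C'] (φ : C →ₐ[κ] C') (w : Fm κ)
    (P : I3 → C) (k : Fin 7) : φ (ctr w P k) = ctr w (fun t => φ (P t)) k := by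
  simp only [ctr, map_sum, map_smul]

theorem map_fm {C' : Type} [CommRing C'] [Algebra κ C'] (φ : C →ₐ[κ] C') (w : Fm κ)
    (u v : Fin 7 → C) : φ (fm w u v) = fm w (fun i => φ (u i)) fun i => φ (v i) := by
  simp only [fm, map_sum, map_smul, map_sub, map_mul]

theorem fm_self (w : Fm κ) (u : Fin 7 → C) : fm w u u = 0 := by
  simp only [fm, mul_comm, sub_self, smul_zero, Finset.sum_const_zero]

theorem fm_swap (w : Fm κ) (u v : Fin 7 → C) : fm w v u = -fm w u v := by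
  simp only [fm, ← Finset.sum_neg_distrib, ← smul_neg]
  refine Finset.sum_congr rfl fun i _ => Finset.sum_congr rfl fun j _ => ?_
  congr 1
  ring

theorem fm_add_left (w : Fm κ) (u u' v : Fin 7 → C) : fm w (u + u') v = fm w u v + fm w u' v := by
  simp only [fm, ← Finset.sum_add_distrib, ← smul_add, Pi.add_apply]
  refine Finset.sum_congr rfl fun i _ => Finset.sum_congr rfl fun j _ => ?_
  congr 1
  ring

theorem fm_smul_left (w : Fm κ) (c : C) (u v : Fin 7 → C) : fm w (c • u) v = c * fm w u v := by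
  simp only [fm, Finset.mul_sum, mul_smul_comm, Pi.smul_apply, smul_eq_mul]
  refine Finset.sum_congr rfl fun i _ => Finset.sum_congr rfl fun j _ => ?_
  congr 1
  ring

theorem fm_add_right (w : Fm κ) (u v v' : Fin 7 → C) :
    fm w u (v + v') = fm w u v + fm w u v' := by
  rw [fm_swap, fm_add_left, fm_swap w u v, fm_swap w u v']; ring

theorem fm_smul_right (w : Fm κ) (c : C) (u v : Fin 7 → C) : fm w u (c • v) = c * fm w u v := by
  rw [fm_swap, fm_smul_left, fm_swap w u v]; ring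

/-- Over the ground field the alternating part is given by the skew matrix `w - wᵀ`. -/
theorem fm_eq (w : Fm κ) (u v : Fin 7 → κ) : fm w u v = u ⬝ᵥ ((w - wᵀ) *ᵥ v) := by
  simp only [fm, dotProduct, mulVec, Matrix.sub_apply, transpose_apply, smul_eq_mul, mul_sub,
    sub_mul, Finset.sum_sub_distrib, Finset.mul_sum]
  congr 1
  · exact Finset.sum_congr rfl fun i _ => Finset.sum_congr rfl fun j _ => by ring
  · rw [Finset.sum_comm]
    exact Finset.sum_congr rfl fun i _ => Finset.sum_congr rfl fun j _ => by ring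

theorem EQ.map {C' : Type} [CommRing C'] [Algebra κ C'] (φ : C →ₐ[κ] C') {ω : Fin 3 → Fm κ}
    {P : I3 → C} (h : EQ ω P) : EQ ω fun t => φ (P t) :=
  ⟨h.1.map (φ : C →+* C'), fun s k => by rw [← map_ctr, h.2, map_zero]⟩

theorem EQ.mul {ω : Fin 3 → Fm κ} {P : I3 → C} (u : C) (h : EQ ω P) : EQ ω fun t => u * P t :=
  ⟨h.1.mul u, fun s k => by rw [ctr_mul, h.2, mul_zero]⟩

theorem eq_mn {ω : Fin 3 → Fm κ} {M : Fin 3 → Fin 7 → C} (h : ∀ s a b, fm (ω s) (M a) (M b) = 0) :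
    EQ ω (mn M) := ⟨pl_mn M, fun s k => by rw [ctr_mn, h, h, h]; ring⟩

/-- The action of a matrix on three-vectors: `mn (M * g) = act g (mn M)`. -/
def act (g : Fm κ) (P : I3 → C) (t : I3) : C :=
  ∑ a, ∑ b, ∑ c, (g a t.1 * g b t.2.1 * g c t.2.2) • P (a, b, c)

end

section
variable {κ : Type} [Field κ]

/-- The point `P + ε v` over the dual numbers. -/
def dual3 (P v : I3 → κ) : I3 → DualNumber κ :=
  fun t => TrivSqZeroExt.inl (P t) + TrivSqZeroExt.inr (v t)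

/-- Smoothness: five tangent vectors of the cone are dependent. -/
def Sm3 (ω : Fin 3 → Fm κ) : Prop :=
  ∀ P : I3 → κ, P ≠ 0 → EQ ω P → ∀ v : Fin 5 → I3 → κ, (∀ a, EQ ω (dual3 P (v a))) →
    ¬ LinearIndependent κ v

/-- Smoothness as transversality at every isotropic subspace. -/
def Tv (ω : Fin 3 → Fm κ) : Prop :=
  ∀ M : Fin 3 → Fin 7 → κ, LinearIndependent κ M → (∀ s a b, fm (ω s) (M a) (M b) = 0) →
    ∀ β : Fin 3 → Fin 3 → κ,
      (∀ v, ∑ s, (β s 2 * fm (ω s) (M 1) v + β s 1 * fm (ω s) (M 2) v) = 0) →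
      (∀ v, ∑ s, (β s 2 * fm (ω s) (M 0) v - β s 0 * fm (ω s) (M 2) v) = 0) →
      (∀ v, ∑ s, (β s 1 * fm (ω s) (M 0) v + β s 0 * fm (ω s) (M 1) v) = 0) → β = 0

/-- A parametrisation at `x` that satisfies the local statement. -/
def GoalV (ω : Fin 3 → Fm κ) (x : I3 → κ) : Prop :=
  ∃ Ψ : I3 → PS κ, LocV Ψ ∧
    ∀ (L : Type) [Field L] [Algebra κ L] (p : I3 → PowerSeries L), EQ ω p →
      (∀ t, PowerSeries.constantCoeff (p t) = algebraMap κ L (x t)) →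
      ∃ (u : PowerSeries L) (z : Fin 3 → PowerSeries L), Cen z ∧ ∀ t, p t = u * sub z (Ψ t)

/-- The two nets define the same scheme. -/
def Same (ω ω' : Fin 3 → Fm κ) : Prop :=
  ∀ (C : Type) [CommRing C] [Algebra κ C] (P : I3 → C), EQ ω P ↔ EQ ω' P

/-- Smoothness passes from `(ω, x)` to `(ω', x')` and the local statement passes back. -/
def Rel (ω : Fin 3 → Fm κ) (x : I3 → κ) (ω' : Fin 3 → Fm κ) (x' : I3 → κ) : Prop :=
  (Sm3 ω → Sm3 ω') ∧ (GoalV ω' x' → GoalV ω x)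

theorem Rel.trans {ω ω' ω'' : Fin 3 → Fm κ} {x x' x'' : I3 → κ} (h : Rel ω x ω' x')
    (h' : Rel ω' x' ω'' x'') : Rel ω x ω'' x'' := ⟨h'.1 ∘ h.1, h.2 ∘ h'.2⟩

theorem Same.rel {ω ω' : Fin 3 → Fm κ} (h : Same ω ω') (x : I3 → κ) : Rel ω x ω' x :=
  ⟨fun hs P h0 hP v hv => hs P h0 ((h κ P).2 hP) v fun a => (h _ _).2 (hv a),
    fun ⟨Ψ, h1, h2⟩ => ⟨Ψ, h1, fun L _ _ p hp => h2 L p ((h _ p).1 hp)⟩⟩

/-- A skew matrix whose kernel has dimension at most one. -/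
def K1 {n : Type} [Fintype n] (S : Matrix n n κ) : Prop :=
  ∀ u v : n → κ, S *ᵥ u = 0 → S *ᵥ v = 0 → ¬ LinearIndependent κ ![u, v]

/-- The skew matrix of a member of the net. -/
def sk (ω : Fin 3 → Fm κ) (c : Fin 3 → κ) : Fm κ := ∑ s, c s • (ω s - (ω s)ᵀ)

/-- Every nonzero member of the net has rank six. -/
def ND (ω : Fin 3 → Fm κ) : Prop := ∀ c : Fin 3 → κ, c ≠ 0 → K1 (sk ω c)

/-- All coefficient vectors of a polynomial vector are parallel. -/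
def PC {n : Type} (v : n → Polynomial κ) : Prop :=
  ∀ i j a b, (v i).coeff a * (v j).coeff b = (v j).coeff a * (v i).coeff b

/-! ### Block form -/

/-- The form with blocks `0, B, 0, D`. -/
def bf (B : Matrix (Fin 3) (Fin 4) κ) (D : Matrix (Fin 4) (Fin 4) κ) : Fm κ :=
  !![0, 0, 0, B 0 0, B 0 1, B 0 2, B 0 3;
    0, 0, 0, B 1 0, B 1 1, B 1 2, B 1 3;
    0, 0, 0, B 2 0, B 2 1, B 2 2, B 2 3;
    0, 0, 0, D 0 0, D 0 1, D 0 2, D 0 3;
    0, 0, 0, D 1 0, D 1 1, D 1 2, D 1 3;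
    0, 0, 0, D 2 0, D 2 1, D 2 2, D 2 3;
    0, 0, 0, D 3 0, D 3 1, D 3 2, D 3 3]

/-- The matrix with blocks `P, 0, ψ, R`. -/
def blk (P : Matrix (Fin 3) (Fin 3) κ) (ψ : Matrix (Fin 4) (Fin 3) κ)
    (R : Matrix (Fin 4) (Fin 4) κ) : Fm κ :=
  !![P 0 0, P 0 1, P 0 2, 0, 0, 0, 0;
    P 1 0, P 1 1, P 1 2, 0, 0, 0, 0;
    P 2 0, P 2 1, P 2 2, 0, 0, 0, 0;
    ψ 0 0, ψ 0 1, ψ 0 2, R 0 0, R 0 1, R 0 2, R 0 3;
    ψ 1 0, ψ 1 1, ψ 1 2, R 1 0, R 1 1, R 1 2, R 1 3;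
    ψ 2 0, ψ 2 1, ψ 2 2, R 2 0, R 2 1, R 2 2, R 2 3;
    ψ 3 0, ψ 3 1, ψ 3 2, R 3 0, R 3 1, R 3 2, R 3 3]

/-- The net in block form. -/
def bnet (B : Fin 3 → Matrix (Fin 3) (Fin 4) κ) (D : Fin 3 → Matrix (Fin 4) (Fin 4) κ) :
    Fin 3 → Fm κ := fun s => bf (B s) (D s)

/-- The first member of the standard pencil. -/
def pA (κ : Type) [Field κ] : Matrix (Fin 3) (Fin 4) κ := !![1, 0, 0, 0; 0, 1, 0, 0; 0, 0, 1, 0]
/-- The second member of the standard pencil. -/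
def pB (κ : Type) [Field κ] : Matrix (Fin 3) (Fin 4) κ := !![0, 1, 0, 0; 0, 0, 1, 0; 0, 0, 0, 1]

/-- The matrix `(A | γ)`. -/
def aug (A : Matrix (Fin 3) (Fin 3) κ) (γ : Fin 3 → κ) : Matrix (Fin 3) (Fin 4) κ :=
  !![A 0 0, A 0 1, A 0 2, γ 0; A 1 0, A 1 1, A 1 2, γ 1; A 2 0, A 2 1, A 2 2, γ 2]

/-- The determinant of `γ, A γ, A ^ 2 γ`. -/
def kal {C : Type} [CommRing C] (A : Matrix (Fin 3) (Fin 3) C) (γ : Fin 3 → C) : C :=
  (Matrix.of ![γ, A *ᵥ γ, A *ᵥ (A *ᵥ γ)]).det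

/-- Polynomial families of kernel vectors of low degree are projectively constant. -/
def HK (B : Fin 3 → Matrix (Fin 3) (Fin 4) κ) : Prop :=
  ∀ c u : Fin 3 → Polynomial κ, c ≠ 0 → u ≠ 0 → (∀ i, (u i).natDegree ≤ 2) →
    (∀ k, ∑ s, ∑ i, c s * u i * Polynomial.C (B s i k) = 0) → PC c ∧ PC u

end

/-! ### The Hankel chart -/

section
variable {C : Type} [CommRing C]

/-- The matrix `(1 | Hankel)`. -/
def hk (a : Fin 6 → C) : Fin 3 → Fin 7 → C :=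
  ![![1, 0, 0, a 0, a 1, a 2, a 3], ![0, 1, 0, a 1, a 2, a 3, a 4], ![0, 0, 1, a 2, a 3, a 4, a 5]]

/-- The determinant of three columns. -/
def d3 (a b c d e f g h i : C) : C := a * (e * i - f * h) - b * (d * i - f * g) + c * (d * h - e * g)

/-- The twenty one sections `1, a0 .. a5, m01, m02, m03, m04, m12, m13, m14, m23, m24, m34,
c012, c013, c023, c123`. -/
def sec (a : Fin 6 → C) : Fin 21 → C :=
  ![1, a 0, a 1, a 2, a 3, a 4, a 5, a 0 * a 2 - a 1 * a 1, a 0 * a 3 - a 2 * a 1,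
    a 0 * a 4 - a 3 * a 1, a 0 * a 5 - a 4 * a 1, a 1 * a 3 - a 2 * a 2, a 1 * a 4 - a 3 * a 2,
    a 1 * a 5 - a 4 * a 2, a 2 * a 4 - a 3 * a 3, a 2 * a 5 - a 4 * a 3, a 3 * a 5 - a 4 * a 4,
    d3 (a 0) (a 1) (a 2) (a 1) (a 2) (a 3) (a 2) (a 3) (a 4),
    d3 (a 0) (a 1) (a 3) (a 1) (a 2) (a 4) (a 2) (a 3) (a 5),
    d3 (a 0) (a 2) (a 3) (a 1) (a 3) (a 4) (a 2) (a 4) (a 5),
    d3 (a 1) (a 2) (a 3) (a 2) (a 3) (a 4) (a 3) (a 4) (a 5)]

theorem map_sec {C' : Type} [CommRing C'] (φ : C →+* C') (a : Fin 6 → C) (i : Fin 21) :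
    φ (sec a i) = sec (fun j => φ (a j)) i := by
  fin_cases i <;> simp [sec, d3]

theorem map_hk {C' : Type} [CommRing C'] (φ : C →+* C') (a : Fin 6 → C) (r : Fin 3) (i : Fin 7) :
    φ (hk a r i) = hk (fun j => φ (a j)) r i := by
  fin_cases r <;> fin_cases i <;> simp [hk]

end

section
variable {κ : Type} [Field κ]

/-- The base point. -/
def e3 (κ : Type) [Field κ] : I3 → κ := mn (hk (0 : Fin 6 → κ))

/-- The data of the third form: two quartics `g1 = ∑ p_i t ^ i`, `g2 = ∑ r_i t ^ i` and a skew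
matrix. -/
structure Dat (κ : Type) where
  (p0 p1 p2 p3 p4 r0 r1 r2 r3 r4 c01 c02 c03 c12 c13 c23 : κ)

/-- The first quartic. -/
def Dat.g1 (d : Dat κ) (t : κ) : κ := d.p0 + d.p1 * t + d.p2 * t ^ 2 + d.p3 * t ^ 3 + d.p4 * t ^ 4
/-- The second quartic. -/
def Dat.g2 (d : Dat κ) (t : κ) : κ := d.r0 + d.r1 * t + d.r2 * t ^ 2 + d.r3 * t ^ 3 + d.r4 * t ^ 4

/-- The mixed block of the third form. -/
def Dat.E (d : Dat κ) : Matrix (Fin 3) (Fin 4) κ :=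
  !![d.r1, d.r2, d.r3 + d.p4, d.r4; -d.r0, 0, 0, d.p4; -d.p0, -(d.r0 + d.p1), -d.p2, -d.p3]
/-- The last block of the third form. -/
def Dat.D (d : Dat κ) : Matrix (Fin 4) (Fin 4) κ :=
  !![0, d.c01, d.c02, d.c03; 0, 0, d.c12, d.c13; 0, 0, 0, d.c23; 0, 0, 0, 0]

/-- The net in normal form. -/
def net (d : Dat κ) : Fin 3 → Fm κ := bnet ![pA κ, pB κ, d.E] ![0, 0, d.D]

/-- The data of an arbitrary third form. -/
def datOf (E : Matrix (Fin 3) (Fin 4) κ) (D : Matrix (Fin 4) (Fin 4) κ) : Dat κ :=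
  ⟨-E 2 0, E 1 0 - E 2 1, E 1 1 - E 2 2, E 1 2 - E 2 3, E 1 3,
    -E 1 0, E 0 0 - E 1 1, E 0 1 - E 1 2, E 0 2 - E 1 3, E 0 3,
    D 0 1 - D 1 0, D 0 2 - D 2 0, D 0 3 - D 3 0, D 1 2 - D 2 1, D 1 3 - D 3 1, D 2 3 - D 3 2⟩

/-- The relation between two normal forms. -/
def RelD (d d' : Dat κ) : Prop := Rel (net d) (e3 κ) (net d') (e3 κ)

/-- The statement for a normal form. -/
def TD (d : Dat κ) : Prop := Sm3 (net d) → GoalV (net d) (e3 κ)

theorem RelD.td {d d' : Dat κ} (h : RelD d d') (h' : TD d') : TD d := fun hs => h.2 (h' (h.1 hs))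

/-- Translation `t ↦ t + c`. -/
def shfD (c : κ) (d : Dat κ) : Dat κ :=
  ⟨d.g1 c - c * d.g2 c,
    (d.p1 - c * d.r1) + 2 * c * (d.p2 - c * d.r2) + 3 * c ^ 2 * (d.p3 - c * d.r3) +
      4 * c ^ 3 * (d.p4 - c * d.r4),
    (d.p2 - c * d.r2) + 3 * c * (d.p3 - c * d.r3) + 6 * c ^ 2 * (d.p4 - c * d.r4),
    (d.p3 - c * d.r3) + 4 * c * (d.p4 - c * d.r4), d.p4 - c * d.r4,
    d.g2 c, d.r1 + 2 * c * d.r2 + 3 * c ^ 2 * d.r3 + 4 * c ^ 3 * d.r4,
    d.r2 + 3 * c * d.r3 + 6 * c ^ 2 * d.r4, d.r3 + 4 * c * d.r4, d.r4,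
    d.c01 + 2 * c * d.c02 + 3 * c ^ 2 * d.c03 + c ^ 2 * d.c12 + 2 * c ^ 3 * d.c13 + c ^ 4 * d.c23,
    d.c02 + 3 * c * d.c03 + c * d.c12 + 3 * c ^ 2 * d.c13 + 2 * c ^ 3 * d.c23,
    d.c03 + c * d.c13 + c ^ 2 * d.c23, d.c12 + 3 * c * d.c13 + 3 * c ^ 2 * d.c23,
    d.c13 + 2 * c * d.c23, d.c23⟩

/-- Inversion `t ↦ 1 / t`. -/
def swpD (d : Dat κ) : Dat κ :=
  ⟨d.r4, d.r3, d.r2, d.r1, d.r0, d.p4, d.p3, d.p2, d.p1, d.p0,
    d.c23, d.c13, d.c03, d.c12, d.c02, d.c01⟩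

/-- Scaling `t ↦ s t`. -/
def torD (s : κ) (d : Dat κ) : Dat κ :=
  ⟨d.p0, s * d.p1, s ^ 2 * d.p2, s ^ 3 * d.p3, s ^ 4 * d.p4,
    s * d.r0, s ^ 2 * d.r1, s ^ 3 * d.r2, s ^ 4 * d.r3, s ^ 5 * d.r4,
    s * d.c01, s ^ 2 * d.c02, s ^ 3 * d.c03, s ^ 3 * d.c12, s ^ 4 * d.c13, s ^ 5 * d.c23⟩

/-- Scaling of the quartics by `s` and of the skew matrix by `s'`. -/
def sclD (s s' : κ) (d : Dat κ) : Dat κ :=
  ⟨s * d.p0, s * d.p1, s * d.p2, s * d.p3, s * d.p4,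
    s * d.r0, s * d.r1, s * d.r2, s * d.r3, s * d.r4,
    s' * d.c01, s' * d.c02, s' * d.c03, s' * d.c12, s' * d.c13, s' * d.c23⟩

/-- The linear parts of the three equations. -/
def Dat.lin (d : Dat κ) : Fin 3 → Fin 6 → κ :=
  ![![d.r0, d.r1, d.r2, d.r3, d.r4, 0],
    ![d.p0, d.p1 + d.r0, d.p2 + d.r1, d.p3 + d.r2, d.p4 + d.r3, d.r4],
    ![0, d.p0, d.p1, d.p2, d.p3, d.p4]]

/-- The three equations as combinations of the sections. -/
def Dat.eqn (d : Dat κ) : Fin 3 → Fin 21 → κ :=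
  ![![0, d.r0, d.r1, d.r2, d.r3, d.r4, 0, d.c01, d.c02, d.c03, 0, d.c12, d.c13, 0, d.c23, 0, 0,
      0, 0, 0, 0],
    ![0, d.p0, d.p1 + d.r0, d.p2 + d.r1, d.p3 + d.r2, d.p4 + d.r3, d.r4, 0, d.c01, d.c02, d.c03,
      d.c02, d.c03 + d.c12, d.c13, d.c13, d.c23, 0, 0, 0, 0, 0],
    ![0, 0, d.p0, d.p1, d.p2, d.p3, d.p4, 0, 0, 0, 0, d.c01, d.c02, d.c03, d.c12, d.c13, d.c23,
      0, 0, 0, 0]]

/-- A linear form in twenty one variables evaluated at a point. -/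
def dot21 {C : Type} [CommRing C] [Algebra κ C] (l : Fin 21 → κ) (q : Fin 21 → C) : C :=
  ∑ i, l i • q i

/-- The linear part of a section at the base point. -/
def lin6 (l : Fin 21 → κ) : Fin 6 → κ := ![l 1, l 2, l 3, l 4, l 5, l 6]

theorem sum21 {M : Type} [AddCommMonoid M] (f : Fin 21 → M) : ∑ i, f i =
    f 0 + f 1 + f 2 + f 3 + f 4 + f 5 + f 6 + f 7 + f 8 + f 9 + f 10 + f 11 + f 12 + f 13 + f 14 +
      f 15 + f 16 + f 17 + f 18 + f 19 + f 20 := by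
  simp only [Fin.sum_univ_castSucc, Fin.sum_univ_zero, zero_add]; rfl

theorem lin6_eqn (d : Dat κ) (s : Fin 3) : lin6 (d.eqn s) = d.lin s := by
  fin_cases s <;> rfl

/-- The special third form used for the degree bound. -/
def dS (κ : Type) [Field κ] : Dat κ := ⟨0, 0, 0, 1, 0, 0, 0, 1, 0, 0, 0, 0, 1, 0, 0, 0⟩

end

end Pool.Agent.P.MP_6149fc_ag.V22
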