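import Pool.Agent.P.MP_6149fc_ag.V22.BaseK

/-! Orders and lists of `(degree, exponent)` for points on at most two lines. -/

set_option autoImplicit false

namespace Pool.Agent.P.MP_6149fc_ag.V22

open Pool.Agent.P.MP_6149fc_ag.V18
open MvPowerSeries (X)

def A_k0 : Rows := ![![1, 1, 1], ![1, 0, 0], ![0, 1, 0]]
def P_k0 : List PT := [(1, 2, 0, 0), (1, 0, 3, 0), (1, 0, 0, 3)]
def A_1g : Rows := ![![1, 1, 1], ![0, 0, -1], ![0, 1, 0]]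
def P_1g : List PT := [(1, 0, 2, 0), (1, 0, 2, 1), (1, 3, 0, 0)]
def A_1s : Rows := ![![2, 2, 1], ![0, 0, -1], ![0, 1, 0]]
def P_1s : List PT := [(1, 1, 0, 1), (1, 2, 0, 0), (1, 0, 2, 0), (1, 0, 1, 2), (1, 1, 1, 2)]
def A_2g : Rows := ![![2, 3, 2], ![0, -1, 0], ![1, 0, 0]]
def P_2g : List PT := [(1, 1, 0, 2), (1, 2, 0, 1), (1, 2, 0, 2)]
def P_2h : List PT := [(1, 2, 0, 1), (1, 0, 1, 2), (1, 1, 1, 2)]
def A_2j : Rows := ![![1, 3, 2], ![0, 1, 0], ![1, 0, 0]]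
def P_2ja : List PT := [(1, 1, 0, 2), (1, 2, 1, 0), (1, 0, 2, 0), (1, 2, 2, 0), (1, 2, 1, 2)]
def P_2jb : List PT := [(1, 2, 1, 0), (1, 1, 0, 3), (1, 2, 1, 2), (1, 1, 2, 1)]
def P_d1 : List PT := [(1, 0, 0, 2), (1, 0, 4, 0), (1, 1, 0, 2), (1, 1, 2, 0)]
def P_dY : List PT := [(1, 0, 0, 2), (1, 2, 0, 2)]
def P_d2 : List PT :=
  [(1, 0, 2, 0), (1, 2, 0, 1), (1, 0, 0, 2), (1, 0, 2, 1), (1, 1, 0, 2), (1, 1, 2, 1)]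
def P_d3 : List PT := [(1, 0, 1, 2), (1, 1, 0, 2), (1, 1, 2, 0), (1, 0, 3, 0), (1, 1, 2, 1)]
def P_d3Y : List PT := [(1, 0, 0, 2), (1, 3, 0, 1)]
def P_d4 : List PT := [(1, 1, 0, 1), (1, 1, 2, 0), (1, 0, 0, 2), (1, 0, 4, 0), (1, 1, 2, 1)]
def P_d5 : List PT := [(1, 1, 0, 1), (1, 1, 2, 0), (1, 0, 4, 0), (1, 0, 1, 2), (2, 1, 0, 5)]
def A_db : Rows := ![![2, 3, 5], ![-1, 0, 0], ![0, 0, 1]]
def P_db1 : List PT :=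
  [(1, 0, 2, 0), (1, 2, 0, 1), (1, 0, 0, 2), (1, 0, 1, 2), (1, 2, 0, 2), (2, 0, 5, 1)]
def P_db2 : List PT :=
  [(1, 0, 2, 0), (1, 2, 0, 1), (1, 0, 0, 2), (1, 1, 2, 1), (1, 2, 0, 2), (1, 1, 1, 2)]

/-- The standard weights. -/
def w1 : Fin 3 → ℕ := ![1, 1, 1]

section
variable {κ : Type} [Field κ]

/-- A linear form with coefficients `m` in the six entries. -/
def Hk.lin {C : Type} [CommRing C] [Algebra κ C] (p : Hk C) (m : Hk κ) : C :=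
  m.a0 • p.a0 + m.a1 • p.a1 + m.a2 • p.a2 + m.a3 • p.a3 + m.a4 • p.a4 + m.a5 • p.a5

/-- The linear parts of the entries are given by three tangent vectors. -/
structure Hk.LdA (p : Hk (PS κ)) (u v w : Hk κ) : Prop where
  l0 : Ld w1 1 p.a0 (u.a0 • X 0 + v.a0 • X 1 + w.a0 • X 2)
  l1 : Ld w1 1 p.a1 (u.a1 • X 0 + v.a1 • X 1 + w.a1 • X 2)
  l2 : Ld w1 1 p.a2 (u.a2 • X 0 + v.a2 • X 1 + w.a2 • X 2)
  l3 : Ld w1 1 p.a3 (u.a3 • X 0 + v.a3 • X 1 + w.a3 • X 2)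
  l4 : Ld w1 1 p.a4 (u.a4 • X 0 + v.a4 • X 1 + w.a4 • X 2)
  l5 : Ld w1 1 p.a5 (u.a5 • X 0 + v.a5 • X 1 + w.a5 • X 2)

/-- The vector is tangent: it solves the linear parts of the equations. -/
def Hk.Tan (v : Hk κ) (g0 g1 g2 g3 g4 h0 h1 h2 h3 h4 : κ) : Prop :=
  v.Eqs (⟨0, 0, 0, 0, 0, 0⟩ : Cm κ) g0 g1 g2 g3 g4 h0 h1 h2 h3 h4

/-- The coefficient of `a0 ^ 2` in the extra section, on a tangent vector. -/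
def ell (c : Cm κ) (al ap : κ) (v : Hk κ) : κ :=
  ap * (c.c01 * v.a2 + c.c02 * v.a3 + c.c03 * v.a4) -
    al * (c.c01 * v.a3 + c.c02 * v.a4 + c.c03 * v.a5)

/-- Two quartics without common root on the projective line. -/
def NoRoot4 (g0 g1 g2 g3 g4 h0 h1 h2 h3 h4 : κ) : Prop :=
  (g4 ≠ 0 ∨ h4 ≠ 0) ∧ ∀ t : κ, g0 + g1 * t + g2 * t ^ 2 + g3 * t ^ 3 + g4 * t ^ 4 ≠ 0 ∨
    h0 + h1 * t + h2 * t ^ 2 + h3 * t ^ 3 + h4 * t ^ 4 ≠ 0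

/-- Two cubics without common root on the projective line. -/
def NoRoot3 (g0 g1 g2 g3 h0 h1 h2 h3 : κ) : Prop :=
  (g3 ≠ 0 ∨ h3 ≠ 0) ∧ ∀ t : κ, g0 + g1 * t + g2 * t ^ 2 + g3 * t ^ 3 ≠ 0 ∨
    h0 + h1 * t + h2 * t ^ 2 + h3 * t ^ 3 ≠ 0

/-- Two quadrics without common root on the projective line. -/
def NoRoot2 (g0 g1 g2 h0 h1 h2 : κ) : Prop :=
  (g2 ≠ 0 ∨ h2 ≠ 0) ∧ ∀ t : κ, g0 + g1 * t + g2 * t ^ 2 ≠ 0 ∨ h0 + h1 * t + h2 * t ^ 2 ≠ 0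

end

end Pool.Agent.P.MP_6149fc_ag.V22
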