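import Pool.Agent.P.MP_6149fc_ag.V22.BaseC

/-! Local data in the Hankel chart: minors, equations, the extra sections. -/

set_option autoImplicit false

namespace Pool.Agent.P.MP_6149fc_ag.V22

open Pool.Agent.P.MP_6149fc_ag.V18
open MvPowerSeries (coeff X constantCoeff monomial)

/-- The six entries of a three by four Hankel matrix. -/
structure Hk (C : Type) where
  (a0 a1 a2 a3 a4 a5 : C)

/-- The alternating part of the third form. -/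
structure Cm (κ : Type) where
  (c01 c02 c03 c12 c13 c23 : κ)

namespace Hk

section ring
variable {C : Type} [CommRing C] (p : Hk C)

def q02 : C := p.a0 * p.a2 - p.a1 ^ 2
def q03 : C := p.a0 * p.a3 - p.a1 * p.a2
def q04 : C := p.a0 * p.a4 - p.a2 ^ 2
def q13 : C := p.a1 * p.a3 - p.a2 ^ 2
def q05 : C := p.a0 * p.a5 - p.a2 * p.a3
def q14 : C := p.a1 * p.a4 - p.a2 * p.a3
def q15 : C := p.a1 * p.a5 - p.a3 ^ 2
def q24 : C := p.a2 * p.a4 - p.a3 ^ 2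
def q25 : C := p.a2 * p.a5 - p.a3 * p.a4
def q35 : C := p.a3 * p.a5 - p.a4 ^ 2
/-- The minor on the columns `0, 1, 2`. -/
def d012 : C := p.a0 * (p.a2 * p.a4 - p.a3 ^ 2) - p.a1 * (p.a1 * p.a4 - p.a2 * p.a3) +
  p.a2 * (p.a1 * p.a3 - p.a2 ^ 2)
/-- The minor on the columns `0, 1, 3`. -/
def d013 : C := p.a0 * (p.a2 * p.a5 - p.a3 * p.a4) - p.a1 * (p.a1 * p.a5 - p.a2 * p.a4) +
  p.a3 * (p.a1 * p.a3 - p.a2 ^ 2)
/-- The minor on the columns `0, 2, 3`. -/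
def d023 : C := p.a0 * (p.a3 * p.a5 - p.a4 ^ 2) - p.a2 * (p.a1 * p.a5 - p.a2 * p.a4) +
  p.a3 * (p.a1 * p.a4 - p.a2 * p.a3)
/-- The minor on the columns `1, 2, 3`. -/
def d123 : C := p.a1 * (p.a3 * p.a5 - p.a4 ^ 2) - p.a2 * (p.a2 * p.a5 - p.a3 * p.a4) +
  p.a3 * (p.a2 * p.a4 - p.a3 ^ 2)

/-- The image under a map. -/
def map {C' : Type} (φ : C → C') : Hk C' := ⟨φ p.a0, φ p.a1, φ p.a2, φ p.a3, φ p.a4, φ p.a5⟩

end ring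

section alg
variable {κ C : Type} [Field κ] [CommRing C] [Algebra κ C] (p : Hk C) (c : Cm κ)

/-- The determinant of the Hankel matrix with the first row `ξ` added. -/
def dx (ξ0 ξ1 ξ2 ξ3 : κ) : C := ξ0 • p.d123 - ξ1 • p.d023 + ξ2 • p.d013 - ξ3 • p.d012

/-- The alternating part on the rows `0, 1`. -/
def K1 : C := c.c01 • p.q02 + c.c02 • p.q03 + c.c03 • (p.q04 - p.q13) + c.c12 • p.q13 +
  c.c13 • p.q14 + c.c23 • p.q24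
/-- The alternating part on the rows `0, 2`. -/
def K2 : C := c.c01 • p.q03 + c.c02 • p.q04 + c.c03 • p.q05 + c.c12 • p.q14 +
  c.c13 • p.q15 + c.c23 • p.q25
/-- The alternating part on the rows `1, 2`. -/
def K3 : C := c.c01 • p.q13 + c.c02 • p.q14 + c.c03 • (p.q15 - p.q24) + c.c12 • p.q24 +
  c.c13 • p.q25 + c.c23 • p.q35

/-- The three equations, for the quartics `g` and `h`. -/
structure Eqs (g0 g1 g2 g3 g4 h0 h1 h2 h3 h4 : κ) : Prop where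
  e1 : g0 • p.a0 + g1 • p.a1 + g2 • p.a2 + g3 • p.a3 + g4 • p.a4 + p.K1 c = 0
  e2 : h0 • p.a0 + (g0 + h1) • p.a1 + (g1 + h2) • p.a2 + (g2 + h3) • p.a3 + (g3 + h4) • p.a4 +
    g4 • p.a5 + p.K2 c = 0
  e3 : h0 • p.a1 + h1 • p.a2 + h2 • p.a3 + h3 • p.a4 + h4 • p.a5 + p.K3 c = 0

/-- The extra section of a point on one line. -/
def RA (al b1 b2 b3 ap e1 e2 e3 : κ) : C :=
  p.K1 c * (ap • p.a0 + (al + e1) • p.a1 + e2 • p.a2) + p.K2 c * (e3 • p.a2 - al • p.a0) -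
    p.K3 c * (b1 • p.a0 + (b2 + e3) • p.a1 + b3 • p.a2)

/-- The extra sections when the quartics have a common factor of degree two; `u, v` are two
consecutive entries. -/
def RB (h0 h1 h2 k0 k1 k2 : κ) (u v : C) : C :=
  p.K1 c * (k0 • u + (h0 + k1) • v) + p.K2 c * (k2 • v - h0 • u) -
    p.K3 c * ((h1 + k2) • u + h2 • v)

variable {p c}

/-- The equations can be scaled. -/
theorem Eqs.smul {g0 g1 g2 g3 g4 h0 h1 h2 h3 h4 : κ}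
    (h : p.Eqs c g0 g1 g2 g3 g4 h0 h1 h2 h3 h4) (t : κ) :
    p.Eqs ⟨t * c.c01, t * c.c02, t * c.c03, t * c.c12, t * c.c13, t * c.c23⟩ (t * g0) (t * g1)
      (t * g2) (t * g3) (t * g4) (t * h0) (t * h1) (t * h2) (t * h3) (t * h4) := by
  obtain ⟨e1, e2, e3⟩ := h
  simp only [K1, K2, K3, Algebra.smul_def, map_add] at e1 e2 e3
  constructor <;> simp only [K1, K2, K3, Algebra.smul_def, map_add, map_mul]
  · linear_combination algebraMap κ C t * e1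
  · linear_combination algebraMap κ C t * e2
  · linear_combination algebraMap κ C t * e3

end alg

end Hk

section cof
variable {κ : Type} [Field κ]

/-- The kernel of the matrix of the three cubics `s η, t η + s η', t η'`. -/
def kp1 (h0 h1 h2 k0 k1 k2 : κ) : κ :=
  -h0 * h2 * k2 - h1 * h2 * k1 + h1 * k2 ^ 2 + h1 ^ 2 * k2 - h2 * k1 * k2 + h2 ^ 2 * k0
def kp2 (h0 h1 h2 k0 k1 k2 : κ) : κ := -h0 * h1 * k2 + h0 * h2 * k1 - h0 * k2 ^ 2 + h2 * k0 * k2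
def kp3 (h0 h1 h2 k0 k1 k2 : κ) : κ := -h0 * h2 * k0 + h0 * k1 * k2 + h0 ^ 2 * k2 - h1 * k0 * k2
def kp4 (h0 h1 h2 k0 k1 k2 : κ) : κ :=
  h0 * h1 * k0 + h0 * k0 * k2 - h0 * k1 ^ 2 - h0 ^ 2 * k1 + h1 * k0 * k1 - h2 * k0 ^ 2

/-- The cofactor identities. -/
theorem cof {C : Type} [CommRing C] [Algebra κ C] {h0 h1 h2 k0 k1 k2 : κ} {b1 b2 b3 b4 A B D : C}
    (e1 : h0 • b1 + h1 • b2 + h2 • b3 + A = 0)
    (e2 : k0 • b1 + (h0 + k1) • b2 + (h1 + k2) • b3 + h2 • b4 + B = 0)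
    (e3 : k0 • b2 + k1 • b3 + k2 • b4 + D = 0) :
    kp2 h0 h1 h2 k0 k1 k2 • b1 - kp1 h0 h1 h2 k0 k1 k2 • b2 =
      (h1 * k2 - h2 * k1 + k2 ^ 2) • A - (h2 * k2) • B + (h2 ^ 2) • D ∧
    kp3 h0 h1 h2 k0 k1 k2 • b1 - kp1 h0 h1 h2 k0 k1 k2 • b3 =
      (h2 * k0 - h0 * k2 - k1 * k2) • A + (h1 * k2) • B - (h1 * h2) • D ∧
    kp4 h0 h1 h2 k0 k1 k2 • b1 - kp1 h0 h1 h2 k0 k1 k2 • b4 =
      (h0 * k1 - h1 * k0 - k0 * k2 + k1 ^ 2) • A + (h2 * k0 - h1 * k1) • B +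
        (h1 * k2 + h1 ^ 2 - h0 * h2 - h2 * k1) • D ∧
    kp3 h0 h1 h2 k0 k1 k2 • b2 - kp2 h0 h1 h2 k0 k1 k2 • b3 =
      (k0 * k2) • A - (h0 * k2) • B + (h0 * h2) • D ∧
    kp4 h0 h1 h2 k0 k1 k2 • b2 - kp2 h0 h1 h2 k0 k1 k2 • b4 =
      (h0 * k1) • B - (k0 * k1) • A + (h2 * k0 - h0 * h1 - h0 * k2) • D ∧
    kp4 h0 h1 h2 k0 k1 k2 • b3 - kp3 h0 h1 h2 k0 k1 k2 • b4 =
      (k0 ^ 2) • A - (h0 * k0) • B + (h0 * k1 + h0 ^ 2 - h1 * k0) • D := by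
  have a1 : A = -(h0 • b1 + h1 • b2 + h2 • b3) := by linear_combination e1
  have a2 : B = -(k0 • b1 + (h0 + k1) • b2 + (h1 + k2) • b3 + h2 • b4) := by linear_combination e2
  have a3 : D = -(k0 • b2 + k1 • b3 + k2 • b4) := by linear_combination e3
  subst a1 a2 a3
  simp only [kp1, kp2, kp3, kp4, Algebra.smul_def, map_add, map_sub, map_mul, map_neg, map_pow]
  refine ⟨by ring, by ring, by ring, by ring, by ring, by ring⟩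

end cof

section loc
variable {κ : Type} [Field κ]

/-- The entries vanish at the origin; the entries and all minors lie in `W`. -/
structure Hk.Ok (p : Hk (PS κ)) (W : Submodule κ (PS κ)) : Prop where
  c0 : constantCoeff p.a0 = 0
  c1 : constantCoeff p.a1 = 0
  c2 : constantCoeff p.a2 = 0
  c3 : constantCoeff p.a3 = 0
  c4 : constantCoeff p.a4 = 0
  c5 : constantCoeff p.a5 = 0
  m0 : p.a0 ∈ W
  m1 : p.a1 ∈ W
  m2 : p.a2 ∈ W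
  m3 : p.a3 ∈ W
  m4 : p.a4 ∈ W
  m5 : p.a5 ∈ W
  m02 : p.q02 ∈ W
  m03 : p.q03 ∈ W
  m04 : p.q04 ∈ W
  m13 : p.q13 ∈ W
  m05 : p.q05 ∈ W
  m14 : p.q14 ∈ W
  m15 : p.q15 ∈ W
  m24 : p.q24 ∈ W
  m25 : p.q25 ∈ W
  m35 : p.q35 ∈ W
  m012 : p.d012 ∈ W
  m013 : p.d013 ∈ W
  m023 : p.d023 ∈ W
  m123 : p.d123 ∈ W

variable {p : Hk (PS κ)} {c : Cm κ} {W : Submodule κ (PS κ)}

theorem Hk.Ok.quad (h : p.Ok W) (n02 n03 n04 n13 n05 n14 n15 n24 n25 n35 : κ) :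
    n02 • p.q02 + n03 • p.q03 + n04 • p.q04 + n13 • p.q13 + n05 • p.q05 + n14 • p.q14 +
      n15 • p.q15 + n24 • p.q24 + n25 • p.q25 + n35 • p.q35 ∈ W :=
  add_mem (add_mem (add_mem (add_mem (add_mem (add_mem (add_mem (add_mem (add_mem
    (W.smul_mem _ h.m02) (W.smul_mem _ h.m03)) (W.smul_mem _ h.m04)) (W.smul_mem _ h.m13))
    (W.smul_mem _ h.m05)) (W.smul_mem _ h.m14)) (W.smul_mem _ h.m15)) (W.smul_mem _ h.m24))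
    (W.smul_mem _ h.m25)) (W.smul_mem _ h.m35)

theorem Hk.Ok.mdx (h : p.Ok W) (ξ0 ξ1 ξ2 ξ3 : κ) : p.dx ξ0 ξ1 ξ2 ξ3 ∈ W :=
  sub_mem (add_mem (sub_mem (W.smul_mem _ h.m123) (W.smul_mem _ h.m023)) (W.smul_mem _ h.m013))
    (W.smul_mem _ h.m012)

theorem Hk.Ok.mRA (h : p.Ok W) {al b1 b2 b3 ap e1 e2 e3 : κ}
    (e : p.Eqs c 0 al b1 b2 b3 0 ap e1 e2 e3) : p.RA c al b1 b2 b3 ap e1 e2 e3 ∈ W := by
  have := h.quad (al * e1 + al ^ 2) (al * b1 + al * e2 - ap * b2 + b1 * e1)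
    (al * b2 + al * e3 - ap * b3 + b1 * e2) (e1 * e3 - al * b2) (al * b3 + b1 * e3)
    (b2 * e2 - al * b3 - b3 * e1 + e2 * e3) (b2 * e3 + e3 ^ 2) (-(b2 * e3) - e3 ^ 2) 0 0
  convert this using 1
  rw [Hk.RA, eq_neg_of_add_eq_zero_right e.e1, eq_neg_of_add_eq_zero_right e.e2,
    eq_neg_of_add_eq_zero_right e.e3]
  simp only [Hk.q02, Hk.q03, Hk.q04, Hk.q13, Hk.q05, Hk.q14, Hk.q15, Hk.q24, Hk.q25, Hk.q35,
    Algebra.smul_def, map_add, map_sub, map_mul, map_neg, map_pow, map_zero]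
  ring

/-- Two lines: the sections attached to the first and to the second line. -/
theorem Hk.Ok.mRB (h : p.Ok W) {h0 h1 h2 k0 k1 k2 : κ}
    (e : p.Eqs c 0 h0 h1 h2 0 0 k0 k1 k2 0) :
    p.RB c h0 h1 h2 k0 k1 k2 p.a0 p.a1 ∈ W ∧ p.RB c h0 h1 h2 k0 k1 k2 p.a4 p.a5 ∈ W := by
  have t1 := h.quad (h0 * k1 + h0 ^ 2 + k0 * k2) (h0 * h1 + h0 * k2 + h1 * k1 - h2 * k0 + k1 * k2)
    (h0 * h2 + h1 * k2 + k2 ^ 2) (-(h0 * h2 + h1 * k2 + k2 ^ 2)) 0 0 0 0 0 0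
  have t2 := h.quad 0 0 0 0 0 0 (-(h0 * k1 + h0 ^ 2 + k0 * k2)) (h0 * k1 + h0 ^ 2 + k0 * k2)
    (-(h0 * h1 + h0 * k2 + h1 * k1 - h2 * k0 + k1 * k2)) (-(h0 * h2 + h1 * k2 + k2 ^ 2))
  refine ⟨?_, ?_⟩
  on_goal 1 => convert t1 using 1
  on_goal 2 => convert t2 using 1
  all_goals
    rw [Hk.RB, eq_neg_of_add_eq_zero_right e.e1, eq_neg_of_add_eq_zero_right e.e2,
      eq_neg_of_add_eq_zero_right e.e3]
    simp only [Hk.q02, Hk.q03, Hk.q04, Hk.q13, Hk.q05, Hk.q14, Hk.q15, Hk.q24, Hk.q25, Hk.q35,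
      Algebra.smul_def, map_add, map_sub, map_mul, map_neg, map_pow, map_zero]
    ring

/-- A double line: the two extra sections. -/
theorem Hk.Ok.mRC (h : p.Ok W) {h0 h1 h2 k0 k1 k2 : κ}
    (e : p.Eqs c 0 0 h0 h1 h2 0 0 k0 k1 k2) :
    p.RB c h0 h1 h2 k0 k1 k2 p.a0 p.a1 ∈ W ∧ p.RB c h0 h1 h2 k0 k1 k2 p.a1 p.a2 ∈ W := by
  have t1 := h.quad 0 (h0 * k1 + h0 ^ 2 + k0 * k2)
    (h0 * h1 + h0 * k2 + h1 * k1 - h2 * k0 + k1 * k2)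
    (-(h0 * h1 + h0 * k2 + h1 * k1 - h2 * k0 + k1 * k2)) (h0 * h2 + h1 * k2 + k2 ^ 2)
    (-(h0 * h2 + h1 * k2 + k2 ^ 2)) 0 0 0 0
  have t2 := h.quad 0 0 0 (h0 * k1 + h0 ^ 2 + k0 * k2) 0
    (h0 * h1 + h0 * k2 + h1 * k1 - h2 * k0 + k1 * k2) (h0 * h2 + h1 * k2 + k2 ^ 2)
    (-(h0 * h2 + h1 * k2 + k2 ^ 2)) 0 0
  refine ⟨?_, ?_⟩
  on_goal 1 => convert t1 using 1
  on_goal 2 => convert t2 using 1
  all_goals
    rw [Hk.RB, eq_neg_of_add_eq_zero_right e.e1, eq_neg_of_add_eq_zero_right e.e2,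
      eq_neg_of_add_eq_zero_right e.e3]
    simp only [Hk.q02, Hk.q03, Hk.q04, Hk.q13, Hk.q05, Hk.q14, Hk.q15, Hk.q24, Hk.q25, Hk.q35,
      Algebra.smul_def, map_add, map_sub, map_mul, map_neg, map_pow, map_zero]
    ring

/-- Lower bounds for the weights of the six entries. -/
structure Hk.GeA (p : Hk (PS κ)) (w : Fin 3 → ℕ) (n0 n1 n2 n3 n4 n5 : ℕ) : Prop where
  g0 : Ge w n0 p.a0
  g1 : Ge w n1 p.a1
  g2 : Ge w n2 p.a2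
  g3 : Ge w n3 p.a3
  g4 : Ge w n4 p.a4
  g5 : Ge w n5 p.a5

variable {w : Fin 3 → ℕ} {n n0 n1 n2 n3 n4 n5 k : ℕ} {f g : PS κ}

theorem Hk.Ok.geA (h : p.Ok W) (hw : ∀ j, n ≤ w j) : p.GeA w n n n n n n :=
  ⟨Ge.of_const h.c0 hw, Ge.of_const h.c1 hw, Ge.of_const h.c2 hw, Ge.of_const h.c3 hw,
    Ge.of_const h.c4 hw, Ge.of_const h.c5 hw⟩

theorem ge_q {a b a' b' : PS κ} {i j i' j' : ℕ} (ha : Ge w i a) (hb : Ge w j b) (ha' : Ge w i' a')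
    (hb' : Ge w j' b') (hn : n ≤ i + j ∧ n ≤ i' + j') : Ge w n (a * b - a' * b') :=
  (ha.mul' hb hn.1).sub (ha'.mul' hb' hn.2)

theorem ge_s {a b a' : PS κ} {i j i' : ℕ} (ha : Ge w i a) (hb : Ge w j b) (ha' : Ge w i' a')
    (hn : n ≤ i + j ∧ n ≤ i' + i') : Ge w n (a * b - a' ^ 2) :=
  (ge_q ha hb ha' ha' hn).congr (by ring)

/-- Use `by decide` or `by norm_num` for the side conditions. -/
theorem Hk.GeA.q02 (h : p.GeA w n0 n1 n2 n3 n4 n5) (hn : n ≤ n0 + n2 ∧ n ≤ n1 + n1) :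
    Ge w n p.q02 := ge_s h.g0 h.g2 h.g1 hn
theorem Hk.GeA.q03 (h : p.GeA w n0 n1 n2 n3 n4 n5) (hn : n ≤ n0 + n3 ∧ n ≤ n1 + n2) :
    Ge w n p.q03 := ge_q h.g0 h.g3 h.g1 h.g2 hn
theorem Hk.GeA.q04 (h : p.GeA w n0 n1 n2 n3 n4 n5) (hn : n ≤ n0 + n4 ∧ n ≤ n2 + n2) :
    Ge w n p.q04 := ge_s h.g0 h.g4 h.g2 hn
theorem Hk.GeA.q13 (h : p.GeA w n0 n1 n2 n3 n4 n5) (hn : n ≤ n1 + n3 ∧ n ≤ n2 + n2) :
    Ge w n p.q13 := ge_s h.g1 h.g3 h.g2 hn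
theorem Hk.GeA.q05 (h : p.GeA w n0 n1 n2 n3 n4 n5) (hn : n ≤ n0 + n5 ∧ n ≤ n2 + n3) :
    Ge w n p.q05 := ge_q h.g0 h.g5 h.g2 h.g3 hn
theorem Hk.GeA.q14 (h : p.GeA w n0 n1 n2 n3 n4 n5) (hn : n ≤ n1 + n4 ∧ n ≤ n2 + n3) :
    Ge w n p.q14 := ge_q h.g1 h.g4 h.g2 h.g3 hn
theorem Hk.GeA.q15 (h : p.GeA w n0 n1 n2 n3 n4 n5) (hn : n ≤ n1 + n5 ∧ n ≤ n3 + n3) :
    Ge w n p.q15 := ge_s h.g1 h.g5 h.g3 hn
theorem Hk.GeA.q24 (h : p.GeA w n0 n1 n2 n3 n4 n5) (hn : n ≤ n2 + n4 ∧ n ≤ n3 + n3) :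
    Ge w n p.q24 := ge_s h.g2 h.g4 h.g3 hn
theorem Hk.GeA.q25 (h : p.GeA w n0 n1 n2 n3 n4 n5) (hn : n ≤ n2 + n5 ∧ n ≤ n3 + n4) :
    Ge w n p.q25 := ge_q h.g2 h.g5 h.g3 h.g4 hn
theorem Hk.GeA.q35 (h : p.GeA w n0 n1 n2 n3 n4 n5) (hn : n ≤ n3 + n5 ∧ n ≤ n4 + n4) :
    Ge w n p.q35 := ge_s h.g3 h.g5 h.g4 hn

theorem Hk.GeA.K1 (h : p.GeA w n0 n1 n2 n3 n4 n5) (c : Cm κ)
    (hn : (n ≤ n0 + n2 ∧ n ≤ n1 + n1) ∧ (n ≤ n0 + n3 ∧ n ≤ n1 + n2) ∧ (n ≤ n0 + n4 ∧ n ≤ n2 + n2) ∧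
      (n ≤ n1 + n3 ∧ n ≤ n2 + n2) ∧ (n ≤ n1 + n4 ∧ n ≤ n2 + n3) ∧ (n ≤ n2 + n4 ∧ n ≤ n3 + n3)) :
    Ge w n (p.K1 c) := by
  obtain ⟨a, b, d, e, f, g⟩ := hn
  exact ((((((h.q02 a).smul _).add ((h.q03 b).smul _)).add (((h.q04 d).sub (h.q13 e)).smul _)).add
    ((h.q13 e).smul _)).add ((h.q14 f).smul _)).add ((h.q24 g).smul _)

theorem Hk.GeA.K2 (h : p.GeA w n0 n1 n2 n3 n4 n5) (c : Cm κ)
    (hn : (n ≤ n0 + n3 ∧ n ≤ n1 + n2) ∧ (n ≤ n0 + n4 ∧ n ≤ n2 + n2) ∧ (n ≤ n0 + n5 ∧ n ≤ n2 + n3) ∧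
      (n ≤ n1 + n4 ∧ n ≤ n2 + n3) ∧ (n ≤ n1 + n5 ∧ n ≤ n3 + n3) ∧ (n ≤ n2 + n5 ∧ n ≤ n3 + n4)) :
    Ge w n (p.K2 c) := by
  obtain ⟨a, b, d, e, f, g⟩ := hn
  exact ((((((h.q03 a).smul _).add ((h.q04 b).smul _)).add ((h.q05 d).smul _)).add
    ((h.q14 e).smul _)).add ((h.q15 f).smul _)).add ((h.q25 g).smul _)

theorem Hk.GeA.K3 (h : p.GeA w n0 n1 n2 n3 n4 n5) (c : Cm κ)
    (hn : (n ≤ n1 + n3 ∧ n ≤ n2 + n2) ∧ (n ≤ n1 + n4 ∧ n ≤ n2 + n3) ∧ (n ≤ n1 + n5 ∧ n ≤ n3 + n3) ∧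
      (n ≤ n2 + n4 ∧ n ≤ n3 + n3) ∧ (n ≤ n2 + n5 ∧ n ≤ n3 + n4) ∧ (n ≤ n3 + n5 ∧ n ≤ n4 + n4)) :
    Ge w n (p.K3 c) := by
  obtain ⟨a, b, d, e, f, g⟩ := hn
  exact ((((((h.q13 a).smul _).add ((h.q14 b).smul _)).add (((h.q15 d).sub (h.q24 e)).smul _)).add
    ((h.q24 e).smul _)).add ((h.q25 f).smul _)).add ((h.q35 g).smul _)

/-- Cancel a nonzero scalar. -/
theorem ge_of_smul {t : κ} (ht : t ≠ 0) (h : Ge w k (t • f)) : Ge w k f :=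
  (h.smul t⁻¹).congr (by rw [smul_smul, inv_mul_cancel₀ ht, one_smul])

theorem ld_of_smul {t : κ} (ht : t ≠ 0) (h : Ld w k (t • f) g) : Ld w k f (t⁻¹ • g) :=
  (h.smul t⁻¹).congr (by rw [smul_smul, inv_mul_cancel₀ ht, one_smul]) rfl

/-- A homogeneous `g` and a remainder of larger weight. -/
theorem ld_of_ge (hg : Hm w k g) (h : Ge w (k + 1) (f - g)) : Ld w k f g := ⟨hg, h⟩

theorem hm_mon (a b d : ℕ) (h : w 0 * a + w 1 * b + w 2 * d = k) : Hm w k (mon κ a b d) := by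
  rw [mon_eq]; exact monomial_mem_On (P := fun α => wt w α = k) (γ := ex a b d) h _

/-- The initial exponent from the class modulo one variable. -/
theorem init_of_dvd {A : Rows} {a b d : ℕ} {t : κ} (j : Fin 3) (S : Ex → Prop) (ht : t ≠ 0)
    (hS : g ∈ On κ S) (hj : ex a b d j = 0) (hd : X j ∣ g - t • mon κ a b d)
    (hlt : ∀ α, S α → 1 ≤ α j → kk A (ex a b d) < kk A α) : Init A g (ex a b d) := by
  classical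
  have hz : ∀ α : Ex, α j = 0 → coeff α (g - t • mon κ a b d) = 0 :=
    MvPowerSeries.X_dvd_iff.1 hd
  refine init_of ht (e := g - t • mon κ a b d) (fun α hα => ?_) (by ring)
  have h1 : 1 ≤ α j := Nat.one_le_iff_ne_zero.2 fun h0 => hα (hz α h0)
  have hne : α ≠ ex a b d := fun e => by rw [e, hj] at h1; omega
  refine hlt α (hS α fun h0 => hα ?_) h1
  rw [map_sub, h0, mon_eq, map_smul, MvPowerSeries.coeff_monomial, if_neg hne]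
  simp

end loc

end Pool.Agent.P.MP_6149fc_ag.V22
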