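import Pool.Agent.P.MP_6149fc_ag.V22.BaseG

/-! Local data at the base point. -/

set_option autoImplicit false

namespace Pool.Agent.P.MP_6149fc_ag.V22

open Pool.Agent.P.MP_6149fc_ag.V18
open MvPowerSeries (coeff X constantCoeff monomial)
open Matrix

section
variable {κ : Type} [Field κ]

/-- The forms with coefficients in `κ`. -/
def omK (κ : Type) [Field κ] [Algebra ℂ κ] (ω : Fin 3 → Fin 7 → Fin 7 → ℂ) : Fin 3 → Fm κ :=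
  fun s => Matrix.of fun i j => algebraMap ℂ κ (ω s i j)

/-- The polynomial matrix `A1 + X A2`. -/
noncomputable def pM (A1 A2 : Matrix (Fin 3) (Fin 3) κ) : Matrix (Fin 3) (Fin 3) (Polynomial κ) :=
  Matrix.of fun i j => Polynomial.C (A1 i j) + Polynomial.X * Polynomial.C (A2 i j)

/-- The polynomial vector `γ1 + X γ2`. -/
noncomputable def pV (γ1 γ2 : Fin 3 → κ) : Fin 3 → Polynomial κ :=
  fun i => Polynomial.C (γ1 i) + Polynomial.X * Polynomial.C (γ2 i)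

/-- The six coordinates and the fourteen minors of a parametrisation. -/
structure P6 (κ : Type) where
  (a0 a1 a2 a3 a4 a5 m01 m02 m03 m04 m12 m13 m14 m23 m24 m34 c012 c013 c023 c123 : PS κ)

/-- The chart identities; all sections lie in `W`. -/
structure P6.Ok (p : P6 κ) (W : Submodule κ (PS κ)) : Prop where
  k0 : constantCoeff p.a0 = 0
  k1 : constantCoeff p.a1 = 0
  k2 : constantCoeff p.a2 = 0
  k3 : constantCoeff p.a3 = 0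
  k4 : constantCoeff p.a4 = 0
  k5 : constantCoeff p.a5 = 0
  e01 : p.m01 = p.a0 * p.a2 - p.a1 * p.a1
  e02 : p.m02 = p.a0 * p.a3 - p.a2 * p.a1
  e03 : p.m03 = p.a0 * p.a4 - p.a3 * p.a1
  e04 : p.m04 = p.a0 * p.a5 - p.a4 * p.a1
  e12 : p.m12 = p.a1 * p.a3 - p.a2 * p.a2
  e13 : p.m13 = p.a1 * p.a4 - p.a3 * p.a2
  e14 : p.m14 = p.a1 * p.a5 - p.a4 * p.a2
  e23 : p.m23 = p.a2 * p.a4 - p.a3 * p.a3
  e24 : p.m24 = p.a2 * p.a5 - p.a4 * p.a3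
  e34 : p.m34 = p.a3 * p.a5 - p.a4 * p.a4
  f012 : p.c012 = p.a0 * p.m23 - p.a1 * p.m13 + p.a2 * p.m12
  f013 : p.c013 = p.a0 * p.m24 - p.a1 * p.m14 + p.a3 * p.m12
  f023 : p.c023 = p.a0 * p.m34 - p.a2 * p.m14 + p.a3 * p.m13
  f123 : p.c123 = p.a1 * p.m34 - p.a2 * p.m24 + p.a3 * p.m23
  w0 : p.a0 ∈ W
  w1 : p.a1 ∈ W
  w2 : p.a2 ∈ W
  w3 : p.a3 ∈ W
  w4 : p.a4 ∈ W
  w5 : p.a5 ∈ W
  w01 : p.m01 ∈ W
  w02 : p.m02 ∈ W
  w03 : p.m03 ∈ W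
  w04 : p.m04 ∈ W
  w12 : p.m12 ∈ W
  w13 : p.m13 ∈ W
  w14 : p.m14 ∈ W
  w23 : p.m23 ∈ W
  w24 : p.m24 ∈ W
  w34 : p.m34 ∈ W
  w012 : p.c012 ∈ W
  w013 : p.c013 ∈ W
  w023 : p.c023 ∈ W
  w123 : p.c123 ∈ W

/-- The quadratic part of the first equation. -/
noncomputable def P6.q0 (p : P6 κ) (d : Dat κ) : PS κ :=
  d.c01 • p.m01 + d.c02 • p.m02 + d.c03 • p.m03 + d.c12 • p.m12 + d.c13 • p.m13 + d.c23 • p.m23
/-- The quadratic part of the second equation. -/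
noncomputable def P6.q1 (p : P6 κ) (d : Dat κ) : PS κ :=
  d.c01 • p.m02 + d.c02 • (p.m03 + p.m12) + d.c03 • (p.m04 + p.m13) + d.c12 • p.m13 +
    d.c13 • (p.m14 + p.m23) + d.c23 • p.m24
/-- The quadratic part of the third equation. -/
noncomputable def P6.q2 (p : P6 κ) (d : Dat κ) : PS κ :=
  d.c01 • p.m12 + d.c02 • p.m13 + d.c03 • p.m14 + d.c12 • p.m23 + d.c13 • p.m24 + d.c23 • p.m34

/-- The three equations. -/
structure P6.Eqs (p : P6 κ) (d : Dat κ) : Prop where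
  h0 : d.r0 • p.a0 + d.r1 • p.a1 + d.r2 • p.a2 + d.r3 • p.a3 + d.r4 • p.a4 + p.q0 d = 0
  h1 : d.p0 • p.a0 + (d.p1 + d.r0) • p.a1 + (d.p2 + d.r1) • p.a2 + (d.p3 + d.r2) • p.a3 +
    (d.p4 + d.r3) • p.a4 + d.r4 • p.a5 + p.q1 d = 0
  h2 : d.p0 • p.a1 + d.p1 • p.a2 + d.p2 • p.a3 + d.p3 • p.a4 + d.p4 • p.a5 + p.q2 d = 0

/-- The twenty one sections. -/
noncomputable def P6.sec (p : P6 κ) : Fin 21 → PS κ :=
  ![1, p.a0, p.a1, p.a2, p.a3, p.a4, p.a5, p.m01, p.m02, p.m03, p.m04, p.m12, p.m13, p.m14,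
    p.m23, p.m24, p.m34, p.c012, p.c013, p.c023, p.c123]

/-- A linear form in the six coordinates. -/
noncomputable def P6.lin (p : P6 κ) (v : Fin 6 → κ) : PS κ :=
  v 0 • p.a0 + v 1 • p.a1 + v 2 • p.a2 + v 3 • p.a3 + v 4 • p.a4 + v 5 • p.a5

theorem P6.Ok.lin_mem {p : P6 κ} {W : Submodule κ (PS κ)} (h : p.Ok W) (v : Fin 6 → κ) :
    p.lin v ∈ W :=
  add_mem (add_mem (add_mem (add_mem (add_mem (W.smul_mem _ h.w0) (W.smul_mem _ h.w1))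
    (W.smul_mem _ h.w2)) (W.smul_mem _ h.w3)) (W.smul_mem _ h.w4)) (W.smul_mem _ h.w5)

/-- Weights of the quadratic minors from the weights of the coordinates (close `hn` by `decide`). -/
theorem P6.Ok.ge {w : Fin 3 → ℕ} {p : P6 κ} {W : Submodule κ (PS κ)} (h : p.Ok W)
    {n0 n1 n2 n3 n4 n5 : ℕ} (n01 n02 n03 n04 n12 n13 n14 n23 n24 n34 : ℕ) (g0 : Ge w n0 p.a0)
    (g1 : Ge w n1 p.a1) (g2 : Ge w n2 p.a2) (g3 : Ge w n3 p.a3) (g4 : Ge w n4 p.a4)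
    (g5 : Ge w n5 p.a5)
    (hn : (n01 ≤ n0 + n2 ∧ n01 ≤ n1 + n1) ∧ (n02 ≤ n0 + n3 ∧ n02 ≤ n2 + n1) ∧
      (n03 ≤ n0 + n4 ∧ n03 ≤ n3 + n1) ∧ (n04 ≤ n0 + n5 ∧ n04 ≤ n4 + n1) ∧
      (n12 ≤ n1 + n3 ∧ n12 ≤ n2 + n2) ∧ (n13 ≤ n1 + n4 ∧ n13 ≤ n3 + n2) ∧
      (n14 ≤ n1 + n5 ∧ n14 ≤ n4 + n2) ∧ (n23 ≤ n2 + n4 ∧ n23 ≤ n3 + n3) ∧
      (n24 ≤ n2 + n5 ∧ n24 ≤ n4 + n3) ∧ n34 ≤ n3 + n5 ∧ n34 ≤ n4 + n4) :
    Ge w n01 p.m01 ∧ Ge w n02 p.m02 ∧ Ge w n03 p.m03 ∧ Ge w n04 p.m04 ∧ Ge w n12 p.m12 ∧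
      Ge w n13 p.m13 ∧ Ge w n14 p.m14 ∧ Ge w n23 p.m23 ∧ Ge w n24 p.m24 ∧ Ge w n34 p.m34 := by
  obtain ⟨a1, a2, a3, a4, a5, a6, a7, a8, a9, a10⟩ := hn
  exact ⟨((g0.mul' g2 a1.1).sub (g1.mul' g1 a1.2)).congr h.e01,
    ((g0.mul' g3 a2.1).sub (g2.mul' g1 a2.2)).congr h.e02,
    ((g0.mul' g4 a3.1).sub (g3.mul' g1 a3.2)).congr h.e03,
    ((g0.mul' g5 a4.1).sub (g4.mul' g1 a4.2)).congr h.e04,
    ((g1.mul' g3 a5.1).sub (g2.mul' g2 a5.2)).congr h.e12,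
    ((g1.mul' g4 a6.1).sub (g3.mul' g2 a6.2)).congr h.e13,
    ((g1.mul' g5 a7.1).sub (g4.mul' g2 a7.2)).congr h.e14,
    ((g2.mul' g4 a8.1).sub (g3.mul' g3 a8.2)).congr h.e23,
    ((g2.mul' g5 a9.1).sub (g4.mul' g3 a9.2)).congr h.e24,
    ((g3.mul' g5 a10.1).sub (g4.mul' g4 a10.2)).congr h.e34⟩

/-- The quadratic parts have order at least twice the least weight. -/
theorem P6.Ok.q_ge {w : Fin 3 → ℕ} {p : P6 κ} {W : Submodule κ (PS κ)} (h : p.Ok W) (d : Dat κ)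
    {n : ℕ} (hw : ∀ j, n ≤ w j) :
    Ge w (n + n) (p.q0 d) ∧ Ge w (n + n) (p.q1 d) ∧ Ge w (n + n) (p.q2 d) := by
  obtain ⟨b1, b2, b3, b4, b5, b6, b7, b8, b9, b10⟩ := h.ge (w := w) (n + n) (n + n) (n + n) (n + n)
    (n + n) (n + n) (n + n) (n + n) (n + n) (n + n) (Ge.of_const h.k0 hw) (Ge.of_const h.k1 hw)
    (Ge.of_const h.k2 hw) (Ge.of_const h.k3 hw) (Ge.of_const h.k4 hw) (Ge.of_const h.k5 hw)
    (by simp)
  exact ⟨(((((b1.smul _).add (b2.smul _)).add (b3.smul _)).add (b5.smul _)).add (b6.smul _)).add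
      (b8.smul _),
    (((((b2.smul _).add ((b3.add b5).smul _)).add ((b4.add b6).smul _)).add (b6.smul _)).add
      ((b7.add b8).smul _)).add (b9.smul _),
    (((((b5.smul _).add (b6.smul _)).add (b7.smul _)).add (b8.smul _)).add (b9.smul _)).add
      (b10.smul _)⟩

theorem _root_.Pool.Agent.P.MP_6149fc_ag.V18.Ge.of_smul {w : Fin 3 → ℕ} {k : ℕ} {f : PS κ} {c : κ}
    (hc : c ≠ 0) (h : Ge w k (c • f)) : Ge w k f :=
  (h.smul c⁻¹).congr (by rw [smul_smul, inv_mul_cancel₀ hc, one_smul])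

theorem _root_.Pool.Agent.P.MP_6149fc_ag.V18.Ld.of_smul {w : Fin 3 → ℕ} {k : ℕ} {f g : PS κ}
    {c : κ} (hc : c ≠ 0) (h : Ld w k (c • f) (c • g)) : Ld w k f g :=
  (h.smul c⁻¹).congr (by rw [smul_smul, inv_mul_cancel₀ hc, one_smul])
    (by rw [smul_smul, inv_mul_cancel₀ hc, one_smul])

/-- The three quintics are independent (smoothness at the base point). -/
def Dat.S0 (d : Dat κ) : Prop :=
  ∀ ε : Fin 3 → κ, ε 0 • d.lin 0 + ε 1 • d.lin 1 + ε 2 • d.lin 2 = 0 → ε = 0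

/-- Smoothness along the line given by the common root `t = 0`. -/
def Dat.SL (d : Dat κ) : Prop :=
  ∀ l m e0 e1 e2 : κ, d.p0 = 0 → d.r0 = 0 → (l ≠ 0 ∨ m ≠ 0) → (e0 ≠ 0 ∨ e1 ≠ 0 ∨ e2 ≠ 0) →
    e0 * d.r1 + e1 * d.p1 = 0 →
    l * (e0 * d.r2 + e1 * (d.p2 + d.r1)) + e2 * d.p1 + m * (e0 * d.c01) = 0 →
    l * (e0 * d.r3 + e1 * (d.p3 + d.r2)) + e2 * d.p2 + m * (e0 * d.c02 + e1 * d.c01) = 0 →
    l * (e0 * d.r4 + e1 * (d.p4 + d.r3)) + e2 * d.p3 + m * (e0 * d.c03 + e1 * d.c02) = 0 →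
    l * (e1 * d.r4) + e2 * d.p4 + m * (e1 * d.c03) = 0 → False

end

/-- Weights for which the left sides of the quadrics are the largest terms. -/
def gW4 : Fin 14 → ℕ := ![23, 16, 13, 22, 8, 4, 9, 2, 9, 12, 0, 3, 4, 1]

/-- The left sides of the quadrics. -/
def gBad4 : List (Fin 14 × Fin 14) :=
  [(0, 4), (0, 5), (0, 7), (0, 9), (0, 10), (0, 11), (0, 12), (0, 13), (1, 3), (1, 7), (1, 8), (1,
    9), (1, 10), (1, 11), (1, 12), (1, 13), (2, 3), (2, 9), (2, 10), (2, 12), (2, 13), (3, 4), (3,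
    5), (3, 7), (3, 10), (3, 11), (3, 12), (3, 13), (4, 6), (4, 8), (4, 9), (4, 12), (4, 13), (5,
    8), (5, 9), (5, 11), (6, 10), (6, 11), (7, 9), (7, 12), (8, 10), (8, 12), (9, 10), (9, 11),
    (11, 12)]

/-- The maximal sets of coordinates that contain no left side. -/
def gCl4 : List (List (Fin 14)) :=
  [[0, 1, 2, 6], [0, 2, 6, 8], [0, 3, 6, 8], [1, 2, 4, 5], [1, 2, 5, 6], [2, 4, 5, 7], [2, 4, 7,
    11], [2, 5, 6, 7], [2, 6, 7, 8], [2, 7, 8, 11], [3, 6, 8, 9], [4, 5, 7, 10], [4, 7, 10, 11],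
    [5, 6, 7, 13], [5, 6, 12, 13], [5, 7, 10, 13], [5, 10, 12, 13], [6, 7, 8, 13], [6, 8, 9, 13],
    [6, 9, 12, 13], [7, 8, 11, 13], [7, 10, 11, 13]]

end Pool.Agent.P.MP_6149fc_ag.V22
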