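import Pool.Agent.P.MP_6149fc_ag.V22.BaseL

/-! The strata given by the common roots of the two quartics. -/

set_option autoImplicit false

namespace Pool.Agent.P.MP_6149fc_ag.V22

variable {κ : Type} [Field κ]

/-- `t` is a common root. -/
def Dat.Rt (d : Dat κ) (t : κ) : Prop := d.g1 t = 0 ∧ d.g2 t = 0
/-- No common root other than `0` and infinity. -/
def Dat.Nz (d : Dat κ) : Prop := ∀ t, t ≠ 0 → ¬ d.Rt t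

/-- No common root. -/
def Dat.K0 (d : Dat κ) : Prop := (∀ t, ¬ d.Rt t) ∧ (d.p4 ≠ 0 ∨ d.r4 ≠ 0)
/-- One simple common root. -/
def Dat.K1 (d : Dat κ) : Prop :=
  d.p0 = 0 ∧ d.r0 = 0 ∧ (d.p1 ≠ 0 ∨ d.r1 ≠ 0) ∧ (d.p4 ≠ 0 ∨ d.r4 ≠ 0) ∧ d.Nz
/-- Two simple common roots. -/
def Dat.K11 (d : Dat κ) : Prop :=
  d.p0 = 0 ∧ d.r0 = 0 ∧ d.p4 = 0 ∧ d.r4 = 0 ∧ (d.p1 ≠ 0 ∨ d.r1 ≠ 0) ∧ (d.p3 ≠ 0 ∨ d.r3 ≠ 0) ∧ d.Nz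
/-- One double common root. -/
def Dat.K2 (d : Dat κ) : Prop :=
  d.p0 = 0 ∧ d.r0 = 0 ∧ d.p1 = 0 ∧ d.r1 = 0 ∧ (d.p2 ≠ 0 ∨ d.r2 ≠ 0) ∧ (d.p4 ≠ 0 ∨ d.r4 ≠ 0) ∧ d.Nz
/-- The common roots `0, 1` and infinity. -/
def Dat.K111 (d : Dat κ) : Prop :=
  d.p0 = 0 ∧ d.r0 = 0 ∧ d.p4 = 0 ∧ d.r4 = 0 ∧ d.p1 + d.p2 + d.p3 = 0 ∧ d.r1 + d.r2 + d.r3 = 0
/-- A double root at `0` and a root at infinity. -/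
def Dat.K21 (d : Dat κ) : Prop :=
  d.p0 = 0 ∧ d.r0 = 0 ∧ d.p1 = 0 ∧ d.r1 = 0 ∧ d.p4 = 0 ∧ d.r4 = 0
/-- A triple root at `0`. -/
def Dat.K3 (d : Dat κ) : Prop :=
  d.p0 = 0 ∧ d.r0 = 0 ∧ d.p1 = 0 ∧ d.r1 = 0 ∧ d.p2 = 0 ∧ d.r2 = 0

/-- A property that passes back along all moves. -/
def CloD (Q : Dat κ → Prop) : Prop :=
  (∀ c d, Q (shfD c d) → Q d) ∧ (∀ d, Q (swpD d) → Q d) ∧ ∀ s d, s ≠ 0 → Q (torD s d) → Q d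

/-- A property that holds on all strata. -/
def StrD (Q : Dat κ → Prop) : Prop :=
  (∀ d, d.K0 → Q d) ∧ (∀ d, d.K1 → Q d) ∧ (∀ d, d.K11 → Q d) ∧ (∀ d, d.K2 → Q d) ∧
    (∀ d, d.K111 → Q d) ∧ (∀ d, d.K21 → Q d) ∧ (∀ d, d.K3 → d.p3 ≠ 0 → d.p4 = 0 → Q d) ∧
    ∀ d, d.K3 → d.p3 = 0 → Q d

end Pool.Agent.P.MP_6149fc_ag.V22
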