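import Pool.Agent.P.MP_6149fc_ag.V22.BaseN
import Pool.Agent.P.MP_6149fc_ag.V22.BaseJ

/-! Orders, lists and leading forms for points on three lines. -/

set_option autoImplicit false

namespace Pool.Agent.P.MP_6149fc_ag.V22

open Pool.Agent.P.MP_6149fc_ag.V18
open MvPowerSeries (X)

def A_t : Rows := ![![1, 1, 1], ![0, 0, 1], ![0, 1, 0]]
def P_ta : List PT :=
  [(1, 0, 1, 1), (1, 2, 1, 0), (1, 1, 2, 0), (1, 1, 0, 2), (1, 2, 1, 1), (1, 1, 2, 1)]
def P_tc : List PT := [(1, 2, 1, 0), (1, 0, 2, 1), (1, 1, 0, 2), (1, 2, 1, 1)]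
def A_u : Rows := ![![1, 1, 1], ![0, 1, 0], ![0, 0, 1]]
def P_ua : List PT := [(1, 0, 2, 0), (1, 0, 2, 1), (1, 2, 0, 1), (1, 1, 0, 2), (1, 1, 1, 2)]
def P_ub : List PT :=
  [(1, 0, 2, 0), (1, 0, 2, 1), (1, 2, 0, 1), (1, 1, 2, 1), (1, 1, 1, 2), (1, 0, 2, 2)]
def P_uW : List PT := [(1, 1, 2, 0), (1, 1, 0, 2), (1, 1, 2, 1), (1, 0, 4, 0), (1, 0, 3, 1)]
def P_uY : List PT := [(1, 4, 0, 2)]
def P_nW : List PT := [(1, 0, 0, 2), (1, 1, 4, 0), (1, 0, 3, 1), (1, 0, 5, 0), (2, 1, 2, 3)]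
def P_nY : List PT := [(1, 0, 0, 2), (1, 3, 0, 2)]

section
variable {κ : Type} [Field κ]

/-- The determinant of the linear parts, three distinct lines. -/
def Dat.Dt (d : Dat κ) : κ := (d.p3 - d.r1) * (d.r1 * d.p3 - d.r3 * d.p1)
/-- The determinant of the linear parts, a double line and a line. -/
def Dat.Du (d : Dat κ) : κ := (d.p3 + d.r2) * (d.r2 * d.p3 - d.r3 * d.p2)

/-- A quadric without squares. -/
noncomputable def qd (a b c : κ) (x y z : PS κ) : PS κ := a • (x * y) + b • (x * z) + c • (y * z)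

/-- The leading forms at a point on three distinct lines. -/
structure In111 (W : Submodule κ (PS κ)) (x y z : PS κ) (A B G t01 t02 t10 t12 t20 t21 : κ) :
    Prop where
  xy : LdIn w1 2 W (x * y)
  xz : LdIn w1 2 W (x * z)
  yz : LdIn w1 2 W (y * z)
  fx : LdIn w1 3 W (x * x * ((A * t01) • y + (B * t02) • z))
  fy : LdIn w1 3 W (y * y * ((A * t10) • x + (G * t12) • z))
  fz : LdIn w1 3 W (z * z * ((B * t20) • x + (G * t21) • y))
  nx : LdIn w1 4 W (y * z * qd (A * t10 * t21) (B * t20 * t12) (G * t12 * t21) x y z)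
  ny : LdIn w1 4 W (x * z * qd (A * t01 * t20) (B * t02 * t20) (G * t21 * t02) x y z)
  nz : LdIn w1 4 W (x * y * qd (A * t01 * t10) (B * t02 * t10) (G * t12 * t01) x y z)

variable {W : Submodule κ (PS κ)} {x y z : PS κ} {A B G t01 t02 t10 t12 t20 t21 : κ}

theorem In111.swap01 (h : In111 W x y z A B G t01 t02 t10 t12 t20 t21) :
    In111 W y x z A G B t10 t12 t01 t02 t21 t20 := by
  refine ⟨h.xy.congr (mul_comm _ _), h.yz, h.xz, h.fy, h.fx, h.fz.congr ?_, h.ny.congr ?_, h.nx.congr ?_,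
    h.nz.congr ?_⟩ <;> simp only [qd, Algebra.smul_def, map_mul] <;> ring

theorem In111.swap12 (h : In111 W x y z A B G t01 t02 t10 t12 t20 t21) :
    In111 W x z y B A G t02 t01 t20 t21 t10 t12 := by
  refine ⟨h.xz, h.xy, h.yz.congr (mul_comm _ _), h.fx.congr ?_, h.fz, h.fy, h.nx.congr ?_, h.nz.congr ?_,
    h.ny.congr ?_⟩ <;> simp only [qd, Algebra.smul_def, map_mul] <;> ring

/-- The local statement after a suitable numbering of the three lines. -/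
def Ex111 (A B G t01 t02 t10 t12 t20 t21 : κ) : Prop :=
  ∃ i j k : Fin 3, i ≠ j ∧ i ≠ k ∧ j ≠ k ∧ ∀ (U : ℕ → Submodule κ (PS κ)) (V : ℝ), CtxV U V →
    (∀ l, X l ∈ U 1) → In111 (U 1) (X i) (X j) (X k) A B G t01 t02 t10 t12 t20 t21 → Loc U V

theorem Ex111.swap01 (h : Ex111 A G B t10 t12 t01 t02 t21 t20) :
    Ex111 A B G t01 t02 t10 t12 t20 t21 := by
  obtain ⟨i, j, k, a, b, c, h⟩ := h
  exact ⟨j, i, k, a.symm, c, b, fun U V h1 h2 h3 => h U V h1 h2 h3.swap01⟩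

theorem Ex111.swap12 (h : Ex111 B A G t02 t01 t20 t21 t10 t12) :
    Ex111 A B G t01 t02 t10 t12 t20 t21 := by
  obtain ⟨i, j, k, a, b, c, h⟩ := h
  exact ⟨i, k, j, b, a, c.symm, fun U V h1 h2 h3 => h U V h1 h2 h3.swap12⟩

/-- The coordinates `a0, a1, a5`. -/
def P6.C015 (p : P6 κ) : Prop := p.a0 = X 0 ∧ p.a1 = X 1 ∧ p.a5 = X 2
/-- The coordinates `a0, a1, a2`. -/
def P6.C012 (p : P6 κ) : Prop := p.a0 = X 0 ∧ p.a1 = X 1 ∧ p.a2 = X 2

end

end Pool.Agent.P.MP_6149fc_ag.V22
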