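import Pool.Agent.P.MP_6149fc_ag.V22.BaseJ
import Pool.Agent.P.MP_6149fc_ag.V22.BaseN

/-! Points on at most two lines: normal forms, tangent vectors, resultants. -/

set_option autoImplicit false
set_option linter.unusedSectionVars false

namespace Pool.Agent.P.MP_6149fc_ag.V22

open Pool.Agent.P.MP_6149fc_ag.V18
open MvPowerSeries (X)

section
variable {κ : Type} [Field κ]

/-- The data with quartics `g` and `h` and alternating part `c`. -/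
def dat (c : Cm κ) (g0 g1 g2 g3 g4 h0 h1 h2 h3 h4 : κ) : Dat κ :=
  ⟨h0, h1, h2, h3, h4, g0, g1, g2, g3, g4, c.c01, c.c02, c.c03, c.c12, c.c13, c.c23⟩

/-- The alternating part of the data. -/
def Dat.cm (d : Dat κ) : Cm κ := ⟨d.c01, d.c02, d.c03, d.c12, d.c13, d.c23⟩

theorem dat_eta (d : Dat κ) :
    dat d.cm d.r0 d.r1 d.r2 d.r3 d.r4 d.p0 d.p1 d.p2 d.p3 d.p4 = d := rfl

/-- Use: `td_of_dat (by rw [h1, h2, ..]; exact ..)`. -/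
theorem td_of_dat {d : Dat κ}
    (h : TD (dat d.cm d.r0 d.r1 d.r2 d.r3 d.r4 d.p0 d.p1 d.p2 d.p3 d.p4)) : TD d := h

/-- The local statement at the base point. -/
def GV (c : Cm κ) (g0 g1 g2 g3 g4 h0 h1 h2 h3 h4 : κ) : Prop :=
  GoalV (net (dat c g0 g1 g2 g3 g4 h0 h1 h2 h3 h4)) (e3 κ)

/-- The translation that fixes the root `t = 0`. -/
def ssh (c : κ) (d : Dat κ) : Dat κ := swpD (shfD c (swpD d))

/-- The resultant of two quadrics. -/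
def res2 (h0 h1 h2 k0 k1 k2 : κ) : κ :=
  (h0 * k2 - h2 * k0) ^ 2 - (h0 * k1 - h1 * k0) * (h1 * k2 - h2 * k1)

theorem Hk.ext6 {C : Type} {a b : Hk C} (e0 : a.a0 = b.a0) (e1 : a.a1 = b.a1) (e2 : a.a2 = b.a2)
    (e3 : a.a3 = b.a3) (e4 : a.a4 = b.a4) (e5 : a.a5 = b.a5) : a = b := by
  cases a; cases b; simp_all

theorem Hk.tan_iff (a : Hk κ) (g0 g1 g2 g3 g4 h0 h1 h2 h3 h4 : κ) :
    a.Tan g0 g1 g2 g3 g4 h0 h1 h2 h3 h4 ↔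
      g0 * a.a0 + g1 * a.a1 + g2 * a.a2 + g3 * a.a3 + g4 * a.a4 = 0 ∧
      h0 * a.a0 + (g0 + h1) * a.a1 + (g1 + h2) * a.a2 + (g2 + h3) * a.a3 + (g3 + h4) * a.a4 +
        g4 * a.a5 = 0 ∧
      h0 * a.a1 + h1 * a.a2 + h2 * a.a3 + h3 * a.a4 + h4 * a.a5 = 0 := by
  constructor
  · rintro ⟨e1, e2, e3⟩
    simp only [Hk.K1, Hk.K2, Hk.K3, zero_mul, add_zero, smul_eq_mul] at e1 e2 e3
    exact ⟨e1, e2, e3⟩
  · rintro ⟨e1, e2, e3⟩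
    constructor <;> simp only [Hk.K1, Hk.K2, Hk.K3, zero_mul, add_zero, smul_eq_mul]
    exacts [e1, e2, e3]

theorem Hk.lin_eq (a m : Hk κ) : a.lin m =
    m.a0 * a.a0 + m.a1 * a.a1 + m.a2 * a.a2 + m.a3 * a.a3 + m.a4 * a.a4 + m.a5 * a.a5 := rfl

theorem Hk.Ok.mlin {p : Hk (PS κ)} {W : Submodule κ (PS κ)} (h : p.Ok W) (m : Hk κ) :
    p.lin m ∈ W :=
  add_mem (add_mem (add_mem (add_mem (add_mem (W.smul_mem _ h.m0) (W.smul_mem _ h.m1))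
    (W.smul_mem _ h.m2)) (W.smul_mem _ h.m3)) (W.smul_mem _ h.m4)) (W.smul_mem _ h.m5)

theorem dual2 {u1 u2 : κ} (h : u1 ≠ 0 ∨ u2 ≠ 0) : ∃ m1 m2 : κ, m1 * u1 + m2 * u2 = 1 := by
  rcases h with h | h
  · exact ⟨u1⁻¹, 0, by simp [h]⟩
  · exact ⟨0, u2⁻¹, by simp [h]⟩

theorem dual3' {u1 u2 u3 : κ} (h : u1 ≠ 0 ∨ u2 ≠ 0 ∨ u3 ≠ 0) :
    ∃ m1 m2 m3 : κ, m1 * u1 + m2 * u2 + m3 * u3 = 1 := by
  rcases h with h | h | h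
  · exact ⟨u1⁻¹, 0, 0, by simp [h]⟩
  · exact ⟨0, u2⁻¹, 0, by simp [h]⟩
  · exact ⟨0, 0, u3⁻¹, by simp [h]⟩

theorem dual4 {u1 u2 u3 u4 : κ} (h : u1 ≠ 0 ∨ u2 ≠ 0 ∨ u3 ≠ 0 ∨ u4 ≠ 0) :
    ∃ m1 m2 m3 m4 : κ, m1 * u1 + m2 * u2 + m3 * u3 + m4 * u4 = 1 := by
  rcases h with h | h | h | h
  · exact ⟨u1⁻¹, 0, 0, 0, by simp [h]⟩
  · exact ⟨0, u2⁻¹, 0, 0, by simp [h]⟩
  · exact ⟨0, 0, u3⁻¹, 0, by simp [h]⟩
  · exact ⟨0, 0, 0, u4⁻¹, by simp [h]⟩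

/-- A solution of the three cubic equations is a multiple of the vector of cofactors. -/
theorem par4 {h0 h1 h2 k0 k1 k2 b1 b2 b3 b4 m1 m2 m3 m4 : κ}
    (e1 : h0 * b1 + h1 * b2 + h2 * b3 = 0)
    (e2 : k0 * b1 + (h0 + k1) * b2 + (h1 + k2) * b3 + h2 * b4 = 0)
    (e3 : k0 * b2 + k1 * b3 + k2 * b4 = 0)
    (hm : m1 * kp1 h0 h1 h2 k0 k1 k2 + m2 * kp2 h0 h1 h2 k0 k1 k2 + m3 * kp3 h0 h1 h2 k0 k1 k2 +
      m4 * kp4 h0 h1 h2 k0 k1 k2 = 1) :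
    b1 = (m1 * b1 + m2 * b2 + m3 * b3 + m4 * b4) * kp1 h0 h1 h2 k0 k1 k2 ∧
    b2 = (m1 * b1 + m2 * b2 + m3 * b3 + m4 * b4) * kp2 h0 h1 h2 k0 k1 k2 ∧
    b3 = (m1 * b1 + m2 * b2 + m3 * b3 + m4 * b4) * kp3 h0 h1 h2 k0 k1 k2 ∧
    b4 = (m1 * b1 + m2 * b2 + m3 * b3 + m4 * b4) * kp4 h0 h1 h2 k0 k1 k2 := by
  obtain ⟨c12, c13, c14, c23, c24, c34⟩ := cof (C := κ) (h0 := h0) (h1 := h1) (h2 := h2) (k0 := k0)
    (k1 := k1) (k2 := k2) (b1 := b1) (b2 := b2) (b3 := b3) (b4 := b4) (A := 0) (B := 0) (D := 0)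
    (by simpa using e1) (by simpa using e2) (by simpa using e3)
  simp only [smul_eq_mul, mul_zero, add_zero, sub_self] at c12 c13 c14 c23 c24 c34
  refine ⟨?_, ?_, ?_, ?_⟩
  · linear_combination (-b1) * hm + m2 * c12 + m3 * c13 + m4 * c14
  · linear_combination (-b2) * hm - m1 * c12 + m3 * c23 + m4 * c24
  · linear_combination (-b3) * hm - m1 * c13 - m2 * c23 + m4 * c34
  · linear_combination (-b4) * hm - m1 * c14 - m2 * c24 - m3 * c34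

/-- A solution of two equations in three unknowns is a multiple of the cross product. -/
theorem par3 {x1 x2 x3 y1 y2 y3 b1 b2 b3 u1 u2 u3 m1 m2 m3 : κ}
    (e1 : x1 * b1 + x2 * b2 + x3 * b3 = 0) (e2 : y1 * b1 + y2 * b2 + y3 * b3 = 0)
    (h1 : u1 = x2 * y3 - x3 * y2) (h2 : u2 = x3 * y1 - x1 * y3) (h3 : u3 = x1 * y2 - x2 * y1)
    (hm : m1 * u1 + m2 * u2 + m3 * u3 = 1) :
    b1 = (m1 * b1 + m2 * b2 + m3 * b3) * u1 ∧ b2 = (m1 * b1 + m2 * b2 + m3 * b3) * u2 ∧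
      b3 = (m1 * b1 + m2 * b2 + m3 * b3) * u3 := by
  have c12 : u2 * b1 - u1 * b2 = 0 := by rw [h1, h2]; linear_combination x3 * e2 - y3 * e1
  have c13 : u3 * b1 - u1 * b3 = 0 := by rw [h1, h3]; linear_combination y2 * e1 - x2 * e2
  have c23 : u3 * b2 - u2 * b3 = 0 := by rw [h2, h3]; linear_combination x1 * e2 - y1 * e1
  refine ⟨?_, ?_, ?_⟩
  · linear_combination (-b1) * hm + m2 * c12 + m3 * c13
  · linear_combination (-b2) * hm - m1 * c12 + m3 * c23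
  · linear_combination (-b3) * hm - m1 * c13 - m2 * c23

/-- For coprime quadrics the Hankel matrix of the cofactors has rank two. -/
theorem rk2 {h0 h1 h2 k0 k1 k2 u1 u2 u3 u4 : κ} (h : res2 h0 h1 h2 k0 k1 k2 ≠ 0)
    (e1 : u1 = kp1 h0 h1 h2 k0 k1 k2) (e2 : u2 = kp2 h0 h1 h2 k0 k1 k2)
    (e3 : u3 = kp3 h0 h1 h2 k0 k1 k2) (e4 : u4 = kp4 h0 h1 h2 k0 k1 k2) :
    u1 * u3 - u2 ^ 2 ≠ 0 ∨ u1 * u4 - u2 * u3 ≠ 0 ∨ u2 * u4 - u3 ^ 2 ≠ 0 := by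
  by_contra hc
  simp only [not_or, not_not] at hc
  obtain ⟨a, b, c⟩ := hc
  apply pow_ne_zero 2 h
  subst e1 e2 e3 e4
  simp only [res2, kp1, kp2, kp3, kp4] at a b c ⊢
  linear_combination (h0 * h2 - h1 ^ 2 - h2 * k1) * c - (h0 * h1 + h2 * k0) * b - h0 ^ 2 * a

end

/-- The local statement from the lists of initial exponents. -/
structure LocK (κ : Type) [Field κ] (U : ℕ → Submodule κ (PS κ)) (V : ℝ) : Prop where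
  k0 : Pts A_k0 U P_k0 → Loc U V
  k1g : Pts A_1g U P_1g ∧ (Pt A_1g U 1 (ex 1 0 2) ∨ Pt A_1g U 1 (ex 0 1 2)) → Loc U V
  k1s : Pts A_1s U P_1s ∧
    (Pt A_1s U 1 (ex 2 1 0) ∨ Pt A_1s U 1 (ex 1 2 0) ∨ Pt A_1s U 1 (ex 0 3 0)) → Loc U V
  k2g : Pts A_2g U P_2g ∧
    (Pt A_2g U 1 (ex 0 2 1) ∧ Pt A_2g U 1 (ex 1 2 0) ∨ Pt A_2g U 1 (ex 0 3 0)) → Loc U V
  k2h : Pts A_2g U P_2h ∧ (Pt A_2g U 1 (ex 1 2 0) ∨ Pt A_2g U 1 (ex 0 3 0)) → Loc U V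
  k2ja : Pts A_2j U P_2ja → Loc U V
  k2jb : Pts A_2j U P_2jb → Loc U V
  d1 : Pts (WC 1 1) U P_d1 ∧ Pts (WC 1 (-1)) U P_dY → Loc U V
  d2 : Pts (WC 1 1) U P_d2 → Loc U V
  d3 : Pts (WC 2 1) U P_d3 ∧ Pts (WC 2 (-1)) U P_d3Y → Loc U V
  d4 : Pts (WC 1 1) U P_d4 ∧ Pts (WC 1 (-1)) U P_dY → Loc U V
  d5 : Pts (WC 1 1) U P_d5 ∧ Pts (WC 1 (-1)) U P_dY → Loc U V
  db1 : Pts A_db U P_db1 → Loc U V
  db2 : Pts A_db U P_db2 → Loc U V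

end Pool.Agent.P.MP_6149fc_ag.V22
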