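import Pool.Agent.P.MP_6149fc_ag.V22.IfaceK

section

/-! Step PK0. -/

set_option autoImplicit false
set_option linter.unusedSectionVars false

namespace Pool.Agent.P.MP_6149fc_ag.V22

open Pool.Agent.P.MP_6149fc_ag.V18
open MvPowerSeries (coeff X constantCoeff monomial)

namespace PK0x

variable {κ : Type} [Field κ]

theorem ld_dx {w : Fin 3 → ℕ} {p L : Hk (PS κ)} (l0 : Ld w 1 p.a0 L.a0) (l1 : Ld w 1 p.a1 L.a1)
    (l2 : Ld w 1 p.a2 L.a2) (l3 : Ld w 1 p.a3 L.a3) (l4 : Ld w 1 p.a4 L.a4)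
    (l5 : Ld w 1 p.a5 L.a5) (ξ0 ξ1 ξ2 ξ3 : κ) : Ld w 3 (p.dx ξ0 ξ1 ξ2 ξ3) (L.dx ξ0 ξ1 ξ2 ξ3) := by
  have q13 := (l1.mul l3).sub (l2.pow 2)
  have q14 := (l1.mul l4).sub (l2.mul l3)
  have q15 := (l1.mul l5).sub (l2.mul l4)
  have q24 := (l2.mul l4).sub (l3.pow 2)
  have q25 := (l2.mul l5).sub (l3.mul l4)
  have q35 := (l3.mul l5).sub (l4.pow 2)
  exact ((((((l1.mul q35).sub (l2.mul q25)).add (l3.mul q24)).smul _).sub
    ((((l0.mul q35).sub (l2.mul q15)).add (l3.mul q14)).smul _)).add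
    ((((l0.mul q25).sub (l1.mul q15)).add (l3.mul q13)).smul _)).sub
    ((((l0.mul q24).sub (l1.mul q14)).add (l2.mul q13)).smul _)

theorem dvd_of {g : PS κ} (h : ∀ (C : Type) [CommRing C] (π : PS κ →+* C), π (X 0) = 0 → π g = 0) :
    X 0 ∣ g :=
  Ideal.mem_span_singleton.1 (Ideal.Quotient.eq_zero_iff_mem.1
    (h _ _ (Ideal.Quotient.eq_zero_iff_mem.2 (Ideal.mem_span_singleton_self _))))

theorem lt_k0 {b d : ℕ} (h : b + d = 3) (α : Ex) (h1 : wt w1 α = 3) (h2 : 1 ≤ α 0) :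
    kk A_k0 (ex 0 b d) < kk A_k0 α := by
  simp [wt, w1] at h1
  simp [kk_lt_iff, dt, A_k0]
  omega

end PK0x

open PK0x in
theorem p_PK0 :
    S_PK0 := by
  intro κ _ U p τ f0 f1 f2 f3 f4 f5 f6 h ⟨l0, l1, l2, l3, l4, l5⟩ hD h2
  have hw : First A_k0 w1 := by decide
  have ld := ld_dx (L := ⟨_, _, _, _, _, _⟩) l0 l1 l2 l3 l4 l5
  intro q hq
  simp only [P_k0, List.mem_cons, List.not_mem_nil, or_false] at hq
  rcases hq with rfl | rfl | rfl
  · exact h2.pt hw ((init_mon 2 0 0).congr (by simp [mon]))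
  · refine ⟨_, h.mdx f3 f4 f5 f6, (ld _ _ _ _).init hw (init_of_dvd 0 _ (neg_ne_zero.2 hD)
      (ld _ _ _ _).1 rfl (dvd_of fun C _ π e => ?_) (lt_k0 rfl))⟩
    simp only [Hk.dx, Hk.d123, Hk.d023, Hk.d013, Hk.d012, mon, Algebra.smul_def, map_add, map_sub,
      map_mul, map_pow, map_neg, e, Algebra.algebraMap_self, RingHom.id_apply]
    ring
  · refine ⟨_, h.mdx f0 f1 f2 f3, (ld _ _ _ _).init hw (init_of_dvd 0 _ hD
      (ld _ _ _ _).1 rfl (dvd_of fun C _ π e => ?_) (lt_k0 rfl))⟩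
    simp only [Hk.dx, Hk.d123, Hk.d023, Hk.d013, Hk.d012, mon, Algebra.smul_def, map_add, map_sub,
      map_mul, map_pow, map_neg, e, Algebra.algebraMap_self, RingHom.id_apply]
    ring

end Pool.Agent.P.MP_6149fc_ag.V22

end

section

/-! Step PK1G. -/

set_option autoImplicit false
set_option linter.unusedSectionVars false

namespace Pool.Agent.P.MP_6149fc_ag.V22

open Pool.Agent.P.MP_6149fc_ag.V18
open MvPowerSeries (coeff X constantCoeff monomial)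

namespace PK1Gx

variable {κ : Type} [Field κ]

/-- Series in the first two variables. -/
def S2 (κ : Type) [Field κ] : Subalgebra κ (PS κ) where
  carrier := On κ fun α => α 2 = 0
  mul_mem' := fun ha hb => On_mul (fun β γ h1 h2 => by rw [Finsupp.add_apply, h1, h2]) ha hb
  add_mem' := fun ha hb => Submodule.add_mem _ ha hb
  algebraMap_mem' := fun c => monomial_mem_On (P := fun α => α 2 = 0) (γ := 0) rfl c

theorem x0 : (X 0 : PS κ) ∈ S2 κ :=
  monomial_mem_On (P := fun α => α 2 = 0) (γ := Finsupp.single 0 1) (by simp) 1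

theorem x1 : (X 1 : PS κ) ∈ S2 κ :=
  monomial_mem_On (P := fun α => α 2 = 0) (γ := Finsupp.single 1 1) (by simp) 1

theorem zmul {f : PS κ} (h : f ∈ S2 κ) : X 2 * f ∈ On κ fun α => α 2 < 2 :=
  On_mul (P := fun α => α 2 = 1) (Q := fun α => α 2 = 0)
    (fun β γ h1 h2 => by rw [Finsupp.add_apply, h1, h2]; decide)
    (monomial_mem_On (P := fun α => α 2 = 1) (γ := Finsupp.single 2 1) (by simp) 1) h

theorem gt_of {r : PS κ} {a b c : ℕ} (h : Hm w1 3 r) (h' : r ∈ On κ fun α => α 2 < c)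
    (e : a + b + c = 3) : r ∈ GtK κ A_1g (ex a b c) := fun α hα => by
  have h1 : wt w1 α = 3 := h α hα
  have h2 : α 2 < c := h' α hα
  refine (kk_lt_iff _ _ _).2 ?_
  simp [dt, A_1g, wt, w1] at h1 ⊢
  omega

/-- Leading forms of the six entries. -/
structure LdH (p L : Hk (PS κ)) : Prop where
  l0 : Ld w1 1 p.a0 L.a0
  l1 : Ld w1 1 p.a1 L.a1
  l2 : Ld w1 1 p.a2 L.a2
  l3 : Ld w1 1 p.a3 L.a3
  l4 : Ld w1 1 p.a4 L.a4
  l5 : Ld w1 1 p.a5 L.a5

variable {p L : Hk (PS κ)}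

theorem LdH.dx (h : LdH p L) (ξ0 ξ1 ξ2 ξ3 : κ) :
    Ld w1 3 (p.dx ξ0 ξ1 ξ2 ξ3) (L.dx ξ0 ξ1 ξ2 ξ3) := by
  obtain ⟨l0, l1, l2, l3, l4, l5⟩ := h
  have d012 : Ld w1 3 p.d012 L.d012 := ((l0.mul ((l2.mul l4).sub (l3.pow 2))).sub
    (l1.mul ((l1.mul l4).sub (l2.mul l3)))).add (l2.mul ((l1.mul l3).sub (l2.pow 2)))
  have d013 : Ld w1 3 p.d013 L.d013 := ((l0.mul ((l2.mul l5).sub (l3.mul l4))).sub
    (l1.mul ((l1.mul l5).sub (l2.mul l4)))).add (l3.mul ((l1.mul l3).sub (l2.pow 2)))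
  have d023 : Ld w1 3 p.d023 L.d023 := ((l0.mul ((l3.mul l5).sub (l4.pow 2))).sub
    (l2.mul ((l1.mul l5).sub (l2.mul l4)))).add (l3.mul ((l1.mul l4).sub (l2.mul l3)))
  have d123 : Ld w1 3 p.d123 L.d123 := ((l1.mul ((l3.mul l5).sub (l4.pow 2))).sub
    (l2.mul ((l2.mul l5).sub (l3.mul l4)))).add (l3.mul ((l2.mul l4).sub (l3.pow 2)))
  exact (((d123.smul _).sub (d023.smul _)).add (d013.smul _)).sub (d012.smul _)

theorem LdH.RA (h : LdH p L) (c : Cm κ) (al b1 b2 b3 ap e1 e2 e3 : κ) :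
    Ld w1 3 (p.RA c al b1 b2 b3 ap e1 e2 e3) (L.RA c al b1 b2 b3 ap e1 e2 e3) := by
  obtain ⟨l0, l1, l2, l3, l4, l5⟩ := h
  have q02 : Ld w1 2 p.q02 L.q02 := (l0.mul l2).sub (l1.pow 2)
  have q03 : Ld w1 2 p.q03 L.q03 := (l0.mul l3).sub (l1.mul l2)
  have q04 : Ld w1 2 p.q04 L.q04 := (l0.mul l4).sub (l2.pow 2)
  have q13 : Ld w1 2 p.q13 L.q13 := (l1.mul l3).sub (l2.pow 2)
  have q05 : Ld w1 2 p.q05 L.q05 := (l0.mul l5).sub (l2.mul l3)
  have q14 : Ld w1 2 p.q14 L.q14 := (l1.mul l4).sub (l2.mul l3)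
  have q15 : Ld w1 2 p.q15 L.q15 := (l1.mul l5).sub (l3.pow 2)
  have q24 : Ld w1 2 p.q24 L.q24 := (l2.mul l4).sub (l3.pow 2)
  have q25 : Ld w1 2 p.q25 L.q25 := (l2.mul l5).sub (l3.mul l4)
  have q35 : Ld w1 2 p.q35 L.q35 := (l3.mul l5).sub (l4.pow 2)
  have k1 : Ld w1 2 (p.K1 c) (L.K1 c) := (((((q02.smul _).add (q03.smul _)).add
    ((q04.sub q13).smul _)).add (q13.smul _)).add (q14.smul _)).add (q24.smul _)
  have k2 : Ld w1 2 (p.K2 c) (L.K2 c) := (((((q03.smul _).add (q04.smul _)).add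
    (q05.smul _)).add (q14.smul _)).add (q15.smul _)).add (q25.smul _)
  have k3 : Ld w1 2 (p.K3 c) (L.K3 c) := (((((q13.smul _).add (q14.smul _)).add
    ((q15.sub q24).smul _)).add (q24.smul _)).add (q25.smul _)).add (q35.smul _)
  exact ((k1.mul (((l0.smul _).add (l1.smul _)).add (l2.smul _))).add
    (k2.mul ((l2.smul _).sub (l0.smul _)))).sub
    (k3.mul (((l0.smul _).add (l1.smul _)).add (l2.smul _)))

/-- The linear forms. -/
noncomputable def LL (z : PS κ) (u v : Hk κ) : Hk (PS κ) :=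
  ⟨z, u.a1 • X 0 + v.a1 • X 1, u.a2 • X 0 + v.a2 • X 1, u.a3 • X 0 + v.a3 • X 1,
    u.a4 • X 0 + v.a4 • X 1, u.a5 • X 0 + v.a5 • X 1⟩

theorem lin (a b : κ) : (a • X 0 + b • X 1 : PS κ) ∈ S2 κ :=
  add_mem (Subalgebra.smul_mem _ x0 _) (Subalgebra.smul_mem _ x1 _)

theorem s_dx (u v : Hk κ) (ξ0 ξ1 ξ2 ξ3 : κ) : (LL 0 u v).dx ξ0 ξ1 ξ2 ξ3 ∈ S2 κ := by
  simp only [Hk.dx, Hk.d012, Hk.d013, Hk.d023, Hk.d123, LL]
  repeat' with_reducible first
    | exact lin _ _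
    | exact zero_mem _
    | apply sub_mem
    | apply add_mem
    | apply mul_mem
    | apply pow_mem
    | apply Subalgebra.smul_mem

theorem s_K (u v : Hk κ) (c : Cm κ) :
    (LL 0 u v).K1 c ∈ S2 κ ∧ (LL 0 u v).K2 c ∈ S2 κ ∧ (LL 0 u v).K3 c ∈ S2 κ := by
  simp only [Hk.K1, Hk.K2, Hk.K3, Hk.q02, Hk.q03, Hk.q04, Hk.q13, Hk.q05, Hk.q14, Hk.q15, Hk.q24,
    Hk.q25, Hk.q35, LL]
  refine ⟨?_, ?_, ?_⟩ <;>
  repeat' with_reducible first
    | exact lin _ _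
    | exact zero_mem _
    | apply sub_mem
    | apply add_mem
    | apply mul_mem
    | apply pow_mem
    | apply Subalgebra.smul_mem

theorem split (p : Hk (PS κ)) (ξ0 ξ1 ξ2 ξ3 : κ) : p.dx ξ0 ξ1 ξ2 ξ3 =
    ({ p with a0 := 0 } : Hk (PS κ)).dx ξ0 ξ1 ξ2 ξ3 -
      p.a0 * (ξ1 • p.q35 - ξ2 • p.q25 + ξ3 • p.q24) := by
  simp only [Hk.dx, Hk.d012, Hk.d013, Hk.d023, Hk.d123, Hk.q35, Hk.q25, Hk.q24, Algebra.smul_def]
  ring

theorem dvd (u v : Hk κ) (hu : u.a0 = 0) (ξ0 ξ1 ξ2 ξ3 : κ) :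
    X 1 ∣ (LL 0 u v).dx ξ0 ξ1 ξ2 ξ3 - u.dx ξ0 ξ1 ξ2 ξ3 • mon κ 3 0 0 := by
  rw [← Ideal.mem_span_singleton, ← Ideal.Quotient.eq_zero_iff_mem]
  have h : Ideal.Quotient.mk (Ideal.span {(X 1 : PS κ)}) (X 1) = 0 :=
    Ideal.Quotient.eq_zero_iff_mem.2 (Ideal.mem_span_singleton_self _)
  simp only [Hk.dx, Hk.d012, Hk.d013, Hk.d023, Hk.d123, LL, smul_eq_mul, hu, mon]
  simp only [Algebra.smul_def, map_add, map_sub, map_mul, map_pow, map_zero, h]
  ring

theorem ra (u v : Hk κ) (c : Cm κ) (al b1 b2 b3 ap e1 e2 e3 : κ) :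
    (LL (X 2) u v).RA c al b1 b2 b3 ap e1 e2 e3 - ell c al ap u • mon κ 1 0 2 -
      ell c al ap v • mon κ 0 1 2 ∈ On κ fun α => α 2 < 2 := by
  obtain ⟨k1, k2, k3⟩ := s_K u v c
  have a0 : (LL 0 u v).a0 ∈ S2 κ := zero_mem _
  have a1 : (LL 0 u v).a1 ∈ S2 κ := lin u.a1 v.a1
  have a2 : (LL 0 u v).a2 ∈ S2 κ := lin u.a2 v.a2
  have a3 : (LL 0 u v).a3 ∈ S2 κ := lin u.a3 v.a3
  have a4 : (LL 0 u v).a4 ∈ S2 κ := lin u.a4 v.a4
  have a5 : (LL 0 u v).a5 ∈ S2 κ := lin u.a5 v.a5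
  have h1 : (LL 0 u v).RA c al b1 b2 b3 ap e1 e2 e3 ∈ S2 κ := by
    simp only [Hk.RA]
    repeat' with_reducible first
      | assumption
      | apply sub_mem
      | apply add_mem
      | apply mul_mem
      | apply Subalgebra.smul_mem
  have h2 : (c.c01 • (LL 0 u v).a2 + c.c02 • (LL 0 u v).a3 + c.c03 • (LL 0 u v).a4) *
      ((al + e1) • (LL 0 u v).a1 + e2 • (LL 0 u v).a2) + ap • (LL 0 u v).K1 c +
      (c.c01 • (LL 0 u v).a3 + c.c02 • (LL 0 u v).a4 + c.c03 • (LL 0 u v).a5) *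
        (e3 • (LL 0 u v).a2) - al • (LL 0 u v).K2 c - b1 • (LL 0 u v).K3 c ∈ S2 κ := by
    repeat' with_reducible first
      | assumption
      | apply sub_mem
      | apply add_mem
      | apply mul_mem
      | apply Subalgebra.smul_mem
  have h3 : (LL 0 u v).RA c al b1 b2 b3 ap e1 e2 e3 ∈ On κ fun α => α 2 < 2 :=
    fun α hα => (h1 α hα).trans_lt two_pos
  convert add_mem (zmul h2) h3 using 1
  simp only [Hk.RA, Hk.K1, Hk.K2, Hk.K3, Hk.q02, Hk.q03, Hk.q04, Hk.q13, Hk.q05, Hk.q14, Hk.q15,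
    Hk.q24, Hk.q25, Hk.q35, LL, ell, mon, Algebra.smul_def, map_add, map_sub, map_mul]
  ring

end PK1Gx

open PK1Gx in
theorem p_PK1G :
    S_PK1G := by
  intro κ _ U p c al b1 b2 b3 ap e1 e2 e3 u v n1 n2 n3 ξ0 ξ1 ξ2 ξ3 h E l hu hv hn hξ hd hl
  have hw : First A_1g w1 := by decide
  have H : LdH p (LL (X 2) u v) := ⟨l.l0.congr rfl (by simp [LL, hu, hv]),
    l.l1.congr rfl (by simp [LL]), l.l2.congr rfl (by simp [LL]), l.l3.congr rfl (by simp [LL]),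
    l.l4.congr rfl (by simp [LL]), l.l5.congr rfl (by simp [LL])⟩
  have H' : LdH { p with a0 := 0 } (LL 0 u v) := ⟨Ge.zero.ld, H.l1, H.l2, H.l3, H.l4, H.l5⟩
  constructor
  · intro q hq
    simp only [P_1g, List.mem_cons, List.not_mem_nil, or_false] at hq
    rcases hq with rfl | rfl | rfl
    · refine ⟨_, add_mem (add_mem (Submodule.smul_mem _ n1 h.m35) (Submodule.smul_mem _ n2 h.m25))
        (Submodule.smul_mem _ n3 h.m24), hn.init hw ((init_mon 0 2 0).congr ?_)⟩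
      simp [mon]
    · have a := H'.dx 0 (-n1) n2 (-n3)
      have b : Ld w1 3 (p.dx 0 (-n1) n2 (-n3)) _ := (a.add (H.l0.mul hn)).congr (by
        rw [split]
        simp only [Algebra.smul_def, map_neg]
        ring) rfl
      refine ⟨_, h.mdx _ _ _ _, b.init hw (init_of one_ne_zero (gt_of a.1
        (fun α hα => (s_dx u v _ _ _ _ α hα).trans_lt one_pos) rfl) ?_)⟩
      simp only [mon, LL, one_smul]
      ring
    · have a := H'.dx ξ0 ξ1 ξ2 ξ3
      have b : Ld w1 3 (p.dx ξ0 ξ1 ξ2 ξ3) _ := (a.sub_ge (H.l0.ge.mul hξ)).congr (split ..) rfl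
      refine ⟨_, h.mdx _ _ _ _, b.init hw (init_of_dvd 1 (fun α => wt w1 α = 3 ∧ α 2 = 0) hd
        (fun α hα => ⟨a.1 α hα, s_dx u v _ _ _ _ α hα⟩) rfl (dvd u v hu ..) ?_)⟩
      rintro α ⟨h1, h2⟩ h3
      rw [kk_lt_iff]
      simp [dt, A_1g, wt, w1] at h1 ⊢
      omega
  · have a := H.RA c al b1 b2 b3 ap e1 e2 e3
    have r := ra u v c al b1 b2 b3 ap e1 e2 e3
    have hr := (a.1.sub ((hm_mon 1 0 2 rfl).smul (ell c al ap u))).sub
      ((hm_mon 0 1 2 rfl).smul (ell c al ap v))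
    by_cases e : ell c al ap u = 0
    · refine Or.inr ⟨_, h.mRA E, a.init hw (init_of (hl.resolve_left (not_not.2 e))
        (gt_of hr r rfl) ?_)⟩
      rw [e, zero_smul]
      ring
    · refine Or.inl ⟨_, h.mRA E, a.init hw (init_of e (add_mem (gt_of hr r rfl)
        (Submodule.smul_mem _ (ell c al ap v) (mon_gt (a' := 0) (b' := 1) (c' := 2)
          (by decide)))) ?_)⟩
      ring

end Pool.Agent.P.MP_6149fc_ag.V22

end

section

/-! Step PK1A. -/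

set_option autoImplicit false
set_option linter.unusedSectionVars false

namespace Pool.Agent.P.MP_6149fc_ag.V22

open Pool.Agent.P.MP_6149fc_ag.V18
open MvPowerSeries (coeff X constantCoeff monomial)

theorem p_PK1A :
    S_PK1A := by
  intro κ _ U p c b1 b2 b3 e1 e2 h E ex' ey ez hb h3 hd hL
  let w : Fin 3 → ℕ := ![2, 2, 1]
  have hw : First A_1s w := by decide
  have he2 : e2 ≠ 0 := fun e => h3 (by rw [hb, e, mul_zero])
  have l5 : Ld w 2 p.a5 (X 0) := (Ld.X 0).congr ex' rfl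
  have l4 : Ld w 2 p.a4 (X 1) := (Ld.X 1).congr ey rfl
  have l0 : Ld w 1 p.a0 (X 2) := (Ld.X 2).congr ez rfl
  obtain ⟨q1, q2, q3⟩ := E
  have r3 : (b2 - b1 * e1) • p.a3 = b1 • p.K3 c - p.K1 c := by
    simp only [hb, Algebra.smul_def, map_sub, map_mul, map_zero, map_one] at q1 q3 ⊢
    linear_combination q1 - algebraMap κ (PS κ) b1 * q3
  have r2 : p.a2 + e2 • p.a4 = -(e1 • p.a3) - p.K3 c := by
    simp only [Algebra.smul_def, map_zero, map_one] at q3 ⊢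
    linear_combination q3
  have r2' : p.a2 = -(e2 • p.a4) + (-(e1 • p.a3) - p.K3 c) := by rw [← r2]; ring
  have r1 : p.a1 = -(e1 • p.a2) - b2 • p.a4 - b3 • p.a5 - ((b1 + e2) • p.a3 + p.K2 c) := by
    simp only [Algebra.smul_def, map_zero, map_one, map_add] at q2 ⊢
    linear_combination q2
  have G0 : p.GeA w 1 1 1 1 1 1 := h.geA (by decide)
  have k1 : Ge w 2 (p.K1 c) := G0.K1 c (by decide)
  have k2 : Ge w 2 (p.K2 c) := G0.K2 c (by decide)
  have k3 : Ge w 2 (p.K3 c) := G0.K3 c (by decide)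
  have g3 : Ge w 2 p.a3 := ge_of_smul hd (((k3.smul b1).sub k1).congr r3)
  have g2 : Ge w 2 p.a2 := ((l4.ge.smul e2).neg.add ((g3.smul e1).neg.sub k3)).congr r2'
  have g1 : Ge w 2 p.a1 := ((((g2.smul e1).neg.sub (l4.ge.smul b2)).sub (l5.ge.smul b3)).sub
    ((g3.smul _).add k2)).congr r1
  have G1 : p.GeA w 1 2 2 2 2 2 := ⟨l0.ge, g1, g2, g3, l4.ge, l5.ge⟩
  replace k1 : Ge w 3 (p.K1 c) := G1.K1 c (by decide)
  replace k2 : Ge w 3 (p.K2 c) := G1.K2 c (by decide)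
  replace k3 : Ge w 4 (p.K3 c) := G1.K3 c (by decide)
  replace g3 : Ge w 3 p.a3 := ge_of_smul hd ((((k3.mono (by decide)).smul b1).sub k1).congr r3)
  have l2 : Ld w 2 p.a2 (-(e2 • X 1)) :=
    ((l4.smul e2).neg.add_ge ((g3.smul e1).neg.sub (k3.mono (by decide)))).congr r2' rfl
  have l1 : Ld w 2 p.a1 (-(e1 • -(e2 • X 1)) - b2 • X 1 - b3 • X 0) :=
    ((((l2.smul e1).neg.sub (l4.smul b2)).sub (l5.smul b3)).sub_ge ((g3.smul _).add k2)).congr
      r1 rfl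
  have G2 : p.GeA w 1 2 2 3 2 2 := ⟨l0.ge, g1, g2, g3, l4.ge, l5.ge⟩
  have n13 : Ge w 4 p.q13 := G2.q13 (by decide)
  have lK : Ld w 3 (p.K1 c) ((c.c03 - e2 * c.c01) • (X 2 * X 1)) :=
    ((((((((l0.mul l2).sub_ge (g1.mul g1)).smul c.c01).add_ge
      ((G2.q03 (by decide)).smul c.c02)).add
      ((((l0.mul l4).sub_ge (g2.mul g2)).sub_ge n13).smul c.c03)).add_ge
      (n13.smul c.c12)).add_ge ((G2.q14 (by decide)).smul c.c13)).add_ge
      ((G2.q24 (by decide)).smul c.c23)).congr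
      (by simp only [Hk.K1, Hk.q02, Hk.q04, sq])
      (by simp only [Algebra.smul_def, map_sub, map_mul]; ring)
  obtain ⟨t, et⟩ : ∃ t, t = (b2 - b1 * e1)⁻¹ * (c.c03 - e2 * c.c01) := ⟨_, rfl⟩
  have ht : t ≠ 0 := et ▸ mul_ne_zero (inv_ne_zero hd) hL
  have l3 : Ld w 3 p.a3 (-(t • (X 2 * X 1))) :=
    (ld_of_smul hd ((lK.neg.add_ge (k3.smul b1)).congr (r3.trans (by ring)) rfl)).congr rfl
      (by rw [smul_neg, smul_smul, et])
  have l24 : Ld w 3 (p.a2 + e2 • p.a4) (-(e1 • -(t • (X 2 * X 1)))) :=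
    ((l3.smul e1).neg.sub_ge k3).congr r2 rfl
  have g33 : Ge w 6 (p.a3 * p.a3) := g3.mul g3
  have m05 : Ld w 3 p.q05 (X 2 * X 0) := (l0.mul l5).sub_ge (g2.mul' g3 (by decide))
  have m15 := ((l1.mul l5).sub_ge (g33.mono (by decide))).congr
    (show p.q15 = _ by rw [Hk.q15, sq]) rfl
  have m24 := ((l2.mul l4).sub_ge (g33.mono (by decide))).congr
    (show p.q24 = _ by rw [Hk.q24, sq]) rfl
  have mR : Ld w 4 (p.RA c 0 b1 b2 b3 1 e1 e2 0) ((c.c03 - e2 * c.c01) • (X 2 * X 1) * X 2) :=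
    (((lK.mul l0).add_ge (k1.mul ((g1.smul e1).add (g2.smul e2)))).sub_ge
      (k3.mul (((l0.ge.smul b1).add ((g1.mono (by decide)).smul b2)).add
        ((g2.mono (by decide)).smul b3)))).congr
      (by simp only [Hk.RA, Algebra.smul_def, map_zero, map_one, zero_add, add_zero]; ring) rfl
  have c1 : Ld w 6 _ _ := l0.mul ((l4.mul l24).sub ((l3.mul l5).smul e2))
  have c2 : Ld w 6 _ _ := (((l1.mul (l1.mul l4)).add (l2.mul (l2.mul l2))).sub
    ((l2.mul ((l1.mul l5).sub (l2.mul l4))).smul e2))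
  have c3 : Ge w 7 _ := (((g1.mul (g2.mul g3)).smul 2).sub (l0.ge.mul g33)).sub
    ((g3.mul ((g1.mul l4.ge).sub (g2.mul' g3 (by decide)))).smul e2)
  have mD := ((c1.sub c2).add_ge c3).congr (show p.d012 - e2 • p.d023 = _ by
    simp only [Hk.d012, Hk.d023, Algebra.smul_def, map_ofNat]; ring) rfl
  have c4 : Ld w 6 _ _ := ((l1.mul (l4.mul l4)).add (l2.mul (l2.mul l5))).neg
  have c5 : Ge w 7 _ := ((g1.mul (g3.mul l5.ge)).add ((g2.mul (g3.mul l4.ge)).smul 2)).sub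
    (g3.mul' g33 (by decide))
  have mE := (c4.add_ge c5).congr (show p.d123 = _ by
    simp only [Hk.d123, Algebra.smul_def, map_ofNat]; ring) rfl
  refine ⟨fun q hq => ?_, ?_⟩
  · simp only [P_1s, List.mem_cons, List.not_mem_nil, or_false] at hq
    rcases hq with rfl | rfl | rfl | rfl | rfl
    · refine ⟨_, h.m05, m05.init hw (init_of (t := 1) (e := 0) one_ne_zero (zero_mem _) ?_)⟩
      simp only [mon, Algebra.smul_def, map_one]; ring
    · refine ⟨_, h.m15, m15.init hw (init_of (t := -b3) (e := (e1 * e2 - b2) • mon κ 1 1 0)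
        (neg_ne_zero.2 h3) (Submodule.smul_mem _ _ (mon_gt (by decide))) ?_)⟩
      simp only [mon, Algebra.smul_def, map_neg, map_sub, map_mul]; ring
    · refine ⟨_, h.m24, m24.init hw (init_of (t := -e2) (e := 0) (neg_ne_zero.2 he2)
        (zero_mem _) ?_)⟩
      simp only [mon, Algebra.smul_def, map_neg]; ring
    · refine ⟨_, h.mRA ⟨q1, q2, q3⟩, mR.init hw (init_of (e := 0) hL (zero_mem _) ?_)⟩
      simp only [mon, Algebra.smul_def]; ring
    · refine ⟨_, sub_mem h.m012 (Submodule.smul_mem _ e2 h.m023), mD.init hw (init_of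
        (e := (e1 * t) • mon κ 0 2 2 + (e2 ^ 2 * b3 - b3 ^ 2) • mon κ 2 1 0 +
          ((e2 ^ 2 - 2 * b3) * (b2 - e1 * e2)) • mon κ 1 2 0 - (b2 - e1 * e2) ^ 2 • mon κ 0 3 0)
        (mul_ne_zero he2 ht) ?_ ?_)⟩
      · exact sub_mem (add_mem (add_mem (Submodule.smul_mem _ _ (mon_gt (by decide)))
          (Submodule.smul_mem _ _ (mon_gt (by decide))))
          (Submodule.smul_mem _ _ (mon_gt (by decide))))
          (Submodule.smul_mem _ _ (mon_gt (by decide)))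
      · simp only [mon, Algebra.smul_def, map_sub, map_mul, map_pow, map_ofNat]; ring
  · by_cases d : b3 - e2 ^ 2 = 0
    · have d1 : b1 = e2 := mul_right_cancel₀ he2 (by linear_combination d - hb)
      refine Or.inr ⟨_, h.m123, mE.init hw (init_of (e := 0) hd (zero_mem _) ?_)⟩
      simp only [hb, d1, mon, Algebra.smul_def, map_sub, map_mul]; ring
    · refine Or.inl ⟨_, h.m123, mE.init hw (init_of (e := (b2 - e1 * e2) • mon κ 0 3 0) d
        (Submodule.smul_mem _ _ (mon_gt (by decide))) ?_)⟩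
      simp only [mon, Algebra.smul_def, map_sub, map_mul, map_pow]; ring

end Pool.Agent.P.MP_6149fc_ag.V22

end

section

/-! Step PK1B. -/

set_option autoImplicit false
set_option linter.unusedSectionVars false

namespace Pool.Agent.P.MP_6149fc_ag.V22

open Pool.Agent.P.MP_6149fc_ag.V18
open MvPowerSeries (coeff X constantCoeff monomial)

namespace PK1Bx

variable {κ : Type} [Field κ]

theorem gt {a b c : ℕ} : ∀ (E : List (ℕ × ℕ × ℕ)) (L : List κ),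
    (∀ p ∈ E, ltA A_1s a b c p.1 p.2.1 p.2.2) →
    (List.zipWith (fun p t => t • mon κ p.1 p.2.1 p.2.2) E L).sum ∈ GtK κ A_1s (ex a b c)
  | [], _, _ => zero_mem _
  | _ :: _, [], _ => zero_mem _
  | p :: E, t :: L, h => add_mem (Submodule.smul_mem _ t (mon_gt (h p List.mem_cons_self)))
      (gt E L fun q hq => h q (List.mem_cons_of_mem _ hq))

theorem pt {U : ℕ → Submodule κ (PS κ)} {k a b c : ℕ} {f g : PS κ} (hf : f ∈ U 1)
    (l : Ld ![2, 2, 1] k f g) {t : κ} (ht : t ≠ 0) (E : List (ℕ × ℕ × ℕ)) (L : List κ)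
    (hE : ∀ p ∈ E, ltA A_1s a b c p.1 p.2.1 p.2.2)
    (h : g = t • mon κ a b c + (List.zipWith (fun p t => t • mon κ p.1 p.2.1 p.2.2) E L).sum) :
    Pt A_1s U 1 (ex a b c) := ⟨f, hf, l.init (by decide) (init_of ht (gt E L hE) h)⟩

theorem solve {C : Type} [CommRing C] {a3 a4 a5 y K2 K3 r3 r4 r5 e2 e3 m3 m4 m5 k3 k4 k5 : C}
    (h2 : r3 * a3 + r4 * a4 + r5 * a5 + K2 = 0) (h3 : -a3 + e2 * a4 + e3 * a5 + K3 = 0)
    (hy : m3 * a3 + m4 * a4 + m5 * a5 = y) (c3 : k3 = r4 * e3 - r5 * e2)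
    (c4 : k4 = -r5 - r3 * e3) (c5 : k5 = r3 * e2 + r4) (hm : m3 * k3 + m4 * k4 + m5 * k5 = 1) :
    (k5 * a4 - k4 * a5 = -K2 - r3 * K3 ∧ k3 * a5 - k5 * a3 = e2 * K2 - r4 * K3 ∧
      k4 * a3 - k3 * a4 = e3 * K2 - r5 * K3) ∧
    a3 - k3 * y = (m4 * e3 - m5 * e2) * K2 - (m4 * r5 - m5 * r4) * K3 ∧
    a4 - k4 * y = (-m5 - m3 * e3) * K2 - (m5 * r3 - m3 * r5) * K3 ∧
    a5 - k5 * y = (m3 * e2 + m4) * K2 - (m3 * r4 - m4 * r3) * K3 := by
  obtain rfl : K2 = -(r3 * a3 + r4 * a4 + r5 * a5) := by linear_combination h2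
  obtain rfl : K3 = -(-a3 + e2 * a4 + e3 * a5) := by linear_combination h3
  subst c3 c4 c5 hy
  exact ⟨⟨by ring, by ring, by ring⟩, by linear_combination (-a3) * hm,
    by linear_combination (-a4) * hm, by linear_combination (-a5) * hm⟩

end PK1Bx

open PK1Bx in
theorem p_PK1B :
    S_PK1B := by
  intro κ _ U p c b1 b2 b3 e2 e3 k3 k4 k5 m3 m4 m5 h E ex' ey ez c3 c4 c5 hm hP hB
  let w : Fin 3 → ℕ := ![2, 2, 1]
  let φ := algebraMap κ (PS κ)
  obtain ⟨⟨s1, s2, s3⟩, s4, s5, s6⟩ := solve (a3 := p.a3) (a4 := p.a4) (a5 := p.a5) (y := X 1)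
    (K2 := p.K2 c) (K3 := p.K3 c) (r3 := φ (b1 + e2)) (r4 := φ (b2 + e3)) (r5 := φ b3)
    (e2 := φ e2) (e3 := φ e3) (m3 := φ m3) (m4 := φ m4) (m5 := φ m5) (k3 := φ k3) (k4 := φ k4)
    (k5 := φ k5) (by simpa [Algebra.smul_def, φ] using E.e2)
    (by simpa [Algebra.smul_def, φ] using E.e3) (by simpa [Algebra.smul_def, φ] using ey)
    (by simp [c3]) (by simp [c4]) (by simp [c5]) (by simpa using congrArg φ hm)
  simp only [φ, ← map_mul, ← map_sub, ← map_neg, ← map_add, ← Algebra.smul_def] at s1 s2 s3 s4 s5 s6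
  have s0 : p.a1 = -(b1 • p.a2) - b2 • p.a3 - b3 • p.a4 - p.K1 c := by
    have := E.e1
    rw [zero_smul, one_smul] at this
    linear_combination this
  have l0 : Ld w 1 p.a0 (X 2) := (Ld.X 2).congr ez rfl
  have l2 : Ld w 2 p.a2 (X 0) := (Ld.X 0).congr ex' rfl
  have hy : ∀ t : κ, Hm w 2 (t • X 1 : PS κ) := fun t => (Hm.X 1).smul t
  have st : ∀ n, Ge w n (p.K2 c) → Ge w n (p.K3 c) → Ge w n (p.a3 - k3 • X 1) ∧
      Ge w n (p.a4 - k4 • X 1) ∧ Ge w n (p.a5 - k5 • X 1) := fun n a b =>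
    ⟨((a.smul _).sub (b.smul _)).congr s4, ((a.smul _).sub (b.smul _)).congr s5,
      ((a.smul _).sub (b.smul _)).congr s6⟩
  have G1 := h.geA (w := w) (n := 1) (by decide)
  obtain ⟨t3, t4, t5⟩ := st 2 (G1.K2 c (by decide)) (G1.K3 c (by decide))
  have u3 : Ge w 2 p.a3 := (t3.add (hy k3).ge).congr (by ring)
  have u4 : Ge w 2 p.a4 := (t4.add (hy k4).ge).congr (by ring)
  have G2 : p.GeA w 1 2 2 2 2 2 := ⟨G1.g0, ((((l2.ge.smul _).neg.sub (u3.smul _)).sub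
    (u4.smul _)).sub (G1.K1 c (by decide))).congr s0, l2.ge, u3, u4,
    (t5.add (hy k5).ge).congr (by ring)⟩
  have g1 : Ge w 3 (p.K1 c) := G2.K1 c (by decide)
  have g3 : Ge w 4 (p.K3 c) := G2.K3 c (by decide)
  obtain ⟨v3, v4, v5⟩ := st 3 (G2.K2 c (by decide)) (g3.mono (by decide))
  have l3 := ld_of_ge (hy k3) v3
  have l4 := ld_of_ge (hy k4) v4
  have l5 := ld_of_ge (hy k5) v5
  have l1 := ((((l2.smul b1).neg.sub (l3.smul b2)).sub (l4.smul b3)).sub_ge g1).congr s0 rfl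
  have lK : Ld w 3 (p.K2 c) ((c.c01 * k3 + c.c02 * k4 + c.c03 * k5) • (X 1 * X 2)) :=
    ((((((((l0.mul l3).sub_ge (l1.mul l2).ge).smul c.c01).add
      (((l0.mul l4).sub_ge (l2.pow 2).ge).smul c.c02)).add
      (((l0.mul l5).sub_ge (l2.mul l3).ge).smul c.c03)).add_ge
      ((G2.q14 (by decide)).smul c.c12)).add_ge ((G2.q15 (by decide)).smul c.c13)).add_ge
      ((G2.q25 (by decide)).smul c.c23)).congr rfl
      (by simp only [Algebra.smul_def, map_add, map_mul]; ring)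
  have lR : Ld w 4 (p.RA c 1 b1 b2 b3 0 (-1) e2 e3) _ :=
    ((((lK.mul l0).neg.add_ge (g1.mul (l2.ge.smul e2))).add_ge
      (lK.ge.mul (l2.ge.smul e3))).sub_ge (g3.mul (((G2.g0.smul b1).add
        ((G2.g1.mono one_le_two).smul (b2 + e3))).add
        ((G2.g2.mono one_le_two).smul b3)))).congr (by simp [Hk.RA, Algebra.smul_def]; ring) rfl
  have lD : Ld w 6 (-p.dx 0 k3 k4 k5) _ :=
    ((((l0.mul (((l2.mul ((lK.neg.sub_ge (g3.smul _)).congr s1 rfl)).add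
      (l3.mul (((lK.smul e2).sub_ge (g3.smul _)).congr s2 rfl))).add
      (l4.mul (((lK.smul e3).sub_ge (g3.smul _)).congr s3 rfl)))).add
      (((l3.mul ((l1.mul l4).sub (l2.mul l3))).sub
        (l2.mul ((l1.mul l5).sub (l2.mul l4)))).smul k3)).sub
      (((l3.mul ((l1.mul l3).sub (l2.pow 2))).sub
        (l1.mul ((l1.mul l5).sub (l2.mul l4)))).smul k4)).add
      (((l2.mul ((l1.mul l3).sub (l2.pow 2))).sub
        (l1.mul ((l1.mul l4).sub (l2.mul l3)))).smul k5)).congr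
      (by simp only [Hk.dx, Hk.d012, Hk.d013, Hk.d023, Algebra.smul_def, map_zero]; ring) rfl
  have lE : Ld w 6 p.d123 (-k5 • mon κ 2 1 0 + (2 * k3 * k4 - b1 * (k3 * k5 - k4 ^ 2)) •
      mon κ 1 2 0 + (-((b2 * k3 + b3 * k4) * (k3 * k5 - k4 ^ 2) + k3 ^ 3)) • mon κ 0 3 0) :=
    (((l1.mul ((l3.mul l5).sub (l4.pow 2))).sub (l2.mul ((l2.mul l5).sub (l3.mul l4)))).add
      (l3.mul ((l2.mul l4).sub (l3.pow 2)))).congr rfl
      (by simp [mon, Algebra.smul_def, map_ofNat]; ring)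
  refine ⟨fun q hq => ?_, ?_⟩
  · simp only [P_1s, List.mem_cons, List.not_mem_nil, or_false] at hq
    rcases hq with rfl | rfl | rfl | rfl | rfl
    · exact pt h.m02 ((l0.mul l2).sub_ge (l1.pow 2).ge) one_ne_zero [] [] (by decide)
        (by simp [mon]; ring)
    · exact pt h.m13 ((l1.mul l3).sub (l2.pow 2)) (neg_ne_zero.2 one_ne_zero)
        [(1, 1, 0), (0, 2, 0)] [-(b1 * k3), -((b2 * k3 + b3 * k4) * k3)] (by decide)
        (by simp [mon, Algebra.smul_def]; ring)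
    · exact pt h.m35 ((l3.mul l5).sub (l4.pow 2)) hP [] [] (by decide)
        (by simp [mon, Algebra.smul_def]; ring)
    · exact pt (h.mRA E) lR (neg_ne_zero.2 hB) [] [] (by decide)
        (by simp [mon, Algebra.smul_def]; ring)
    · exact pt (neg_mem (h.mdx 0 k3 k4 k5)) lD (neg_ne_zero.2 hB)
        [(0, 2, 2), (3, 0, 0), (2, 1, 0), (1, 2, 0)]
        [(e2 * k3 + e3 * k4) * (c.c01 * k3 + c.c02 * k4 + c.c03 * k5), -k5,
          2 * k3 * k4 - b1 * (k3 * k5 - k4 ^ 2),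
          -((b2 * k3 + b3 * k4) * (k3 * k5 - k4 ^ 2) + k3 ^ 3)] (by decide)
        (by simp [mon, Algebra.smul_def, map_ofNat]; ring)
  by_cases z5 : k5 = 0
  · by_cases z4 : 2 * k3 * k4 - b1 * (k3 * k5 - k4 ^ 2) = 0
    · refine .inr (.inr (pt h.m123 lE (neg_ne_zero.2 fun z3 : (b2 * k3 + b3 * k4) *
        (k3 * k5 - k4 ^ 2) + k3 ^ 3 = 0 => ?_) [] [] (by decide) (by rw [z4]; simp [z5])))
      have n4 : k4 ≠ 0 := fun e => hP (by simp [e, z5])
      have f1 : k3 = e2 * k4 := by linear_combination c3 - e2 * c4 - e3 * c5 + e3 * z5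
      have f2 : b1 = -2 * e2 := mul_left_cancel₀ (pow_ne_zero 2 n4) (by
        linear_combination z4 - 2 * k4 * f1 + b1 * k3 * z5)
      have f3 : b2 + e3 = e2 ^ 2 := by linear_combination z5 - c5 - e2 * f2
      have f4 : b3 = e2 * e3 := mul_left_cancel₀ (pow_ne_zero 3 n4) (by
        rw [z5, f1] at z3
        linear_combination -z3 - e2 * k4 ^ 3 * f3)
      exact n4 (by linear_combination c4 - f4 - e3 * f2)
    · exact .inr (.inl (pt h.m123 lE z4 [(0, 3, 0)] [_] (by decide)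
        (by rw [z5, neg_zero, zero_smul, zero_add]; simp only [List.zipWith, List.sum_cons,
          List.sum_nil, add_zero]; rfl)))
  · exact .inl (pt h.m123 lE (neg_ne_zero.2 z5) [(1, 2, 0), (0, 3, 0)] [_, _] (by decide)
      (by simp only [List.zipWith, List.sum_cons, List.sum_nil, add_zero, add_assoc]; rfl))

end Pool.Agent.P.MP_6149fc_ag.V22

end

section

/-! Step PK2G. -/

set_option autoImplicit false
set_option linter.unusedSectionVars false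

namespace Pool.Agent.P.MP_6149fc_ag.V22

open Pool.Agent.P.MP_6149fc_ag.V18
open MvPowerSeries (coeff X constantCoeff monomial)

namespace PK2Gx

variable {κ : Type} [Field κ]

theorem gt030 {f : PS κ} (j : Fin 3) (hj : j ≠ 1) (h : Ge ![2, 3, 2] 7 f) :
    X j * f ∈ GtK κ A_2g (ex 0 3 0) := by
  refine On_mul (P := fun α => α = Finsupp.single j 1) (fun β γ h1 h2 => ?_)
    (monomial_mem_On (P := fun α => α = Finsupp.single j 1) rfl (1 : κ)) h
  subst h1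
  rw [kk_lt_iff]
  simp only [wt, Matrix.cons_val_zero, Matrix.cons_val_one, Matrix.cons_val] at h2
  fin_cases j
  · simp [dt, A_2g]
    omega
  · exact absurd rfl hj
  · simp [dt, A_2g]
    omega

theorem nz1 {u1 u2 u3 u4 : κ}
    (h : u1 * u3 - u2 ^ 2 ≠ 0 ∨ u1 * u4 - u2 * u3 ≠ 0 ∨ u2 * u4 - u3 ^ 2 ≠ 0)
    (h0 : u2 * u4 - u3 ^ 2 = 0) : u2 * (u1 * u3 - u2 ^ 2) - u1 * (u1 * u4 - u2 * u3) ≠ 0 := by
  intro hp
  have a : u1 * u3 - u2 ^ 2 = 0 :=
    pow_eq_zero_iff (n := 2) (by norm_num) |>.1 (by linear_combination -u2 * hp - u1 ^ 2 * h0)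
  have b : u1 * u4 - u2 * u3 = 0 :=
    pow_eq_zero_iff (n := 2) (by norm_num) |>.1 (by
      linear_combination -u4 * hp + (u2 * u4 - u3 ^ 2) * a - u1 * u3 * h0)
  simp [a, b, h0] at h

theorem nz2 {u1 u2 u3 u4 : κ}
    (h : u1 * u3 - u2 ^ 2 ≠ 0 ∨ u1 * u4 - u2 * u3 ≠ 0 ∨ u2 * u4 - u3 ^ 2 ≠ 0)
    (h0 : u1 * u3 - u2 ^ 2 = 0) : u3 * (u2 * u4 - u3 ^ 2) - u4 * (u1 * u4 - u2 * u3) ≠ 0 := by
  intro hp
  refine nz1 (u1 := u4) (u2 := u3) (u3 := u2) (u4 := u1) ?_ (by linear_combination h0)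
    (by linear_combination hp)
  rcases h with h | h | h
  · exact absurd h0 h
  · exact Or.inr (Or.inl fun e => h (by linear_combination e))
  · exact Or.inl fun e => h (by linear_combination e)

end PK2Gx

open PK2Gx in
theorem p_PK2G :
    S_PK2G := by
  intro κ _ U p c h0 h1 h2 k0 k1 k2 u1 u2 u3 u4 m1 m2 m3 m4 h E ex' ey ez e1 e2 e3 e4 hm hP hc
    hh hk
  let w : Fin 3 → ℕ := ![2, 3, 2]
  have hw : First A_2g w := by decide
  have lx : Ld w 2 p.a5 (X 0) := (Ld.X 0).congr ex' rfl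
  have lz : Ld w 2 p.a0 (X 2) := (Ld.X 2).congr ez rfl
  have hy : Hm w 3 (X 1 : PS κ) := Hm.X 1
  have G2 : p.GeA w 2 2 2 2 2 2 := h.geA (by decide)
  have gA : Ge w 4 (p.K1 c) := G2.K1 c (by decide)
  have gB : Ge w 4 (p.K2 c) := G2.K2 c (by decide)
  have gD : Ge w 4 (p.K3 c) := G2.K3 c (by decide)
  obtain ⟨n12, n13, n14, n23, n24, n34⟩ := cof (h0 := h0) (h1 := h1) (h2 := h2) (k0 := k0)
    (k1 := k1) (k2 := k2) (b1 := p.a1) (b2 := p.a2) (b3 := p.a3) (b4 := p.a4) (A := p.K1 c)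
    (B := p.K2 c) (D := p.K3 c) (by simpa using E.e1) (by simpa using E.e2) (by simpa using E.e3)
  rw [← e1, ← e2] at n12
  rw [← e1, ← e3] at n13
  rw [← e1, ← e4] at n14
  rw [← e2, ← e3] at n23
  rw [← e2, ← e4] at n24
  rw [← e3, ← e4] at n34
  have g12 := (((gA.smul _).sub (gB.smul _)).add (gD.smul _)).congr n12
  have g13 := (((gA.smul _).add (gB.smul _)).sub (gD.smul _)).congr n13
  have g14 := (((gA.smul _).add (gB.smul _)).add (gD.smul _)).congr n14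
  have g23 := (((gA.smul _).sub (gB.smul _)).add (gD.smul _)).congr n23
  have g24 := (((gB.smul _).sub (gA.smul _)).add (gD.smul _)).congr n24
  have g34 := (((gA.smul _).sub (gB.smul _)).add (gD.smul _)).congr n34
  have l1 : Ld w 3 p.a1 (u1 • X 1) := ld_of_ge (hy.smul _)
    ((((g12.smul m2).add (g13.smul m3)).add (g14.smul m4)).congr (by
      rw [← ey]; linear_combination (norm := module) (-hm) • p.a1))
  have l2 : Ld w 3 p.a2 (u2 • X 1) := ld_of_ge (hy.smul _)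
    ((((g23.smul m3).add (g24.smul m4)).sub (g12.smul m1)).congr (by
      rw [← ey]; linear_combination (norm := module) (-hm) • p.a2))
  have l3 : Ld w 3 p.a3 (u3 • X 1) := ld_of_ge (hy.smul _)
    ((((g34.smul m4).sub (g13.smul m1)).sub (g23.smul m2)).congr (by
      rw [← ey]; linear_combination (norm := module) (-hm) • p.a3))
  have l4 : Ld w 3 p.a4 (u4 • X 1) := ld_of_ge (hy.smul _)
    ((((g14.smul m1).neg.sub (g24.smul m2)).sub (g34.smul m3)).congr (by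
      rw [← ey]; linear_combination (norm := module) (-hm) • p.a4))
  have G3 : p.GeA w 2 3 3 3 3 2 := ⟨lz.ge, l1.ge, l2.ge, l3.ge, l4.ge, lx.ge⟩
  have gA5 : Ge w 5 (p.K1 c) := G3.K1 c (by decide)
  have gD5 : Ge w 5 (p.K3 c) := G3.K3 c (by decide)
  have q03 : Ge w 5 p.q03 := G3.q03 (by decide)
  have q04 : Ge w 5 p.q04 := G3.q04 (by decide)
  have q14 : Ge w 5 p.q14 := G3.q14 (by decide)
  have q15 : Ge w 5 p.q15 := G3.q15 (by decide)
  have q25 : Ge w 5 p.q25 := G3.q25 (by decide)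
  have l05 : Ld w 4 p.q05 (X 2 * X 0) := (lz.mul lx).sub_ge (l2.ge.mul' l3.ge (by decide))
  have lB : Ld w 4 (p.K2 c) (c.c03 • (X 2 * X 0)) :=
    ((l05.smul c.c03).add_ge (((((q03.smul c.c01).add (q04.smul c.c02)).add
      (q14.smul c.c12)).add (q15.smul c.c13)).add (q25.smul c.c23))).congr
      (by rw [Hk.K2]; abel) rfl
  have l23 : Ld w 4 (u3 • p.a2 - u2 • p.a3) (-((h0 * k2) • (c.c03 • (X 2 * X 0)))) :=
    ((lB.smul (h0 * k2)).neg.add_ge ((gA5.smul (k0 * k2)).add (gD5.smul (h0 * h2)))).congr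
      (by rw [n23]; abel) rfl
  have l13 : Ld w 6 p.q13 ((u1 * u3 - u2 ^ 2) • X 1 ^ 2) :=
    ((l1.mul l3).sub (l2.pow 2)).congr rfl
      (by simp only [Algebra.smul_def, map_sub, map_mul, map_pow]; ring)
  have l14 : Ld w 6 p.q14 ((u1 * u4 - u2 * u3) • X 1 ^ 2) :=
    ((l1.mul l4).sub (l2.mul l3)).congr rfl
      (by simp only [Algebra.smul_def, map_sub, map_mul]; ring)
  have l24 : Ld w 6 p.q24 ((u2 * u4 - u3 ^ 2) • X 1 ^ 2) :=
    ((l2.mul l4).sub (l3.pow 2)).congr rfl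
      (by simp only [Algebra.smul_def, map_sub, map_mul, map_pow]; ring)
  have r0 := (l2.mul l13).sub (l1.mul l14)
  have r1 := (l3.mul l24).sub (l4.mul l14)
  have d0 : p.d012 = (p.a2 * p.q13 - p.a1 * p.q14) + p.a0 * p.q24 := by
    simp only [Hk.d012, Hk.q13, Hk.q14, Hk.q24]; ring
  have d1 : p.d123 = (p.a3 * p.q24 - p.a4 * p.q14) + p.a5 * p.q13 := by
    simp only [Hk.d123, Hk.q13, Hk.q14, Hk.q24]; ring
  refine ⟨fun q hq => ?_, ?_⟩
  · simp only [P_2g, List.mem_cons, List.not_mem_nil, or_false] at hq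
    rcases hq with rfl | rfl | rfl
    · have l := ((lB.mul ((lz.smul h0).neg.add_ge (l1.ge.smul k2))).add_ge
        ((gA5.mul ((G2.g0.smul k0).add (G2.g1.smul (h0 + k1)))).sub
          (gD5.mul ((G2.g0.smul (h1 + k2)).add (G2.g1.smul h2))))).congr
        (f' := p.RB c h0 h1 h2 k0 k1 k2 p.a0 p.a1) (by rw [Hk.RB]; ring) rfl
      refine ⟨_, (h.mRB E).1, l.init hw (init_of (t := -(h0 * c.c03)) (e := 0)
        (neg_ne_zero.2 (mul_ne_zero hh hc)) (zero_mem _) ?_)⟩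
      simp only [mon, Algebra.smul_def, map_neg, map_mul]; ring
    · have l := ((lB.mul ((lx.smul k2).sub_ge (l4.ge.smul h0))).add_ge
        ((gA5.mul ((G2.g4.smul k0).add (G2.g5.smul (h0 + k1)))).sub
          (gD5.mul ((G2.g4.smul (h1 + k2)).add (G2.g5.smul h2))))).congr
        (f' := p.RB c h0 h1 h2 k0 k1 k2 p.a4 p.a5) (by rw [Hk.RB]; ring) rfl
      refine ⟨_, (h.mRB E).2, l.init hw (init_of (t := k2 * c.c03) (e := 0)
        (mul_ne_zero hk hc) (zero_mem _) ?_)⟩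
      simp only [mon, Algebra.smul_def, map_mul]; ring
    · have l := ((l23.mul l05).add_ge (((((g12.mul q25).sub (g13.mul q15)).add
        (g14.mul q14)).sub (g24.mul q04)).add (g34.mul q03))).congr
        (f' := p.dx u1 u2 u3 u4) (by
          simp only [Hk.dx, Hk.d012, Hk.d013, Hk.d023, Hk.d123, Hk.q03, Hk.q04, Hk.q05, Hk.q14,
            Hk.q15, Hk.q25, Algebra.smul_def]
          ring) rfl
      refine ⟨_, h.mdx u1 u2 u3 u4, l.init hw (init_of (t := -(h0 * k2 * c.c03)) (e := 0)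
        (neg_ne_zero.2 (mul_ne_zero (mul_ne_zero hh hk) hc)) (zero_mem _) ?_)⟩
      simp only [mon, Algebra.smul_def, map_neg, map_mul]; ring
  · by_cases a : u2 * u4 - u3 ^ 2 = 0
    · rw [a, zero_smul] at l24
      refine Or.inr ⟨_, h.m012, ((r0.init hw (init_of (e := 0) (nz1 hP a) (zero_mem _) ?_)).add_gt
        (gt030 2 (by decide) l24.ge_succ)).congr (by rw [d0, ez])⟩
      simp only [mon, Algebra.smul_def, map_sub, map_mul, map_pow]; ring
    by_cases b : u1 * u3 - u2 ^ 2 = 0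
    · rw [b, zero_smul] at l13
      refine Or.inr ⟨_, h.m123, ((r1.init hw (init_of (e := 0) (nz2 hP b) (zero_mem _) ?_)).add_gt
        (gt030 0 (by decide) l13.ge_succ)).congr (by rw [d1, ex'])⟩
      simp only [mon, Algebra.smul_def, map_sub, map_mul, map_pow]; ring
    refine Or.inl ⟨⟨_, h.m012, (((lz.mul l24).add_ge r0.ge).init hw
      (init_of (e := 0) a (zero_mem _) ?_)).congr (by rw [d0, add_comm])⟩,
      ⟨_, h.m123, (((lx.mul l13).add_ge r1.ge).init hw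
      (init_of (e := 0) b (zero_mem _) ?_)).congr (by rw [d1, add_comm])⟩⟩
    all_goals
      simp only [mon, Algebra.smul_def, map_sub, map_mul, map_pow]; ring

end Pool.Agent.P.MP_6149fc_ag.V22

end

section

/-! Step PK2H. -/

set_option autoImplicit false
set_option linter.unusedSectionVars false

namespace Pool.Agent.P.MP_6149fc_ag.V22

open Pool.Agent.P.MP_6149fc_ag.V18
open MvPowerSeries (coeff X constantCoeff monomial)

namespace PK2Hx

theorem cub {κ : Type} [Field κ] {u1 u2 u3 u4 : κ} (h0 : u1 * u3 - u2 ^ 2 = 0)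
    (h : u1 * u3 - u2 ^ 2 ≠ 0 ∨ u1 * u4 - u2 * u3 ≠ 0 ∨ u2 * u4 - u3 ^ 2 ≠ 0) :
    2 * (u2 * u3 * u4) - u1 * u4 ^ 2 - u3 ^ 3 ≠ 0 := fun e => by
  rcases h with h | h | h
  · exact h h0
  · exact pow_ne_zero 2 h (by linear_combination -u1 * e - u3 ^ 2 * h0)
  · exact pow_ne_zero 2 h (by linear_combination -u3 * e - u4 ^ 2 * h0)

end PK2Hx

theorem p_PK2H :
    S_PK2H := by
  intro κ _ U p c h1 h2 k0 k1 k2 u1 u2 u3 u4 m2 m3 m4 h E ex' ey ez d1 d2 d3 d4 hm hr hc hk0 hk2 hA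
  let w : Fin 3 → ℕ := ![2, 3, 2]
  have hw : First A_2g w := by decide
  have lx : Ld w 2 p.a5 (X 0) := (Ld.X 0).congr ex' rfl
  have ly : Ld w 3 (X 1 : PS κ) (X 1) := Ld.X 1
  have lz : Ld w 2 p.a0 (X 2) := (Ld.X 2).congr ez rfl
  obtain ⟨i1, i2, i3, i4, i5, i6⟩ := cof (h0 := 0) (h1 := h1) (h2 := h2) (k0 := k0) (k1 := k1)
    (k2 := k2) (b1 := p.a1) (b2 := p.a2) (b3 := p.a3) (b4 := p.a4) (A := p.K1 c) (B := p.K2 c)
    (D := p.K3 c) (by linear_combination (norm := module) E.e1)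
    (by linear_combination (norm := module) E.e2) (by linear_combination (norm := module) E.e3)
  rw [← d1, ← d2] at i1
  rw [← d1, ← d3] at i2
  rw [← d1, ← d4] at i3
  rw [← d2, ← d3] at i4
  rw [← d2, ← d4] at i5
  rw [← d3, ← d4] at i6
  clear d1 d2 d3 d4
  simp only [zero_mul, zero_smul, sub_zero, add_zero, zero_sub, zero_pow two_ne_zero]
    at i1 i2 i3 i4 i5 i6
  have r1 : p.a1 - u1 • X 1 = m2 • (u2 • p.a1 - u1 • p.a2) + m3 • (u3 • p.a1 - u1 • p.a3) +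
      m4 • (u4 • p.a1 - u1 • p.a4) := by
    rw [← ey]; linear_combination (norm := module) (-1 : κ) • hm • p.a1
  have r2 : p.a2 - u2 • X 1 = m3 • (u3 • p.a2 - u2 • p.a3) + m4 • (u4 • p.a2 - u2 • p.a4) := by
    rw [← ey]; linear_combination (norm := module) (-1 : κ) • hm • p.a2
  have r3 : p.a3 - u3 • X 1 = m4 • (u4 • p.a3 - u3 • p.a4) - m2 • (u3 • p.a2 - u2 • p.a3) := by
    rw [← ey]; linear_combination (norm := module) (-1 : κ) • hm • p.a3
  have r4 : p.a4 - u4 • X 1 = -(m2 • (u4 • p.a2 - u2 • p.a4)) - m3 • (u4 • p.a3 - u3 • p.a4) := by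
    rw [← ey]; linear_combination (norm := module) (-1 : κ) • hm • p.a4
  have key : ∀ n, Ge w n (p.K1 c) → Ge w n (p.K3 c) → Ge w n (u3 • p.a2 - u2 • p.a3) ∧
      Ge w n (u4 • p.a2 - u2 • p.a4) ∧ Ge w n (u4 • p.a3 - u3 • p.a4) := fun n a b =>
    ⟨(a.smul _).congr i4, ((a.smul _).neg.add (b.smul _)).congr i5,
      ((a.smul _).add (b.smul _)).congr i6⟩
  -- first round
  have G0 : p.GeA w 2 2 2 2 2 2 := h.geA (by decide)
  have a1 : Ge w 4 (p.K1 c) := G0.K1 c (by decide)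
  have a2 : Ge w 4 (p.K2 c) := G0.K2 c (by decide)
  have a3 : Ge w 4 (p.K3 c) := G0.K3 c (by decide)
  obtain ⟨b4, b5, b6⟩ := key 4 a1 a3
  have b1 := (((a1.smul _).sub (a2.smul _)).add (a3.smul _)).congr i1
  have b2 := (((a1.smul _).add (a2.smul _)).sub (a3.smul _)).congr i2
  have b3 := (((a1.smul _).add (a2.smul _)).add (a3.smul _)).congr i3
  have l1 : Ld w 3 p.a1 (u1 • X 1) :=
    ld_of_ge (ly.1.smul _) ((((b1.smul _).add (b2.smul _)).add (b3.smul _)).congr r1)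
  have l2 : Ld w 3 p.a2 (u2 • X 1) :=
    ld_of_ge (ly.1.smul _) (((b4.smul _).add (b5.smul _)).congr r2)
  have l3 : Ld w 3 p.a3 (u3 • X 1) :=
    ld_of_ge (ly.1.smul _) (((b6.smul _).sub (b4.smul _)).congr r3)
  have l4 : Ld w 3 p.a4 (u4 • X 1) :=
    ld_of_ge (ly.1.smul _) (((b5.smul _).neg.sub (b6.smul _)).congr r4)
  clear a1 a2 a3 b1 b2 b4 b5 b6 G0
  -- second round
  have G : p.GeA w 2 3 3 3 3 2 := ⟨lz.ge, l1.ge, l2.ge, l3.ge, l4.ge, lx.ge⟩
  have q02 : Ld w 5 p.q02 (X 2 * u2 • X 1) := (lz.mul l2).sub_ge (l1.ge.pow 2)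
  have q03 : Ld w 5 p.q03 (X 2 * u3 • X 1) := (lz.mul l3).sub_ge (l1.ge.mul l2.ge)
  have q04 : Ld w 5 p.q04 (X 2 * u4 • X 1) := (lz.mul l4).sub_ge (l2.ge.pow 2)
  have q05 : Ld w 4 p.q05 (X 2 * X 0) := (lz.mul lx).sub_ge (l2.ge.mul' l3.ge (by decide))
  have q15 : Ld w 5 p.q15 (u1 • X 1 * X 0) := (l1.mul lx).sub_ge (l3.ge.pow 2)
  have q25 : Ld w 5 p.q25 (u2 • X 1 * X 0) := (l2.mul lx).sub_ge (l3.ge.mul l4.ge)
  have q35 : Ld w 5 p.q35 (u3 • X 1 * X 0) := (l3.mul lx).sub_ge (l4.ge.pow 2)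
  have q13 : Ge w 6 p.q13 := G.q13 (by decide)
  have q14 : Ge w 6 p.q14 := G.q14 (by decide)
  have q24 : Ge w 6 p.q24 := G.q24 (by decide)
  obtain ⟨A, eA⟩ : ∃ A, A = c.c01 * u2 + c.c02 * u3 + c.c03 * u4 := ⟨_, rfl⟩
  rw [← eA] at hA
  have K1 : Ld w 5 (p.K1 c) (A • (X 1 * X 2)) :=
    ((((((q02.smul _).add (q03.smul _)).add ((q04.sub_ge q13).smul _)).add_ge
      (q13.smul _)).add_ge (q14.smul _)).add_ge (q24.smul _)).congr rfl
      (by simp only [eA, Algebra.smul_def, map_add, map_mul]; ring)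
  have K2 : Ld w 4 (p.K2 c) (c.c03 • (X 0 * X 2)) :=
    ((q05.smul c.c03).add_ge (((((q03.ge.smul c.c01).add (q04.ge.smul c.c02)).add
      ((q14.mono (by decide)).smul c.c12)).add (q15.ge.smul c.c13)).add
      (q25.ge.smul c.c23))).congr (by rw [Hk.K2]; abel) (by rw [mul_comm])
  obtain ⟨B, K3⟩ : ∃ B : κ, Ld w 5 (p.K3 c) (B • (X 0 * X 1)) :=
    ⟨c.c03 * u1 + c.c13 * u2 + c.c23 * u3,
      (((((q15.sub_ge q24).smul c.c03).add (q25.smul c.c13)).add (q35.smul c.c23)).add_ge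
        (((q13.smul c.c01).add (q14.smul c.c02)).add (q24.smul c.c12))).congr
        (by rw [Hk.K3]; abel) (by simp only [Algebra.smul_def, map_add, map_mul]; ring)⟩
  obtain ⟨b4, b5, b6⟩ := key 5 K1.ge K3.ge
  have aux : ∀ s t r : κ, Ld w 4 (s • p.K1 c + t • p.K2 c + r • p.K3 c)
      ((t * c.c03) • (X 0 * X 2)) := fun s t r =>
    ((K2.smul t).add_ge ((K1.ge.smul s).add (K3.ge.smul r))).congr (by abel) (mul_smul _ _ _)
  have j1 := (aux (h1 * k2 - h2 * k1 + k2 ^ 2) (-(h2 * k2)) (h2 ^ 2)).congr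
    (i1.trans (by module)) rfl
  have j2 := (aux (h2 * k0 - k1 * k2) (h1 * k2) (-(h1 * h2))).congr (i2.trans (by module)) rfl
  have j3 := (aux _ _ _).congr i3 rfl
  refine ⟨fun q hq => ?_, ?_⟩
  · simp only [P_2h, List.mem_cons, List.not_mem_nil, or_false] at hq
    rcases hq with rfl | rfl | rfl
    · have l := ((K2.mul (lx.smul k2)).add_ge ((K1.ge.mul
        (((l4.ge.mono (by decide)).smul k0).add (lx.ge.smul k1))).sub (K3.ge.mul
        (((l4.ge.mono (by decide)).smul (h1 + k2)).add (lx.ge.smul h2))))).congr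
        (f' := p.RB c 0 h1 h2 k0 k1 k2 p.a4 p.a5)
        (by rw [Hk.RB, zero_smul, zero_add, sub_zero]; ring) rfl
      refine ⟨_, (h.mRB E).2, l.init hw (init_of (t := c.c03 * k2) (e := 0)
        (mul_ne_zero hc hk2) (zero_mem _) ?_)⟩
      simp only [mon, Algebra.smul_def, map_mul]; ring
    · have l := ((((K1.mul (lz.smul k0)).add (K2.mul (l1.smul k2))).sub
        (K3.mul (lz.smul (h1 + k2)))).add_ge ((K1.ge.mul (l1.ge.smul k1)).sub
        (K3.ge.mul (l1.ge.smul h2)))).congr (f' := p.RB c 0 h1 h2 k0 k1 k2 p.a0 p.a1)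
        (by rw [Hk.RB, zero_smul, zero_add, sub_zero]; ring) rfl
      refine ⟨_, (h.mRB E).1, l.init hw (init_of (t := A * k0)
        (e := (c.c03 * k2 * u1 - B * (h1 + k2)) • mon κ 1 1 1)
        (mul_ne_zero hA hk0) (Submodule.smul_mem _ _ (mon_gt (by decide))) ?_)⟩
      simp only [mon, Algebra.smul_def, map_mul, map_sub]; ring
    · have l := ((((j1.mul q25).sub (j2.mul q15)).add (((K1.smul _).congr i4 rfl).mul q05)).add_ge
        (((b3.mul q14).sub (b5.mul q04.ge)).add (b6.mul q03.ge))).congr (f' := p.dx u1 u2 u3 u4)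
        (by
          simp only [Hk.dx, Hk.d012, Hk.d013, Hk.d023, Hk.d123, Hk.q25, Hk.q15, Hk.q05, Hk.q14,
            Hk.q04, Hk.q03, Algebra.smul_def]
          ring) rfl
      refine ⟨_, h.mdx u1 u2 u3 u4, l.init hw (init_of (t := k0 * k2 * A)
        (e := (-(h2 * k2) * c.c03 * u2 - h1 * k2 * c.c03 * u1) • mon κ 2 1 1)
        (mul_ne_zero (mul_ne_zero hk0 hk2) hA) (Submodule.smul_mem _ _ (mon_gt (by decide))) ?_)⟩
      simp only [mon, Algebra.smul_def, map_mul, map_sub, map_neg]; ring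
  · have lc := (((l2.mul (l3.mul l4)).add (l2.mul (l3.mul l4))).sub (l1.mul (l4.mul l4))).sub
      (l3.mul (l3.mul l3))
    by_cases hP : u1 * u3 - u2 ^ 2 = 0
    · obtain ⟨v, s1⟩ : ∃ v : κ, Ld w 4 (p.a1 - u1 • X 1) (v • (X 0 * X 2)) :=
        ⟨_, (((j1.smul m2).add (j2.smul m3)).add (j3.smul m4)).congr r1
          (by rw [smul_smul, smul_smul, smul_smul, ← add_smul, ← add_smul])⟩
      have s2 := ((b4.smul _).add (b5.smul _)).congr r2
      have s3 := ((b6.smul _).sub (b4.smul _)).congr r3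
      have e0 : algebraMap κ (PS κ) u1 * algebraMap κ (PS κ) u3 - algebraMap κ (PS κ) u2 ^ 2 = 0 := by
        rw [← map_mul, ← map_pow, ← map_sub, hP, map_zero]
      have lq := ((s1.mul l3).add_ge (((ly.ge.smul u1).mul s3).sub
        ((l2.ge.add (ly.ge.smul u2)).mul s2))).congr (f' := p.q13)
        (by simp only [Hk.q13, Algebra.smul_def]; linear_combination (X 1 : PS κ) ^ 2 * e0) rfl
      have l := ((lx.mul lq).add lc).congr (f' := p.d123) (by rw [Hk.d123, Hk.q13]; ring) rfl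
      refine .inr ⟨_, h.m123, l.init hw (init_of (t := 2 * (u2 * u3 * u4) - u1 * u4 ^ 2 - u3 ^ 3)
        (e := (v * u3) • mon κ 2 1 1) (PK2Hx.cub hP hr)
        (Submodule.smul_mem _ _ (mon_gt (by decide))) ?_)⟩
      simp only [mon, Algebra.smul_def, map_mul, map_sub, map_pow, map_ofNat]; ring
    · have l := ((lx.mul ((l1.mul l3).sub (l2.mul l2))).add_ge lc.ge).congr (f' := p.d123)
        (by rw [Hk.d123]; ring) rfl
      refine .inl ⟨_, h.m123, l.init hw (init_of (t := u1 * u3 - u2 ^ 2) (e := 0) hP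
        (zero_mem _) ?_)⟩
      simp only [mon, Algebra.smul_def, map_mul, map_sub, map_pow]; ring

end Pool.Agent.P.MP_6149fc_ag.V22

end
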